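import Pool.Agent.Hhelper67.Johnson.Balls

/-!
LDJ (logarithmic density of the Johnson filtration), PART I: counting interface.

`wd c [f_1, ..., f_L] = f_1 c(f_1,f_2) f_2 c(f_2,f_3) ... f_L c(f_L,1)`.

`Decodable S N`: there are connectors `c(f,f')` in `N`, of bounded length, such that the map
`(f_1,...,f_L) -> wd c [f_1,...,f_L]` on `L`-tuples of elements of the ball of radius `r` has
fibres of size at most `(C (r+1)^κ)^L`.
-/

namespace Pool.Agent.LDJ

open Pool.Agent.Hhelper67.Johnson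

section

variable {G : Type} [Group G]

/-- `f_1 c(f_1,f_2) f_2 c(f_2,f_3) ... f_L c(f_L,1)` -/
def wd (c : G → G → G) : List G → G
  | [] => 1
  | f :: l => f * c f (l.headD 1) * wd c l

/-- the decoding property of `N` -/
def Decodable (S : Finset G) (N : Subgroup G) : Prop :=
  ∃ (c : G → G → G) (ell κ C : ℕ),
    (∀ f f', c f f' ∈ N) ∧ (∀ f f', c f f' ∈ ball S ell) ∧
    ∀ (r L : ℕ) (w : G),
      {l : List G | l.length = L ∧ (∀ f ∈ l, f ∈ ball S r) ∧ wd c l = w}.ncard
        ≤ (C * (r + 1) ^ κ) ^ L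

/-- a decreasing chain `T 1 ≥ T 2 ≥ ...` of normal subgroups with abelian quotients -/
structure Chain (T : ℕ → Subgroup G) : Prop where
  normal : ∀ m, (T m).Normal
  anti : ∀ m, T (m + 1) ≤ T m
  comm : ∀ m, 1 ≤ m → ∀ z ∈ T m, ∀ w ∈ T m, z * w * z⁻¹ * w⁻¹ ∈ T (m + 1)

end

end Pool.Agent.LDJ
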