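import Pool.Agent.LDJ.FDef

/-!
LDJ.FBas: elementary inequalities on the hyperboloid. `κ(x,y) = -B x y`.

PROOFS.
`one_le`: `x = (a,b,c)`, `c = √(1+a²+b²)`; Cauchy-Schwarz `a a' + b b' + 1 ≤ c c'`. Equality only
if `(a,b,1)`, `(a',b',1)` proportional, i.e. equal.
`light_neg`: `a u0 + b u1 ≤ √(a²+b²) u2 < c u2`. `light_light`: Cauchy-Schwarz; equality iff
proportional.
Orthogonal decomposition with respect to `y ∈ Hyp`: `v = -B(v,y) y + v'`, `B v' y = 0`, and `B` is
positive definite on the orthogonal complement of `y`, so `|B v' w'| ≤ √(B v' v') √(B w' w')`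
(prove `B(v',w')² ≤ B(v',v') B(w',w')` for `v', w'` orthogonal to `y`, e.g. from
`0 ≤ B(v' + t w', v' + t w')` for all `t`, discriminant).
`tri`: `x = κ(x,y) y + x'`, `z = κ(y,z) y + z'`: `κ(x,z) = κ(x,y) κ(y,z) - B x' z'`,
`B x' x' = κ(x,y)² - 1`; so `κ(x,z) ≤ 2 κ(x,y) κ(y,z)`.
`nor_le`: `B x n = κ(x,y) B(y,n) + B(x',n')`, `B n' n' = 1 + B(y,n)²`:
`|B x n| ≤ κ(x,y) (1 + 2 |B y n|)`.
`opp`: with respect to `n` (`B n n = 1`): `x = α n + x'`, `y = β n + y'`, `α ≥ 0 ≥ β`,
`B x' x' = -(1+α²)`, `B y' y' = -(1+β²)`, both future timelike or... : `x'/√(1+α²) ∈ Hyp`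
(its third coordinate is positive: `x' = x - α n` is timelike and `B x' x = -1-α² < 0`). So
`-B x y = -αβ - B x' y' ≥ -αβ + √(1+α²) √(1+β²)`.
`foot`: `p = (x - B(x,n) n)/√(1+B(x,n)²)`.
`gen_bound`: a linear isometry is determined in size by `κ(o, L o)`: for every vector `v` there is
`c` with `|(L v) i| ≤ c κ(o, L o)` for all `L` preserving `B` and `Hyp`: e.g. write `v` as a linear
combination of three fixed points of `Hyp` (`o`, `(1,0,√2)`, `(0,1,√2)`) and use that for
`x ∈ Hyp` all coordinates of `L x ∈ Hyp` are at most `(L x) 2 = κ(o, L x) ≤ 2 κ(o, L o) κ(o, x)`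
in absolute value. About 250 lines.
-/

namespace Pool.Agent.LDJ

theorem B_comm (u v : V) : B u v = B v u := by
  unfold B
  ring

theorem B_add_left (u v w : V) : B (u + v) w = B u w + B v w := by
  unfold B
  simp only [Pi.add_apply]
  ring

theorem B_smul_left (t : ℝ) (u w : V) : B (t • u) w = t * B u w := by
  unfold B
  simp only [Pi.smul_apply, smul_eq_mul]
  ring

theorem B_add_right (u v w : V) : B w (u + v) = B w u + B w v := by
  unfold B
  simp only [Pi.add_apply]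
  ring

theorem B_smul_right (t : ℝ) (u w : V) : B w (t • u) = t * B w u := by
  unfold B
  simp only [Pi.smul_apply, smul_eq_mul]
  ring

theorem o_mem : o ∈ Hyp := by
  constructor
  · simp [B, o]
  · simp [o]

theorem one_le {x y : V} (hx : x ∈ Hyp) (hy : y ∈ Hyp) : 1 ≤ -B x y := by
  obtain ⟨hx1, hx2⟩ := hx
  obtain ⟨hy1, hy2⟩ := hy
  simp only [B] at hx1 hy1 ⊢
  have h1 : (1 + x 0 * y 0 + x 1 * y 1) ^ 2 ≤ (x 2 * y 2) ^ 2 := by
    have e1 : x 2 * x 2 = 1 + x 0 * x 0 + x 1 * x 1 := by linarith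
    have e2 : y 2 * y 2 = 1 + y 0 * y 0 + y 1 * y 1 := by linarith
    have e3 : (x 2 * y 2) ^ 2 = (1 + x 0 * x 0 + x 1 * x 1) * (1 + y 0 * y 0 + y 1 * y 1) := by
      rw [← e1, ← e2]
      ring
    rw [e3]
    nlinarith [sq_nonneg (x 0 - y 0), sq_nonneg (x 1 - y 1), sq_nonneg (x 0 * y 1 - x 1 * y 0)]
  have h2 := abs_le_of_sq_le_sq' h1 (mul_pos hx2 hy2).le
  linarith [h2.2]

theorem eq_of_one {x y : V} (hx : x ∈ Hyp) (hy : y ∈ Hyp) (h : -B x y = 1) : x = y := by
  obtain ⟨hx1, hx2⟩ := hx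
  obtain ⟨hy1, hy2⟩ := hy
  simp only [B] at hx1 hy1 h
  have e1 : x 2 * x 2 = 1 + x 0 * x 0 + x 1 * x 1 := by linarith
  have e2 : y 2 * y 2 = 1 + y 0 * y 0 + y 1 * y 1 := by linarith
  have e0 : x 2 * y 2 = 1 + x 0 * y 0 + x 1 * y 1 := by linarith
  have e3 : (1 + x 0 * y 0 + x 1 * y 1) ^ 2 =
      (1 + x 0 * x 0 + x 1 * x 1) * (1 + y 0 * y 0 + y 1 * y 1) := by
    rw [← e1, ← e2, ← e0]
    ring
  have e4 : (x 0 - y 0) ^ 2 + (x 1 - y 1) ^ 2 + (x 0 * y 1 - x 1 * y 0) ^ 2 = 0 := by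
    linear_combination -e3
  have e5 : x 0 = y 0 := by
    have : (x 0 - y 0) ^ 2 = 0 := by
      nlinarith [sq_nonneg (x 0 - y 0), sq_nonneg (x 1 - y 1), sq_nonneg (x 0 * y 1 - x 1 * y 0)]
    have := pow_eq_zero_iff (two_ne_zero) |>.mp this
    linarith
  have e6 : x 1 = y 1 := by
    have : (x 1 - y 1) ^ 2 = 0 := by
      nlinarith [sq_nonneg (x 0 - y 0), sq_nonneg (x 1 - y 1), sq_nonneg (x 0 * y 1 - x 1 * y 0)]
    have := pow_eq_zero_iff (two_ne_zero) |>.mp this
    linarith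
  have e7 : x 2 = y 2 := by
    have h1 : x 2 * x 2 = y 2 * y 2 := by rw [e1, e2, e5, e6]
    have h2 : (x 2 - y 2) * (x 2 + y 2) = 0 := by linear_combination h1
    rcases mul_eq_zero.mp h2 with h3 | h3
    · linarith
    · linarith
  funext i
  fin_cases i
  · exact e5
  · exact e6
  · exact e7

theorem light_neg {x u : V} (hx : x ∈ Hyp) (hu : u ∈ Light) : B x u < 0 := by
  obtain ⟨hx1, hx2⟩ := hx
  obtain ⟨hu1, hu2⟩ := hu
  simp only [B] at hx1 hu1 ⊢
  have h1 : (x 0 * u 0 + x 1 * u 1) ^ 2 < (x 2 * u 2) ^ 2 := by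
    have e1 : x 2 * x 2 = 1 + x 0 * x 0 + x 1 * x 1 := by linarith
    have e2 : u 2 * u 2 = u 0 * u 0 + u 1 * u 1 := by linarith
    have e3 : (x 2 * u 2) ^ 2 = (1 + x 0 * x 0 + x 1 * x 1) * (u 0 * u 0 + u 1 * u 1) := by
      rw [← e1, ← e2]
      ring
    have e4 : 0 < u 0 * u 0 + u 1 * u 1 := by
      rw [← e2]
      positivity
    rw [e3]
    nlinarith [sq_nonneg (x 0 * u 1 - x 1 * u 0)]
  have h2 := abs_lt_of_sq_lt_sq' h1 (mul_pos hx2 hu2).le
  linarith [h2.2]

theorem light_light {u v : V} (hu : u ∈ Light) (hv : v ∈ Light) :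
    B u v ≤ 0 ∧ (B u v = 0 → ∃ t : ℝ, 0 < t ∧ v = t • u) := by
  obtain ⟨hu1, hu2⟩ := hu
  obtain ⟨hv1, hv2⟩ := hv
  simp only [B] at hu1 hv1 ⊢
  have e1 : u 2 * u 2 = u 0 * u 0 + u 1 * u 1 := by linarith
  have e2 : v 2 * v 2 = v 0 * v 0 + v 1 * v 1 := by linarith
  have e3 : (u 2 * v 2) ^ 2 = (u 0 * u 0 + u 1 * u 1) * (v 0 * v 0 + v 1 * v 1) := by
    rw [← e1, ← e2]
    ring
  constructor
  · have h1 : (u 0 * v 0 + u 1 * v 1) ^ 2 ≤ (u 2 * v 2) ^ 2 := by
      rw [e3]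
      nlinarith [sq_nonneg (u 0 * v 1 - u 1 * v 0)]
    have h2 := abs_le_of_sq_le_sq' h1 (mul_pos hu2 hv2).le
    linarith [h2.2]
  · intro h0
    have e4 : u 0 * v 0 + u 1 * v 1 = u 2 * v 2 := by linarith
    have e5 : (u 0 * v 1 - u 1 * v 0) ^ 2 = 0 := by
      rw [← e4] at e3
      linear_combination -e3
    have e6 : u 0 * v 1 - u 1 * v 0 = 0 := pow_eq_zero_iff (two_ne_zero) |>.mp e5
    have hu0 : u 2 ≠ 0 := hu2.ne'
    refine ⟨v 2 / u 2, div_pos hv2 hu2, ?_⟩
    have e7 : v 0 = v 2 / u 2 * u 0 := by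
      rw [div_mul_eq_mul_div, eq_div_iff hu0]
      have h1 : (v 0 * u 2 - v 2 * u 0) * u 2 = 0 := by
        linear_combination v 0 * e1 + u 0 * e4 - u 1 * e6
      rcases mul_eq_zero.mp h1 with h2 | h2
      · linarith
      · exact absurd h2 hu0
    have e8 : v 1 = v 2 / u 2 * u 1 := by
      rw [div_mul_eq_mul_div, eq_div_iff hu0]
      have h1 : (v 1 * u 2 - v 2 * u 1) * u 2 = 0 := by
        linear_combination v 1 * e1 + u 1 * e4 + u 0 * e6
      rcases mul_eq_zero.mp h1 with h2 | h2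
      · linarith
      · exact absurd h2 hu0
    funext i
    fin_cases i
    · exact e7
    · exact e8
    · show v 2 = v 2 / u 2 * u 2
      field_simp

/-- `B` is nonnegative on the orthogonal complement of a point -/
theorem fb_nonneg {y v : V} (hy : y ∈ Hyp) (h : B v y = 0) : 0 ≤ B v v := by
  obtain ⟨hy1, hy2⟩ := hy
  simp only [B] at hy1 h ⊢
  have e1 : y 0 * y 0 + y 1 * y 1 = y 2 * y 2 - 1 := by linarith
  have e2 : v 0 * y 0 + v 1 * y 1 = v 2 * y 2 := by linarith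
  have e3 : (v 2 * y 2) ^ 2 ≤ (v 0 * v 0 + v 1 * v 1) * (y 2 * y 2 - 1) := by
    rw [← e1, ← e2]
    nlinarith [sq_nonneg (v 0 * y 1 - v 1 * y 0)]
  have e4 : 0 ≤ (v 0 * v 0 + v 1 * v 1 - v 2 * v 2) * (y 2 * y 2) := by
    nlinarith [mul_self_nonneg (v 0), mul_self_nonneg (v 1)]
  have e5 : 0 < y 2 * y 2 := mul_pos hy2 hy2
  have e6 := nonneg_of_mul_nonneg_left e4 e5
  linarith

/-- Cauchy-Schwarz on the orthogonal complement of a point -/
theorem fb_cs {y v w : V} (hy : y ∈ Hyp) (hv : B v y = 0) (hw : B w y = 0) :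
    B v w ^ 2 ≤ B v v * B w w := by
  have h1 : ∀ t : ℝ, 0 ≤ B w w * (t * t) + 2 * B v w * t + B v v := by
    intro t
    have h2 : B (v + t • w) y = 0 := by
      rw [B_add_left, B_smul_left, hv, hw]
      ring
    have h3 := fb_nonneg hy h2
    have h4 : B (v + t • w) (v + t • w) = B w w * (t * t) + 2 * B v w * t + B v v := by
      rw [B_add_left, B_add_right, B_add_right, B_smul_left, B_smul_left, B_smul_right,
        B_smul_right, B_comm w v]
      ring
    linarith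
  have h5 := discrim_le_zero h1
  unfold discrim at h5
  nlinarith

/-- timelike vectors with negative product with a point are future -/
theorem fb_future {x v : V} (hx : x ∈ Hyp) (hv : B v v < 0) (h : B v x < 0) : 0 < v 2 := by
  by_contra hcon
  rw [not_lt] at hcon
  have hv2 : v 2 ≠ 0 := by
    intro h0
    simp only [B] at hv
    rw [h0] at hv
    nlinarith [mul_self_nonneg (v 0), mul_self_nonneg (v 1)]
  have hs : 0 < Real.sqrt (-B v v) := Real.sqrt_pos.mpr (by linarith)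
  have hs2 : Real.sqrt (-B v v) ^ 2 = -B v v := Real.sq_sqrt (by linarith)
  have h1 : (-(Real.sqrt (-B v v))⁻¹) • v ∈ Hyp := by
    constructor
    · rw [B_smul_left, B_smul_right]
      have h2 : (Real.sqrt (-B v v))⁻¹ ^ 2 * (-B v v) = 1 := by
        rw [inv_pow, hs2]
        exact inv_mul_cancel₀ (by linarith)
      linear_combination -h2
    · rw [Pi.smul_apply, smul_eq_mul]
      have h3 : v 2 < 0 := lt_of_le_of_ne hcon hv2
      have h4 : 0 < (Real.sqrt (-B v v))⁻¹ := inv_pos.mpr hs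
      nlinarith
  have h5 := one_le h1 hx
  rw [B_smul_left] at h5
  have h6 : 0 < (Real.sqrt (-B v v))⁻¹ := inv_pos.mpr hs
  nlinarith

/-- the projection of a point to the orthogonal complement of a normal -/
theorem fb_proj {x n : V} (hx : x ∈ Hyp) (hn : B n n = 1) :
    (Real.sqrt (1 + B x n ^ 2))⁻¹ • (x + (-(B x n)) • n) ∈ Hyp := by
  have hs : 0 < Real.sqrt (1 + B x n ^ 2) := Real.sqrt_pos.mpr (by positivity)
  have hs2 : Real.sqrt (1 + B x n ^ 2) ^ 2 = 1 + B x n ^ 2 := Real.sq_sqrt (by positivity)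
  have h1 : B (x + (-(B x n)) • n) (x + (-(B x n)) • n) = -(1 + B x n ^ 2) := by
    rw [B_add_left, B_add_right, B_add_right, B_smul_left, B_smul_left, B_smul_right,
      B_smul_right, B_comm n x, hn, hx.1]
    ring
  have h2 : B (x + (-(B x n)) • n) x = -(1 + B x n ^ 2) := by
    rw [B_add_left, B_smul_left, B_comm n x, hx.1]
    ring
  have h3 : 0 < (x + (-(B x n)) • n) 2 := by
    apply fb_future hx
    · rw [h1]
      nlinarith [sq_nonneg (B x n)]
    · rw [h2]
      nlinarith [sq_nonneg (B x n)]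
  constructor
  · rw [B_smul_left, B_smul_right, h1]
    have h4 : (Real.sqrt (1 + B x n ^ 2))⁻¹ ^ 2 * (1 + B x n ^ 2) = 1 := by
      rw [inv_pow, hs2]
      exact inv_mul_cancel₀ (by positivity)
    linear_combination -h4
  · rw [Pi.smul_apply, smul_eq_mul]
    exact mul_pos (inv_pos.mpr hs) h3

theorem tri {x y z : V} (hx : x ∈ Hyp) (hy : y ∈ Hyp) (hz : z ∈ Hyp) :
    -B x z ≤ 2 * (-B x y) * (-B y z) := by
  have ha := one_le hx hy
  have hb := one_le hy hz
  set a := -B x y with haa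
  set b := -B y z with hbb
  have hxy : B x y = -a := by rw [haa]; ring
  have hyz : B y z = -b := by rw [hbb]; ring
  have h1 : B (x + (-a) • y) y = 0 := by
    rw [B_add_left, B_smul_left, hy.1, hxy]
    ring
  have h2 : B (z + (-b) • y) y = 0 := by
    rw [B_add_left, B_smul_left, hy.1, B_comm z y, hyz]
    ring
  have h3 := fb_cs hy h1 h2
  have h4 : B (x + (-a) • y) (z + (-b) • y) = B x z + a * b := by
    rw [B_add_left, B_add_right, B_add_right, B_smul_left, B_smul_left, B_smul_right,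
      B_smul_right, hy.1, hxy, hyz]
    ring
  have h5 : B (x + (-a) • y) (x + (-a) • y) = a ^ 2 - 1 := by
    rw [B_add_left, B_add_right, B_add_right, B_smul_left, B_smul_left, B_smul_right,
      B_smul_right, hy.1, B_comm y x, hxy, hx.1]
    ring
  have h6 : B (z + (-b) • y) (z + (-b) • y) = b ^ 2 - 1 := by
    rw [B_add_left, B_add_right, B_add_right, B_smul_left, B_smul_left, B_smul_right,
      B_smul_right, hy.1, B_comm z y, hyz, hz.1]
    ring
  rw [h4, h5, h6] at h3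
  have h7 : (B x z + a * b) ^ 2 ≤ (a * b) ^ 2 := by
    nlinarith [mul_self_nonneg a, mul_self_nonneg b]
  have h8 := abs_le_of_sq_le_sq' h7 (by positivity)
  nlinarith [h8.1]

theorem nor_le {x y n : V} (hx : x ∈ Hyp) (hy : y ∈ Hyp) (hn : B n n = 1) :
    |B x n| ≤ (-B x y) * (1 + 2 * |B y n|) := by
  have ha := one_le hx hy
  set a := -B x y with haa
  set β := B y n with hβ
  have hxy : B x y = -a := by rw [haa]; ring
  have h1 : B (x + (-a) • y) y = 0 := by
    rw [B_add_left, B_smul_left, hy.1, hxy]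
    ring
  have h2 : B (n + β • y) y = 0 := by
    rw [B_add_left, B_smul_left, hy.1, B_comm n y, ← hβ]
    ring
  have h3 := fb_cs hy h1 h2
  have h4 : B (x + (-a) • y) (n + β • y) = B x n - a * β := by
    rw [B_add_left, B_add_right, B_add_right, B_smul_left, B_smul_left, B_smul_right,
      B_smul_right, hy.1, hxy, ← hβ]
    ring
  have h5 : B (x + (-a) • y) (x + (-a) • y) = a ^ 2 - 1 := by
    rw [B_add_left, B_add_right, B_add_right, B_smul_left, B_smul_left, B_smul_right,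
      B_smul_right, hy.1, B_comm y x, hxy, hx.1]
    ring
  have h6 : B (n + β • y) (n + β • y) = 1 + β ^ 2 := by
    rw [B_add_left, B_add_right, B_add_right, B_smul_left, B_smul_left, B_smul_right,
      B_smul_right, hy.1, B_comm n y, ← hβ, hn]
    ring
  rw [h4, h5, h6] at h3
  have hb0 : 0 ≤ |β| := abs_nonneg β
  have hb2 : |β| ^ 2 = β ^ 2 := sq_abs β
  have h7 : (B x n - a * β) ^ 2 ≤ (a * (1 + |β|)) ^ 2 := by
    have h8 : (a ^ 2 - 1) * (1 + β ^ 2) ≤ a ^ 2 * (1 + β ^ 2) := by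
      nlinarith [sq_nonneg β]
    have h9 : a ^ 2 * (1 + β ^ 2) ≤ a ^ 2 * (1 + |β|) ^ 2 := by
      apply mul_le_mul_of_nonneg_left _ (sq_nonneg a)
      nlinarith
    calc _ ≤ _ := h3
      _ ≤ a ^ 2 * (1 + |β|) ^ 2 := h8.trans h9
      _ = _ := by ring
  have h8 := abs_le_of_sq_le_sq h7 (by positivity)
  have h9 : |B x n| ≤ |B x n - a * β| + |a * β| := by
    have := abs_add_le (B x n - a * β) (a * β)
    rwa [sub_add_cancel] at this
  rw [abs_mul, abs_of_pos (by linarith : 0 < a)] at h9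
  nlinarith

theorem opp {x y n : V} (hx : x ∈ Hyp) (hy : y ∈ Hyp) (hn : B n n = 1) (h1 : 0 ≤ B x n)
    (h2 : B y n ≤ 0) :
    -(B x n * B y n) + Real.sqrt (1 + B x n ^ 2) * Real.sqrt (1 + B y n ^ 2) ≤ -B x y := by
  have hs1 : 0 < Real.sqrt (1 + B x n ^ 2) := Real.sqrt_pos.mpr (by positivity)
  have hs2 : 0 < Real.sqrt (1 + B y n ^ 2) := Real.sqrt_pos.mpr (by positivity)
  have h3 := one_le (fb_proj hx hn) (fb_proj hy hn)
  rw [B_smul_left, B_smul_right] at h3
  have h4 : B (x + (-(B x n)) • n) (y + (-(B y n)) • n) = B x y - B x n * B y n := by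
    rw [B_add_left, B_add_right, B_add_right, B_smul_left, B_smul_left, B_smul_right,
      B_smul_right, hn, B_comm n y]
    ring
  rw [h4] at h3
  set p := Real.sqrt (1 + B x n ^ 2) with hp
  set q := Real.sqrt (1 + B y n ^ 2) with hq
  have h5 : p * q * 1 ≤ p * q * -(p⁻¹ * (q⁻¹ * (B x y - B x n * B y n))) :=
    mul_le_mul_of_nonneg_left h3 (by positivity)
  have h6 : p * q * -(p⁻¹ * (q⁻¹ * (B x y - B x n * B y n))) = -(B x y - B x n * B y n) := by
    field_simp
  rw [h6] at h5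
  linarith

theorem foot {x n : V} (hx : x ∈ Hyp) (hn : B n n = 1) :
    ∃ p ∈ Hyp, B p n = 0 ∧ -B x p = Real.sqrt (1 + B x n ^ 2) := by
  have hs : 0 < Real.sqrt (1 + B x n ^ 2) := Real.sqrt_pos.mpr (by positivity)
  have hs2 : Real.sqrt (1 + B x n ^ 2) ^ 2 = 1 + B x n ^ 2 := Real.sq_sqrt (by positivity)
  refine ⟨_, fb_proj hx hn, ?_, ?_⟩
  · rw [B_smul_left, B_add_left, B_smul_left, hn]
    ring
  · rw [B_smul_right, B_add_right, B_smul_right, hx.1]
    have h1 : -((Real.sqrt (1 + B x n ^ 2))⁻¹ * (-1 + -B x n * B x n)) =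
        (Real.sqrt (1 + B x n ^ 2))⁻¹ * (1 + B x n ^ 2) := by ring
    rw [h1]
    nth_rewrite 2 [← hs2]
    field_simp

/-- the unit normal `n` to two independent light vectors, and the shape of the line -/
theorem line_normal {u v : V} (hu : u ∈ Light) (hv : v ∈ Light) (h : B u v < 0) :
    ∃ n, B n n = 1 ∧ B u n = 0 ∧ B v n = 0 ∧
      ∀ z, B z n * B z n = B z z - 2 * B z u * B z v / B u v := by
  have hu1 := hu.1
  have hv1 := hv.1
  set k := B u v with hk
  have hk0 : k ≠ 0 := h.ne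
  set w : V := ![u 1 * v 2 - u 2 * v 1, u 2 * v 0 - u 0 * v 2, -(u 0 * v 1 - u 1 * v 0)] with hw
  have w0 : w 0 = u 1 * v 2 - u 2 * v 1 := rfl
  have w1 : w 1 = u 2 * v 0 - u 0 * v 2 := rfl
  have w2 : w 2 = -(u 0 * v 1 - u 1 * v 0) := rfl
  have hkk : k = u 0 * v 0 + u 1 * v 1 - u 2 * v 2 := rfl
  have huu : u 0 * u 0 + u 1 * u 1 - u 2 * u 2 = 0 := hu1
  have hvv : v 0 * v 0 + v 1 * v 1 - v 2 * v 2 = 0 := hv1
  have e1 : B w w = k ^ 2 := by
    simp only [B]
    rw [w0, w1, w2, hkk]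
    linear_combination -(v 0 * v 0 + v 1 * v 1 - v 2 * v 2) * huu
  have key : ∀ z : V, B z w ^ 2 = B z z * k ^ 2 - 2 * B z u * B z v * k := by
    intro z
    simp only [B]
    rw [w0, w1, w2, hkk]
    linear_combination (-(z 0 * z 0 + z 1 * z 1 - z 2 * z 2) *
      (v 0 * v 0 + v 1 * v 1 - v 2 * v 2) + (z 0 * v 0 + z 1 * v 1 - z 2 * v 2) ^ 2) * huu +
      ((z 0 * u 0 + z 1 * u 1 - z 2 * u 2) ^ 2) * hvv
  refine ⟨k⁻¹ • w, ?_, ?_, ?_, ?_⟩
  · rw [B_smul_left, B_smul_right, e1]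
    field_simp
  · rw [B_smul_right]
    have : B u w = 0 := by
      simp only [B]
      rw [w0, w1, w2]
      ring
    rw [this, mul_zero]
  · rw [B_smul_right]
    have : B v w = 0 := by
      simp only [B]
      rw [w0, w1, w2]
      ring
    rw [this, mul_zero]
  · intro z
    rw [B_smul_right]
    have h1 := key z
    have h2 : k⁻¹ * B z w * (k⁻¹ * B z w) = k⁻¹ ^ 2 * B z w ^ 2 := by ring
    rw [h2, h1]
    field_simp

theorem line_shape {u v n x : V} (hu : u ∈ Light) (hv : v ∈ Light) (h : B u v < 0)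
    (hn : B n n = 1) (hun : B u n = 0) (hvn : B v n = 0) (hx : x ∈ Hyp) (hxn : B x n = 0) :
    ∃ a b : ℝ, 0 < a ∧ 0 < b ∧ 2 * a * b * (-B u v) = 1 ∧ x = a • u + b • v := by
  have hxu := light_neg hx hu
  have hxv := light_neg hx hv
  have hk0 : B u v ≠ 0 := h.ne
  set a := B x v / B u v with ha
  set b := B x u / B u v with hb
  have ha0 : 0 < a := div_pos_of_neg_of_neg hxv h
  have hb0 : 0 < b := div_pos_of_neg_of_neg hxu h
  have ha1 : a * B u v = B x v := by
    rw [ha]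
    field_simp
  have hb1 : b * B u v = B x u := by
    rw [hb]
    field_simp
  set y : V := x + ((-a) • u + (-b) • v) with hy
  have hyu : B y u = 0 := by
    rw [hy, B_add_left, B_add_left, B_smul_left, B_smul_left, hu.1, B_comm v u]
    linear_combination -hb1
  have hyv : B y v = 0 := by
    rw [hy, B_add_left, B_add_left, B_smul_left, B_smul_left, hv.1]
    linear_combination -ha1
  have hyn : B y n = 0 := by
    rw [hy, B_add_left, B_add_left, B_smul_left, B_smul_left, hun, hvn, hxn]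
    ring
  have hdet : det3 u v n ^ 2 = B u v ^ 2 := by
    have h1 := hu.1
    have h2 := hv.1
    simp only [B] at h1 h2 hn hun hvn
    simp only [det3, B]
    linear_combination (-(v 0 * v 0 + v 1 * v 1 - v 2 * v 2) *
      (n 0 * n 0 + n 1 * n 1 - n 2 * n 2) + (v 0 * n 0 + v 1 * n 1 - v 2 * n 2) ^ 2) * h1 +
      ((u 0 * n 0 + u 1 * n 1 - u 2 * n 2) * (u 0 * n 0 + u 1 * n 1 - u 2 * n 2)) * h2 +
      ((u 0 * v 0 + u 1 * v 1 - u 2 * v 2) ^ 2) * hn -
      (2 * (u 0 * v 0 + u 1 * v 1 - u 2 * v 2) * (v 0 * n 0 + v 1 * n 1 - v 2 * n 2)) * hun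
  have hdet0 : det3 u v n ≠ 0 := by
    intro h0
    rw [h0] at hdet
    have : B u v ^ 2 = 0 := by rw [← hdet]; ring
    exact hk0 (pow_eq_zero_iff (two_ne_zero) |>.mp this)
  simp only [B] at hyu hyv hyn
  have hy0 : y 0 = 0 := by
    have : det3 u v n * y 0 = 0 := by
      simp only [det3]
      linear_combination (v 1 * n 2 - v 2 * n 1) * hyu + (n 1 * u 2 - n 2 * u 1) * hyv +
        (u 1 * v 2 - u 2 * v 1) * hyn
    exact (mul_eq_zero.mp this).resolve_left hdet0
  have hy1 : y 1 = 0 := by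
    have : det3 u v n * y 1 = 0 := by
      simp only [det3]
      linear_combination (v 2 * n 0 - v 0 * n 2) * hyu + (n 2 * u 0 - n 0 * u 2) * hyv +
        (u 2 * v 0 - u 0 * v 2) * hyn
    exact (mul_eq_zero.mp this).resolve_left hdet0
  have hy2 : y 2 = 0 := by
    have : det3 u v n * y 2 = 0 := by
      simp only [det3]
      linear_combination -(v 0 * n 1 - v 1 * n 0) * hyu - (n 0 * u 1 - n 1 * u 0) * hyv -
        (u 0 * v 1 - u 1 * v 0) * hyn
    exact (mul_eq_zero.mp this).resolve_left hdet0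
  have hx2 : x = a • u + b • v := by
    funext i
    have hyi : y i = 0 := by
      fin_cases i
      · exact hy0
      · exact hy1
      · exact hy2
    rw [hy] at hyi
    simp only [Pi.add_apply, Pi.smul_apply, smul_eq_mul] at hyi ⊢
    linarith
  refine ⟨a, b, ha0, hb0, ?_, hx2⟩
  have h3 := hx.1
  have h4 : B x x = 2 * a * b * B u v := by
    conv_lhs => rw [hx2]
    rw [B_add_left, B_add_right, B_add_right, B_smul_left, B_smul_left, B_smul_right,
      B_smul_right, B_smul_left, B_smul_left, B_smul_right, B_smul_right, hu.1, hv.1, B_comm v u]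
    ring
  rw [h4] at h3
  linarith

theorem gen_bound (v : V) : ∃ c : ℝ, ∀ L : V ≃ₗ[ℝ] V, (∀ u w, B (L u) (L w) = B u w) →
    (∀ x ∈ Hyp, L x ∈ Hyp) → ∀ i, |L v i| ≤ c * (-B o (L o)) := by
  have hco : ∀ x ∈ Hyp, ∀ i, |x i| ≤ -B o x := by
    intro x hx i
    have h1 : -B o x = x 2 := by simp [B, o]
    rw [h1]
    have h2 := hx.1
    have h3 := hx.2
    simp only [B] at h2
    apply abs_le_of_sq_le_sq _ h3.le
    fin_cases i
    · show x 0 ^ 2 ≤ x 2 ^ 2
      nlinarith [mul_self_nonneg (x 1)]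
    · show x 1 ^ 2 ≤ x 2 ^ 2
      nlinarith [mul_self_nonneg (x 0)]
    · exact le_rfl
  have hs2 : Real.sqrt 2 * Real.sqrt 2 = 2 := Real.mul_self_sqrt (by norm_num)
  have hs0 : 0 < Real.sqrt 2 := Real.sqrt_pos.mpr (by norm_num)
  set p : V := ![1, 0, Real.sqrt 2] with hp
  set q : V := ![0, 1, Real.sqrt 2] with hq
  have hpH : p ∈ Hyp := by
    constructor
    · show (1 : ℝ) * 1 + 0 * 0 - Real.sqrt 2 * Real.sqrt 2 = -1
      rw [hs2]
      norm_num
    · exact hs0
  have hqH : q ∈ Hyp := by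
    constructor
    · show (0 : ℝ) * 0 + 1 * 1 - Real.sqrt 2 * Real.sqrt 2 = -1
      rw [hs2]
      norm_num
    · exact hs0
  set g : ℝ := v 2 - Real.sqrt 2 * v 0 - Real.sqrt 2 * v 1 with hg
  have hv : v = v 0 • p + (v 1 • q + g • o) := by
    funext i
    fin_cases i
    · simp [hp, hq, o]
    · simp [hp, hq, o]
    · simp [hp, hq, o, hg]
      ring
  refine ⟨|v 0| * (2 * (-B o p)) + (|v 1| * (2 * (-B o q)) + |g| * (2 * (-B o o))),
    fun L hL1 hL2 i => ?_⟩
  have key : ∀ x ∈ Hyp, |L x i| ≤ 2 * (-B o x) * (-B o (L o)) := by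
    intro x hx
    have h1 := hco _ (hL2 x hx) i
    have h2 := tri o_mem (hL2 o o_mem) (hL2 x hx)
    rw [hL1] at h2
    calc |L x i| ≤ _ := h1
      _ ≤ _ := h2
      _ = _ := by ring
  have h1 : L v = v 0 • L p + (v 1 • L q + g • L o) := by
    conv_lhs => rw [hv]
    rw [map_add, map_add, map_smul, map_smul, map_smul]
  have h2 : L v i = v 0 * L p i + (v 1 * L q i + g * L o i) := by
    rw [h1]
    simp only [Pi.add_apply, Pi.smul_apply, smul_eq_mul]
  rw [h2]
  refine (abs_add_le _ _).trans ?_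
  have h3 := abs_add_le (v 1 * L q i) (g * L o i)
  rw [abs_mul, abs_mul] at h3
  rw [abs_mul]
  have k1 := mul_le_mul_of_nonneg_left (key p hpH) (abs_nonneg (v 0))
  have k2 := mul_le_mul_of_nonneg_left (key q hqH) (abs_nonneg (v 1))
  have k3 := mul_le_mul_of_nonneg_left (key o o_mem) (abs_nonneg g)
  nlinarith

theorem light_map {L : V ≃ₗ[ℝ] V} (h1 : ∀ u w, B (L u) (L w) = B u w)
    (h2 : ∀ x ∈ Hyp, L x ∈ Hyp) {u : V} (hu : u ∈ Light) : L u ∈ Light := by
  have h3 : B (L u) (L u) = 0 := by rw [h1]; exact hu.1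
  refine ⟨h3, ?_⟩
  have h4 : B (L o) (L u) < 0 := by
    rw [h1]
    exact light_neg o_mem hu
  by_contra hcon
  rw [not_lt] at hcon
  rcases hcon.lt_or_eq with h5 | h5
  · have h6 : (-1 : ℝ) • L u ∈ Light := by
      constructor
      · rw [B_smul_left, B_smul_right, h3]
        ring
      · rw [Pi.smul_apply, smul_eq_mul]
        linarith
    have h7 := light_neg (h2 o o_mem) h6
    rw [B_smul_right] at h7
    linarith
  · simp only [B] at h3 h4
    rw [h5] at h3 h4
    have h6 : L u 0 = 0 := by nlinarith [mul_self_nonneg (L u 0), mul_self_nonneg (L u 1)]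
    have h7 : L u 1 = 0 := by nlinarith [mul_self_nonneg (L u 0), mul_self_nonneg (L u 1)]
    rw [h6, h7] at h4
    linarith

end Pool.Agent.LDJ
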