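import Pool.Agent.LDJ.FBas

/-!
LDJ.FMS: polynomial distortion of automorphisms (Milnor-Svarc).

PROOF of `words`. Let `c ≥ 1` be from `cocpt`. For `x = (r cos φ, r sin φ, √(1+r²)) ∈ Hyp` let
`x_j = (r/2^j)(cos φ, sin φ, ·) ∈ Hyp`, and let `m` be least with `r/2^m ≤ 1`. Then
`-B x_j x_(j+1) ≤ 5/4` (with `s = r/2^(j+1)`: `√(1+s²) √(1+4s²) - 2s² ≤ 5/4` as
`(1+s²)(1+4s²) ≤ (2s²+5/4)²`), `-B x_m o = √(1+(r/2^m)²) ≤ 3/2`. So `x` and `o` are joined by a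
chain of `m + 1` steps with `-B ≤ 2`, `2^m ≤ max 1 (2r)`. For `x = ρ g o` choose `h_j` with
`-B x_j (ρ h_j o) ≤ c`, `h_0 = g`, last `= 1`. Consecutive: `-B (ρ h_j o) (ρ h_(j+1) o) ≤ 8c²`
(`tri` twice), so `h_(j+1)⁻¹ h_j ∈ E = {f | -B o (ρ f o) ≤ 8c²}` (finite, `proper`). `g` is the
product of `m + 1` elements of `E`, and `2^(m+1) ≤ 2 max 1 (2r) ≤ 4 (-B o (ρ g o))`.
PROOF of `ms`. Let `K ≥ 1` bound `-B o (ρ (φ f) o)` for `f ∈ E`, `2K ≤ 2^p`. By `tri`, for a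
product of `n` elements `-B o (ρ (φ g) o) ≤ (2K)^n ≤ (2^n)^p ≤ (C (-B o (ρ g o)))^p`.
About 200 lines.
-/

namespace Pool.Agent.LDJ

/-- the point of the hyperboloid above `(a, b)` -/
private noncomputable def fms_pt (a b : ℝ) : V := ![a, b, Real.sqrt (1 + a ^ 2 + b ^ 2)]

private theorem fms_sq (a b : ℝ) :
    Real.sqrt (1 + a ^ 2 + b ^ 2) * Real.sqrt (1 + a ^ 2 + b ^ 2) = 1 + a ^ 2 + b ^ 2 :=
  Real.mul_self_sqrt (by positivity)

private theorem fms_mem (a b : ℝ) : fms_pt a b ∈ Hyp := by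
  have h := fms_sq a b
  refine ⟨?_, ?_⟩
  · show a * a + b * b - Real.sqrt (1 + a ^ 2 + b ^ 2) * Real.sqrt (1 + a ^ 2 + b ^ 2) = -1
    rw [h]
    ring
  · show 0 < Real.sqrt (1 + a ^ 2 + b ^ 2)
    exact Real.sqrt_pos.2 (by positivity)

private theorem fms_eq {x : V} (hx : x ∈ Hyp) : x = fms_pt (x 0) (x 1) := by
  have h1 : x 0 * x 0 + x 1 * x 1 - x 2 * x 2 = -1 := hx.1
  have h2 := hx.2
  have h3 : Real.sqrt (1 + x 0 ^ 2 + x 1 ^ 2) = x 2 := by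
    rw [Real.sqrt_eq_iff_mul_self_eq (by positivity) h2.le]
    linarith
  funext i
  fin_cases i
  · rfl
  · rfl
  · show x 2 = Real.sqrt (1 + x 0 ^ 2 + x 1 ^ 2)
    exact h3.symm

private theorem fms_o (a b : ℝ) (h : a ^ 2 + b ^ 2 ≤ 1) : -B o (fms_pt a b) ≤ 2 := by
  have h1 : -B o (fms_pt a b) = Real.sqrt (1 + a ^ 2 + b ^ 2) := by
    show -(0 * a + 0 * b - 1 * Real.sqrt (1 + a ^ 2 + b ^ 2)) = _
    ring
  rw [h1]
  refine Real.sqrt_le_iff.2 ⟨by norm_num, ?_⟩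
  linarith

private theorem fms_half (a b : ℝ) : -B (fms_pt (a / 2) (b / 2)) (fms_pt a b) ≤ 2 := by
  have h1 : -B (fms_pt (a / 2) (b / 2)) (fms_pt a b) =
      Real.sqrt (1 + (a / 2) ^ 2 + (b / 2) ^ 2) * Real.sqrt (1 + a ^ 2 + b ^ 2) -
        (a ^ 2 + b ^ 2) / 2 := by
    show -(a / 2 * a + b / 2 * b - Real.sqrt (1 + (a / 2) ^ 2 + (b / 2) ^ 2) *
      Real.sqrt (1 + a ^ 2 + b ^ 2)) = _
    ring
  rw [h1, ← Real.sqrt_mul (by positivity)]
  have h2 : Real.sqrt ((1 + (a / 2) ^ 2 + (b / 2) ^ 2) * (1 + a ^ 2 + b ^ 2)) ≤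
      (a ^ 2 + b ^ 2) / 2 + 2 := by
    refine Real.sqrt_le_iff.2 ⟨by positivity, ?_⟩
    have : 0 ≤ a ^ 2 + b ^ 2 := by positivity
    nlinarith
  linarith

namespace Fuchs

variable {Γ : Type} [Group Γ] (F : Fuchs Γ)

private theorem fms_orb (g : Γ) : F.ρ g o ∈ Hyp := F.fut g o o_mem

private theorem fms_quot (g h : Γ) : -B o (F.ρ (h⁻¹ * g) o) = -B (F.ρ h o) (F.ρ g o) := by
  have e : F.ρ g o = F.ρ h (F.ρ (h⁻¹ * g) o) := by
    rw [← LinearEquiv.mul_apply, ← map_mul, mul_inv_cancel_left]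
  rw [e, F.pres]

private theorem fms_step {c : ℝ} (hc : 1 ≤ c) (hco : ∀ x ∈ Hyp, ∃ g, -B x (F.ρ g o) ≤ c)
    (m : ℕ) : ∀ (a b : ℝ) (g : Γ), a ^ 2 + b ^ 2 ≤ 4 ^ m → -B (fms_pt a b) (F.ρ g o) ≤ c →
      ∃ l : List Γ, l.prod = g ∧ (∀ f ∈ l, -B o (F.ρ f o) ≤ 8 * c ^ 2) ∧ l.length = m + 1 := by
  induction m with
  | zero =>
    intro a b g hab hg
    refine ⟨[g], by simp, ?_, rfl⟩
    intro f hf
    rw [List.mem_singleton] at hf
    subst hf
    have h1 := tri o_mem (fms_mem a b) (F.fms_orb f)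
    have h2 := fms_o a b (by simpa using hab)
    have h3 := one_le o_mem (fms_mem a b)
    have h4 := one_le (fms_mem a b) (F.fms_orb f)
    have h5 : 2 * (-B o (fms_pt a b)) * (-B (fms_pt a b) (F.ρ f o)) ≤ 2 * 2 * c := by
      gcongr
    nlinarith
  | succ m ih =>
    intro a b g hab hg
    obtain ⟨h, hh⟩ := hco _ (fms_mem (a / 2) (b / 2))
    have hab' : (a / 2) ^ 2 + (b / 2) ^ 2 ≤ 4 ^ m := by
      have e4 : (4 : ℝ) ^ (m + 1) = 4 * 4 ^ m := by ring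
      rw [e4] at hab
      nlinarith
    obtain ⟨l, hl, hlE, hlen⟩ := ih (a / 2) (b / 2) h hab' hh
    refine ⟨l ++ [h⁻¹ * g], ?_, ?_, ?_⟩
    · rw [List.prod_append, hl, List.prod_singleton, mul_inv_cancel_left]
    · intro f hf
      rw [List.mem_append, List.mem_singleton] at hf
      rcases hf with hf | hf
      · exact hlE f hf
      · subst hf
        rw [F.fms_quot]
        have h1 := tri (F.fms_orb h) (fms_mem (a / 2) (b / 2)) (F.fms_orb g)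
        have h2 := tri (fms_mem (a / 2) (b / 2)) (fms_mem a b) (F.fms_orb g)
        have h3 := fms_half a b
        have h4 := one_le (fms_mem (a / 2) (b / 2)) (fms_mem a b)
        have h5 := one_le (fms_mem a b) (F.fms_orb g)
        have h6 := one_le (fms_mem (a / 2) (b / 2)) (F.fms_orb h)
        have h7 := one_le (fms_mem (a / 2) (b / 2)) (F.fms_orb g)
        rw [B_comm (F.ρ h o) (fms_pt (a / 2) (b / 2))] at h1
        have h8 : -B (fms_pt (a / 2) (b / 2)) (F.ρ g o) ≤ 2 * 2 * c := by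
          refine h2.trans ?_
          gcongr
        have h9 : 2 * (-B (fms_pt (a / 2) (b / 2)) (F.ρ h o)) *
            (-B (fms_pt (a / 2) (b / 2)) (F.ρ g o)) ≤ 2 * c * (2 * 2 * c) := by
          gcongr
        nlinarith
    · rw [List.length_append, hlen, List.length_singleton]

theorem words : ∃ (E : Finset Γ) (C : ℝ), ∀ g : Γ, ∃ l : List Γ, l.prod = g ∧
    (∀ f ∈ l, f ∈ E) ∧ (2 : ℝ) ^ l.length ≤ C * (-B o (F.ρ g o)) := by
  obtain ⟨c₀, hc₀⟩ := F.cocpt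
  have hc : (1 : ℝ) ≤ max 1 c₀ := le_max_left _ _
  have hco : ∀ x ∈ Hyp, ∃ g, -B x (F.ρ g o) ≤ max 1 c₀ := fun x hx => by
    obtain ⟨g, hg⟩ := hc₀ x hx
    exact ⟨g, hg.trans (le_max_right _ _)⟩
  refine ⟨(F.proper (8 * (max 1 c₀) ^ 2)).toFinset, 4, ?_⟩
  intro g
  have hR := one_le o_mem (F.fms_orb g)
  obtain ⟨n, hn1, hn2⟩ := exists_nat_pow_near hR (by norm_num : (1 : ℝ) < 2)
  have hx := F.fms_orb g
  have hR2 : -B o (F.ρ g o) = (F.ρ g o) 2 := by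
    show -(0 * (F.ρ g o) 0 + 0 * (F.ρ g o) 1 - 1 * (F.ρ g o) 2) = _
    ring
  have hsq : (F.ρ g o) 0 * (F.ρ g o) 0 + (F.ρ g o) 1 * (F.ρ g o) 1 -
      (F.ρ g o) 2 * (F.ρ g o) 2 = -1 := hx.1
  rw [hR2] at hn1 hn2 hR ⊢
  have h4 : (4 : ℝ) ^ (n + 1) = 2 ^ (n + 1) * 2 ^ (n + 1) := by
    rw [← mul_pow]
    norm_num
  have hab : (F.ρ g o) 0 ^ 2 + (F.ρ g o) 1 ^ 2 ≤ 4 ^ (n + 1) := by
    rw [h4]
    nlinarith
  have hself : -B (fms_pt ((F.ρ g o) 0) ((F.ρ g o) 1)) (F.ρ g o) ≤ max 1 c₀ := by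
    rw [← fms_eq hx, hx.1, neg_neg]
    exact hc
  obtain ⟨l, hl, hlE, hlen⟩ := F.fms_step hc hco (n + 1) _ _ g hab hself
  refine ⟨l, hl, ?_, ?_⟩
  · intro f hf
    rw [Set.Finite.mem_toFinset]
    exact hlE f hf
  · rw [hlen, pow_succ, pow_succ]
    linarith

theorem ms (φ : MulAut Γ) : ∃ (C : ℝ) (p : ℕ), 0 < C ∧ ∀ g : Γ,
    -B o (F.ρ (φ g) o) ≤ C * (-B o (F.ρ g o)) ^ p := by
  obtain ⟨E, C, hE⟩ := F.words
  -- the constant is positive
  have hC : 0 < C := by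
    obtain ⟨l, -, -, h⟩ := hE 1
    have h1 := one_le o_mem (F.fms_orb 1)
    have h2 : (0 : ℝ) < 2 ^ l.length := by positivity
    by_contra h3
    rw [not_lt] at h3
    nlinarith
  -- a bound for the images of the generators
  obtain ⟨K, hK1, hK⟩ : ∃ K : ℝ, 1 ≤ K ∧ ∀ f ∈ E, -B o (F.ρ (φ f) o) ≤ K := by
    refine ⟨1 + ∑ f ∈ E, |-B o (F.ρ (φ f) o)|, ?_, ?_⟩
    · have : 0 ≤ ∑ f ∈ E, |-B o (F.ρ (φ f) o)| := Finset.sum_nonneg fun _ _ => abs_nonneg _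
      linarith
    · intro f hf
      have h1 : |-B o (F.ρ (φ f) o)| ≤ ∑ f ∈ E, |-B o (F.ρ (φ f) o)| :=
        Finset.single_le_sum (f := fun f => |-B o (F.ρ (φ f) o)|) (fun _ _ => abs_nonneg _) hf
      have h2 := le_abs_self (-B o (F.ρ (φ f) o))
      linarith
  -- products
  have hprod : ∀ l : List Γ, (∀ f ∈ l, f ∈ E) → -B o (F.ρ (φ l.prod) o) ≤ (2 * K) ^ l.length := by
    intro l
    induction l with
    | nil =>
      intro _
      rw [List.prod_nil, map_one, map_one]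
      show -B o o ≤ _
      rw [o_mem.1, neg_neg, List.length_nil, pow_zero]
    | cons f l ih =>
      intro hl
      have h1 := ih (fun f hf => hl f (List.mem_cons_of_mem _ hf))
      have h2 := hK f (hl f List.mem_cons_self)
      have h3 := tri o_mem (F.fms_orb (φ f)) (F.fms_orb (φ (f * l.prod)))
      have h4 := F.fms_quot (φ (f * l.prod)) (φ f)
      have e : (φ f)⁻¹ * φ (f * l.prod) = φ l.prod := by rw [map_mul, inv_mul_cancel_left]
      rw [e] at h4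
      rw [← h4] at h3
      have h5 := one_le o_mem (F.fms_orb (φ f))
      have h6 := one_le o_mem (F.fms_orb (φ l.prod))
      rw [List.prod_cons, List.length_cons, pow_succ']
      refine h3.trans ?_
      gcongr
  obtain ⟨p, hp⟩ := pow_unbounded_of_one_lt (2 * K) (by norm_num : (1 : ℝ) < 2)
  refine ⟨C ^ p, p, by positivity, ?_⟩
  intro g
  obtain ⟨l, rfl, hl, hlen⟩ := hE g
  refine (hprod l hl).trans ?_
  calc (2 * K) ^ l.length ≤ (2 ^ p) ^ l.length := by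
        gcongr
    _ = (2 ^ l.length) ^ p := by rw [← pow_mul, ← pow_mul, mul_comm]
    _ ≤ (C * (-B o (F.ρ l.prod o))) ^ p := by
        gcongr
    _ = C ^ p * (-B o (F.ρ l.prod o)) ^ p := mul_pow _ _ _

end Fuchs

end Pool.Agent.LDJ
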