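import Pool.Agent.LDJ.FBas

/-!
LDJ.FPath: points on the same side of a line, far from it, are joined by a chain far from it.

PROOF. Choose `e ∈ Hyp` with `B e n = 0` (`foot` for `o`) and `f` with `B f f = 1`,
`B f e = B f n = 0` (cross product / dimension). `x(A,t) = A n + √(1+A²) (√(1+t²) e + t f)` is a
bijection `ℝ² → Hyp` with `A = B x n`, `t = B x f / √(1+A²)`. Let `x0 = x(A0,t0)`,
`x1 = x(A1,t1)`, `γ(τ) = x(A0 + τ(A1-A0), t0 + τ(t1-t0))`, `τ ∈ [0,1]`: `B γ(τ) n ≥ min A0 A1 ≥ R`.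
`(τ,τ') ↦ -B γ(τ) γ(τ')` is continuous on the compact square and `1` on the diagonal, so by uniform
continuity there is `m` with `-B γ(i/m) γ((i+1)/m) ≤ 2`. About 130 lines.
-/

namespace Pool.Agent.LDJ

namespace FPathAux

theorem pos_third {v x : V} (hx : x ∈ Hyp) (hv : B v v < 0) (hvx : B v x < 0) : 0 < v 2 := by
  obtain ⟨h1, h2⟩ := hx
  by_contra hh
  push Not at hh
  unfold B at *
  have c : (v 0 * x 0 + v 1 * x 1) ^ 2 ≤ (v 0 ^ 2 + v 1 ^ 2) * (x 0 ^ 2 + x 1 ^ 2) := by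
    nlinarith [sq_nonneg (v 0 * x 1 - v 1 * x 0)]
  have c2 : (v 0 ^ 2 + v 1 ^ 2) * (x 0 ^ 2 + x 1 ^ 2) ≤ v 2 ^ 2 * x 2 ^ 2 := by
    apply mul_le_mul <;> nlinarith
  have c3 : (v 0 * x 0 + v 1 * x 1) ^ 2 ≤ (-(v 2 * x 2)) ^ 2 := by nlinarith
  have c4 : 0 ≤ -(v 2 * x 2) := by nlinarith
  have c5 := abs_le_of_sq_le_sq' c3 c4
  linarith [c5.1]

theorem B_neg_left (u w : V) : B (-u) w = -B u w := by
  unfold B; simp; ring

theorem mk_mem {n p : V} (hn : B n n = 1) (hp : p ∈ Hyp) (hpn : B p n = 0) (A : ℝ) :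
    A • n + Real.sqrt (1 + A ^ 2) • p ∈ Hyp ∧ B (A • n + Real.sqrt (1 + A ^ 2) • p) n = A := by
  have hs : Real.sqrt (1 + A ^ 2) ^ 2 = 1 + A ^ 2 := Real.sq_sqrt (by positivity)
  have hs0 : 0 < Real.sqrt (1 + A ^ 2) := Real.sqrt_pos.mpr (by positivity)
  have hnp : B n p = 0 := by rw [B_comm]; exact hpn
  have h1 : B (A • n + Real.sqrt (1 + A ^ 2) • p) (A • n + Real.sqrt (1 + A ^ 2) • p) = -1 := by
    simp only [B_add_left, B_add_right, B_smul_left, B_smul_right, hn, hp.1, hpn, hnp]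
    nlinarith
  have h2 : B (A • n + Real.sqrt (1 + A ^ 2) • p) p = -Real.sqrt (1 + A ^ 2) := by
    simp only [B_add_left, B_smul_left, hp.1, hnp]
    ring
  have h3 : B (A • n + Real.sqrt (1 + A ^ 2) • p) n = A := by
    simp only [B_add_left, B_smul_left, hn, hpn]
    ring
  exact ⟨⟨h1, pos_third hp (by rw [h1]; norm_num) (by rw [h2]; linarith)⟩, h3⟩

theorem foot' {n x : V} (hn : B n n = 1) (hx : x ∈ Hyp) :
    ∃ p ∈ Hyp, B p n = 0 ∧ x = B x n • n + Real.sqrt (1 + B x n ^ 2) • p := by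
  set A := B x n with hA
  have hs : Real.sqrt (1 + A ^ 2) ^ 2 = 1 + A ^ 2 := Real.sq_sqrt (by positivity)
  have hs0 : 0 < Real.sqrt (1 + A ^ 2) := Real.sqrt_pos.mpr (by positivity)
  have hnx : B n x = A := by rw [B_comm]
  have e : x - A • n = x + (-A) • n := by rw [neg_smul, sub_eq_add_neg]
  refine ⟨(Real.sqrt (1 + A ^ 2))⁻¹ • (x - A • n), ⟨?_, ?_⟩, ?_, ?_⟩
  · rw [e]
    simp only [B_add_left, B_add_right, B_smul_left, B_smul_right, hn, hx.1, hnx, ← hA]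
    have : (Real.sqrt (1 + A ^ 2))⁻¹ * ((Real.sqrt (1 + A ^ 2))⁻¹ *
        (-1 + -A * A + (-A * (A + -A * 1)))) = -((1 + A ^ 2) / Real.sqrt (1 + A ^ 2) ^ 2) := by
      field_simp
      ring
    first
      | (rw [this, hs, div_self (by positivity)])
      | (field_simp; rw [hs]; ring)
  · have h0 : 0 < (x - A • n) 2 := by
      apply pos_third hx
      · rw [e]
        simp only [B_add_left, B_add_right, B_smul_left, B_smul_right, hn, hx.1, hnx, ← hA]
        nlinarith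
      · rw [e]
        simp only [B_add_left, B_smul_left, hx.1, hnx]
        nlinarith
    have : ((Real.sqrt (1 + A ^ 2))⁻¹ • (x - A • n)) 2 =
        (Real.sqrt (1 + A ^ 2))⁻¹ * (x - A • n) 2 := rfl
    rw [this]
    positivity
  · rw [e]
    simp only [B_add_left, B_smul_left, hn, ← hA]
    ring
  · rw [smul_smul, mul_inv_cancel₀ hs0.ne', one_smul]
    abel

theorem B_cont {f g : ℝ → V} (hf : Continuous f) (hg : Continuous g) :
    Continuous fun t => B (f t) (g t) := by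
  unfold B
  have hf' : ∀ i, Continuous fun t => f t i := fun i => (continuous_apply i).comp hf
  have hg' : ∀ i, Continuous fun t => g t i := fun i => (continuous_apply i).comp hg
  exact (((hf' 0).mul (hg' 0)).add ((hf' 1).mul (hg' 1))).sub ((hf' 2).mul (hg' 2))

theorem B_cont2 {f : ℝ → V} (hf : Continuous f) :
    Continuous fun t : ℝ × ℝ => -B (f t.1) (f t.2) := by
  unfold B
  have hf' : ∀ i, Continuous fun t : ℝ × ℝ => f t.1 i := fun i =>
    (continuous_apply i).comp (hf.comp continuous_fst)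
  have hg' : ∀ i, Continuous fun t : ℝ × ℝ => f t.2 i := fun i =>
    (continuous_apply i).comp (hf.comp continuous_snd)
  exact ((((hf' 0).mul (hg' 0)).add ((hf' 1).mul (hg' 1))).sub ((hf' 2).mul (hg' 2))).neg

/-- a continuous path in the region -/
theorem cpath {n x0 x1 : V} (hn : B n n = 1) (h0 : x0 ∈ Hyp) (h1 : x1 ∈ Hyp) {R : ℝ}
    (hR0 : R ≤ B x0 n) (hR1 : R ≤ B x1 n) :
    ∃ γ : ℝ → V, Continuous γ ∧ γ 0 = x0 ∧ γ 1 = x1 ∧
      ∀ t ∈ Set.Icc (0 : ℝ) 1, γ t ∈ Hyp ∧ R ≤ B (γ t) n := by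
  obtain ⟨p0, hp0, hp0n, e0⟩ := foot' hn h0
  obtain ⟨p1, hp1, hp1n, e1⟩ := foot' hn h1
  set q : ℝ → V := fun t => (1 - t) • p0 + t • p1 with hq
  set N : ℝ → ℝ := fun t => max (-B (q t) (q t)) 1 with hN
  set A : ℝ → ℝ := fun t => (1 - t) * B x0 n + t * B x1 n with hA
  have qc : Continuous q := by
    rw [hq]; fun_prop
  have Nc : Continuous N := (B_cont qc qc).neg.max continuous_const
  have Ac : Continuous A := by rw [hA]; fun_prop
  have N1 : ∀ t, 1 ≤ N t := fun t => le_max_right _ _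
  set p : ℝ → V := fun t => (Real.sqrt (N t))⁻¹ • q t with hp
  have pc : Continuous p := by
    rw [hp]
    refine Continuous.smul (Continuous.inv₀ (Real.continuous_sqrt.comp Nc) ?_) qc
    intro t
    exact (Real.sqrt_pos.mpr (by linarith [N1 t])).ne'
  have p01 : 1 ≤ -B p0 p1 := one_le hp0 hp1
  have p10 : B p1 p0 = B p0 p1 := B_comm _ _
  have hqq : ∀ t ∈ Set.Icc (0 : ℝ) 1, 1 ≤ -B (q t) (q t) := by
    intro t ht
    rw [hq]
    simp only [B_add_left, B_add_right, B_smul_left, B_smul_right, hp0.1, hp1.1, p10]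
    have h2 : 0 ≤ t * (1 - t) := mul_nonneg ht.1 (by linarith [ht.2])
    nlinarith [mul_le_mul_of_nonneg_left p01 h2]
  have NN : ∀ t ∈ Set.Icc (0 : ℝ) 1, N t = -B (q t) (q t) := fun t ht =>
    max_eq_left (hqq t ht)
  have qn : ∀ t, B (q t) n = 0 := by
    intro t
    rw [hq]
    simp only [B_add_left, B_smul_left, hp0n, hp1n]
    ring
  have pH : ∀ t ∈ Set.Icc (0 : ℝ) 1, p t ∈ Hyp ∧ B (p t) n = 0 := by
    intro t ht
    have hs0 : 0 < Real.sqrt (N t) := Real.sqrt_pos.mpr (by linarith [N1 t])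
    have hs : Real.sqrt (N t) ^ 2 = N t := Real.sq_sqrt (by linarith [N1 t])
    refine ⟨⟨?_, ?_⟩, ?_⟩
    · rw [hp]
      simp only [B_smul_left, B_smul_right]
      have h5 : B (q t) (q t) = -N t := by rw [NN t ht]; ring
      rw [h5]
      nth_rewrite 3 [← hs]
      field_simp
    · have hq2 : 0 < (q t) 2 := by
        rw [hq]
        show 0 < ((1 - t) • p0 + t • p1) 2
        have : ((1 - t) • p0 + t • p1) 2 = (1 - t) * p0 2 + t * p1 2 := rfl
        rw [this]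
        have a0 := hp0.2
        have a1 := hp1.2
        rcases eq_or_lt_of_le ht.1 with h | h
        · rw [← h]; simpa using a0
        · have := mul_nonneg (by linarith [ht.2] : (0 : ℝ) ≤ 1 - t) a0.le
          have := mul_pos h a1
          linarith
      have : (p t) 2 = (Real.sqrt (N t))⁻¹ * (q t) 2 := rfl
      rw [this]
      positivity
    · rw [hp]
      simp only [B_smul_left, qn, mul_zero]
  refine ⟨fun t => A t • n + Real.sqrt (1 + A t ^ 2) • p t, ?_, ?_, ?_, ?_⟩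
  · exact (Ac.smul continuous_const).add
      ((Real.continuous_sqrt.comp (continuous_const.add (Ac.pow 2))).smul pc)
  · have hA0 : A 0 = B x0 n := by rw [hA]; simp
    have hq0 : q 0 = p0 := by rw [hq]; simp
    have hN0 : N 0 = 1 := by
      rw [NN 0 (by simp), hq0, hp0.1, neg_neg]
    have hpp : p 0 = p0 := by
      show (Real.sqrt (N 0))⁻¹ • q 0 = p0
      rw [hN0, hq0]; simp
    show A 0 • n + Real.sqrt (1 + A 0 ^ 2) • p 0 = x0
    rw [hA0, hpp]
    exact e0.symm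
  · have hA0 : A 1 = B x1 n := by rw [hA]; simp
    have hq0 : q 1 = p1 := by rw [hq]; simp
    have hN0 : N 1 = 1 := by
      rw [NN 1 (by simp), hq0, hp1.1, neg_neg]
    have hpp : p 1 = p1 := by
      show (Real.sqrt (N 1))⁻¹ • q 1 = p1
      rw [hN0, hq0]; simp
    show A 1 • n + Real.sqrt (1 + A 1 ^ 2) • p 1 = x1
    rw [hA0, hpp]
    exact e1.symm
  · intro t ht
    obtain ⟨k1, k2⟩ := mk_mem hn (pH t ht).1 (pH t ht).2 (A t)
    refine ⟨k1, ?_⟩
    show R ≤ B (A t • n + Real.sqrt (1 + A t ^ 2) • p t) n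
    rw [k2, hA]
    have i1 : 0 ≤ t := ht.1
    have i2 : 0 ≤ 1 - t := by linarith [ht.2]
    nlinarith [mul_le_mul_of_nonneg_left hR0 i2, mul_le_mul_of_nonneg_left hR1 i1]

end FPathAux

theorem path {n x0 x1 : V} (hn : B n n = 1) (h0 : x0 ∈ Hyp) (h1 : x1 ∈ Hyp) {R : ℝ}
    (hR0 : R ≤ B x0 n) (hR1 : R ≤ B x1 n) :
    ∃ (m : ℕ) (z : ℕ → V), z 0 = x0 ∧ z m = x1 ∧ (∀ i, i ≤ m → z i ∈ Hyp ∧ R ≤ B (z i) n) ∧
      ∀ i, i < m → -B (z i) (z (i + 1)) ≤ 2 := by
  obtain ⟨γ, γc, γ0, γ1, hγ⟩ := FPathAux.cpath hn h0 h1 hR0 hR1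
  have hc := (FPathAux.B_cont2 γc).continuousOn (s := Set.Icc (0 : ℝ) 1 ×ˢ Set.Icc (0 : ℝ) 1)
  have hu := (isCompact_Icc.prod isCompact_Icc).uniformContinuousOn_of_continuous hc
  rw [Metric.uniformContinuousOn_iff] at hu
  obtain ⟨δ, hδ, h⟩ := hu 1 one_pos
  obtain ⟨m, hm⟩ := exists_nat_gt (1 / δ)
  have hm0 : (0 : ℝ) < m := lt_trans (by positivity) hm
  have hmδ : 1 / (m : ℝ) < δ := by
    rw [div_lt_iff₀ hm0]
    rw [div_lt_iff₀ hδ] at hm
    linarith
  have hmem : ∀ i : ℕ, i ≤ m → (i : ℝ) / m ∈ Set.Icc (0 : ℝ) 1 := by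
    intro i hi
    refine ⟨by positivity, ?_⟩
    rw [div_le_one hm0]
    exact_mod_cast hi
  refine ⟨m, fun i => γ ((i : ℝ) / m), by simp [γ0], ?_, fun i hi => hγ _ (hmem i hi), ?_⟩
  · show γ ((m : ℝ) / m) = x1
    rw [div_self hm0.ne', γ1]
  · intro i hi
    have hi1 := hmem i hi.le
    have hi2 := hmem (i + 1) hi
    have := h ((i : ℝ) / m, ((i + 1 : ℕ) : ℝ) / m) ⟨hi1, hi2⟩ ((i : ℝ) / m, (i : ℝ) / m)
      ⟨hi1, hi1⟩ (by
        rw [Prod.dist_eq]
        simp only [dist_self]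
        rw [max_eq_right dist_nonneg, Real.dist_eq]
        have : ((i + 1 : ℕ) : ℝ) / m - (i : ℝ) / m = 1 / m := by
          push_cast; ring
        rw [this, abs_of_pos (by positivity)]
        exact hmδ)
    rw [Real.dist_eq] at this
    simp only [(hγ _ hi1).1.1] at this
    have h3 := (abs_lt.mp this).2
    show -B (γ ((i : ℝ) / m)) (γ (((i + 1 : ℕ) : ℝ) / m)) ≤ 2
    linarith

end Pool.Agent.LDJ
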