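import Pool.Agent.LDJ.FDat

/-!
LDJ.FRay: powers of `x` and lines ending at `att x`.

PROOFS. Let `u = att x`, `w = att x⁻¹`, `m = nor x`, `λ = lam x`.
`ray1`: `n` unit, `B u n = 0`: `n = α u + γ m` (vectors orthogonal to `u` are combinations of
`u` and `m`), so `B (ρ (x^j) o) n = B o (ρ (x^(-j)) n) = B o (α λ^(-j) u + γ m)` is bounded.
`near_line`: for `h` and `q = x^j`: `|B (ρ h o) n| = |B (ρ (q⁻¹h) o) (ρ q⁻¹ n)|
≤ (-B (ρ (q⁻¹ h) o) o) (1 + 2 |B o (ρ q⁻¹ n)|)` (`nor_le` with `y = o`), and `|B o (ρ q⁻¹ n)|` is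
bounded by `ray1`.
`ray2`: `n` a unit normal of the line with ends `u = att x`, `v ≠ u`; every point `p = a u + b v` of
the line (`line_shape`, `2ab β = 1`, `β = -B u v`) with `a ≥ b` satisfies
`-B p (ρ (x^j) o) ≤ c` for a suitable `j : ℕ`: `a ≥ a0 = 1/√(2β)`; choose `j` with
`λ^j ≤ a/a0 < λ^(j+1)`; `ρ (x^(-j)) p = a λ^(-j) u + b ρ(x^(-j)) v`,
`v = v1 u + v2 w + v3 m`, `ρ(x^(-j)) v = v1 λ^(-j) u + v2 λ^j w + v3 m`; `a λ^(-j) < a0 λ`,
`b λ^j ≤ b a/a0 = 1/(2βa0)`, so the third coordinate of `ρ (x^(-j)) p` is bounded.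
`grow`: if `B (att z) n > 0` then `B (ρ (z^k) o) n → +∞`: `o = α att z + ...`, `α > 0`
(`α = -B o (att z⁻¹)/..`), `ρ (z^k) o = α λ^k att z + bounded`. About 220 lines.
-/

namespace Pool.Agent.LDJ

namespace FRayAux

theorem gram (a b c : V) : det3 a b c * det3 a b c =
    -(B a a * (B b b * B c c - B b c * B b c) - B a b * (B a b * B c c - B b c * B a c) +
      B a c * (B a b * B b c - B b b * B a c)) := by
  simp only [B, det3]
  ring

theorem zero_of_orth {a b c z : V} (h : det3 a b c ≠ 0) (ha : B z a = 0) (hb : B z b = 0)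
    (hc : B z c = 0) : z = 0 := by
  have h0 : z 0 * det3 a b c = 0 := by
    simp only [B, det3] at *
    linear_combination (b 1 * c 2 - b 2 * c 1) * ha + (c 1 * a 2 - c 2 * a 1) * hb +
      (a 1 * b 2 - a 2 * b 1) * hc
  have h1 : z 1 * det3 a b c = 0 := by
    simp only [B, det3] at *
    linear_combination (b 2 * c 0 - b 0 * c 2) * ha + (c 2 * a 0 - c 0 * a 2) * hb +
      (a 2 * b 0 - a 0 * b 2) * hc
  have h2 : z 2 * det3 a b c = 0 := by
    simp only [B, det3] at *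
    linear_combination -(b 0 * c 1 - b 1 * c 0) * ha - (c 0 * a 1 - c 1 * a 0) * hb -
      (a 0 * b 1 - a 1 * b 0) * hc
  funext i
  fin_cases i
  · exact (mul_eq_zero.mp h0).resolve_right h
  · exact (mul_eq_zero.mp h1).resolve_right h
  · exact (mul_eq_zero.mp h2).resolve_right h

theorem B_sub_left (u v w : V) : B (u - v) w = B u w - B v w := by
  simp only [B, Pi.sub_apply]
  ring

theorem decomp {u w m : V} (huu : B u u = 0) (hww : B w w = 0) (hmm : B m m = 1)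
    (hum : B u m = 0) (hwm : B w m = 0) (hb : B u w ≠ 0) (v : V) :
    v = (B v w / B u w) • u + (B v u / B u w) • w + (B v m) • m := by
  have hdet : det3 u w m ≠ 0 := by
    intro h
    have h1 := gram u w m
    rw [h, huu, hww, hmm, hum, hwm] at h1
    apply hb
    have h2 : B u w * B u w = 0 := by linear_combination -h1
    exact mul_self_eq_zero.mp h2
  rw [← sub_eq_zero]
  apply zero_of_orth hdet
  · rw [B_sub_left, B_add_left, B_add_left, B_smul_left, B_smul_left, B_smul_left, huu,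
      B_comm w u, B_comm m u, hum]
    field_simp
    ring
  · rw [B_sub_left, B_add_left, B_add_left, B_smul_left, B_smul_left, B_smul_left, hww,
      B_comm m w, hwm]
    field_simp
    ring
  · rw [B_sub_left, B_add_left, B_add_left, B_smul_left, B_smul_left, B_smul_left, hum, hwm, hmm]
    ring

theorem B_o (v : V) : B v o = -(v 2) := by
  simp [B, o]

end FRayAux

open FRayAux

namespace Fuchs

variable {Γ : Type} [Group Γ] (F : Fuchs Γ)

theorem frRhoPow {g : Γ} {v : V} {μ : ℝ} (h : F.ρ g v = μ • v) (j : ℕ) :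
    F.ρ (g ^ j) v = μ ^ j • v := by
  induction j with
  | zero => simp
  | succ j ih =>
    rw [pow_succ, map_mul, LinearEquiv.mul_apply, h, map_smul, ih, smul_smul, pow_succ, mul_comm]

theorem frRhoInvRho (g : Γ) (v : V) : F.ρ g⁻¹ (F.ρ g v) = v := by
  rw [← LinearEquiv.mul_apply, ← map_mul, inv_mul_cancel, map_one]
  rfl

theorem frRhoPowInv {g : Γ} {v : V} {μ : ℝ} (hμ : μ ≠ 0) (h : F.ρ g v = μ • v) (j : ℕ) :
    F.ρ ((g ^ j)⁻¹) v = (μ ^ j)⁻¹ • v := by
  have h1 := F.frRhoInvRho (g ^ j) v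
  rw [F.frRhoPow h, map_smul] at h1
  rw [eq_inv_smul_iff₀ (pow_ne_zero j hμ)]
  exact h1

theorem frBRhoLeft (g : Γ) (u v : V) : B (F.ρ g u) v = B u (F.ρ g⁻¹ v) := by
  have h := F.pres g⁻¹ (F.ρ g u) v
  rw [frRhoInvRho] at h
  exact h.symm

/-- the eigenbasis -/
theorem frBasis {x : Γ} (hx : x ≠ 1) : B (F.att x).1 (F.att x⁻¹).1 < 0 ∧
    ∀ v : V, v = (B v (F.att x⁻¹).1 / B (F.att x).1 (F.att x⁻¹).1) • (F.att x).1 +
      (B v (F.att x).1 / B (F.att x).1 (F.att x⁻¹).1) • (F.att x⁻¹).1 +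
      (B v (F.nor x)) • F.nor x := by
  have D := F.data hx
  have hu : (F.att x).1 ∈ Light := ⟨(F.att x).2.1, by rw [(F.att x).2.2]; exact one_pos⟩
  have hw : (F.att x⁻¹).1 ∈ Light := ⟨(F.att x⁻¹).2.1, by rw [(F.att x⁻¹).2.2]; exact one_pos⟩
  have h1 := light_light hu hw
  have h2 : B (F.att x).1 (F.att x⁻¹).1 ≠ 0 := by
    intro h
    obtain ⟨t, ht, he⟩ := h1.2 h
    have h3 : (1 : ℝ) = t := by
      have h4 := congrFun he 2
      rw [Pi.smul_apply, (F.att x).2.2, (F.att x⁻¹).2.2, smul_eq_mul, mul_one] at h4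
      exact h4
    apply F.att_ne hx
    apply Subtype.ext
    rw [he, ← h3, one_smul]
  exact ⟨lt_of_le_of_ne h1.1 h2, fun v => decomp hu.1 hw.1 D.hn D.un D.wn h2 v⟩

theorem near_line {x : Γ} (hx : x ≠ 1) {n : V} (hn : B n n = 1) (hun : B (F.att x).1 n = 0) :
    ∃ c : ℝ, 0 < c ∧ ∀ (h : Γ) (j : ℕ),
      |B (F.ρ h o) n| ≤ c * (-B o (F.ρ ((x ^ j)⁻¹ * h) o)) := by
  have D := F.data hx
  obtain ⟨hb, hdec⟩ := F.frBasis hx
  have hl0 : 0 < F.lam x := lt_trans one_pos D.lam_gt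
  set u := (F.att x).1 with hu
  set w := (F.att x⁻¹).1 with hw
  set m := F.nor x with hm
  set α := B n w / B u w with hα
  set γ := B n m with hγ
  have hnd : n = α • u + γ • m := by
    have h1 := hdec n
    rw [B_comm n u, hun, zero_div, zero_smul, add_zero] at h1
    exact h1
  refine ⟨1 + 2 * (|α| * |B o u| + |γ| * |B o m|), by positivity, fun h j => ?_⟩
  have hLu : F.ρ x u = F.lam x • u := D.Lu
  have hLm : F.ρ x m = (1 : ℝ) • m := by rw [one_smul]; exact D.Ln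
  set n' := F.ρ (x ^ j)⁻¹ n with hn'
  have hn'd : n' = (α * (F.lam x ^ j)⁻¹) • u + γ • m := by
    rw [hn']
    conv_lhs => rw [hnd]
    rw [map_add, map_smul, map_smul, F.frRhoPowInv hl0.ne' hLu, F.frRhoPowInv one_ne_zero hLm,
      one_pow, inv_one, one_smul, smul_smul]
  have hn1 : B n' n' = 1 := by rw [hn', F.pres, hn]
  have h1 : B (F.ρ h o) n = B (F.ρ ((x ^ j)⁻¹ * h) o) n' := by
    rw [hn', map_mul, LinearEquiv.mul_apply, F.pres]
  have hmem : F.ρ ((x ^ j)⁻¹ * h) o ∈ Hyp := F.fut _ _ o_mem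
  have h2 := nor_le hmem o_mem hn1
  rw [h1]
  have hone := one_le hmem o_mem
  have h3 : |B o n'| ≤ |α| * |B o u| + |γ| * |B o m| := by
    rw [hn'd, B_add_right, B_smul_right, B_smul_right]
    refine (abs_add_le _ _).trans ?_
    rw [abs_mul, abs_mul, abs_mul]
    have h4 : |(F.lam x ^ j)⁻¹| ≤ 1 := by
      rw [abs_of_nonneg (by positivity)]
      exact inv_le_one_of_one_le₀ (one_le_pow₀ D.lam_gt.le)
    have h5 : |α| * |(F.lam x ^ j)⁻¹| ≤ |α| := mul_le_of_le_one_right (abs_nonneg _) h4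
    have h6 := mul_le_mul_of_nonneg_right h5 (abs_nonneg (B o u))
    linarith
  calc |B (F.ρ ((x ^ j)⁻¹ * h) o) n'|
      ≤ (-B (F.ρ ((x ^ j)⁻¹ * h) o) o) * (1 + 2 * |B o n'|) := h2
    _ ≤ (-B (F.ρ ((x ^ j)⁻¹ * h) o) o) * (1 + 2 * (|α| * |B o u| + |γ| * |B o m|)) := by
      apply mul_le_mul_of_nonneg_left _ (by linarith)
      linarith
    _ = _ := by
      rw [B_comm (F.ρ ((x ^ j)⁻¹ * h) o) o]
      ring

theorem frRayHalf {x : Γ} (hx : x ≠ 1) {v : Cir} (hv : v ≠ F.att x) :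
    ∃ c : ℝ, ∀ a b : ℝ, 0 < a → 0 < b → 2 * a * b * (-B (F.att x).1 v.1) = 1 → b ≤ a →
      ∃ j : ℕ, -B (a • (F.att x).1 + b • v.1) (F.ρ (x ^ j) o) ≤ c := by
  have D := F.data hx
  obtain ⟨hb, hdec⟩ := F.frBasis hx
  have hl0 : 0 < F.lam x := lt_trans one_pos D.lam_gt
  have hul : (F.att x).1 ∈ Light := ⟨(F.att x).2.1, by rw [(F.att x).2.2]; exact one_pos⟩
  have hvl : v.1 ∈ Light := ⟨v.2.1, by rw [v.2.2]; exact one_pos⟩
  have hβ : 0 < -B (F.att x).1 v.1 := by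
    have h1 := light_light hul hvl
    have h2 : B (F.att x).1 v.1 ≠ 0 := by
      intro h
      obtain ⟨t, ht, he⟩ := h1.2 h
      have h3 : (1 : ℝ) = t := by
        have h4 := congrFun he 2
        rw [Pi.smul_apply, (F.att x).2.2, v.2.2, smul_eq_mul, mul_one] at h4
        exact h4
      apply hv
      apply Subtype.ext
      rw [he, ← h3, one_smul]
    have h3 := lt_of_le_of_ne h1.1 h2
    linarith
  have hu2 : (F.att x).1 2 = 1 := (F.att x).2.2
  have hw2 : (F.att x⁻¹).1 2 = 1 := (F.att x⁻¹).2.2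
  have hLu : F.ρ x (F.att x).1 = F.lam x • (F.att x).1 := D.Lu
  have hLw : F.ρ x (F.att x⁻¹).1 = (F.lam x)⁻¹ • (F.att x⁻¹).1 := D.Lw
  have hLm : F.ρ x (F.nor x) = (1 : ℝ) • F.nor x := by rw [one_smul]; exact D.Ln
  have hvd := hdec v.1
  set u := (F.att x).1 with hu
  set w := (F.att x⁻¹).1 with hw
  set m := F.nor x with hm
  set β := -B u v.1 with hβd
  set v1 := B v.1 w / B u w with hv1
  set v2 := B v.1 u / B u w with hv2
  set v3 := B v.1 m with hv3
  set lam := F.lam x with hlam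
  set a0 := Real.sqrt (1 / (2 * β)) with ha0
  have ha0p : 0 < a0 := Real.sqrt_pos.mpr (by positivity)
  have ha0s : a0 * a0 = 1 / (2 * β) := Real.mul_self_sqrt (by positivity)
  refine ⟨a0 * (lam + |v1| + |v2| + |v3 * m 2|), fun a b ha hb0 hab hba => ?_⟩
  have hab2 : a * b = a0 * a0 := by
    rw [ha0s, eq_div_iff (by positivity)]
    linear_combination hab
  have haa : a0 ≤ a := by
    by_contra hcon
    push Not at hcon
    have : a * b < a0 * a0 := by nlinarith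
    linarith
  have hb1 : b ≤ a0 := by
    by_contra hcon
    push Not at hcon
    have : a0 * a0 < a * b := by nlinarith
    linarith
  obtain ⟨j, hj1, hj2⟩ := exists_nat_pow_near (x := a / a0) (y := lam)
    (by rw [le_div_iff₀ ha0p, one_mul]; exact haa) D.lam_gt
  refine ⟨j, ?_⟩
  have hlj : 0 < lam ^ j := pow_pos hl0 j
  have hlj1 : 1 ≤ lam ^ j := one_le_pow₀ D.lam_gt.le
  have e1 : F.ρ (x ^ j)⁻¹ u = (lam ^ j)⁻¹ • u := F.frRhoPowInv hl0.ne' hLu j
  have e2 : F.ρ (x ^ j)⁻¹ w = lam ^ j • w := by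
    rw [F.frRhoPowInv (inv_ne_zero hl0.ne') hLw j, inv_pow, inv_inv]
  have e3 : F.ρ (x ^ j)⁻¹ m = m := by
    rw [F.frRhoPowInv one_ne_zero hLm j, one_pow, inv_one, one_smul]
  have e4 : F.ρ (x ^ j)⁻¹ v.1 = (v1 * (lam ^ j)⁻¹) • u + (v2 * lam ^ j) • w + v3 • m := by
    conv_lhs => rw [hvd]
    rw [map_add, map_add, map_smul, map_smul, map_smul, e1, e2, e3, smul_smul, smul_smul]
  have h5 : B (a • u + b • v.1) (F.ρ (x ^ j) o) = B (F.ρ (x ^ j)⁻¹ (a • u + b • v.1)) o := by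
    rw [B_comm, F.frBRhoLeft, B_comm]
  rw [h5, B_o, neg_neg, map_add, map_smul, map_smul, e1, e4]
  simp only [Pi.add_apply, Pi.smul_apply, smul_eq_mul, hu2, hw2, mul_one]
  have i1 : a * (lam ^ j)⁻¹ ≤ a0 * lam := by
    rw [div_lt_iff₀ ha0p, pow_succ] at hj2
    rw [← div_eq_mul_inv, div_le_iff₀ hlj]
    linarith
  have i2 : b * lam ^ j ≤ a0 := by
    rw [le_div_iff₀ ha0p] at hj1
    have h6 : b * (lam ^ j * a0) ≤ b * a := mul_le_mul_of_nonneg_left hj1 hb0.le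
    have h7 : b * lam ^ j * a0 ≤ a0 * a0 := by linarith
    exact le_of_mul_le_mul_right h7 ha0p
  have i3 : (lam ^ j)⁻¹ ≤ 1 := inv_le_one_of_one_le₀ hlj1
  have i4 : 0 < (lam ^ j)⁻¹ := inv_pos.mpr hlj
  have j1 : b * (v1 * (lam ^ j)⁻¹) ≤ a0 * |v1| := by
    have k1 : b * (lam ^ j)⁻¹ ≤ a0 := by nlinarith
    have k2 : 0 ≤ b * (lam ^ j)⁻¹ := by positivity
    calc b * (v1 * (lam ^ j)⁻¹) = (b * (lam ^ j)⁻¹) * v1 := by ring
      _ ≤ (b * (lam ^ j)⁻¹) * |v1| := mul_le_mul_of_nonneg_left (le_abs_self _) k2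
      _ ≤ a0 * |v1| := mul_le_mul_of_nonneg_right k1 (abs_nonneg _)
  have j2 : b * (v2 * lam ^ j) ≤ a0 * |v2| := by
    have k2 : 0 ≤ b * lam ^ j := by positivity
    calc b * (v2 * lam ^ j) = (b * lam ^ j) * v2 := by ring
      _ ≤ (b * lam ^ j) * |v2| := mul_le_mul_of_nonneg_left (le_abs_self _) k2
      _ ≤ a0 * |v2| := mul_le_mul_of_nonneg_right i2 (abs_nonneg _)
  have j3 : b * (v3 * m 2) ≤ a0 * |v3 * m 2| := by
    calc b * (v3 * m 2) ≤ b * |v3 * m 2| := mul_le_mul_of_nonneg_left (le_abs_self _) hb0.le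
      _ ≤ a0 * |v3 * m 2| := mul_le_mul_of_nonneg_right hb1 (abs_nonneg _)
  linarith

theorem ray2 {x y : Γ} (hx : x ≠ 1) (hy : y ≠ 1) (hxy : F.att x ≠ F.att y) {n : V}
    (hn : B n n = 1) (hxn : B (F.att x).1 n = 0) (hyn : B (F.att y).1 n = 0) :
    ∃ c : ℝ, ∀ p ∈ Hyp, B p n = 0 → ∃ j : ℕ,
      -B p (F.ρ (x ^ j) o) ≤ c ∨ -B p (F.ρ (y ^ j) o) ≤ c := by
  obtain ⟨c1, hc1⟩ := F.frRayHalf hx (v := F.att y) (Ne.symm hxy)
  obtain ⟨c2, hc2⟩ := F.frRayHalf hy (v := F.att x) hxy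
  have hul : (F.att x).1 ∈ Light := ⟨(F.att x).2.1, by rw [(F.att x).2.2]; exact one_pos⟩
  have hvl : (F.att y).1 ∈ Light := ⟨(F.att y).2.1, by rw [(F.att y).2.2]; exact one_pos⟩
  have hβ : B (F.att x).1 (F.att y).1 < 0 := by
    have h1 := light_light hul hvl
    have h2 : B (F.att x).1 (F.att y).1 ≠ 0 := by
      intro h
      obtain ⟨t, ht, he⟩ := h1.2 h
      have h3 : (1 : ℝ) = t := by
        have h4 := congrFun he 2
        rw [Pi.smul_apply, (F.att x).2.2, (F.att y).2.2, smul_eq_mul, mul_one] at h4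
        exact h4
      apply hxy
      apply Subtype.ext
      rw [he, ← h3, one_smul]
    exact lt_of_le_of_ne h1.1 h2
  refine ⟨max c1 c2, fun p hp hpn => ?_⟩
  obtain ⟨a, b, ha, hb, hab, hpe⟩ := line_shape hul hvl hβ hn hxn hyn hp hpn
  rcases le_total b a with hba | hba
  · obtain ⟨j, hj⟩ := hc1 a b ha hb hab hba
    exact ⟨j, Or.inl (by rw [hpe]; exact hj.trans (le_max_left _ _))⟩
  · obtain ⟨j, hj⟩ := hc2 b a hb ha (by rw [B_comm]; linear_combination hab) hba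
    exact ⟨j, Or.inr (by rw [hpe, add_comm]; exact hj.trans (le_max_right _ _))⟩

theorem tend {z : Γ} (hz : z ≠ 1) {n : V} (h : 0 < B (F.att z).1 n) :
    Filter.Tendsto (fun k : ℕ => B (F.ρ (z ^ k) o) n) Filter.atTop Filter.atTop := by
  have D := F.data hz
  obtain ⟨hb, hdec⟩ := F.frBasis hz
  have hl0 : 0 < F.lam z := lt_trans one_pos D.lam_gt
  have hod := hdec o
  have hu2 : (F.att z).1 2 = 1 := (F.att z).2.2
  have hw2 : (F.att z⁻¹).1 2 = 1 := (F.att z⁻¹).2.2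
  have hLu : F.ρ z (F.att z).1 = F.lam z • (F.att z).1 := D.Lu
  have hLw : F.ρ z (F.att z⁻¹).1 = (F.lam z)⁻¹ • (F.att z⁻¹).1 := D.Lw
  have hLm : F.ρ z (F.nor z) = (1 : ℝ) • F.nor z := by rw [one_smul]; exact D.Ln
  have hα : 0 < B o (F.att z⁻¹).1 / B (F.att z).1 (F.att z⁻¹).1 := by
    rw [B_comm o, B_o, hw2]
    exact div_pos_of_neg_of_neg (by norm_num) hb
  set u := (F.att z).1 with hu
  set w := (F.att z⁻¹).1 with hw
  set m := F.nor z with hm
  set α := B o w / B u w with hαd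
  set β := B o u / B u w with hβ
  set γ := B o m with hγ
  set lam := F.lam z with hlam
  have key : ∀ k : ℕ, B (F.ρ (z ^ k) o) n =
      α * B u n * lam ^ k + β * B w n * (lam ^ k)⁻¹ + γ * B m n := by
    intro k
    have e1 : F.ρ (z ^ k) u = lam ^ k • u := F.frRhoPow hLu k
    have e2 : F.ρ (z ^ k) w = (lam ^ k)⁻¹ • w := by
      rw [F.frRhoPow hLw k, inv_pow]
    have e3 : F.ρ (z ^ k) m = m := by
      rw [F.frRhoPow hLm k, one_pow, one_smul]
    have e4 : F.ρ (z ^ k) o = (α * lam ^ k) • u + (β * (lam ^ k)⁻¹) • w + γ • m := by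
      conv_lhs => rw [hod]
      rw [map_add, map_add, map_smul, map_smul, map_smul, e1, e2, e3, smul_smul, smul_smul]
    rw [e4, B_add_left, B_add_left, B_smul_left, B_smul_left, B_smul_left]
    ring
  have hlow : ∀ k : ℕ, α * B u n * lam ^ k - (|β * B w n| + |γ * B m n|) ≤
      B (F.ρ (z ^ k) o) n := by
    intro k
    rw [key k]
    have i3 : (lam ^ k)⁻¹ ≤ 1 := inv_le_one_of_one_le₀ (one_le_pow₀ D.lam_gt.le)
    have i4 : 0 ≤ (lam ^ k)⁻¹ := inv_nonneg.mpr (pow_nonneg hl0.le k)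
    have h1 : -|β * B w n| ≤ β * B w n * (lam ^ k)⁻¹ := by
      have h2 := neg_abs_le (β * B w n)
      have h3 : -|β * B w n| * (lam ^ k)⁻¹ ≤ β * B w n * (lam ^ k)⁻¹ :=
        mul_le_mul_of_nonneg_right h2 i4
      have h4 := abs_nonneg (β * B w n)
      nlinarith
    have h2 := neg_abs_le (γ * B m n)
    linarith
  apply Filter.tendsto_atTop_mono hlow
  apply Filter.tendsto_atTop_add_const_right
  exact (tendsto_pow_atTop_atTop_of_one_lt D.lam_gt).const_mul_atTop (mul_pos hα h)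

end Fuchs

end Pool.Agent.LDJ
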