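import Pool.Agent.LDJ.FCross
import Pool.Agent.LDJ.FMS
import Pool.Agent.LDJ.FRay
import Pool.Agent.LDJ.FPath

/-!
LDJ.FSI: automorphisms preserve separation of attracting points.

Write `κ(g) = -B o (ρ g o)`. Let `x,y,z,t ≠ 1`, `att x ≠ att y`, `n` a unit normal to `att x`,
`att y`; `n'` a unit normal to `att (φ x)`, `att (φ y)` (these are different: by `comm` for
`φ x`, `φ y` and applying `φ⁻¹`: `x^a = y^b`, `att x = att y` by `att_pow`).
`same`: if `B (att z) n * B (att t) n > 0` then `B (att (φ z)) n' * B (att (φ t)) n' > 0` provided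
these two are nonzero (which holds: if `B (att (φ z)) n' = 0` then `att (φ z)` is one of the two
ends of the line (a light vector orthogonal to `n'`), so by `comm` as above `att z` is `att x` or
`att y`, and `B (att z) n = 0`).
PROOF of `same`. Replace `n` by `-n`: both `> 0`.
(A) There are `C1, p` with: `|B (ρ h o) n| ≤ C1 (1 + |B (ρ (φ h) o) n'|)^p` for all `h`. Let
`R' = |B (ρ (φ h) o) n'|`, `q ∈ Hyp` the foot of `ρ (φ h) o` on the line of `n'` (`foot`), with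
`-B = √(1+R'²) ≤ 1 + R'`. By `ray2` for `φ x`, `φ y`: some `j` with `-B q (ρ (φ x)^j o) ≤ c` (or with
`y`), so `κ(φ (x^(-j) h)) ≤ 2c(1+R')`; by `ms` for `φ⁻¹`: `κ(x^(-j) h) ≤ C (2c(1+R'))^p`; by
`near_line`: `|B (ρ h o) n| ≤ c' κ(x^(-j) h)`.
(B) Let `c0 ≥ 1` be from `cocpt` and let `C4` bound `κ(φ f)` for all `f` with `κ(f) ≤ 8 c0²` (`ms`,
or finiteness). Let `R' = C4 + 1`. Choose `R` with: `|B (ρ h o) n| ≥ (R/c0 - 1)/2` implies
`|B (ρ (φ h) o) n'| > R'` (by (A)).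
(C) For `k` large `B (ρ z^k o) n ≥ R`, `B (ρ t^k o) n ≥ R` (`tend`). By `path` a chain `z_i` in
`{B · n ≥ R}`; choose `h_i` with `-B z_i (ρ h_i o) ≤ c0`, `h_0 = z^k`, `h_m = t^k` (allowed, as
`-B x x = 1 ≤ c0`). `κ(h_i⁻¹ h_(i+1)) ≤ 8 c0²` and `|B (ρ h_i o) n| ≥ (R/c0 - 1)/2` (`nor_le`). So
`|B (ρ (φ h_i) o) n'| > R'` and `κ(φ(h_i)⁻¹ φ(h_(i+1))) ≤ C4`. By `opp` the signs of consecutive
`B (ρ (φ h_i) o) n'` agree (otherwise `C4 ≥ R'²`). So `B (ρ (φ z)^k o) n'` and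
`B (ρ (φ t)^k o) n'` have the same sign, for all large `k`; by `tend` (for `±n'`) these are the
signs of `B (att (φ z)) n'`, `B (att (φ t)) n'`.
`si`: if `sep (att x) (att y) (att z) (att t)` then (`sep_iff_nor`) `B (att z) n * B (att t) n < 0`;
if `sep` fails for the images, then `B (att (φ z)) n' * B (att (φ t)) n' ≥ 0`, hence `> 0` (nonzero as
above), and `same` for `φ⁻¹` gives a contradiction. About 300 lines.
-/

namespace Pool.Agent.LDJ

namespace Fuchs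

variable {Γ : Type} [Group Γ] (F : Fuchs Γ)

/-- the size of an element -/
theorem B_rho (g h : Γ) : B (F.ρ g o) (F.ρ h o) = B o (F.ρ (g⁻¹ * h) o) := by
  rw [← F.pres g o (F.ρ (g⁻¹ * h) o)]
  congr 1
  rw [← LinearEquiv.mul_apply, ← map_mul, mul_inv_cancel_left]

theorem rho_o_mem (g : Γ) : F.ρ g o ∈ Hyp := F.fut g o o_mem

theorem kap_one_le (g : Γ) : 1 ≤ -B o (F.ρ g o) := one_le o_mem (F.rho_o_mem g)

/-- automorphisms preserve equality of attracting points -/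
theorem att_eq_of (φ : MulAut Γ) {x y : Γ} (hx : x ≠ 1) (hy : y ≠ 1)
    (h : F.att (φ x) = F.att (φ y)) : F.att x = F.att y := by
  have hx' : φ x ≠ 1 := by
    intro h1; exact hx (φ.injective (by rw [h1, map_one]))
  have hy' : φ y ≠ 1 := by
    intro h1; exact hy (φ.injective (by rw [h1, map_one]))
  obtain ⟨m, n, hm, hn, hmn⟩ := F.comm hx' hy' h
  have h2 : x ^ m = y ^ n := φ.injective (by rw [map_pow, map_pow, hmn])
  rw [← F.att_pow hx hm, ← F.att_pow hy hn, h2]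

/-- step (A) -/
theorem stepA (φ : MulAut Γ) {x y : Γ} (hx : x ≠ 1) (hy : y ≠ 1) (hxy : F.att x ≠ F.att y)
    {n n' : V} (hn : B n n = 1) (hxn : B (F.att x).1 n = 0) (hyn : B (F.att y).1 n = 0)
    (hn' : B n' n' = 1) (hxn' : B (F.att (φ x)).1 n' = 0) (hyn' : B (F.att (φ y)).1 n' = 0) :
    ∃ (C : ℝ) (p : ℕ), 0 < C ∧ ∀ h : Γ,
      |B (F.ρ h o) n| ≤ C * (1 + |B (F.ρ (φ h) o) n'|) ^ p := by
  have hx' : φ x ≠ 1 := by
    intro h1; exact hx (φ.injective (by rw [h1, map_one]))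
  have hy' : φ y ≠ 1 := by
    intro h1; exact hy (φ.injective (by rw [h1, map_one]))
  have hxy' : F.att (φ x) ≠ F.att (φ y) := fun h => hxy (F.att_eq_of φ hx hy h)
  obtain ⟨c, hc⟩ := F.ray2 hx' hy' hxy' hn' hxn' hyn'
  obtain ⟨C, p, hC, hCp⟩ := F.ms φ⁻¹
  obtain ⟨c1, hc1, h1⟩ := F.near_line hx hn hxn
  obtain ⟨c2, hc2, h2⟩ := F.near_line hy hn hyn
  -- the general estimate
  have key : ∀ (w h : Γ) (j : ℕ) (q : V), q ∈ Hyp →
      -B (F.ρ (φ h) o) q = Real.sqrt (1 + B (F.ρ (φ h) o) n' ^ 2) →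
      -B q (F.ρ ((φ w) ^ j) o) ≤ c →
      -B o (F.ρ ((w ^ j)⁻¹ * h) o) ≤ C * (2 * |c| * (1 + |B (F.ρ (φ h) o) n'|)) ^ p := by
    intro w h j q hq hq2 hq3
    have h3 : -B o (F.ρ ((φ w ^ j)⁻¹ * φ h) o) ≤ 2 * |c| * (1 + |B (F.ρ (φ h) o) n'|) := by
      rw [← F.B_rho]
      have h4 := tri (F.rho_o_mem (φ w ^ j)) hq (F.rho_o_mem (φ h))
      have h5 : Real.sqrt (1 + B (F.ρ (φ h) o) n' ^ 2) ≤ 1 + |B (F.ρ (φ h) o) n'| := by
        rw [Real.sqrt_le_left (by positivity)]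
        nlinarith [abs_nonneg (B (F.ρ (φ h) o) n'), sq_abs (B (F.ρ (φ h) o) n')]
      have h6 : -B (F.ρ (φ w ^ j) o) q ≤ |c| := by
        rw [B_comm]; exact hq3.trans (le_abs_self c)
      have h7 : -B q (F.ρ (φ h) o) ≤ 1 + |B (F.ρ (φ h) o) n'| := by
        rw [B_comm, hq2]; exact h5
      have h8 : 1 ≤ -B (F.ρ (φ w ^ j) o) q := one_le (F.rho_o_mem _) hq
      have h9 : 1 ≤ -B q (F.ρ (φ h) o) := one_le hq (F.rho_o_mem _)
      calc -B (F.ρ (φ w ^ j) o) (F.ρ (φ h) o)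
          ≤ 2 * (-B (F.ρ (φ w ^ j) o) q) * (-B q (F.ρ (φ h) o)) := h4
        _ ≤ 2 * |c| * (1 + |B (F.ρ (φ h) o) n'|) := by
            apply mul_le_mul _ h7 (by linarith) (by positivity)
            linarith
    have h10 := hCp ((φ w ^ j)⁻¹ * φ h)
    have h11 : φ⁻¹ ((φ w ^ j)⁻¹ * φ h) = (w ^ j)⁻¹ * h := by
      have : (φ w ^ j)⁻¹ * φ h = φ ((w ^ j)⁻¹ * h) := by
        rw [map_mul, map_inv, map_pow]
      rw [this, MulAut.inv_apply_self]
    rw [h11] at h10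
    refine h10.trans ?_
    apply mul_le_mul_of_nonneg_left _ hC.le
    exact pow_le_pow_left₀ (by linarith [F.kap_one_le ((φ w ^ j)⁻¹ * φ h)]) h3 p
  refine ⟨max c1 c2 * (C * (2 * |c|) ^ p) + 1, p, ?_, ?_⟩
  · have : 0 ≤ max c1 c2 := hc1.le.trans (le_max_left _ _)
    positivity
  intro h
  obtain ⟨q, hq, hqn, hq2⟩ := foot (F.rho_o_mem (φ h)) hn'
  obtain ⟨j, hj⟩ := hc q hq hqn
  have hfin : |B (F.ρ h o) n| ≤ max c1 c2 * (C * (2 * |c| * (1 + |B (F.ρ (φ h) o) n'|)) ^ p) := by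
    rcases hj with hj | hj
    · have h3 := key x h j q hq hq2 hj
      have h4 := h1 h j
      have h5 := F.kap_one_le ((x ^ j)⁻¹ * h)
      calc |B (F.ρ h o) n| ≤ c1 * (-B o (F.ρ ((x ^ j)⁻¹ * h) o)) := h4
        _ ≤ max c1 c2 * (C * (2 * |c| * (1 + |B (F.ρ (φ h) o) n'|)) ^ p) :=
            mul_le_mul (le_max_left _ _) h3 (by linarith) (hc1.le.trans (le_max_left _ _))
    · have h3 := key y h j q hq hq2 hj
      have h4 := h2 h j
      have h5 := F.kap_one_le ((y ^ j)⁻¹ * h)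
      calc |B (F.ρ h o) n| ≤ c2 * (-B o (F.ρ ((y ^ j)⁻¹ * h) o)) := h4
        _ ≤ max c1 c2 * (C * (2 * |c| * (1 + |B (F.ρ (φ h) o) n'|)) ^ p) :=
            mul_le_mul (le_max_right _ _) h3 (by linarith) (hc1.le.trans (le_max_left _ _))
  refine hfin.trans ?_
  rw [mul_pow]
  have h6 : 0 ≤ (1 + |B (F.ρ (φ h) o) n'|) ^ p := by positivity
  nlinarith [h6]

/-- the chain argument -/
theorem same0 (φ : MulAut Γ) {x y z t : Γ} (hx : x ≠ 1) (hy : y ≠ 1) (hz : z ≠ 1) (ht : t ≠ 1)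
    (hxy : F.att x ≠ F.att y) {n n' : V} (hn : B n n = 1) (hxn : B (F.att x).1 n = 0)
    (hyn : B (F.att y).1 n = 0) (hn' : B n' n' = 1) (hxn' : B (F.att (φ x)).1 n' = 0)
    (hyn' : B (F.att (φ y)).1 n' = 0) (hzn : 0 < B (F.att z).1 n) (htn : 0 < B (F.att t).1 n)
    (hzn' : 0 < B (F.att (φ z)).1 n') (htn' : B (F.att (φ t)).1 n' < 0) : False := by
  have hz' : φ z ≠ 1 := by
    intro h1; exact hz (φ.injective (by rw [h1, map_one]))
  have ht' : φ t ≠ 1 := by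
    intro h1; exact ht (φ.injective (by rw [h1, map_one]))
  obtain ⟨C1, p1, hC1, hA⟩ := F.stepA φ hx hy hxy hn hxn hyn hn' hxn' hyn'
  obtain ⟨C, p, hC, hms⟩ := F.ms φ
  obtain ⟨c00, hc00⟩ := F.cocpt
  -- c0 ≥ 1
  obtain ⟨c0, hc01, hc0⟩ : ∃ c0 : ℝ, 1 ≤ c0 ∧ ∀ x ∈ Hyp, ∃ g, -B x (F.ρ g o) ≤ c0 :=
    ⟨max 1 c00, le_max_left _ _, fun x hx => by
      obtain ⟨g, hg⟩ := hc00 x hx
      exact ⟨g, hg.trans (le_max_right _ _)⟩⟩
  obtain ⟨C4, hC4def⟩ : ∃ C4 : ℝ, C4 = C * (8 * c0 ^ 2) ^ p := ⟨_, rfl⟩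
  have hC4 : 0 < C4 := by rw [hC4def]; positivity
  obtain ⟨A0, hA0def⟩ : ∃ A0 : ℝ, A0 = C1 * (1 + (C4 + 1)) ^ p1 + 1 := ⟨_, rfl⟩
  have hA0 : ∀ h : Γ, A0 ≤ |B (F.ρ h o) n| → C4 + 1 < |B (F.ρ (φ h) o) n'| := by
    intro h hh
    by_contra hcon
    push Not at hcon
    have h1 := hA h
    have h2 : (1 + |B (F.ρ (φ h) o) n'|) ^ p1 ≤ (1 + (C4 + 1)) ^ p1 :=
      pow_le_pow_left₀ (by positivity) (by linarith) p1
    have h3 : C1 * (1 + |B (F.ρ (φ h) o) n'|) ^ p1 ≤ C1 * (1 + (C4 + 1)) ^ p1 :=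
      mul_le_mul_of_nonneg_left h2 hC1.le
    linarith
  obtain ⟨R, hRdef⟩ : ∃ R : ℝ, R = c0 * (1 + 2 * A0) := ⟨_, rfl⟩
  have hR : ∀ (w : V) (h : Γ), w ∈ Hyp → R ≤ B w n → -B w (F.ρ h o) ≤ c0 →
      A0 ≤ |B (F.ρ h o) n| := by
    intro w h hw h1 h2
    have h3 := nor_le hw (F.rho_o_mem h) hn
    have h4 : B w n ≤ |B w n| := le_abs_self _
    have h5 : (-B w (F.ρ h o)) * (1 + 2 * |B (F.ρ h o) n|) ≤ c0 * (1 + 2 * |B (F.ρ h o) n|) :=
      mul_le_mul_of_nonneg_right h2 (by positivity)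
    have h6 : c0 * (1 + 2 * A0) ≤ c0 * (1 + 2 * |B (F.ρ h o) n|) := by linarith
    have h7 : 1 + 2 * A0 ≤ 1 + 2 * |B (F.ρ h o) n| :=
      le_of_mul_le_mul_left h6 (by linarith)
    linarith
  -- consecutive elements have the same sign
  have hstep : ∀ h h' : Γ, -B (F.ρ h o) (F.ρ h' o) ≤ 8 * c0 ^ 2 → A0 ≤ |B (F.ρ h o) n| →
      A0 ≤ |B (F.ρ h' o) n| → 0 < B (F.ρ (φ h) o) n' → 0 < B (F.ρ (φ h') o) n' := by
    intro h h' h1 h2 h3 h4
    by_contra hcon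
    push Not at hcon
    have h5 := opp (F.rho_o_mem (φ h)) (F.rho_o_mem (φ h')) hn' h4.le hcon
    have h6 : -B (F.ρ (φ h) o) (F.ρ (φ h') o) ≤ C4 := by
      rw [F.B_rho] at h1 ⊢
      have h7 := hms (h⁻¹ * h')
      rw [map_mul, map_inv] at h7
      refine h7.trans ?_
      rw [hC4def]
      apply mul_le_mul_of_nonneg_left _ hC.le
      exact pow_le_pow_left₀ (by linarith [F.kap_one_le (h⁻¹ * h')]) h1 p
    have h8 := hA0 h h2
    have h9 := hA0 h' h3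
    rw [abs_of_pos h4] at h8
    rw [abs_of_nonpos hcon] at h9
    have h10 : 0 ≤ Real.sqrt (1 + B (F.ρ (φ h) o) n' ^ 2) *
      Real.sqrt (1 + B (F.ρ (φ h') o) n' ^ 2) := by positivity
    nlinarith [h5, h6, h8, h9, h10]
  -- limits
  have hT1 := F.tend hz hzn
  have hT2 := F.tend ht htn
  have hT3 := F.tend hz' hzn'
  have hT4 := F.tend ht' (n := -n') (by
    have : B (F.att (φ t)).1 (-n') = -B (F.att (φ t)).1 n' := by
      simp only [B, Pi.neg_apply]; ring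
    rw [this]; linarith)
  have hev := (((hT1.eventually_ge_atTop R).and (hT2.eventually_ge_atTop R)).and
    ((hT3.eventually_gt_atTop 0).and (hT4.eventually_gt_atTop 0))).exists
  obtain ⟨k, ⟨hk1, hk2⟩, hk3, hk4⟩ := hev
  obtain ⟨m, w, hw0, hwm, hw, hws⟩ :=
    path hn (F.rho_o_mem (z ^ k)) (F.rho_o_mem (t ^ k)) hk1 hk2
  have hself : ∀ g : Γ, -B (F.ρ g o) (F.ρ g o) ≤ c0 := by
    intro g
    rw [(F.rho_o_mem g).1]; linarith
  have hind : ∀ i, i ≤ m → ∀ h : Γ, -B (w i) (F.ρ h o) ≤ c0 → 0 < B (F.ρ (φ h) o) n' := by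
    intro i
    induction i with
    | zero =>
      intro _ h hh
      rw [hw0] at hh
      refine hstep (z ^ k) h ?_ (hR _ _ (F.rho_o_mem _) hk1 (hself _))
        (hR _ _ (F.rho_o_mem _) hk1 hh) ?_
      · nlinarith
      · rw [map_pow]; exact hk3
    | succ i ih =>
      intro hi h hh
      obtain ⟨g, hg⟩ := hc0 (w i) (hw i (by omega)).1
      have h1 := ih (by omega) g hg
      have h2 := hws i (by omega)
      refine hstep g h ?_ (hR _ _ (hw i (by omega)).1 (hw i (by omega)).2 hg)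
        (hR _ _ (hw (i + 1) hi).1 (hw (i + 1) hi).2 hh) h1
      have h3 := tri (F.rho_o_mem g) (hw i (by omega)).1 (hw (i + 1) hi).1
      have h4 := tri (F.rho_o_mem g) (hw (i + 1) hi).1 (F.rho_o_mem h)
      have h5 : -B (F.ρ g o) (w i) ≤ c0 := by rw [B_comm]; exact hg
      have h6 := one_le (F.rho_o_mem g) (hw i (by omega)).1
      have h7 := one_le (hw i (by omega)).1 (hw (i + 1) hi).1
      have h8 := one_le (F.rho_o_mem g) (hw (i + 1) hi).1
      have h9 := one_le (hw (i + 1) hi).1 (F.rho_o_mem h)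
      have h10 : -B (F.ρ g o) (w (i + 1)) ≤ 2 * c0 * 2 := by
        refine h3.trans ?_
        apply mul_le_mul (by linarith) h2 (by linarith) (by linarith)
      refine h4.trans ?_
      calc 2 * (-B (F.ρ g o) (w (i + 1))) * (-B (w (i + 1)) (F.ρ h o))
          ≤ 2 * (2 * c0 * 2) * c0 := by
            apply mul_le_mul (by linarith) hh (by linarith) (by linarith)
        _ = 8 * c0 ^ 2 := by ring
  have hlast := hind m le_rfl (t ^ k) (by rw [hwm]; exact hself _)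
  rw [map_pow] at hlast
  have h11 : B (F.ρ (φ t ^ k) o) (-n') = -B (F.ρ (φ t ^ k) o) n' := by
    simp only [B, Pi.neg_apply]; ring
  rw [h11] at hk4
  linarith

/-- a light vector on the line is one of the two ends -/
theorem end_of {a b c : Cir} (hab : a ≠ b) {n : V}
    (hN : ∀ z, B z n * B z n = B z z - 2 * B z a.1 * B z b.1 / B a.1 b.1)
    (hc : B c.1 n = 0) : c = a ∨ c = b := by
  have h1 := hN c.1
  have h2 : B a.1 b.1 < 0 := Cir.neg hab
  rw [hc, c.2.1] at h1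
  have h3 : B c.1 a.1 * B c.1 b.1 = 0 := by
    have h4 : 2 * B c.1 a.1 * B c.1 b.1 / B a.1 b.1 = 0 := by linarith
    rw [div_eq_zero_iff] at h4
    rcases h4 with h4 | h4
    · linarith
    · exact absurd h4 h2.ne
  by_contra hcon
  push Not at hcon
  have h5 := Cir.neg hcon.1
  have h6 := Cir.neg hcon.2
  nlinarith [mul_pos_of_neg_of_neg h5 h6]

theorem B_neg_right (u n : V) : B u (-n) = -B u n := by
  simp only [B, Pi.neg_apply]; ring

theorem B_neg_neg (n : V) : B (-n) (-n) = B n n := by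
  simp only [B, Pi.neg_apply]; ring

theorem si (φ : MulAut Γ) {x y z t : Γ} (hx : x ≠ 1) (hy : y ≠ 1) (hz : z ≠ 1) (ht : t ≠ 1)
    (h : Cir.sep (F.att x) (F.att y) (F.att z) (F.att t)) :
    Cir.sep (F.att (φ x)) (F.att (φ y)) (F.att (φ z)) (F.att (φ t)) := by
  have hx' : φ x ≠ 1 := by
    intro h1; exact hx (φ.injective (by rw [h1, map_one]))
  have hy' : φ y ≠ 1 := by
    intro h1; exact hy (φ.injective (by rw [h1, map_one]))
  have hz' : φ z ≠ 1 := by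
    intro h1; exact hz (φ.injective (by rw [h1, map_one]))
  have ht' : φ t ≠ 1 := by
    intro h1; exact ht (φ.injective (by rw [h1, map_one]))
  obtain ⟨hxy, hxz, hxt, hyz, hyt, -⟩ := Cir.sep_ne h
  have hxy' : F.att (φ x) ≠ F.att (φ y) := fun h1 => hxy (F.att_eq_of φ hx hy h1)
  obtain ⟨n, hn, hxn, hyn, hN⟩ := line_normal (F.att x).light (F.att y).light (Cir.neg hxy)
  obtain ⟨n', hn', hxn', hyn', hN'⟩ :=
    line_normal (F.att (φ x)).light (F.att (φ y)).light (Cir.neg hxy')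
  rw [Cir.sep_iff_nor hxy hn hxn hyn] at h
  rw [Cir.sep_iff_nor hxy' hn' hxn' hyn']
  have hz0 : B (F.att (φ z)).1 n' ≠ 0 := by
    intro h1
    rcases end_of hxy' hN' h1 with h2 | h2
    · exact hxz (F.att_eq_of φ hz hx h2).symm
    · exact hyz (F.att_eq_of φ hz hy h2).symm
  have ht0 : B (F.att (φ t)).1 n' ≠ 0 := by
    intro h1
    rcases end_of hxy' hN' h1 with h2 | h2
    · exact hxt (F.att_eq_of φ ht hx h2).symm
    · exact hyt (F.att_eq_of φ ht hy h2).symm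
  -- the statement for the inverse automorphism
  have key : ∀ (m m' : V) (z t : Γ), z ≠ 1 → t ≠ 1 → B m m = 1 → B (F.att x).1 m = 0 →
      B (F.att y).1 m = 0 → B m' m' = 1 → B (F.att (φ x)).1 m' = 0 → B (F.att (φ y)).1 m' = 0 →
      0 < B (F.att (φ z)).1 m' → 0 < B (F.att (φ t)).1 m' → 0 < B (F.att z).1 m →
      B (F.att t).1 m < 0 → False := by
    intro m m' z t hz ht h1 h2 h3 h4 h5 h6 h7 h8 h9 h10
    have hz' : φ z ≠ 1 := by
      intro h1; exact hz (φ.injective (by rw [h1, map_one]))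
    have ht' : φ t ≠ 1 := by
      intro h1; exact ht (φ.injective (by rw [h1, map_one]))
    exact F.same0 φ⁻¹ hx' hy' hz' ht' hxy' h4 h5 h6 h1
      (by rw [MulAut.inv_apply_self]; exact h2) (by rw [MulAut.inv_apply_self]; exact h3) h7 h8
      (by rw [MulAut.inv_apply_self]; exact h9) (by rw [MulAut.inv_apply_self]; exact h10)
  by_contra hcon
  push Not at hcon
  have hpos : 0 < B (F.att (φ z)).1 n' * B (F.att (φ t)).1 n' :=
    lt_of_le_of_ne hcon (mul_ne_zero hz0 ht0).symm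
  rcases mul_pos_iff.1 hpos with ⟨h1, h2⟩ | ⟨h1, h2⟩
  · rcases mul_neg_iff.1 h with ⟨h3, h4⟩ | ⟨h3, h4⟩
    · exact key n n' z t hz ht hn hxn hyn hn' hxn' hyn' h1 h2 h3 h4
    · exact key n n' t z ht hz hn hxn hyn hn' hxn' hyn' h2 h1 h4 h3
  · have e1 : B (-n') (-n') = 1 := by rw [B_neg_neg]; exact hn'
    have e2 : B (F.att (φ x)).1 (-n') = 0 := by rw [B_neg_right, hxn', neg_zero]
    have e3 : B (F.att (φ y)).1 (-n') = 0 := by rw [B_neg_right, hyn', neg_zero]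
    have e4 : 0 < B (F.att (φ z)).1 (-n') := by rw [B_neg_right]; linarith
    have e5 : 0 < B (F.att (φ t)).1 (-n') := by rw [B_neg_right]; linarith
    rcases mul_neg_iff.1 h with ⟨h3, h4⟩ | ⟨h3, h4⟩
    · exact key n (-n') z t hz ht hn hxn hyn e1 e2 e3 e4 e5 h3 h4
    · exact key n (-n') t z ht hz hn hxn hyn e1 e2 e3 e5 e4 h4 h3

end Fuchs

end Pool.Agent.LDJ
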