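import Pool.Agent.LDJ.SDef
import Pool.Agent.LDJ.FSI

/-!
LDJ.FCirc: the circle of a `Fuchs` action.
-/

namespace Pool.Agent.LDJ

/-- the circle of a Fuchsian action -/
noncomputable def Fuchs.circ {Γ : Type} [Group Γ] (F : Fuchs Γ) : Circ Γ where
  C := Cir
  act := F.act
  att := F.att
  lam := F.lam
  s := F.s
  sep := Cir.sep
  act_one := F.act_one
  act_mul := F.act_mul
  lam_gt x hx := (F.data hx).lam_gt
  att_ne x hx := F.att_ne hx
  att_conj g x hx := F.att_conj g hx
  att_pow x hx n hn := F.att_pow hx hn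
  tf x hx n hn := F.tf hx hn
  fixpt x w hx h := F.fixpt hx h
  comm x y hx hy h := F.comm hx hy h
  roots x g hx h := F.roots hx h
  s_rep x hx := sc_rep (F.att_ne hx).symm (F.data hx).hn (F.data hx).un (F.data hx).wn
  s_inj x w w' hx hw hw' h :=
    sc_inj (F.att_ne hx).symm (F.data hx).hn (F.data hx).un (F.data hx).wn hw hw' h
  s_act x w hx hw := F.s_act hx hw
  sep_ne a b c d h := Cir.sep_ne h
  sep_swap a b c d h := Cir.sep_swap h
  sep_symm a b c d h := Cir.sep_symm h
  sep_act g a b c d h := Cir.sep_map (F.map_light g) h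
  sep_fin x hx a b c d ha hb hc hd :=
    sep_fin' (F.att_ne hx).symm (F.data hx).hn (F.data hx).un (F.data hx).wn ha hb hc hd
  sep_inf x hx b c d hb hc hd :=
    sep_inf' (F.att_ne hx).symm (F.data hx).hn (F.data hx).un (F.data hx).wn hb hc hd
  fin_cross x z hx hz := F.fin_cross hx hz
  si φ x y z t hx hy hz ht h := F.si φ hx hy hz ht h

end Pool.Agent.LDJ
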