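import Pool.Agent.LDJ.FDat

/-!
LDJ.FCross: consequences of properness.

PROOFS. `axis_cpt`: for `x ≠ 1` there is `c` such that every point `p ∈ Hyp` of the axis
(`B p (nor x) = 0`) has a translate `ρ (x^k) p` with `-B o (ρ (x^k) p) ≤ c`: by `line_shape`
`p = a u + b w`, `2ab(-B u w) = 1`, `ρ (x^k) p = a λ^k u + b λ^(-k) w`; choose `k` with
`1 ≤ a λ^k < λ`.
`meet`: if `sep (att x) (att x⁻¹) (att z) (att z⁻¹)` the axes meet in a point `p ∈ Hyp`:
`B (att z) n`, `B (att z⁻¹) n` have opposite signs (`sep_iff_nor`, `n = nor x`), so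
`p = |B (att z⁻¹) n| att z + |B (att z) n| att z⁻¹`, normalised.
`fin_cross`: let `z' = g z g⁻¹` with axes of `x`, `z'` meeting in `p`. `k` with
`-B o (x^k p) ≤ c1`; `g⁻¹ p` is on the axis of `z` (`nor_conj`), `l` with
`-B o (z^l g⁻¹ p) ≤ c2`. `h = z^l g⁻¹ x^(-k)`: `-B (h o) o ≤ 2 c1 c2` (`tri` through `h x^k p`), so
`h` is in a finite set; `g z g⁻¹ = x^(-k) (h⁻¹ z h) x^k`.
`comm`: let `att x = att y = u`, so `ρ x u = λ u`, `ρ y u = μ u`, `λ, μ > 1`. By `roots` `x` and `y`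
commute, so `y` fixes `att x⁻¹` (`att_conj`), `nor x` is fixed by `y` up to sign. For
`g = x^i y^(-j)`, `i, j ≥ 0` natural numbers with `1 ≤ λ^i μ^(-j) ≤ λ` (for each `j` there is such
an `i`): `ρ g (att x) = λ^i μ^(-j) att x`, `ρ g (att x⁻¹) = (..)⁻¹ att x⁻¹`, so
`-B o (ρ g o)` is bounded by a constant (write `o` in the basis `att x, att x⁻¹, nor x`), so by
`proper` finitely many `g`; so for some `j < j'` `x^i y^(-j) = x^(i') y^(-j')`, `x^(i'-i) = y^(j'-j)`,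
and `i' > i` since `λ^(i'-i) = μ^(j'-j) > 1`. About 250 lines.
-/

namespace Pool.Agent.LDJ

namespace FC

lemma B_o (u : V) : B o u = -u 2 := by
  simp [B, o]

lemma B_oc (u : Cir) : B o u.1 = -1 := by
  rw [B_o, u.2.2]

lemma pow_eig {L : V ≃ₗ[ℝ] V} {c : ℝ} {u : V} (h : L u = c • u) (n : ℕ) :
    (L ^ n) u = c ^ n • u := by
  induction n with
  | zero => simp
  | succ n ih => rw [pow_succ', LinearEquiv.mul_apply, ih, map_smul, h, smul_smul, pow_succ]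

lemma zpow_eig {L : V ≃ₗ[ℝ] V} {c : ℝ} {u : V} (hc : c ≠ 0) (h : L u = c • u) (k : ℤ) :
    (L ^ k) u = c ^ k • u := by
  cases k with
  | ofNat n =>
    rw [Int.ofNat_eq_natCast, zpow_natCast, zpow_natCast]
    exact pow_eig h n
  | negSucc n =>
    rw [zpow_negSucc, zpow_negSucc]
    have h2 := pow_eig h (n + 1)
    have h3 : (L ^ (n + 1))⁻¹ ((L ^ (n + 1)) u) = u := by
      rw [← LinearEquiv.mul_apply, inv_mul_cancel]
      rfl
    rw [h2, map_smul] at h3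
    have h4 : c ^ (n + 1) ≠ 0 := pow_ne_zero _ hc
    calc (L ^ (n + 1))⁻¹ u = (c ^ (n + 1))⁻¹ • (c ^ (n + 1) • (L ^ (n + 1))⁻¹ u) := by
          rw [smul_smul, inv_mul_cancel₀ h4, one_smul]
      _ = (c ^ (n + 1))⁻¹ • u := by rw [h3]

variable {Γ : Type} [Group Γ] (F : Fuchs Γ)

lemma rho_mul (g h : Γ) (v : V) : F.ρ (g * h) v = F.ρ g (F.ρ h v) := by
  rw [map_mul]
  rfl

lemma rho_inv_apply (g : Γ) (v : V) : F.ρ g (F.ρ g⁻¹ v) = v := by
  rw [← rho_mul, mul_inv_cancel, map_one]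
  rfl

lemma Bneg {x : Γ} (hx : x ≠ 1) : B (F.att x).1 (F.att x⁻¹).1 < 0 :=
  Cir.neg (F.att_ne hx).symm

lemma zpow_u {x : Γ} (hx : x ≠ 1) (k : ℤ) :
    F.ρ (x ^ k) (F.att x).1 = F.lam x ^ k • (F.att x).1 := by
  have D := F.data hx
  rw [map_zpow]
  exact zpow_eig (by have := D.lam_gt; positivity) D.Lu k

lemma zpow_w {x : Γ} (hx : x ≠ 1) (k : ℤ) :
    F.ρ (x ^ k) (F.att x⁻¹).1 = (F.lam x ^ k)⁻¹ • (F.att x⁻¹).1 := by
  have D := F.data hx
  have h0 : (F.lam x)⁻¹ ≠ 0 := inv_ne_zero (by have := D.lam_gt; positivity)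
  rw [map_zpow, zpow_eig h0 D.Lw k, inv_zpow]

/-- the axis -/
lemma shape_axis {x : Γ} (hx : x ≠ 1) {p : V} (hp : p ∈ Hyp) (hpn : B p (F.nor x) = 0) :
    ∃ a b : ℝ, 0 < a ∧ 0 < b ∧ 2 * a * b * (-B (F.att x).1 (F.att x⁻¹).1) = 1 ∧
      p = a • (F.att x).1 + b • (F.att x⁻¹).1 := by
  have D := F.data hx
  exact line_shape (F.att x).light (F.att x⁻¹).light (Bneg F hx) D.hn D.un D.wn hp hpn

end FC

namespace Fuchs

variable {Γ : Type} [Group Γ] (F : Fuchs Γ)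

theorem axis_cpt {x : Γ} (hx : x ≠ 1) : ∃ c : ℝ, ∀ p ∈ Hyp, B p (F.nor x) = 0 →
    ∃ k : ℤ, -B o (F.ρ (x ^ k) p) ≤ c := by
  have D := F.data hx
  have hl := D.lam_gt
  have hb := FC.Bneg F hx
  set u := F.att x with hu
  set w := F.att x⁻¹ with hw
  set β := -B u.1 w.1 with hβ
  have hβ0 : 0 < β := by rw [hβ]; linarith
  refine ⟨F.lam x + 1 / (2 * β), fun p hp hpn => ?_⟩
  obtain ⟨a, b, ha, hb', hab, hpe⟩ := FC.shape_axis F hx hp hpn
  obtain ⟨m, hm1, hm2⟩ := exists_mem_Ico_zpow ha hl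
  refine ⟨-m, ?_⟩
  have hlm : 0 < F.lam x ^ m := zpow_pos (by linarith) m
  have h1 : F.ρ (x ^ (-m)) p = (a * (F.lam x ^ m)⁻¹) • u.1 + (b * F.lam x ^ m) • w.1 := by
    rw [hpe, map_add, map_smul, map_smul, FC.zpow_u F hx, FC.zpow_w F hx, smul_smul, smul_smul,
      zpow_neg, inv_inv]
  rw [h1, B_add_right, B_smul_right, B_smul_right, FC.B_oc, FC.B_oc]
  have h2 : a * (F.lam x ^ m)⁻¹ ≤ F.lam x := by
    rw [← div_eq_mul_inv, div_le_iff₀ hlm, mul_comm, ← zpow_add_one₀ (by linarith)]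
    exact hm2.le
  have h3 : b * F.lam x ^ m ≤ 1 / (2 * β) := by
    rw [le_div_iff₀ (by positivity)]
    calc b * F.lam x ^ m * (2 * β) ≤ b * a * (2 * β) := by
          apply mul_le_mul_of_nonneg_right _ (by positivity)
          exact mul_le_mul_of_nonneg_left hm1 hb'.le
      _ = 2 * a * b * β := by ring
      _ = 1 := hab
  linarith

theorem meet {x z : Γ} (hx : x ≠ 1) (hz : z ≠ 1)
    (h : Cir.sep (F.att x) (F.att x⁻¹) (F.att z) (F.att z⁻¹)) :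
    ∃ p ∈ Hyp, B p (F.nor x) = 0 ∧ B p (F.nor z) = 0 := by
  have D := F.data hx
  have Dz := F.data hz
  rw [Cir.sep_iff_nor (F.att_ne hx).symm D.hn D.un D.wn] at h
  have hb := FC.Bneg F hz
  set u := F.att z with hu
  set w := F.att z⁻¹ with hw
  set n := F.nor x with hn
  set s := B u.1 n with hs
  set t := B w.1 n with ht
  have hs0 : s ≠ 0 := by
    intro h0
    rw [h0, zero_mul] at h
    exact lt_irrefl _ h
  have ht0 : t ≠ 0 := by
    intro h0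
    rw [h0, mul_zero] at h
    exact lt_irrefl _ h
  have hsa : 0 < |s| := abs_pos.2 hs0
  have hta : 0 < |t| := abs_pos.2 ht0
  have hst : |t| * s + |s| * t = 0 := by
    rcases lt_or_gt_of_ne hs0 with h1 | h1
    · have h2 : 0 < t := by
        by_contra h3
        nlinarith
      rw [abs_of_neg h1, abs_of_pos h2]
      ring
    · have h2 : t < 0 := by
        by_contra h3
        nlinarith
      rw [abs_of_pos h1, abs_of_neg h2]
      ring
  have hN : 0 < 2 * |t| * |s| * (-B u.1 w.1) := by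
    have : 0 < -B u.1 w.1 := by linarith
    positivity
  set N := 2 * |t| * |s| * (-B u.1 w.1) with hNd
  have hsq : 0 < Real.sqrt N := Real.sqrt_pos.2 hN
  have hss : Real.sqrt N * Real.sqrt N = N := Real.mul_self_sqrt hN.le
  have huu : B u.1 u.1 = 0 := u.2.1
  have hww : B w.1 w.1 = 0 := w.2.1
  refine ⟨(Real.sqrt N)⁻¹ • (|t| • u.1 + |s| • w.1), ⟨?_, ?_⟩, ?_, ?_⟩
  · simp only [B_add_left, B_smul_left, B_add_right, B_smul_right]
    rw [huu, hww, B_comm w.1 u.1]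
    have h2 : (Real.sqrt N)⁻¹ * (Real.sqrt N)⁻¹ * N = 1 := by
      rw [← mul_inv, hss, inv_mul_cancel₀ hN.ne']
    have h3 : (Real.sqrt N)⁻¹ * ((Real.sqrt N)⁻¹ * (|t| * (|t| * 0 + |s| * B u.1 w.1) +
        |s| * (|t| * B u.1 w.1 + |s| * 0))) = -((Real.sqrt N)⁻¹ * (Real.sqrt N)⁻¹ * N) := by
      rw [hNd]
      ring
    linarith
  · simp only [Pi.smul_apply, Pi.add_apply, smul_eq_mul]
    rw [u.2.2, w.2.2]
    positivity
  · rw [B_smul_left, B_add_left, B_smul_left, B_smul_left, ← hs, ← ht, hst, mul_zero]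
  · rw [B_smul_left, B_add_left, B_smul_left, B_smul_left, Dz.un, Dz.wn]
    ring

theorem fin_cross {x z : Γ} (hx : x ≠ 1) (hz : z ≠ 1) : ∃ E : Finset Γ, ∀ g,
    Cir.sep (F.att x) (F.att x⁻¹) (F.att (g * z * g⁻¹)) (F.att (g * z * g⁻¹)⁻¹) →
      ∃ k : ℤ, ∃ f ∈ E, g * z * g⁻¹ = x ^ k * f * x ^ (-k) := by
  classical
  obtain ⟨c1, hc1⟩ := F.axis_cpt hx
  obtain ⟨c2, hc2⟩ := F.axis_cpt hz
  have hfin := F.proper (2 * c2 * c1)
  refine ⟨hfin.toFinset.image fun h => h⁻¹ * z * h, fun g hg => ?_⟩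
  have hz' : g * z * g⁻¹ ≠ 1 := by
    intro h0
    apply hz
    rw [mul_inv_eq_one] at h0
    exact mul_eq_left.1 h0
  obtain ⟨p, hp, hp1, hp2⟩ := F.meet hx hz' hg
  obtain ⟨k, hk⟩ := hc1 p hp hp1
  have hp3 : B (F.ρ g⁻¹ p) (F.nor z) = 0 := by
    have h1 : B (F.ρ g⁻¹ p) (F.nor z) = B p (F.ρ g (F.nor z)) := by
      rw [← F.pres g (F.ρ g⁻¹ p) (F.nor z), FC.rho_inv_apply]
    rw [h1]
    rcases F.nor_conj g hz with h2 | h2
    · rw [h2] at hp2
      exact hp2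
    · rw [h2] at hp2
      have h3 : B p (-F.ρ g (F.nor z)) = -B p (F.ρ g (F.nor z)) := by
        rw [← neg_one_smul ℝ (F.ρ g (F.nor z)), B_smul_right]
        ring
      rw [h3] at hp2
      linarith
  obtain ⟨l, hl⟩ := hc2 (F.ρ g⁻¹ p) (F.fut _ _ hp) hp3
  set h := z ^ l * g⁻¹ * x ^ (-k) with hh
  have hq : F.ρ (x ^ k) p ∈ Hyp := F.fut _ _ hp
  have hhq : F.ρ h (F.ρ (x ^ k) p) = F.ρ (z ^ l) (F.ρ g⁻¹ p) := by
    rw [← FC.rho_mul, ← FC.rho_mul, hh, mul_assoc, ← zpow_add, neg_add_cancel, zpow_zero, mul_one]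
  have hmem : -B o (F.ρ h o) ≤ 2 * c2 * c1 := by
    have h1 := tri o_mem (F.fut h _ hq) (F.fut h _ o_mem)
    rw [F.pres, hhq] at h1
    have h2 : 1 ≤ -B o (F.ρ (z ^ l) (F.ρ g⁻¹ p)) := one_le o_mem (F.fut _ _ (F.fut _ _ hp))
    have h3 : 1 ≤ -B o (F.ρ (x ^ k) p) := one_le o_mem hq
    rw [B_comm (F.ρ (x ^ k) p) o] at h1
    refine h1.trans ?_
    have h4 : 2 * -B o (F.ρ (z ^ l) (F.ρ g⁻¹ p)) ≤ 2 * c2 := by linarith
    exact mul_le_mul h4 hk (by linarith) (by linarith)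
  refine ⟨-k, h⁻¹ * z * h, ?_, ?_⟩
  · rw [Finset.mem_image]
    exact ⟨h, hfin.mem_toFinset.2 hmem, rfl⟩
  · rw [hh]
    group

theorem comm {x y : Γ} (hx : x ≠ 1) (hy : y ≠ 1) (h : F.att x = F.att y) :
    ∃ m n : ℕ, 0 < m ∧ 0 < n ∧ x ^ m = y ^ n := by
  have D := F.data hx
  have Dy := F.data hy
  have hl := D.lam_gt
  have hm := Dy.lam_gt
  have hact : F.act y (F.att x) = F.att x := by
    rw [h]
    apply Subtype.ext
    change ((F.ρ y (F.att y).1) 2)⁻¹ • F.ρ y (F.att y).1 = (F.att y).1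
    rw [Dy.Lu, Pi.smul_apply, smul_eq_mul, (F.att y).2.2, mul_one, smul_smul,
      inv_mul_cancel₀ (by linarith), one_smul]
  have hcomm : y * x = x * y := F.roots hx hact
  have hxi : x⁻¹ ≠ 1 := inv_ne_one.2 hx
  have hwy : F.att x⁻¹ = F.att y⁻¹ := by
    have h1 := F.att_conj y hxi
    have h2 : y * x⁻¹ * y⁻¹ = x⁻¹ := by
      rw [mul_inv_eq_iff_eq_mul, ← mul_left_inj x, mul_assoc, inv_mul_cancel, mul_one,
        mul_assoc, hcomm, inv_mul_cancel_left]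
    rw [h2] at h1
    rcases F.fixpt hy h1.symm with h3 | h3
    · exact absurd (h3.trans h.symm) (F.att_ne hx)
    · exact h3
  have hb := FC.Bneg F hx
  set u := F.att x with hu
  set w := F.att x⁻¹ with hw
  set lx := F.lam x with hlx
  set my := F.lam y with hmy
  -- a point of the axis
  have hβ : 0 < 2 * (-B u.1 w.1) := by linarith
  set r := Real.sqrt (2 * (-B u.1 w.1)) with hr
  have hr0 : 0 < r := Real.sqrt_pos.2 hβ
  have hrr : r * r = 2 * (-B u.1 w.1) := Real.mul_self_sqrt hβ.le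
  set p : V := r⁻¹ • (u.1 + w.1) with hpd
  have huu : B u.1 u.1 = 0 := u.2.1
  have hww : B w.1 w.1 = 0 := w.2.1
  have hp : p ∈ Hyp := by
    constructor
    · rw [hpd]
      simp only [B_add_left, B_smul_left, B_add_right, B_smul_right]
      rw [huu, hww, B_comm w.1 u.1]
      have h5 : r⁻¹ * r⁻¹ * (-B u.1 w.1) = 1 / 2 := by
        have h6 : -B u.1 w.1 = r * r / 2 := by rw [hrr]; ring
        rw [h6]
        field_simp
      linear_combination (-2) * h5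
    · rw [hpd]
      simp only [Pi.smul_apply, Pi.add_apply, smul_eq_mul]
      rw [u.2.2, w.2.2]
      positivity
  have hgu : ∀ i j : ℤ, F.ρ (x ^ i * y ^ j) u.1 = (lx ^ i * my ^ j) • u.1 := by
    intro i j
    have h1 : F.ρ (y ^ j) u.1 = my ^ j • u.1 := by
      rw [h]
      exact FC.zpow_u F hy j
    rw [FC.rho_mul, h1, map_smul, FC.zpow_u F hx, smul_smul, mul_comm]
  have hgw : ∀ i j : ℤ, F.ρ (x ^ i * y ^ j) w.1 = (lx ^ i * my ^ j)⁻¹ • w.1 := by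
    intro i j
    have h1 : F.ρ (y ^ j) w.1 = (my ^ j)⁻¹ • w.1 := by
      rw [hwy]
      exact FC.zpow_w F hy j
    rw [FC.rho_mul, h1, map_smul, FC.zpow_w F hx, smul_smul, mul_inv, mul_comm]
  have hbound : ∀ i j : ℤ, 1 ≤ lx ^ i * my ^ j → lx ^ i * my ^ j ≤ lx →
      -B o (F.ρ (x ^ i * y ^ j) o) ≤ 4 * (-B o p) * (-B o p) * (lx + 1) := by
    intro i j h1 h2
    set g := x ^ i * y ^ j with hg
    set σ := lx ^ i * my ^ j with hσ
    have hσ0 : 0 < σ := by linarith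
    have h3 : -B p (F.ρ g p) = (σ + σ⁻¹) / 2 := by
      have h4 : F.ρ g p = r⁻¹ • (σ • u.1 + σ⁻¹ • w.1) := by
        rw [hpd, map_smul, map_add, hgu, hgw]
      rw [h4, hpd]
      simp only [B_add_left, B_smul_left, B_add_right, B_smul_right]
      rw [huu, hww, B_comm w.1 u.1]
      have h5 : r⁻¹ * r⁻¹ * (-B u.1 w.1) = 1 / 2 := by
        have h6 : -B u.1 w.1 = r * r / 2 := by rw [hrr]; ring
        rw [h6]
        field_simp
      linear_combination (σ + σ⁻¹) * h5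
    have h4 : -B p (F.ρ g p) ≤ lx + 1 := by
      rw [h3]
      have h5 : σ⁻¹ ≤ 1 := inv_le_one_of_one_le₀ h1
      linarith
    have h5 := tri o_mem hp (F.fut g _ o_mem)
    have h6 := tri hp (F.fut g _ hp) (F.fut g _ o_mem)
    rw [F.pres, B_comm p o] at h6
    have h7 : 1 ≤ -B o p := one_le o_mem hp
    have h8 : 1 ≤ -B p (F.ρ g p) := one_le hp (F.fut _ _ hp)
    calc -B o (F.ρ g o) ≤ 2 * -B o p * -B p (F.ρ g o) := h5
      _ ≤ 2 * -B o p * (2 * -B p (F.ρ g p) * -B o p) :=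
          mul_le_mul_of_nonneg_left h6 (by linarith)
      _ = 4 * (-B o p) * (-B o p) * (-B p (F.ρ g p)) := by ring
      _ ≤ 4 * (-B o p) * (-B o p) * (lx + 1) :=
          mul_le_mul_of_nonneg_left h4 (by positivity)
  -- the exponents
  have hex : ∀ j : ℕ, ∃ i : ℕ, 1 ≤ lx ^ (i : ℤ) * my ^ (-(j : ℤ)) ∧
      lx ^ (i : ℤ) * my ^ (-(j : ℤ)) ≤ lx := by
    intro j
    have h1 : 1 ≤ my ^ j := one_le_pow₀ hm.le
    obtain ⟨n, hn1, hn2⟩ := exists_nat_pow_near h1 hl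
    have h2 : 0 < my ^ j := by positivity
    refine ⟨n + 1, ?_, ?_⟩
    · rw [zpow_natCast, zpow_neg, zpow_natCast, ← div_eq_mul_inv, one_le_div h2]
      exact hn2.le
    · rw [zpow_natCast, zpow_neg, zpow_natCast, ← div_eq_mul_inv, div_le_iff₀ h2, pow_succ']
      exact mul_le_mul_of_nonneg_left hn1 (by linarith)
  choose i hi1 hi2 using hex
  have hfin := F.proper (4 * (-B o p) * (-B o p) * (lx + 1))
  have hfin' : Finite {g | -B o (F.ρ g o) ≤ 4 * (-B o p) * (-B o p) * (lx + 1)} := hfin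
  let f : ℕ → {g | -B o (F.ρ g o) ≤ 4 * (-B o p) * (-B o p) * (lx + 1)} := fun j =>
    ⟨x ^ (i j : ℤ) * y ^ (-(j : ℤ)), hbound _ _ (hi1 j) (hi2 j)⟩
  obtain ⟨j1, j2, hne, heq⟩ := Finite.exists_ne_map_eq_of_infinite f
  have key : ∀ j j' : ℕ, j < j' → f j = f j' → ∃ m n : ℕ, 0 < m ∧ 0 < n ∧ x ^ m = y ^ n := by
    intro j j' hjj hf
    have h1 : x ^ (i j : ℤ) * y ^ (-(j : ℤ)) = x ^ (i j' : ℤ) * y ^ (-(j' : ℤ)) :=
      congrArg Subtype.val hf
    have h2 : x ^ ((i j' : ℤ) - i j) = y ^ ((j' : ℤ) - j) := by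
      have h3 : (x ^ (i j' : ℤ))⁻¹ * (x ^ (i j : ℤ) * y ^ (-(j : ℤ))) * y ^ (j : ℤ) =
          (x ^ (i j' : ℤ))⁻¹ * (x ^ (i j' : ℤ) * y ^ (-(j' : ℤ))) * y ^ (j : ℤ) := by rw [h1]
      have h4 : x ^ ((i j : ℤ) - i j') = y ^ ((j : ℤ) - j') := by
        calc x ^ ((i j : ℤ) - i j') =
            (x ^ (i j' : ℤ))⁻¹ * (x ^ (i j : ℤ) * y ^ (-(j : ℤ))) * y ^ (j : ℤ) := by group
          _ = (x ^ (i j' : ℤ))⁻¹ * (x ^ (i j' : ℤ) * y ^ (-(j' : ℤ))) * y ^ (j : ℤ) := h3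
          _ = y ^ ((j : ℤ) - j') := by group
      have h5 := congrArg Inv.inv h4
      rw [← zpow_neg, ← zpow_neg, neg_sub, neg_sub] at h5
      exact h5
    have h3 : lx ^ ((i j' : ℤ) - i j) = my ^ ((j' : ℤ) - j) := by
      have h4 : F.ρ (x ^ ((i j' : ℤ) - i j)) u.1 = F.ρ (y ^ ((j' : ℤ) - j)) u.1 := by rw [h2]
      have h5 : F.ρ (y ^ ((j' : ℤ) - j)) u.1 = my ^ ((j' : ℤ) - j) • u.1 := by
        rw [h]
        exact FC.zpow_u F hy _
      rw [FC.zpow_u F hx, h5] at h4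
      have h6 := congrFun h4 2
      simp only [Pi.smul_apply, smul_eq_mul] at h6
      rw [u.2.2, mul_one, mul_one] at h6
      exact h6
    have h4 : 0 < (j' : ℤ) - j := by omega
    have h5 : 1 < lx ^ ((i j' : ℤ) - i j) := by
      rw [h3]
      exact one_lt_zpow₀ hm h4
    have h6 : 0 < (i j' : ℤ) - i j := by
      by_contra hcon
      exact absurd h5 (not_lt.2 (zpow_le_one_of_nonpos₀ hl.le (not_lt.1 hcon)))
    refine ⟨i j' - i j, j' - j, by omega, by omega, ?_⟩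
    have h7 : ((i j' - i j : ℕ) : ℤ) = (i j' : ℤ) - i j := by omega
    have h8 : ((j' - j : ℕ) : ℤ) = (j' : ℤ) - j := by omega
    rw [← zpow_natCast, ← zpow_natCast, h7, h8]
    exact h2
  rcases lt_or_gt_of_ne hne with h1 | h1
  · exact key _ _ h1 heq
  · exact key _ _ h1 heq.symm

end Fuchs

end Pool.Agent.LDJ
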