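import Pool.Agent.LDJ.FBas

/-!
LDJ.FSep: separation on the circle and the affine coordinate.

For `u ≠ w` in `Cir`, `n` with `B n n = 1`, `B u n = B w n = 0`, the coordinate of `v ≠ u` is
`sc u n v = - B v n / B v u` (`B v u < 0` by `light_light`, as `v = t u`, `t = 1` is excluded).

PROOFS. `u, w, n` is a basis (nonzero Gram determinant `B(u,w)²·(-1)`); write `v = α u + β w + γ n`;
`B v u = β B u w`, `B v n = γ`, `B v v = 0` gives `α = γ²/(2c)` with `c = -B v u`,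
`β = c/β0`, `β0 = -B u w`. So with `s = sc u n v = γ/c`:
`v = c • ((s²/2) • u + (1/β0) • w + s • n)` (`shape`). So
`det3 v1 v2 v3 = c1 c2 c3 · (D/(2β0)) · (s1-s2)(s2-s3)(s3-s1) · (±1)` and
`det3 u v2 v3 = c2 c3 (D/β0) (±1)(s3 - s2)`, `D = det3 u w n ≠ 0` (the sign is a global constant;
only products of two such determinants matter). `sep_fin'`: for `a,b,c,d ≠ u`,
`det3 a b c * det3 a b d` is a positive multiple of `(a-b)²(b-c)(c-a)(b-d)(d-a)`; if `a = b` both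
sides of the equivalence are false. `sep_inf'` similar. `sc_inj`: `shape` and third
coordinate 1 (`v` is determined up to a positive factor by `s`).
`sep_ne`, `sep_swap`: properties of `det3`. `sep_symm`: polynomial identity for light vectors; or:
take `u := a`, `w := b` when `a ≠ b` with a normal `n` (`line_normal`), and use `sep_inf'`-type
computations; or compute with `v = (cos θ, sin θ, 1)`: `det3` of three such vectors equals
`4 sin((θ1-θ2)/2) sin((θ2-θ3)/2) sin((θ3-θ1)/2)` up to sign.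
`sep_map`: `det3 (L a) (L b) (L c) = det L * det3 a b c` (linear algebra; `det L ≠ 0`) and the
normalising factors are positive. About 250 lines.
-/

namespace Pool.Agent.LDJ

/-- the affine coordinate -/
noncomputable def sc (u : Cir) (n : V) (v : Cir) : ℝ := -(B v.1 n) / B v.1 u.1

private lemma fs_gram (a b c d : V) : det3 a b c * det3 a b d =
    -(B a a * (B b b * B c d - B b d * B c b) - B a b * (B b a * B c d - B b d * B c a) +
      B a d * (B b a * B c b - B b b * B c a)) := by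
  simp only [det3, B]
  ring

private lemma fs_B0 (u : Cir) : B u.1 u.1 = 0 := u.2.1

private lemma fs_comm (u v : V) : B u v = B v u := by
  simp only [B]
  ring

private lemma fs_add (u v w : V) : B (u + v) w = B u w + B v w := by
  simp only [B, Pi.add_apply]
  ring

private lemma fs_smul (t : ℝ) (u w : V) : B (t • u) w = t * B u w := by
  simp only [B, Pi.smul_apply, smul_eq_mul]
  ring

/-- `det3 a b c * det3 a b d` for light vectors -/
private lemma fs_light (a b : Cir) (c d : V) :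
    det3 a.1 b.1 c * det3 a.1 b.1 d = B a.1 b.1 *
      (B a.1 b.1 * B c d - B a.1 c * B b.1 d - B a.1 d * B b.1 c) := by
  rw [fs_gram, fs_B0 a, fs_B0 b, fs_comm b.1 a.1, fs_comm c b.1, fs_comm c a.1]
  ring

theorem Cir.light (u : Cir) : u.1 ∈ Light := by
  refine ⟨u.2.1, ?_⟩
  rw [u.2.2]
  exact one_pos

theorem Cir.neg {u v : Cir} (h : u ≠ v) : B u.1 v.1 < 0 := by
  obtain ⟨u, hu1, hu2⟩ := u
  obtain ⟨v, hv1, hv2⟩ := v
  have hne : u ≠ v := fun e => h (Subtype.ext e)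
  simp only [B] at hu1 hv1 ⊢
  rw [hu2] at hu1
  rw [hv2] at hv1
  rw [hu2, hv2]
  by_contra hcon
  push Not at hcon
  apply hne
  have h0 : (u 0 - v 0) ^ 2 + (u 1 - v 1) ^ 2 ≤ 0 := by nlinarith
  have h1 : u 0 = v 0 := by nlinarith [sq_nonneg (u 0 - v 0), sq_nonneg (u 1 - v 1)]
  have h2 : u 1 = v 1 := by nlinarith [sq_nonneg (u 0 - v 0), sq_nonneg (u 1 - v 1)]
  funext i
  fin_cases i
  · exact h1
  · exact h2
  · exact hu2.trans hv2.symm

theorem Cir.sep_ne {a b c d : Cir} (h : Cir.sep a b c d) :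
    a ≠ b ∧ a ≠ c ∧ a ≠ d ∧ b ≠ c ∧ b ≠ d ∧ c ≠ d := by
  unfold Cir.sep at h
  refine ⟨?_, ?_, ?_, ?_, ?_, ?_⟩ <;> intro e <;> apply lt_irrefl (0 : ℝ)
  · have h1 : det3 a.1 b.1 c.1 = 0 := by
      rw [e]
      simp only [det3]
      ring
    rwa [h1, zero_mul] at h
  · have h1 : det3 a.1 b.1 c.1 = 0 := by
      rw [e]
      simp only [det3]
      ring
    rwa [h1, zero_mul] at h
  · have h1 : det3 a.1 b.1 d.1 = 0 := by
      rw [e]
      simp only [det3]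
      ring
    rwa [h1, mul_zero] at h
  · have h1 : det3 a.1 b.1 c.1 = 0 := by
      rw [e]
      simp only [det3]
      ring
    rwa [h1, zero_mul] at h
  · have h1 : det3 a.1 b.1 d.1 = 0 := by
      rw [e]
      simp only [det3]
      ring
    rwa [h1, mul_zero] at h
  · rw [e] at h
    exact absurd h (not_lt.2 (mul_self_nonneg _))

theorem Cir.sep_swap {a b c d : Cir} (h : Cir.sep a b c d) : Cir.sep b a c d := by
  unfold Cir.sep at h ⊢
  have h1 : ∀ x : V, det3 b.1 a.1 x = -det3 a.1 b.1 x := by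
    intro x
    simp only [det3]
    ring
  rw [h1, h1, neg_mul_neg]
  exact h

theorem Cir.sep_symm {a b c d : Cir} (h : Cir.sep a b c d) : Cir.sep c d a b := by
  obtain ⟨hab, -, -, -, -, hcd⟩ := Cir.sep_ne h
  have h1 := Cir.neg hab
  have h2 := Cir.neg hcd
  unfold Cir.sep at h ⊢
  rw [fs_light a b c.1 d.1] at h
  rw [fs_light c d a.1 b.1]
  rw [fs_comm c.1 a.1, fs_comm d.1 b.1, fs_comm c.1 b.1, fs_comm d.1 a.1]
  have h3 : 0 < B a.1 b.1 * B c.1 d.1 - B a.1 c.1 * B b.1 d.1 - B a.1 d.1 * B b.1 c.1 :=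
    pos_of_mul_neg_right h h1.le
  have h4 : B c.1 d.1 * B a.1 b.1 - B a.1 c.1 * B b.1 d.1 - B b.1 c.1 * B a.1 d.1 =
      B a.1 b.1 * B c.1 d.1 - B a.1 c.1 * B b.1 d.1 - B a.1 d.1 * B b.1 c.1 := by ring
  rw [h4]
  exact mul_neg_of_neg_of_pos h2 h3

/-- separation by the line with unit normal `n` through `a`, `b` -/
theorem Cir.sep_iff_nor {a b c d : Cir} {n : V} (hab : a ≠ b) (hn : B n n = 1)
    (han : B a.1 n = 0) (hbn : B b.1 n = 0) :
    Cir.sep a b c d ↔ B c.1 n * B d.1 n < 0 := by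
  have h1 := Cir.neg hab
  have hg : ∀ x : V, det3 a.1 b.1 x * det3 a.1 b.1 n = B x n * B a.1 b.1 ^ 2 := by
    intro x
    rw [fs_gram, fs_B0 a, fs_B0 b, han, hbn, fs_comm b.1 a.1]
    ring
  have hnn := hg n
  rw [hn, one_mul] at hnn
  have hc := hg c.1
  have hd := hg d.1
  have hp : 0 < B a.1 b.1 ^ 2 := by
    have hne := h1.ne
    positivity
  have hk : det3 a.1 b.1 c.1 * det3 a.1 b.1 d.1 = B c.1 n * B d.1 n * B a.1 b.1 ^ 2 := by
    have h2 : det3 a.1 b.1 c.1 * det3 a.1 b.1 d.1 * B a.1 b.1 ^ 2 =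
        B c.1 n * B d.1 n * B a.1 b.1 ^ 2 * B a.1 b.1 ^ 2 := by
      calc det3 a.1 b.1 c.1 * det3 a.1 b.1 d.1 * B a.1 b.1 ^ 2
          = (det3 a.1 b.1 c.1 * det3 a.1 b.1 n) * (det3 a.1 b.1 d.1 * det3 a.1 b.1 n) := by
            rw [← hnn]
            ring
        _ = _ := by
            rw [hc, hd]
            ring
    exact mul_right_cancel₀ hp.ne' h2
  unfold Cir.sep
  rw [hk]
  constructor
  · intro h
    exact neg_of_mul_neg_left h hp.le
  · intro h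
    exact mul_neg_of_neg_of_pos h hp

private lemma fs_det (u w n : V) (x y z x' y' z' x'' y'' z'' : ℝ) :
    det3 (x • u + y • w + z • n) (x' • u + y' • w + z' • n) (x'' • u + y'' • w + z'' • n) =
      (x * (y' * z'' - z' * y'') - y * (x' * z'' - z' * x'') + z * (x' * y'' - y' * x'')) *
        det3 u w n := by
  simp only [det3, Pi.add_apply, Pi.smul_apply, smul_eq_mul]
  ring

private lemma fs_expand {u w n : V} (h : det3 u w n ≠ 0) (v : V) :
    ∃ x y z : ℝ, v = x • u + y • w + z • n := by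
  refine ⟨det3 v w n / det3 u w n, det3 u v n / det3 u w n, det3 u w v / det3 u w n, ?_⟩
  have key : ∀ i, det3 u w n * v i = det3 v w n * u i + det3 u v n * w i + det3 u w v * n i := by
    intro i
    fin_cases i <;> simp only [det3, Fin.zero_eta, Fin.mk_one, Fin.reduceFinMk] <;> ring
  funext i
  simp only [Pi.add_apply, Pi.smul_apply, smul_eq_mul]
  field_simp
  linear_combination key i

private lemma fs_D {u w : Cir} {n : V} (huw : u ≠ w) (hn : B n n = 1) (hun : B u.1 n = 0)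
    (hwn : B w.1 n = 0) : det3 u.1 w.1 n ≠ 0 := by
  intro h0
  have h1 := Cir.neg huw
  have h2 := fs_gram u.1 w.1 n n
  rw [h0, fs_B0 u, fs_B0 w, hun, hwn, hn, fs_comm w.1 u.1] at h2
  have h3 : B u.1 w.1 ^ 2 = 0 := by linarith
  exact h1.ne (by simpa using h3)

section

variable {u w : Cir} {n : V} (huw : u ≠ w) (hn : B n n = 1) (hun : B u.1 n = 0)
  (hwn : B w.1 n = 0)

include huw hn hun hwn

theorem shape {v : Cir} (hv : v ≠ u) :
    v.1 = (-(B v.1 u.1)) • ((sc u n v ^ 2 / 2) • u.1 + (-(B u.1 w.1))⁻¹ • w.1 +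
      sc u n v • n) := by
  have hD := fs_D huw hn hun hwn
  have h1 := Cir.neg huw
  have h2 := Cir.neg hv
  obtain ⟨x, y, z, hxyz⟩ := fs_expand hD v.1
  have e1 : B v.1 u.1 = y * B u.1 w.1 := by
    rw [hxyz, fs_add, fs_add, fs_smul, fs_smul, fs_smul, fs_B0 u, fs_comm w.1 u.1,
      fs_comm n u.1, hun]
    ring
  have e2 : B v.1 n = z := by
    rw [hxyz, fs_add, fs_add, fs_smul, fs_smul, fs_smul, hun, hwn, hn]
    ring
  have e4 : B v.1 w.1 = x * B u.1 w.1 := by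
    rw [hxyz, fs_add, fs_add, fs_smul, fs_smul, fs_smul, fs_B0 w, fs_comm n w.1, hwn]
    ring
  have e3 : x * B v.1 u.1 + y * B v.1 w.1 + z * B v.1 n = 0 := by
    have h3 := fs_B0 v
    have h4 : B v.1 v.1 = x * B v.1 u.1 + y * B v.1 w.1 + z * B v.1 n := by
      conv_lhs => rw [hxyz]
      rw [fs_add, fs_add, fs_smul, fs_smul, fs_smul, ← hxyz, fs_comm u.1 v.1, fs_comm w.1 v.1,
        fs_comm n v.1]
    rw [← h4, h3]
  rw [e4, e2] at e3
  have hs : sc u n v = -z / B v.1 u.1 := by rw [sc, e2]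
  have h5 : y * (x * B u.1 w.1) = x * B v.1 u.1 := by rw [e1]; ring
  rw [h5] at e3
  have hx : x = -(B v.1 u.1) * (sc u n v ^ 2 / 2) := by
    rw [hs]
    have hne := h2.ne
    have e5 : -(B v.1 u.1) * ((-z / B v.1 u.1) ^ 2 / 2) = -(z ^ 2) / (2 * B v.1 u.1) := by
      field_simp
    rw [e5, eq_div_iff (mul_ne_zero two_ne_zero hne)]
    linarith
  have hy : y = -(B v.1 u.1) * (-(B u.1 w.1))⁻¹ := by
    have hne := h1.ne
    rw [e1, inv_neg, neg_mul_neg, mul_inv_cancel_right₀ hne]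
  have hz : z = -(B v.1 u.1) * sc u n v := by
    have hne := h2.ne
    rw [hs, neg_div, neg_mul_neg, mul_div_cancel₀ _ hne]
  rw [smul_add, smul_add, smul_smul, smul_smul, smul_smul, ← hx, ← hy, ← hz]
  exact hxyz

theorem sc_rep : sc u n w = 0 := by
  rw [sc, hwn, neg_zero, zero_div]

theorem sc_inj {v v' : Cir} (hv : v ≠ u) (hv' : v' ≠ u) (h : sc u n v = sc u n v') : v = v' := by
  have h1 := shape huw hn hun hwn hv
  have h2 := shape huw hn hun hwn hv'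
  rw [← h] at h2
  obtain ⟨E, hE⟩ : ∃ E : V, E = (sc u n v ^ 2 / 2) • u.1 + (-(B u.1 w.1))⁻¹ • w.1 +
    sc u n v • n := ⟨_, rfl⟩
  rw [← hE] at h1 h2
  have h3 : -(B v.1 u.1) * E 2 = 1 := by
    have := v.2.2
    rw [h1] at this
    simpa using this
  have h4 : -(B v'.1 u.1) * E 2 = 1 := by
    have := v'.2.2
    rw [h2] at this
    simpa using this
  have hE2 : E 2 ≠ 0 := by
    intro h0
    rw [h0, mul_zero] at h3
    exact one_ne_zero h3.symm
  have h5 : -(B v.1 u.1) = -(B v'.1 u.1) := mul_right_cancel₀ hE2 (h3.trans h4.symm)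
  apply Subtype.ext
  rw [h1, h2, h5]

theorem sep_fin' {a b c d : Cir} (ha : a ≠ u) (hb : b ≠ u) (hc : c ≠ u) (hd : d ≠ u) :
    Cir.sep a b c d ↔ (sc u n a - sc u n c) * (sc u n b - sc u n c) *
      ((sc u n a - sc u n d) * (sc u n b - sc u n d)) < 0 := by
  have hD := fs_D huw hn hun hwn
  have h1 := Cir.neg huw
  have key : ∀ {x y z : Cir}, x ≠ u → y ≠ u → z ≠ u → det3 x.1 y.1 z.1 =
      (-(B x.1 u.1)) * (-(B y.1 u.1)) * (-(B z.1 u.1)) * ((-(B u.1 w.1))⁻¹ / 2 * det3 u.1 w.1 n) *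
        ((sc u n z - sc u n y) * (sc u n x - sc u n y) * (sc u n x - sc u n z)) := by
    intro x y z hx hy hz
    have ex := shape huw hn hun hwn hx
    have ey := shape huw hn hun hwn hy
    have ez := shape huw hn hun hwn hz
    rw [smul_add, smul_add, smul_smul, smul_smul, smul_smul] at ex ey ez
    obtain ⟨p, hp⟩ : ∃ p : ℝ, p = -(B x.1 u.1) := ⟨_, rfl⟩
    obtain ⟨q, hq⟩ : ∃ q : ℝ, q = -(B y.1 u.1) := ⟨_, rfl⟩
    obtain ⟨r, hr⟩ : ∃ r : ℝ, r = -(B z.1 u.1) := ⟨_, rfl⟩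
    rw [← hp] at ex ⊢
    rw [← hq] at ey ⊢
    rw [← hr] at ez ⊢
    conv_lhs => rw [ex, ey, ez, fs_det]
    ring
  unfold Cir.sep
  rw [key ha hb hc, key ha hb hd]
  have pa := Cir.neg ha
  have pb := Cir.neg hb
  have pc := Cir.neg hc
  have pd := Cir.neg hd
  have hk : 0 < (B a.1 u.1) ^ 2 * (B b.1 u.1) ^ 2 * (B c.1 u.1 * B d.1 u.1) *
      ((-(B u.1 w.1))⁻¹ / 2 * det3 u.1 w.1 n) ^ 2 := by
    have h2 : 0 < B c.1 u.1 * B d.1 u.1 := mul_pos_of_neg_of_neg pc pd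
    have h3 : (-(B u.1 w.1))⁻¹ / 2 * det3 u.1 w.1 n ≠ 0 := by
      apply mul_ne_zero _ hD
      apply div_ne_zero _ two_ne_zero
      exact inv_ne_zero (neg_ne_zero.2 h1.ne)
    have h4 := pow_pos (neg_pos.2 pa) 2
    have h5 := pow_pos (neg_pos.2 pb) 2
    rw [neg_sq] at h4 h5
    positivity
  obtain ⟨A, hA⟩ : ∃ A : ℝ, A = sc u n a := ⟨_, rfl⟩
  obtain ⟨B', hB⟩ : ∃ B' : ℝ, B' = sc u n b := ⟨_, rfl⟩
  obtain ⟨C, hC⟩ : ∃ C : ℝ, C = sc u n c := ⟨_, rfl⟩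
  obtain ⟨D, hD'⟩ : ∃ D : ℝ, D = sc u n d := ⟨_, rfl⟩
  obtain ⟨K, hK⟩ : ∃ K : ℝ, K = (B a.1 u.1) ^ 2 * (B b.1 u.1) ^ 2 * (B c.1 u.1 * B d.1 u.1) *
      ((-(B u.1 w.1))⁻¹ / 2 * det3 u.1 w.1 n) ^ 2 := ⟨_, rfl⟩
  rw [← hK] at hk
  rw [← hA, ← hB, ← hC, ← hD']
  have e : (-(B a.1 u.1)) * (-(B b.1 u.1)) * (-(B c.1 u.1)) *
      ((-(B u.1 w.1))⁻¹ / 2 * det3 u.1 w.1 n) * ((C - B') * (A - B') * (A - C)) *
      ((-(B a.1 u.1)) * (-(B b.1 u.1)) * (-(B d.1 u.1)) *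
      ((-(B u.1 w.1))⁻¹ / 2 * det3 u.1 w.1 n) * ((D - B') * (A - B') * (A - D))) =
      K * (A - B') ^ 2 * ((A - C) * (B' - C) * ((A - D) * (B' - D))) := by
    rw [hK]
    ring
  rw [e]
  rcases eq_or_ne A B' with hAB | hAB
  · rw [hAB]
    have h2 : 0 ≤ (B' - C) * (B' - C) * ((B' - D) * (B' - D)) :=
      mul_nonneg (mul_self_nonneg _) (mul_self_nonneg _)
    constructor
    · intro h3
      rw [sub_self] at h3
      norm_num at h3
    · intro h3
      exact absurd h3 (not_lt.2 h2)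
  · have h2 : 0 < K * (A - B') ^ 2 := by
      have : A - B' ≠ 0 := sub_ne_zero.2 hAB
      positivity
    constructor
    · intro h3
      exact neg_of_mul_neg_right h3 h2.le
    · intro h3
      exact mul_neg_of_pos_of_neg h2 h3

theorem sep_inf' {b c d : Cir} (hb : b ≠ u) (hc : c ≠ u) (hd : d ≠ u) :
    Cir.sep u b c d ↔ (sc u n b - sc u n c) * (sc u n b - sc u n d) < 0 := by
  have hD := fs_D huw hn hun hwn
  have h1 := Cir.neg huw
  have key : ∀ {y z : Cir}, y ≠ u → z ≠ u → det3 u.1 y.1 z.1 =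
      (-(B y.1 u.1)) * (-(B z.1 u.1)) * ((-(B u.1 w.1))⁻¹ * det3 u.1 w.1 n) *
        (sc u n z - sc u n y) := by
    intro y z hy hz
    have ey := shape huw hn hun hwn hy
    have ez := shape huw hn hun hwn hz
    rw [smul_add, smul_add, smul_smul, smul_smul, smul_smul] at ey ez
    obtain ⟨q, hq⟩ : ∃ q : ℝ, q = -(B y.1 u.1) := ⟨_, rfl⟩
    obtain ⟨r, hr⟩ : ∃ r : ℝ, r = -(B z.1 u.1) := ⟨_, rfl⟩
    rw [← hq] at ey ⊢
    rw [← hr] at ez ⊢
    have eu : u.1 = (1 : ℝ) • u.1 + (0 : ℝ) • w.1 + (0 : ℝ) • n := by simp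
    conv_lhs => rw [ey, ez]
    have := fs_det u.1 w.1 n 1 0 0 (q * (sc u n y ^ 2 / 2)) (q * (-(B u.1 w.1))⁻¹)
      (q * sc u n y) (r * (sc u n z ^ 2 / 2)) (r * (-(B u.1 w.1))⁻¹) (r * sc u n z)
    rw [← eu] at this
    rw [this]
    ring
  unfold Cir.sep
  rw [key hb hc, key hb hd]
  have pb := Cir.neg hb
  have pc := Cir.neg hc
  have pd := Cir.neg hd
  have hk : 0 < (B b.1 u.1) ^ 2 * (B c.1 u.1 * B d.1 u.1) *
      ((-(B u.1 w.1))⁻¹ * det3 u.1 w.1 n) ^ 2 := by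
    have h2 : 0 < B c.1 u.1 * B d.1 u.1 := mul_pos_of_neg_of_neg pc pd
    have h3 : (-(B u.1 w.1))⁻¹ * det3 u.1 w.1 n ≠ 0 := by
      apply mul_ne_zero _ hD
      exact inv_ne_zero (neg_ne_zero.2 h1.ne)
    have h5 := pow_pos (neg_pos.2 pb) 2
    rw [neg_sq] at h5
    positivity
  obtain ⟨B', hB⟩ : ∃ B' : ℝ, B' = sc u n b := ⟨_, rfl⟩
  obtain ⟨C, hC⟩ : ∃ C : ℝ, C = sc u n c := ⟨_, rfl⟩
  obtain ⟨D, hD'⟩ : ∃ D : ℝ, D = sc u n d := ⟨_, rfl⟩
  obtain ⟨K, hK⟩ : ∃ K : ℝ, K = (B b.1 u.1) ^ 2 * (B c.1 u.1 * B d.1 u.1) *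
      ((-(B u.1 w.1))⁻¹ * det3 u.1 w.1 n) ^ 2 := ⟨_, rfl⟩
  rw [← hK] at hk
  rw [← hB, ← hC, ← hD']
  have e : (-(B b.1 u.1)) * (-(B c.1 u.1)) * ((-(B u.1 w.1))⁻¹ * det3 u.1 w.1 n) * (C - B') *
      ((-(B b.1 u.1)) * (-(B d.1 u.1)) * ((-(B u.1 w.1))⁻¹ * det3 u.1 w.1 n) * (D - B')) =
      K * ((B' - C) * (B' - D)) := by
    rw [hK]
    ring
  rw [e]
  constructor
  · intro h3
    exact neg_of_mul_neg_right h3 hk.le
  · intro h3
    exact mul_neg_of_pos_of_neg hk h3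

end

/-- the projective action on the circle -/
noncomputable def Cir.map (L : V ≃ₗ[ℝ] V) (h : ∀ u : Cir, L u.1 ∈ Light) (u : Cir) : Cir :=
  ⟨((L u.1) 2)⁻¹ • L u.1, by
    have h1 := h u
    have h2 : (L u.1) 2 ≠ 0 := h1.2.ne'
    constructor
    · have h3 := h1.1
      simp only [B, Pi.smul_apply, smul_eq_mul] at h3 ⊢
      linear_combination ((L u.1) 2)⁻¹ ^ 2 * h3
    · simp only [Pi.smul_apply, smul_eq_mul]
      exact inv_mul_cancel₀ h2⟩

private lemma fs_detmap (L : V ≃ₗ[ℝ] V) : ∃ K : ℝ, K ≠ 0 ∧ ∀ a b c : V,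
    det3 (L a) (L b) (L c) = K * det3 a b c := by
  obtain ⟨K, hK⟩ : ∃ K : ℝ, K = det3 (L ![1, 0, 0]) (L ![0, 1, 0]) (L ![0, 0, 1]) := ⟨_, rfl⟩
  have hL : ∀ a : V, L a = a 0 • L ![1, 0, 0] + a 1 • L ![0, 1, 0] + a 2 • L ![0, 0, 1] := by
    intro a
    rw [← map_smul, ← map_smul, ← map_smul, ← map_add, ← map_add]
    congr 1
    funext i
    fin_cases i <;> simp
  have key : ∀ a b c : V, det3 (L a) (L b) (L c) = K * det3 a b c := by
    intro a b c
    rw [hL a, hL b, hL c, fs_det, ← hK]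
    simp only [det3]
    ring
  refine ⟨K, ?_, key⟩
  intro h0
  have h1 := key (L.symm ![1, 0, 0]) (L.symm ![0, 1, 0]) (L.symm ![0, 0, 1])
  rw [h0, zero_mul, LinearEquiv.apply_symm_apply, LinearEquiv.apply_symm_apply,
    LinearEquiv.apply_symm_apply] at h1
  simp [det3] at h1

theorem Cir.sep_map {L : V ≃ₗ[ℝ] V} (h : ∀ u : Cir, L u.1 ∈ Light) {a b c d : Cir}
    (hs : Cir.sep a b c d) :
    Cir.sep (Cir.map L h a) (Cir.map L h b) (Cir.map L h c) (Cir.map L h d) := by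
  obtain ⟨K, hK0, hK⟩ := fs_detmap L
  have hpos : ∀ x : Cir, 0 < ((L x.1) 2)⁻¹ := fun x => inv_pos.2 (h x).2
  have key : ∀ x y z : Cir, det3 (Cir.map L h x).1 (Cir.map L h y).1 (Cir.map L h z).1 =
      ((L x.1) 2)⁻¹ * ((L y.1) 2)⁻¹ * ((L z.1) 2)⁻¹ * K * det3 x.1 y.1 z.1 := by
    intro x y z
    have h1 : det3 (Cir.map L h x).1 (Cir.map L h y).1 (Cir.map L h z).1 =
        ((L x.1) 2)⁻¹ * ((L y.1) 2)⁻¹ * ((L z.1) 2)⁻¹ * det3 (L x.1) (L y.1) (L z.1) := by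
      simp only [det3, Cir.map, Pi.smul_apply, smul_eq_mul]
      ring
    rw [h1, hK]
    ring
  unfold Cir.sep at hs ⊢
  rw [key, key]
  have h2 : 0 < (((L a.1) 2)⁻¹ * ((L b.1) 2)⁻¹) ^ 2 * (((L c.1) 2)⁻¹ * ((L d.1) 2)⁻¹) * K ^ 2 := by
    have h3 := hpos a
    have h4 := hpos b
    have h5 := hpos c
    have h6 := hpos d
    positivity
  have h3 : ((L a.1) 2)⁻¹ * ((L b.1) 2)⁻¹ * ((L c.1) 2)⁻¹ * K * det3 a.1 b.1 c.1 *
      (((L a.1) 2)⁻¹ * ((L b.1) 2)⁻¹ * ((L d.1) 2)⁻¹ * K * det3 a.1 b.1 d.1) =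
      (((L a.1) 2)⁻¹ * ((L b.1) 2)⁻¹) ^ 2 * (((L c.1) 2)⁻¹ * ((L d.1) 2)⁻¹) * K ^ 2 *
        (det3 a.1 b.1 c.1 * det3 a.1 b.1 d.1) := by ring
  rw [h3]
  exact mul_neg_of_pos_of_neg h2 hs

end Pool.Agent.LDJ
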