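import Pool.Agent.LDJ.FHyp
import Pool.Agent.LDJ.FSep

/-!
LDJ.FDat: attracting points, eigenvalues, normals; the action on the circle.

PROOFS. `data`: from the choice we get `Data (ρ g) (lam g) (att g) w (nor g)` for some `w`. For
`g⁻¹`: `ρ g⁻¹ w = lam g • w`. Uniqueness (`att_unique`): if `ρ g u' = μ • u'`, `u' ∈ Cir`, `μ > 1`,
then `u' = att g`: write `u' = α u + β w + γ n` in the eigenbasis; `μ α = λ α`, `μ β = λ⁻¹ β`,
`μ γ = γ` so `β = γ = 0`, and third coordinates. So `att g⁻¹ = w`, and `lam g⁻¹ = lam g`.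
`fixpt`: `act g v = v` means `ρ g v = μ • v`, `μ > 0`; eigenvectors of `ρ g`: multiples of `u`, `w`,
`n`; `n` is not light. `att_conj`: `ρ (x g x⁻¹) (ρ x u) = λ • ρ x u`. `att_pow`. `nor_conj`:
`nor (x g x⁻¹)` and `ρ x (nor g)` are both unit and orthogonal to the two ends of `x g x⁻¹`, so
equal up to sign. `act_*`: immediate. `s_act`: `B (ρ g v) n = B v n`,
`B (ρ g v) u = lam⁻¹ B v u`; the normalising factor cancels in `sc`. `tf`: `ρ (g^n) att = lam^n att`,
`lam^n > 1` so `g^n ≠ 1`. `link_normal`... About 250 lines.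
-/

namespace Pool.Agent.LDJ

/-- a point of the circle -/
def Cir.pt : Cir := ⟨![1, 0, 1], by simp [B], by simp⟩


section FDatAux

theorem fdat_orth {u w n x : V} (huw : B u w ≠ 0) (huu : B u u = 0) (hww : B w w = 0)
    (hn : B n n = 1) (hun : B u n = 0) (hwn : B w n = 0) (h1 : B x u = 0) (h2 : B x w = 0)
    (h3 : B x n = 0) : x = 0 := by
  have hD2 : det3 u w n * det3 u w n = B u w * B u w := by
    have e : det3 u w n * det3 u w n = -(B u u * B w w * B n n + 2 * (B u w * B w n * B u n) -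
        B u u * (B w n * B w n) - B w w * (B u n * B u n) - B n n * (B u w * B u w)) := by
      simp only [det3, B]
      ring
    rw [e, huu, hww, hn, hun, hwn]
    ring
  have hD : det3 u w n ≠ 0 := by
    intro h
    rw [h, mul_zero] at hD2
    exact huw (mul_self_eq_zero.1 hD2.symm)
  have e0 : det3 u w n * x 0 = B x u * (w 1 * n 2 - w 2 * n 1) + B x w * (n 1 * u 2 - n 2 * u 1) +
      B x n * (u 1 * w 2 - u 2 * w 1) := by
    simp only [det3, B]
    ring
  have e1 : det3 u w n * x 1 = B x u * (w 2 * n 0 - w 0 * n 2) + B x w * (n 2 * u 0 - n 0 * u 2) +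
      B x n * (u 2 * w 0 - u 0 * w 2) := by
    simp only [det3, B]
    ring
  have e2 : det3 u w n * x 2 = -(B x u * (w 0 * n 1 - w 1 * n 0) +
      B x w * (n 0 * u 1 - n 1 * u 0) + B x n * (u 0 * w 1 - u 1 * w 0)) := by
    simp only [det3, B]
    ring
  rw [h1, h2, h3] at e0 e1 e2
  simp only [zero_mul, add_zero, neg_zero, mul_eq_zero, hD, false_or] at e0 e1 e2
  funext j
  fin_cases j
  · exact e0
  · exact e1
  · exact e2

theorem fdat_B_zero_left (v : V) : B 0 v = 0 := by simp [B]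

theorem fdat_norm_smul {c : ℝ} (hc : c ≠ 0) (y : V) :
    ((c • y) 2)⁻¹ • (c • y) = (y 2)⁻¹ • y := by
  funext j
  simp only [Pi.smul_apply, smul_eq_mul, mul_inv]
  field_simp

theorem fdat_ne {L : V ≃ₗ[ℝ] V} {lam : ℝ} {u w : Cir} {n : V} (h : Data L lam u w n) :
    u ≠ w := by
  intro e
  have h1 := h.Lu
  rw [e, h.Lw] at h1
  have h2 := congrFun h1 2
  simp only [Pi.smul_apply, smul_eq_mul, w.2.2, mul_one] at h2
  have h3 := h.lam_gt
  have h4 : lam⁻¹ < 1 := inv_lt_one_of_one_lt₀ h3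
  linarith

/-- eigenvectors on the circle -/
theorem fdat_eig {L : V ≃ₗ[ℝ] V} (hL : ∀ a b, B (L a) (L b) = B a b) {lam : ℝ} {u w : Cir} {n : V}
    (h : Data L lam u w n) {v : Cir} {μ : ℝ} (hv : L v.1 = μ • v.1) :
    (v = u ∧ μ = lam) ∨ (v = w ∧ μ = lam⁻¹) := by
  have hl := h.lam_gt
  have hl0 : lam ≠ 0 := by linarith
  have k1 : (μ * lam - 1) * B v.1 u.1 = 0 := by
    have e := hL v.1 u.1
    rw [hv, h.Lu, B_smul_left, B_smul_right] at e
    linear_combination e
  have k2 : (μ * lam⁻¹ - 1) * B v.1 w.1 = 0 := by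
    have e := hL v.1 w.1
    rw [hv, h.Lw, B_smul_left, B_smul_right] at e
    linear_combination e
  by_cases h1 : v = u
  · left
    refine ⟨h1, ?_⟩
    have h2 := h.Lu
    rw [← h1, hv] at h2
    have h3 := congrFun h2 2
    simpa only [Pi.smul_apply, smul_eq_mul, v.2.2, mul_one] using h3
  · right
    have h2 := Cir.neg h1
    have h3 : μ * lam - 1 = 0 := by
      rcases mul_eq_zero.1 k1 with h3 | h3
      · exact h3
      · exact absurd h3 h2.ne
    have h4 : μ = lam⁻¹ := by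
      field_simp
      linarith
    refine ⟨?_, h4⟩
    by_contra h5
    have h6 := Cir.neg h5
    rcases mul_eq_zero.1 k2 with h7 | h7
    · rw [h4] at h7
      have h8 : lam⁻¹ < 1 := inv_lt_one_of_one_lt₀ hl
      have h9 : 0 < lam⁻¹ := inv_pos.2 (by linarith)
      nlinarith
    · exact h6.ne h7

theorem fdat_nor {u w : Cir} {n m : V} (huw : u ≠ w) (hn : B n n = 1) (hm : B m m = 1)
    (hun : B u.1 n = 0) (hwn : B w.1 n = 0) (hum : B u.1 m = 0) (hwm : B w.1 m = 0) :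
    n = m ∨ n = -m := by
  have huw' := (Cir.neg huw).ne
  have hx : n - B n m • m = 0 := by
    refine fdat_orth (u := u.1) (w := w.1) (n := m) huw' u.2.1 w.2.1 hm hum hwm ?_ ?_ ?_
    · rw [sub_eq_add_neg, ← neg_smul, B_add_left, B_smul_left, B_comm n, B_comm m, hun, hum]
      ring
    · rw [sub_eq_add_neg, ← neg_smul, B_add_left, B_smul_left, B_comm n, B_comm m, hwn, hwm]
      ring
    · rw [sub_eq_add_neg, ← neg_smul, B_add_left, B_smul_left, hm]
      ring
  have hx2 : n = B n m • m := sub_eq_zero.1 hx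
  have h1 : B n m * B n m = 1 := by
    have e : B n n = B n m * (B n m * B m m) := by
      conv_lhs => rw [hx2]
      rw [B_smul_left, B_smul_right]
    rw [hn, hm] at e
    linarith
  rcases mul_self_eq_one_iff.1 h1 with h2 | h2
  · left
    rw [h2, one_smul] at hx2
    exact hx2
  · right
    rw [h2, neg_smul, one_smul] at hx2
    exact hx2

end FDatAux

namespace Fuchs

variable {Γ : Type} [Group Γ] (F : Fuchs Γ)

theorem map_light (g : Γ) (u : Cir) : F.ρ g u.1 ∈ Light :=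
  light_map (F.pres g) (F.fut g) u.light

/-- the action on the circle -/
noncomputable def act (g : Γ) (u : Cir) : Cir := Cir.map (F.ρ g) (F.map_light g) u

theorem exists_data' {g : Γ} (hg : g ≠ 1) :
    ∃ d : ℝ × Cir × Cir × V, Data (F.ρ g) d.1 d.2.1 d.2.2.1 d.2.2.2 := by
  obtain ⟨lam, u, w, n, h⟩ := F.exists_data hg
  exact ⟨(lam, u, w, n), h⟩

open Classical in
/-- a choice of data -/
noncomputable def dat (g : Γ) : ℝ × Cir × Cir × V :=
  if h : g ≠ 1 then Classical.choose (F.exists_data' h) else (2, Cir.pt, Cir.pt, ![0, 0, 0])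

/-- eigenvalue -/
noncomputable def lam (g : Γ) : ℝ := (F.dat g).1

/-- attracting point -/
noncomputable def att (g : Γ) : Cir := (F.dat g).2.1

/-- unit normal of the axis -/
noncomputable def nor (g : Γ) : V := (F.dat g).2.2.2

/-- affine coordinate -/
noncomputable def s (g : Γ) (v : Cir) : ℝ := sc (F.att g) (F.nor g) v

theorem fd_rho_mul (g h : Γ) (v : V) : F.ρ (g * h) v = F.ρ g (F.ρ h v) := by
  rw [map_mul]
  rfl

theorem fd_rho_one (v : V) : F.ρ 1 v = v := by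
  rw [map_one]
  rfl

theorem fd_rho_inv_of {g : Γ} {v w : V} (h : F.ρ g v = w) : F.ρ g⁻¹ w = v := by
  rw [← h, ← F.fd_rho_mul, inv_mul_cancel, F.fd_rho_one]

theorem fd_dat_spec {g : Γ} (hg : g ≠ 1) :
    Data (F.ρ g) (F.lam g) (F.att g) (F.dat g).2.2.1 (F.nor g) := by
  have h := Classical.choose_spec (F.exists_data' hg)
  have e : F.dat g = Classical.choose (F.exists_data' hg) := by
    unfold dat
    rw [dif_pos hg]
  unfold lam att nor
  rw [e]
  exact h

theorem fd_inv_eig {g : Γ} {v : V} {c : ℝ} (hc : c ≠ 0) (h : F.ρ g v = c • v) :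
    F.ρ g⁻¹ v = c⁻¹ • v := by
  have h1 := F.fd_rho_inv_of h
  rw [map_smul] at h1
  rw [← h1, smul_smul, inv_mul_cancel₀ hc, one_smul]
  exact h1.symm ▸ rfl

theorem fd_dat_inv {g : Γ} (hg : g ≠ 1) :
    (F.dat g).2.2.1 = F.att g⁻¹ ∧ F.lam g = F.lam g⁻¹ := by
  have h := F.fd_dat_spec hg
  have h' := F.fd_dat_spec (inv_ne_one.2 hg)
  have hl := h.lam_gt
  have hl' := h'.lam_gt
  have h1 : F.ρ g⁻¹ (F.dat g).2.2.1.1 = F.lam g • (F.dat g).2.2.1.1 := by
    have h2 := F.fd_rho_inv_of h.Lw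
    rw [map_smul] at h2
    have h3 : F.lam g • (F.lam g)⁻¹ • F.ρ g⁻¹ (F.dat g).2.2.1.1 =
        F.lam g • (F.dat g).2.2.1.1 := by rw [h2]
    rwa [smul_smul, mul_inv_cancel₀ (by linarith), one_smul] at h3
  rcases fdat_eig (F.pres g⁻¹) h' h1 with h2 | h2
  · exact h2
  · exfalso
    have h3 : (F.lam g⁻¹)⁻¹ < 1 := inv_lt_one_of_one_lt₀ hl'
    have h4 := h2.2
    linarith

theorem data {g : Γ} (hg : g ≠ 1) :
    Data (F.ρ g) (F.lam g) (F.att g) (F.att g⁻¹) (F.nor g) := by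
  have h := F.fd_dat_spec hg
  rw [(F.fd_dat_inv hg).1] at h
  exact h

theorem att_unique {g : Γ} (hg : g ≠ 1) {u : Cir} {μ : ℝ} (hμ : 1 < μ)
    (h : F.ρ g u.1 = μ • u.1) : u = F.att g ∧ μ = F.lam g := by
  have hl := (F.data hg).lam_gt
  rcases fdat_eig (F.pres g) (F.data hg) h with h2 | h2
  · exact h2
  · exfalso
    have h3 : (F.lam g)⁻¹ < 1 := inv_lt_one_of_one_lt₀ hl
    have h4 := h2.2
    linarith

theorem att_ne {g : Γ} (hg : g ≠ 1) : F.att g⁻¹ ≠ F.att g :=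
  fun e => fdat_ne (F.data hg) e.symm

theorem fd_act_val (g : Γ) (v : Cir) : (F.act g v).1 = ((F.ρ g v.1) 2)⁻¹ • F.ρ g v.1 := rfl

theorem fd_rho_pos (g : Γ) (v : Cir) : 0 < (F.ρ g v.1) 2 := (F.map_light g v).2

theorem fd_rho_act (g : Γ) (v : Cir) : F.ρ g v.1 = ((F.ρ g v.1) 2) • (F.act g v).1 := by
  rw [fd_act_val, smul_smul, mul_inv_cancel₀ (F.fd_rho_pos g v).ne', one_smul]

theorem fixpt {g : Γ} {v : Cir} (hg : g ≠ 1) (h : F.act g v = v) :
    v = F.att g ∨ v = F.att g⁻¹ := by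
  have h1 := F.fd_rho_act g v
  rw [h] at h1
  rcases fdat_eig (F.pres g) (F.data hg) h1 with h2 | h2
  · exact Or.inl h2.1
  · exact Or.inr h2.1

theorem fd_conj_ne_one (x : Γ) {g : Γ} (hg : g ≠ 1) : x * g * x⁻¹ ≠ 1 := by
  intro h
  apply hg
  have h3 := congrArg (fun t => x⁻¹ * t * x) h
  simpa [mul_assoc] using h3

theorem fd_conj_eig (x : Γ) {g : Γ} (hg : g ≠ 1) :
    F.ρ (x * g * x⁻¹) (F.act x (F.att g)).1 = F.lam g • (F.act x (F.att g)).1 := by
  rw [fd_act_val, map_smul, F.fd_rho_mul, F.fd_rho_mul, ← F.fd_rho_mul x⁻¹ x, inv_mul_cancel, F.fd_rho_one,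
    (F.data hg).Lu, map_smul, smul_comm]

theorem fd_conj_unique (x : Γ) {g : Γ} (hg : g ≠ 1) :
    F.act x (F.att g) = F.att (x * g * x⁻¹) ∧ F.lam g = F.lam (x * g * x⁻¹) :=
  F.att_unique (fd_conj_ne_one x hg) (F.data hg).lam_gt (F.fd_conj_eig x hg)

theorem att_conj (x : Γ) {g : Γ} (hg : g ≠ 1) :
    F.att (x * g * x⁻¹) = F.act x (F.att g) := (F.fd_conj_unique x hg).1.symm

theorem nor_conj (x : Γ) {g : Γ} (hg : g ≠ 1) :
    F.nor (x * g * x⁻¹) = F.ρ x (F.nor g) ∨ F.nor (x * g * x⁻¹) = -F.ρ x (F.nor g) := by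
  have hc := fd_conj_ne_one x hg
  have hd := F.data hc
  have hi : (x * g * x⁻¹)⁻¹ = x * g⁻¹ * x⁻¹ := by group
  refine fdat_nor (F.att_ne hc).symm hd.hn ?_ hd.un hd.wn ?_ ?_
  · rw [F.pres, (F.data hg).hn]
  · rw [F.att_conj x hg, fd_act_val, B_smul_left, F.pres, (F.data hg).un, mul_zero]
  · rw [hi, F.att_conj x (inv_ne_one.2 hg), fd_act_val, B_smul_left, F.pres, (F.data hg).wn,
      mul_zero]

theorem lam_inv {g : Γ} (hg : g ≠ 1) : F.lam g⁻¹ = F.lam g := (F.fd_dat_inv hg).2.symm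

theorem lam_conj (x : Γ) {g : Γ} (hg : g ≠ 1) : F.lam (x * g * x⁻¹) = F.lam g :=
  (F.fd_conj_unique x hg).2.symm

theorem fd_pow_eig {g : Γ} (hg : g ≠ 1) (n : ℕ) :
    F.ρ (g ^ n) (F.att g).1 = (F.lam g ^ n) • (F.att g).1 := by
  induction n with
  | zero => rw [pow_zero, pow_zero, F.fd_rho_one, one_smul]
  | succ n ih => rw [pow_succ, F.fd_rho_mul, (F.data hg).Lu, map_smul, ih, smul_smul, pow_succ,
      mul_comm]

include F in
theorem tf {g : Γ} (hg : g ≠ 1) {n : ℕ} (hn : 0 < n) : g ^ n ≠ 1 := by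
  intro h
  have h1 := F.fd_pow_eig hg n
  rw [h, F.fd_rho_one] at h1
  have h2 := congrFun h1 2
  simp only [Pi.smul_apply, smul_eq_mul, (F.att g).2.2, mul_one] at h2
  have h3 : 1 < F.lam g ^ n := one_lt_pow₀ (F.data hg).lam_gt hn.ne'
  linarith

theorem att_pow {g : Γ} (hg : g ≠ 1) {n : ℕ} (hn : 0 < n) : F.att (g ^ n) = F.att g :=
  (F.att_unique (F.tf hg hn) (one_lt_pow₀ (F.data hg).lam_gt hn.ne') (F.fd_pow_eig hg n)).1.symm

theorem act_one (v : Cir) : F.act 1 v = v := by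
  apply Subtype.ext
  rw [fd_act_val, F.fd_rho_one, v.2.2, inv_one, one_smul]

theorem act_mul (g h : Γ) (v : Cir) : F.act (g * h) v = F.act g (F.act h v) := by
  apply Subtype.ext
  rw [fd_act_val, fd_act_val, fd_act_val, map_smul, fdat_norm_smul (inv_ne_zero (F.fd_rho_pos h v).ne'),
    F.fd_rho_mul]

theorem s_act {g : Γ} {v : Cir} (hg : g ≠ 1) (hv : v ≠ F.att g) :
    F.s g (F.act g v) = F.lam g * F.s g v := by
  have hd := F.data hg
  have hl : F.lam g ≠ 0 := by have := hd.lam_gt; linarith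
  have hneg := (Cir.neg hv).ne
  have hc := (F.fd_rho_pos g v).ne'
  have e1 : B (F.ρ g v.1) (F.nor g) = B v.1 (F.nor g) := by
    conv_lhs => rw [← hd.Ln]
    rw [F.pres]
  have e2 : F.lam g * B (F.ρ g v.1) (F.att g).1 = B v.1 (F.att g).1 := by
    have h := F.pres g v.1 (F.att g).1
    rw [hd.Lu, B_smul_right] at h
    exact h
  have e3 : B (F.ρ g v.1) (F.att g).1 ≠ 0 := by
    intro h
    rw [h, mul_zero] at e2
    exact hneg e2.symm
  unfold s sc
  rw [fd_act_val, B_smul_left, B_smul_left, e1, ← e2]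
  field_simp

/-- the eigenvalue cocycle on the stabiliser of a point of the circle is injective -/
theorem roots {x g : Γ} (hx : x ≠ 1) (h : F.act g (F.att x) = F.att x) : g * x = x * g := by
  have h1 := F.fd_rho_act g (F.att x)
  rw [h] at h1
  have h2 := (F.data hx).Lu
  set μ := (F.ρ g (F.att x).1) 2 with hμ
  have h3 : F.ρ (g * x) (F.att x).1 = (F.lam x * μ) • (F.att x).1 := by
    rw [F.fd_rho_mul, h2, map_smul, h1, smul_smul]
  have h4 : F.ρ (x * g) (F.att x).1 = (F.lam x * μ) • (F.att x).1 := by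
    rw [F.fd_rho_mul, h1, map_smul, h2, smul_smul, mul_comm]
  have h5 : F.ρ ((x * g)⁻¹ * (g * x)) (F.att x).1 = (F.att x).1 := by
    rw [F.fd_rho_mul, h3, ← h4]
    exact F.fd_rho_inv_of rfl
  by_contra h6
  have h7 : (x * g)⁻¹ * (g * x) ≠ 1 := by
    intro h8
    apply h6
    exact (inv_mul_eq_one.1 h8).symm
  have h8 : F.ρ ((x * g)⁻¹ * (g * x)) (F.att x).1 = (1 : ℝ) • (F.att x).1 := by
    rw [h5, one_smul]
  have hl := (F.data h7).lam_gt
  rcases fdat_eig (F.pres _) (F.data h7) h8 with h9 | h9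
  · have := h9.2
    linarith
  · have h10 := h9.2
    have h11 := inv_lt_one_of_one_lt₀ hl
    linarith

end Fuchs

end Pool.Agent.LDJ
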