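import Mathlib

/-!
LDJ, PART IV: the hyperboloid model (interface).

`B` is the Lorentz form on `ℝ³`, `Hyp` the hyperboloid, `o = (0,0,1)`, `Cir` the circle at
infinity (light vectors with third coordinate 1). `Fuchs Γ`: a free, proper, cocompact,
orientation preserving action of `Γ` on the hyperbolic plane, given by linear maps.
We measure distances by `-B x y = cosh d(x,y) ≥ 1`.
-/

namespace Pool.Agent.LDJ

/-- `ℝ³` -/
abbrev V : Type := Fin 3 → ℝ

/-- the Lorentz form -/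
def B (u v : V) : ℝ := u 0 * v 0 + u 1 * v 1 - u 2 * v 2

/-- the hyperbolic plane -/
def Hyp : Set V := {x | B x x = -1 ∧ 0 < x 2}

/-- the base point -/
def o : V := ![0, 0, 1]

/-- future light vectors -/
def Light : Set V := {u | B u u = 0 ∧ 0 < u 2}

/-- unit normals of lines -/
def Nor : Set V := {n | B n n = 1}

/-- the circle at infinity -/
def Cir : Type := {u : V // B u u = 0 ∧ u 2 = 1}

/-- determinant -/
def det3 (a b c : V) : ℝ :=
  a 0 * (b 1 * c 2 - b 2 * c 1) - a 1 * (b 0 * c 2 - b 2 * c 0) + a 2 * (b 0 * c 1 - b 1 * c 0)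

/-- `{a, b}` separates `{c, d}` on the circle -/
def Cir.sep (a b c d : Cir) : Prop := det3 a.1 b.1 c.1 * det3 a.1 b.1 d.1 < 0

/-- fixed directions of a hyperbolic isometry -/
structure Data (L : V ≃ₗ[ℝ] V) (lam : ℝ) (u w : Cir) (n : V) : Prop where
  lam_gt : 1 < lam
  hn : B n n = 1
  un : B u.1 n = 0
  wn : B w.1 n = 0
  Lu : L u.1 = lam • u.1
  Lw : L w.1 = lam⁻¹ • w.1
  Ln : L n = n

/-- a free proper cocompact orientation preserving action on the hyperbolic plane -/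
structure Fuchs (Γ : Type) [Group Γ] where
  ρ : Γ →* (V ≃ₗ[ℝ] V)
  pres : ∀ g u v, B (ρ g u) (ρ g v) = B u v
  fut : ∀ g x, x ∈ Hyp → ρ g x ∈ Hyp
  det_one : ∀ g, LinearMap.det ((ρ g : V ≃ₗ[ℝ] V) : V →ₗ[ℝ] V) = 1
  free : ∀ g, g ≠ 1 → ∀ x ∈ Hyp, ρ g x ≠ x
  proper : ∀ c : ℝ, {g | -B o (ρ g o) ≤ c}.Finite
  cocpt : ∃ c : ℝ, ∀ x ∈ Hyp, ∃ g, -B x (ρ g o) ≤ c

end Pool.Agent.LDJ
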