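import Pool.Agent.LDJ.FBas

/-!
LDJ.FHyp: every element `g ≠ 1` is hyperbolic.

PROOF. Let `L = ρ g`. `det (L - 1) = 0`: with the matrix `A` of `L` and `J = diag(1,1,-1)`:
`Aᵀ J A = J`, so `det(A - 1) = det A · det(1 - A⁻¹) = det(1 - J Aᵀ J) = det(1 - Aᵀ) = det(1 - A)
= - det(A - 1)` (dimension 3, `det A = 1`). So there is `n ≠ 0` with `L n = n`.
(a) `B n n < 0`: then `± n/√(-B n n) ∈ Hyp` is fixed, contradicting `free`.
(b) `B n n = 0`: we may assume `n ∈ Light`. For `t > 0` let `p_t = (o + t n)/√(1 + 2 t β)`,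
`β = -B o n > 0`; `p_t ∈ Hyp` and `-B p_t (L p_t) = (-B o (L o) + 2 t β)/(1 + 2tβ) → 1` as `t → ∞`
(`B n (L o) = B (L⁻¹ n) o = B n o`). By `cocpt` (`c ≥ 1`) choose `h_t` with `-B p_t (ρ h_t o) ≤ c`;
`q_t = ρ h_t⁻¹ p_t` satisfies `-B q_t o ≤ c` and with `f_t = h_t⁻¹ g h_t`:
`-B q_t (ρ f_t q_t) = -B p_t (L p_t) ≤ 2` for large `t`, so `-B o (ρ f_t o) ≤ 2·c·(2·2·c)` (`tri`), so
`f_t` lies in a finite set (`proper`). Along a sequence `t_k → ∞` (e.g. `t = k`) some `f` occurs
infinitely often, and the points `q_t` lie in a compact set (`|coordinates| ≤ c`), so a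
subsequence converges to `q ∈ Hyp` with `-B q (ρ f q) = 1`, so `ρ f q = q` (`eq_of_one`), `f ≠ 1`,
contradicting `free`.
(c) `B n n > 0`: normalise `B n n = 1`. The orthogonal plane of `n` contains exactly two future
light rays (intersect the cone with the plane), spanned by `u, w` with third coordinate 1;
`L` permutes the rays (`light_map`). If it exchanges them: in the basis `u, w, n` its matrix is
`[[0, a, 0],[b, 0, 0],[0,0,1]]` with `a, b > 0`, so `det = -ab < 0`, contradiction. So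
`L u = λ u`, `L w = μ w`, `λ, μ > 0`, `λμ = 1` from `B u w ≠ 0`. If `λ = 1`, `u + w` normalised is a
fixed point in `Hyp`, contradiction. Exchange `u, w` if `λ < 1`. About 300 lines.
-/

namespace Pool.Agent.LDJ

namespace FHX

open Matrix

theorem exists_fix (L : V ≃ₗ[ℝ] V) (h1 : ∀ u v, B (L u) (L v) = B u v)
    (hd : LinearMap.det ((L : V ≃ₗ[ℝ] V) : V →ₗ[ℝ] V) = 1) : ∃ n : V, n ≠ 0 ∧ L n = n := by
  set A := LinearMap.toMatrix' (L : V →ₗ[ℝ] V) with hA
  set J : Matrix (Fin 3) (Fin 3) ℝ := Matrix.diagonal ![1, 1, -1] with hJd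
  have hB : ∀ u v : V, B u v = u ⬝ᵥ (J *ᵥ v) := by
    intro u v
    simp [B, hJd, dotProduct, Fin.sum_univ_three, Matrix.mulVec_diagonal]
    ring
  have hAL : ∀ v, A *ᵥ v = L v := fun v => by
    rw [hA, LinearMap.toMatrix'_mulVec]; rfl
  have hdA : A.det = 1 := by rw [hA, LinearMap.det_toMatrix', hd]
  have hJ : Aᵀ * J * A = J := by
    ext i j
    have h := h1 (Pi.single i 1) (Pi.single j 1)
    rw [hB, hB, ← hAL, ← hAL, ← Matrix.vecMul_transpose, ← Matrix.dotProduct_mulVec,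
      Matrix.mulVec_mulVec, Matrix.mulVec_mulVec, single_dotProduct, single_dotProduct,
      Matrix.mulVec_single_one, Matrix.mulVec_single_one, one_mul, one_mul] at h
    exact h
  have e : Aᵀ * J * (A - 1) = (1 - Aᵀ) * J := by
    rw [mul_sub, hJ, mul_one, sub_mul, one_mul]
  have e2 := congrArg Matrix.det e
  have hdJ : J.det = -1 := by
    simp [hJd, Matrix.det_diagonal, Fin.prod_univ_three]
  have e3 : (1 - Aᵀ).det = -(A - 1).det := by
    have : (1 - Aᵀ) = (-(A - 1))ᵀ := by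
      rw [neg_sub, Matrix.transpose_sub, Matrix.transpose_one]
    rw [this, Matrix.det_transpose, Matrix.det_neg]
    simp
    ring
  rw [Matrix.det_mul, Matrix.det_mul, Matrix.det_mul, Matrix.det_transpose, hdA, hdJ, e3] at e2
  have e4 : (A - 1).det = 0 := by linarith
  obtain ⟨v, hv, hv'⟩ := Matrix.exists_mulVec_eq_zero_iff.2 e4
  refine ⟨v, hv, ?_⟩
  rw [Matrix.sub_mulVec, Matrix.one_mulVec, sub_eq_zero] at hv'
  rw [← hAL, hv']

/-- no fixed vector is timelike -/
theorem timelike {Γ : Type} [Group Γ] (F : Fuchs Γ) {g : Γ} (hg : g ≠ 1) {n : V}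
    (hn : F.ρ g n = n) (hB : B n n < 0) : False := by
  have key : ∀ m : V, F.ρ g m = m → B m m < 0 → 0 < m 2 → False := by
    intro m hm hBm hm2
    set r := Real.sqrt (-B m m) with hr
    have hr0 : 0 < r := Real.sqrt_pos.2 (by linarith)
    have hr2 : r ^ 2 = -B m m := Real.sq_sqrt (by linarith)
    refine F.free g hg (r⁻¹ • m) ⟨?_, ?_⟩ ?_
    · rw [B_smul_left, B_smul_right]
      field_simp
      linarith
    · simp only [Pi.smul_apply, smul_eq_mul]
      positivity
    · rw [map_smul, hm]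
  rcases lt_trichotomy (n 2) 0 with h | h | h
  · refine key (-n) (by rw [map_neg, hn]) ?_ (by simpa using h)
    have : B (-n) (-n) = B n n := by simp [B]
    rwa [this]
  · have : B n n = n 0 * n 0 + n 1 * n 1 := by simp [B, h]
    nlinarith [mul_self_nonneg (n 0), mul_self_nonneg (n 1)]
  · exact key n hn hB h

theorem cont_B : Continuous fun p : V × V => B p.1 p.2 := by
  unfold B
  fun_prop

/-- the compact pieces of the hyperbolic plane -/
def KK (c : ℝ) : Set V := {x | B x x = -1 ∧ 1 ≤ x 2 ∧ x 2 ≤ c}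

theorem kk_compact (c : ℝ) : IsCompact (KK c) := by
  refine Metric.isCompact_of_isClosed_isBounded ?_ ?_
  · refine (isClosed_eq ?_ continuous_const).inter
      ((isClosed_le continuous_const (continuous_apply 2)).inter
        (isClosed_le (continuous_apply 2) continuous_const))
    exact cont_B.comp (continuous_id.prodMk continuous_id)
  · refine (Metric.isBounded_closedBall (x := (0 : V)) (r := c)).subset ?_
    intro x hx
    obtain ⟨h1, h2, h3⟩ := hx
    have h4 : x 0 * x 0 + x 1 * x 1 - x 2 * x 2 = -1 := h1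
    rw [mem_closedBall_zero_iff, pi_norm_le_iff_of_nonneg (by linarith)]
    intro i
    rw [Real.norm_eq_abs]
    fin_cases i
    · show |x 0| ≤ c
      have h5 : |x 0| ≤ x 2 :=
        abs_le_of_sq_le_sq (by nlinarith [mul_self_nonneg (x 1)]) (by linarith)
      exact h5.trans h3
    · show |x 1| ≤ c
      have h5 : |x 1| ≤ x 2 :=
        abs_le_of_sq_le_sq (by nlinarith [mul_self_nonneg (x 0)]) (by linarith)
      exact h5.trans h3
    · show |x 2| ≤ c
      rw [abs_of_nonneg (by linarith)]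
      exact h3

theorem kk_hyp {c : ℝ} {x : V} (hx : x ∈ KK c) : x ∈ Hyp := ⟨hx.1, by linarith [hx.2.1]⟩

theorem B_o (x : V) : -B x o = x 2 := by
  simp [B, o]

theorem mem_kk {c : ℝ} {x : V} (hx : x ∈ Hyp) (h : -B x o ≤ c) : x ∈ KK c := by
  have h1 := one_le hx o_mem
  rw [B_o] at h h1
  exact ⟨hx.1, h1, h⟩

/-- displacement is bounded below on compact sets -/
theorem disp {Γ : Type} [Group Γ] (F : Fuchs Γ) (c : ℝ) {f : Γ} (hf : f ≠ 1) :
    ∃ ε : ℝ, 0 < ε ∧ ∀ q ∈ KK c, 1 + ε ≤ -B q (F.ρ f q) := by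
  rcases (KK c).eq_empty_or_nonempty with h | h
  · exact ⟨1, one_pos, by simp [h]⟩
  · have hcont : Continuous fun q : V => -B q (F.ρ f q) := by
      have h1 : Continuous (F.ρ f : V → V) :=
        LinearMap.continuous_of_finiteDimensional ((F.ρ f : V ≃ₗ[ℝ] V) : V →ₗ[ℝ] V)
      exact (cont_B.comp (continuous_id.prodMk h1)).neg
    obtain ⟨q0, hq0, hmin⟩ := (kk_compact c).exists_isMinOn h hcont.continuousOn
    have h2 : 1 < -B q0 (F.ρ f q0) := by
      refine lt_of_le_of_ne (one_le (kk_hyp hq0) (F.fut f _ (kk_hyp hq0))) ?_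
      intro h3
      exact F.free f hf q0 (kk_hyp hq0)
        (eq_of_one (kk_hyp hq0) (F.fut f _ (kk_hyp hq0)) h3.symm).symm
    refine ⟨-B q0 (F.ρ f q0) - 1, by linarith, fun q hq => ?_⟩
    have := hmin hq
    have h3 : -B q0 (F.ρ f q0) ≤ -B q (F.ρ f q) := this
    linarith

theorem disp_all {Γ : Type} [Group Γ] (F : Fuchs Γ) (c d : ℝ) :
    ∃ ε : ℝ, 0 < ε ∧ ε ≤ 1 ∧ ∀ f, -B o (F.ρ f o) ≤ d → f ≠ 1 → ∀ q ∈ KK c,
      1 + ε ≤ -B q (F.ρ f q) := by
  have h1 : ∀ f ∈ {f | -B o (F.ρ f o) ≤ d}, ∀ᶠ ε in nhdsWithin (0 : ℝ) (Set.Ioi 0),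
      f ≠ 1 → ∀ q ∈ KK c, 1 + ε ≤ -B q (F.ρ f q) := by
    intro f _
    by_cases hf : f = 1
    · exact Filter.Eventually.of_forall fun ε h => absurd hf h
    · obtain ⟨ε, hε, h⟩ := disp F c hf
      filter_upwards [Ioo_mem_nhdsGT hε] with δ hδ _ q hq
      linarith [h q hq, hδ.2]
  rw [← Filter.eventually_all_finite (F.proper d)] at h1
  have h2 : ∀ᶠ ε in nhdsWithin (0 : ℝ) (Set.Ioi 0), ε ∈ Set.Ioo (0 : ℝ) 1 :=
    Ioo_mem_nhdsGT one_pos
  obtain ⟨ε, h3, h4⟩ := (h1.and h2).exists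
  exact ⟨ε, h4.1, h4.2.le, fun f hf => h3 f hf⟩

/-- no fixed vector is light -/
theorem lightlike {Γ : Type} [Group Γ] (F : Fuchs Γ) {g : Γ} (hg : g ≠ 1) {n : V}
    (hn : F.ρ g n = n) (hL : n ∈ Light) : False := by
  obtain ⟨c, hc⟩ := F.cocpt
  have hc1 : 1 ≤ c := by
    obtain ⟨h, hh⟩ := hc o o_mem
    exact (one_le o_mem (F.fut h _ o_mem)).trans hh
  obtain ⟨ε, hε0, hε1, hε⟩ := disp_all F c (8 * c ^ 2)
  set β := n 2 with hβ
  have hβ0 : 0 < β := hL.2
  set κ := -B o (F.ρ g o) with hκ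
  have hκ1 : 1 ≤ κ := one_le o_mem (F.fut g _ o_mem)
  have hon : B o n = -β := by
    have := B_o n
    rw [B_comm] at this
    linarith
  have hno : B n o = -β := by rw [B_comm, hon]
  set t := κ / (2 * β * ε) with ht
  have ht0 : 0 < t := by positivity
  have htβ : 2 * t * β = κ / ε := by
    rw [ht]
    field_simp
  set D := 1 + 2 * t * β with hD
  have hD0 : 0 < D := by positivity
  set r := Real.sqrt D with hr
  have hr0 : 0 < r := Real.sqrt_pos.2 hD0
  have hr2 : r ^ 2 = D := Real.sq_sqrt hD0.le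
  set p : V := r⁻¹ • (o + t • n) with hp
  have hBoo : B o o = -1 := o_mem.1
  have hBnn : B n n = 0 := hL.1
  have hnLo : B n (F.ρ g o) = -β := by
    have := F.pres g n o
    rw [hn] at this
    rw [this, hno]
  have hp1 : B p p = -1 := by
    rw [hp, B_smul_left, B_smul_right, B_add_left, B_add_right, B_add_right, B_smul_left,
      B_smul_left, B_smul_right, B_smul_right, hBoo, hBnn, hon, hno]
    have : -1 + t * -β + (t * -β + t * (t * 0)) = -r ^ 2 := by rw [hr2, hD]; ring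
    rw [this]
    field_simp
  have hpH : p ∈ Hyp := by
    refine ⟨hp1, ?_⟩
    have h1 : p 2 = r⁻¹ * (1 + t * β) := by
      rw [hp]
      show r⁻¹ * (o 2 + t * n 2) = _
      simp [o, hβ]
    rw [h1]
    positivity
  have hLp : F.ρ g p = r⁻¹ • (F.ρ g o + t • n) := by
    rw [hp, map_smul, map_add, map_smul, hn]
  have hpL : -B p (F.ρ g p) < 1 + ε := by
    have h1 : -B p (F.ρ g p) = (κ + 2 * t * β) / D := by
      rw [hLp]
      nth_rewrite 1 [hp]
      rw [B_smul_left, B_smul_right, B_add_left, B_add_right, B_add_right, B_smul_left,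
        B_smul_left, B_smul_right, B_smul_right, hBnn, hon, hnLo]
      have h2 : B o (F.ρ g o) = -κ := by rw [hκ]; ring
      rw [h2, ← hr2]
      field_simp
      ring
    rw [h1, div_lt_iff₀ hD0, hD, htβ]
    have : ε * (κ / ε) = κ := by field_simp
    nlinarith
  obtain ⟨h, hh⟩ := hc p hpH
  set q := F.ρ h⁻¹ p with hq
  have hqH : q ∈ Hyp := F.fut _ _ hpH
  have hinv : ∀ v, F.ρ h⁻¹ (F.ρ h v) = v := by
    intro v
    have : (F.ρ h⁻¹ * F.ρ h) v = v := by rw [← map_mul, inv_mul_cancel, map_one]; rfl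
    exact this
  have hinv' : ∀ v, F.ρ h (F.ρ h⁻¹ v) = v := by
    intro v
    have : (F.ρ h * F.ρ h⁻¹) v = v := by rw [← map_mul, mul_inv_cancel, map_one]; rfl
    exact this
  have hqo : -B q o ≤ c := by
    have h1 : B q o = B p (F.ρ h o) := by
      rw [hq, ← F.pres h, hinv']
    rw [h1]
    exact hh
  set f := h⁻¹ * g * h with hf
  have hf1 : f ≠ 1 := by
    intro h1
    apply hg
    have : g = h * f * h⁻¹ := by rw [hf]; group
    rw [this, h1]
    group
  have hfq : F.ρ f q = F.ρ h⁻¹ (F.ρ g p) := by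
    rw [hf, map_mul, map_mul]
    show F.ρ h⁻¹ (F.ρ g (F.ρ h q)) = _
    rw [hq, hinv']
  have hBq : B q (F.ρ f q) = B p (F.ρ g p) := by
    rw [hfq, hq, F.pres]
  have hfqH : F.ρ f q ∈ Hyp := F.fut _ _ hqH
  have hfoH : F.ρ f o ∈ Hyp := F.fut _ _ o_mem
  have hfo : -B o (F.ρ f o) ≤ 8 * c ^ 2 := by
    have t1 := tri o_mem hqH hfoH
    have t2 := tri hqH hfqH hfoH
    have t3 : B (F.ρ f q) (F.ρ f o) = B q o := F.pres f q o
    rw [t3, hBq] at t2
    have t4 : -B o q ≤ c := by rw [B_comm]; exact hqo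
    have t5 : 0 ≤ -B o q := by linarith [one_le o_mem hqH]
    have t6 : 0 ≤ -B q o := by linarith [one_le hqH o_mem]
    have t7 : -B p (F.ρ g p) ≤ 2 := by linarith
    have t8 : 0 ≤ -B p (F.ρ g p) := by linarith [one_le hpH (F.fut g _ hpH)]
    have t9 : -B q (F.ρ f o) ≤ 4 * c := by
      calc -B q (F.ρ f o) ≤ 2 * (-B p (F.ρ g p)) * (-B q o) := t2
        _ ≤ 2 * 2 * c := by gcongr
        _ = 4 * c := by ring
    have t10 : 0 ≤ -B q (F.ρ f o) := by linarith [one_le hqH hfoH]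
    calc -B o (F.ρ f o) ≤ 2 * (-B o q) * (-B q (F.ρ f o)) := t1
      _ ≤ 2 * c * (4 * c) := by gcongr
      _ = 8 * c ^ 2 := by ring
  have := hε f hfo hf1 q (mem_kk hqH hqo)
  rw [hBq] at this
  linarith

/-- the two light vectors orthogonal to `n` -/
noncomputable def uu (n : V) : V :=
  ![(n 2 * n 0 - n 1) / (1 + n 2 ^ 2), (n 2 * n 1 + n 0) / (1 + n 2 ^ 2), 1]

/-- the other one -/
noncomputable def ww (n : V) : V :=
  ![(n 2 * n 0 + n 1) / (1 + n 2 ^ 2), (n 2 * n 1 - n 0) / (1 + n 2 ^ 2), 1]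

theorem hnn {n : V} (h : B n n = 1) : n 0 ^ 2 + n 1 ^ 2 = 1 + n 2 ^ 2 := by
  have : n 0 * n 0 + n 1 * n 1 - n 2 * n 2 = 1 := h
  linarith [this]

theorem uu_uu {n : V} (h : B n n = 1) : B (uu n) (uu n) = 0 := by
  have h1 := hnn h
  have h2 : (1 + n 2 ^ 2) ≠ 0 := by positivity
  simp only [B, uu, Matrix.cons_val_zero, Matrix.cons_val_one, Matrix.cons_val]
  field_simp
  linear_combination (1 + n 2 ^ 2) * h1

theorem ww_ww {n : V} (h : B n n = 1) : B (ww n) (ww n) = 0 := by
  have h1 := hnn h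
  have h2 : (1 + n 2 ^ 2) ≠ 0 := by positivity
  simp only [B, ww, Matrix.cons_val_zero, Matrix.cons_val_one, Matrix.cons_val]
  field_simp
  linear_combination (1 + n 2 ^ 2) * h1

theorem uu_ww {n : V} (h : B n n = 1) : B (uu n) (ww n) = -2 / (1 + n 2 ^ 2) := by
  have h1 := hnn h
  have h2 : (1 + n 2 ^ 2) ≠ 0 := by positivity
  simp only [B, uu, ww, Matrix.cons_val_zero, Matrix.cons_val_one, Matrix.cons_val]
  field_simp
  linear_combination (n 2 ^ 2 - 1) * h1

theorem uu_n {n : V} (h : B n n = 1) : B (uu n) n = 0 := by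
  have h1 := hnn h
  have h2 : (1 + n 2 ^ 2) ≠ 0 := by positivity
  simp only [B, uu, Matrix.cons_val_zero, Matrix.cons_val_one, Matrix.cons_val]
  field_simp
  linear_combination n 2 * h1

theorem ww_n {n : V} (h : B n n = 1) : B (ww n) n = 0 := by
  have h1 := hnn h
  have h2 : (1 + n 2 ^ 2) ≠ 0 := by positivity
  simp only [B, ww, Matrix.cons_val_zero, Matrix.cons_val_one, Matrix.cons_val]
  field_simp
  linear_combination n 2 * h1

theorem ident {n : V} (h : B n n = 1) (z : V) :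
    B z n * B z n = B z z + (1 + n 2 ^ 2) * (B z (uu n) * B z (ww n)) := by
  have h1 := hnn h
  have h2 : (1 + n 2 ^ 2) ≠ 0 := by positivity
  simp only [B, uu, ww, Matrix.cons_val_zero, Matrix.cons_val_one, Matrix.cons_val]
  field_simp
  linear_combination (z 0 ^ 2 + z 1 ^ 2) * h1

theorem det_uwn {n : V} (h : B n n = 1) : det3 (uu n) (ww n) n ≠ 0 := by
  have h1 := hnn h
  have h2 : (1 + n 2 ^ 2) ≠ 0 := by positivity
  have h3 : det3 (uu n) (ww n) n = 2 / (1 + n 2 ^ 2) := by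
    simp only [det3, uu, ww, Matrix.cons_val_zero, Matrix.cons_val_one, Matrix.cons_val]
    field_simp
    linear_combination 2 * h1
  rw [h3]
  positivity

theorem det3_map (L : V ≃ₗ[ℝ] V) (hd : LinearMap.det ((L : V ≃ₗ[ℝ] V) : V →ₗ[ℝ] V) = 1)
    (a b c : V) : det3 (L a) (L b) (L c) = det3 a b c := by
  have h1 : ∀ a b c : V, det3 a b c = (Pi.basisFun ℝ (Fin 3)).det ![a, b, c] := by
    intro a b c
    rw [Pi.basisFun_det_apply, Matrix.det_fin_three]
    simp [det3]
    ring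
  rw [h1, h1]
  have h2 : (![L a, L b, L c] : Fin 3 → V) = (L : V →ₗ[ℝ] V) ∘ ![a, b, c] := by
    ext i j
    fin_cases i <;> rfl
  rw [h2, Module.Basis.det_comp, hd, one_mul]

end FHX

open FHX in
theorem Fuchs.exists_data {Γ : Type} [Group Γ] (F : Fuchs Γ) {g : Γ} (hg : g ≠ 1) :
    ∃ (lam : ℝ) (u w : Cir) (n : V), Data (F.ρ g) lam u w n := by
  have hd := F.det_one g
  have hpr := F.pres g
  obtain ⟨m, hm0, hm⟩ := exists_fix (F.ρ g) hpr hd
  have hpos : 0 < B m m := by
    rcases lt_trichotomy (B m m) 0 with h | h | h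
    · exact (timelike F hg hm h).elim
    · exfalso
      have h' : m 0 * m 0 + m 1 * m 1 - m 2 * m 2 = 0 := h
      rcases lt_trichotomy (m 2) 0 with h2 | h2 | h2
      · refine lightlike F hg (n := -m) (by rw [map_neg, hm]) ⟨?_, by simpa using h2⟩
        have : B (-m) (-m) = B m m := by simp [B]
        rw [this, h]
      · apply hm0
        rw [h2] at h'
        have h0 : m 0 = 0 := by nlinarith [mul_self_nonneg (m 0), mul_self_nonneg (m 1)]
        have h1 : m 1 = 0 := by nlinarith [mul_self_nonneg (m 0), mul_self_nonneg (m 1)]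
        ext i
        fin_cases i
        · exact h0
        · exact h1
        · exact h2
      · exact lightlike F hg hm ⟨h, h2⟩
    · exact h
  set r := Real.sqrt (B m m) with hr
  have hr0 : 0 < r := Real.sqrt_pos.2 hpos
  have hr2 : r ^ 2 = B m m := Real.sq_sqrt hpos.le
  obtain ⟨n, hn⟩ : ∃ n, n = r⁻¹ • m := ⟨_, rfl⟩
  have hnn : B n n = 1 := by
    rw [hn, B_smul_left, B_smul_right, ← hr2]
    field_simp
  have hLn : F.ρ g n = n := by rw [hn, map_smul, hm]
  set L := F.ρ g with hLdef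
  have huL : uu n ∈ Light := ⟨uu_uu hnn, by simp [uu]⟩
  have hwL : ww n ∈ Light := ⟨ww_ww hnn, by simp [ww]⟩
  have huw := uu_ww hnn
  have hq : 0 < 1 + n 2 ^ 2 := by positivity
  have huw0 : B (uu n) (ww n) < 0 := by
    rw [huw]
    exact div_neg_of_neg_of_pos (by norm_num) hq
  have hray : ∀ z ∈ Light, B z n = 0 → (∃ t : ℝ, 0 < t ∧ z = t • uu n) ∨
      ∃ t : ℝ, 0 < t ∧ z = t • ww n := by
    intro z hz hzn
    have h := ident hnn z
    rw [hzn, hz.1, mul_zero, zero_add] at h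
    rcases mul_eq_zero.1 h.symm with h | h
    · exact absurd h hq.ne'
    · rcases mul_eq_zero.1 h with h | h
      · left
        exact (light_light huL hz).2 (by rw [B_comm]; exact h)
      · right
        exact (light_light hwL hz).2 (by rw [B_comm]; exact h)
  have hLu := hray _ (light_map hpr (F.fut g) huL) (by
    have h := hpr (uu n) n
    rw [hLn] at h
    rw [h, uu_n hnn])
  have hLw := hray _ (light_map hpr (F.fut g) hwL) (by
    have h := hpr (ww n) n
    rw [hLn] at h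
    rw [h, ww_n hnn])
  have hne : uu n ≠ ww n := by
    intro h
    rw [← h, uu_uu hnn] at huw0
    exact lt_irrefl _ huw0
  have hu2 : uu n 2 = 1 := by simp [uu]
  have hw2 : ww n 2 = 1 := by simp [ww]
  have hab : ∃ a b : ℝ, 0 < a ∧ 0 < b ∧ L (uu n) = a • uu n ∧ L (ww n) = b • ww n := by
    rcases hLu with ⟨a, ha, hLu⟩ | ⟨a, ha, hLu⟩
    · rcases hLw with ⟨b, hb, hLw⟩ | ⟨b, hb, hLw⟩
      · exfalso
        have h1 : L (b • uu n) = L (a • ww n) := by
          rw [map_smul, map_smul, hLu, hLw, smul_comm]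
        have h2 := L.injective h1
        have h3 := congrFun h2 2
        simp only [Pi.smul_apply, hu2, hw2, smul_eq_mul, mul_one] at h3
        rw [h3] at h2
        exact hne (smul_right_injective _ ha.ne' h2)
      · exact ⟨a, b, ha, hb, hLu, hLw⟩
    · exfalso
      rcases hLw with ⟨b, hb, hLw⟩ | ⟨b, hb, hLw⟩
      · have h1 := det3_map L hd (uu n) (ww n) n
        rw [hLu, hLw, hLn] at h1
        have h2 : det3 (a • ww n) (b • uu n) n = -(a * b) * det3 (uu n) (ww n) n := by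
          simp only [det3, Pi.smul_apply, smul_eq_mul]
          ring
        rw [h2] at h1
        have h3 : (-(a * b) - 1) * det3 (uu n) (ww n) n = 0 := by linarith
        rcases mul_eq_zero.1 h3 with h4 | h4
        · have : 0 < a * b := mul_pos ha hb
          linarith
        · exact det_uwn hnn h4
      · have h1 : L (b • uu n) = L (a • ww n) := by
          rw [map_smul, map_smul, hLu, hLw, smul_comm]
        have h2 := L.injective h1
        have h3 := congrFun h2 2
        simp only [Pi.smul_apply, hu2, hw2, smul_eq_mul, mul_one] at h3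
        rw [h3] at h2
        exact hne (smul_right_injective _ ha.ne' h2)
  obtain ⟨a, b, ha, hb, hLu, hLw⟩ := hab
  have hab1 : a * b = 1 := by
    have h := hpr (uu n) (ww n)
    rw [hLu, hLw, B_smul_left, B_smul_right] at h
    have h2 : (a * b - 1) * B (uu n) (ww n) = 0 := by linarith
    rcases mul_eq_zero.1 h2 with h3 | h3
    · linarith
    · exact absurd h3 huw0.ne
  have hainv : a⁻¹ = b := inv_eq_of_mul_eq_one_right hab1
  have hbinv : b⁻¹ = a := by rw [← hainv, inv_inv]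
  rcases lt_trichotomy a 1 with h | h | h
  · have hb1 : 1 < b := by nlinarith
    exact ⟨b, ⟨ww n, ww_ww hnn, hw2⟩, ⟨uu n, uu_uu hnn, hu2⟩, n,
      ⟨hb1, hnn, ww_n hnn, uu_n hnn, hLw, by rw [hbinv]; exact hLu, hLn⟩⟩
  · exfalso
    have hb1 : b = 1 := by rw [h] at hab1; linarith
    refine timelike F hg (n := uu n + ww n) ?_ ?_
    · rw [map_add]
      show L (uu n) + L (ww n) = _
      rw [hLu, hLw, h, hb1, one_smul, one_smul]
    · rw [B_add_left, B_add_right, B_add_right, uu_uu hnn, ww_ww hnn, B_comm (ww n)]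
      linarith
  · exact ⟨a, ⟨uu n, uu_uu hnn, hu2⟩, ⟨ww n, ww_ww hnn, hw2⟩, n,
      ⟨h, hnn, uu_n hnn, ww_n hnn, hLu, by rw [hainv]; exact hLw, hLn⟩⟩

end Pool.Agent.LDJ
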