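import Pool.Agent.LDJ.SN1

/-!
LDJ.SSplit1: consequences of a splitting (ping-pong).

Let `Q.Split y A B σ`, `Z = zpowers y`. Write `L = Q.att y`, `L' = Q.att y⁻¹`; neither is on a side
(`s_rep`), and no point is on both sides.
`swap`: `Q.Split y B A (-σ)`. `inv`: the same for `y⁻¹` is NOT claimed.
NORMAL FORM. `Alt true g`: `g` is an alternating product starting with an element of `A \ Z`;
`Alt false g`: starting with an element of `B \ Z`. `nf`: every `g` is in `Z`, or `Alt true g`, or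
`Alt false g`. (The set of these `g` is closed under left multiplication by elements of `A` and of
`B`: e.g. `a ∈ A`, `g = a1 g'` with `Alt false g'` or `g = a1`: `a a1 ∈ A`; if `a a1 ∈ Z ⊆ B`, then
`(a a1) g'` is again of type `false` (absorb into the first factor `b1` of `g'`: `z b1 ∉ Z`).
Use `gen` and `Subgroup.closure_induction` or `Subgroup.sup_eq_closure_mul`.)
PING-PONG. `alt_side`: if `Alt true g` then `att (g y g⁻¹)` and `att (g y⁻¹ g⁻¹)` are on side `σ`;
if `Alt false g` they are on side `-σ`. Prove more: for every `x ≠ 1` such that `att x` is on no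
side (or: `att x` is in the complement of the side of the last factor).
`inter`: `A ⊓ B = Z` (for `a ∈ A ∩ B \ Z`, `att (a y a⁻¹)` would be on both sides).
`simple`: `Q.Simple y`. `nolink`: for `g ∈ Z` `g y g⁻¹ = y` and `link y y` is false (`sep_ne`);
otherwise both ends of `g y g⁻¹` are on the same side, so no link by `link_iff`.
`cent`: if `g y = y g` and `g ∉ Z`, then `att (g y g⁻¹) = att y` is on a side, contradiction.
ADJACENCY. `adj`: `a ∈ A \ Z`: no `g y g⁻¹` separates `y` and `a y a⁻¹`: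
`g ∈ Z`: `betw y y _` is false (`sep_ne`). `Alt false g`: both ends of `g y g⁻¹` are on side `-σ`,
`y` (on no side) and `a y a⁻¹` (side `σ`): the ends of `g y g⁻¹` are not separated by .. use
coordinates of `y`: `sep (g+) (g-) L (a+)` with `s`-values: `L` is the point at infinity, so
`(s (a+) - s (g+)) (s (a+) - s (g-)) < 0` is impossible when `σ s (a+) > 0 > σ s (g±)`.
`g = a1 ∈ A \ Z`: conjugating by `a1⁻¹` (`sep_act`): `y` would separate `a1⁻¹ y a1` and
`(a1⁻¹ a) y (a1⁻¹ a)⁻¹`, both on side `σ` or equal to `y`: impossible.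
`g = a1 g'` with `Alt false g'`: conjugate by `a1⁻¹`: `g' y g'⁻¹` (side `-σ`) would separate
`a1⁻¹ y a1` (side `σ`) and `(a1⁻¹ a) y (a1⁻¹ a)⁻¹` (side `σ`, or equal to `y` if `a1⁻¹ a ∈ Z`):
impossible by coordinates as before.
`adj'`: if `att (g y g⁻¹)` is on side `σ` and no `h y h⁻¹` is between `y` and `g y g⁻¹`, then
`g ∈ A`: `g ∈ Z ⊆ A` or `Alt true g` (`alt_side`); if `g = a1` fine; if `g = a1 g'`,
`Alt false g'`: then `a1 y a1⁻¹` is between: conjugating by `a1⁻¹`, `y` separates `a1⁻¹ y a1`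
(side `σ`) and `g' y g'⁻¹` (side `-σ`). About 300 lines.
-/

namespace Pool.Agent.LDJ

namespace Circ

variable {Γ : Type} [Group Γ] (Q : Circ Γ)

/-- alternating products; `true`: first factor in `A`, `false`: first factor in `B` -/
inductive Alt (A B Z : Subgroup Γ) : Bool → Γ → Prop
  | one (b : Bool) (a : Γ) (ha : a ∈ (if b then A else B)) (hz : a ∉ Z) : Alt A B Z b a
  | cons (b : Bool) (a g : Γ) (ha : a ∈ (if b then A else B)) (hz : a ∉ Z)
      (hg : Alt A B Z (!b) g) : Alt A B Z b (a * g)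

variable {Q}

namespace SS1

/-- the side attached to a boolean -/
def sg (σ : ℝ) (b : Bool) : ℝ := if b then σ else -σ

theorem side_not {y : Γ} {τ : ℝ} {w : Q.C} (h : Q.side y τ w) : ¬ Q.side y (-τ) w := by
  intro h'
  have h1 := h.2
  have h2 := h'.2
  nlinarith

theorem side_not' {y : Γ} {τ : ℝ} {w : Q.C} (h : Q.side y (-τ) w) : ¬ Q.side y τ w := by
  intro h'
  have h1 := h.2
  have h2 := h'.2
  nlinarith

theorem conj_ne {x : Γ} (g : Γ) (hx : x ≠ 1) : g * x * g⁻¹ ≠ 1 := by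
  intro h
  apply hx
  have : g * x = g := by
    calc g * x = g * x * g⁻¹ * g := by group
      _ = g := by rw [h, one_mul]
  simpa using this

theorem zp_conj {y g : Γ} (hg : g ∈ Subgroup.zpowers y) : g * y * g⁻¹ = y := by
  obtain ⟨n, rfl⟩ := Subgroup.mem_zpowers_iff.mp hg
  have : y ^ n * y = y * y ^ n := by
    rw [← zpow_add_one, ← zpow_one_add, add_comm]
  rw [this]
  group

theorem inv_conj (g x : Γ) : (g * x * g⁻¹)⁻¹ = g * x⁻¹ * g⁻¹ := by
  group

theorem zle {y : Γ} {A : Subgroup Γ} (h : y ∈ A) {z : Γ} (hz : z ∈ Subgroup.zpowers y) : z ∈ A :=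
  (Subgroup.zpowers_le.mpr h) hz

theorem memK {y : Γ} {A B : Subgroup Γ} {σ : ℝ} (h : Q.Split y A B σ) {z : Γ}
    (hz : z ∈ Subgroup.zpowers y) (b : Bool) : z ∈ (if b then A else B) := by
  cases b
  · exact zle h.memB hz
  · exact zle h.memA hz

theorem mul_not {y z a : Γ} (hz : z ∈ Subgroup.zpowers y) (ha : a ∉ Subgroup.zpowers y) :
    z * a ∉ Subgroup.zpowers y := by
  intro hh
  exact ha ((Subgroup.mul_mem_cancel_left _ hz).mp hh)

theorem mul_not' {y z a : Γ} (hz : z ∈ Subgroup.zpowers y) (ha : a ∉ Subgroup.zpowers y) :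
    a * z ∉ Subgroup.zpowers y := by
  intro hh
  exact ha ((Subgroup.mul_mem_cancel_right _ hz).mp hh)

theorem zmul {y : Γ} {A B : Subgroup Γ} {σ : ℝ} (h : Q.Split y A B σ) {z : Γ}
    (hz : z ∈ Subgroup.zpowers y) {b : Bool} {g : Γ} (hg : Alt A B (Subgroup.zpowers y) b g) :
    Alt A B (Subgroup.zpowers y) b (z * g) := by
  cases hg with
  | one b a ha hza => exact Alt.one b _ (mul_mem (memK h hz b) ha) (mul_not hz hza)
  | cons b a g ha hza hg =>
    rw [← mul_assoc]
    exact Alt.cons b _ g (mul_mem (memK h hz b) ha) (mul_not hz hza) hg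

/-- the normal form property -/
def NF (y : Γ) (A B : Subgroup Γ) (g : Γ) : Prop :=
  g ∈ Subgroup.zpowers y ∨ ∃ b, Alt A B (Subgroup.zpowers y) b g

theorem nf_mul {y : Γ} {A B : Subgroup Γ} {σ : ℝ} (h : Q.Split y A B σ) (b : Bool) {a : Γ}
    (ha : a ∈ (if b then A else B)) {g : Γ} (hg : NF y A B g) : NF y A B (a * g) := by
  by_cases hz : a ∈ Subgroup.zpowers y
  · rcases hg with hg | ⟨c, hg⟩
    · exact Or.inl (mul_mem hz hg)
    · exact Or.inr ⟨c, zmul h hz hg⟩
  · rcases hg with hg | ⟨c, hg⟩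
    · exact Or.inr ⟨b, Alt.one b _ (mul_mem ha (memK h hg b)) (mul_not' hg hz)⟩
    · by_cases hc : c = !b
      · subst hc
        exact Or.inr ⟨b, Alt.cons b a g ha hz hg⟩
      · have hc' : c = b := by
          cases b <;> cases c <;> simp_all
        subst hc'
        cases hg with
        | one _ a1 ha1 hz1 =>
          by_cases h1 : a * g ∈ Subgroup.zpowers y
          · exact Or.inl h1
          · exact Or.inr ⟨c, Alt.one c _ (mul_mem ha ha1) h1⟩
        | cons _ a1 g' ha1 hz1 hg' =>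
          rw [← mul_assoc]
          by_cases h1 : a * a1 ∈ Subgroup.zpowers y
          · exact Or.inr ⟨!c, zmul h h1 hg'⟩
          · exact Or.inr ⟨c, Alt.cons c _ g' (mul_mem ha ha1) h1 hg'⟩

theorem nf_all {y : Γ} {A B : Subgroup Γ} {σ : ℝ} (h : Q.Split y A B σ) (g : Γ) :
    NF y A B g := by
  have hg : g ∈ Subgroup.closure ((A : Set Γ) ∪ (B : Set Γ)) := by
    have : Subgroup.closure ((A : Set Γ) ∪ (B : Set Γ)) = ⊤ := by
      rw [Subgroup.closure_union, Subgroup.closure_eq, Subgroup.closure_eq, h.gen]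
    rw [this]; trivial
  induction hg using Subgroup.closure_induction_left with
  | one => exact Or.inl (one_mem _)
  | mul_left x hx y' _ ih =>
    rcases hx with hx | hx
    · exact nf_mul h true (by simpa using hx) ih
    · exact nf_mul h false (by simpa using hx) ih
  | inv_mul_cancel x hx y' _ ih =>
    rcases hx with hx | hx
    · exact nf_mul h true (by simpa using hx) ih
    · exact nf_mul h false (by simpa using hx) ih

theorem pp {y : Γ} {A B : Subgroup Γ} {σ : ℝ} (h : Q.Split y A B σ) (b : Bool) {a : Γ}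
    (ha : a ∈ (if b then A else B)) (hz : a ∉ Subgroup.zpowers y) {x : Γ} (hx : x ≠ 1)
    (hs : ¬ Q.side y (if b then σ else -σ) (Q.att x)) :
    Q.side y (if b then σ else -σ) (Q.att (a * x * a⁻¹)) := by
  cases b
  · simpa using h.pb a (by simpa using ha) hz x hx (by simpa using hs)
  · simpa using h.pa a (by simpa using ha) hz x hx (by simpa using hs)

theorem alt_gen {y : Γ} {A B : Subgroup Γ} {σ : ℝ} (h : Q.Split y A B σ) {b : Bool}
    {g : Γ} (hg : Alt A B (Subgroup.zpowers y) b g) :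
    ∀ x, x ≠ 1 → (∀ c : Bool, ¬ Q.side y (if c then σ else -σ) (Q.att x)) →
      Q.side y (if b then σ else -σ) (Q.att (g * x * g⁻¹)) := by
  induction hg with
  | one b a ha hz => intro x hx hs; exact pp h b ha hz hx (hs b)
  | cons b a g ha hz hg ih =>
    intro x hx hs
    have h1 := ih x hx hs
    have h2 : ¬ Q.side y (if b then σ else -σ) (Q.att (g * x * g⁻¹)) := by
      cases b
      · simp only [Bool.not_false, if_true, Bool.false_eq_true, if_false] at h1 ⊢
        exact side_not h1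
      · simp only [Bool.not_true, if_true, Bool.false_eq_true, if_false] at h1 ⊢
        exact side_not' h1
    have h3 := pp h b ha hz (conj_ne g hx) h2
    have h4 : a * g * x * (a * g)⁻¹ = a * (g * x * g⁻¹) * a⁻¹ := by group
    rw [h4]
    exact h3

theorem no_side {y : Γ} (hy : y ≠ 1) (τ : ℝ) : ¬ Q.side y τ (Q.att y) := fun h => h.1 rfl

theorem no_side' {y : Γ} (hy : y ≠ 1) (τ : ℝ) : ¬ Q.side y τ (Q.att y⁻¹) := fun h => by
  have := h.2
  rw [Q.s_rep y hy] at this
  simp at this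

/-- the end is at infinity or on the side `τ` -/
def Ok (Q : Circ Γ) (y : Γ) (τ : ℝ) (w : Q.C) : Prop := w = Q.att y ∨ Q.side y τ w

theorem sgn_mul {τ a b : ℝ} (hτ : τ = 1 ∨ τ = -1) (ha : 0 < τ * a) (hb : 0 < τ * b) :
    0 < a * b := by
  rcases hτ with rfl | rfl
  · nlinarith
  · nlinarith

theorem sep_four {a b c d : Q.C} (h : Q.sep a b c d) : Q.sep a b d c :=
  Q.sep_symm _ _ _ _ (Q.sep_swap _ _ _ _ (Q.sep_symm _ _ _ _ h))

theorem not_sep_inf {y : Γ} (hy : y ≠ 1) {τ : ℝ} (hτ : τ = 1 ∨ τ = -1) {a b d : Q.C}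
    (ha : Q.side y (-τ) a) (hb : Q.side y (-τ) b) (hd : Q.side y τ d) :
    ¬ Q.sep a b (Q.att y) d := by
  intro h
  have h1 := Q.sep_symm _ _ _ _ h
  rw [Q.sep_inf y hy d a b hd.1 ha.1 hb.1] at h1
  have e1 : 0 < τ * (Q.s y d - Q.s y a) := by
    have := ha.2; have := hd.2; nlinarith
  have e2 : 0 < τ * (Q.s y d - Q.s y b) := by
    have := hb.2; have := hd.2; nlinarith
  have := sgn_mul hτ e1 e2
  linarith

theorem not_sep {y : Γ} (hy : y ≠ 1) {τ : ℝ} (hτ : τ = 1 ∨ τ = -1) {a b c d : Q.C}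
    (ha : Q.side y (-τ) a) (hb : Q.side y (-τ) b) (hc : Ok Q y τ c) (hd : Ok Q y τ d) :
    ¬ Q.sep a b c d := by
  intro h
  rcases hc with rfl | hc
  · rcases hd with rfl | hd
    · exact (Q.sep_ne _ _ _ _ h).2.2.2.2.2 rfl
    · exact not_sep_inf hy hτ ha hb hd h
  · rcases hd with rfl | hd
    · exact not_sep_inf hy hτ ha hb hc (sep_four h)
    · rw [Q.sep_fin y hy a b c d ha.1 hb.1 hc.1 hd.1] at h
      have ha2 := ha.2
      have hb2 := hb.2
      have hc2 := hc.2
      have hd2 := hd.2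
      have e1 : 0 < (-τ) * (Q.s y a - Q.s y c) := by nlinarith
      have e2 : 0 < (-τ) * (Q.s y b - Q.s y c) := by nlinarith
      have e3 : 0 < (-τ) * (Q.s y a - Q.s y d) := by nlinarith
      have e4 : 0 < (-τ) * (Q.s y b - Q.s y d) := by nlinarith
      have hτ' : -τ = 1 ∨ -τ = -1 := by
        rcases hτ with rfl | rfl
        · right; rfl
        · left; norm_num
      have := mul_pos (sgn_mul hτ' e1 e2) (sgn_mul hτ' e3 e4)
      linarith

theorem att_ne_one {a b c d : Γ} (h : Q.sep (Q.att a) (Q.att a⁻¹) (Q.att c) (Q.att d)) : a ≠ 1 := by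
  rintro rfl
  exact (Q.sep_ne _ _ _ _ h).1 (by rw [inv_one])

theorem betw_conj {m a b : Γ} (hm : m ≠ 1) (ha : a ≠ 1) (hb : b ≠ 1) (k : Γ)
    (h : Q.betw m a b) : Q.betw (k * m * k⁻¹) (k * a * k⁻¹) (k * b * k⁻¹) := by
  have hm' : m⁻¹ ≠ 1 := inv_ne_one.mpr hm
  have ha' : a⁻¹ ≠ 1 := inv_ne_one.mpr ha
  have hb' : b⁻¹ ≠ 1 := inv_ne_one.mpr hb
  obtain ⟨h1, h2, h3, h4⟩ := h
  refine ⟨?_, ?_, ?_, ?_⟩
  all_goals
    simp only [inv_conj, Q.att_conj k m hm, Q.att_conj k m⁻¹ hm', Q.att_conj k a ha,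
      Q.att_conj k a⁻¹ ha', Q.att_conj k b hb, Q.att_conj k b⁻¹ hb']
    apply Q.sep_act
    assumption

/-- `y` separates the two sides -/
theorem sep_y {y : Γ} (hy : y ≠ 1) {τ : ℝ} (hτ : τ = 1 ∨ τ = -1) {c d : Q.C}
    (hc : Q.side y τ c) (hd : Q.side y (-τ) d) : Q.sep (Q.att y) (Q.att y⁻¹) c d := by
  rw [Q.sep_inf y hy _ c d (Q.att_ne y hy) hc.1 hd.1, Q.s_rep y hy]
  have h1 := hc.2
  have h2 := hd.2
  rcases hτ with rfl | rfl
  · nlinarith
  · nlinarith

/-- `y` does not separate points on the same side -/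
theorem not_sep_y {y : Γ} (hy : y ≠ 1) {τ : ℝ} (hτ : τ = 1 ∨ τ = -1) {c d : Q.C}
    (hc : Ok Q y τ c) (hd : Ok Q y τ d) : ¬ Q.sep (Q.att y) (Q.att y⁻¹) c d := by
  intro h
  rcases hc with rfl | hc
  · exact (Q.sep_ne _ _ _ _ h).2.1 rfl
  · rcases hd with rfl | hd
    · exact (Q.sep_ne _ _ _ _ h).2.2.1 rfl
    · rw [Q.sep_inf y hy _ c d (Q.att_ne y hy) hc.1 hd.1, Q.s_rep y hy] at h
      have := sgn_mul hτ hc.2 hd.2
      nlinarith

end SS1

theorem Split.swap {y : Γ} {A B : Subgroup Γ} {σ : ℝ} (h : Q.Split y A B σ) :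
    Q.Split y B A (-σ) where
  sgn := by
    rcases h.sgn with h | h
    · right; rw [h]
    · left; rw [h]; norm_num
  ne := h.ne
  memA := h.memB
  memB := h.memA
  gen := by rw [sup_comm]; exact h.gen
  nA := h.nB
  nB := h.nA
  pa := h.pb
  pb := by rw [neg_neg]; exact h.pa

theorem Split.nf {y : Γ} {A B : Subgroup Γ} {σ : ℝ} (h : Q.Split y A B σ) (g : Γ) :
    g ∈ Subgroup.zpowers y ∨ Alt A B (Subgroup.zpowers y) true g ∨
      Alt A B (Subgroup.zpowers y) false g := by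
  rcases SS1.nf_all h g with h | ⟨b, h⟩
  · exact Or.inl h
  · cases b
    · exact Or.inr (Or.inr h)
    · exact Or.inr (Or.inl h)

theorem Split.alt_side {y : Γ} {A B : Subgroup Γ} {σ : ℝ} (h : Q.Split y A B σ) {b : Bool}
    {g : Γ} (hg : Alt A B (Subgroup.zpowers y) b g) :
    Q.side y (if b then σ else -σ) (Q.att (g * y * g⁻¹)) ∧
    Q.side y (if b then σ else -σ) (Q.att (g * y⁻¹ * g⁻¹)) :=
  ⟨SS1.alt_gen h hg y h.ne (fun _ => SS1.no_side h.ne _),
    SS1.alt_gen h hg y⁻¹ (inv_ne_one.mpr h.ne) (fun _ => SS1.no_side' h.ne _)⟩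

theorem Split.inter {y : Γ} {A B : Subgroup Γ} {σ : ℝ} (h : Q.Split y A B σ) {g : Γ}
    (hA : g ∈ A) (hB : g ∈ B) : g ∈ Subgroup.zpowers y := by
  by_contra hz
  have h1 := (h.alt_side (Alt.one true g hA hz)).1
  have h2 := (h.alt_side (Alt.one false g hB hz)).1
  simp only [if_true, Bool.false_eq_true, if_false] at h1 h2
  exact SS1.side_not h1 h2

namespace SS1

theorem same_side {y : Γ} {A B : Subgroup Γ} {σ : ℝ} (h : Q.Split y A B σ) {g : Γ}
    (hg : g ∉ Subgroup.zpowers y) : ∃ τ : ℝ, (τ = 1 ∨ τ = -1) ∧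
      Q.side y τ (Q.att (g * y * g⁻¹)) ∧ Q.side y τ (Q.att (g * y⁻¹ * g⁻¹)) := by
  rcases h.nf g with h1 | h1 | h1
  · exact absurd h1 hg
  · exact ⟨σ, h.sgn, by simpa using h.alt_side h1⟩
  · exact ⟨-σ, h.swap.sgn, by simpa using h.alt_side h1⟩

end SS1

theorem Split.simple {y : Γ} {A B : Subgroup Γ} {σ : ℝ} (h : Q.Split y A B σ) :
    Q.Simple y where
  ne := h.ne
  nolink := by
    intro g hl
    by_cases hg : g ∈ Subgroup.zpowers y
    · rw [SS1.zp_conj hg] at hl
      exact (Q.sep_ne _ _ _ _ hl).2.1 rfl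
    · obtain ⟨τ, hτ, h1, h2⟩ := SS1.same_side h hg
      unfold link at hl
      rw [SS1.inv_conj] at hl
      exact SS1.not_sep_y h.ne hτ (Or.inr h1) (Or.inr h2) hl
  cent := by
    intro g hg
    by_contra hz
    obtain ⟨τ, hτ, h1, h2⟩ := SS1.same_side h hz
    rw [hg, mul_inv_cancel_right] at h1
    exact h1.1 rfl

theorem Split.adj {y : Γ} {A B : Subgroup Γ} {σ : ℝ} (h : Q.Split y A B σ) {a : Γ}
    (ha : a ∈ A) (g : Γ) : ¬ Q.betw (g * y * g⁻¹) y (a * y * a⁻¹) := by
  have key : ∀ a' ∈ A, SS1.Ok Q y σ (Q.att (a' * y * a'⁻¹)) := by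
    intro a' ha'
    by_cases hz : a' ∈ Subgroup.zpowers y
    · left; rw [SS1.zp_conj hz]
    · right
      simpa using (h.alt_side (Alt.one true a' (by simpa using ha') hz)).1
  have hσ' := h.sgn
  intro hb
  rcases h.nf g with h1 | h1 | h1
  · rw [SS1.zp_conj h1] at hb
    exact (Q.sep_ne _ _ _ _ hb.1).2.1 rfl
  · generalize hbb : true = bb at h1
    cases h1 with
    | one _ _ hg hz =>
      subst hbb
      have hb2 := SS1.betw_conj (SS1.conj_ne g h.ne) h.ne (SS1.conj_ne a h.ne) g⁻¹ hb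
      have e1 : g⁻¹ * (g * y * g⁻¹) * g⁻¹⁻¹ = y := by group
      have e2 : g⁻¹ * (a * y * a⁻¹) * g⁻¹⁻¹ = (g⁻¹ * a) * y * (g⁻¹ * a)⁻¹ := by group
      rw [e1, e2] at hb2
      have hg' : g⁻¹ ∈ A := inv_mem (by simpa using hg)
      exact SS1.not_sep_y h.ne hσ' (key _ hg') (key _ (mul_mem hg' ha)) hb2.1
    | cons _ a1 g' hg hz hg' =>
      subst hbb
      have ha1 : a1⁻¹ ∈ A := inv_mem (by simpa using hg)
      have hb2 := SS1.betw_conj (SS1.conj_ne (a1 * g') h.ne) h.ne (SS1.conj_ne a h.ne) a1⁻¹ hb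
      have e1 : a1⁻¹ * (a1 * g' * y * (a1 * g')⁻¹) * a1⁻¹⁻¹ = g' * y * g'⁻¹ := by group
      have e2 : a1⁻¹ * (a * y * a⁻¹) * a1⁻¹⁻¹ = (a1⁻¹ * a) * y * (a1⁻¹ * a)⁻¹ := by group
      rw [e1, e2] at hb2
      have hs := h.alt_side hg'
      simp only [Bool.not_true, Bool.false_eq_true, if_false] at hs
      have h5 := hb2.1
      rw [SS1.inv_conj] at h5
      exact SS1.not_sep h.ne hσ' hs.1 hs.2 (key _ ha1) (key _ (mul_mem ha1 ha)) h5
  · have hs := h.alt_side h1
    simp only [Bool.false_eq_true, if_false] at hs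
    have h5 := hb.1
    rw [SS1.inv_conj] at h5
    exact SS1.not_sep h.ne hσ' hs.1 hs.2 (Or.inl rfl) (key _ ha) h5

theorem Split.adj' {y : Γ} {A B : Subgroup Γ} {σ : ℝ} (h : Q.Split y A B σ) {g : Γ}
    (hs : Q.side y σ (Q.att (g * y * g⁻¹)))
    (hb : ∀ k : Γ, ¬ Q.betw (k * y * k⁻¹) y (g * y * g⁻¹)) : g ∈ A := by
  rcases h.nf g with h1 | h1 | h1
  · exact SS1.zle h.memA h1
  · generalize hbb : true = bb at h1
    cases h1 with
    | one _ _ hg hz => subst hbb; simpa using hg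
    | cons _ a1 g' hg hz hg' =>
      subst hbb
      exfalso
      have ha1 : a1⁻¹ ∈ A := inv_mem (by simpa using hg)
      have hz1 : a1⁻¹ ∉ Subgroup.zpowers y := fun hh => hz (by simpa using hh)
      have p := h.alt_side (Alt.one true a1⁻¹ (by simpa using ha1) hz1)
      have q := h.alt_side hg'
      simp only [Bool.not_true, Bool.false_eq_true, if_false, if_true] at p q
      have hbt : Q.betw y (a1⁻¹ * y * a1⁻¹⁻¹) (g' * y * g'⁻¹) := by
        refine ⟨?_, ?_, ?_, ?_⟩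
        all_goals
          try rw [SS1.inv_conj a1⁻¹ y]
          try rw [SS1.inv_conj g' y]
        · exact SS1.sep_y h.ne h.sgn p.1 q.1
        · exact SS1.sep_y h.ne h.sgn p.2 q.2
        · exact SS1.sep_y h.ne h.sgn p.2 q.1
        · exact SS1.sep_y h.ne h.sgn p.1 q.2
      have hb2 := SS1.betw_conj h.ne (SS1.conj_ne a1⁻¹ h.ne) (SS1.conj_ne g' h.ne) a1 hbt
      have e1 : a1 * (a1⁻¹ * y * a1⁻¹⁻¹) * a1⁻¹ = y := by group
      have e2 : a1 * (g' * y * g'⁻¹) * a1⁻¹ = (a1 * g') * y * (a1 * g')⁻¹ := by group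
      rw [e1, e2] at hb2
      exact hb a1 hb2
  · exfalso
    have q := (h.alt_side h1).1
    simp only [Bool.false_eq_true, if_false] at q
    exact SS1.side_not hs q

end Circ

end Pool.Agent.LDJ
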