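import Pool.Agent.LDJ.FCirc
import Pool.Agent.LDJ.SSplit1

/-!
LDJ.FNC1: local finiteness of the translates of an axis; conjugates.

PROOFS.
`loc_fin`: let `z = g y g⁻¹`, `n = nor z`, `B p n * B q n ≤ 0`. There is `m ∈ Hyp`, `B m n = 0`,
`-B p m ≤ -B p q = κ`: if `B p n = 0` take `m = p`; otherwise
`m = (|B q n| p + |B p n| q)/N`, and `-B p m = (a + bκ)/N ≤ κ` with `N² = a² + b² + 2abκ`.
`ρ g⁻¹ m` is on the axis of `y` (`nor_conj`), so by `axis_cpt` (`c_y`) there is `l` with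
`-B o (ρ (y^l g⁻¹) m) ≤ c_y`; for `h = y^l g⁻¹`: `-B (ρ h o) o ≤ 2 (-B o m) c_y` and
`-B o m ≤ 2 (-B o p) κ`; so `h` is in a finite set (`proper`), and `z = h⁻¹ y h`.
`not_conj_inv`: suppose `g y g⁻¹ = y⁻¹`. Then `act g (att y) = att y⁻¹` and
`act g (att y⁻¹) = att y`; `g ≠ 1` (`y² ≠ 1`), `g² ≠ 1` (`tf`), `g²` fixes `att y`, so
`att y ∈ {att (g²), att (g²)⁻¹} = {att g, att g⁻¹}` (`fixpt`, `att_pow`), so `act g (att y) = att y`,
contradiction with `att_ne`.
`eq_or_inv`: `z, z'` simple (`Simple`), sharing an end: by `roots` they commute, so each is a power of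
the other, so `z' = z^{±1}`. (if `att z = att z'`: `act z' (att z) = act z' (att z') = att z'`;
the other cases by replacing `z`, `z'` by inverses; `Simple z⁻¹` from `Simple z`).
`simple_conj`, `simple_inv`. `betw_trans`: in the coordinate `s t`: the ends of `y` have one sign,
say negative, those of `z` are `0 < p < q` (up to order). Let `e` be an end of `w`. If `e = att t`:
`sep z+ z- y+ e` gives `sep (att t) y+ z+ z-`, `(y-p)(y-q) < 0`, impossible. So `e ≠ att t`,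
`sep_fin`: `(p-y)(q-y)(p-e)(q-e) < 0`, so `p < e < q`, so `e > 0`: `t` separates `y` and `e`.
About 250 lines.
-/

namespace Pool.Agent.LDJ

namespace Circ

variable {Γ : Type} [Group Γ] {Q : Circ Γ}

theorem simple_conj {y : Γ} (h : Q.Simple y) (g : Γ) : Q.Simple (g * y * g⁻¹) where
  ne := SS1.conj_ne g h.ne
  nolink := by
    intro k hl
    have e : k * (g * y * g⁻¹) * k⁻¹ = g * ((g⁻¹ * k * g) * y * (g⁻¹ * k * g)⁻¹) * g⁻¹ := by group
    rw [e, Q.link_conj g] at hl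
    exact h.nolink _ hl
  cent := by
    intro k hk
    have h1 : (g⁻¹ * k * g) * y = y * (g⁻¹ * k * g) := by
      calc (g⁻¹ * k * g) * y = g⁻¹ * (k * (g * y * g⁻¹)) * g := by group
        _ = g⁻¹ * ((g * y * g⁻¹) * k) * g := by rw [hk]
        _ = y * (g⁻¹ * k * g) := by group
    obtain ⟨n, hn⟩ := Subgroup.mem_zpowers_iff.1 (h.cent _ h1)
    refine Subgroup.mem_zpowers_iff.2 ⟨n, ?_⟩
    rw [conj_zpow, hn]
    group

theorem simple_inv {y : Γ} (h : Q.Simple y) : Q.Simple y⁻¹ where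
  ne := inv_ne_one.2 h.ne
  nolink := by
    intro g hl
    rw [← SS1.inv_conj, Q.link_inv_left, Q.link_inv_right] at hl
    exact h.nolink g hl
  cent := by
    intro g hg
    rw [Subgroup.zpowers_inv]
    refine h.cent g ?_
    calc g * y = y * (y⁻¹ * g) * y := by group
      _ = y * (g * y⁻¹) * y := by rw [hg]
      _ = y * g := by group

theorem not_conj_inv (Q : Circ Γ) {y : Γ} (hy : y ≠ 1) (g : Γ) : g * y * g⁻¹ ≠ y⁻¹ := by
  intro h
  have hy' : y⁻¹ ≠ 1 := inv_ne_one.2 hy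
  have hyy : y ≠ y⁻¹ := by
    intro e
    have := Q.tf y hy 2 (by norm_num)
    rw [pow_two] at this
    nth_rewrite 2 [e] at this
    rw [mul_inv_cancel] at this
    exact this rfl
  have hg : g ≠ 1 := by
    rintro rfl
    apply hyy
    simpa using h
  have h' : g * y⁻¹ * g⁻¹ = y := by
    rw [← SS1.inv_conj, h, inv_inv]
  have a1 : Q.act g (Q.att y) = Q.att y⁻¹ := by
    rw [← Q.att_conj g y hy, h]
  have a2 : Q.act g (Q.att y⁻¹) = Q.att y := by
    rw [← Q.att_conj g y⁻¹ hy', h']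
  have hg2 : g ^ 2 ≠ 1 := Q.tf g hg 2 (by norm_num)
  have hg' : g⁻¹ ≠ 1 := inv_ne_one.2 hg
  have a3 : Q.act (g ^ 2) (Q.att y) = Q.att y := by
    rw [pow_two, Q.act_mul, a1, a2]
  have a4 : Q.act g (Q.att y) = Q.att y := by
    rcases Q.fixpt _ _ hg2 a3 with e | e
    · rw [Q.att_pow g hg 2 (by norm_num)] at e
      rw [e, ← Q.att_conj g g hg]
      congr 1
      group
    · rw [← inv_pow, Q.att_pow g⁻¹ hg' 2 (by norm_num)] at e
      rw [e, ← Q.att_conj g g⁻¹ hg']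
      congr 1
      group
  rw [a1] at a4
  exact Q.att_ne y hy a4

theorem fnc1_eq_or_inv_aux {z z' : Γ} (h : Q.Simple z) (h' : Q.Simple z')
    (he : Q.att z = Q.att z') : z' = z ∨ z' = z⁻¹ := by
  have h1 : Q.act z' (Q.att z) = Q.att z := by
    rw [he]
    exact Q.sn1_act_att h'.ne
  have h2 := Q.roots z z' h.ne h1
  obtain ⟨a, ha⟩ := Subgroup.mem_zpowers_iff.1 (h.cent z' h2)
  obtain ⟨b, hb⟩ := Subgroup.mem_zpowers_iff.1 (h'.cent z h2.symm)
  have h3 : z ^ (a * b) = z := by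
    rw [zpow_mul, ha, hb]
  have h4 : a * b = 1 := by
    by_contra hne
    have h5 : z ^ (a * b - 1) = 1 := by
      rw [zpow_sub, h3, zpow_one, mul_inv_cancel]
    rcases lt_or_gt_of_ne (sub_ne_zero.2 hne) with h6 | h6
    · obtain ⟨n, hn⟩ := Int.eq_ofNat_of_zero_le (show 0 ≤ -(a * b - 1) by omega)
      have h7 : z ^ n = 1 := by
        rw [← zpow_natCast, ← hn, zpow_neg, h5, inv_one]
      exact Q.tf z h.ne n (by omega) h7
    · obtain ⟨n, hn⟩ := Int.eq_ofNat_of_zero_le (show 0 ≤ a * b - 1 by omega)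
      have h7 : z ^ n = 1 := by
        rw [← zpow_natCast, ← hn, h5]
      exact Q.tf z h.ne n (by omega) h7
  rcases Int.eq_one_or_neg_one_of_mul_eq_one h4 with rfl | rfl
  · left
    rw [← ha, zpow_one]
  · right
    rw [← ha, zpow_neg_one]

theorem eq_or_inv {z z' : Γ} (h : Q.Simple z) (h' : Q.Simple z')
    (he : Q.att z = Q.att z' ∨ Q.att z⁻¹ = Q.att z' ∨ Q.att z = Q.att z'⁻¹ ∨
      Q.att z⁻¹ = Q.att z'⁻¹) : z' = z ∨ z' = z⁻¹ := by
  rcases he with he | he | he | he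
  · exact fnc1_eq_or_inv_aux h h' he
  · rcases fnc1_eq_or_inv_aux (simple_inv h) h' he with e | e
    · exact Or.inr e
    · exact Or.inl (by rw [e, inv_inv])
  · rcases fnc1_eq_or_inv_aux h (simple_inv h') he with e | e
    · exact Or.inr (by rw [← e, inv_inv])
    · exact Or.inl (inv_injective e)
  · rcases fnc1_eq_or_inv_aux (simple_inv h) (simple_inv h') he with e | e
    · exact Or.inl (inv_injective e)
    · exact Or.inr (inv_injective e)

theorem fnc1_betw_aux {t z : Γ} {a e : Q.C} (ht : t ≠ 1)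
    (h1 : Q.sep (Q.att t) (Q.att t⁻¹) a (Q.att z))
    (h2 : Q.sep (Q.att t) (Q.att t⁻¹) a (Q.att z⁻¹))
    (h : Q.sep (Q.att z) (Q.att z⁻¹) a e) : Q.sep (Q.att t) (Q.att t⁻¹) a e := by
  have n0 := Q.att_ne t ht
  have n1 := Q.sep_ne _ _ _ _ h1
  have n2 := Q.sep_ne _ _ _ _ h2
  have ha : a ≠ Q.att t := n1.2.1.symm
  have hz : Q.att z ≠ Q.att t := n1.2.2.1.symm
  have hz' : Q.att z⁻¹ ≠ Q.att t := n2.2.2.1.symm
  rw [Q.sep_inf t ht _ _ _ n0 ha hz, Q.s_rep t ht] at h1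
  rw [Q.sep_inf t ht _ _ _ n0 ha hz', Q.s_rep t ht] at h2
  have e1 : Q.s t a * Q.s t (Q.att z) < 0 := by nlinarith
  have e2 : Q.s t a * Q.s t (Q.att z⁻¹) < 0 := by nlinarith
  have e3 : 0 < (Q.s t (Q.att z) - Q.s t a) * (Q.s t (Q.att z⁻¹) - Q.s t a) := by
    rcases mul_neg_iff.1 e1 with ⟨f1, f2⟩ | ⟨f1, f2⟩
    · have f3 : Q.s t (Q.att z⁻¹) < 0 := by
        by_contra hh
        push Not at hh
        nlinarith
      nlinarith
    · have f3 : 0 < Q.s t (Q.att z⁻¹) := by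
        by_contra hh
        push Not at hh
        nlinarith
      nlinarith
  by_cases he : e = Q.att t
  · exfalso
    rw [he] at h
    have h3 := Q.sep_swap _ _ _ _ (Q.sep_symm _ _ _ _ h)
    rw [Q.sep_inf t ht _ _ _ ha hz hz'] at h3
    nlinarith
  · rw [Q.sep_fin t ht _ _ _ _ hz hz' ha he] at h
    have e4 : (Q.s t (Q.att z) - Q.s t e) * (Q.s t (Q.att z⁻¹) - Q.s t e) < 0 := by
      by_contra hh
      push Not at hh
      have := mul_nonneg e3.le hh
      linarith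
    rw [Q.sep_inf t ht _ _ _ n0 ha he, Q.s_rep t ht]
    have e5 : Q.s t a * Q.s t e < 0 := by
      rcases mul_neg_iff.1 e4 with ⟨g1, g2⟩ | ⟨g1, g2⟩
      · rcases mul_neg_iff.1 e1 with ⟨f1, f2⟩ | ⟨f1, f2⟩
        · exact mul_neg_of_pos_of_neg f1 (by linarith)
        · have f3 : 0 < Q.s t (Q.att z⁻¹) := by
            by_contra hh
            push Not at hh
            nlinarith
          exact mul_neg_of_neg_of_pos f1 (by linarith)
      · rcases mul_neg_iff.1 e1 with ⟨f1, f2⟩ | ⟨f1, f2⟩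
        · have f3 : Q.s t (Q.att z⁻¹) < 0 := by
            by_contra hh
            push Not at hh
            nlinarith
          exact mul_neg_of_pos_of_neg f1 (by linarith)
        · exact mul_neg_of_neg_of_pos f1 (by linarith)
    nlinarith

theorem betw_trans {t y z w : Γ} (ht : t ≠ 1) (h1 : Q.betw t y z) (h2 : Q.betw z y w) :
    Q.betw t y w := by
  obtain ⟨a1, a2, a3, a4⟩ := h1
  obtain ⟨b1, b2, b3, b4⟩ := h2
  exact ⟨fnc1_betw_aux ht a1 a4 b1, fnc1_betw_aux ht a3 a2 b2, fnc1_betw_aux ht a3 a2 b3, fnc1_betw_aux ht a1 a4 b4⟩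

end Circ

/-- the conjugates of `y` -/
def cj {Γ : Type} [Group Γ] (y : Γ) : Set Γ := {z | ∃ g : Γ, z = g * y * g⁻¹}

/-- a point of the segment `p q` on the line of `n` -/
theorem FNC1.cut {p q n : V} (hp : p ∈ Hyp) (hq : q ∈ Hyp) (h : B p n * B q n ≤ 0) :
    ∃ m ∈ Hyp, B m n = 0 ∧ -B p m ≤ -B p q := by
  by_cases h0 : B p n = 0
  · refine ⟨p, hp, h0, ?_⟩
    rw [hp.1, neg_neg]
    exact one_le hp hq
  · obtain ⟨κ, hκ⟩ : ∃ κ, κ = -B p q := ⟨_, rfl⟩
    have hκ1 : 1 ≤ κ := by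
      rw [hκ]
      exact one_le hp hq
    obtain ⟨a, ha⟩ : ∃ a, a = |B q n| := ⟨_, rfl⟩
    obtain ⟨b, hb⟩ : ∃ b, b = |B p n| := ⟨_, rfl⟩
    have ha0 : 0 ≤ a := by
      rw [ha]
      exact abs_nonneg _
    have hb0 : 0 < b := by
      rw [hb]
      exact abs_pos.2 h0
    have hpos : 0 < a ^ 2 + b ^ 2 + 2 * a * b * κ := by positivity
    obtain ⟨N, hN⟩ : ∃ N, N = Real.sqrt (a ^ 2 + b ^ 2 + 2 * a * b * κ) := ⟨_, rfl⟩
    have hN0 : 0 < N := by
      rw [hN]
      exact Real.sqrt_pos.2 hpos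
    have hN2 : N ^ 2 = a ^ 2 + b ^ 2 + 2 * a * b * κ := by
      rw [hN]
      exact Real.sq_sqrt hpos.le
    have hqp : B q p = -κ := by
      rw [B_comm, hκ, neg_neg]
    have hpq : B p q = -κ := by
      rw [hκ, neg_neg]
    refine ⟨N⁻¹ • (a • p + b • q), ⟨?_, ?_⟩, ?_, ?_⟩
    · simp only [B_smul_left, B_smul_right, B_add_left, B_add_right, hp.1, hq.1, hqp, hpq]
      have e1 : N⁻¹ * (N⁻¹ * (a * (a * -1 + b * -κ) + b * (a * -κ + b * -1))) =
          -(N⁻¹ ^ 2 * N ^ 2) := by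
        rw [hN2]
        ring
      have e2 : N⁻¹ ^ 2 * N ^ 2 = 1 := by
        rw [← mul_pow, inv_mul_cancel₀ hN0.ne', one_pow]
      first
        | rw [e1, e2]
        | (have e3 := e1; nlinarith)
    · have e1 : (N⁻¹ • (a • p + b • q)) 2 = N⁻¹ * (a * p 2 + b * q 2) := rfl
      rw [e1]
      have := hp.2
      have := hq.2
      positivity
    · simp only [B_smul_left, B_add_left]
      have e1 : a * B p n + b * B q n = 0 := by
        rw [ha, hb]
        rcases abs_cases (B p n) with ⟨f1, f2⟩ | ⟨f1, f2⟩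
        · have f3 : B q n ≤ 0 := by
            by_contra hh
            push Not at hh
            have : 0 < B p n := lt_of_le_of_ne f2 (Ne.symm h0)
            nlinarith
          rw [f1, abs_of_nonpos f3]
          ring
        · have f3 : 0 ≤ B q n := by
            by_contra hh
            push Not at hh
            nlinarith
          rw [f1, abs_of_nonneg f3]
          ring
      rw [e1, mul_zero]
    · simp only [B_smul_right, B_add_right, hp.1]
      rw [← hκ, hpq]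
      have e1 : -(N⁻¹ * (a * -1 + b * -κ)) = (a + b * κ) / N := by
        field_simp
        ring
      rw [e1, div_le_iff₀ hN0]
      refine abs_le_of_sq_le_sq' ?_ (by positivity) |>.2
      rw [mul_pow, hN2]
      have g1 : 0 ≤ κ ^ 2 - 1 := by nlinarith
      have g2 : 0 ≤ a ^ 2 * (κ ^ 2 - 1) := by positivity
      have g3 : 0 ≤ 2 * a * b * κ * (κ ^ 2 - 1) := by positivity
      nlinarith

namespace Fuchs

variable {Γ : Type} [Group Γ] (F : Fuchs Γ)

theorem loc_fin {y : Γ} (hy : y ≠ 1) {p q : V} (hp : p ∈ Hyp) (hq : q ∈ Hyp) :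
    {z ∈ cj y | B p (F.nor z) * B q (F.nor z) ≤ 0}.Finite := by
  obtain ⟨c, hc⟩ := F.axis_cpt hy
  refine ((F.proper (2 * c * (2 * (-B o p) * (-B p q)))).image fun h => h⁻¹ * y * h).subset ?_
  rintro z ⟨⟨g, rfl⟩, hz⟩
  obtain ⟨m, hm, hmn, hpm⟩ := FNC1.cut hp hq hz
  have h1 : F.ρ g⁻¹ m ∈ Hyp := F.fut _ _ hm
  have h2 : B (F.ρ g⁻¹ m) (F.nor y) = 0 := by
    have e1 : B (F.ρ g⁻¹ m) (F.nor y) = B m (F.ρ g (F.nor y)) := by
      rw [← F.pres g (F.ρ g⁻¹ m) (F.nor y)]
      congr 1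
      rw [map_inv]
      exact (F.ρ g).apply_symm_apply m
    rw [e1]
    rcases F.nor_conj g hy with e | e
    · rw [← e]
      exact hmn
    · have e2 : F.ρ g (F.nor y) = (-1 : ℝ) • F.nor (g * y * g⁻¹) := by
        rw [e]
        simp
      rw [e2, B_smul_right, hmn, mul_zero]
  obtain ⟨l, hl⟩ := hc _ h1 h2
  refine ⟨y ^ l * g⁻¹, ?_, ?_⟩
  · change -B o (F.ρ (y ^ l * g⁻¹) o) ≤ _
    have e1 : F.ρ (y ^ l) (F.ρ g⁻¹ m) = F.ρ (y ^ l * g⁻¹) m := by
      rw [map_mul]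
      rfl
    rw [e1] at hl
    have e2 := tri o_mem (F.fut (y ^ l * g⁻¹) m hm) (F.fut (y ^ l * g⁻¹) o o_mem)
    rw [F.pres] at e2
    have e3 := tri o_mem hp hm
    have e4 := one_le o_mem (F.fut (y ^ l * g⁻¹) m hm)
    have e5 := one_le o_mem hp
    have e6 := one_le o_mem hm
    rw [B_comm m o] at e2
    have e7 : -B o m ≤ 2 * (-B o p) * (-B p q) := by
      refine e3.trans ?_
      exact mul_le_mul_of_nonneg_left hpm (by linarith)
    refine e2.trans ?_
    exact mul_le_mul (by linarith) e7 (by linarith) (by linarith)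
  · change (y ^ l * g⁻¹)⁻¹ * y * (y ^ l * g⁻¹) = g * y * g⁻¹
    group

/-- the conjugates of `y` whose axes separate `p` and `q` -/
def S (y : Γ) (p q : V) : Set Γ := {z ∈ cj y | B p (F.nor z) * B q (F.nor z) < 0}

end Fuchs

end Pool.Agent.LDJ
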