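import Pool.Agent.LDJ.FNC1

/-!
LDJ.FNC3: good points of complementary regions.

`D` is a family of elements with pairwise non-crossing axes; different members (not inverse to
each other) have no common ends.
`adjacent`: if `L0 ∈ D` is on side `τ` of `y`, there is such an `L ∈ D` with no member of `D` between
`y` and `L`. PROOF. `D ⊆ ⋃ cj y_i` for finitely many `y_i`, so by `loc_fin` (for a point `p` of the
axis of `y` and a point `q` of the axis of `L0`; an element between `y` and `L0` separates or touches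
`p`, `q`) the set `betw(y, L0) = {z ∈ D | betw z y L0}` is finite, and so are `betw(y, z)` for
`z` in it (`betw_trans`: it is contained in the former, and strictly: `z ∉ betw(y,z)` by `sep_ne`).
Choose `L ∈ {L0} ∪ betw(y,L0)` with the fewest members of `D` between. If `betw z y L0` then the
ends of `z` are on the side of `y` of the ends of `L0`: in the coordinate `s y`
(`sep (z+) (z-) (att y) (L0+)` and `sep (z+) (z-) (y⁻) (L0+)`, with `s (y⁻) = 0`,
`sep_inf`: `(s L0+ - s z+)(s L0+ - s z-) < 0`, and `sep_fin` for the other: so `0` is not between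
`s z+` and `s z-` but `s L0+` is).
`good`: let `y, L ∈ D`, `L ≠ y, y⁻¹`, nothing of `D` between. Let `u, v, w` be positive multiples of
`att y, att y⁻¹, att L` with pairwise products `-1` (possible as the pairwise products are
negative: `Cir.neg`), `p = (u + v + w)/√6 ∈ Hyp`. For `z ∈ D`, `n = nor z`, `a = B u n`, `b = B v n`,
`c = B w n`: since `B n n = 1`: `a² + b² + c² - 2ab - 2bc - 2ca = 2` (write `n` in the basis
`u,v,w`: `n = α u + β v + γ w`, `a = -(β+γ)`, `b = -(α+γ)`, `c = -(α+β)`, `B n n = αa + βb + γc`).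
If `z = y^{±1}`: `a = b = 0`, `c ≠ 0`. If `z = L^{±1}`: `c = 0`, `ab > 0`. Otherwise `a, b, c ≠ 0`,
`ab > 0` (`y`, `z` do not cross, no common end), and `ac > 0`: otherwise, as the ends of `L` are
on the same side of `z`, `z` separates `y` and `L`. So `a, b, c ≥ 0` or all `≤ 0`, and
`B p n ² = (a+b+c)²/6 = (2 + 4(ab+bc+ca))/6 ≥ 1/3`. About 300 lines.
-/

namespace Pool.Agent.LDJ

namespace FNC3

/-- the Gram determinant of four vectors of a three-dimensional space vanishes -/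
theorem gram4 (u v w n : V) :
    B n n * (B u u * B v v * B w w + 2 * B u v * B u w * B v w - B u u * B v w ^ 2 -
      B v v * B u w ^ 2 - B w w * B u v ^ 2) =
    B u n ^ 2 * (B v v * B w w - B v w ^ 2) + B v n ^ 2 * (B u u * B w w - B u w ^ 2) +
      B w n ^ 2 * (B u u * B v v - B u v ^ 2) +
      2 * (B u n * B v n) * (B u w * B v w - B u v * B w w) +
      2 * (B u n * B w n) * (B u v * B v w - B u w * B v v) +
      2 * (B v n * B w n) * (B u v * B u w - B u u * B v w) := by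
  simp only [B]
  ring

/-- the shape of the coordinates of a unit normal -/
theorem gram {u v w n : V} (hn : B n n = 1) (hu : B u u = 0) (hv : B v v = 0) (hw : B w w = 0)
    (huv : B u v = -1) (huw : B u w = -1) (hvw : B v w = -1) :
    B u n ^ 2 + B v n ^ 2 + B w n ^ 2 =
      2 + 2 * (B u n * B v n) + 2 * (B u n * B w n) + 2 * (B v n * B w n) := by
  have h := gram4 u v w n
  rw [hn, hu, hv, hw, huv, huw, hvw] at h
  linarith

/-- scaling factors -/
theorem scale {X Y Z : ℝ} (hX : 0 < X) (hY : 0 < Y) (hZ : 0 < Z) :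
    ∃ r s t : ℝ, 0 < r ∧ 0 < s ∧ 0 < t ∧ r * s * X = 1 ∧ r * t * Y = 1 ∧ s * t * Z = 1 := by
  have key : ∀ {P Q R : ℝ}, 0 < P → 0 < Q → 0 < R →
      √(R / (P * Q)) * √(Q / (P * R)) * P = 1 := by
    intro P Q R hP hQ hR
    have h1 : √(R / (P * Q)) * √(Q / (P * R)) = 1 / P := by
      rw [← Real.sqrt_mul (by positivity)]
      have e : R / (P * Q) * (Q / (P * R)) = (1 / P) ^ 2 := by
        field_simp
      rw [e, Real.sqrt_sq (by positivity)]
    rw [h1]
    field_simp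
  refine ⟨√(Z / (X * Y)), √(Y / (X * Z)), √(X / (Y * Z)), by positivity, by positivity,
    by positivity, key hX hY hZ, ?_, ?_⟩
  · have h := key hY hX hZ
    rw [mul_comm Y X] at h
    exact h
  · have h := key hZ hX hY
    rw [mul_comm Z X, mul_comm Z Y] at h
    exact h

/-- a point of the line with ends `u`, `v` -/
theorem axis_pt {u v : Cir} (h : u ≠ v) : ∃ t : ℝ, 0 < t ∧ t • (u.1 + v.1) ∈ Hyp := by
  have h1 := Cir.neg h
  obtain ⟨X, hX⟩ : ∃ X, X = -B u.1 v.1 := ⟨_, rfl⟩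
  have hX0 : 0 < X := by rw [hX]; linarith
  refine ⟨√(1 / (2 * X)), by positivity, ?_, ?_⟩
  · have hs : √(1 / (2 * X)) * √(1 / (2 * X)) = 1 / (2 * X) :=
      Real.mul_self_sqrt (by positivity)
    rw [B_smul_left, B_smul_right, B_add_left, B_add_right, B_add_right, u.2.1, v.2.1,
      B_comm v.1 u.1]
    have e : B u.1 v.1 = -X := by rw [hX]; ring
    rw [e, ← mul_assoc, hs]
    field_simp
    ring
  · have h2 : (√(1 / (2 * X)) • (u.1 + v.1)) 2 = √(1 / (2 * X)) * 2 := by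
      rw [Pi.smul_apply, Pi.add_apply, u.2.2, v.2.2, smul_eq_mul]
      norm_num
    rw [h2]
    positivity

end FNC3

namespace Fuchs

variable {Γ : Type} [Group Γ] (F : Fuchs Γ)

/-- a family of pairwise non-crossing axes, contained in finitely many conjugacy classes -/
structure Fam (D : Set Γ) : Prop where
  ne : ∀ z ∈ D, z ≠ 1
  nolink : ∀ z ∈ D, ∀ z' ∈ D, ¬ F.circ.link z z'
  ends : ∀ z ∈ D, ∀ z' ∈ D, (F.att z = F.att z' ∨ F.att z⁻¹ = F.att z' ∨
    F.att z = F.att z'⁻¹ ∨ F.att z⁻¹ = F.att z'⁻¹) → z' = z ∨ z' = z⁻¹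
  fin : ∃ E : Finset Γ, (∀ e ∈ E, e ≠ 1) ∧ ∀ z ∈ D, ∃ e ∈ E, z ∈ cj e

theorem link_iff_nor {z z' : Γ} (hz : z ≠ 1) :
    F.circ.link z z' ↔ B (F.att z').1 (F.nor z) * B (F.att z'⁻¹).1 (F.nor z) < 0 :=
  Cir.sep_iff_nor (F.att_ne hz).symm (F.data hz).hn (F.data hz).un (F.data hz).wn

theorem betw_iff_nor {z a b : Γ} (hz : z ≠ 1) :
    F.circ.betw z a b ↔
      B (F.att a).1 (F.nor z) * B (F.att b).1 (F.nor z) < 0 ∧
      B (F.att a⁻¹).1 (F.nor z) * B (F.att b⁻¹).1 (F.nor z) < 0 ∧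
      B (F.att a⁻¹).1 (F.nor z) * B (F.att b).1 (F.nor z) < 0 ∧
      B (F.att a).1 (F.nor z) * B (F.att b⁻¹).1 (F.nor z) < 0 := by
  have key : ∀ c d : Cir, F.circ.sep (F.att z) (F.att z⁻¹) c d ↔
      B c.1 (F.nor z) * B d.1 (F.nor z) < 0 := fun c d =>
    Cir.sep_iff_nor (F.att_ne hz).symm (F.data hz).hn (F.data hz).un (F.data hz).wn
  unfold Circ.betw
  exact and_congr (key _ _) (and_congr (key _ _) (and_congr (key _ _) (key _ _)))

/-- a point of the circle orthogonal to the normal of `z` is an end of `z` -/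
theorem end_of_nor {z : Γ} (hz : z ≠ 1) {v : Cir} (h : B v.1 (F.nor z) = 0) :
    v = F.att z ∨ v = F.att z⁻¹ := by
  by_cases hv : v = F.att z
  · exact Or.inl hv
  · right
    apply F.circ.s_inj z v (F.att z⁻¹) hz hv (F.att_ne hz)
    rw [show F.circ.s z (F.att z⁻¹) = 0 from F.circ.s_rep z hz]
    show sc (F.att z) (F.nor z) v = 0
    rw [sc, h, neg_zero, zero_div]

/-- an element between `y` and `L` is on the side of `L` -/
theorem side_of_betw {y z L : Γ} (hy : y ≠ 1) {τ : ℝ} (hs : F.circ.side y τ (F.att L))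
    (hb : F.circ.betw z y L) : F.circ.side y τ (F.att z) := by
  obtain ⟨h1, -, h3, -⟩ := hb
  have n1 := F.circ.sep_ne _ _ _ _ h1
  have n3 := F.circ.sep_ne _ _ _ _ h3
  have e1 := (F.circ.sep_inf y hy _ _ _ n1.2.2.2.2.2.symm n1.2.1 n1.2.2.2.1).1
    (F.circ.sep_symm _ _ _ _ h1)
  have e3 := (F.circ.sep_fin y hy _ _ _ _ n1.2.1 n1.2.2.2.1 (F.circ.att_ne y hy)
    n1.2.2.2.2.2.symm).1 h3
  rw [F.circ.s_rep y hy] at e3
  refine ⟨n1.2.1, ?_⟩
  change 0 < τ * F.circ.s y (F.circ.att z)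
  have h5 := hs.2
  generalize F.circ.s y (F.circ.att z) = a at e1 e3 ⊢
  generalize F.circ.s y (F.circ.att z⁻¹) = b at e1 e3
  have h6 : F.circ.s y (F.circ.att L) = F.circ.s y (F.att L) := rfl
  rw [h6] at e1 e3
  generalize F.circ.s y (F.att L) = c at e1 e3 h5
  have e4 : (a - c) * (b - c) < 0 := by
    calc (a - c) * (b - c) = (c - a) * (c - b) := by ring
      _ < 0 := e1
  have e5 : 0 < a * b := by
    by_contra hcon
    have h7 : a * b ≤ 0 := not_lt.1 hcon
    have h8 := mul_nonneg_of_nonpos_of_nonpos h7 e4.le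
    have h9 : (a - 0) * (b - 0) * ((a - c) * (b - c)) = a * b * ((a - c) * (b - c)) := by ring
    rw [h9] at e3
    exact absurd e3 (not_lt.2 h8)
  -- `a`, `b` have the same sign and `c` is between them
  by_contra hcon
  have h10 : τ * a ≤ 0 := not_lt.1 hcon
  have h11 : τ * b ≤ 0 := by
    by_contra h12
    have h13 : 0 < τ * b := not_le.1 h12
    have h14 : τ * a * (τ * b) ≤ 0 := mul_nonpos_of_nonpos_of_nonneg h10 h13.le
    have h15 : τ * a * (τ * b) = τ ^ 2 * (a * b) := by ring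
    have h16 : τ ≠ 0 := by
      rintro rfl
      rw [zero_mul] at h5
      exact lt_irrefl _ h5
    have h17 : 0 < τ ^ 2 * (a * b) := mul_pos (by positivity) e5
    rw [h15] at h14
    exact absurd h17 (not_lt.2 h14)
  have h18 : 0 < τ * c - τ * a := by linarith
  have h19 : 0 < τ * c - τ * b := by linarith
  have h20 := mul_pos h18 h19
  have h21 : (τ * c - τ * a) * (τ * c - τ * b) = τ ^ 2 * ((c - a) * (c - b)) := by ring
  rw [h21] at h20
  have h22 : τ ^ 2 * ((c - a) * (c - b)) ≤ 0 :=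
    mul_nonpos_of_nonneg_of_nonpos (sq_nonneg τ) e1.le
  exact absurd h20 (not_lt.2 h22)

/-- only finitely many members of the family are between `y` and `L` -/
theorem Fam.betw_fin {D : Set Γ} (h : F.Fam D) {y L : Γ} (hy : y ∈ D) (hL : L ∈ D) :
    {z ∈ D | F.circ.betw z y L}.Finite := by
  obtain ⟨E, hE1, hE2⟩ := h.fin
  obtain ⟨t, ht, hp⟩ := FNC3.axis_pt (F.att_ne (h.ne y hy)).symm
  obtain ⟨r, hr, hq⟩ := FNC3.axis_pt (F.att_ne (h.ne L hL)).symm
  have hfin : (⋃ e ∈ (E : Set Γ), {z ∈ cj e | B (t • ((F.att y).1 + (F.att y⁻¹).1)) (F.nor z) *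
      B (r • ((F.att L).1 + (F.att L⁻¹).1)) (F.nor z) ≤ 0}).Finite :=
    E.finite_toSet.biUnion fun e he => F.loc_fin (hE1 e he) hp hq
  refine hfin.subset ?_
  rintro z ⟨hz, hb⟩
  obtain ⟨e, he, hze⟩ := hE2 z hz
  rw [Set.mem_iUnion₂]
  refine ⟨e, he, hze, ?_⟩
  obtain ⟨h1, h2, h3, h4⟩ := (F.betw_iff_nor (h.ne z hz)).1 hb
  rw [B_smul_left, B_smul_left, B_add_left, B_add_left]
  have e : t * (B (F.att y).1 (F.nor z) + B (F.att y⁻¹).1 (F.nor z)) *
      (r * (B (F.att L).1 (F.nor z) + B (F.att L⁻¹).1 (F.nor z))) =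
      t * r * (B (F.att y).1 (F.nor z) * B (F.att L).1 (F.nor z) +
        B (F.att y⁻¹).1 (F.nor z) * B (F.att L⁻¹).1 (F.nor z) +
        B (F.att y⁻¹).1 (F.nor z) * B (F.att L).1 (F.nor z) +
        B (F.att y).1 (F.nor z) * B (F.att L⁻¹).1 (F.nor z)) := by ring
  rw [e]
  exact mul_nonpos_of_nonneg_of_nonpos (mul_pos ht hr).le (by linarith)

theorem Fam.adjacent {D : Set Γ} (h : F.Fam D) {y L0 : Γ} (hy : y ∈ D) (hL : L0 ∈ D) {τ : ℝ}
    (hτ : τ = 1 ∨ τ = -1) (hs : F.circ.side y τ (F.att L0)) :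
    ∃ L ∈ D, F.circ.side y τ (F.att L) ∧ ∀ z ∈ D, ¬ F.circ.betw z y L := by
  suffices H : ∀ n : ℕ, ∀ L ∈ D, F.circ.side y τ (F.att L) →
      {z ∈ D | F.circ.betw z y L}.ncard = n →
      ∃ L ∈ D, F.circ.side y τ (F.att L) ∧ ∀ z ∈ D, ¬ F.circ.betw z y L from
    H _ L0 hL hs rfl
  intro n
  induction n using Nat.strong_induction_on with
  | _ n ih =>
    intro L hL hs hn
    by_cases hex : ∃ z ∈ D, F.circ.betw z y L
    · obtain ⟨z, hz, hb⟩ := hex
      have hsub : {t ∈ D | F.circ.betw t y z} ⊂ {t ∈ D | F.circ.betw t y L} := by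
        rw [Set.ssubset_iff_of_subset]
        · refine ⟨z, ⟨hz, hb⟩, ?_⟩
          rintro ⟨-, hb'⟩
          exact (F.circ.sep_ne _ _ _ _ hb'.1).2.2.1 rfl
        · rintro t ⟨ht, hb'⟩
          exact ⟨ht, Circ.betw_trans (h.ne t ht) hb' hb⟩
      exact ih _ (by rw [← hn]; exact Set.ncard_lt_ncard hsub (h.betw_fin F hy hL)) z hz
        (F.side_of_betw (h.ne y hy) hs hb) rfl
    · push Not at hex
      exact ⟨L, hL, hs, hex⟩

theorem Fam.good {D : Set Γ} (h : F.Fam D) {y L : Γ} (hy : y ∈ D) (hL : L ∈ D)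
    (h1 : L ≠ y) (h2 : L ≠ y⁻¹) (hb : ∀ z ∈ D, ¬ F.circ.betw z y L) :
    ∃ p ∈ Hyp, 0 < B p (F.nor y) * B (F.att L).1 (F.nor y) ∧
      (∀ z ∈ D, z ≠ y → z ≠ y⁻¹ → 0 < B p (F.nor z) * B (F.att y).1 (F.nor z)) ∧
      ∀ z ∈ D, 1 / 3 ≤ B p (F.nor z) ^ 2 := by
  have hy1 := h.ne y hy
  have hL1 := h.ne L hL
  -- the three ends are different
  have d1 : F.att y ≠ F.att y⁻¹ := (F.att_ne hy1).symm
  have d2 : F.att y ≠ F.att L := by
    intro he
    rcases h.ends y hy L hL (Or.inl he) with h3 | h3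
    · exact h1 h3
    · exact h2 h3
  have d3 : F.att y⁻¹ ≠ F.att L := by
    intro he
    rcases h.ends y hy L hL (Or.inr (Or.inl he)) with h3 | h3
    · exact h1 h3
    · exact h2 h3
  obtain ⟨X, hX⟩ : ∃ X, X = -B (F.att y).1 (F.att y⁻¹).1 := ⟨_, rfl⟩
  obtain ⟨Y, hY⟩ : ∃ Y, Y = -B (F.att y).1 (F.att L).1 := ⟨_, rfl⟩
  obtain ⟨Z, hZ⟩ : ∃ Z, Z = -B (F.att y⁻¹).1 (F.att L).1 := ⟨_, rfl⟩
  have hX0 : 0 < X := by rw [hX]; linarith [Cir.neg d1]
  have hY0 : 0 < Y := by rw [hY]; linarith [Cir.neg d2]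
  have hZ0 : 0 < Z := by rw [hZ]; linarith [Cir.neg d3]
  obtain ⟨r, s, t, hr, hs, ht, e1, e2, e3⟩ := FNC3.scale hX0 hY0 hZ0
  obtain ⟨u, hu⟩ : ∃ u : V, u = r • (F.att y).1 := ⟨_, rfl⟩
  obtain ⟨v, hv⟩ : ∃ v : V, v = s • (F.att y⁻¹).1 := ⟨_, rfl⟩
  obtain ⟨w, hw⟩ : ∃ w : V, w = t • (F.att L).1 := ⟨_, rfl⟩
  have huu : B u u = 0 := by rw [hu, B_smul_left, B_smul_right, (F.att y).2.1]; ring
  have hvv : B v v = 0 := by rw [hv, B_smul_left, B_smul_right, (F.att y⁻¹).2.1]; ring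
  have hww : B w w = 0 := by rw [hw, B_smul_left, B_smul_right, (F.att L).2.1]; ring
  have huv : B u v = -1 := by
    rw [hu, hv, B_smul_left, B_smul_right]
    have : B (F.att y).1 (F.att y⁻¹).1 = -X := by rw [hX]; ring
    rw [this]
    linarith
  have huw : B u w = -1 := by
    rw [hu, hw, B_smul_left, B_smul_right]
    have : B (F.att y).1 (F.att L).1 = -Y := by rw [hY]; ring
    rw [this]
    linarith
  have hvw : B v w = -1 := by
    rw [hv, hw, B_smul_left, B_smul_right]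
    have : B (F.att y⁻¹).1 (F.att L).1 = -Z := by rw [hZ]; ring
    rw [this]
    linarith
  obtain ⟨k, hk⟩ : ∃ k : ℝ, k = (√6)⁻¹ := ⟨_, rfl⟩
  have hk0 : 0 < k := by rw [hk]; positivity
  have hk2 : k * k = 1 / 6 := by
    rw [hk, ← mul_inv, Real.mul_self_sqrt (by norm_num)]
    norm_num
  -- the coordinates of the normals
  have ha : ∀ z, B u (F.nor z) = r * B (F.att y).1 (F.nor z) := fun z => by
    rw [hu, B_smul_left]
  have hb' : ∀ z, B v (F.nor z) = s * B (F.att y⁻¹).1 (F.nor z) := fun z => by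
    rw [hv, B_smul_left]
  have hc : ∀ z, B w (F.nor z) = t * B (F.att L).1 (F.nor z) := fun z => by
    rw [hw, B_smul_left]
  have hP : ∀ z, B (k • (u + v + w)) (F.nor z) =
      k * (B u (F.nor z) + B v (F.nor z) + B w (F.nor z)) := fun z => by
    rw [B_smul_left, B_add_left, B_add_left]
  have hid : ∀ z ∈ D, B u (F.nor z) ^ 2 + B v (F.nor z) ^ 2 + B w (F.nor z) ^ 2 =
      2 + 2 * (B u (F.nor z) * B v (F.nor z)) + 2 * (B u (F.nor z) * B w (F.nor z)) +
        2 * (B v (F.nor z) * B w (F.nor z)) := fun z hz =>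
    FNC3.gram (F.data (h.ne z hz)).hn huu hvv hww huv huw hvw
  -- the member `y`
  have hyy : ∀ z, z = y ∨ z = y⁻¹ → B (F.att y).1 (F.nor z) = 0 ∧
      B (F.att y⁻¹).1 (F.nor z) = 0 := by
    rintro z (rfl | rfl)
    · exact ⟨(F.data hy1).un, (F.data hy1).wn⟩
    · have h5 := F.data (inv_ne_one.2 hy1)
      have h6 := h5.wn
      rw [inv_inv] at h6
      exact ⟨h6, h5.un⟩
  have hLL : ∀ z, z = L ∨ z = L⁻¹ → B (F.att L).1 (F.nor z) = 0 := by
    rintro z (rfl | rfl)
    · exact (F.data hL1).un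
    · have h5 := F.data (inv_ne_one.2 hL1)
      have h6 := h5.wn
      rw [inv_inv] at h6
      exact h6
  -- the signs
  have hab : ∀ z ∈ D, 0 ≤ B (F.att y).1 (F.nor z) * B (F.att y⁻¹).1 (F.nor z) := by
    intro z hz
    by_contra hcon
    exact h.nolink z hz y hy ((F.link_iff_nor (h.ne z hz)).2 (not_le.1 hcon))
  have hcc : ∀ z ∈ D, 0 ≤ B (F.att L).1 (F.nor z) * B (F.att L⁻¹).1 (F.nor z) := by
    intro z hz
    by_contra hcon
    exact h.nolink z hz L hL ((F.link_iff_nor (h.ne z hz)).2 (not_le.1 hcon))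
  have hne : ∀ z ∈ D, z ≠ y → z ≠ y⁻¹ → B (F.att y).1 (F.nor z) ≠ 0 ∧
      B (F.att y⁻¹).1 (F.nor z) ≠ 0 := by
    intro z hz hz1 hz2
    constructor
    · intro h0
      have h5 : F.att y = F.att z ∨ F.att y⁻¹ = F.att z ∨ F.att y = F.att z⁻¹ ∨
          F.att y⁻¹ = F.att z⁻¹ := by
        rcases F.end_of_nor (h.ne z hz) h0 with h6 | h6
        · exact Or.inl h6
        · exact Or.inr (Or.inr (Or.inl h6))
      rcases h.ends y hy z hz h5 with h6 | h6
      · exact hz1 h6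
      · exact hz2 h6
    · intro h0
      have h5 : F.att y = F.att z ∨ F.att y⁻¹ = F.att z ∨ F.att y = F.att z⁻¹ ∨
          F.att y⁻¹ = F.att z⁻¹ := by
        rcases F.end_of_nor (h.ne z hz) h0 with h6 | h6
        · exact Or.inr (Or.inl h6)
        · exact Or.inr (Or.inr (Or.inr h6))
      rcases h.ends y hy z hz h5 with h6 | h6
      · exact hz1 h6
      · exact hz2 h6
  have hneL : ∀ z ∈ D, z ≠ L → z ≠ L⁻¹ → B (F.att L).1 (F.nor z) ≠ 0 ∧
      B (F.att L⁻¹).1 (F.nor z) ≠ 0 := by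
    intro z hz hz1 hz2
    constructor
    · intro h0
      have h5 : F.att L = F.att z ∨ F.att L⁻¹ = F.att z ∨ F.att L = F.att z⁻¹ ∨
          F.att L⁻¹ = F.att z⁻¹ := by
        rcases F.end_of_nor (h.ne z hz) h0 with h6 | h6
        · exact Or.inl h6
        · exact Or.inr (Or.inr (Or.inl h6))
      rcases h.ends L hL z hz h5 with h6 | h6
      · exact hz1 h6
      · exact hz2 h6
    · intro h0
      have h5 : F.att L = F.att z ∨ F.att L⁻¹ = F.att z ∨ F.att L = F.att z⁻¹ ∨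
          F.att L⁻¹ = F.att z⁻¹ := by
        rcases F.end_of_nor (h.ne z hz) h0 with h6 | h6
        · exact Or.inr (Or.inl h6)
        · exact Or.inr (Or.inr (Or.inr h6))
      rcases h.ends L hL z hz h5 with h6 | h6
      · exact hz1 h6
      · exact hz2 h6
  -- `a b`, `a c`, `b c` are nonnegative
  have hall : ∀ z ∈ D, 0 ≤ B (F.att y).1 (F.nor z) * B (F.att y⁻¹).1 (F.nor z) ∧
      0 ≤ B (F.att y).1 (F.nor z) * B (F.att L).1 (F.nor z) ∧
      0 ≤ B (F.att y⁻¹).1 (F.nor z) * B (F.att L).1 (F.nor z) := by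
    intro z hz
    refine ⟨hab z hz, ?_⟩
    by_cases hzy : z = y ∨ z = y⁻¹
    · obtain ⟨h5, h6⟩ := hyy z hzy
      rw [h5, h6, zero_mul]
      exact ⟨le_rfl, le_rfl⟩
    by_cases hzL : z = L ∨ z = L⁻¹
    · rw [hLL z hzL, mul_zero, mul_zero]
      exact ⟨le_rfl, le_rfl⟩
    push Not at hzy hzL
    obtain ⟨a0, b0⟩ := hne z hz hzy.1 hzy.2
    obtain ⟨c0, c0'⟩ := hneL z hz hzL.1 hzL.2
    have hab' := hab z hz
    have hcc' := hcc z hz
    have hbz := hb z hz
    rw [F.betw_iff_nor (h.ne z hz)] at hbz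
    generalize B (F.att y).1 (F.nor z) = a at a0 hab' hbz ⊢
    generalize B (F.att y⁻¹).1 (F.nor z) = b at b0 hab' hbz ⊢
    generalize B (F.att L).1 (F.nor z) = c at c0 hcc' hbz ⊢
    generalize B (F.att L⁻¹).1 (F.nor z) = c' at c0' hcc' hbz
    rcases lt_or_gt_of_ne a0 with a1 | a1
    · have b1 : b < 0 := by
        rcases lt_or_gt_of_ne b0 with b1 | b1
        · exact b1
        · exact absurd hab' (not_le.2 (mul_neg_of_neg_of_pos a1 b1))
      have c1 : c < 0 := by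
        rcases lt_or_gt_of_ne c0 with c1 | c1
        · exact c1
        · exfalso
          have c1' : 0 < c' := by
            rcases lt_or_gt_of_ne c0' with c1' | c1'
            · exact absurd hcc' (not_le.2 (mul_neg_of_pos_of_neg c1 c1'))
            · exact c1'
          exact hbz ⟨mul_neg_of_neg_of_pos a1 c1, mul_neg_of_neg_of_pos b1 c1',
            mul_neg_of_neg_of_pos b1 c1, mul_neg_of_neg_of_pos a1 c1'⟩
      exact ⟨(mul_pos_of_neg_of_neg a1 c1).le, (mul_pos_of_neg_of_neg b1 c1).le⟩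
    · have b1 : 0 < b := by
        rcases lt_or_gt_of_ne b0 with b1 | b1
        · exact absurd hab' (not_le.2 (mul_neg_of_pos_of_neg a1 b1))
        · exact b1
      have c1 : 0 < c := by
        rcases lt_or_gt_of_ne c0 with c1 | c1
        · exfalso
          have c1' : c' < 0 := by
            rcases lt_or_gt_of_ne c0' with c1' | c1'
            · exact c1'
            · exact absurd hcc' (not_le.2 (mul_neg_of_neg_of_pos c1 c1'))
          exact hbz ⟨mul_neg_of_pos_of_neg a1 c1, mul_neg_of_pos_of_neg b1 c1',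
            mul_neg_of_pos_of_neg b1 c1, mul_neg_of_pos_of_neg a1 c1'⟩
        · exact c1
      exact ⟨(mul_pos a1 c1).le, (mul_pos b1 c1).le⟩
  refine ⟨k • (u + v + w), ⟨?_, ?_⟩, ?_, ?_, ?_⟩
  · have e : B (k • (u + v + w)) (k • (u + v + w)) = k * k * (B u u + B v v + B w w +
        2 * B u v + 2 * B u w + 2 * B v w) := by
      simp only [B, Pi.smul_apply, Pi.add_apply, smul_eq_mul]
      ring
    rw [e, huu, hvv, hww, huv, huw, hvw, hk2]
    norm_num
  · have e : (k • (u + v + w)) 2 = k * (r + s + t) := by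
      rw [hu, hv, hw]
      simp only [Pi.smul_apply, Pi.add_apply, smul_eq_mul]
      rw [(F.att y).2.2, (F.att y⁻¹).2.2, (F.att L).2.2]
      ring
    rw [e]
    positivity
  · obtain ⟨h5, h6⟩ := hyy y (Or.inl rfl)
    have h7 := hid y hy
    rw [ha, hb', h5, h6, mul_zero, mul_zero] at h7
    have h8 : B w (F.nor y) ^ 2 = 2 := by linarith
    rw [hP, ha, hb', h5, h6, mul_zero, mul_zero, zero_add, zero_add]
    rw [hc] at h8 ⊢
    generalize B (F.att L).1 (F.nor y) = c at h8 ⊢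
    have h9 : 0 < c ^ 2 := by
      have h10 : c ≠ 0 := by
        rintro rfl
        rw [mul_zero] at h8
        norm_num at h8
      positivity
    have e : k * (t * c) * c = k * t * c ^ 2 := by ring
    rw [e]
    exact mul_pos (mul_pos hk0 ht) h9
  · intro z hz hz1 hz2
    obtain ⟨a0, b0⟩ := hne z hz hz1 hz2
    obtain ⟨h5, h6, h7⟩ := hall z hz
    rw [hP, ha, hb', hc]
    generalize B (F.att y).1 (F.nor z) = a at a0 h5 h6 ⊢
    generalize B (F.att y⁻¹).1 (F.nor z) = b at h5 ⊢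
    generalize B (F.att L).1 (F.nor z) = c at h6 ⊢
    have e : k * (r * a + s * b + t * c) * a = k * (r * a ^ 2 + s * (a * b) + t * (a * c)) := by
      ring
    rw [e]
    have h8 : 0 < r * a ^ 2 := by positivity
    have h9 : 0 ≤ s * (a * b) := mul_nonneg hs.le h5
    have h10 : 0 ≤ t * (a * c) := mul_nonneg ht.le h6
    exact mul_pos hk0 (by linarith)
  · intro z hz
    obtain ⟨h5, h6, h7⟩ := hall z hz
    have h8 := hid z hz
    have h9 : 0 ≤ B u (F.nor z) * B v (F.nor z) := by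
      rw [ha, hb']
      have e : r * B (F.att y).1 (F.nor z) * (s * B (F.att y⁻¹).1 (F.nor z)) =
        r * s * (B (F.att y).1 (F.nor z) * B (F.att y⁻¹).1 (F.nor z)) := by ring
      rw [e]
      exact mul_nonneg (mul_pos hr hs).le h5
    have h10 : 0 ≤ B u (F.nor z) * B w (F.nor z) := by
      rw [ha, hc]
      have e : r * B (F.att y).1 (F.nor z) * (t * B (F.att L).1 (F.nor z)) =
        r * t * (B (F.att y).1 (F.nor z) * B (F.att L).1 (F.nor z)) := by ring
      rw [e]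
      exact mul_nonneg (mul_pos hr ht).le h6
    have h11 : 0 ≤ B v (F.nor z) * B w (F.nor z) := by
      rw [hb', hc]
      have e : s * B (F.att y⁻¹).1 (F.nor z) * (t * B (F.att L).1 (F.nor z)) =
        s * t * (B (F.att y⁻¹).1 (F.nor z) * B (F.att L).1 (F.nor z)) := by ring
      rw [e]
      exact mul_nonneg (mul_pos hs ht).le h7
    rw [hP]
    have e : (k * (B u (F.nor z) + B v (F.nor z) + B w (F.nor z))) ^ 2 =
        k * k * (B u (F.nor z) ^ 2 + B v (F.nor z) ^ 2 + B w (F.nor z) ^ 2 +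
          2 * (B u (F.nor z) * B v (F.nor z)) + 2 * (B u (F.nor z) * B w (F.nor z)) +
          2 * (B v (F.nor z) * B w (F.nor z))) := by ring
    rw [e, h8, hk2]
    linarith

end Fuchs

end Pool.Agent.LDJ
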