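import Pool.Agent.LDJ.FNC3

/-!
LDJ.FNC4: parity. For a separating element `y`, the number of conjugates of `y` separating `p` and
`ρ x p` is even.

`p` is generic: `B p (nor z) ≠ 0` for all `z ∈ cj y`.
PROOF. (1) `S y p q` is finite (`loc_fin`), `S y p r = S y p q ∆ S y q r` for generic `p,q,r`
(signs), `S y (ρ g p) (ρ g q) = g (S y p q) g⁻¹` (`nor_conj`), and `ρ g p` is generic.
So for fixed generic `p` the map `x ↦ #S(p, x p) mod 2` is a homomorphism, and it does not depend on
`p`: `#S(p,xp) + #S(q,xq) ≡ #S(p,q) + #S(xp,xq) ≡ 0`.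
(2) It vanishes on `A`. `D = cj y` is a `Fam` (`Split.simple`, `simple_conj`, `eq_or_inv`). By `nA`
there is `a0 ∈ A \ Z`, `L0 = a0 y a0⁻¹` is on side `σ`; by `adjacent` and `good` there are
`L` on side `σ` and `p` on the side of `L` of `y`, and on the same side as the axis of `y` of all
other `z ∈ cj y` (`y⁻¹ ∉ cj y` by `not_conj_inv`); `p` is generic. Claim `S y p (x p) = ∅` for
`x ∈ A`. For `x ∈ Z = zpowers y`: `ρ y` preserves the sides of `y` (`B (ρ y q) (nor y) = B q (nor y)`
by `Data.Ln`) and permutes the others together with the axis of `y`. Let `x ∈ A \ Z`, `z ∈ cj y`;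
The axis of `y` stands for the points `att y`, `att y⁻¹` (same side of every other `z`).
 Facts (translate the properties of `p` by `x`): for `z ≠ x y x⁻¹`: `x p` is on the same side of `z`
 as the axis of `x y x⁻¹`; and `x p` is on the side of `x y x⁻¹` corresponding under `x` to side `σ`
 of `y`.
 - `z = y` (`≠ x y x⁻¹` as `x ∉ Z`): `p` is on side `σ` of `y`; `x p` is on the same side as the axis
   of `x y x⁻¹`, which is on side `σ` (`pa`).
 - `z ≠ y, x y x⁻¹`: `p` is on the side of `y`, `x p` on the side of `x y x⁻¹`, these are the same as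
   `z` is not between `y` and `x y x⁻¹` (`Split.adj`) (and does not cross them).
 - `z = x y x⁻¹`: `p` is on the side of the axis of `y`. `p` and the axis of `x⁻¹ y x` are on the same
   side `σ` of `y` (`pa` for `x⁻¹`); translating by `x`: `x p` and the axis of `y` are on the same
   side of `x y x⁻¹`.
(3) It vanishes on `B` (apply (2) to `h.swap`), and `A ⊔ B = ⊤`, so it vanishes. About 350 lines.
-/

namespace Pool.Agent.LDJ

namespace Fuchs

variable {Γ : Type} [Group Γ] (F : Fuchs Γ)

/-- `p` is on no axis of a conjugate of `y` -/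
def Gen (y : Γ) (p : V) : Prop := p ∈ Hyp ∧ ∀ z ∈ cj y, B p (F.nor z) ≠ 0

theorem S_finite {y : Γ} (hy : y ≠ 1) {p q : V} (hp : p ∈ Hyp) (hq : q ∈ Hyp) :
    (F.S y p q).Finite :=
  (F.loc_fin hy hp hq).subset fun _ hz => ⟨hz.1, hz.2.le⟩

/-- additivity of the parity -/
theorem S_add {y : Γ} (hy : y ≠ 1) {p q r : V} (hp : F.Gen y p) (hq : F.Gen y q)
    (hr : F.Gen y r) :
    ((F.S y p r).ncard : ZMod 2) = (F.S y p q).ncard + (F.S y q r).ncard := by
  classical
  have hA := F.S_finite hy hp.1 hq.1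
  have hB := F.S_finite hy hq.1 hr.1
  have h1 : F.S y p r = (F.S y p q \ F.S y q r) ∪ (F.S y q r \ F.S y p q) := by
    ext z
    by_cases hz : z ∈ cj y
    · have ha := hp.2 z hz
      have hb := hq.2 z hz
      have hc := hr.2 z hz
      have e1 : z ∈ F.S y p r ↔ B p (F.nor z) * B r (F.nor z) < 0 := ⟨fun h => h.2, fun h => ⟨hz, h⟩⟩
      have e2 : z ∈ F.S y p q ↔ B p (F.nor z) * B q (F.nor z) < 0 := ⟨fun h => h.2, fun h => ⟨hz, h⟩⟩
      have e3 : z ∈ F.S y q r ↔ B q (F.nor z) * B r (F.nor z) < 0 := ⟨fun h => h.2, fun h => ⟨hz, h⟩⟩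
      rw [Set.mem_union, Set.mem_sdiff, Set.mem_sdiff, e1, e2, e3]
      generalize B p (F.nor z) = a at *
      generalize B q (F.nor z) = b at *
      generalize B r (F.nor z) = c at *
      rcases lt_or_gt_of_ne ha with ha | ha <;> rcases lt_or_gt_of_ne hb with hb | hb <;>
        rcases lt_or_gt_of_ne hc with hc | hc
      · have k1 := mul_pos_of_neg_of_neg ha hb
        have k2 := mul_pos_of_neg_of_neg hb hc
        have k3 := mul_pos_of_neg_of_neg ha hc
        constructor
        · intro h; linarith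
        · rintro (⟨h, -⟩ | ⟨h, -⟩) <;> linarith
      · have k1 := mul_pos_of_neg_of_neg ha hb
        have k2 := mul_neg_of_neg_of_pos hb hc
        have k3 := mul_neg_of_neg_of_pos ha hc
        constructor
        · intro h; right; exact ⟨k2, by linarith⟩
        · intro _; exact k3
      · have k1 := mul_neg_of_neg_of_pos ha hb
        have k2 := mul_neg_of_pos_of_neg hb hc
        have k3 := mul_pos_of_neg_of_neg ha hc
        constructor
        · intro h; linarith
        · rintro (⟨_, h⟩ | ⟨_, h⟩) <;> exact absurd (by assumption) h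
      · have k1 := mul_neg_of_neg_of_pos ha hb
        have k2 := mul_pos hb hc
        have k3 := mul_neg_of_neg_of_pos ha hc
        constructor
        · intro h; left; exact ⟨k1, by linarith⟩
        · intro _; exact k3
      · have k1 := mul_neg_of_pos_of_neg ha hb
        have k2 := mul_pos_of_neg_of_neg hb hc
        have k3 := mul_neg_of_pos_of_neg ha hc
        constructor
        · intro h; left; exact ⟨k1, by linarith⟩
        · intro _; exact k3
      · have k1 := mul_neg_of_pos_of_neg ha hb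
        have k2 := mul_neg_of_neg_of_pos hb hc
        have k3 := mul_pos ha hc
        constructor
        · intro h; linarith
        · rintro (⟨_, h⟩ | ⟨_, h⟩) <;> exact absurd (by assumption) h
      · have k1 := mul_pos ha hb
        have k2 := mul_neg_of_pos_of_neg hb hc
        have k3 := mul_neg_of_pos_of_neg ha hc
        constructor
        · intro h; right; exact ⟨k2, by linarith⟩
        · intro _; exact k3
      · have k1 := mul_pos ha hb
        have k2 := mul_pos hb hc
        have k3 := mul_pos ha hc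
        constructor
        · intro h; linarith
        · rintro (⟨h, -⟩ | ⟨h, -⟩) <;> linarith
    · constructor
      · intro h; exact absurd h.1 hz
      · rintro (h | h)
        · exact absurd h.1.1 hz
        · exact absurd h.1.1 hz
  have h2 : Disjoint (F.S y p q \ F.S y q r) (F.S y q r \ F.S y p q) :=
    Set.disjoint_left.2 fun z hz hz' => hz.2 hz'.1
  rw [h1, Set.ncard_union_eq h2 (hA.subset Set.sdiff_subset) (hB.subset Set.sdiff_subset)]
  have h3 := Set.ncard_inter_add_ncard_sdiff_eq_ncard (F.S y p q) (F.S y q r) hA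
  have h4 := Set.ncard_inter_add_ncard_sdiff_eq_ncard (F.S y q r) (F.S y p q) hB
  rw [Set.inter_comm] at h4
  rw [← h3, ← h4]
  push_cast
  have h5 : ∀ u : ZMod 2, u + u = 0 := by decide
  have h6 := h5 ((F.S y p q ∩ F.S y q r).ncard : ZMod 2)
  linear_combination -h6

theorem S_symm (y : Γ) (p q : V) : F.S y p q = F.S y q p := by
  ext z
  exact ⟨fun h => ⟨h.1, by rw [mul_comm]; exact h.2⟩, fun h => ⟨h.1, by rw [mul_comm]; exact h.2⟩⟩

namespace NC4

theorem B_neg_right (u v : V) : B u (-v) = -B u v := by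
  have := B_smul_right (-1) v u
  rw [neg_one_smul, neg_one_mul] at this
  exact this

theorem tr {z' : Γ} (hz' : z' ≠ 1) (x : Γ) : ∃ ε : ℝ, (ε = 1 ∨ ε = -1) ∧
    ∀ v, B (F.ρ x v) (F.nor (x * z' * x⁻¹)) = ε * B v (F.nor z') := by
  rcases F.nor_conj x hz' with h | h
  · refine ⟨1, Or.inl rfl, fun v => ?_⟩
    rw [h, F.pres, one_mul]
  · refine ⟨-1, Or.inr rfl, fun v => ?_⟩
    rw [h, B_neg_right, F.pres, neg_one_mul]

theorem act_B (x : Γ) (u : Cir) (n : V) : ∃ c : ℝ, 0 < c ∧
    B (F.act x u).1 n = c * B (F.ρ x u.1) n := by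
  refine ⟨((F.ρ x u.1) 2)⁻¹, inv_pos.2 (F.map_light x u).2, ?_⟩
  exact B_smul_left _ _ _

theorem cj_ne {y z : Γ} (hy : y ≠ 1) (hz : z ∈ cj y) : z ≠ 1 := by
  obtain ⟨g, rfl⟩ := hz
  exact Circ.SS1.conj_ne g hy

theorem cj_conj {y z : Γ} (hz : z ∈ cj y) (x : Γ) : x * z * x⁻¹ ∈ cj y := by
  obtain ⟨g, rfl⟩ := hz
  exact ⟨x * g, by group⟩

theorem side_iff {y : Γ} (hy : y ≠ 1) (τ : ℝ) (w : Cir) :
    F.circ.side y τ w ↔ 0 < τ * B w.1 (F.nor y) := by
  have hs : ∀ w : Cir, w ≠ F.att y → ∃ c : ℝ, 0 < c ∧ F.circ.s y w = c * B w.1 (F.nor y) := by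
    intro w hw
    have h1 := Cir.neg hw
    refine ⟨-(B w.1 (F.att y).1)⁻¹, by rw [neg_pos]; exact inv_lt_zero.2 h1, ?_⟩
    change -(B w.1 (F.nor y)) / B w.1 (F.att y).1 = _
    ring
  constructor
  · rintro ⟨hw, h⟩
    obtain ⟨c, hc, hcs⟩ := hs w hw
    rw [hcs] at h
    have h2 : 0 < c * (τ * B w.1 (F.nor y)) := by linarith
    exact (mul_pos_iff_of_pos_left hc).1 h2
  · intro h
    have hw : w ≠ F.att y := by
      rintro rfl
      rw [(F.data hy).un, mul_zero] at h
      exact lt_irrefl _ h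
    obtain ⟨c, hc, hcs⟩ := hs w hw
    refine ⟨hw, ?_⟩
    rw [hcs]
    have h2 := mul_pos hc h
    linarith

theorem nor_ne {z : Γ} (hz : z ≠ 1) {w : Cir} (h1 : w ≠ F.att z) (h2 : w ≠ F.att z⁻¹) :
    B w.1 (F.nor z) ≠ 0 := by
  intro h
  apply h2
  refine F.circ.s_inj z w (F.att z⁻¹) hz h1 (F.att_ne hz) ?_
  have h3 : F.circ.s z (F.att z⁻¹) = 0 := F.circ.s_rep z hz
  rw [h3]
  change -(B w.1 (F.nor z)) / B w.1 (F.att z).1 = 0
  rw [h, neg_zero, zero_div]

theorem sep_iff {z : Γ} (hz : z ≠ 1) (c d : Cir) :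
    F.circ.sep (F.circ.att z) (F.circ.att z⁻¹) c d ↔ B c.1 (F.nor z) * B d.1 (F.nor z) < 0 :=
  Cir.sep_iff_nor (F.att_ne hz).symm (F.data hz).hn (F.data hz).un (F.data hz).wn

theorem fam {y : Γ} (hs : F.circ.Simple y) : F.Fam (cj y) where
  ne z hz := cj_ne hs.ne hz
  nolink := by
    rintro z ⟨g, rfl⟩ z' ⟨g', rfl⟩
    have h1 := (Circ.simple_conj hs g).nolink (g' * g⁻¹)
    have h2 : g' * g⁻¹ * (g * y * g⁻¹) * (g' * g⁻¹)⁻¹ = g' * y * g'⁻¹ := by group
    rwa [h2] at h1
  ends := by
    rintro z ⟨g, rfl⟩ z' ⟨g', rfl⟩ h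
    exact Circ.eq_or_inv (Circ.simple_conj hs g) (Circ.simple_conj hs g') h
  fin := ⟨{y}, by
    intro e he
    rw [Finset.mem_singleton] at he
    rw [he]
    exact hs.ne, fun z hz => ⟨y, Finset.mem_singleton_self y, hz⟩⟩

end NC4

open NC4

theorem Gen.act {y : Γ} (hy : y ≠ 1) {p : V} (hp : F.Gen y p) (g : Γ) :
    F.Gen y (F.ρ g p) := by
  refine ⟨F.fut g p hp.1, fun z hz => ?_⟩
  have hz' : g⁻¹ * z * g ∈ cj y := by
    have := cj_conj hz g⁻¹
    rwa [inv_inv] at this
  obtain ⟨ε, hε, h⟩ := tr F (cj_ne hy hz') g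
  have h2 : g * (g⁻¹ * z * g) * g⁻¹ = z := by group
  rw [h2] at h
  rw [h]
  have hε0 : ε ≠ 0 := by rcases hε with rfl | rfl <;> norm_num
  exact mul_ne_zero hε0 (hp.2 _ hz')

namespace NC4

theorem S_act {y : Γ} (hy : y ≠ 1) (p q : V) (g : Γ) :
    (F.S y (F.ρ g p) (F.ρ g q)).ncard = (F.S y p q).ncard := by
  have h1 : F.S y (F.ρ g p) (F.ρ g q) = (fun z => g * z * g⁻¹) '' F.S y p q := by
    ext z
    constructor
    · intro hz
      have hz' : g⁻¹ * z * g ∈ cj y := by
        have := cj_conj hz.1 g⁻¹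
        rwa [inv_inv] at this
      have e : g * (g⁻¹ * z * g) * g⁻¹ = z := by group
      refine ⟨g⁻¹ * z * g, ⟨hz', ?_⟩, e⟩
      obtain ⟨ε, hε, h⟩ := tr F (cj_ne hy hz') g
      rw [e] at h
      have h3 := hz.2
      rw [h, h] at h3
      rcases hε with rfl | rfl <;> linarith
    · rintro ⟨z', hz', rfl⟩
      refine ⟨cj_conj hz'.1 g, ?_⟩
      obtain ⟨ε, hε, h⟩ := tr F (cj_ne hy hz'.1) g
      rw [h, h]
      have h3 := hz'.2
      rcases hε with rfl | rfl <;> linarith
  rw [h1]
  refine Set.ncard_image_of_injective _ fun a b hab => ?_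
  have h2 : g * a = g * b := mul_right_cancel hab
  exact mul_left_cancel h2

theorem two (u : ZMod 2) : u + u = 0 := by revert u; decide

/-- independence of the base point -/
theorem indep {y : Γ} (hy : y ≠ 1) {p q : V} (hp : F.Gen y p) (hq : F.Gen y q) (x : Γ) :
    ((F.S y p (F.ρ x p)).ncard : ZMod 2) = (F.S y q (F.ρ x q)).ncard := by
  have hxp := Gen.act F hy hp x
  have hxq := Gen.act F hy hq x
  have h1 := F.S_add hy hp hxp hxq
  have h2 := F.S_add hy hp hq hxq
  have h3 := S_act F hy p q x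
  rw [h3, h2] at h1
  have h4 := two ((F.S y p q).ncard : ZMod 2)
  linear_combination -h1

/-- additivity -/
theorem hom {y : Γ} (hy : y ≠ 1) {p : V} (hp : F.Gen y p) (x x' : Γ) :
    ((F.S y p (F.ρ (x * x') p)).ncard : ZMod 2) =
      (F.S y p (F.ρ x p)).ncard + (F.S y p (F.ρ x' p)).ncard := by
  have h1 := F.S_add hy hp (Gen.act F hy hp x) (Gen.act F hy hp (x * x'))
  have h2 : F.ρ (x * x') p = F.ρ x (F.ρ x' p) := by rw [map_mul]; rfl
  rw [h2] at h1 ⊢
  rw [S_act F hy p (F.ρ x' p) x] at h1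
  exact h1

theorem self_empty (y : Γ) (p : V) : F.S y p p = ∅ := by
  ext z
  constructor
  · intro h
    have h1 := h.2
    have h2 := mul_self_nonneg (B p (F.nor z))
    exact absurd h1 (not_lt.2 h2)
  · intro h
    exact absurd h (Set.notMem_empty z)

theorem fix_nor {y : Γ} (hy : y ≠ 1) {x : Γ} (hx : x ∈ Subgroup.zpowers y) :
    F.ρ x (F.nor y) = F.nor y := by
  have h1 : F.ρ y (F.nor y) = F.nor y := (F.data hy).Ln
  let K : Subgroup Γ :=
    { carrier := {x | F.ρ x (F.nor y) = F.nor y}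
      one_mem' := by
        show F.ρ 1 (F.nor y) = F.nor y
        rw [map_one]; rfl
      mul_mem' := by
        intro a b ha hb
        show F.ρ (a * b) (F.nor y) = F.nor y
        rw [map_mul]
        show F.ρ a (F.ρ b (F.nor y)) = F.nor y
        rw [show F.ρ b (F.nor y) = F.nor y from hb]
        exact ha
      inv_mem' := by
        intro a ha
        show F.ρ a⁻¹ (F.nor y) = F.nor y
        have h2 : F.ρ a (F.nor y) = F.nor y := ha
        have h3 : F.ρ a⁻¹ (F.ρ a (F.nor y)) = F.nor y := by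
          have h4 : F.ρ a⁻¹ (F.ρ a (F.nor y)) = F.ρ (a⁻¹ * a) (F.nor y) := by
            rw [map_mul]; rfl
          rw [h4, inv_mul_cancel, map_one]; rfl
        rwa [h2] at h3 }
  have h2 : Subgroup.zpowers y ≤ K := Subgroup.zpowers_le.2 h1
  exact h2 hx

theorem sgn_trans {a b c : ℝ} (h1 : 0 < a * b) (h2 : 0 < b * c) : 0 < a * c := by
  have h3 := mul_pos h1 h2
  have hb : 0 < b ^ 2 := by
    have : b ≠ 0 := by
      rintro rfl
      simp at h1
    positivity
  have h4 : a * b * (b * c) = b ^ 2 * (a * c) := by ring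
  rw [h4] at h3
  exact (mul_pos_iff_of_pos_left hb).1 h3

/-- the special point -/
theorem special {y : Γ} {A C : Subgroup Γ} {σ : ℝ} (h : F.circ.Split y A C σ) :
    ∃ p, F.Gen y p ∧ ∀ x ∈ A, F.S y p (F.ρ x p) = ∅ := by
  have hy := h.ne
  have hs := h.simple
  have hfam := fam F hs
  have hyD : y ∈ cj y := ⟨1, by group⟩
  obtain ⟨a0, ha0, ha0z⟩ := h.nA
  have hL0 : F.circ.side y σ (F.circ.att (a0 * y * a0⁻¹)) :=
    h.pa a0 ha0 ha0z y hy (Circ.SS1.no_side hy σ)
  obtain ⟨L, hL, hLs, hLb⟩ := Fam.adjacent F hfam hyD ⟨a0, rfl⟩ h.sgn hL0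
  have hLy : L ≠ y := by
    rintro rfl
    exact Circ.SS1.no_side hy σ hLs
  have hLy' : L ≠ y⁻¹ := by
    rintro rfl
    exact Circ.SS1.no_side' hy σ hLs
  obtain ⟨p, hp, hp1, hp2, hp3⟩ := Fam.good F hfam hyD hL hLy hLy' hLb
  have hgen : F.Gen y p := by
    refine ⟨hp, fun z hz h0 => ?_⟩
    have := hp3 z hz
    rw [h0] at this
    norm_num at this
  have hinv : ∀ z ∈ cj y, z ≠ y⁻¹ := by
    rintro z ⟨g, rfl⟩
    exact Circ.not_conj_inv F.circ hy g
  have P1 : 0 < σ * B p (F.nor y) := by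
    rw [side_iff F hy] at hLs
    have h1 : 0 < B p (F.nor y) * B (F.att L).1 (F.nor y) := hp1
    rw [mul_comm] at hLs
    have := sgn_trans h1 hLs
    rwa [mul_comm] at this
  have P2 : ∀ z ∈ cj y, z ≠ y → 0 < B p (F.nor z) * B (F.att y).1 (F.nor z) :=
    fun z hz hzy => hp2 z hz hzy (hinv z hz)
  -- translates
  have T2 : ∀ x : Γ, ∀ z ∈ cj y, z ≠ x * y * x⁻¹ →
      0 < B (F.ρ x p) (F.nor z) * B (F.att (x * y * x⁻¹)).1 (F.nor z) := by
    intro x z hz hzx
    have hz' : x⁻¹ * z * x ∈ cj y := by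
      have := cj_conj hz x⁻¹
      rwa [inv_inv] at this
    have e : x * (x⁻¹ * z * x) * x⁻¹ = z := by group
    have hne : x⁻¹ * z * x ≠ y := by
      intro h1
      apply hzx
      rw [← h1, e]
    obtain ⟨ε, hε, ht⟩ := tr F (cj_ne hy hz') x
    rw [e] at ht
    obtain ⟨c, hc, hact⟩ := act_B F x (F.att y) (F.nor z)
    rw [F.att_conj x hy, hact, ht, ht]
    have h1 := P2 _ hz' hne
    have h2 := mul_pos hc h1
    rcases hε with rfl | rfl <;> linarith
  refine ⟨p, hgen, fun x hx => ?_⟩
  rw [Set.eq_empty_iff_forall_notMem]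
  rintro z ⟨hz, hneg⟩
  have hz1 := cj_ne hy hz
  by_cases hxz : x ∈ Subgroup.zpowers y
  · have hcomm : x * y * x⁻¹ = y := Circ.SS1.zp_conj hxz
    by_cases hzy : z = y
    · rw [hzy] at hneg
      have h1 : B (F.ρ x p) (F.nor y) = B p (F.nor y) := by
        conv_lhs => rw [← fix_nor F hy hxz]
        rw [F.pres]
      rw [h1] at hneg
      exact absurd hneg (not_lt.2 (mul_self_nonneg _))
    · have h1 := P2 z hz hzy
      have h2 := T2 x z hz (by rw [hcomm]; exact hzy)
      rw [hcomm, mul_comm] at h2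
      have h3 := sgn_trans h1 h2
      linarith
  · have hne : x * y * x⁻¹ ≠ y := by
      intro h1
      apply hxz
      apply hs.cent
      calc x * y = x * y * x⁻¹ * x := by group
        _ = y * x := by rw [h1]
    have hxD : x * y * x⁻¹ ∈ cj y := ⟨x, rfl⟩
    have hx1 : x * y * x⁻¹ ≠ 1 := cj_ne hy hxD
    by_cases hzy : z = y
    · subst hzy
      have h1 := T2 x z hz (Ne.symm hne)
      have h2 : F.circ.side z σ (F.circ.att (x * z * x⁻¹)) :=
        h.pa x hx hxz z hy (Circ.SS1.no_side hy σ)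
      rw [side_iff F hy] at h2
      have h3 : 0 < B (F.att (x * z * x⁻¹)).1 (F.nor z) * σ := by
        rw [mul_comm]; exact h2
      have h4 := sgn_trans (sgn_trans h1 h3) P1
      rw [mul_comm] at h4
      linarith
    · by_cases hzx : z = x * y * x⁻¹
      · have h1 := P2 z hz hzy
        have hxinv : x⁻¹ ∉ Subgroup.zpowers y := fun hh => hxz (by simpa using hh)
        have h2 : F.circ.side y σ (F.circ.att (x⁻¹ * y * x⁻¹⁻¹)) :=
          h.pa x⁻¹ (inv_mem hx) hxinv y hy (Circ.SS1.no_side hy σ)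
        rw [side_iff F hy, mul_comm] at h2
        have h3 : 0 < B p (F.nor y) * B (F.circ.att (x⁻¹ * y * x⁻¹⁻¹)).1 (F.nor y) := by
          have h4 : 0 < B p (F.nor y) * σ := by rw [mul_comm]; exact P1
          rw [mul_comm] at h2
          exact sgn_trans h4 h2
        obtain ⟨ε, hε, ht⟩ := tr F hy x
        rw [← hzx] at ht
        obtain ⟨c, hc, hact⟩ := act_B F x (F.att (x⁻¹ * y * x⁻¹⁻¹)) (F.nor z)
        have e2 : x * (x⁻¹ * y * x⁻¹⁻¹) * x⁻¹ = y := by group
        have e3 : F.act x (F.att (x⁻¹ * y * x⁻¹⁻¹)) = F.att y := by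
          rw [← F.att_conj x (Circ.SS1.conj_ne x⁻¹ hy), e2]
        rw [e3, ht] at hact
        have h5 : 0 < B (F.att y).1 (F.nor z) * B (F.ρ x p) (F.nor z) := by
          rw [hact, ht]
          have h6 := mul_pos hc h3
          have h7 : 0 < c * (B p (F.nor y) * B (F.att (x⁻¹ * y * x⁻¹⁻¹)).1 (F.nor y)) := h6
          rcases hε with rfl | rfl <;> linarith
        have h6 := sgn_trans h1 h5
        linarith
      · have h1 := P2 z hz hzy
        have h2 := T2 x z hz hzx
        -- the sign at the other ends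
        have hend : ∀ w ∈ cj y, z ≠ w → z ≠ w⁻¹ →
            0 < B (F.att w).1 (F.nor z) * B (F.att w⁻¹).1 (F.nor z) := by
          intro w hw hzw hzw'
          have hw1 := cj_ne hy hw
          have k0 : ∀ u : Γ, (u = w ∨ u = w⁻¹) → B (F.att u).1 (F.nor z) ≠ 0 := by
            intro u hu
            refine nor_ne F hz1 ?_ ?_
            · intro he
              rcases hu with rfl | rfl
              · rcases hfam.ends z hz u hw (Or.inl he.symm) with h5 | h5
                · exact hzw h5.symm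
                · exact hzw' (by rw [h5, inv_inv])
              · rcases hfam.ends z hz w hw (Or.inr (Or.inr (Or.inl he.symm))) with h5 | h5
                · exact hzw h5.symm
                · exact hzw' (by rw [h5, inv_inv])
            · intro he
              rcases hu with rfl | rfl
              · rcases hfam.ends z hz u hw (Or.inr (Or.inl he.symm)) with h5 | h5
                · exact hzw h5.symm
                · exact hzw' (by rw [h5, inv_inv])
              · rcases hfam.ends z hz w hw (Or.inr (Or.inr (Or.inr he.symm))) with h5 | h5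
                · exact hzw h5.symm
                · exact hzw' (by rw [h5, inv_inv])
          have k1 : ¬ (B (F.att w).1 (F.nor z) * B (F.att w⁻¹).1 (F.nor z) < 0) := by
            intro hlt
            exact hfam.nolink z hz w hw ((sep_iff F hz1 _ _).2 hlt)
          have k2 : B (F.att w).1 (F.nor z) * B (F.att w⁻¹).1 (F.nor z) ≠ 0 :=
            mul_ne_zero (k0 w (Or.inl rfl)) (k0 w⁻¹ (Or.inr rfl))
          exact lt_of_le_of_ne (not_lt.1 k1) (Ne.symm k2)
        have hzx' : z ≠ (x * y * x⁻¹)⁻¹ := by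
          intro he
          obtain ⟨g, hg⟩ := hz
          have h5 : (x⁻¹ * g) * y * (x⁻¹ * g)⁻¹ = y⁻¹ := by
            have h6 : x⁻¹ * (g * y * g⁻¹) * x = (x⁻¹ * g) * y * (x⁻¹ * g)⁻¹ := by group
            rw [← h6, ← hg, he]
            group
          exact Circ.not_conj_inv F.circ hy _ h5
        have hey := hend y hyD hzy (hinv z hz)
        have hex := hend (x * y * x⁻¹) hxD hzx hzx'
        by_cases hyx : B (F.att y).1 (F.nor z) * B (F.att (x * y * x⁻¹)).1 (F.nor z) < 0
        · obtain ⟨g, hg⟩ := hz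
          have hnb := h.adj hx g
          rw [← hg] at hnb
          apply hnb
          have neg_of : ∀ a b c d : ℝ, 0 < a * b → 0 < c * d → a * c < 0 → b * d < 0 := by
            intro a b c d k1 k2 k3
            by_contra k4
            have k5 : 0 ≤ b * d := not_lt.1 k4
            have k6 : 0 < a * b * (c * d) := mul_pos k1 k2
            have k7 : a * b * (c * d) = (a * c) * (b * d) := by ring
            rw [k7] at k6
            have := mul_nonpos_of_nonpos_of_nonneg k3.le k5
            linarith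
          have hyy : 0 < B (F.att y).1 (F.nor z) * B (F.att y).1 (F.nor z) :=
            mul_self_pos.2 (left_ne_zero_of_mul hey.ne')
          have hxx : 0 < B (F.att (x * y * x⁻¹)).1 (F.nor z) *
              B (F.att (x * y * x⁻¹)).1 (F.nor z) :=
            mul_self_pos.2 (left_ne_zero_of_mul hex.ne')
          refine ⟨(sep_iff F hz1 _ _).2 hyx, (sep_iff F hz1 _ _).2 ?_,
            (sep_iff F hz1 _ _).2 ?_, (sep_iff F hz1 _ _).2 ?_⟩
          · exact neg_of _ _ _ _ hey hex hyx
          · exact neg_of _ _ _ _ hey hxx hyx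
          · exact neg_of _ _ _ _ hyy hex hyx
        · have h5 : 0 < B (F.att y).1 (F.nor z) * B (F.att (x * y * x⁻¹)).1 (F.nor z) :=
            lt_of_le_of_ne (not_lt.1 hyx) (Ne.symm (mul_ne_zero (left_ne_zero_of_mul hey.ne')
              (left_ne_zero_of_mul hex.ne')))
          rw [mul_comm] at h2
          have h6 := sgn_trans (sgn_trans h1 h5) h2
          linarith

end NC4

theorem parity {y : Γ} {A C : Subgroup Γ} {σ : ℝ} (h : F.circ.Split y A C σ) {p : V}
    (hp : F.Gen y p) (x : Γ) : ((F.S y p (F.ρ x p)).ncard : ZMod 2) = 0 := by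
  have hy := h.ne
  obtain ⟨pA, hpA, hA⟩ := special F h
  obtain ⟨pC, hpC, hC⟩ := special F h.swap
  let K : Subgroup Γ :=
    { carrier := {x | ((F.S y p (F.ρ x p)).ncard : ZMod 2) = 0}
      one_mem' := by
        show ((F.S y p (F.ρ 1 p)).ncard : ZMod 2) = 0
        have h1 : F.ρ 1 p = p := by rw [map_one]; rfl
        rw [h1, self_empty, Set.ncard_empty, Nat.cast_zero]
      mul_mem' := by
        intro a b ha hb
        show ((F.S y p (F.ρ (a * b) p)).ncard : ZMod 2) = 0
        rw [hom F hy hp, show ((F.S y p (F.ρ a p)).ncard : ZMod 2) = 0 from ha,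
          show ((F.S y p (F.ρ b p)).ncard : ZMod 2) = 0 from hb, add_zero]
      inv_mem' := by
        intro a ha
        show ((F.S y p (F.ρ a⁻¹ p)).ncard : ZMod 2) = 0
        have h1 := hom F hy hp a a⁻¹
        rw [mul_inv_cancel, show ((F.S y p (F.ρ a p)).ncard : ZMod 2) = 0 from ha, zero_add] at h1
        have h2 : F.ρ 1 p = p := by rw [map_one]; rfl
        rw [h2, self_empty, Set.ncard_empty, Nat.cast_zero] at h1
        exact h1.symm }
  have hAK : A ≤ K := by
    intro x hx
    show ((F.S y p (F.ρ x p)).ncard : ZMod 2) = 0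
    rw [indep F hy hp hpA, hA x hx, Set.ncard_empty, Nat.cast_zero]
  have hCK : C ≤ K := by
    intro x hx
    show ((F.S y p (F.ρ x p)).ncard : ZMod 2) = 0
    rw [indep F hy hp hpC, hC x hx, Set.ncard_empty, Nat.cast_zero]
  have h1 : (⊤ : Subgroup Γ) ≤ K := by
    rw [← h.gen]
    exact sup_le hAK hCK
  exact h1 (Subgroup.mem_top x)

end Fuchs

end Pool.Agent.LDJ
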