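import Pool.Agent.LDJ.FBas

/-!
LDJ.FPack: packing bound.

PROOF. Let `c ≥ 1` be from `cocpt`. Replace every `p ∈ P` by `p' = ρ g p` with `-B p' o ≤ c`
(`cocpt` gives `g` with `-B p (ρ g o) ≤ c`, apply `ρ g⁻¹`). For `p ≠ q` in `P`: `-B p' q' ≥ 5/3`
(`-B (ρ g p) (ρ h q) = -B p (ρ (g⁻¹h) q)`). The first two coordinates of `p'` are bounded by `c`, and
`-B p' q' = 1 + B (p'-q') (p'-q') / 2`, so the points `p'` lie in different squares of side `1/2`
(of the first two coordinates). The number of these squares bounds `#P`.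
-/

namespace Pool.Agent.LDJ

theorem Fuchs.packing {Γ : Type} [Group Γ] (F : Fuchs Γ) :
    ∃ ν : ℕ, ∀ P : Finset V, (∀ p ∈ P, p ∈ Hyp) →
      (∀ p ∈ P, ∀ q ∈ P, p ≠ q → ∀ g, 5 / 3 ≤ -B p (F.ρ g q)) → P.card ≤ ν := by
  classical
  obtain ⟨c, hc⟩ := F.cocpt
  set N : ℤ := ⌈2 * |c|⌉ + 1 with hN
  refine ⟨((Finset.Icc (-N) N) ×ˢ (Finset.Icc (-N) N)).card, fun P hP hsep => ?_⟩
  -- the translates
  have hex : ∀ p : V, ∃ g : Γ, p ∈ Hyp → -B p (F.ρ g o) ≤ c := by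
    intro p
    by_cases hp : p ∈ Hyp
    · obtain ⟨g, hg⟩ := hc p hp
      exact ⟨g, fun _ => hg⟩
    · exact ⟨1, fun h => absurd h hp⟩
  choose g hg using hex
  set p' : V → V := fun p => F.ρ (g p)⁻¹ p with hp'
  have hmem : ∀ p ∈ Hyp, p' p ∈ Hyp := fun p hp => F.fut _ p hp
  have hinv : ∀ (h : Γ) (x : V), F.ρ h (F.ρ h⁻¹ x) = x := by
    intro h x
    have : (F.ρ h * F.ρ h⁻¹) x = x := by
      rw [← map_mul, mul_inv_cancel, map_one]
      rfl
    exact this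
  have hthird : ∀ p ∈ Hyp, (p' p) 2 ≤ c := by
    intro p hp
    have h1 := hg p hp
    have h2 : B p (F.ρ (g p) o) = B (p' p) o := by
      rw [← F.pres (g p) (p' p) o, hp', hinv]
    rw [h2] at h1
    have h3 : B (p' p) o = -(p' p) 2 := by
      simp [B, o]
    rw [h3] at h1
    linarith
  have hcoord : ∀ p ∈ Hyp, |(p' p) 0| ≤ |c| ∧ |(p' p) 1| ≤ |c| := by
    intro p hp
    have h1 := hthird p hp
    obtain ⟨h2, h3⟩ := hmem p hp
    have h4 : (p' p) 0 * (p' p) 0 + (p' p) 1 * (p' p) 1 - (p' p) 2 * (p' p) 2 = -1 := h2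
    have h5 : 0 < c := lt_of_lt_of_le h3 h1
    have h6 : (p' p) 2 * (p' p) 2 ≤ c * c := mul_self_le_mul_self h3.le h1
    constructor
    · apply sq_le_sq.1
      nlinarith [mul_self_nonneg ((p' p) 1)]
    · apply sq_le_sq.1
      nlinarith [mul_self_nonneg ((p' p) 0)]
  have hfar : ∀ p ∈ P, ∀ q ∈ P, p ≠ q → 5 / 3 ≤ -B (p' p) (p' q) := by
    intro p hp q hq hpq
    have h1 := hsep p hp q hq hpq (g p * (g q)⁻¹)
    have h2 : B p (F.ρ (g p * (g q)⁻¹) q) = B (p' p) (p' q) := by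
      rw [← F.pres (g p) (p' p) (p' q), hp', hinv, map_mul]
      rfl
    rwa [h2] at h1
  refine Finset.card_le_card_of_injOn (fun p => (⌊2 * (p' p) 0⌋, ⌊2 * (p' p) 1⌋)) ?_ ?_
  · intro p hp
    obtain ⟨h1, h2⟩ := hcoord p (hP p hp)
    have hb : ∀ t : ℝ, |t| ≤ |c| → ⌊2 * t⌋ ∈ Finset.Icc (-N) N := by
      intro t ht
      rw [abs_le] at ht
      rw [Finset.mem_Icc]
      have h3 : 2 * |c| ≤ (⌈2 * |c|⌉ : ℝ) := Int.le_ceil _
      constructor
      · rw [Int.le_floor]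
        push_cast [hN]
        linarith [ht.1]
      · have h4 : (⌊2 * t⌋ : ℝ) ≤ 2 * t := Int.floor_le _
        have h5 : (⌊2 * t⌋ : ℝ) ≤ N := by
          push_cast [hN]
          linarith [ht.2]
        exact_mod_cast h5
    simp only [Finset.coe_product, Set.mem_prod, Finset.mem_coe]
    exact ⟨hb _ h1, hb _ h2⟩
  · intro p hp q hq hpq
    by_contra hne
    have h1 := hfar p hp q hq hne
    simp only [Prod.mk.injEq] at hpq
    have hd : ∀ a b : ℝ, ⌊2 * a⌋ = ⌊2 * b⌋ → (a - b) ^ 2 ≤ 1 / 4 := by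
      intro a b hab
      have e1 := Int.floor_le (2 * a)
      have e2 := Int.lt_floor_add_one (2 * a)
      have e3 := Int.floor_le (2 * b)
      have e4 := Int.lt_floor_add_one (2 * b)
      rw [hab] at e1 e2
      have e5 : a - b ≤ 1 / 2 := by linarith
      have e6 : -(1 / 2) ≤ a - b := by linarith
      nlinarith
    have d0 := hd _ _ hpq.1
    have d1 := hd _ _ hpq.2
    have hpm : (p' p) 0 * (p' p) 0 + (p' p) 1 * (p' p) 1 - (p' p) 2 * (p' p) 2 = -1 :=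
      (hmem p (hP p hp)).1
    have hqm : (p' q) 0 * (p' q) 0 + (p' q) 1 * (p' q) 1 - (p' q) 2 * (p' q) 2 = -1 :=
      (hmem q (hP q hq)).1
    have hB : B (p' p) (p' q) = (p' p) 0 * (p' q) 0 + (p' p) 1 * (p' q) 1 -
      (p' p) 2 * (p' q) 2 := rfl
    rw [hB] at h1
    nlinarith [sq_nonneg ((p' p) 2 - (p' q) 2)]

end Pool.Agent.LDJ
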