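import Pool.Agent.LDJ.SSplit1

/-!
LDJ.SSplit2: splittings are carried by automorphisms.

PROOF. Let `a0 ∈ A \ Z` (`nA`) and `x0 = a0 y a0⁻¹`; `att x0` is on side `σ` of `y` (`pa` with
`x = y`). `att (φ x0)` is not an end of `φ y`: `att (φ x0) = att (φ y)` gives by `comm` (for the
images; `φ x0 ^ m = φ y ^ n`) `x0 ^ m = y ^ n` and `att x0 = att y` (`att_pow`), impossible; the
same for `y⁻¹`. So `s (φ y) (att (φ x0)) ≠ 0` (`s_inj`, `s_rep`); let `σ' = ±1` be its sign.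
Claim: for `x ≠ 1`: `side y σ (att x) ↔ side (φ y) σ' (att (φ x))`, and
`side y (-σ) (att x) ↔ side (φ y) (-σ') (att (φ x))`. Indeed `att x` is an end of `y` iff
`att (φ x)` is an end of `φ y` (by `comm`, `att_pow` as above), and otherwise `att x` and `att x0`
are on different sides of `y` iff `sep (att y) (att y⁻¹) (att x) (att x0)` (`sep_inf` with
`s (att y⁻¹) = 0`: the product of the two values is `< 0`), which is preserved by `φ` and `φ⁻¹`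
(`si`).
Then `pa`, `pb` for `φ y` follow from those of `y`: for `a' = φ a`, `x' = φ x`,
`a' x' a'⁻¹ = φ (a x a⁻¹)`. `gen`: `Subgroup.map_sup`, `map_top`. About 150 lines.
-/

namespace Pool.Agent.LDJ

namespace Circ

variable {Γ : Type} [Group Γ] {Q : Circ Γ}


theorem ss2_aut_ne {x : Γ} (φ : MulAut Γ) (hx : x ≠ 1) : φ x ≠ 1 := by
  intro h
  apply hx
  have h2 : φ x = φ 1 := by rw [h, map_one]
  exact φ.injective h2

theorem ss2_inv_ne {x : Γ} (hx : x ≠ 1) : x⁻¹ ≠ 1 := inv_ne_one.2 hx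

theorem ss2_conj_ne {x : Γ} (a : Γ) (hx : x ≠ 1) : a * x * a⁻¹ ≠ 1 := by
  intro h
  apply hx
  have h2 : a * x = a := by
    have h3 := congrArg (fun t => t * a) h
    simpa using h3
  exact mul_eq_left.1 h2

theorem ss2_att_of_pow {x y : Γ} (hx : x ≠ 1) (hy : y ≠ 1) {m n : ℕ} (hm : 0 < m) (hn : 0 < n)
    (h : x ^ m = y ^ n) : Q.att x = Q.att y := by
  rw [← Q.att_pow x hx m hm, ← Q.att_pow y hy n hn, h]

theorem att_aut {x y : Γ} (φ : MulAut Γ) (hx : x ≠ 1) (hy : y ≠ 1) :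
    Q.att (φ x) = Q.att (φ y) ↔ Q.att x = Q.att y := by
  constructor
  · intro h
    obtain ⟨m, n, hm, hn, h2⟩ := Q.comm _ _ (ss2_aut_ne φ hx) (ss2_aut_ne φ hy) h
    rw [← map_pow, ← map_pow] at h2
    exact ss2_att_of_pow hx hy hm hn (φ.injective h2)
  · intro h
    obtain ⟨m, n, hm, hn, h2⟩ := Q.comm _ _ hx hy h
    have h3 : (φ x) ^ m = (φ y) ^ n := by rw [← map_pow, ← map_pow, h2]
    exact ss2_att_of_pow (ss2_aut_ne φ hx) (ss2_aut_ne φ hy) hm hn h3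

theorem ss2_sep_aut {x y z t : Γ} (φ : MulAut Γ) (hx : x ≠ 1) (hy : y ≠ 1) (hz : z ≠ 1)
    (ht : t ≠ 1) :
    Q.sep (Q.att (φ x)) (Q.att (φ y)) (Q.att (φ z)) (Q.att (φ t)) ↔
      Q.sep (Q.att x) (Q.att y) (Q.att z) (Q.att t) := by
  constructor
  · intro h
    have h2 := Q.si φ⁻¹ _ _ _ _ (ss2_aut_ne φ hx) (ss2_aut_ne φ hy) (ss2_aut_ne φ hz) (ss2_aut_ne φ ht) h
    rwa [MulAut.inv_apply_self, MulAut.inv_apply_self, MulAut.inv_apply_self,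
      MulAut.inv_apply_self] at h2
  · intro h
    exact Q.si φ _ _ _ _ hx hy hz ht h

theorem ss2_side_neg_iff {y : Γ} (hy : y ≠ 1) {σ : ℝ} {w0 : Q.C} (h0 : Q.side y σ w0) (w : Q.C) :
    Q.side y (-σ) w ↔ Q.sep (Q.att y) (Q.att y⁻¹) w w0 := by
  have hr : Q.s y (Q.att y⁻¹) = 0 := Q.s_rep y hy
  have hn : Q.att y⁻¹ ≠ Q.att y := Q.att_ne y hy
  have h1 := h0.2
  constructor
  · rintro ⟨hw, h2⟩
    rw [Q.sep_inf y hy _ _ _ hn hw h0.1, hr]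
    have h3 := mul_pos h2 h1
    have h4 : 0 < -(σ * σ * (Q.s y w * Q.s y w0)) := by nlinarith
    have h5 : σ * σ * (Q.s y w * Q.s y w0) < 0 := by linarith
    have h6 : 0 ≤ σ * σ := mul_self_nonneg σ
    by_contra h7
    have h8 : 0 ≤ Q.s y w * Q.s y w0 := by
      have : 0 ≤ (0 - Q.s y w) * (0 - Q.s y w0) := not_lt.1 h7
      linarith
    have := mul_nonneg h6 h8
    linarith
  · intro h
    have hw : w ≠ Q.att y := fun e => (Q.sep_ne _ _ _ _ h).2.1 e.symm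
    rw [Q.sep_inf y hy _ _ _ hn hw h0.1, hr] at h
    refine ⟨hw, ?_⟩
    have h3 : Q.s y w * Q.s y w0 < 0 := by linarith
    by_contra h4
    have h5 : 0 ≤ σ * Q.s y w := by linarith [not_lt.1 h4]
    have h6 := mul_nonneg h5 h1.le
    have h7 : 0 ≤ σ * σ * (Q.s y w * Q.s y w0) := by nlinarith
    have hs : σ ≠ 0 := by
      intro e
      rw [e, zero_mul] at h1
      exact lt_irrefl _ h1
    have h8 : 0 < σ * σ := mul_self_pos.2 hs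
    have := mul_neg_of_pos_of_neg h8 h3
    linarith

theorem ss2_side_pos_iff {y : Γ} (hy : y ≠ 1) {σ : ℝ} {w0 : Q.C} (h0 : Q.side y σ w0) (w : Q.C) :
    Q.side y σ w ↔
      w ≠ Q.att y ∧ w ≠ Q.att y⁻¹ ∧ ¬ Q.sep (Q.att y) (Q.att y⁻¹) w w0 := by
  have hr : Q.s y (Q.att y⁻¹) = 0 := Q.s_rep y hy
  have hn : Q.att y⁻¹ ≠ Q.att y := Q.att_ne y hy
  have h1 := h0.2
  have hs : σ ≠ 0 := by
    intro e
    rw [e, zero_mul] at h1
    exact lt_irrefl _ h1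
  rw [← ss2_side_neg_iff hy h0 w]
  constructor
  · rintro ⟨hw, h2⟩
    refine ⟨hw, ?_, ?_⟩
    · intro e
      rw [e, hr, mul_zero] at h2
      exact lt_irrefl _ h2
    · rintro ⟨_, h3⟩
      linarith
  · rintro ⟨hw, hw2, h3⟩
    refine ⟨hw, ?_⟩
    by_contra h4
    have h5 : Q.s y w ≠ 0 := by
      intro e
      apply hw2
      exact Q.s_inj y _ _ hy hw hn (by rw [e, hr])
    have h6 : σ * Q.s y w ≠ 0 := mul_ne_zero hs h5
    apply h3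
    refine ⟨hw, ?_⟩
    have h7 : σ * Q.s y w < 0 := lt_of_le_of_ne (not_lt.1 h4) h6
    linarith

/-- how sides correspond under an automorphism -/
theorem Split.side_aut {y : Γ} {A B : Subgroup Γ} {σ : ℝ} (h : Q.Split y A B σ) (φ : MulAut Γ) :
    ∃ σ' : ℝ, (σ' = 1 ∨ σ' = -1) ∧ (∀ x, x ≠ 1 →
      (Q.side y σ (Q.att x) ↔ Q.side (φ y) σ' (Q.att (φ x)))) ∧ (∀ x, x ≠ 1 →
      (Q.side y (-σ) (Q.att x) ↔ Q.side (φ y) (-σ') (Q.att (φ x)))) := by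
  obtain ⟨a0, ha0, ha0'⟩ := h.nA
  have hy := h.ne
  have hy' := ss2_inv_ne hy
  have hx0 : a0 * y * a0⁻¹ ≠ 1 := ss2_conj_ne a0 hy
  have h0 : Q.side y σ (Q.att (a0 * y * a0⁻¹)) := h.pa a0 ha0 ha0' y hy (fun hh => hh.1 rfl)
  set x0 := a0 * y * a0⁻¹ with hx0def
  have h1 := (ss2_side_pos_iff hy h0 (Q.att x0)).1 h0
  have hφy : φ y ≠ 1 := ss2_aut_ne φ hy
  have n1 : Q.att (φ x0) ≠ Q.att (φ y) := fun e => h1.1 ((att_aut φ hx0 hy).1 e)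
  have n2 : Q.att (φ x0) ≠ Q.att (φ y)⁻¹ := by
    rw [← map_inv]
    exact fun e => h1.2.1 ((att_aut φ hx0 hy').1 e)
  have n3 : Q.s (φ y) (Q.att (φ x0)) ≠ 0 := by
    intro e
    apply n2
    exact Q.s_inj (φ y) _ _ hφy n1 (Q.att_ne _ hφy) (by rw [e, Q.s_rep _ hφy])
  obtain ⟨σ', hσ', h2⟩ : ∃ σ' : ℝ, (σ' = 1 ∨ σ' = -1) ∧ 0 < σ' * Q.s (φ y) (Q.att (φ x0)) := by
    rcases lt_or_gt_of_ne n3 with h3 | h3
    · exact ⟨-1, Or.inr rfl, by linarith⟩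
    · exact ⟨1, Or.inl rfl, by linarith⟩
  have h0' : Q.side (φ y) σ' (Q.att (φ x0)) := ⟨n1, h2⟩
  refine ⟨σ', hσ', ?_, ?_⟩
  · intro x hx
    rw [ss2_side_pos_iff hy h0, ss2_side_pos_iff hφy h0', ← map_inv, ss2_sep_aut φ hy hy' hx hx0]
    have e1 := att_aut (Q := Q) φ hx hy
    have e2 := att_aut (Q := Q) φ hx hy'
    constructor
    · rintro ⟨a, b, d⟩
      exact ⟨fun e => a (e1.1 e), fun e => b (e2.1 e), d⟩
    · rintro ⟨a, b, d⟩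
      exact ⟨fun e => a (e1.2 e), fun e => b (e2.2 e), d⟩
  · intro x hx
    rw [ss2_side_neg_iff hy h0, ss2_side_neg_iff hφy h0', ← map_inv, ss2_sep_aut φ hy hy' hx hx0]

theorem ss2_aut_zpowers {y a : Γ} (φ : MulAut Γ) :
    φ a ∈ Subgroup.zpowers (φ y) ↔ a ∈ Subgroup.zpowers y := by
  rw [Subgroup.mem_zpowers_iff, Subgroup.mem_zpowers_iff]
  constructor
  · rintro ⟨k, hk⟩
    refine ⟨k, ?_⟩
    rw [← map_zpow] at hk
    exact φ.injective hk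
  · rintro ⟨k, hk⟩
    exact ⟨k, by rw [← map_zpow, hk]⟩

theorem ss2_aut_conj (φ : MulAut Γ) (a x : Γ) : φ (a * x * a⁻¹) = φ a * φ x * (φ a)⁻¹ := by
  rw [map_mul, map_mul, map_inv]

theorem Split.map {y : Γ} {A B : Subgroup Γ} {σ : ℝ} (h : Q.Split y A B σ) (φ : MulAut Γ) :
    ∃ σ' : ℝ, Q.Split (φ y) (A.map (φ : Γ →* Γ)) (B.map (φ : Γ →* Γ)) σ' ∧
      (∀ x, x ≠ 1 → (Q.side y σ (Q.att x) ↔ Q.side (φ y) σ' (Q.att (φ x)))) := by
  obtain ⟨σ', hσ', h1, h2⟩ := h.side_aut φ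
  refine ⟨σ', ?_, h1⟩
  have key : ∀ x' : Γ, x' ≠ 1 → ∃ x, x ≠ 1 ∧ φ x = x' := by
    intro x' hx'
    refine ⟨φ⁻¹ x', ss2_aut_ne _ hx', ?_⟩
    exact MulAut.apply_inv_self _ _ _
  constructor
  · exact hσ'
  · exact ss2_aut_ne φ h.ne
  · exact ⟨y, h.memA, rfl⟩
  · exact ⟨y, h.memB, rfl⟩
  · rw [← Subgroup.map_sup, h.gen]
    exact Subgroup.map_top_of_surjective _ φ.surjective
  · obtain ⟨a, ha, ha'⟩ := h.nA
    exact ⟨φ a, ⟨a, ha, rfl⟩, fun hh => ha' ((ss2_aut_zpowers φ).1 hh)⟩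
  · obtain ⟨a, ha, ha'⟩ := h.nB
    exact ⟨φ a, ⟨a, ha, rfl⟩, fun hh => ha' ((ss2_aut_zpowers φ).1 hh)⟩
  · rintro _ ⟨a, ha, rfl⟩ ha' x' hx' hs
    have ha2 : a ∉ Subgroup.zpowers y := fun hh => ha' ((ss2_aut_zpowers φ).2 hh)
    obtain ⟨x, hx, rfl⟩ := key x' hx'
    have h3 := h.pa a ha ha2 x hx (fun hh => hs ((h1 x hx).1 hh))
    have h4 := (h1 _ (ss2_conj_ne a hx)).1 h3
    rw [ss2_aut_conj] at h4
    exact h4
  · rintro _ ⟨a, ha, rfl⟩ ha' x' hx' hs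
    have ha2 : a ∉ Subgroup.zpowers y := fun hh => ha' ((ss2_aut_zpowers φ).2 hh)
    obtain ⟨x, hx, rfl⟩ := key x' hx'
    have h3 := h.pb a ha ha2 x hx (fun hh => hs ((h2 x hx).1 hh))
    have h4 := (h2 _ (ss2_conj_ne a hx)).1 h3
    rw [ss2_aut_conj] at h4
    exact h4

end Circ

end Pool.Agent.LDJ
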