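import Pool.Agent.LDJ.FNC4
import Pool.Agent.LDJ.FPack
import Pool.Agent.LDJ.SSplit2

/-!
LDJ.FNC5: the number of pairwise non-crossing, pairwise non-conjugate images of `c` is bounded.

PROOF. Let `ν` be from `packing`. Let `s` be as in the statement, `n = s.card`; assume `n ≥ 1`.
Every `y ∈ s` has a splitting `Split y A_y C_y σ_y` (`Split.map`). `D = ⋃_{y ∈ s} cj y` is a `Fam`
(`eq_or_inv`: if `z ∈ cj y`, `z' ∈ cj y'` share an end then `z' = z^{±1}`).
For `y ∈ s`: `a y a⁻¹` (`nA`) is on side `σ_y`, `b y b⁻¹` (`nB`) on side `-σ_y`; by `adjacent` there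
are `L_y^±` and by `good` points `p_y^+`, `p_y^-` on the two sides of `y`, and for every
`z ∈ D`, `z ≠ y` (`y⁻¹ ∉ D`: `not_conj_inv`, and `y⁻¹ ∈ cj y'` is excluded by the hypothesis) both
are on the side of `z` of the axis of `y`. So `S y' p_y^+ p_y^- = {y}` if `y' = y` and `= ∅` if
`y' ∈ s`, `y' ≠ y`.
Call `p` good if `p ∈ Hyp` and `B p (nor z)² ≥ 1/3` for all `z ∈ D`; all `ρ g p` are good then
(`nor_conj`). Fix a good `p0`. Define `χ(p) : s → ZMod 2`, `χ(p) y = #S y p0 p`. By `S_add`,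
`χ(p) + χ(q) = (#S y p q)_y`. So `χ(p_y^+) + χ(p_y^-) = e_y` (basis vector). The finite set
`X = {χ(p_y^±)}` has at least `n + 1` elements: otherwise, for `x0 ∈ X`, the at most `n - 1`
differences `x - x0`, `x ∈ X \ {x0}`, would span the space `s → ZMod 2` of dimension `n`, since
`e_y = (χ(p_y^+) - x0) - (χ(p_y^-) - x0)`. Choose for every element of `X` one of the points
`p_y^±`: a finset `P` of `#X` points with different `χ`. For `p ≠ q` in `P` and `g : Γ`: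
`χ(ρ g q) = χ(q)` by `parity`, so `S y p (ρ g q)` has an odd number of elements for some `y`, so there
is `z ∈ D` with `B p (nor z) * B (ρ g q) (nor z) < 0`, both of square `≥ 1/3`, so by `opp`
`-B p (ρ g q) ≥ 1/3 + 4/3`. `packing`: `n + 1 ≤ #P ≤ ν`. About 300 lines.
-/

namespace Pool.Agent.LDJ

namespace FNC5Aux

lemma card_lin {ι : Type} [Fintype ι] [DecidableEq ι] (X : Finset (ι → ZMod 2))
    (a b : ι → (ι → ZMod 2)) (ha : ∀ i, a i ∈ X) (hb : ∀ i, b i ∈ X)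
    (hab : ∀ i, a i + b i = Pi.single i 1) (i0 : ι) : Fintype.card ι + 1 ≤ X.card := by
  classical
  set x0 := a i0 with hx0
  set T : Finset (ι → ZMod 2) := (X.erase x0).image (fun x => x - x0) with hT
  have hmem : ∀ x ∈ X, x - x0 ∈ Submodule.span (ZMod 2) (T : Set (ι → ZMod 2)) := by
    intro x hx
    by_cases h : x = x0
    · rw [h, sub_self]
      exact Submodule.zero_mem _
    · refine Submodule.subset_span ?_
      rw [hT, Finset.mem_coe]
      exact Finset.mem_image_of_mem _ (Finset.mem_erase.2 ⟨h, hx⟩)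
  have htop : Submodule.span (ZMod 2) (T : Set (ι → ZMod 2)) = ⊤ := by
    rw [eq_top_iff, ← (Pi.basisFun (ZMod 2) ι).span_eq, Submodule.span_le]
    rintro _ ⟨i, rfl⟩
    rw [Pi.basisFun_apply]
    have h1 : (Pi.single i 1 : ι → ZMod 2) = (a i - x0) - (b i - x0) := by
      rw [← hab i]
      funext j
      simp only [Pi.add_apply, Pi.sub_apply]
      have h2 := ZMod.neg_eq_self_mod_two (b i j)
      linear_combination (-1) * h2
    rw [h1]
    exact Submodule.sub_mem _ (hmem _ (ha i)) (hmem _ (hb i))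
  have h1 : Module.finrank (ZMod 2)
      (Submodule.span (ZMod 2) (T : Set (ι → ZMod 2))) ≤ T.card :=
    finrank_span_finset_le_card (R := ZMod 2) T
  rw [htop, finrank_top, Module.finrank_fintype_fun_eq_card] at h1
  have h2 : T.card ≤ (X.erase x0).card := Finset.card_image_le
  have h3 : (X.erase x0).card = X.card - 1 := Finset.card_erase_of_mem (ha i0)
  have h4 : 0 < X.card := Finset.card_pos.2 ⟨_, ha i0⟩
  omega

variable {Γ : Type} [Group Γ] (F : Fuchs Γ)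

lemma side_sign {y : Γ} {τ : ℝ} {w : Cir} (h : F.circ.side y τ w) :
    0 < τ * B w.1 (F.nor y) := by
  obtain ⟨h1, h2⟩ := h
  have hneg : B w.1 (F.att y).1 < 0 := Cir.neg h1
  have h3 : 0 < τ * (-(B w.1 (F.nor y)) / B w.1 (F.att y).1) := h2
  have h4 : τ * B w.1 (F.nor y) =
      (τ * (-(B w.1 (F.nor y)) / B w.1 (F.att y).1)) * (-B w.1 (F.att y).1) := by
    have := hneg.ne
    field_simp
  rw [h4]
  exact mul_pos h3 (neg_pos.2 hneg)

lemma exists_pt {D : Set Γ} (hD : F.Fam D) {y L0 : Γ} (hy : y ∈ D) (hL0 : L0 ∈ D) {τ : ℝ}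
    (hτ : τ = 1 ∨ τ = -1) (hs : F.circ.side y τ (F.att L0)) :
    ∃ p ∈ Hyp, 0 < τ * B p (F.nor y) ∧
      (∀ z ∈ D, z ≠ y → z ≠ y⁻¹ → 0 < B p (F.nor z) * B (F.att y).1 (F.nor z)) ∧
      ∀ z ∈ D, 1 / 3 ≤ B p (F.nor z) ^ 2 := by
  obtain ⟨L, hL, hsL, hb⟩ := Fuchs.Fam.adjacent F hD hy hL0 hτ hs
  have h1 : L ≠ y := by
    rintro rfl
    exact hsL.1 rfl
  have h2 : L ≠ y⁻¹ := by
    rintro rfl
    have h := hsL.2
    rw [show F.circ.s y (F.att y⁻¹) = 0 from F.circ.s_rep y (hD.ne y hy), mul_zero] at h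
    exact lt_irrefl _ h
  obtain ⟨p, hp, hp1, hp2, hp3⟩ := Fuchs.Fam.good F hD hy hL h1 h2 hb
  refine ⟨p, hp, ?_, hp2, hp3⟩
  have h3 := side_sign F hsL
  have h4 := mul_pos h3 hp1
  by_contra hc
  push Not at hc
  have h5 := mul_nonpos_of_nonpos_of_nonneg hc (sq_nonneg (B (F.att L).1 (F.nor y)))
  nlinarith

lemma far {p q n : V} (hp : p ∈ Hyp) (hq : q ∈ Hyp) (hn : B n n = 1)
    (h : B p n * B q n < 0) (h1 : 1 / 3 ≤ B p n ^ 2) (h2 : 1 / 3 ≤ B q n ^ 2) :
    5 / 3 ≤ -B p q := by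
  have key : ∀ x y : V, x ∈ Hyp → y ∈ Hyp → 0 < B x n → B y n < 0 → 1 / 3 ≤ B x n ^ 2 →
      1 / 3 ≤ B y n ^ 2 → 5 / 3 ≤ -B x y := by
    intro x y hx hy hx0 hy0 hx1 hy1
    have h3 := opp hx hy hn hx0.le hy0.le
    have h4 : 4 / 3 ≤ Real.sqrt (1 + B x n ^ 2) * Real.sqrt (1 + B y n ^ 2) := by
      have e1 : Real.sqrt (4 / 3) ≤ Real.sqrt (1 + B x n ^ 2) := Real.sqrt_le_sqrt (by linarith)
      have e2 : Real.sqrt (4 / 3) ≤ Real.sqrt (1 + B y n ^ 2) := Real.sqrt_le_sqrt (by linarith)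
      have e3 : Real.sqrt (4 / 3) * Real.sqrt (4 / 3) = 4 / 3 := Real.mul_self_sqrt (by norm_num)
      rw [← e3]
      exact mul_le_mul e1 e2 (Real.sqrt_nonneg _) (Real.sqrt_nonneg _)
    have h5 : 1 / 3 ≤ -(B x n * B y n) := by
      have e1 : (1 / 3 : ℝ) ^ 2 ≤ (-(B x n * B y n)) ^ 2 := by
        have : (-(B x n * B y n)) ^ 2 = B x n ^ 2 * B y n ^ 2 := by ring
        rw [this]
        have := mul_le_mul hx1 hy1 (by norm_num) (sq_nonneg (B x n))
        linarith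
      have h6 : 0 < -(B x n * B y n) := neg_pos.2 (mul_neg_of_pos_of_neg hx0 hy0)
      by_contra hc
      push Not at hc
      nlinarith
    linarith
  rcases lt_or_gt_of_ne (show B p n ≠ 0 by rintro h0; rw [h0] at h; simp at h) with h3 | h3
  · have h4 : 0 < B q n := by nlinarith
    have := key q p hq hp h4 h3 h2 h1
    rwa [B_comm] at this
  · have h4 : B q n < 0 := by nlinarith
    exact key p q hp hq h3 h4 h1 h2

end FNC5Aux

open FNC5Aux

theorem Fuchs.nc {Γ : Type} [Group Γ] (F : Fuchs Γ) {c : Γ} {A C : Subgroup Γ} {σ : ℝ}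
    (h : F.circ.Split c A C σ) :
    ∃ ν : ℕ, ∀ s : Finset Γ, (∀ y ∈ s, ∃ φ : MulAut Γ, y = φ c) →
      (∀ x ∈ s, ∀ y ∈ s, ∀ g, ¬ F.circ.link x (g * y * g⁻¹)) →
      (∀ x ∈ s, ∀ y ∈ s, x ≠ y → x ∉ cls y) → s.card ≤ ν := by
  classical
  obtain ⟨ν, hν⟩ := F.packing
  refine ⟨ν, fun s h1 h2 h3 => ?_⟩
  rcases s.eq_empty_or_nonempty with rfl | ⟨y0, hy0⟩
  · simp
  have hsplit : ∀ y ∈ s, ∃ (A' C' : Subgroup Γ) (σ' : ℝ), F.circ.Split y A' C' σ' := by
    intro y hy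
    obtain ⟨φ, rfl⟩ := h1 y hy
    obtain ⟨σ', h', -⟩ := h.map φ
    exact ⟨_, _, σ', h'⟩
  have hsimple : ∀ y ∈ s, F.circ.Simple y := fun y hy => by
    obtain ⟨_, _, _, h'⟩ := hsplit y hy
    exact h'.simple
  set D : Set Γ := {z | ∃ y ∈ s, z ∈ cj y} with hD
  have hself : ∀ y : Γ, y ∈ cj y := fun y => ⟨1, by simp⟩
  have hsD : ∀ y ∈ s, y ∈ D := fun y hy => ⟨y, hy, hself y⟩
  have hFam : F.Fam D :=
    { ne := by
        rintro z ⟨y, hy, g, rfl⟩
        exact Fuchs.fd_conj_ne_one g (hsimple y hy).ne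
      nolink := by
        rintro z ⟨y, hy, g, rfl⟩ z' ⟨y', hy', g', rfl⟩ hl
        have hl' := (F.circ.link_conj g⁻¹).2 hl
        have e1 : g⁻¹ * (g * y * g⁻¹) * g⁻¹⁻¹ = y := by group
        have e2 : g⁻¹ * (g' * y' * g'⁻¹) * g⁻¹⁻¹ = (g⁻¹ * g') * y' * (g⁻¹ * g')⁻¹ := by group
        rw [e1, e2] at hl'
        exact h2 y hy y' hy' _ hl'
      ends := by
        rintro z ⟨y, hy, g, rfl⟩ z' ⟨y', hy', g', rfl⟩ he
        exact Circ.eq_or_inv (Circ.simple_conj (hsimple y hy) g)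
          (Circ.simple_conj (hsimple y' hy') g') he
      fin := ⟨s, fun e he => (hsimple e he).ne, fun z hz => hz⟩ }
  have hinv : ∀ y ∈ s, y⁻¹ ∉ D := by
    rintro y hy ⟨y', hy', g, hg⟩
    by_cases hyy : y = y'
    · subst hyy
      exact F.circ.not_conj_inv (hsimple y hy).ne g hg.symm
    · refine h3 y hy y' hy' hyy ⟨g, Or.inr ?_⟩
      rw [← inv_inv y, hg]
      group
  have hpair : ∀ y : s, ∃ p : V × V, p.1 ∈ Hyp ∧ p.2 ∈ Hyp ∧
      B p.1 (F.nor y.1) * B p.2 (F.nor y.1) < 0 ∧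
      (∀ z ∈ D, z ≠ y.1 → 0 < B p.1 (F.nor z) * B p.2 (F.nor z)) ∧
      (∀ z ∈ D, 1 / 3 ≤ B p.1 (F.nor z) ^ 2) ∧ (∀ z ∈ D, 1 / 3 ≤ B p.2 (F.nor z) ^ 2) := by
    rintro ⟨y, hy⟩
    obtain ⟨A', C', σ', hS⟩ := hsplit y hy
    have hnself : ∀ τ : ℝ, ¬ F.circ.side y τ (F.circ.att y) := fun τ hh => hh.1 rfl
    obtain ⟨a, ha, haz⟩ := hS.nA
    obtain ⟨b, hb, hbz⟩ := hS.nB
    have hsa := hS.pa a ha haz y hS.ne (hnself _)
    have hsb := hS.pb b hb hbz y hS.ne (hnself _)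
    have hσ' : -σ' = 1 ∨ -σ' = -1 := by
      rcases hS.sgn with h0 | h0
      · right; rw [h0]
      · left; rw [h0]; norm_num
    obtain ⟨p, hp, hp1, hp2, hp3⟩ := exists_pt F hFam (hsD y hy) ⟨y, hy, a, rfl⟩ hS.sgn hsa
    obtain ⟨q, hq, hq1, hq2, hq3⟩ := exists_pt F hFam (hsD y hy) ⟨y, hy, b, rfl⟩ hσ' hsb
    refine ⟨(p, q), hp, hq, ?_, ?_, hp3, hq3⟩
    · have hσ2 : σ' * σ' = 1 := by
        rcases hS.sgn with h0 | h0 <;> rw [h0] <;> norm_num
      have := mul_pos hp1 hq1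
      have e : σ' * B p (F.nor y) * (-σ' * B q (F.nor y)) =
          -(σ' * σ') * (B p (F.nor y) * B q (F.nor y)) := by ring
      rw [e, hσ2] at this
      show B p (F.nor y) * B q (F.nor y) < 0
      linarith
    · intro z hz hzy
      have hzi : z ≠ y⁻¹ := by
        rintro rfl
        exact hinv y hy hz
      have e1 := hp2 z hz hzy hzi
      have e2 := hq2 z hz hzy hzi
      show 0 < B p (F.nor z) * B q (F.nor z)
      by_contra hc
      push Not at hc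
      have e3 := mul_pos e1 e2
      have e4 := mul_nonpos_of_nonpos_of_nonneg hc (sq_nonneg (B (F.att y).1 (F.nor z)))
      nlinarith
  choose pr hpr using hpair
  -- good points
  set GP : Set V := {p | p ∈ Hyp ∧ ∀ z ∈ D, 1 / 3 ≤ B p (F.nor z) ^ 2} with hGP
  have hgen : ∀ p ∈ GP, ∀ y ∈ s, F.Gen y p := by
    intro p hp y hy
    refine ⟨hp.1, fun z hz h0 => ?_⟩
    have := hp.2 z ⟨y, hy, hz⟩
    rw [h0] at this
    norm_num at this
  have hact : ∀ p ∈ GP, ∀ g, F.ρ g p ∈ GP := by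
    intro p hp g
    refine ⟨F.fut g p hp.1, ?_⟩
    rintro z ⟨y, hy, k, rfl⟩
    have hz1 : k * y * k⁻¹ ≠ 1 := Fuchs.fd_conj_ne_one k (hsimple y hy).ne
    have hz' : g⁻¹ * (k * y * k⁻¹) * g⁻¹⁻¹ ∈ D := ⟨y, hy, g⁻¹ * k, by group⟩
    have e1 := hp.2 _ hz'
    have e2 : B (F.ρ g p) (F.nor (k * y * k⁻¹)) = B p (F.ρ g⁻¹ (F.nor (k * y * k⁻¹))) := by
      rw [← F.pres g p, ← F.fd_rho_mul, mul_inv_cancel, F.fd_rho_one]
    rw [e2]
    rcases F.nor_conj g⁻¹ hz1 with e3 | e3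
    · rwa [e3] at e1
    · rw [e3] at e1
      have e4 : ∀ v : V, B p (-v) = -B p v := by
        intro v
        have := B_smul_right (-1) v p
        rw [neg_one_smul] at this
        rw [this]
        ring
      rw [e4] at e1
      nlinarith
  have hp1 : ∀ y : s, (pr y).1 ∈ GP := fun y => ⟨(hpr y).1, (hpr y).2.2.2.2.1⟩
  have hp2 : ∀ y : s, (pr y).2 ∈ GP := fun y => ⟨(hpr y).2.1, (hpr y).2.2.2.2.2⟩
  set p0 : V := (pr ⟨y0, hy0⟩).1 with hp0
  have hp0G : p0 ∈ GP := hp1 _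
  set χ : V → (s → ZMod 2) := fun p y => ((F.S y.1 p0 p).ncard : ZMod 2) with hχ
  have hχadd : ∀ p ∈ GP, ∀ q ∈ GP, ∀ y : s, χ p y + χ q y = ((F.S y.1 p q).ncard : ZMod 2) := by
    intro p hp q hq y
    have hy1 := (hsimple y.1 y.2).ne
    rw [F.S_add hy1 (hgen p hp y.1 y.2) (hgen p0 hp0G y.1 y.2) (hgen q hq y.1 y.2),
      F.S_symm y.1 p p0]
  have hχpair : ∀ y : s, χ (pr y).1 + χ (pr y).2 = Pi.single y 1 := by
    intro y
    funext y'
    rw [Pi.add_apply, hχadd _ (hp1 y) _ (hp2 y)]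
    obtain ⟨-, -, k3, k4, -, -⟩ := hpr y
    by_cases hyy : y' = y
    · subst hyy
      rw [Pi.single_eq_same]
      have : F.S y'.1 (pr y').1 (pr y').2 = {y'.1} := by
        ext z
        constructor
        · rintro ⟨hz, hz'⟩
          by_contra hne
          exact absurd (k4 z ⟨y'.1, y'.2, hz⟩ hne) (not_lt.2 hz'.le)
        · rintro rfl
          exact ⟨hself _, k3⟩
      rw [this, Set.ncard_singleton, Nat.cast_one]
    · rw [Pi.single_eq_of_ne hyy]
      have : F.S y'.1 (pr y).1 (pr y).2 = ∅ := by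
        ext z
        simp only [Set.mem_empty_iff_false, iff_false]
        rintro ⟨hz, hz'⟩
        have hzy : z ≠ y.1 := by
          rintro rfl
          obtain ⟨g, hg⟩ := hz
          exact h3 y.1 y.2 y'.1 y'.2 (fun e => hyy (Subtype.ext e.symm)) ⟨g, Or.inl hg⟩
        exact absurd (k4 z ⟨y'.1, y'.2, hz⟩ hzy) (not_lt.2 hz'.le)
      rw [this, Set.ncard_empty, Nat.cast_zero]
  set pts : Finset V := Finset.univ.image (fun y => (pr y).1) ∪
    Finset.univ.image (fun y => (pr y).2) with hpts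
  have hptsG : ∀ p ∈ pts, p ∈ GP := by
    intro p hp
    rw [hpts, Finset.mem_union] at hp
    rcases hp with hp | hp
    · obtain ⟨y, -, rfl⟩ := Finset.mem_image.1 hp
      exact hp1 y
    · obtain ⟨y, -, rfl⟩ := Finset.mem_image.1 hp
      exact hp2 y
  have hcard := card_lin (pts.image χ) (fun y => χ (pr y).1) (fun y => χ (pr y).2)
    (fun y => Finset.mem_image_of_mem _ (Finset.mem_union_left _
      (Finset.mem_image_of_mem (fun y => (pr y).1) (Finset.mem_univ y))))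
    (fun y => Finset.mem_image_of_mem _ (Finset.mem_union_right _
      (Finset.mem_image_of_mem (fun y => (pr y).2) (Finset.mem_univ y)))) hχpair ⟨y0, hy0⟩
  rw [Fintype.card_coe] at hcard
  have hr : ∀ x : {x // x ∈ pts.image χ}, ∃ p ∈ pts, χ p = x.1 := fun x => Finset.mem_image.1 x.2
  choose r hr1 hr2 using hr
  have hrinj : Function.Injective r := by
    intro x x' hxx
    apply Subtype.ext
    rw [← hr2 x, ← hr2 x', hxx]
  set P : Finset V := Finset.univ.image r with hP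
  have hPcard : P.card = (pts.image χ).card := by
    rw [hP, Finset.card_image_of_injective _ hrinj, Finset.card_univ, Fintype.card_coe]
  have hPG : ∀ p ∈ P, p ∈ GP := by
    intro p hp
    obtain ⟨x, -, rfl⟩ := Finset.mem_image.1 hp
    exact hptsG _ (hr1 x)
  have hPχ : ∀ p ∈ P, ∀ q ∈ P, p ≠ q → χ p ≠ χ q := by
    intro p hp q hq hpq he
    obtain ⟨x, -, rfl⟩ := Finset.mem_image.1 hp
    obtain ⟨x', -, rfl⟩ := Finset.mem_image.1 hq
    apply hpq
    rw [hr2, hr2] at he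
    rw [Subtype.ext he]
  have hfin := hν P (fun p hp => (hPG p hp).1) (by
    intro p hp q hq hpq g
    obtain ⟨y, hy⟩ := Function.ne_iff.1 (hPχ p hp q hq hpq)
    have hq' := hact q (hPG q hq) g
    obtain ⟨A', C', σ', hS⟩ := hsplit y.1 y.2
    have hy1 := (hsimple y.1 y.2).ne
    have e1 : χ (F.ρ g q) y = χ q y := by
      have e2 := F.S_add hy1 (hgen p0 hp0G y.1 y.2) (hgen q (hPG q hq) y.1 y.2)
        (hgen _ hq' y.1 y.2)
      rw [F.parity hS (hgen q (hPG q hq) y.1 y.2) g, add_zero] at e2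
      exact e2
    have e3 := hχadd p (hPG p hp) _ hq' y
    rw [e1] at e3
    have e4 : (F.S y.1 p (F.ρ g q)).Nonempty := by
      by_contra hc
      rw [Set.not_nonempty_iff_eq_empty] at hc
      rw [hc, Set.ncard_empty, Nat.cast_zero] at e3
      apply hy
      have e5 := ZMod.neg_eq_self_mod_two (χ q y)
      rw [← e5]
      exact eq_neg_of_add_eq_zero_left e3
    obtain ⟨z, hz, hz'⟩ := e4
    have hzD : z ∈ D := ⟨y.1, y.2, hz⟩
    exact far (hPG p hp).1 hq'.1 (F.data (hFam.ne z hzD)).hn hz' ((hPG p hp).2 z hzD)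
      (hq'.2 z hzD))
  omega

end Pool.Agent.LDJ
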