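import Pool.Agent.LDJ.Grow

/-!
LDJ.Lim: existence of the logarithmic density, independence of `m`, and the bound `1/2`.

PROOF. Notation: `b R = log #ball S R`, `t R = log #(ball S R ∩ T 1)`,
`u R = log #(ball S R ∩ T m)`; all nonnegative, monotone in `R`, `u ≤ t ≤ b ≤ R log(2|S|+1)`
(`ncard_ball_le`, `ncard_inter_pos`, `ncard_ball_pos`).
(1) `b` is subadditive (`ball (r+s) ⊆ ball r * ball s`), so `b R / R → δ` (Mathlib:
`Subadditive.tendsto_lim`), and `δ > 0` by `hexp`.
(2) Let `τ = limsup t r / r` (bounded). Claim `liminf u R / R ≥ τ`. Fix `r ≥ 1`, `ε > 0`; by `grow`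
with these: `u (n L (r+ell)) ≥ n L (t r - ε - log C - κ log(r+1))`. For general `R` take
`n = ⌊R / (L (r+ell))⌋`; by monotonicity `liminf u R / R ≥ (t r - ε - log C - κ log (r+1))/(r+ell)`.
Take `ε = 1` and `r → ∞` along a sequence realising the limsup.
(3) Hence `u R / R → τ` for every `m ≥ 1` (`u ≤ t`), the same `τ` for all `m`. So
`logRatio S (T m) R = u R / b R → τ/δ =: d`, `d ≤ 1` as `u ≤ b`.
(4) `half`: `b r ≤ 2 log C + 2κ log(r+1) + u (2(r+ell))`; divide by `2(r+ell)`: `δ/2 ≤ τ`.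
About 200 lines.
-/

namespace Pool.Agent.LDJ

open Pool.Agent.Hhelper67.Johnson Filter Topology

private lemma lim_log_poly (κ C : ℕ) (hC : 1 ≤ C) :
    Tendsto (fun r : ℕ => Real.log (C * ((r : ℝ) + 1) ^ κ) / r) atTop (𝓝 0) := by
  have hC' : (0 : ℝ) < C := by exact_mod_cast hC
  have e1 : (fun r : ℕ => Real.log (C * ((r : ℝ) + 1) ^ κ) / r) =
      fun r : ℕ => Real.log C / r + κ * (Real.log ((r : ℝ) + 1) / r) := by
    funext r
    have hr : (0 : ℝ) < (r : ℝ) + 1 := by positivity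
    rw [Real.log_mul hC'.ne' (pow_pos hr _).ne', Real.log_pow]
    ring
  rw [e1]
  have h1 : Tendsto (fun r : ℕ => Real.log C / (r : ℝ)) atTop (𝓝 0) :=
    tendsto_const_nhds.div_atTop tendsto_natCast_atTop_atTop
  have h2 : Tendsto (fun r : ℕ => Real.log ((r : ℝ) + 1) / r) atTop (𝓝 0) := by
    have h3 : (fun r : ℕ => Real.log ((r : ℝ) + 1)) =o[atTop] fun r : ℕ => ((r : ℝ) + 1) :=
      Real.isLittleO_log_id_atTop.comp_tendsto
        (tendsto_atTop_add_const_right atTop 1 tendsto_natCast_atTop_atTop)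
    have h4 : (fun r : ℕ => ((r : ℝ) + 1)) =O[atTop] fun r : ℕ => (r : ℝ) := by
      apply Asymptotics.IsBigO.of_bound 2
      filter_upwards [eventually_ge_atTop 1] with r hr
      have hr1 : (1 : ℝ) ≤ r := by exact_mod_cast hr
      rw [Real.norm_of_nonneg (by linarith), Real.norm_of_nonneg (by linarith)]
      linarith
    exact (h3.trans_isBigO h4).tendsto_div_nhds_zero
  have h5 := h1.add (h2.const_mul (κ : ℝ))
  simpa using h5

private lemma lim_key (t u : ℕ → ℝ) (K : ℝ) (hK : ∀ r : ℕ, t r ≤ K * r) (ht0 : ∀ r, 0 ≤ t r)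
    (hu : Monotone u) (hu0 : ∀ r, 0 ≤ u r) (hut : ∀ r, u r ≤ t r) (ell κ C : ℕ) (hC : 1 ≤ C)
    (h : ∀ r : ℕ, ∃ L : ℕ, 0 < L ∧ ∀ n : ℕ,
      ((n * L : ℕ) : ℝ) * (t r - 1 - Real.log (C * ((r : ℝ) + 1) ^ κ)) ≤ u (n * L * (r + ell))) :
    Tendsto (fun R : ℕ => u R / R) atTop (𝓝 (limsup (fun r : ℕ => t r / r) atTop)) := by
  have hK' : ∀ r : ℕ, t r / r ≤ |K| := by
    intro r
    rcases Nat.eq_zero_or_pos r with h0 | h0
    · rw [h0]
      simp
    · have hr : (0 : ℝ) < r := by exact_mod_cast h0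
      rw [div_le_iff₀ hr]
      exact (hK r).trans (mul_le_mul_of_nonneg_right (le_abs_self K) hr.le)
  have hb1 : IsBoundedUnder (· ≤ ·) atTop (fun r : ℕ => t r / r) :=
    ⟨|K|, Filter.eventually_map.mpr (Filter.Eventually.of_forall hK')⟩
  have hb2 : IsBoundedUnder (· ≥ ·) atTop (fun r : ℕ => t r / r) :=
    ⟨0, Filter.eventually_map.mpr (Filter.Eventually.of_forall fun r =>
      div_nonneg (ht0 r) (Nat.cast_nonneg r))⟩
  rw [tendsto_order]
  constructor
  · intro a ha
    rcases lt_or_ge a 0 with ha0 | ha0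
    · exact Filter.Eventually.of_forall fun R =>
        ha0.trans_le (div_nonneg (hu0 R) (Nat.cast_nonneg R))
    obtain ⟨a', ha', ha1⟩ := exists_between ha
    obtain ⟨a'', haa, ha2⟩ := exists_between ha'
    have hfr := frequently_lt_of_lt_limsup (hb2.isCoboundedUnder_le) ha1
    have hlim : Tendsto (fun r : ℕ => (1 : ℝ) / r + Real.log (C * ((r : ℝ) + 1) ^ κ) / r +
        a'' * ((ell : ℝ) / r)) atTop (𝓝 (0 + 0 + a'' * 0)) := by
      refine ((tendsto_const_nhds.div_atTop tendsto_natCast_atTop_atTop).add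
        (lim_log_poly κ C hC)).add ?_
      exact (tendsto_const_nhds.div_atTop tendsto_natCast_atTop_atTop).const_mul a''
    have hlim' : ∀ᶠ r : ℕ in atTop, (1 : ℝ) / r + Real.log (C * ((r : ℝ) + 1) ^ κ) / r +
        a'' * ((ell : ℝ) / r) < a' - a'' := by
      apply hlim.eventually_lt_const
      linarith
    obtain ⟨r, hr1, hr2, hr3⟩ := (hfr.and_eventually
      (hlim'.and (eventually_ge_atTop 1))).exists
    have hr0 : (0 : ℝ) < r := by exact_mod_cast hr3
    obtain ⟨L, hL, hLn⟩ := h r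
    have hval : a'' * ((r : ℝ) + ell) ≤ t r - 1 - Real.log (C * ((r : ℝ) + 1) ^ κ) := by
      rw [lt_div_iff₀ hr0] at hr1
      have e2 : (1 : ℝ) / r + Real.log (C * ((r : ℝ) + 1) ^ κ) / r + a'' * ((ell : ℝ) / r) =
          (1 + Real.log (C * ((r : ℝ) + 1) ^ κ) + a'' * ell) / r := by ring
      rw [e2, div_lt_iff₀ hr0] at hr2
      nlinarith
    obtain ⟨P, hP⟩ : ∃ P : ℕ, P = L * (r + ell) := ⟨_, rfl⟩
    have hPpos : 0 < P := by
      rw [hP]
      apply Nat.mul_pos hL
      omega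
    have hPR : (0 : ℝ) < P := by exact_mod_cast hPpos
    have hmain : ∀ R : ℕ, a'' * ((R : ℝ) - P) ≤ u R := by
      intro R
      have h1 := hLn (R / P)
      have h2 : R / P * L * (r + ell) ≤ R := by
        rw [mul_assoc, ← hP]
        exact Nat.div_mul_le_self R P
      have h3 := h1.trans (hu h2)
      have h4 : ((R / P * L : ℕ) : ℝ) * (a'' * ((r : ℝ) + ell)) ≤
          ((R / P * L : ℕ) : ℝ) * (t r - 1 - Real.log (C * ((r : ℝ) + 1) ^ κ)) :=
        mul_le_mul_of_nonneg_left hval (Nat.cast_nonneg _)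
      have h5 : ((R / P * L : ℕ) : ℝ) * (a'' * ((r : ℝ) + ell)) =
          a'' * (((R / P : ℕ) : ℝ) * P) := by
        rw [hP]
        push_cast
        ring
      have h6 : (R : ℝ) - P ≤ ((R / P : ℕ) : ℝ) * P := by
        have := Nat.lt_div_mul_add (a := R) (b := P) hPpos
        have h7 : (R : ℝ) < ((R / P : ℕ) : ℝ) * P + P := by exact_mod_cast this
        linarith
      have h8 : a'' * ((R : ℝ) - P) ≤ a'' * (((R / P : ℕ) : ℝ) * P) :=
        mul_le_mul_of_nonneg_left h6 (by linarith)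
      linarith
    have hlim2 : Tendsto (fun R : ℕ => a'' - a'' * ((P : ℝ) / R)) atTop (𝓝 (a'' - a'' * 0)) :=
      tendsto_const_nhds.sub
        ((tendsto_const_nhds.div_atTop tendsto_natCast_atTop_atTop).const_mul a'')
    have hev : ∀ᶠ R : ℕ in atTop, a < a'' - a'' * ((P : ℝ) / R) := by
      apply hlim2.eventually_const_lt
      linarith
    filter_upwards [hev, eventually_ge_atTop 1] with R h1 h2
    have hR : (0 : ℝ) < R := by exact_mod_cast h2
    refine h1.trans_le ?_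
    rw [le_div_iff₀ hR]
    have h3 : (a'' - a'' * ((P : ℝ) / R)) * R = a'' * ((R : ℝ) - P) := by
      field_simp
    rw [h3]
    exact hmain R
  · intro a ha
    have h1 := eventually_lt_of_limsup_lt ha hb1
    filter_upwards [h1] with R h2
    refine lt_of_le_of_lt ?_ h2
    exact div_le_div_of_nonneg_right (hut R) (Nat.cast_nonneg R)

private lemma lim_sub {G : Type} [Group G] (S : Finset G) (r s : ℕ) :
    (ball S (r + s)).ncard ≤ (ball S r).ncard * (ball S s).ncard := by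
  classical
  have h1 : ball S (r + s) ⊆ (fun p : G × G => p.1 * p.2) '' (ball S r ×ˢ ball S s) := by
    rintro x ⟨l, hl, hs, rfl⟩
    refine ⟨((l.take r).prod, (l.drop r).prod), ⟨⟨l.take r, ?_, ?_, rfl⟩,
      ⟨l.drop r, ?_, ?_, rfl⟩⟩, ?_⟩
    · exact List.length_take_le r l
    · exact fun s h => hs s (List.mem_of_mem_take h)
    · rw [List.length_drop]
      omega
    · exact fun s h => hs s (List.mem_of_mem_drop h)
    · exact List.prod_take_mul_prod_drop l r
  have hf : (ball S r ×ˢ ball S s).Finite := (ball_finite S r).prod (ball_finite S s)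
  calc (ball S (r + s)).ncard
      ≤ ((fun p : G × G => p.1 * p.2) '' (ball S r ×ˢ ball S s)).ncard :=
        Set.ncard_le_ncard h1 (hf.image _)
    _ ≤ (ball S r ×ˢ ball S s).ncard := Set.ncard_image_le hf
    _ = _ := Set.ncard_prod

theorem lim_main {G : Type} [Group G] (S : Finset G) {T : ℕ → Subgroup G} (hT : Chain T)
    (hD : ∀ m, 1 ≤ m → Decodable S (T m))
    (hexp : ∃ η : ℝ, 0 < η ∧ ∀ᶠ r : ℕ in atTop, η * r ≤ Real.log ((ball S r).ncard : ℝ)) :
    ∃ d : ℝ, 1 / 2 ≤ d ∧ d ≤ 1 ∧ ∀ m : ℕ, 1 ≤ m →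
      Tendsto (logRatio S (T m : Set G)) atTop (𝓝 d) := by
  classical
  obtain ⟨b, hb⟩ : ∃ b : ℕ → ℝ, b = fun R => Real.log ((ball S R).ncard : ℝ) := ⟨_, rfl⟩
  obtain ⟨v, hv⟩ : ∃ v : ℕ → ℕ → ℝ, v = fun m R =>
      Real.log ((ball S R ∩ (T m : Set G)).ncard : ℝ) := ⟨_, rfl⟩
  have hbpos : ∀ R, (0 : ℝ) < (ball S R).ncard := fun R => by
    exact_mod_cast ncard_ball_pos S R
  have hvpos : ∀ m R, (0 : ℝ) < (ball S R ∩ (T m : Set G)).ncard := fun m R => by
    exact_mod_cast ncard_inter_pos S (T m) R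
  have hb0 : ∀ R, 0 ≤ b R := by
    intro R
    rw [hb]
    apply Real.log_nonneg
    exact_mod_cast ncard_ball_pos S R
  have hv0 : ∀ m R, 0 ≤ v m R := by
    intro m R
    rw [hv]
    apply Real.log_nonneg
    exact_mod_cast ncard_inter_pos S (T m) R
  have hvb : ∀ m R, v m R ≤ b R := by
    intro m R
    rw [hv, hb]
    apply Real.log_le_log (hvpos m R)
    exact_mod_cast Set.ncard_le_ncard Set.inter_subset_left (ball_finite S R)
  have hvm : ∀ m, Monotone (v m) := by
    intro m R R' hR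
    rw [hv]
    apply Real.log_le_log (hvpos m R)
    exact_mod_cast Set.ncard_le_ncard
      (Set.inter_subset_inter_left _ (ball_mono hR)) ((ball_finite S R').inter_of_left _)
  have hTle : ∀ m, 1 ≤ m → T m ≤ T 1 := by
    intro m hm
    induction m, hm using Nat.le_induction with
    | base => exact le_rfl
    | succ n hn ih => exact (hT.anti n).trans ih
  have hvt : ∀ m, 1 ≤ m → ∀ R, v m R ≤ v 1 R := by
    intro m hm R
    rw [hv]
    apply Real.log_le_log (hvpos m R)
    exact_mod_cast Set.ncard_le_ncard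
      (Set.inter_subset_inter_right _ (by exact_mod_cast hTle m hm))
      ((ball_finite S R).inter_of_left _)
  have hbK : ∀ R : ℕ, b R ≤ Real.log (2 * (S.card : ℝ) + 1) * R := by
    intro R
    rw [hb]
    have h1 : ((ball S R).ncard : ℝ) ≤ (2 * (S.card : ℝ) + 1) ^ R := by
      exact_mod_cast ncard_ball_le S R
    calc Real.log ((ball S R).ncard : ℝ) ≤ Real.log ((2 * (S.card : ℝ) + 1) ^ R) :=
          Real.log_le_log (hbpos R) h1
      _ = Real.log (2 * (S.card : ℝ) + 1) * R := by rw [Real.log_pow, mul_comm]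
  -- the exponential growth rate
  have hsub : Subadditive b := by
    intro r s
    rw [hb]
    show Real.log _ ≤ Real.log _ + Real.log _
    rw [← Real.log_mul (hbpos r).ne' (hbpos s).ne']
    apply Real.log_le_log (hbpos _)
    exact_mod_cast lim_sub S r s
  obtain ⟨δ, hδ⟩ : ∃ δ, Tendsto (fun R : ℕ => b R / R) atTop (𝓝 δ) := by
    refine ⟨_, hsub.tendsto_lim ⟨0, ?_⟩⟩
    rintro _ ⟨n, rfl⟩
    exact div_nonneg (hb0 n) (Nat.cast_nonneg n)
  have hδ0 : 0 < δ := by
    obtain ⟨η, hη, hev⟩ := hexp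
    refine hη.trans_le (ge_of_tendsto hδ ?_)
    filter_upwards [hev, eventually_ge_atTop 1] with r h1 h2
    have hr : (0 : ℝ) < r := by exact_mod_cast h2
    rw [le_div_iff₀ hr, hb]
    exact h1
  -- the rate of the subgroups
  obtain ⟨τ, hτ⟩ : ∃ τ, τ = limsup (fun r : ℕ => v 1 r / r) atTop := ⟨_, rfl⟩
  have hlim : ∀ m, 1 ≤ m → Tendsto (fun R : ℕ => v m R / R) atTop (𝓝 τ) := by
    intro m hm
    obtain ⟨ell, κ, C, hC, hg⟩ := grow S hT m hm (hD m hm)
    rw [hτ]
    refine lim_key (v 1) (v m) (Real.log (2 * (S.card : ℝ) + 1))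
      (fun r => (hvb 1 r).trans (hbK r)) (hv0 1) (hvm m) (hv0 m) (hvt m hm) ell κ C hC ?_
    intro r
    obtain ⟨L, hL, hn⟩ := hg r 1 one_pos
    refine ⟨L, hL, fun n => ?_⟩
    have h1 := hn n
    have hC' : (0 : ℝ) < C := by exact_mod_cast hC
    have hr : (0 : ℝ) < (r : ℝ) + 1 := by positivity
    have hd : (0 : ℝ) < C * ((r : ℝ) + 1) ^ κ := by positivity
    have hx : (0 : ℝ) < ((ball S r ∩ (T 1 : Set G)).ncard : ℝ) * Real.exp (-1) /
        (C * ((r : ℝ) + 1) ^ κ) := by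
      apply div_pos (mul_pos (hvpos 1 r) (Real.exp_pos _)) hd
    have h2 := Real.log_le_log (pow_pos hx _) h1
    rw [Real.log_pow, Real.log_div (mul_pos (hvpos 1 r) (Real.exp_pos _)).ne' hd.ne',
      Real.log_mul (hvpos 1 r).ne' (Real.exp_pos _).ne', Real.log_exp] at h2
    have h3 : v 1 r = Real.log ((ball S r ∩ (T 1 : Set G)).ncard : ℝ) := by rw [hv]
    have h4 : v m (n * L * (r + ell)) =
        Real.log ((ball S (n * L * (r + ell)) ∩ (T m : Set G)).ncard : ℝ) := by rw [hv]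
    rw [h3, h4]
    refine le_trans (le_of_eq ?_) h2
    ring
  have hτδ : τ ≤ δ := by
    refine le_of_tendsto_of_tendsto (hlim 1 le_rfl) hδ ?_
    exact Filter.Eventually.of_forall fun R =>
      div_le_div_of_nonneg_right (hvb 1 R) (Nat.cast_nonneg R)
  have hhalf : δ ≤ 2 * τ := by
    obtain ⟨ell, κ, C, hC, hg⟩ := half S hT 1 le_rfl (hD 1 le_rfl)
    have h1 : ∀ r : ℕ, b r ≤ 2 * Real.log (C * ((r : ℝ) + 1) ^ κ) + v 1 (2 * (r + ell)) := by
      intro r
      have hC' : (0 : ℝ) < C := by exact_mod_cast hC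
      have hr : (0 : ℝ) < (r : ℝ) + 1 := by positivity
      have hd : (0 : ℝ) < C * ((r : ℝ) + 1) ^ κ := by positivity
      have h2 := Real.log_le_log (hbpos r) (hg r)
      rw [Real.log_mul (pow_pos hd 2).ne' (hvpos 1 _).ne', Real.log_pow] at h2
      rw [hb, hv]
      exact_mod_cast h2
    have ht : Tendsto (fun r : ℕ => 2 * (r + ell)) atTop atTop := by
      apply tendsto_atTop_mono (fun r => (by omega : r ≤ 2 * (r + ell))) tendsto_id
    have h2 : Tendsto (fun r : ℕ => v 1 (2 * (r + ell)) / ((2 * (r + ell) : ℕ) : ℝ)) atTop (𝓝 τ) :=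
      (hlim 1 le_rfl).comp ht
    have h3 : Tendsto (fun r : ℕ => (2 : ℝ) + 2 * ((ell : ℝ) / r)) atTop (𝓝 (2 + 2 * 0)) :=
      tendsto_const_nhds.add
        ((tendsto_const_nhds.div_atTop tendsto_natCast_atTop_atTop).const_mul 2)
    have h4 := ((lim_log_poly κ C hC).const_mul 2).add (h2.mul h3)
    have h5 : 2 * (0 : ℝ) + τ * (2 + 2 * 0) = 2 * τ := by ring
    rw [h5] at h4
    refine le_of_tendsto_of_tendsto hδ h4 ?_
    filter_upwards [eventually_ge_atTop 1] with r hr
    have hr0 : (0 : ℝ) < r := by exact_mod_cast hr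
    rw [div_le_iff₀ hr0]
    refine (h1 r).trans (le_of_eq ?_)
    have h6 : (0 : ℝ) < (r : ℝ) + ell := by positivity
    push_cast
    field_simp
  refine ⟨τ / δ, ?_, ?_, ?_⟩
  · rw [le_div_iff₀ hδ0]
    linarith
  · rw [div_le_one hδ0]
    exact hτδ
  · intro m hm
    have h1 := (hlim m hm).div hδ hδ0.ne'
    refine h1.congr' ?_
    filter_upwards [eventually_ge_atTop 1] with R hR
    have hR0 : (0 : ℝ) < R := by exact_mod_cast hR
    show v m R / R / (b R / R) = _
    rw [div_div_div_cancel_right₀ hR0.ne', hv, hb]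
    rfl

end Pool.Agent.LDJ
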