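import Pool.Agent.LDJ.PWalk

/-!
LDJ.PConn: existence of connector data.

PROOF. `ι` may be assumed nonempty (if `ι` is empty then by `fill` `Y` is empty; hypothesis `b`).
`nb i`: by `conn i i` (first step of the `TransGen`) there is `nb i` with `base i`, `base (nb i)`
crossing. Let `D0` be a bound for all `d (base j) (base i) (base k)` (finitely many), and
`M = M0 + D0 + 2B + 1` (a natural number, as an integer).
`inner`: by `T_tw` for `x = base k` and `n = M e`:
`|M e| ≤ d (base j) (base k) (T^n • base k) + B ≤ d (base j) (base k) (base i)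
+ d (base j) (base i) (T^n • base k) + B + B`, so the last distance is `≥ M - D0 - 2B ≥ M0`
(`T^n • base k` crosses `base j`: `cr_smul` and `T^n • base j = base j`).
`a f`: by `fill` for `f⁻¹ • base b` there is `a f` with `base (a f)` crossing `f⁻¹ • base b`; so
`f • base (a f)` crosses `base b` (`c0`).
Signs (`c1`, `c2`): for `X`, `Z` crossing `base j`, one of `d (base j) X (T^M • Z)`,
`d (base j) X (T^(-M) • Z)` is `≥ M - B ≥ M0`: by `T_tw` for `x = T^(-M) • Z`, `n = 2M`: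
`2M ≤ d (base j) (T^(-M) • Z) (T^M • Z) + B ≤ d (base j) (T^(-M) • Z) X + d (base j) X (T^M • Z)
+ 2B`. For `c1`: `j = a f`, `X = f⁻¹ • base b`, `Z = base (nb (a f))`. For `c2`: `j = b`,
`X = base (nb b)`, `Z = f • base (a f)`.
`w`, `walk`, `head`, `last`, `all`, `mem` from `exists_walk`. About 150 lines.
-/

namespace Pool.Agent.LDJ

namespace Proj

variable {G Y ι : Type} [Group G] [MulAction G Y] [Fintype ι] (P : Proj G Y ι)

theorem PConnAux.fix (j : ι) (n : ℤ) : (P.T j) ^ n • P.base j = P.base j := by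
  have h : P.T j ∈ MulAction.stabilizer G (P.base j) := P.T_fix j
  exact (MulAction.stabilizer G (P.base j)).zpow_mem h n

theorem PConnAux.cr_tw {j : ι} {x : Y} (n : ℤ) (h : P.cr x (P.base j)) :
    P.cr ((P.T j) ^ n • x) (P.base j) := by
  have h1 := P.cr_smul ((P.T j) ^ n) _ _ h
  rwa [PConnAux.fix] at h1

theorem PConnAux.sign {M0 M : ℕ} (hM : M0 + P.B + 1 ≤ M) {j : ι} {x z : Y}
    (hx : P.cr x (P.base j)) (hz : P.cr z (P.base j)) :
    ∃ s : Bool, M0 ≤ P.d (P.base j) x ((P.T j) ^ ((M : ℤ) * sg s) • z) := by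
  by_contra hc
  push Not at hc
  have h1 := hc true
  have h2 := hc false
  have e1 : (M : ℤ) * sg true = M := by simp [sg]
  have e2 : (M : ℤ) * sg false = -M := by simp [sg]
  rw [e1] at h1
  rw [e2] at h2
  have h3 := P.T_tw j ((P.T j) ^ (-(M : ℤ)) • z) (2 * M) (PConnAux.cr_tw P _ hz)
  have e3 : (P.T j) ^ (2 * (M : ℤ)) • (P.T j) ^ (-(M : ℤ)) • z = (P.T j) ^ (M : ℤ) • z := by
    rw [smul_smul, ← zpow_add]
    congr 2
    ring
  rw [e3] at h3
  have h4 := P.d_tri (P.base j) ((P.T j) ^ (-(M : ℤ)) • z) x ((P.T j) ^ (M : ℤ) • z)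
    (PConnAux.cr_tw P _ hz) hx (PConnAux.cr_tw P _ hz)
  rw [P.d_symm (P.base j) ((P.T j) ^ (-(M : ℤ)) • z) x] at h4
  omega

theorem exists_Conn {Tc : ℕ → Subgroup G} (hT : Chain Tc) (hP : ∀ i, P.T i ∈ Tc 1)
    (m : ℕ) (hm : 1 ≤ m) (b : ι) (M0 : ℕ) : Nonempty (P.Conn (Tc m) M0) := by
  classical
  have h1 : ∀ i, ∃ k, P.cr (P.base i) (P.base k) := by
    intro i
    obtain ⟨k, hk, -⟩ := Relation.TransGen.head'_iff.1 (P.conn i i)
    exact ⟨k, hk⟩
  choose nb hnb using h1
  obtain ⟨D0, hD0⟩ : ∃ D0 : ℕ, ∀ i j k, P.d (P.base j) (P.base i) (P.base k) ≤ D0 := by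
    refine ⟨∑ i, ∑ j, ∑ k, P.d (P.base j) (P.base i) (P.base k), fun i j k => ?_⟩
    calc P.d (P.base j) (P.base i) (P.base k) ≤ ∑ k, P.d (P.base j) (P.base i) (P.base k) :=
          Finset.single_le_sum (f := fun k => P.d (P.base j) (P.base i) (P.base k))
            (fun _ _ => Nat.zero_le _) (Finset.mem_univ k)
      _ ≤ ∑ j, ∑ k, P.d (P.base j) (P.base i) (P.base k) :=
          Finset.single_le_sum (f := fun j => ∑ k, P.d (P.base j) (P.base i) (P.base k))
            (fun _ _ => Nat.zero_le _) (Finset.mem_univ j)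
      _ ≤ _ := Finset.single_le_sum
            (f := fun i => ∑ j, ∑ k, P.d (P.base j) (P.base i) (P.base k))
            (fun _ _ => Nat.zero_le _) (Finset.mem_univ i)
  obtain ⟨M, hM⟩ : ∃ M : ℕ, M = M0 + D0 + 2 * P.B + 1 := ⟨_, rfl⟩
  have hf : ∀ f : G, ∃ i, P.cr (P.base i) (f⁻¹ • P.base b) := fun f => P.fill _
  choose a ha using hf
  have hc0 : ∀ f, P.cr (f • P.base (a f)) (P.base b) := by
    intro f
    have h2 := P.cr_smul f _ _ (ha f)
    rwa [smul_inv_smul] at h2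
  have hep : ∀ f : G, ∃ s : Bool, M0 ≤ P.d (P.base (a f)) (f⁻¹ • P.base b)
      ((P.T (a f)) ^ ((M : ℤ) * sg s) • P.base (nb (a f))) := fun f =>
    PConnAux.sign P (by omega) (P.cr_symm _ _ (ha f)) (P.cr_symm _ _ (hnb (a f)))
  choose ep hep using hep
  have hde : ∀ f : G, ∃ s : Bool, M0 ≤ P.d (P.base b) (P.base (nb b))
      ((P.T b) ^ ((M : ℤ) * sg s) • f • P.base (a f)) := fun f =>
    PConnAux.sign P (by omega) (P.cr_symm _ _ (hnb b)) (hc0 f)
  choose de hde using hde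
  have hw := fun (i : ι) (ε δ : Bool) => P.exists_walk hT hP m hm nb hnb i b ε δ
  choose w hw1 hw2 hw3 hw4 hw5 using hw
  refine ⟨{
    b := b
    nb := nb
    M := M
    w := w
    a := a
    ep := ep
    de := de
    cr_nb := hnb
    walk := hw1
    head := hw2
    last := hw3
    all := hw4
    mem := fun i ε δ => hw5 i ε δ M
    inner := ?_
    c0 := hc0
    c1 := hep
    c2 := hde }⟩
  intro i j k e hij hjk he
  have h2 := P.T_tw j (P.base k) ((M : ℤ) * e) (P.cr_symm _ _ hjk)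
  have h3 := P.d_tri (P.base j) (P.base k) (P.base i) ((P.T j) ^ ((M : ℤ) * e) • P.base k)
    (P.cr_symm _ _ hjk) hij (PConnAux.cr_tw P _ (P.cr_symm _ _ hjk))
  have h4 := hD0 k j i
  have h5 : M ≤ ((M : ℤ) * e).natAbs := by
    rw [Int.natAbs_mul, Int.natAbs_natCast]
    exact Nat.le_mul_of_pos_right _ (Int.natAbs_pos.2 he)
  omega

end Proj

end Pool.Agent.LDJ
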