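import Pool.Agent.LDJ.PTime

/-!
LDJ.PCount: the number of chains of annuli passed by a path.

PROOF of `count_seq`. Let `A = {y | M2 ≤ dd y 1 σ.prod}`. By `time_spec` (as `M2 ≥ K1`)
`1 ≤ time y ≤ σ.length` for `y ∈ A`. By `time_ne` two elements of `A` with the same time do not
cross (an element does not cross itself: `cr_irrefl`), so by `nc_card` each fibre
`{y ∈ A | time y = t}` is finite with at most `nu` elements (every finite subset has at most `nu`
elements). So there is a map `idx : Y → Fin nu`-like (a map to `ℕ` with values `< nu`, injective on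
each fibre). The map `l ↦ (the finite set of the times of l, l.map idx)` is injective on
the set in question: strictly increasing times are determined by their set (it is a `k`-subset of
`{1, ..., σ.length}`), and time and index determine `y`. So there are at most
`(σ.length.choose k) * nu^k` such lists. About 180 lines.

PROOF of `choose_le`: for `a ≥ 1`, `x = 1/a`: `C(n,k) x^k ≤ (1+x)^n ≤ exp(n/a) ≤ exp L ≤ 3^L`
(binomial theorem: one term), so `C(n,k) ≤ 3^L a^k ≤ 3^L a^(κL)`.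
-/

set_option linter.all false

namespace Pool.Agent.LDJ

open Pool.Agent.Hhelper67.Johnson

theorem choose_le {n k L a κ : ℕ} (ha : 1 ≤ a) (hn : n ≤ L * a) (hk : k ≤ κ * L) :
    n.choose k ≤ (3 * a ^ κ) ^ L := by
  have ha0 : (0 : ℝ) < a := by exact_mod_cast ha
  have ha1 : (1 : ℝ) ≤ a := by exact_mod_cast ha
  by_cases hkn : k ≤ n
  swap
  · rw [Nat.choose_eq_zero_of_lt (not_le.mp hkn)]
    exact Nat.zero_le _
  have h1 : (n.choose k : ℝ) * (1 / a) ^ k ≤ (1 / (a : ℝ) + 1) ^ n := by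
    rw [add_pow]
    have h2 := Finset.single_le_sum (f := fun m => (1 / (a : ℝ)) ^ m * 1 ^ (n - m) * (n.choose m : ℝ))
      (s := Finset.range (n + 1)) (fun m _ => by positivity) (Finset.mem_range.mpr (Nat.lt_succ_of_le hkn))
    refine le_trans (le_of_eq ?_) h2
    simp only [one_pow, mul_one]
    ring
  have h2 : (1 / (a : ℝ) + 1) ^ n ≤ 3 ^ L := by
    have h3 : 1 / (a : ℝ) + 1 ≤ Real.exp (1 / a) := Real.add_one_le_exp _
    have h4 : (1 / (a : ℝ) + 1) ^ n ≤ Real.exp (1 / a) ^ n := pow_le_pow_left₀ (by positivity) h3 n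
    have h5 : Real.exp (1 / a) ^ n ≤ Real.exp 1 ^ L := by
      rw [← Real.exp_nat_mul, ← Real.exp_nat_mul, Real.exp_le_exp]
      have h6 : (n : ℝ) ≤ L * a := by exact_mod_cast hn
      rw [mul_one, mul_one_div, div_le_iff₀ ha0]
      exact h6
    have h7 : Real.exp 1 ^ L ≤ (3 : ℝ) ^ L := by
      refine pow_le_pow_left₀ (Real.exp_pos _).le ?_ L
      have := Real.exp_one_lt_d9
      linarith
    exact h4.trans (h5.trans h7)
  have h3 : (n.choose k : ℝ) ≤ 3 ^ L * (a : ℝ) ^ k := by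
    have h4 := h1.trans h2
    rw [one_div, inv_pow, ← div_eq_mul_inv, div_le_iff₀ (pow_pos ha0 k)] at h4
    exact h4
  have h4 : (a : ℝ) ^ k ≤ ((a : ℝ) ^ κ) ^ L := by
    rw [← pow_mul]
    exact pow_le_pow_right₀ ha1 hk
  have h5 : (n.choose k : ℝ) ≤ ((3 * (a : ℝ) ^ κ)) ^ L := by
    rw [mul_pow]
    exact h3.trans (mul_le_mul_of_nonneg_left h4 (by positivity))
  exact_mod_cast h5

namespace PCountAux

/-- index maps on bounded sets -/
theorem exists_idx {Y : Type} {N : ℕ} (A : Set Y) (h : ∀ s : Finset Y, (∀ y ∈ s, y ∈ A) → s.card ≤ N) :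
    ∃ f : Y → ℕ, (∀ y ∈ A, f y < N) ∧ ∀ y ∈ A, ∀ y' ∈ A, f y = f y' → y = y' := by
  classical
  have hfin : A.Finite := by
    by_contra hinf
    obtain ⟨s, hs, hc⟩ := Set.Infinite.exists_subset_card_eq hinf (N + 1)
    have := h s (fun y hy => hs hy)
    omega
  have hcard : hfin.toFinset.card ≤ N := h _ (fun y hy => hfin.mem_toFinset.mp hy)
  refine ⟨fun y => if hy : y ∈ hfin.toFinset then (hfin.toFinset.equivFin ⟨y, hy⟩ : ℕ) else 0, ?_, ?_⟩
  · intro y hy
    have hy' : y ∈ hfin.toFinset := hfin.mem_toFinset.mpr hy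
    simp only [hy', dif_pos]
    exact lt_of_lt_of_le (Fin.isLt _) hcard
  · intro y hy y' hy' he
    have h1 : y ∈ hfin.toFinset := hfin.mem_toFinset.mpr hy
    have h2 : y' ∈ hfin.toFinset := hfin.mem_toFinset.mpr hy'
    simp only [h1, h2, dif_pos] at he
    have h3 := hfin.toFinset.equivFin.injective (Fin.ext he)
    exact congrArg Subtype.val h3

/-- strictly increasing lists of naturals are determined by their set -/
theorem eq_of_toFinset {l l' : List ℕ} (h : l.Pairwise (· < ·)) (h' : l'.Pairwise (· < ·))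
    (he : l.toFinset = l'.toFinset) : l = l' := by
  have hn : l.Nodup := h.imp fun hab => hab.ne
  have hn' : l'.Nodup := h'.imp fun hab => hab.ne
  have hp : l.Perm l' := List.perm_of_nodup_nodup_toFinset_eq hn hn' he
  exact hp.eq_of_pairwise (fun a b _ _ h1 h2 => absurd h1 (not_lt.mpr h2.le)) h h'

/-- the counting principle -/
theorem count {Y : Type} {A : Set Y} {n nu : ℕ} (tm : Y → ℕ) (ht : ∀ y ∈ A, 1 ≤ tm y ∧ tm y ≤ n)
    (hf : ∀ s : Finset Y, (∀ y ∈ s, y ∈ A) → (∀ x ∈ s, ∀ y ∈ s, tm x = tm y) → s.card ≤ nu) (k : ℕ) :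
    {l : List Y | l.length = k ∧ (∀ y ∈ l, y ∈ A) ∧ l.Pairwise (fun y y' => tm y < tm y')}.Finite ∧
    {l : List Y | l.length = k ∧ (∀ y ∈ l, y ∈ A) ∧ l.Pairwise (fun y y' => tm y < tm y')}.ncard ≤
      n.choose k * nu ^ k := by
  classical
  have h1 : ∀ t : ℕ, ∃ f : Y → ℕ, (∀ y ∈ {y | y ∈ A ∧ tm y = t}, f y < nu) ∧
      ∀ y ∈ {y | y ∈ A ∧ tm y = t}, ∀ y' ∈ {y | y ∈ A ∧ tm y = t}, f y = f y' → y = y' := fun t =>
    exists_idx _ (fun s hs => hf s (fun y hy => (hs y hy).1)
      (fun x hx y hy => (hs x hx).2.trans (hs y hy).2.symm))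
  choose f hf1 hf2 using h1
  obtain ⟨idx, hidx⟩ : ∃ idx : Y → ℕ, idx = fun y => f (tm y) y := ⟨_, rfl⟩
  have hi1 : ∀ y ∈ A, idx y < nu := fun y hy => by
    rw [hidx]
    exact hf1 (tm y) y ⟨hy, rfl⟩
  have hi2 : ∀ y ∈ A, ∀ y' ∈ A, tm y = tm y' → idx y = idx y' → y = y' := by
    intro y hy y' hy' he hi
    rw [hidx] at hi
    simp only [he] at hi
    exact hf2 (tm y') y ⟨hy, he⟩ y' ⟨hy', rfl⟩ hi
  obtain ⟨S, hS⟩ : ∃ S : Set (List Y), S = {l : List Y | l.length = k ∧ (∀ y ∈ l, y ∈ A) ∧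
    l.Pairwise (fun y y' => tm y < tm y')} := ⟨_, rfl⟩
  rw [← hS]
  obtain ⟨T, hT⟩ : ∃ T : Finset (Finset ℕ × (Fin k → ℕ)), T = (Finset.powersetCard k (Finset.Icc 1 n)) ×ˢ
    (Fintype.piFinset fun _ : Fin k => Finset.range nu) := ⟨_, rfl⟩
  have hTcard : T.card = n.choose k * nu ^ k := by
    rw [hT, Finset.card_product, Finset.card_powersetCard, Nat.card_Icc, Fintype.card_piFinset]
    simp
  obtain ⟨Ψ, hΨ⟩ : ∃ Ψ : List Y → Finset ℕ × (Fin k → ℕ), Ψ = fun l =>
    ((l.map tm).toFinset, fun i => (l.map idx).getD i 0) := ⟨_, rfl⟩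
  have hpw : ∀ l ∈ S, (l.map tm).Pairwise (· < ·) := by
    intro l hl
    rw [hS] at hl
    rw [List.pairwise_map]
    exact hl.2.2
  have hmaps : ∀ l ∈ S, Ψ l ∈ (T : Set (Finset ℕ × (Fin k → ℕ))) := by
    intro l hl
    have hp := hpw l hl
    rw [hS] at hl
    obtain ⟨hlen, hA, -⟩ := hl
    rw [hΨ, hT]
    simp only [Finset.coe_product, Set.mem_prod, Finset.mem_coe, Finset.mem_powersetCard,
      Fintype.mem_piFinset, Finset.mem_range]
    refine ⟨⟨?_, ?_⟩, ?_⟩
    · intro t htt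
      rw [List.mem_toFinset, List.mem_map] at htt
      obtain ⟨y, hy, rfl⟩ := htt
      rw [Finset.mem_Icc]
      exact ht y (hA y hy)
    · rw [List.toFinset_card_of_nodup (hp.imp fun hab => hab.ne), List.length_map, hlen]
    · intro i
      have hi : (i : ℕ) < (l.map idx).length := by
        rw [List.length_map, hlen]
        exact i.2
      rw [List.getD_eq_getElem _ _ hi, List.getElem_map]
      exact hi1 _ (hA _ (List.getElem_mem _))
  have hinj : Set.InjOn Ψ S := by
    intro l hl l' hl' he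
    have hp := hpw l hl
    have hp' := hpw l' hl'
    rw [hS] at hl hl'
    obtain ⟨hlen, hA, -⟩ := hl
    obtain ⟨hlen', hA', -⟩ := hl'
    rw [hΨ] at he
    simp only [Prod.mk.injEq] at he
    have h1 := eq_of_toFinset hp hp' he.1
    apply List.ext_getElem (hlen.trans hlen'.symm)
    intro i hi hi'
    apply hi2 _ (hA _ (List.getElem_mem _)) _ (hA' _ (List.getElem_mem _))
    · have h3 : (l.map tm)[i]'(by rw [List.length_map]; exact hi) =
          (l'.map tm)[i]'(by rw [List.length_map]; exact hi') := by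
        simp only [h1]
      rw [List.getElem_map, List.getElem_map] at h3
      exact h3
    · have h3 := congrFun he.2 ⟨i, by omega⟩
      simp only at h3
      rw [List.getD_eq_getElem _ _ (by rw [List.length_map]; exact hi),
        List.getD_eq_getElem _ _ (by rw [List.length_map]; exact hi'), List.getElem_map,
        List.getElem_map] at h3
      exact h3
  refine ⟨Set.Finite.of_injOn hmaps hinj T.finite_toSet, ?_⟩
  have h4 := Set.ncard_le_ncard_of_injOn Ψ hmaps hinj T.finite_toSet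
  rw [Set.ncard_coe_finset, hTcard] at h4
  exact h4

end PCountAux

namespace Proj

variable {G Y ι : Type} [Group G] [MulAction G Y] [Fintype ι] (P : Proj G Y ι)

theorem count_seq {S : Finset G} {D : ℕ}
    (hD : ∀ (y : Y) (g s : G), s = 1 ∨ s ∈ S ∨ s⁻¹ ∈ S → P.dd y g (g * s) ≤ D)
    {σ : List G} (hσ : ∀ s ∈ σ, s ∈ S ∨ s⁻¹ ∈ S) (k : ℕ) :
    {l : List Y | l.length = k ∧ (∀ y ∈ l, 13 * P.B + 6 * D + 2 ≤ P.dd y 1 σ.prod) ∧
      l.Pairwise (fun y y' => P.time D σ y < P.time D σ y')}.Finite ∧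
    {l : List Y | l.length = k ∧ (∀ y ∈ l, 13 * P.B + 6 * D + 2 ≤ P.dd y 1 σ.prod) ∧
      l.Pairwise (fun y y' => P.time D σ y < P.time D σ y')}.ncard ≤
      σ.length.choose k * P.nu ^ k := by
  refine PCountAux.count (A := {y | 13 * P.B + 6 * D + 2 ≤ P.dd y 1 σ.prod}) (P.time D σ) ?_ ?_ k
  · intro y hy
    have hy' : 13 * P.B + 6 * D + 2 ≤ P.dd y 1 σ.prod := hy
    have h := P.time_spec hD hσ (y := y) (by omega)
    exact ⟨h.1, h.2.1⟩
  · intro s hs hst
    apply P.nc_card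
    intro x hx y hy hc
    exact P.time_ne hD hσ hc (hs x hx) (hs y hy) (hst y hy x hx)

end Proj

end Pool.Agent.LDJ
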