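import Pool.Agent.LDJ.PDef
import Pool.Agent.LDJ.CDef

/-!
LDJ.PFib: a tuple is determined, up to `Q^L` possibilities, by its types and its markers.

PROOF. (1) Let `w` be a walk containing all indices. `H = {h | marks w is fixed by h}` is a
subgroup; it is finite: write `w = (i_1,e_1), ..., (i_κ,e_κ)`, `s_t = T i_t^(M e_t)`. Let
`H_0 = H` and `H_t = {h ∈ H_(t-1) | h commutes with T (i_t)}`. An element of `H_(t-1)` commutes with
`s_1, ..., s_(t-1)` and fixes `s_1...s_(t-1) • base i_t`, so it fixes `base i_t`, so by `T_comm`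
`h T h⁻¹ = T^(±1)`, `T = T i_t`; hence for `h, h' ∈ H_(t-1)` not in `H_t` the quotient
`h⁻¹ h' ∈ H_t`, i.e. `H_t` has index at most 2 in `H_(t-1)`. `H_κ` fixes all `base i`, so it is
finite (`stab_fin`), so `H` is finite. (Direct version: by induction on `w`, for every list `w`:
if `{h | h fixes base i for all i, and h fixes all of marks}` ... any variant is fine.)
(2) `{h | (marks w).map (h • ·) = Z}` is empty or a coset `h_0 H`; so it has at most `#H` elements.
There are finitely many `w i ε δ` (`i : ι`, `ε δ : Bool`), so `Q` exists (`fib1`), `Q ≥ 1`.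
(3) `fib`: induction on `L`. For `l = f :: l'`: the types give the walk `w` of the first block,
`mks l = f • marks w ++ (f c) • mks l'` so the first `w.length` entries give `f` up to `Q`
possibilities; then `c = val w` is known and `mks l'` is known. The type of `f :: l'` at `f` is
`(a f, ep f, de (l'.headD 1))`. About 200 lines.
-/

namespace Pool.Agent.LDJ

namespace Proj

variable {G Y ι : Type} [Group G] [MulAction G Y] [Fintype ι] {P : Proj G Y ι}

/-- the types of the connectors -/
def Conn.types {N : Subgroup G} {M0 : ℕ} (K : P.Conn N M0) : List G → List (ι × Bool × Bool)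
  | [] => []
  | f :: l => (K.a f, K.ep f, K.de (l.headD 1)) :: types K l

theorem fib_aux (P : Proj G Y ι) (M : ℤ) : ∀ (w : List (ι × ℤ)) (I : Set ι),
    (∀ i, i ∈ I ∨ ∃ e, (i, e) ∈ w) →
    {h : G | (∀ i ∈ I, h • P.base i = P.base i ∧ h * P.T i = P.T i * h) ∧
      ∀ y ∈ P.marks M w, h • y = y}.Finite := by
  intro w
  induction w with
  | nil =>
    intro I hI
    refine P.stab_fin.subset ?_
    rintro h ⟨h1, -⟩ i
    rcases hI i with hi | ⟨e, he⟩
    · exact (h1 i hi).1
    · simp at he
  | cons p w ih =>
    intro I hI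
    obtain ⟨i, e⟩ := p
    set A : Set G := {h : G | (∀ i ∈ I, h • P.base i = P.base i ∧ h * P.T i = P.T i * h) ∧
      ∀ y ∈ P.marks M ((i, e) :: w), h • y = y} with hA
    have hAmul : ∀ g ∈ A, ∀ h ∈ A, g⁻¹ * h ∈ A := by
      rintro g ⟨g1, g2⟩ h ⟨h1, h2⟩
      refine ⟨fun j hj => ⟨?_, ?_⟩, fun y hy => ?_⟩
      · rw [mul_smul, (h1 j hj).1, inv_smul_eq_iff, (g1 j hj).1]
      · have e1 := (h1 j hj).2
        have e2 := (g1 j hj).2
        have e3 : g⁻¹ * P.T j = P.T j * g⁻¹ := by
          rw [inv_mul_eq_iff_eq_mul, ← mul_assoc, e2, mul_assoc, mul_inv_cancel, mul_one]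
        rw [mul_assoc, e1, ← mul_assoc, e3, mul_assoc]
      · rw [mul_smul, h2 y hy, inv_smul_eq_iff, g2 y hy]
    set A1 : Set G := {h ∈ A | h * P.T i = P.T i * h} with hA1
    have hbase : ∀ h ∈ A, h • P.base i = P.base i := by
      rintro h ⟨-, h2⟩
      exact h2 _ (by simp [marks])
    have hfin : A1.Finite := by
      refine (ih (insert i I) ?_).subset ?_
      · intro j
        rcases hI j with hj | ⟨e', he⟩
        · exact Or.inl (Set.mem_insert_of_mem i hj)
        · rw [List.mem_cons] at he
          rcases he with he | he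
          · left
            rw [Prod.mk.injEq] at he
            rw [he.1]
            exact Set.mem_insert i I
          · exact Or.inr ⟨e', he⟩
      · rintro h ⟨hh, hc⟩
        refine ⟨fun j hj => ?_, fun y hy => ?_⟩
        · rcases hj with rfl | hj
          · exact ⟨hbase h hh, hc⟩
          · exact hh.1 j hj
        · have h3 : h • ((P.T i ^ (M * e)) • y) = (P.T i ^ (M * e)) • y := by
            apply hh.2
            simp only [marks, List.mem_cons, List.mem_map]
            exact Or.inr ⟨y, hy, rfl⟩
          have h4 : h * P.T i ^ (M * e) = P.T i ^ (M * e) * h :=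
            (Commute.zpow_right (show Commute h (P.T i) from hc) (M * e))
          rw [← mul_smul, h4, mul_smul] at h3
          exact MulAction.injective _ h3
    by_cases hex : ∃ g ∈ A, g ∉ A1
    · obtain ⟨g, hg, hg1⟩ := hex
      have hneg : ∀ h ∈ A, h ∉ A1 → h * P.T i * h⁻¹ = (P.T i)⁻¹ := by
        intro h hh hh1
        rcases P.T_comm i h (hbase h hh) with h5 | h5
        · exact absurd ⟨hh, mul_inv_eq_iff_eq_mul.mp h5⟩ hh1
        · exact h5
      refine (hfin.union (hfin.image (fun x => g * x))).subset ?_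
      intro h hh
      by_cases hh1 : h ∈ A1
      · exact Or.inl hh1
      · right
        refine ⟨g⁻¹ * h, ⟨hAmul g hg h hh, ?_⟩, by group⟩
        have e1 := hneg g hg hg1
        have e2 := hneg h hh hh1
        have e3 : h * P.T i = (P.T i)⁻¹ * h := mul_inv_eq_iff_eq_mul.mp e2
        have e4 : g * P.T i = (P.T i)⁻¹ * g := mul_inv_eq_iff_eq_mul.mp e1
        have e5 : g⁻¹ * (P.T i)⁻¹ = P.T i * g⁻¹ := by
          rw [inv_mul_eq_iff_eq_mul, ← mul_assoc, e4, mul_assoc, mul_inv_cancel, mul_one]
        rw [mul_assoc, e3, ← mul_assoc, e5, mul_assoc]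
    · push Not at hex
      exact hfin.subset fun h hh => hex h hh

theorem fib1 {N : Subgroup G} {M0 : ℕ} (K : P.Conn N M0) :
    ∃ Q : ℕ, 1 ≤ Q ∧ ∀ (i : ι) (ε δ : Bool) (Z : List Y),
      {h : G | (P.marks K.M (K.w i ε δ)).map (fun y => h • y) = Z}.Finite ∧
      {h : G | (P.marks K.M (K.w i ε δ)).map (fun y => h • y) = Z}.ncard ≤ Q := by
  classical
  let H : ι × Bool × Bool → Set G := fun t =>
    {h : G | ∀ y ∈ P.marks K.M (K.w t.1 t.2.1 t.2.2), h • y = y}
  have hH : ∀ t, (H t).Finite := by
    intro t
    refine (fib_aux P K.M (K.w t.1 t.2.1 t.2.2) ∅ fun i => Or.inr (K.all _ _ _ i)).subset ?_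
    intro h hh
    exact ⟨fun i hi => absurd hi (Set.notMem_empty i), hh⟩
  refine ⟨1 + ∑ t, (H t).ncard, Nat.le_add_right _ _, fun i ε δ Z => ?_⟩
  rcases Set.eq_empty_or_nonempty
    {h : G | (P.marks K.M (K.w i ε δ)).map (fun y => h • y) = Z} with h0 | ⟨g, hg⟩
  · rw [h0]
    exact ⟨Set.finite_empty, by simp⟩
  · have hsub : {h : G | (P.marks K.M (K.w i ε δ)).map (fun y => h • y) = Z} ⊆
        (fun x => g * x) '' H (i, ε, δ) := by
      intro h hh
      refine ⟨g⁻¹ * h, fun y hy => ?_, by group⟩
      have h1 : (P.marks K.M (K.w i ε δ)).map (fun y => h • y) =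
          (P.marks K.M (K.w i ε δ)).map (fun y => g • y) := hh.trans hg.symm
      rw [List.map_inj_left] at h1
      rw [mul_smul, h1 y hy, inv_smul_smul]
    have hfin := (hH (i, ε, δ)).image (fun x => g * x)
    refine ⟨hfin.subset hsub, ?_⟩
    calc _ ≤ ((fun x => g * x) '' H (i, ε, δ)).ncard := Set.ncard_le_ncard hsub hfin
      _ ≤ (H (i, ε, δ)).ncard := Set.ncard_image_le (hH _)
      _ ≤ ∑ t, (H t).ncard :=
        Finset.single_le_sum (f := fun t => (H t).ncard) (fun t _ => Nat.zero_le _)
          (Finset.mem_univ (i, ε, δ))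
      _ ≤ _ := Nat.le_add_left _ _

theorem fib {N : Subgroup G} {M0 : ℕ} (K : P.Conn N M0) :
    ∃ Q : ℕ, ∀ (L : ℕ) (τ : List (ι × Bool × Bool)) (Z : List Y),
      {l : List G | l.length = L ∧ K.types l = τ ∧ K.mks l = Z}.Finite ∧
      {l : List G | l.length = L ∧ K.types l = τ ∧ K.mks l = Z}.ncard ≤ Q ^ L := by
  classical
  obtain ⟨Q, hQ1, hQ⟩ := fib1 K
  refine ⟨Q, fun L => ?_⟩
  induction L with
  | zero =>
    intro τ Z
    have hsub : {l : List G | l.length = 0 ∧ K.types l = τ ∧ K.mks l = Z} ⊆ {[]} := by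
      rintro l ⟨h1, -, -⟩
      rw [Set.mem_singleton_iff]
      exact List.length_eq_zero_iff.mp h1
    refine ⟨(Set.finite_singleton _).subset hsub, ?_⟩
    rw [pow_zero, ← Set.ncard_singleton ([] : List G)]
    exact Set.ncard_le_ncard hsub (Set.finite_singleton _)
  | succ L ih =>
    intro τ Z
    rcases τ with _ | ⟨t, τ'⟩
    · have h0 : {l : List G | l.length = L + 1 ∧ K.types l = [] ∧ K.mks l = Z} = ∅ := by
        rw [Set.eq_empty_iff_forall_notMem]
        rintro l ⟨h1, h2, -⟩
        rcases l with _ | ⟨f, l⟩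
        · simp at h1
        · simp [Conn.types] at h2
      rw [h0]
      exact ⟨Set.finite_empty, by simp⟩
    · set w := K.w t.1 t.2.1 t.2.2 with hw
      set n := (P.marks K.M w).length with hn
      have hF := hQ t.1 t.2.1 t.2.2 (Z.take n)
      let Zf : G → List Y := fun f => (Z.drop n).map (fun y => (f * P.val K.M w)⁻¹ • y)
      let A : G → Finset (List G) := fun f => (ih τ' (Zf f)).1.toFinset
      let B : Finset (List G) := hF.1.toFinset.biUnion fun f => (A f).image (fun l => f :: l)
      have hsub : {l : List G | l.length = L + 1 ∧ K.types l = t :: τ' ∧ K.mks l = Z} ⊆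
          (B : Set (List G)) := by
        rintro l ⟨h1, h2, h3⟩
        rcases l with _ | ⟨f, l⟩
        · simp at h1
        · simp only [Conn.types, List.cons.injEq] at h2
          obtain ⟨h2, h4⟩ := h2
          have hww : K.ww f (l.headD 1) = w := by
            rw [hw, ← h2]
            rfl
          simp only [Conn.mks, Conn.c, hww] at h3
          have h5 : Z.take n = (P.marks K.M w).map (fun y => f • y) := by
            rw [← h3, List.take_left' (by rw [List.length_map])]
          have h6 : Z.drop n = (K.mks l).map (fun y => (f * P.val K.M w) • y) := by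
            rw [← h3, List.drop_left' (by rw [List.length_map])]
          have h7 : Zf f = K.mks l := by
            simp only [Zf]
            rw [h6, List.map_map]
            conv_rhs => rw [← List.map_id (K.mks l)]
            refine List.map_congr_left fun y _ => ?_
            simp only [Function.comp, inv_smul_smul, id]
          simp only [B, Finset.coe_biUnion, Set.mem_iUnion]
          refine ⟨f, ?_, ?_⟩
          · rw [Finset.mem_coe, Set.Finite.mem_toFinset]
            exact h5.symm
          · rw [Finset.mem_coe, Finset.mem_image]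
            refine ⟨l, ?_, rfl⟩
            simp only [A]
            rw [Set.Finite.mem_toFinset]
            exact ⟨by simpa using h1, h4, h7.symm⟩
      refine ⟨B.finite_toSet.subset hsub, ?_⟩
      calc _ ≤ (B : Set (List G)).ncard := Set.ncard_le_ncard hsub B.finite_toSet
        _ = B.card := Set.ncard_coe_finset B
        _ ≤ ∑ f ∈ hF.1.toFinset, ((A f).image (fun l => f :: l)).card := Finset.card_biUnion_le
        _ ≤ ∑ f ∈ hF.1.toFinset, Q ^ L := by
          refine Finset.sum_le_sum fun f _ => Finset.card_image_le.trans ?_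
          have h8 := (ih τ' (Zf f)).2
          rwa [Set.ncard_eq_toFinset_card _ (ih τ' (Zf f)).1] at h8
        _ = hF.1.toFinset.card * Q ^ L := by rw [Finset.sum_const, smul_eq_mul]
        _ ≤ Q * Q ^ L := by
          refine Nat.mul_le_mul_right _ ?_
          have h9 := hF.2
          rwa [Set.ncard_eq_toFinset_card _ hF.1] at h9
        _ = Q ^ (L + 1) := by rw [pow_succ, mul_comm]

end Proj

end Pool.Agent.LDJ
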