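import Pool.Agent.LDJ.PDef
import Pool.Agent.LDJ.CDef

/-!
LDJ.PMk: the markers of `f_1 c(f_1,f_2) ... f_L c(f_L,1)` form a chain with large projections.

PROOF. (0) `Tri`, `Crs` are invariant under translation `List.map (g • ·)` (`d_smul`, `cr_smul`).
If `Tri (u ++ [x, y])` and `Tri (x :: y :: v)` then `Tri (u ++ x :: y :: v)`; similarly for `Crs`.
(1) For a walk `w` the list `marks M w` has the length of `w` and satisfies `Crs` and (by `inner`)
`Tri`: consecutive markers are, after translation by the value of the prefix before the letter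
`(j, e)`: `base i` (the previous marker; `T i` fixes `base i`), `base j`, `T j^(M e) • base k`.
(2) The last marker of `marks M w` is `val M w • base i` for the index `i` of the last letter
(`T_fix`).
(3) By induction on `l`: for every `l`, `Crs (base b :: mks l)` and `Tri (base b :: mks l)`, and if
`l ≠ []` then the last element of `mks l` is `wd c l • base b`. Step `f :: l`, `c = c f f'`: the
list is `base b :: f • marks w ++ (f c) • mks l`. The first part: `base b`, `f • base (a f)` cross
(`c0`, `cr_symm`), and the triple `base b, f • base (a f), f T^(..) • base (nb (a f))` is large by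
`c1` (translate by `f⁻¹`), the rest of `f • marks w` by (1). The last element of `f • marks w` is
`(f c) • base b` by (2), so the second part is controlled by the induction hypothesis translated by
`f c`; the triple around the junction is
`(before last marker), (f c) • base b, (f c f') • base (a f')`; with
`g = ` (value of everything before the last letter `(b, δ)`) it is the translate by `g` of
`base (nb b)` (`T_fix`), `base b`, `T b^(Mδ) f' • base (a f')`, large by `c2`. (if `l = []` there
is no such triple.) About 250 lines.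
-/

namespace Pool.Agent.LDJ

namespace Proj

variable {G Y ι : Type} [Group G] [MulAction G Y] [Fintype ι] {P : Proj G Y ι}

theorem pmk_tri_cons {M : ℕ} {x : Y} {l : List Y} (h : P.Tri M (x :: l)) : P.Tri M l := by
  match l, h with
  | [], _ => trivial
  | [_], _ => trivial
  | _ :: _ :: _, h => exact h.2

theorem pmk_tri_map {M : ℕ} (g : G) (l : List Y) (h : P.Tri M l) :
    P.Tri M (l.map (fun y => g • y)) := by
  induction l with
  | nil => trivial
  | cons x l ih =>
    match l, h, ih with
    | [], _, _ => trivial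
    | [_], _, _ => trivial
    | y :: z :: l, h, ih =>
      refine ⟨?_, ih h.2⟩
      rw [P.d_smul]
      exact h.1

theorem pmk_tri_append {M : ℕ} {x y : Y} {v : List Y} (u : List Y) (h1 : P.Tri M (u ++ [x, y]))
    (h2 : P.Tri M (x :: y :: v)) : P.Tri M (u ++ x :: y :: v) := by
  induction u with
  | nil => exact h2
  | cons p u ih =>
    have h3 := ih (pmk_tri_cons h1)
    match u, h1, h3 with
    | [], h1, h3 => exact ⟨h1.1, h3⟩
    | [q], h1, h3 => exact ⟨h1.1, h3⟩
    | q :: r :: u, h1, h3 => exact ⟨h1.1, h3⟩

theorem pmk_crs_map (g : G) (l : List Y) (h : P.Crs l) : P.Crs (l.map (fun y => g • y)) := by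
  unfold Crs at *
  rw [List.isChain_map]
  exact h.imp fun x y hxy => P.cr_smul g x y hxy

theorem pmk_Tfix (i : ι) (n : ℤ) : P.T i ^ n • P.base i = P.base i := by
  have h : P.T i ∈ MulAction.stabilizer G (P.base i) := P.T_fix i
  exact Subgroup.zpow_mem _ h n

theorem pmk_walk {M0 : ℕ} (M : ℤ)
    (inner : ∀ i j k (e : ℤ), P.cr (P.base i) (P.base j) → P.cr (P.base j) (P.base k) → e ≠ 0 →
      M0 ≤ P.d (P.base j) (P.base i) ((P.T j ^ (M * e)) • P.base k))
    (w : List (ι × ℤ)) : ∀ (p : ι × ℤ) (i : ι), P.IsWalk (p :: w) → P.cr (P.base i) (P.base p.1) →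
      P.Crs (P.base i :: P.marks M (p :: w)) ∧ P.Tri M0 (P.base i :: P.marks M (p :: w)) := by
  induction w with
  | nil =>
    intro p i _ hi
    refine ⟨?_, trivial⟩
    show List.IsChain P.cr [P.base i, P.base p.1]
    exact List.isChain_pair.mpr hi
  | cons q w ih =>
    intro p i hw hi
    have hpq : P.cr (P.base p.1) (P.base q.1) := (List.isChain_cons_cons.mp hw.2).1
    have hq : P.IsWalk (q :: w) :=
      ⟨fun r hr => hw.1 r (List.mem_cons_of_mem _ hr), (List.isChain_cons_cons.mp hw.2).2⟩
    obtain ⟨h1, h2⟩ := ih q p.1 hq hpq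
    have hm : P.base p.1 :: (P.marks M (q :: w)).map (fun y => (P.T p.1 ^ (M * p.2)) • y) =
        (P.base p.1 :: P.marks M (q :: w)).map (fun y => (P.T p.1 ^ (M * p.2)) • y) := by
      rw [List.map_cons, pmk_Tfix]
    have h3 := pmk_crs_map (P.T p.1 ^ (M * p.2)) _ h1
    have h4 := pmk_tri_map (P.T p.1 ^ (M * p.2)) _ h2
    rw [← hm] at h3 h4
    refine ⟨List.isChain_cons_cons.mpr ⟨hi, h3⟩, ?_⟩
    exact ⟨inner i p.1 q.1 p.2 hi hpq (hw.1 p List.mem_cons_self), h4⟩

theorem pmk_marks_append (M : ℤ) (u v : List (ι × ℤ)) : P.marks M (u ++ v) =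
    P.marks M u ++ (P.marks M v).map (fun y => P.val M u • y) := by
  induction u with
  | nil =>
    simp [marks, val]
  | cons p u ih =>
    show P.base p.1 :: (P.marks M (u ++ v)).map _ = _
    rw [ih]
    simp only [marks, List.map_append, List.map_map, List.cons_append, Function.comp_def, smul_smul,
      val, List.map_cons, List.prod_cons]

theorem pmk_val_append (M : ℤ) (u v : List (ι × ℤ)) : P.val M (u ++ v) = P.val M u * P.val M v := by
  simp [val]

theorem mks_chain {N : Subgroup G} {M0 : ℕ} (K : P.Conn N M0) (l : List G) :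
    P.Crs (P.base K.b :: K.mks l) ∧ P.Tri M0 (P.base K.b :: K.mks l) ∧
    (l ≠ [] → (K.mks l).getLast? = some (wd K.c l • P.base K.b)) := by
  induction l with
  | nil =>
    refine ⟨List.isChain_singleton _, trivial, fun h => absurd rfl h⟩
  | cons f l ih =>
    obtain ⟨ih1, ih2, ih3⟩ := ih
    set f' := l.headD 1 with hf'
    set w := K.ww f f' with hw
    set c := K.c f f' with hc
    have hcv : c = P.val K.M w := rfl
    have hmks : K.mks (f :: l) = (P.marks K.M w).map (fun y => f • y) ++
      (K.mks l).map (fun y => (f * c) • y) := rfl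
    obtain ⟨u1, hu1⟩ := K.head (K.a f) (K.ep f) (K.de f')
    obtain ⟨u2, e, hu2⟩ := K.last (K.a f) (K.ep f) (K.de f')
    have hw1 : w = (K.a f, sg (K.ep f)) :: (K.nb (K.a f), 1) :: u1 := hu1
    have hw2 : w = u2 ++ [(K.nb K.b, e), (K.b, sg (K.de f'))] := hu2
    have hwalk : P.IsWalk w := K.walk _ _ _
    -- the first part
    have hA := pmk_walk K.M K.inner ((K.nb (K.a f), 1) :: u1) (K.a f, sg (K.ep f)) (K.nb (K.a f))
      (hw1 ▸ hwalk) (P.cr_symm _ _ (K.cr_nb _))
    rw [← hw1] at hA
    have hA1 := pmk_crs_map f _ hA.1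
    have hA2 := pmk_tri_map f _ (pmk_tri_cons hA.2)
    rw [List.map_cons] at hA1
    have hA1' : P.Crs ((P.marks K.M w).map (fun y => f • y)) := (List.isChain_cons.mp hA1).2
    have hX1 : P.Crs (P.base K.b :: (P.marks K.M w).map (fun y => f • y)) := by
      rw [hw1] at hA1' ⊢
      refine List.isChain_cons_cons.mpr ⟨P.cr_symm _ _ (K.c0 f), hA1'⟩
    have hX2 : P.Tri M0 (P.base K.b :: (P.marks K.M w).map (fun y => f • y)) := by
      have h1 := K.c1 f
      rw [← P.d_smul f, smul_inv_smul] at h1
      rw [hw1] at hA2 ⊢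
      exact ⟨h1, hA2⟩
    -- the last two markers
    have hlast : (P.marks K.M w).map (fun y => f • y) =
        (P.marks K.M u2).map (fun y => f • y) ++
          [(f * P.val K.M u2) • P.base (K.nb K.b), (f * c) • P.base K.b] := by
      have h1 : c = P.val K.M u2 * (P.T (K.nb K.b) ^ (K.M * e)) *
          (P.T K.b ^ (K.M * sg (K.de f'))) := by
        rw [hcv, hw2, pmk_val_append]
        simp [val, mul_assoc]
      rw [hw2, pmk_marks_append, List.map_append, List.map_map]
      congr 1
      simp only [marks, List.map_cons, List.map_nil, Function.comp_def, smul_smul]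
      rw [h1]
      congr 2
      simp only [mul_smul]
      rw [pmk_Tfix]
    have hg : ∀ z : Y, P.d ((f * c) • P.base K.b) ((f * P.val K.M u2) • P.base (K.nb K.b))
        ((f * c) • z) = P.d (P.base K.b) (P.base (K.nb K.b))
          ((P.T K.b ^ (K.M * sg (K.de f'))) • z) := by
      intro z
      have h1 : c = P.val K.M u2 * (P.T (K.nb K.b) ^ (K.M * e)) *
          (P.T K.b ^ (K.M * sg (K.de f'))) := by
        rw [hcv, hw2, pmk_val_append]
        simp [val, mul_assoc]
      obtain ⟨g, hgd⟩ : ∃ g, g = f * P.val K.M u2 * (P.T (K.nb K.b) ^ (K.M * e)) := ⟨_, rfl⟩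
      have h2 : f * c = g * (P.T K.b ^ (K.M * sg (K.de f'))) := by
        rw [h1, hgd]
        group
      have h3 : (f * P.val K.M u2) • P.base (K.nb K.b) = g • P.base (K.nb K.b) := by
        rw [hgd, mul_smul _ (P.T (K.nb K.b) ^ (K.M * e)), pmk_Tfix]
      have e1 : (g * (P.T K.b ^ (K.M * sg (K.de f')))) • P.base K.b = g • P.base K.b := by
        rw [mul_smul, pmk_Tfix]
      have e2 : (g * (P.T K.b ^ (K.M * sg (K.de f')))) • z =
          g • ((P.T K.b ^ (K.M * sg (K.de f'))) • z) := mul_smul _ _ _
      rw [h3, h2, e1, e2, P.d_smul]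
    have hB1 := pmk_crs_map (f * c) _ ih1
    have hB2 := pmk_tri_map (f * c) _ ih2
    rw [List.map_cons] at hB1 hB2
    have hall : P.base K.b :: K.mks (f :: l) =
        (P.base K.b :: (P.marks K.M u2).map (fun y => f • y)) ++
          (f * P.val K.M u2) • P.base (K.nb K.b) :: (f * c) • P.base K.b ::
            (K.mks l).map (fun y => (f * c) • y) := by
      rw [hmks, hlast]
      simp
    refine ⟨?_, ?_, ?_⟩
    · rw [hmks]
      show List.IsChain P.cr _
      rw [hlast] at hX1 ⊢
      have h1 : P.base K.b :: (((P.marks K.M u2).map (fun y => f • y) ++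
          [(f * P.val K.M u2) • P.base (K.nb K.b), (f * c) • P.base K.b]) ++
          (K.mks l).map (fun y => (f * c) • y)) =
          (P.base K.b :: ((P.marks K.M u2).map (fun y => f • y) ++
          [(f * P.val K.M u2) • P.base (K.nb K.b)])) ++ (f * c) • P.base K.b ::
          (K.mks l).map (fun y => (f * c) • y) := by simp
      rw [h1, List.isChain_split]
      refine ⟨?_, hB1⟩
      have h2 : (P.base K.b :: ((P.marks K.M u2).map (fun y => f • y) ++
          [(f * P.val K.M u2) • P.base (K.nb K.b)])) ++ [(f * c) • P.base K.b] =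
          P.base K.b :: ((P.marks K.M u2).map (fun y => f • y) ++
          [(f * P.val K.M u2) • P.base (K.nb K.b), (f * c) • P.base K.b]) := by simp
      rw [h2]
      exact hX1
    · rw [hall]
      refine pmk_tri_append _ ?_ ?_
      · rw [hlast] at hX2
        exact hX2
      · match l, hf', hB2 with
        | [], _, _ => trivial
        | f1 :: l, hf', hB2 =>
          have hf1 : f' = f1 := hf'
          obtain ⟨u3, hu3⟩ := K.head (K.a f1) (K.ep f1) (K.de (l.headD 1))
          have hw3 : K.ww f1 (l.headD 1) = (K.a f1, sg (K.ep f1)) :: (K.nb (K.a f1), 1) :: u3 := hu3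
          have hh : ∃ v, K.mks (f1 :: l) = f1 • P.base (K.a f1) :: v := by
            have e1 : K.mks (f1 :: l) = (P.marks K.M (K.ww f1 (l.headD 1))).map (fun y => f1 • y) ++
              (K.mks l).map (fun y => (f1 * K.c f1 (l.headD 1)) • y) := rfl
            rw [hw3] at e1
            rw [e1]
            exact ⟨_, rfl⟩
          obtain ⟨v, hv⟩ := hh
          rw [hv] at hB2 ⊢
          refine ⟨?_, hB2⟩
          rw [hg]
          have := K.c2 f'
          rw [hf1] at this ⊢
          exact this
    · intro _
      rw [hmks, List.getLast?_append]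
      match l, hf', ih3 with
      | [], hf', _ =>
        have h1 : K.mks ([] : List G) = [] := rfl
        have h2 : wd K.c [f] = f * K.c f 1 * 1 := rfl
        have hf1 : f' = 1 := hf'
        rw [h1, List.map_nil, hlast, h2, mul_one, hc, hf1]
        simp
      | f1 :: l, hf', ih3 =>
        have h1 := ih3 (by simp)
        have h2 : wd K.c (f :: f1 :: l) = f * K.c f ((f1 :: l).headD 1) * wd K.c (f1 :: l) := rfl
        rw [List.getLast?_map, h1, h2]
        simp [mul_smul, hc, hf']

end Proj

end Pool.Agent.LDJ
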