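import Pool.Agent.LDJ.PEnd
import Pool.Agent.LDJ.PCount
import Pool.Agent.LDJ.PConn
import Pool.Agent.LDJ.PMk
import Pool.Agent.LDJ.PFib

/-!
LDJ.PDec: decodability from annular projections.

PROOF. If `ι` is empty: `stab_fin` says that `G` is finite, decodability is trivial (`c = 1`,
`ell = 0`, `κ = 0`, `C = card G`). Otherwise fix `b : ι`. Let `D` be from `dd_lip S`, `B = P.B`,
`M2 = 13B + 6D + 2`, `M0 = M2 + 4B + 2D + 1` (so `5B + D < M0`), `K : P.Conn (Tc m) M0` from
`exists_Conn`. The connectors `K.c f f'` take finitely many values (`K.ww` depends on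
`(a f, ep f, de f')` only), so as `S` generates `G` they all lie in some `ball S ell`.
Let `kap` be the maximal length of the walks `K.w i ε δ`.
Let `l` be a list of length `L ≥ 1` over `ball S r`, with `wd K.c l = w`. Then
`w ∈ ball S (L(r+ell))` (induct, `ball_mul`), so there is `σ`, `σ.length ≤ L(r+ell)`, letters in
`S ∪ S⁻¹`, `σ.prod = w`; fix `σ` (for given `w`, `L`, `r`).
Let `y : ℕ → Y`, `y 0 = base b`, `y i = ` the `i`-th entry of `K.mks l` (`i ≤ n`, `n` the length of
`K.mks l`, `n = Σ walk lengths ≤ kap L`). `mks_chain` translates to the hypotheses `h1`, `h2` of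
`lg`, `end1`, `end2`; `y n = w • base b`. For base curves `c = base i`:
`d (y 1) (base i) (base b) ≤ dd (y 1) 1 1 ≤ D`; for `c' = w • base j`:
`d (y (n-1)) (w • base j) (w • base b) ≤ dd (y (n-1)) w w ≤ D` (`hD` with `s = 1`).
By `end2`: `M2 ≤ dd (y j) 1 w` for `1 ≤ j < n`. By `end1` (and `lg` for the crossing):
`near (2B+D) (y (j+1)) (y j) 1`, so `time (y j) < time (y (j+1))` (`time_lt`); so the list
`Z' = [y 1, ..., y (n-1)]` belongs to the set of `count_seq` with `k = n - 1`.
So `l` is determined, up to `Q^L` possibilities (`fib`), by its types `τ` (a list of length `L` in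
a set of `4 |ι|` elements) and `Z'` (`K.mks l = Z' ++ [w • base b]`); `k` is determined by
`τ` (sum of walk lengths minus 1), `k ≤ kap L`. The number of `l` is at most
`(4|ι|)^L * (σ.length.choose k * nu^k) * Q^L` for some `k ≤ kap L`
`≤ (4|ι|)^L (3 (r+ell+1)^kap)^L (nu+1)^(kap L) Q^L` (`choose_le` with `a = r+ell+1`), and
`(r+ell+1) ≤ (ell+1)(r+1)`. So `C = 12 |ι| (ell+1)^kap (nu+1)^kap Q`, `κ = kap`.
For `L = 0` the set is `{[]}` or empty. About 300 lines.
-/

namespace Pool.Agent.LDJ

open Pool.Agent.Hhelper67.Johnson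

namespace PDecAux

section lists

variable {X : Type} [DecidableEq X]

/-- lists of length `L` over `A` -/
def listsOf (A : Finset X) : ℕ → Finset (List X)
  | 0 => {[]}
  | L + 1 => (A ×ˢ listsOf A L).image (fun p => p.1 :: p.2)

theorem mem_listsOf (A : Finset X) (L : ℕ) (l : List X) :
    l ∈ listsOf A L ↔ l.length = L ∧ ∀ x ∈ l, x ∈ A := by
  induction L generalizing l with
  | zero =>
    rw [listsOf, Finset.mem_singleton, List.length_eq_zero_iff]
    constructor
    · rintro rfl
      exact ⟨rfl, by simp⟩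
    · exact fun h => h.1
  | succ L ih =>
    rw [listsOf, Finset.mem_image]
    constructor
    · rintro ⟨⟨a, t⟩, h, rfl⟩
      rw [Finset.mem_product, ih] at h
      refine ⟨by rw [List.length_cons, h.2.1], ?_⟩
      intro x hx
      rcases List.mem_cons.1 hx with rfl | hx
      · exact h.1
      · exact h.2.2 x hx
    · rintro ⟨h1, h2⟩
      rcases l with _ | ⟨a, t⟩
      · simp at h1
      · refine ⟨(a, t), ?_, rfl⟩
        rw [Finset.mem_product, ih]
        exact ⟨h2 a (by simp), by simpa using h1, fun x hx => h2 x (List.mem_cons_of_mem _ hx)⟩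

theorem card_listsOf (A : Finset X) (L : ℕ) : (listsOf A L).card ≤ A.card ^ L := by
  induction L with
  | zero => simp [listsOf]
  | succ L ih =>
    calc (listsOf A (L + 1)).card ≤ (A ×ˢ listsOf A L).card := Finset.card_image_le
      _ = A.card * (listsOf A L).card := Finset.card_product _ _
      _ ≤ A.card * A.card ^ L := Nat.mul_le_mul_left _ ih
      _ = A.card ^ (L + 1) := by rw [pow_succ, mul_comm]

end lists

section balls

variable {G : Type} [Group G]

theorem mem_ball_of_closure (S : Finset G) (hS : Subgroup.closure (S : Set G) = ⊤) (g : G) :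
    ∃ n, g ∈ ball S n := by
  have h : g ∈ Subgroup.closure (S : Set G) := by
    rw [hS]
    trivial
  induction h using Subgroup.closure_induction with
  | mem x hx =>
    refine ⟨1, [x], by simp, ?_, by simp⟩
    intro s hs
    rw [List.mem_singleton] at hs
    rw [hs]
    exact Or.inl hx
  | one => exact ⟨0, one_mem_ball S 0⟩
  | mul x y _ _ hx hy =>
    obtain ⟨n, hn⟩ := hx
    obtain ⟨k, hk⟩ := hy
    exact ⟨n + k, ball_mul hn hk⟩
  | inv x _ hx =>
    obtain ⟨n, hn⟩ := hx
    exact ⟨n, ball_inv hn⟩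

theorem exists_ball (S : Finset G) (hS : Subgroup.closure (S : Set G) = ⊤) {A : Set G}
    (hA : A.Finite) : ∃ n, A ⊆ ball S n := by
  choose f hf using mem_ball_of_closure S hS
  obtain ⟨n, hn⟩ := (hA.image f).bddAbove
  exact ⟨n, fun a ha => ball_mono (hn ⟨a, ha, rfl⟩) (hf a)⟩

theorem wd_mem_ball (S : Finset G) {c : G → G → G} {ell r : ℕ}
    (hc : ∀ f f', c f f' ∈ ball S ell) (l : List G) (hl : ∀ f ∈ l, f ∈ ball S r) :
    wd c l ∈ ball S (l.length * (r + ell)) := by
  induction l with
  | nil => exact one_mem_ball S _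
  | cons f l ih =>
    have h1 := ball_mul (ball_mul (hl f (by simp)) (hc f (l.headD 1)))
      (ih fun f' hf' => hl f' (List.mem_cons_of_mem _ hf'))
    refine ball_mono ?_ h1
    rw [List.length_cons, Nat.succ_mul, Nat.add_comm]

end balls

section geometry

variable {G Y ι : Type} [Group G] [MulAction G Y] [Fintype ι]

theorem tri_get {P : Proj G Y ι} {M : ℕ} : ∀ (z : List Y), P.Tri M z →
    ∀ i (h : i + 2 < z.length), M ≤ P.d z[i + 1] z[i] z[i + 2]
  | [], _, i, h => by simp at h
  | [x], _, i, h => by simp at h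
  | [x, y], _, i, h => by simp at h
  | x :: y :: z :: l, hT, i, h => by
    rw [Proj.Tri] at hT
    rcases i with _ | i
    · exact hT.1
    · exact tri_get (y :: z :: l) hT.2 i (by simpa using h)

theorem length_mks {P : Proj G Y ι} {N : Subgroup G} {M0 : ℕ} (K : P.Conn N M0) (l : List G) :
    (K.mks l).length = ((K.types l).map fun t => (K.w t.1 t.2.1 t.2.2).length).sum := by
  have hm : ∀ (M : ℤ) (w : List (ι × ℤ)), (P.marks M w).length = w.length := by
    intro M w
    induction w with
    | nil => rfl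
    | cons p w ih => simp [Proj.marks, ih]
  induction l with
  | nil => rfl
  | cons f l ih =>
    simp only [Proj.Conn.mks, Proj.Conn.types, List.length_append, List.length_map, hm,
      List.map_cons, List.sum_cons, ih]
    rfl

theorem length_types {P : Proj G Y ι} {N : Subgroup G} {M0 : ℕ} (K : P.Conn N M0) (l : List G) :
    (K.types l).length = l.length := by
  induction l with
  | nil => rfl
  | cons f l ih => simp [Proj.Conn.types, ih]

theorem geo (P : Proj G Y ι) {S : Finset G} {D : ℕ}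
    (hD : ∀ (y : Y) (g s : G), s = 1 ∨ s ∈ S ∨ s⁻¹ ∈ S → P.dd y g (g * s) ≤ D)
    {N : Subgroup G} {M0 : ℕ} (hM0 : 17 * P.B + 8 * D + 3 ≤ M0) (K : P.Conn N M0)
    {σ : List G} (hσ : ∀ s ∈ σ, s ∈ S ∨ s⁻¹ ∈ S) {l : List G} (hl : l ≠ [])
    (hw : wd K.c l = σ.prod) :
    ∃ Z : List Y, K.mks l = Z ++ [σ.prod • P.base K.b] ∧
      (∀ y ∈ Z, 13 * P.B + 6 * D + 2 ≤ P.dd y 1 σ.prod) ∧
      Z.Pairwise (fun y y' => P.time D σ y < P.time D σ y') := by
  obtain ⟨hc, ht, hlast⟩ := Proj.mks_chain K l
  have hlast := hlast hl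
  rw [hw] at hlast
  have hne : K.mks l ≠ [] := by
    intro h
    rw [h] at hlast
    simp at hlast
  have hlast2 : (K.mks l).getLast hne = σ.prod • P.base K.b := by
    rw [List.getLast?_eq_some_getLast hne] at hlast
    exact Option.some.inj hlast
  set Z := (K.mks l).dropLast with hZ
  have hZeq : K.mks l = Z ++ [σ.prod • P.base K.b] := by
    rw [← hlast2, hZ, List.dropLast_append_getLast]
  set z := P.base K.b :: K.mks l with hz
  set n := (K.mks l).length with hn
  have hn1 : 1 ≤ n := List.length_pos_iff.2 hne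
  have hzl : z.length = n + 1 := by rw [hz, List.length_cons]
  set y : ℕ → Y := fun i => z.getD i (P.base K.b) with hy
  have hyz : ∀ i (h : i < z.length), y i = z[i] := by
    intro i h
    simp only [hy]
    exact List.getD_eq_getElem _ _ h
  have h1 : ∀ i, i < n → P.cr (y i) (y (i + 1)) := by
    intro i hi
    rw [hyz i (by omega), hyz (i + 1) (by omega)]
    exact List.isChain_iff_getElem.1 hc i (by omega)
  have h2 : ∀ i, 0 < i → i < n → M0 ≤ P.d (y i) (y (i - 1)) (y (i + 1)) := by
    intro i hi0 hi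
    obtain ⟨j, rfl⟩ : ∃ j, i = j + 1 := ⟨i - 1, by omega⟩
    rw [Nat.add_sub_cancel, hyz j (by omega), hyz (j + 1) (by omega), hyz (j + 1 + 1) (by omega)]
    exact tri_get z ht j (by omega)
  have hy0 : y 0 = P.base K.b := by
    rw [hyz 0 (by omega)]
    rfl
  have hyn : y n = σ.prod • P.base K.b := by
    rw [hyz n (by omega), ← hlast2, List.getLast_eq_getElem]
    obtain ⟨k, hk⟩ : ∃ k, n = k + 1 := ⟨n - 1, by omega⟩
    simp only [hz, ← hn, hk, List.getElem_cons_succ, Nat.add_sub_cancel]
  have hZn : Z.length = n - 1 := by rw [hZ, List.length_dropLast]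
  have hZy : ∀ i (h : i < Z.length), Z[i] = y (i + 1) := by
    intro i h
    rw [hyz (i + 1) (by omega)]
    simp only [hz, List.getElem_cons_succ, hZ, List.getElem_dropLast]
  have hcc : ∀ i, (1 ≤ n → P.cr (P.base i) (y 1) → P.d (y 1) (P.base i) (y 0) ≤ D) := by
    intro i _ hcr
    have e1 : P.cr (P.base K.b) (y 1) := by
      rw [← hy0]
      exact h1 0 (by omega)
    have e2 := hD (y 1) 1 1 (Or.inl rfl)
    have e3 := P.le_dd (y := y 1) (g := 1) (h := 1) (i := i) (j := K.b)
      (by rw [one_smul]; exact hcr) (by rw [one_smul]; exact e1)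
    rw [one_smul, one_smul] at e3
    rw [mul_one] at e2
    rw [hy0]
    omega
  have hcc' : ∀ i, (1 ≤ n → P.cr (σ.prod • P.base i) (y (n - 1)) →
      P.d (y (n - 1)) (σ.prod • P.base i) (y n) ≤ D) := by
    intro i _ hcr
    have e1 : P.cr (σ.prod • P.base K.b) (y (n - 1)) := by
      rw [← hyn]
      have := h1 (n - 1) (by omega)
      rw [Nat.sub_add_cancel hn1] at this
      exact P.cr_symm _ _ this
    have e2 := hD (y (n - 1)) σ.prod 1 (Or.inl rfl)
    have e3 := P.le_dd hcr e1
    rw [mul_one] at e2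
    rw [hyn]
    omega
  have hfar : ∀ j, 1 ≤ j → j < n → 13 * P.B + 6 * D + 2 ≤ P.dd (y j) 1 σ.prod := by
    intro j hj1 hjn
    obtain ⟨i, hi⟩ := P.exists_cr (y j) 1
    obtain ⟨i', hi'⟩ := P.exists_cr (y j) σ.prod
    have e1 := P.le_dd hi hi'
    rw [one_smul] at hi e1
    have e2 := P.end2 (by omega) y h1 h2 (P.base i) (σ.prod • P.base i') (hcc i) (hcc' i') j hj1 hjn
      hi hi'
    omega
  have htime : ∀ j, 1 ≤ j → j + 1 < n → P.time D σ (y j) < P.time D σ (y (j + 1)) := by
    intro j hj1 hjn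
    refine P.time_lt hD hσ (P.cr_symm _ _ (h1 j (by omega))) (hfar (j + 1) (by omega) hjn)
      (hfar j hj1 (by omega)) ?_
    intro i hi
    rw [one_smul] at hi ⊢
    have e1 := P.end1 (by omega) y h1 h2 (P.base i) (hcc i) (j + 1) (by omega) (by omega) hi
    rw [Nat.add_sub_cancel] at e1
    omega
  refine ⟨Z, hZeq, ?_, ?_⟩
  · intro x hx
    obtain ⟨i, hi, rfl⟩ := List.mem_iff_getElem.1 hx
    rw [hZy i hi]
    exact hfar (i + 1) (by omega) (by omega)
  · have : IsTrans Y (fun y y' => P.time D σ y < P.time D σ y') := ⟨fun _ _ _ => lt_trans⟩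
    rw [← List.isChain_iff_pairwise, List.isChain_iff_getElem]
    intro i hi
    rw [hZy i (by omega), hZy (i + 1) hi]
    exact htime (i + 1) (by omega) (by omega)

end geometry

end PDecAux

open PDecAux

theorem Proj.decodable {G Y ι : Type} [Group G] [MulAction G Y] [Fintype ι] (P : Proj G Y ι)
    {Tc : ℕ → Subgroup G} (hT : Chain Tc) (hP : ∀ i, P.T i ∈ Tc 1) (S : Finset G)
    (hS : Subgroup.closure (S : Set G) = ⊤) (m : ℕ) (hm : 1 ≤ m) : Decodable S (Tc m) := by
  classical
  rcases isEmpty_or_nonempty ι with hι | ⟨⟨b⟩⟩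
  · have hfin : (Set.univ : Set G).Finite := by
      refine P.stab_fin.subset ?_
      intro g _ i
      exact hι.elim i
    refine ⟨fun _ _ => 1, 0, 0, hfin.toFinset.card, fun _ _ => (Tc m).one_mem,
      fun _ _ => one_mem_ball S 0, ?_⟩
    intro r L w
    rw [pow_zero, mul_one]
    refine le_trans ?_ (card_listsOf hfin.toFinset L)
    rw [← Set.ncard_coe_finset]
    refine Set.ncard_le_ncard ?_ (Finset.finite_toSet _)
    rintro l ⟨h1, -, -⟩
    rw [Finset.mem_coe, mem_listsOf]
    exact ⟨h1, fun x _ => by simp⟩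
  · obtain ⟨D, hD⟩ := P.dd_lip S
    obtain ⟨M0, hM0⟩ : ∃ M0, M0 = 17 * P.B + 8 * D + 3 := ⟨_, rfl⟩
    obtain ⟨K⟩ := P.exists_Conn hT hP m hm b M0
    obtain ⟨ell, hell⟩ := exists_ball S hS (Set.finite_range fun t : ι × Bool × Bool =>
      P.val K.M (K.w t.1 t.2.1 t.2.2))
    obtain ⟨kap, hkap⟩ : ∃ kap : ℕ, ∀ t : ι × Bool × Bool, (K.w t.1 t.2.1 t.2.2).length ≤ kap :=
      ⟨∑ t : ι × Bool × Bool, (K.w t.1 t.2.1 t.2.2).length, fun t =>
        Finset.single_le_sum (f := fun t : ι × Bool × Bool => (K.w t.1 t.2.1 t.2.2).length)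
          (fun _ _ => Nat.zero_le _) (Finset.mem_univ t)⟩
    obtain ⟨Q, hQ⟩ := Proj.fib K
    have hcb : ∀ f f', K.c f f' ∈ ball S ell := by
      intro f f'
      exact hell ⟨(K.a f, K.ep f, K.de f'), rfl⟩
    refine ⟨K.c, ell, kap,
      12 * Fintype.card ι * (ell + 1) ^ kap * (P.nu + 1) ^ kap * Q,
      fun f f' => K.mem _ _ _, hcb, ?_⟩
    intro r L w
    rcases Nat.eq_zero_or_pos L with rfl | hL
    · rw [pow_zero, ← Set.ncard_singleton ([] : List G)]
      refine Set.ncard_le_ncard ?_ (Set.finite_singleton _)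
      rintro l ⟨h1, -, -⟩
      exact List.length_eq_zero_iff.1 h1
    rcases Set.eq_empty_or_nonempty
      {l : List G | l.length = L ∧ (∀ f ∈ l, f ∈ ball S r) ∧ wd K.c l = w} with h0 | ⟨l0, hl0⟩
    · rw [h0, Set.ncard_empty]
      exact Nat.zero_le _
    obtain ⟨σ, hσ1, hσ2, hσ3⟩ : w ∈ ball S (L * (r + ell)) := by
      have := wd_mem_ball S hcb l0 hl0.2.1
      rwa [hl0.1, hl0.2.2] at this
    subst hσ3
    have hZf := fun k => P.count_seq hD hσ2 k
    let Zs : ℕ → Finset (List Y) := fun k => (hZf k).1.toFinset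
    let len : List (ι × Bool × Bool) → ℕ := fun τ =>
      (τ.map fun t => (K.w t.1 t.2.1 t.2.2).length).sum
    let Ty : Finset (List (ι × Bool × Bool)) := listsOf Finset.univ L
    let F : List (ι × Bool × Bool) → List Y → Finset (List G) := fun τ Z =>
      (hQ L τ (Z ++ [σ.prod • P.base K.b])).1.toFinset
    let A : Finset (List G) := Ty.biUnion fun τ => (Zs (len τ - 1)).biUnion fun Z => F τ Z
    have hsub : {l : List G | l.length = L ∧ (∀ f ∈ l, f ∈ ball S r) ∧ wd K.c l = σ.prod} ⊆
        (A : Set (List G)) := by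
      rintro l ⟨h1, h2, h3⟩
      have hl : l ≠ [] := by
        rintro rfl
        simp at h1
        omega
      obtain ⟨Z, e1, e2, e3⟩ := geo P hD (by omega) K hσ2 hl h3
      rw [Finset.mem_coe, Finset.mem_biUnion]
      refine ⟨K.types l, ?_, ?_⟩
      · rw [mem_listsOf, length_types]
        exact ⟨h1, fun _ _ => Finset.mem_univ _⟩
      · rw [Finset.mem_biUnion]
        refine ⟨Z, ?_, ?_⟩
        · simp only [Zs]
          rw [Set.Finite.mem_toFinset]
          refine ⟨?_, e2, e3⟩
          have e4 := length_mks K l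
          rw [e1, List.length_append, List.length_singleton] at e4
          simp only [len]
          omega
        · simp only [F]
          rw [Set.Finite.mem_toFinset]
          exact ⟨h1, rfl, e1⟩
    have hk : ∀ τ ∈ Ty, len τ - 1 ≤ kap * L := by
      intro τ hτ
      simp only [Ty] at hτ
      rw [mem_listsOf] at hτ
      have e1 := List.sum_le_card_nsmul (τ.map fun t => (K.w t.1 t.2.1 t.2.2).length) kap (by
        intro x hx
        rw [List.mem_map] at hx
        obtain ⟨t, _, rfl⟩ := hx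
        exact hkap t)
      rw [List.length_map, hτ.1, smul_eq_mul, mul_comm] at e1
      exact (Nat.sub_le _ _).trans e1
    have hZc : ∀ τ ∈ Ty, (Zs (len τ - 1)).card ≤
        (3 * (r + ell + 1) ^ kap) ^ L * (P.nu + 1) ^ (kap * L) := by
      intro τ hτ
      have e1 := (hZf (len τ - 1)).2
      rw [Set.ncard_eq_toFinset_card _ (hZf (len τ - 1)).1] at e1
      refine e1.trans (Nat.mul_le_mul ?_ ?_)
      · refine choose_le (a := r + ell + 1) (κ := kap) (L := L) (by omega) ?_ (hk τ hτ)
        exact hσ1.trans (Nat.mul_le_mul_left _ (by omega))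
      · exact (Nat.pow_le_pow_left (Nat.le_succ _) _).trans
          (Nat.pow_le_pow_right (Nat.succ_pos _) (hk τ hτ))
    have hFc : ∀ τ Z, (F τ Z).card ≤ Q ^ L := by
      intro τ Z
      have e1 := (hQ L τ (Z ++ [σ.prod • P.base K.b])).2
      rwa [Set.ncard_eq_toFinset_card _ (hQ L τ (Z ++ [σ.prod • P.base K.b])).1] at e1
    calc _ ≤ (A : Set (List G)).ncard := Set.ncard_le_ncard hsub A.finite_toSet
      _ = A.card := Set.ncard_coe_finset A
      _ ≤ ∑ τ ∈ Ty, ((Zs (len τ - 1)).biUnion fun Z => F τ Z).card := Finset.card_biUnion_le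
      _ ≤ ∑ τ ∈ Ty, ((3 * (r + ell + 1) ^ kap) ^ L * (P.nu + 1) ^ (kap * L)) * Q ^ L := by
        refine Finset.sum_le_sum fun τ hτ => ?_
        calc ((Zs (len τ - 1)).biUnion fun Z => F τ Z).card
            ≤ ∑ Z ∈ Zs (len τ - 1), (F τ Z).card := Finset.card_biUnion_le
          _ ≤ ∑ Z ∈ Zs (len τ - 1), Q ^ L := Finset.sum_le_sum fun Z _ => hFc τ Z
          _ = (Zs (len τ - 1)).card * Q ^ L := by rw [Finset.sum_const, smul_eq_mul]
          _ ≤ _ := Nat.mul_le_mul_right _ (hZc τ hτ)
      _ = Ty.card * (((3 * (r + ell + 1) ^ kap) ^ L * (P.nu + 1) ^ (kap * L)) * Q ^ L) := by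
        rw [Finset.sum_const, smul_eq_mul]
      _ ≤ (4 * Fintype.card ι) ^ L *
          (((3 * (r + ell + 1) ^ kap) ^ L * (P.nu + 1) ^ (kap * L)) * Q ^ L) := by
        refine Nat.mul_le_mul_right _ ?_
        refine (card_listsOf _ L).trans (le_of_eq ?_)
        congr 1
        rw [Finset.card_univ, Fintype.card_prod, Fintype.card_prod, Fintype.card_bool]
        ring
      _ = (12 * Fintype.card ι * (r + ell + 1) ^ kap * (P.nu + 1) ^ kap * Q) ^ L := by
        rw [pow_mul, ← mul_pow, ← mul_pow, ← mul_pow]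
        congr 1
        ring
      _ ≤ (12 * Fintype.card ι * (ell + 1) ^ kap * (P.nu + 1) ^ kap * Q * (r + 1) ^ kap) ^ L := by
        refine Nat.pow_le_pow_left ?_ L
        have e1 : (r + ell + 1) ^ kap ≤ (ell + 1) ^ kap * (r + 1) ^ kap := by
          rw [← mul_pow]
          refine Nat.pow_le_pow_left ?_ kap
          nlinarith
        calc 12 * Fintype.card ι * (r + ell + 1) ^ kap * (P.nu + 1) ^ kap * Q
            = (12 * Fintype.card ι * (P.nu + 1) ^ kap * Q) * (r + ell + 1) ^ kap := by ring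
          _ ≤ (12 * Fintype.card ι * (P.nu + 1) ^ kap * Q) * ((ell + 1) ^ kap * (r + 1) ^ kap) :=
            Nat.mul_le_mul_left _ e1
          _ = _ := by ring

end Pool.Agent.LDJ
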