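import Pool.Agent.LDJ.SN2
import Pool.Agent.Hhelper67.Johnson.Defs

/-!
LDJ.SAnn: the set of annuli and the action of `Out Γ`.

`Ann c`: the sets `φ '' cls c`, `φ` an automorphism. `Aut Γ` acts, inner automorphisms act
trivially (`cls c` is invariant under conjugation, and so is `φ '' cls c`), so `Out Γ` acts
(`QuotientGroup.lift`).
PROOFS. straightforward; `crS_aut`, `dS_aut` from `link_aut`, `N_aut` (images of the sets).
-/

namespace Pool.Agent.LDJ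

open Pool.Agent.Hhelper67.Johnson

variable {Γ : Type} [Group Γ]

theorem sann_self_mem (y : Γ) : y ∈ cls y := ⟨1, Or.inl (by group)⟩

theorem sann_cls_conj {x y : Γ} (g : Γ) (h : x ∈ cls y) : g * x * g⁻¹ ∈ cls y := by
  obtain ⟨k, rfl | rfl⟩ := h
  · exact ⟨g * k, Or.inl (by group)⟩
  · exact ⟨g * k, Or.inr (by group)⟩

theorem sann_cls_subset {x y : Γ} (h : x ∈ cls y) : cls x ⊆ cls y := by
  rintro z ⟨g, hz⟩
  obtain ⟨k, hk⟩ := h
  rcases hz with rfl | rfl <;> rcases hk with rfl | rfl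
  · exact ⟨g * k, Or.inl (by group)⟩
  · exact ⟨g * k, Or.inr (by group)⟩
  · exact ⟨g * k, Or.inr (by group)⟩
  · exact ⟨g * k, Or.inl (by group)⟩

theorem sann_mem_symm {x y : Γ} (h : x ∈ cls y) : y ∈ cls x := by
  obtain ⟨k, rfl | rfl⟩ := h
  · exact ⟨k⁻¹, Or.inl (by group)⟩
  · exact ⟨k⁻¹, Or.inr (by group)⟩

theorem sann_cls_eq {x y : Γ} (h : x ∈ cls y) : cls x = cls y :=
  Set.Subset.antisymm (sann_cls_subset h) (sann_cls_subset (sann_mem_symm h))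

theorem sann_image_cls (φ : MulAut Γ) (c : Γ) : φ '' cls c = cls (φ c) := by
  ext x
  constructor
  · rintro ⟨z, ⟨g, rfl | rfl⟩, rfl⟩
    · exact ⟨φ g, Or.inl (by simp only [map_mul, map_inv])⟩
    · exact ⟨φ g, Or.inr (by simp only [map_mul, map_inv])⟩
  · rintro ⟨g, rfl | rfl⟩
    · refine ⟨φ⁻¹ g * c * (φ⁻¹ g)⁻¹, ⟨φ⁻¹ g, Or.inl rfl⟩, ?_⟩
      simp only [map_mul, map_inv, MulAut.apply_inv_self]
    · refine ⟨φ⁻¹ g * c⁻¹ * (φ⁻¹ g)⁻¹, ⟨φ⁻¹ g, Or.inr rfl⟩, ?_⟩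
      simp only [map_mul, map_inv, MulAut.apply_inv_self]

/-- annuli -/
def Ann (c : Γ) : Type := {Z : Set Γ // ∃ φ : MulAut Γ, Z = φ '' cls c}

/-- the action of automorphisms on annuli -/
def annPerm (c : Γ) : MulAut Γ →* Equiv.Perm (Ann c) where
  toFun φ :=
    { toFun := fun Z => ⟨φ '' Z.1, by
        obtain ⟨Z, ψ, rfl⟩ := Z
        exact ⟨φ * ψ, Set.image_image φ ψ (cls c)⟩⟩
      invFun := fun Z => ⟨⇑(φ⁻¹ : MulAut Γ) '' Z.1, by
        obtain ⟨Z, ψ, rfl⟩ := Z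
        exact ⟨φ⁻¹ * ψ, Set.image_image (φ⁻¹ : MulAut Γ) ψ (cls c)⟩⟩
      left_inv := fun Z => by
        apply Subtype.ext
        show ⇑(φ⁻¹ : MulAut Γ) '' (φ '' Z.1) = Z.1
        rw [Set.image_image]
        simp
      right_inv := fun Z => by
        apply Subtype.ext
        show φ '' (⇑(φ⁻¹ : MulAut Γ) '' Z.1) = Z.1
        rw [Set.image_image]
        simp }
  map_one' := by
    ext Z : 1
    apply Subtype.ext
    show (1 : MulAut Γ) '' Z.1 = Z.1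
    simp
  map_mul' φ ψ := by
    ext Z : 1
    apply Subtype.ext
    exact (Set.image_image φ ψ Z.1).symm

theorem annPerm_inn (c : Γ) : Inn Γ ≤ (annPerm c).ker := by
  rintro _ ⟨g, rfl⟩
  rw [MonoidHom.mem_ker]
  apply Equiv.ext
  rintro ⟨Z, ψ, rfl⟩
  apply Subtype.ext
  show (MulAut.conj g) '' (ψ '' cls c) = ψ '' cls c
  rw [sann_image_cls, sann_image_cls]
  apply sann_cls_eq
  exact sann_cls_conj g (sann_self_mem _)

/-- the action of outer automorphisms on annuli -/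
def annOut (c : Γ) : Out Γ →* Equiv.Perm (Ann c) :=
  QuotientGroup.lift (Inn Γ) (annPerm c) (annPerm_inn c)

theorem annOut_toOut (c : Γ) (φ : MulAut Γ) (Z : Ann c) :
    (annOut c (toOut Γ φ) Z).1 = φ '' Z.1 := by
  rfl

/-- the class of `φ c` as an annulus -/
def mkAnn (c : Γ) (φ : MulAut Γ) : Ann c := ⟨φ '' cls c, φ, rfl⟩

theorem mkAnn_eq (c : Γ) (φ : MulAut Γ) : (mkAnn c φ).1 = cls (φ c) := by
  exact sann_image_cls φ c

theorem mkAnn_eq_iff (c : Γ) (φ ψ : MulAut Γ) : mkAnn c φ = mkAnn c ψ ↔ φ c ∈ cls (ψ c) := by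
  constructor
  · intro h
    have h1 : cls (φ c) = cls (ψ c) := by
      rw [← mkAnn_eq, ← mkAnn_eq, h]
    rw [← h1]
    exact sann_self_mem _
  · intro h
    apply Subtype.ext
    rw [mkAnn_eq, mkAnn_eq]
    exact sann_cls_eq h

namespace Circ

variable (Q : Circ Γ)

/-- crossing of classes -/
def crS (X Y : Set Γ) : Prop := ∃ x ∈ X, ∃ y ∈ Y, Q.link x y

/-- projection distance of classes -/
noncomputable def dS (Y X Z : Set Γ) : ℕ :=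
  sSup {n | ∃ y ∈ Y, ∃ x ∈ X, ∃ z ∈ Z, Q.link x y ∧ Q.link z y ∧ n = Q.N y x z}

theorem crS_aut (φ : MulAut Γ) (X Y : Set Γ) : Q.crS (φ '' X) (φ '' Y) ↔ Q.crS X Y := by
  constructor
  · rintro ⟨_, ⟨x, hx, rfl⟩, _, ⟨y, hy, rfl⟩, h⟩
    exact ⟨x, hx, y, hy, (Q.link_aut φ).1 h⟩
  · rintro ⟨x, hx, y, hy, h⟩
    exact ⟨φ x, ⟨x, hx, rfl⟩, φ y, ⟨y, hy, rfl⟩, (Q.link_aut φ).2 h⟩

theorem dS_aut (φ : MulAut Γ) (Y X Z : Set Γ) :
    Q.dS (φ '' Y) (φ '' X) (φ '' Z) = Q.dS Y X Z := by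
  unfold dS
  congr 1
  ext n
  constructor
  · rintro ⟨_, ⟨y, hy, rfl⟩, _, ⟨x, hx, rfl⟩, _, ⟨z, hz, rfl⟩, h1, h2, h3⟩
    exact ⟨y, hy, x, hx, z, hz, (Q.link_aut φ).1 h1, (Q.link_aut φ).1 h2,
      h3.trans (Q.N_aut φ y x z)⟩
  · rintro ⟨y, hy, x, hx, z, hz, h1, h2, h3⟩
    exact ⟨φ y, ⟨y, hy, rfl⟩, φ x, ⟨x, hx, rfl⟩, φ z, ⟨z, hz, rfl⟩, (Q.link_aut φ).2 h1,
      (Q.link_aut φ).2 h2, h3.trans (Q.N_aut φ y x z).symm⟩

end Circ

end Pool.Agent.LDJ
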