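import Pool.Agent.LDJ.SN2

/-!
LDJ.SBehr: the Behrstock inequality for axes.

PROOF. By `N_symm`, `{k | link z (y^k x y^(-k))}` has at least 3 elements and is an interval
(`interval`), so it contains some `k-1, k, k+1`. Put `x1 = y^k x y^(-k)`, `x0 = y⁻¹ x1 y`,
`x2 = y x1 y⁻¹`. All of `x0, x1, x2` are linked with `y` and with `z`.
Work in the coordinate `s = s x1`. Claim: both end points of `x2` are on the same side of `x1`
(sign of `s`) as `att y`: otherwise (`link_iff` is about one pair, so use sep) for an end `w` of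
`x2` we had `sep (att x1) (att x1⁻¹) w (att y)`, i.e. by symmetry
`sep (att y) w (att x1) (att x1⁻¹)`, i.e. by `sep_inf` for `y`
`(s y w - s y (att x1)) (s y w - s y (att x1⁻¹)) < 0`; but `w = act y w1` for an end `w1` of `x1`,
`s y w = lam * s y w1`, and with `{s y (att x1), s y (att x1⁻¹)} = {u, -v}`, `u, v > 0`, the
product is `(lam u - u)(lam u + v) > 0` or `(-lam v - u)(-lam v + v) > 0`. Similarly both ends of
`x0` are on the side of `att y⁻¹`.
So the ends of `x2` have coordinates `τp, τq`, `0 < p < q`, `τ = sign s (att y)` (distinct ends).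
`x2` and `x1 x2 x1⁻¹` (coordinates `τλp, τλq`, `λ = lam x1 > 1`) are not linked (`x` is simple;
both are conjugates of `x`), so by `sep_fin` not `p < λp < q < λq`, so `q ≤ λp`. As `y` is linked
with `x2` and `att y⁻¹` has sign `-τ`: `p < |s (att y)| < q` (`sep_fin`). In the same way, as `z` is
linked with `x2` and with `x1`, the end of `z` with sign `τ` has absolute value in `(p,q)`. So the
`log`s differ by less than `log λ`. The same on the other side with `x0`. So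
`|sh x1 z - sh x1 y| < 2` and `N x1 z y ≤ 3` by `N_bounds` (`N ≤ |..| + 1 < 3`).
About 200 lines.
-/

namespace Pool.Agent.LDJ

namespace Circ

namespace SBehrAux

/-- the positive side -/
lemma real_pos {e1 e2 Yp Ym Zp Zm l : ℝ} (hl : 1 < l) (h1 : 0 < e1 * Yp) (h2 : 0 < e2 * Yp)
    (hne : e1 ≠ e2)
    (h3 : ¬ ((e1 - l * e1) * (e2 - l * e1) * ((e1 - l * e2) * (e2 - l * e2)) < 0))
    (h4 : (e1 - Yp) * (e2 - Yp) * ((e1 - Ym) * (e2 - Ym)) < 0)
    (h5 : (e1 - Zp) * (e2 - Zp) * ((e1 - Zm) * (e2 - Zm)) < 0)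
    (h6 : Yp * Ym < 0) (h7 : Zp * Zm < 0) (hY : 0 < Yp) :
    max Zp Zm < l * Yp ∧ Yp < l * max Zp Zm := by
  have he1 : 0 < e1 := by
    by_contra h
    push Not at h
    nlinarith
  have he2 : 0 < e2 := by
    by_contra h
    push Not at h
    nlinarith
  have hYm : Ym < 0 := by
    by_contra h
    push Not at h
    nlinarith
  -- the reduction to `e1 < e2`
  have key : ∀ e1 e2 : ℝ, 0 < e1 → 0 < e2 → e1 < e2 →
      ¬ ((e1 - l * e1) * (e2 - l * e1) * ((e1 - l * e2) * (e2 - l * e2)) < 0) →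
      (e1 - Yp) * (e2 - Yp) * ((e1 - Ym) * (e2 - Ym)) < 0 →
      (e1 - Zp) * (e2 - Zp) * ((e1 - Zm) * (e2 - Zm)) < 0 →
      max Zp Zm < l * Yp ∧ Yp < l * max Zp Zm := by
    intro e1 e2 he1 he2 hlt h3 h4 h5
    have a1 : e2 ≤ l * e1 := by
      by_contra h
      push Not at h
      apply h3
      have b1 : e1 - l * e1 < 0 := by nlinarith
      have b2 : 0 < e2 - l * e1 := by linarith
      have b3 : e1 - l * e2 < 0 := by nlinarith
      have b4 : e2 - l * e2 < 0 := by nlinarith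
      exact mul_neg_of_neg_of_pos (mul_neg_of_neg_of_pos b1 b2) (mul_pos_of_neg_of_neg b3 b4)
    have cc : ∀ Y Y' : ℝ, Y' < 0 → (e1 - Y) * (e2 - Y) * ((e1 - Y') * (e2 - Y')) < 0 →
        e1 < Y ∧ Y < e2 := by
      intro Y Y' hY' h
      have b1 : 0 < (e1 - Y') * (e2 - Y') := mul_pos (by linarith) (by linarith)
      have b2 : (e1 - Y) * (e2 - Y) < 0 := by
        by_contra hh
        push Not at hh
        exact absurd h (not_lt.mpr (mul_nonneg hh b1.le))
      rcases mul_neg_iff.mp b2 with ⟨c1, c2⟩ | ⟨c1, c2⟩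
      · linarith
      · constructor <;> linarith
    obtain ⟨y1, y2⟩ := cc Yp Ym hYm h4
    have z12 : e1 < max Zp Zm ∧ max Zp Zm < e2 := by
      rcases mul_neg_iff.mp h7 with ⟨c1, c2⟩ | ⟨c1, c2⟩
      · rw [max_eq_left (by linarith)]
        exact cc Zp Zm c2 h5
      · rw [max_eq_right (by linarith)]
        refine cc Zm Zp c1 ?_
        rw [mul_comm]
        exact h5
    obtain ⟨z1, z2⟩ := z12
    constructor
    · nlinarith
    · nlinarith
  rcases lt_or_gt_of_ne hne with h | h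
  · exact key e1 e2 he1 he2 h h3 h4 h5
  · refine key e2 e1 he2 he1 h ?_ ?_ ?_
    · intro hh
      apply h3
      nlinarith
    · nlinarith
    · nlinarith

lemma aux1 {c l : ℝ} (hl : 1 < l) (hc : c ≠ 0) (h : c = l * c) : False := by
  have h1 : (l - 1) * c = 0 := by linarith
  rcases mul_eq_zero.mp h1 with h2 | h2
  · linarith
  · exact hc h2

lemma aux2 {a b l : ℝ} (hl : 1 < l) (hab : a * b < 0) (h : a = l * b) : False := by
  rw [h] at hab
  have h1 : l * b * b = l * (b * b) := by ring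
  rw [h1] at hab
  exact absurd hab (not_lt.mpr (mul_nonneg (by linarith) (mul_self_nonneg b)))

/-- the negative side -/
lemma real_neg {e1 e2 Yp Ym Zp Zm l : ℝ} (hl : 1 < l) (h1 : 0 < e1 * Yp) (h2 : 0 < e2 * Yp)
    (hne : e1 ≠ e2)
    (h3 : ¬ ((e1 - l * e1) * (e2 - l * e1) * ((e1 - l * e2) * (e2 - l * e2)) < 0))
    (h4 : (e1 - Yp) * (e2 - Yp) * ((e1 - Ym) * (e2 - Ym)) < 0)
    (h5 : (e1 - Zp) * (e2 - Zp) * ((e1 - Zm) * (e2 - Zm)) < 0)
    (h6 : Yp * Ym < 0) (h7 : Zp * Zm < 0) (hY : Yp < 0) :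
    -min Zp Zm < l * (-Yp) ∧ -Yp < l * (-min Zp Zm) := by
  have h := real_pos (e1 := -e1) (e2 := -e2) (Yp := -Yp) (Ym := -Ym) (Zp := -Zp) (Zm := -Zm) hl
    (by linarith) (by linarith) (fun h => hne (by linarith))
    (fun hh => h3 (by nlinarith)) (by nlinarith) (by nlinarith) (by linarith) (by linarith)
    (by linarith)
  rwa [max_neg_neg] at h

end SBehrAux

variable {Γ : Type} [Group Γ] (Q : Circ Γ)

namespace SBehrAux

lemma act_att {y : Γ} (hy : y ≠ 1) : Q.act y (Q.att y) = Q.att y := by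
  have h := Q.att_conj y y hy
  rw [mul_assoc, mul_inv_cancel, mul_one] at h
  exact h.symm

lemma act_inj {y : Γ} {w w' : Q.C} (h : Q.act y w = Q.act y w') : w = w' := by
  have := congrArg (Q.act y⁻¹) h
  rwa [← Q.act_mul, ← Q.act_mul, inv_mul_cancel, Q.act_one, Q.act_one] at this

lemma act_ne {y : Γ} (hy : y ≠ 1) {w : Q.C} (h : w ≠ Q.att y) : Q.act y w ≠ Q.att y := by
  intro hh
  exact h (act_inj Q (hh.trans (act_att Q hy).symm))

/-- an end of `y x y⁻¹` is on the side of `att y` -/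
lemma same_side {x y : Γ} (h : Q.link x y) {w : Q.C} (hw : w = Q.att x ∨ w = Q.att x⁻¹) :
    Q.act y w ≠ Q.att x ∧ 0 < Q.s x (Q.act y w) * Q.s x (Q.att y) := by
  obtain ⟨hx, hy⟩ := Q.link_ne h
  obtain ⟨n1, n2, n3⟩ := (Q.link_iff hy).mp h
  obtain ⟨m1, m2, m3⟩ := (Q.link_iff hx).mp (Q.link_symm h)
  have hl := Q.lam_gt y hy
  have hwy : w ≠ Q.att y := by rcases hw with h | h <;> rw [h] <;> assumption
  have hs : Q.s y (Q.act y w) = Q.lam y * Q.s y w := Q.s_act y w hy hwy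
  have hyw : Q.act y w ≠ Q.att y := act_ne Q hy hwy
  have c1 : Q.act y w ≠ Q.att x := by
    intro hh
    rw [hh] at hs
    rcases hw with rfl | rfl
    · exact aux1 hl (left_ne_zero_of_mul n3.ne) hs
    · exact aux2 hl n3 hs
  have c2 : Q.act y w ≠ Q.att x⁻¹ := by
    intro hh
    rw [hh] at hs
    rcases hw with rfl | rfl
    · exact aux2 hl (by rwa [mul_comm]) hs
    · exact aux1 hl (right_ne_zero_of_mul n3.ne) hs
  refine ⟨c1, ?_⟩
  have d1 : Q.s x (Q.act y w) ≠ 0 := by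
    intro hh
    apply c2
    apply Q.s_inj x _ _ hx c1 (Q.att_ne x hx)
    rw [hh, Q.s_rep x hx]
  have d2 : Q.s x (Q.att y) ≠ 0 := left_ne_zero_of_mul m3.ne
  by_contra hcon
  push Not at hcon
  have hneg : Q.s x (Q.act y w) * Q.s x (Q.att y) < 0 :=
    lt_of_le_of_ne hcon (mul_ne_zero d1 d2)
  have hsep : Q.sep (Q.att x) (Q.att x⁻¹) (Q.act y w) (Q.att y) := by
    rw [Q.sep_inf x hx _ _ _ (Q.att_ne x hx) c1 m1, Q.s_rep x hx]
    linarith
  have hsep2 := Q.sep_swap _ _ _ _ (Q.sep_symm _ _ _ _ hsep)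
  rw [Q.sep_inf y hy _ _ _ hyw n1 n2, hs] at hsep2
  rcases hw with rfl | rfl
  · nlinarith [mul_pos (sub_pos.mpr hl) (mul_self_pos.mpr (left_ne_zero_of_mul n3.ne)),
      mul_pos (sub_pos.mpr hl) (neg_pos.mpr n3)]
  · nlinarith [mul_pos (sub_pos.mpr hl) (mul_self_pos.mpr (right_ne_zero_of_mul n3.ne)),
      mul_pos (sub_pos.mpr hl) (neg_pos.mpr n3)]

lemma half {x y z : Γ} (hs : ∀ g, ¬ Q.link x (g * x * g⁻¹)) (h1 : Q.link x y) (h2 : Q.link z x)
    (h3 : Q.link z (y * x * y⁻¹)) :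
    (0 < Q.s x (Q.att y) → Q.up x z < Q.lam x * Q.up x y ∧ Q.up x y < Q.lam x * Q.up x z) ∧
    (Q.s x (Q.att y) < 0 → Q.dn x z < Q.lam x * Q.dn x y ∧ Q.dn x y < Q.lam x * Q.dn x z) := by
  obtain ⟨hx, hy⟩ := Q.link_ne h1
  obtain ⟨hz, _⟩ := Q.link_ne h2
  have hx2 : y * x * y⁻¹ ≠ 1 := (Q.link_ne h3).2
  have hxi : x⁻¹ ≠ 1 := inv_ne_one.mpr hx
  obtain ⟨m1, m2, m3⟩ := (Q.link_iff hx).mp (Q.link_symm h1)
  obtain ⟨k1, k2, k3⟩ := (Q.link_iff hx).mp h2
  have hl := Q.lam_gt x hx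
  have e1 : Q.att (y * x * y⁻¹) = Q.act y (Q.att x) := Q.att_conj y x hx
  have e2 : Q.att (y * x * y⁻¹)⁻¹ = Q.act y (Q.att x⁻¹) := by
    rw [← Q.att_conj y x⁻¹ hxi]
    congr 1
    group
  obtain ⟨a1, a2⟩ := same_side Q h1 (Or.inl rfl)
  obtain ⟨b1, b2⟩ := same_side Q h1 (Or.inr rfl)
  rw [← e1] at a1 a2
  rw [← e2] at b1 b2
  have hne : Q.s x (Q.att (y * x * y⁻¹)) ≠ Q.s x (Q.att (y * x * y⁻¹)⁻¹) := by
    intro hh
    exact Q.att_ne _ hx2 (Q.s_inj x _ _ hx a1 b1 hh).symm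
  -- not linked with its translate by `x`
  have f3 : Q.att (x * (y * x * y⁻¹) * x⁻¹) = Q.act x (Q.att (y * x * y⁻¹)) :=
    Q.att_conj x _ hx2
  have f4 : Q.att (x * (y * x * y⁻¹) * x⁻¹)⁻¹ = Q.act x (Q.att (y * x * y⁻¹)⁻¹) := by
    rw [← Q.att_conj x _ (inv_ne_one.mpr hx2)]
    congr 1
    group
  have g3 : ¬ Q.link (y * x * y⁻¹) (x * (y * x * y⁻¹) * x⁻¹) := by
    have := hs (y⁻¹ * x * y)
    rw [← Q.link_conj y] at this
    convert this using 2
    group
  have g3' : ¬ ((Q.s x (Q.att (y * x * y⁻¹)) - Q.lam x * Q.s x (Q.att (y * x * y⁻¹))) *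
      (Q.s x (Q.att (y * x * y⁻¹)⁻¹) - Q.lam x * Q.s x (Q.att (y * x * y⁻¹))) *
      ((Q.s x (Q.att (y * x * y⁻¹)) - Q.lam x * Q.s x (Q.att (y * x * y⁻¹)⁻¹)) *
      (Q.s x (Q.att (y * x * y⁻¹)⁻¹) - Q.lam x * Q.s x (Q.att (y * x * y⁻¹)⁻¹))) < 0) := by
    rw [← Q.s_act x _ hx a1, ← Q.s_act x _ hx b1,
      ← Q.sep_fin x hx _ _ _ _ a1 b1 (act_ne Q hx a1) (act_ne Q hx b1), ← f3, ← f4]
    exact g3
  have g4 : Q.link (y * x * y⁻¹) y := by
    have := (Q.link_conj y).mpr h1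
    rwa [mul_assoc y y, mul_inv_cancel, mul_one] at this
  have g4' := (Q.sep_fin x hx _ _ _ _ a1 b1 m1 m2).mp g4
  have g5' := (Q.sep_fin x hx _ _ _ _ a1 b1 k1 k2).mp (Q.link_symm h3)
  constructor
  · intro hpos
    have r := real_pos hl a2 b2 hne g3' g4' g5' m3 k3 hpos
    have hm : Q.up x y = Q.s x (Q.att y) := by
      unfold up
      apply max_eq_left
      nlinarith
    rw [hm]
    exact r
  · intro hneg
    have r := real_neg hl a2 b2 hne g3' g4' g5' m3 k3 hneg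
    have hm : Q.dn x y = -Q.s x (Q.att y) := by
      unfold dn
      rw [min_eq_left]
      nlinarith
    rw [hm]
    exact r

lemma both {x y z : Γ} (hs : ∀ g, ¬ Q.link x (g * x * g⁻¹)) (h1 : Q.link x y) (h2 : Q.link z x)
    (h3 : Q.link z (y * x * y⁻¹)) (h4 : Q.link z (y⁻¹ * x * y)) :
    Q.N x z y ≤ 3 := by
  obtain ⟨hx, hy⟩ := Q.link_ne h1
  obtain ⟨m1, m2, m3⟩ := (Q.link_iff hx).mp (Q.link_symm h1)
  have hl := Q.lam_gt x hx
  have hL : 0 < Real.log (Q.lam x) := Real.log_pos hl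
  have p1 := half Q hs h1 h2 h3
  have h1' : Q.link x y⁻¹ := Q.link_inv_right.mpr h1
  have p2 := half Q hs h1' h2 (by rwa [inv_inv])
  have su : Q.up x y⁻¹ = Q.up x y := by
    unfold up
    rw [inv_inv, max_comm]
  have sd : Q.dn x y⁻¹ = Q.dn x y := by
    unfold dn
    rw [inv_inv, min_comm]
  rw [su, sd] at p2
  have hup : Q.up x z < Q.lam x * Q.up x y ∧ Q.up x y < Q.lam x * Q.up x z := by
    rcases mul_neg_iff.mp m3 with ⟨c1, c2⟩ | ⟨c1, c2⟩
    · exact p1.1 c1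
    · exact p2.1 c2
  have hdn : Q.dn x z < Q.lam x * Q.dn x y ∧ Q.dn x y < Q.lam x * Q.dn x z := by
    rcases mul_neg_iff.mp m3 with ⟨c1, c2⟩ | ⟨c1, c2⟩
    · exact p2.2 c2
    · exact p1.2 c1
  have hly := Q.link_symm h1
  have u1 := Q.up_pos h2
  have u2 := Q.up_pos hly
  have v1 := Q.dn_pos h2
  have v2 := Q.dn_pos hly
  have hl0 : 0 < Q.lam x := by linarith
  have lu1 : Real.log (Q.up x z) < Real.log (Q.lam x) + Real.log (Q.up x y) := by
    rw [← Real.log_mul hl0.ne' u2.ne']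
    exact Real.log_lt_log u1 hup.1
  have lu2 : Real.log (Q.up x y) < Real.log (Q.lam x) + Real.log (Q.up x z) := by
    rw [← Real.log_mul hl0.ne' u1.ne']
    exact Real.log_lt_log u2 hup.2
  have lv1 : Real.log (Q.dn x z) < Real.log (Q.lam x) + Real.log (Q.dn x y) := by
    rw [← Real.log_mul hl0.ne' v2.ne']
    exact Real.log_lt_log v1 hdn.1
  have lv2 : Real.log (Q.dn x y) < Real.log (Q.lam x) + Real.log (Q.dn x z) := by
    rw [← Real.log_mul hl0.ne' v1.ne']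
    exact Real.log_lt_log v2 hdn.2
  have hsh : |Q.sh x z - Q.sh x y| < 2 := by
    unfold sh
    rw [← sub_div, abs_div, abs_of_pos hL, div_lt_iff₀ hL, abs_lt]
    constructor <;> linarith
  have hN := (Q.N_bounds h2 hly).2
  have hlt : (Q.N x z y : ℝ) < 3 := by linarith
  have : Q.N x z y < 3 := by exact_mod_cast hlt
  omega

end SBehrAux

open SBehrAux

theorem behr_elt {x y z : Γ} (hs : Q.Simple x) (hx : Q.link x y) (hz : Q.link z y)
    (h : 3 ≤ Q.N y x z) :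
    ∃ k : ℤ, Q.link (y ^ k * x * y ^ (-k)) y ∧ Q.link z (y ^ k * x * y ^ (-k)) ∧
      Q.N (y ^ k * x * y ^ (-k)) z y ≤ 3 := by
  classical
  rw [Q.N_symm] at h
  unfold N at h
  set K : Set ℤ := {k : ℤ | Q.link z (y ^ k * x * y ^ (-k))} with hK
  have hfin : K.Finite := Q.N_finite hz hx
  have hne : K.Nonempty := by
    rw [Set.nonempty_iff_ne_empty]
    intro hh
    rw [hh] at h
    simp at h
  have hconv : ∀ i j k : ℤ, i ≤ j → j ≤ k → i ∈ K → k ∈ K → j ∈ K :=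
    fun i j k hij hjk hi hk => Q.interval hz hx hij hjk hi hk
  obtain ⟨i, hi, himin⟩ := hfin.toFinset.exists_min_image id (by
    obtain ⟨a, ha⟩ := hne
    exact ⟨a, by simpa using ha⟩)
  have hiK : i ∈ K := by simpa using hi
  have hmin : ∀ a ∈ K, i ≤ a := fun a ha => himin a (by simpa using ha)
  -- an element which is at least `i + 2`
  obtain ⟨m, hm, hm2⟩ : ∃ m ∈ K, i + 2 ≤ m := by
    by_contra hcon
    push Not at hcon
    have hsub : K ⊆ ({i, i + 1} : Set ℤ) := by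
      intro a ha
      have h1 := hmin a ha
      have h2 := hcon a ha
      simp only [Set.mem_insert_iff, Set.mem_singleton_iff]
      omega
    have h2 : K.ncard ≤ ({i, i + 1} : Set ℤ).ncard := Set.ncard_le_ncard hsub (Set.toFinite _)
    have h3 : ({i, i + 1} : Set ℤ).ncard ≤ 2 := Set.ncard_insert_le i {i + 1} |>.trans (by simp)
    omega
  have hi1 : i + 1 ∈ K := hconv i (i + 1) m (by omega) (by omega) hiK hm
  have hi2 : i + 2 ∈ K := hconv i (i + 2) m (by omega) hm2 hiK hm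
  have hlk : Q.link (y ^ (i + 1) * x * y ^ (-(i + 1))) y := by
    have := (Q.link_conj (y ^ (i + 1))).mpr hx
    rw [zpow_neg]
    convert this using 2
    rw [← zpow_neg, ← zpow_add_one, ← zpow_add]
    simp
  refine ⟨i + 1, hlk, hi1, ?_⟩
  apply both Q _ hlk hi1
  · have : y * (y ^ (i + 1) * x * y ^ (-(i + 1))) * y⁻¹ = y ^ (i + 2) * x * y ^ (-(i + 2)) := by
      group
    rw [this]
    exact hi2
  · have : y⁻¹ * (y ^ (i + 1) * x * y ^ (-(i + 1))) * y = y ^ i * x * y ^ (-i) := by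
      group
    rw [this]
    exact hiK
  · intro g hg
    apply hs.nolink (y ^ (-(i + 1)) * g * y ^ (i + 1))
    rw [← Q.link_conj (y ^ (i + 1))]
    convert hg using 1
    · group
    · group

end Circ

end Pool.Agent.LDJ
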