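import Pool.Agent.LDJ.SSplit1

/-!
LDJ.SFix: the twist fixes the conjugacy classes that do not cross `c`.

PROOF. Let `Z = zpowers c`. Every element is conjugate to an element of `A`, of `B`, or to a
product `x_1 ... x_(2k)`, `k ≥ 1`, alternating, `x_1 ∈ A \ Z`, `x_(2k) ∈ B \ Z` (or the same with
`A`, `B` exchanged): take, among the conjugates of `z`, one with the shortest alternating form
(`Split.nf`); if the number of factors is odd and `≥ 3`, first and last factor are in the same
group, conjugating by the last factor gives a shorter form.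
If `z` is conjugate to an element `a` of `A`, `z = g a g⁻¹`: `T z = T g (c a c⁻¹) (T g)⁻¹` is
conjugate to `z`. If to an element of `B`: the same.
Otherwise let `z' = x_1 ... x_(2k)` be a conjugate as above, first factor in `A` (the other case is
symmetric). Write `I+` for the side `σ`, `I-` for the side `-σ`. By `pa`, `pb`: `z'` maps every
end `att x` not in `I-` to `I+`, and `z'⁻¹` maps every end not in `I+` to `I-`. Claim
`att z' ∈ I+`. If `att z' ∉ I+`, then `att z' = z'⁻¹ (att z') ∈ I-`. Then consider the points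
`w_n = act (z'^n) (att c)`, `n ≥ 1`, all in `I+` (`att c ∉ I-`; `w_n = att (z'^n c z'^(-n))`). In the
coordinate `s z'`: the ends of `c` are not `att z'` (it is on a side), so have finite
coordinates `e, e'`, and by `sep (att c) (att c⁻¹) (att z') w_n` (different sides), i.e.
`sep (att z') w_n (att c) (att c⁻¹)`, `s z' w_n` is strictly between `e` and `e'`; but
`s z' w_n = (lam z')^n * s z' (att c)` is unbounded, as `s z' (att c) ≠ 0`: `att c ≠ att z'⁻¹`
because `z'` maps `att c` into `I+` and so does not fix it. Contradiction. So `att z' ∈ I+`; in the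
same way `att z'⁻¹ ∈ I-`. So `link z' c` (`link_iff`), so `z` is linked with a conjugate of `c`,
contradiction. About 250 lines.
-/

namespace Pool.Agent.LDJ

namespace SFX

open Circ Circ.SS1

variable {Γ : Type} [Group Γ] {Q : Circ Γ}

/-- alternating products of length `n`, first factor of type `b`, last factor of type `e` -/
inductive Wd (A B Z : Subgroup Γ) : Bool → Bool → ℕ → Γ → Prop
  | one (b : Bool) (a : Γ) (ha : a ∈ (if b then A else B)) (hz : a ∉ Z) : Wd A B Z b b 1 a
  | cons (b e : Bool) (n : ℕ) (a g : Γ) (ha : a ∈ (if b then A else B)) (hz : a ∉ Z)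
      (hg : Wd A B Z (!b) e n g) : Wd A B Z b e (n + 1) (a * g)

variable {A B Z : Subgroup Γ}

theorem of_alt {b : Bool} {g : Γ} (h : Alt A B Z b g) : ∃ e n, Wd A B Z b e n g := by
  induction h with
  | one b a ha hz => exact ⟨b, 1, Wd.one b a ha hz⟩
  | cons b a g ha hz _ ih =>
    obtain ⟨e, n, h⟩ := ih
    exact ⟨e, n + 1, Wd.cons b e n a g ha hz h⟩

theorem Wd.pos {b e : Bool} {n : ℕ} {g : Γ} (h : Wd A B Z b e n g) : 1 ≤ n := by
  cases h <;> omega

theorem Wd.snoc {b e : Bool} {n : ℕ} {g : Γ} (h : Wd A B Z b e n g) : ∀ x : Γ,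
    x ∈ (if !e then A else B) → x ∉ Z → Wd A B Z b (!e) (n + 1) (g * x) := by
  induction h with
  | one b a ha hz =>
    intro x hx hxz
    exact Wd.cons b (!b) 1 a x ha hz (Wd.one (!b) x hx hxz)
  | cons b e n a g ha hz _ ih =>
    intro x hx hxz
    rw [mul_assoc]
    exact Wd.cons b (!e) (n + 1) a (g * x) ha hz (ih x hx hxz)

theorem Wd.inv {b e : Bool} {n : ℕ} {g : Γ} (h : Wd A B Z b e n g) : Wd A B Z e b n g⁻¹ := by
  induction h with
  | one b a ha hz => exact Wd.one b a⁻¹ (inv_mem ha) (fun h => hz (by simpa using h))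
  | cons b e n a g ha hz _ ih =>
    rw [mul_inv_rev]
    have h1 := ih.snoc a⁻¹ (by rw [Bool.not_not]; exact inv_mem ha)
      (fun h => hz (by simpa using h))
    rwa [Bool.not_not] at h1

theorem Wd.unsnoc {b e : Bool} {n : ℕ} {g : Γ} (h : Wd A B Z b e (n + 1) g) (hn : 1 ≤ n) :
    ∃ g' x, g = g' * x ∧ Wd A B Z b (!e) n g' ∧ x ∈ (if e then A else B) ∧ x ∉ Z := by
  have h1 := h.inv
  generalize hk : g⁻¹ = k at h1
  generalize hm : n + 1 = m at h1
  cases h1 with
  | one _ _ ha hz => omega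
  | cons _ _ n' a g' ha hz hg' =>
    have : n' = n := by omega
    subst this
    refine ⟨g'⁻¹, a⁻¹, ?_, hg'.inv, inv_mem ha, fun h => hz (by simpa using h)⟩
    rw [← mul_inv_rev, ← hk, inv_inv]

theorem Wd.zmul {y : Γ} {σ : ℝ} (h : Q.Split y A B σ) {z : Γ}
    (hz : z ∈ Subgroup.zpowers y) {b e : Bool} {n : ℕ} {g : Γ}
    (hg : Wd A B (Subgroup.zpowers y) b e n g) : Wd A B (Subgroup.zpowers y) b e n (z * g) := by
  cases hg with
  | one b a ha hza => exact Wd.one b _ (mul_mem (memK h hz b) ha) (mul_not hz hza)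
  | cons b e n a g ha hza hg =>
    rw [← mul_assoc]
    exact Wd.cons b e n _ g (mul_mem (memK h hz b) ha) (mul_not hz hza) hg

/-- ping-pong -/
theorem Wd.pp {y : Γ} {σ : ℝ} (h : Q.Split y A B σ) {b e : Bool} {n : ℕ} {g : Γ}
    (hg : Wd A B (Subgroup.zpowers y) b e n g) : ∀ x, x ≠ 1 →
      ¬ Q.side y (if e then σ else -σ) (Q.att x) →
      Q.side y (if b then σ else -σ) (Q.att (g * x * g⁻¹)) := by
  induction hg with
  | one b a ha hz => intro x hx hs; exact SS1.pp h b ha hz hx hs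
  | cons b e n a g ha hz hg ih =>
    intro x hx hs
    have h1 := ih x hx hs
    have h2 : ¬ Q.side y (if b then σ else -σ) (Q.att (g * x * g⁻¹)) := by
      cases b
      · simp only [Bool.not_false, if_true, Bool.false_eq_true, if_false] at h1 ⊢
        exact side_not h1
      · simp only [Bool.not_true, if_true, Bool.false_eq_true, if_false] at h1 ⊢
        exact side_not' h1
    have h3 := SS1.pp h b ha hz (conj_ne g hx) h2
    have h4 : a * g * x * (a * g)⁻¹ = a * (g * x * g⁻¹) * a⁻¹ := by group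
    rw [h4]
    exact h3

/-- the reduced conjugate -/
theorem reduce {y : Γ} {σ : ℝ} (h : Q.Split y A B σ) (z : Γ) :
    ∃ g, g * z * g⁻¹ ∈ A ∨ g * z * g⁻¹ ∈ B ∨
      ∃ b n, Wd A B (Subgroup.zpowers y) b (!b) n (g * z * g⁻¹) := by
  classical
  rcases nf_all h z with hz | ⟨b, hb⟩
  · exact ⟨1, Or.inl (by simpa using zle h.memA hz)⟩
  · obtain ⟨e, n, hn⟩ := of_alt hb
    have hex : ∃ n, ∃ g b e, Wd A B (Subgroup.zpowers y) b e n (g * z * g⁻¹) :=
      ⟨n, 1, b, e, by simpa using hn⟩
    have hmin := fun m (hm : m < Nat.find hex) => Nat.find_min hex hm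
    obtain ⟨g, b, e, hw⟩ := Nat.find_spec hex
    generalize Nat.find hex = N at hmin hw
    refine ⟨g, ?_⟩
    generalize hk : g * z * g⁻¹ = k at hw
    cases hw with
    | one _ _ ha hz =>
      cases b
      · right; left; simpa using ha
      · left; simpa using ha
    | cons _ _ n a u ha hz hu =>
      by_cases he : e = !b
      · subst he
        right; right
        exact ⟨b, n + 1, Wd.cons b (!b) n a u ha hz hu⟩
      · exfalso
        have he' : e = b := by
          cases b <;> cases e <;> simp_all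
        subst he'
        obtain ⟨m, rfl⟩ : ∃ m, n = m + 1 := ⟨n - 1, by have := hu.pos; omega⟩
        have hm : 1 ≤ m := by
          generalize hc : (!e) = c at hu
          generalize hl : m + 1 = l at hu
          cases hu with
          | one _ _ _ _ => cases e <;> simp at hc
          | cons _ _ _ _ _ _ _ h' =>
            have := h'.pos
            omega
        obtain ⟨g', x, rfl, hg', hx, hxz⟩ := hu.unsnoc hm
        have e1 : x * g * z * (x * g)⁻¹ = (x * a) * g' := by
          have : x * g * z * (x * g)⁻¹ = x * (g * z * g⁻¹) * x⁻¹ := by group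
          rw [this, hk]
          group
        by_cases hxa : x * a ∈ Subgroup.zpowers y
        · refine hmin m (by omega) ⟨x * g, !e, !e, ?_⟩
          rw [e1]
          exact hg'.zmul h hxa
        · refine hmin (m + 1) (by omega) ⟨x * g, e, !e, ?_⟩
          rw [e1]
          exact Wd.cons e (!e) m _ g' (mul_mem hx ha) hxa hg'

theorem act_pow' (g : Γ) (n : ℕ) (x : Γ) (hx : x ≠ 1) :
    Q.att (g ^ n * x * (g ^ n)⁻¹) = Q.act (g ^ n) (Q.att x) := Q.att_conj _ _ hx

/-- iteration of the expansion -/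
theorem s_pow {z : Γ} (hz : z ≠ 1) {w : Q.C} (hw : w ≠ Q.att z) (n : ℕ) :
    Q.act (z ^ n) w ≠ Q.att z ∧ Q.s z (Q.act (z ^ n) w) = Q.lam z ^ n * Q.s z w := by
  induction n with
  | zero => rw [pow_zero, Q.act_one, pow_zero, one_mul]; exact ⟨hw, rfl⟩
  | succ n ih =>
    obtain ⟨h1, h2⟩ := ih
    have h3 : Q.act (z ^ (n + 1)) w = Q.act z (Q.act (z ^ n) w) := by
      rw [pow_succ', Q.act_mul]
    rw [h3]
    refine ⟨?_, ?_⟩
    · intro h4
      apply h1
      have h5 : Q.act z (Q.att z) = Q.att z := by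
        rw [← Q.att_conj z z hz]
        congr 1
        group
      have h7 : ∀ u, Q.act z⁻¹ (Q.act z u) = u := by
        intro u
        rw [← Q.act_mul, inv_mul_cancel, Q.act_one]
      rw [← h7 (Q.act (z ^ n) w), h4, ← h5, h7]
      exact h5.symm
    · rw [Q.s_act z _ hz h1, h2, pow_succ']
      ring

/-- the attracting point is on the side of the first factor -/
theorem side_att {y : Γ} (hy : y ≠ 1) {τ : ℝ} (hτ : τ = 1 ∨ τ = -1) {z : Γ} (hz : z ≠ 1)
    (P1 : ∀ x, x ≠ 1 → ¬ Q.side y (-τ) (Q.att x) → Q.side y τ (Q.att (z * x * z⁻¹)))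
    (P2 : ∀ x, x ≠ 1 → ¬ Q.side y τ (Q.att x) → Q.side y (-τ) (Q.att (z⁻¹ * x * z))) :
    Q.side y τ (Q.att z) := by
  by_contra hcon
  have h0 : Q.side y (-τ) (Q.att z) := by
    have := P2 z hz hcon
    rwa [inv_mul_cancel, one_mul] at this
  have hw : ∀ n : ℕ, Q.side y τ (Q.att (z ^ (n + 1) * y * (z ^ (n + 1))⁻¹)) := by
    intro n
    induction n with
    | zero =>
      rw [zero_add, pow_one]
      exact P1 y hy (no_side hy _)
    | succ n ih =>
      have h1 := P1 _ (conj_ne (z ^ (n + 1)) hy) (side_not ih)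
      have e1 : z * (z ^ (n + 1) * y * (z ^ (n + 1))⁻¹) * z⁻¹ =
          z ^ (n + 1 + 1) * y * (z ^ (n + 1 + 1))⁻¹ := by
        rw [pow_succ' z (n + 1), mul_inv_rev]
        group
      rwa [e1] at h1
  have hne1 : Q.att y ≠ Q.att z := fun h => h0.1 h.symm
  have hne2 : Q.att y⁻¹ ≠ Q.att z := by
    intro h
    rw [← h] at h0
    exact no_side' hy _ h0
  have hu : Q.s z (Q.att y) ≠ 0 := by
    intro h
    have h1 : Q.att y = Q.att z⁻¹ :=
      Q.s_inj z _ _ hz hne1 (Q.att_ne z hz) (by rw [h, Q.s_rep z hz])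
    have h2 : Q.att (z * y * z⁻¹) = Q.att y := by
      rw [Q.att_conj z y hy, h1, ← Q.att_conj z z⁻¹ (inv_ne_one.mpr hz)]
      congr 1
      group
    have h3 := hw 0
    rw [zero_add, pow_one, h2] at h3
    exact no_side hy _ h3
  have hsep : ∀ n : ℕ, (Q.lam z ^ (n + 1) * Q.s z (Q.att y) - Q.s z (Q.att y)) *
      (Q.lam z ^ (n + 1) * Q.s z (Q.att y) - Q.s z (Q.att y⁻¹)) < 0 := by
    intro n
    have h1 := hw n
    rw [act_pow' z (n + 1) y hy] at h1
    obtain ⟨h2, h3⟩ := s_pow hz hne1 (n + 1)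
    have hτ' : -τ = 1 ∨ -τ = -1 := by
      rcases hτ with rfl | rfl
      · right; rfl
      · left; norm_num
    have h4 := Q.sep_symm _ _ _ _ (sep_y hy hτ' h0 (by rwa [neg_neg]))
    rw [Q.sep_inf z hz _ _ _ h2 hne1 hne2, h3] at h4
    exact h4
  set u := Q.s z (Q.att y) with hudef
  set v := Q.s z (Q.att y⁻¹)
  obtain ⟨n, hn⟩ := pow_unbounded_of_one_lt (u * v / u ^ 2) (Q.lam_gt z hz)
  have hlam := Q.lam_gt z hz
  have hn1 : 1 < Q.lam z ^ (n + 1) := one_lt_pow₀ hlam (by omega)
  have hn2 : Q.lam z ^ n < Q.lam z ^ (n + 1) := by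
    rw [pow_succ]
    have : 0 < Q.lam z ^ n := pow_pos (by linarith) n
    nlinarith
  have hu2 : 0 < u ^ 2 := by positivity
  have h1 : u * v < Q.lam z ^ (n + 1) * u ^ 2 := by
    rw [div_lt_iff₀ hu2] at hn
    nlinarith
  have h2 := hsep n
  nlinarith

end SFX

open SFX Circ Circ.SS1 in
theorem Model.fix_class {Γ ι : Type} [Group Γ] [Fintype ι] (M : Model Γ ι) {z : Γ} (hz : z ≠ 1)
    (h : ∀ g, ¬ M.Q.link z (g * M.c * g⁻¹)) : ∃ g, M.T z = g * z * g⁻¹ := by
  have hS := M.split
  obtain ⟨g, hA | hB | ⟨b, n, hw⟩⟩ := reduce hS z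
  · refine ⟨(M.T g)⁻¹ * M.c * g, ?_⟩
    have h1 := M.TA _ hA
    rw [map_mul, map_mul, map_inv] at h1
    calc M.T z = (M.T g)⁻¹ * (M.T g * M.T z * (M.T g)⁻¹) * M.T g := by group
      _ = _ := by rw [h1]; group
  · refine ⟨(M.T g)⁻¹ * g, ?_⟩
    have h1 := M.TB _ hB
    rw [map_mul, map_mul, map_inv] at h1
    calc M.T z = (M.T g)⁻¹ * (M.T g * M.T z * (M.T g)⁻¹) * M.T g := by group
      _ = _ := by rw [h1]; group
  · exfalso
    have hz' : g * z * g⁻¹ ≠ 1 := conj_ne g hz
    obtain ⟨τ, hτ, hb, hb'⟩ : ∃ τ : ℝ, (τ = 1 ∨ τ = -1) ∧ (if b then M.σ else -M.σ) = τ ∧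
        (if !b then M.σ else -M.σ) = -τ := by
      cases b
      · refine ⟨-M.σ, ?_, by simp, by simp⟩
        rcases hS.sgn with h | h
        · right; rw [h]
        · left; rw [h]; norm_num
      · exact ⟨M.σ, hS.sgn, by simp, by simp⟩
    have P1 : ∀ x, x ≠ 1 → ¬ M.Q.side M.c (-τ) (M.Q.att x) →
        M.Q.side M.c τ (M.Q.att ((g * z * g⁻¹) * x * (g * z * g⁻¹)⁻¹)) := by
      intro x hx hs
      have := hw.pp hS x hx (by rwa [hb'])
      rwa [hb] at this
    have P2 : ∀ x, x ≠ 1 → ¬ M.Q.side M.c τ (M.Q.att x) →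
        M.Q.side M.c (-τ) (M.Q.att ((g * z * g⁻¹)⁻¹ * x * (g * z * g⁻¹))) := by
      intro x hx hs
      have := hw.inv.pp hS x hx (by rwa [hb])
      rwa [hb', inv_inv] at this
    have s1 := side_att hS.ne hτ hz' P1 P2
    have hτ' : -τ = 1 ∨ -τ = -1 := by
      rcases hτ with rfl | rfl
      · right; rfl
      · left; norm_num
    have s2 := side_att hS.ne hτ' (inv_ne_one.mpr hz')
      (by intro x hx hs; rw [neg_neg] at hs; rw [inv_inv]; exact P2 x hx hs)
      (by intro x hx hs; rw [neg_neg, inv_inv]; exact P1 x hx hs)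
    have hl : M.Q.link (g * z * g⁻¹) M.c := by
      rw [M.Q.link_iff hS.ne]
      refine ⟨s1.1, s2.1, ?_⟩
      have h1 := s1.2
      have h2 := s2.2
      rcases hτ with rfl | rfl
      · nlinarith
      · nlinarith
    apply h g⁻¹
    rw [← M.Q.link_conj g]
    have e1 : g * (g⁻¹ * M.c * g⁻¹⁻¹) * g⁻¹ = M.c := by group
    rw [e1]
    exact hl

end Pool.Agent.LDJ
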