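import Pool.Agent.LDJ.SSplit2

/-!
LDJ.SRig: rigidity of the base family, and finiteness of its stabiliser.

Let `m i = rt i c`, `𝓜 = ⋃ cls (m i)`.
`rigid`. Let `h` preserve all `cls (m i)` and fix `m i0`, `m i1`. Then `h = 1`.
PROOF. (1) If `x, z0 ∈ 𝓜`, `link x z0`, `h x = x`, `h z0 = z0`, then `h z = z` for all
`z ∈ 𝓜` with `link x z`: the positive ends of such `z` have coordinates in a set which is finite
modulo multiplication by `lam x`, and `h` acts on this set by an order preserving map which fixes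
the coordinates of the ends of `x ^ k z0 x ^ (-k)`; so it is the identity.
(2) By (1) and induction along `connM` every element of `𝓜` is fixed by `h`.
(3) For `g : Γ` the element `g⁻¹ h(g)` commutes with `m i0` and `m i1`, so it is `1`.
`stab_fin`: `rigid` and `fin_cross`.
-/

namespace Pool.Agent.LDJ

section cls

variable {Γ : Type} [Group Γ]

theorem rg_cls_self (x : Γ) : x ∈ cls x := ⟨1, Or.inl (by simp)⟩

theorem rg_cls_conj {x y : Γ} (g : Γ) (h : x ∈ cls y) : g * x * g⁻¹ ∈ cls y := by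
  obtain ⟨k, hk | hk⟩ := h
  · exact ⟨g * k, Or.inl (by rw [hk]; group)⟩
  · exact ⟨g * k, Or.inr (by rw [hk]; group)⟩

theorem rg_cls_inv {x y : Γ} (h : x ∈ cls y) : x⁻¹ ∈ cls y := by
  obtain ⟨k, hk | hk⟩ := h
  · exact ⟨k, Or.inr (by rw [hk]; group)⟩
  · exact ⟨k, Or.inl (by rw [hk]; group)⟩

theorem rg_cls_trans {x y z : Γ} (h : x ∈ cls y) (h' : y ∈ cls z) : x ∈ cls z := by
  obtain ⟨k, hk | hk⟩ := h
  · rw [hk]; exact rg_cls_conj k h'
  · rw [hk]; exact rg_cls_conj k (rg_cls_inv h')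

theorem rg_cls_symm {x y : Γ} (h : x ∈ cls y) : y ∈ cls x := by
  obtain ⟨k, hk | hk⟩ := h
  · exact ⟨k⁻¹, Or.inl (by rw [hk]; group)⟩
  · exact ⟨k⁻¹, Or.inr (by rw [hk]; group)⟩

theorem rg_cls_map {x y : Γ} (φ : MulAut Γ) (h : x ∈ cls y) : φ x ∈ cls (φ y) := by
  obtain ⟨k, hk | hk⟩ := h
  · exact ⟨φ k, Or.inl (by rw [hk]; simp)⟩
  · exact ⟨φ k, Or.inr (by rw [hk]; simp)⟩

end cls

namespace Circ

variable {Γ : Type} [Group Γ] {Q : Circ Γ}

theorem rg_simple_inv {y : Γ} (h : Q.Simple y) : Q.Simple y⁻¹ := by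
  refine ⟨inv_ne_one.2 h.ne, fun g hg => h.nolink g ?_, fun g hg => ?_⟩
  · rw [Q.link_inv_left] at hg
    have : g * y⁻¹ * g⁻¹ = (g * y * g⁻¹)⁻¹ := by group
    rw [this, Q.link_inv_right] at hg
    exact hg
  · rw [Subgroup.zpowers_inv]
    refine h.cent g ?_
    have h1 : Commute g y⁻¹ := hg
    have h2 : Commute g y⁻¹⁻¹ := h1.inv_right
    rw [inv_inv] at h2
    exact h2

theorem rg_zpow_eq {x : Γ} (Q : Circ Γ) (hx : x ≠ 1) {n : ℤ} (h : x ^ n = 1) : n = 0 := by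
  by_contra hn
  have h1 : x ^ n.natAbs = 1 := by rwa [pow_natAbs_eq_one]
  exact Q.tf x hx n.natAbs (Int.natAbs_pos.2 hn) h1

/-- two simple elements with the same attracting point are equal -/
theorem rg_eq_of_att {x y : Γ} (hx : Q.Simple x) (hy : Q.Simple y) (h : Q.att x = Q.att y) :
    x = y := by
  have h1 : Q.act x (Q.att y) = Q.att y := by
    rw [← h, ← Q.att_conj x x hx.ne]
    congr 1
    group
  have h2 : x * y = y * x := Q.roots y x hy.ne h1
  obtain ⟨n, hn⟩ := Subgroup.mem_zpowers_iff.1 (hy.cent x h2)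
  obtain ⟨m, hm⟩ := Subgroup.mem_zpowers_iff.1 (hx.cent y h2.symm)
  have h3 : y ^ (n * m - 1) = 1 := by
    rw [zpow_sub, zpow_mul, hn, hm]
    group
  have h4 : n * m = 1 := by
    have := rg_zpow_eq Q hy.ne h3
    omega
  rcases Int.eq_one_or_neg_one_of_mul_eq_one h4 with h5 | h5
  · rw [h5, zpow_one] at hn
    exact hn.symm
  · exfalso
    rw [h5, zpow_neg_one] at hn
    rw [← hn] at h
    exact Q.att_ne y hy.ne h

/-- `z` linked with `x` : the ends of `z` are not ends of `x` -/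
theorem rg_link_ne {x z : Γ} (h : Q.link x z) : Q.att z ≠ Q.att x ∧ Q.att z⁻¹ ≠ Q.att x ∧
    Q.att z ≠ Q.att x⁻¹ ∧ Q.att z⁻¹ ≠ Q.att x⁻¹ := by
  obtain ⟨h1, h2, h3, h4, h5, h6⟩ := Q.sep_ne _ _ _ _ h
  exact ⟨h2.symm, h3.symm, h4.symm, h5.symm⟩

theorem rg_s_ne {x z : Γ} (h : Q.link x z) : Q.s x (Q.att z) ≠ 0 := by
  have hx := (Q.link_ne h).1
  obtain ⟨h1, h2, h3, h4⟩ := rg_link_ne h
  intro h0
  rw [← Q.s_rep x hx] at h0
  exact h3 (Q.s_inj x _ _ hx h1 (Q.att_ne x hx) h0)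

/-- different sides -/
theorem rg_sep_side {x a b : Γ} (ha : Q.link x a) (hb : Q.link x b) :
    Q.sep (Q.att x) (Q.att x⁻¹) (Q.att a) (Q.att b) ↔ Q.s x (Q.att a) * Q.s x (Q.att b) < 0 := by
  have hx := (Q.link_ne ha).1
  rw [Q.sep_inf x hx _ _ _ (Q.att_ne x hx) (rg_link_ne ha).1 (rg_link_ne hb).1, Q.s_rep x hx]
  ring_nf

/-- order on the positive side -/
theorem rg_sep_lt {x a b : Γ} (ha : Q.link x a) (hb : Q.link x b) (hpa : 0 < Q.s x (Q.att a)) :
    Q.sep (Q.att x) (Q.att a) (Q.att x⁻¹) (Q.att b) ↔ Q.s x (Q.att a) < Q.s x (Q.att b) := by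
  have hx := (Q.link_ne ha).1
  rw [Q.sep_inf x hx _ _ _ (rg_link_ne ha).1 (Q.att_ne x hx) (rg_link_ne hb).1, Q.s_rep x hx]
  constructor
  · intro h
    have h1 : Q.s x (Q.att a) - Q.s x (Q.att b) < 0 := by
      by_contra h2
      push Not at h2
      have := mul_nonneg (sub_nonneg.2 hpa.le) h2
      linarith
    linarith
  · intro h
    exact mul_neg_of_pos_of_neg (by linarith) (by linarith)

theorem rg_sep_aut (φ : MulAut Γ) {x y z t : Γ} (hx : x ≠ 1) (hy : y ≠ 1) (hz : z ≠ 1)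
    (ht : t ≠ 1) : Q.sep (Q.att (φ x)) (Q.att (φ y)) (Q.att (φ z)) (Q.att (φ t)) ↔
    Q.sep (Q.att x) (Q.att y) (Q.att z) (Q.att t) := by
  constructor
  · intro h
    have hne : ∀ {u : Γ}, u ≠ 1 → φ u ≠ 1 := fun hu => by
      rwa [Ne, map_eq_one_iff φ φ.injective]
    have := Q.si φ⁻¹ _ _ _ _ (hne hx) (hne hy) (hne hz) (hne ht) h
    simpa using this
  · exact Q.si φ _ _ _ _ hx hy hz ht

theorem rg_act_ne {x : Γ} {w : Q.C} (hx : x ≠ 1) (hw : w ≠ Q.att x) (k : ℤ) :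
    Q.act (x ^ k) w ≠ Q.att x := by
  intro h
  apply hw
  have h1 : Q.act (x ^ (-k)) (Q.act (x ^ k) w) = Q.act (x ^ (-k)) (Q.att x) := by rw [h]
  rw [← Q.act_mul, ← Q.att_conj _ _ hx, zpow_neg, inv_mul_cancel, Q.act_one] at h1
  rw [h1]
  congr 1
  group

theorem rg_s_zpow {x : Γ} {w : Q.C} (hx : x ≠ 1) (hw : w ≠ Q.att x) (k : ℤ) :
    Q.s x (Q.act (x ^ k) w) = Q.lam x ^ k * Q.s x w := by
  have hl : Q.lam x ≠ 0 := by
    have := Q.lam_gt x hx
    linarith
  induction k using Int.induction_on with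
  | zero => simp [Q.act_one]
  | succ n ih =>
    have e : x ^ ((n : ℤ) + 1) = x * x ^ (n : ℤ) := by rw [add_comm, zpow_add, zpow_one]
    rw [e, Q.act_mul, Q.s_act x _ hx (rg_act_ne hx hw _), ih, zpow_add₀ hl, zpow_one]
    ring
  | pred n ih =>
    have e : x ^ (-(n : ℤ)) = x * x ^ (-(n : ℤ) - 1) := by
      rw [← zpow_one_add]
      congr 1
      ring
    rw [e, Q.act_mul, Q.s_act x _ hx (rg_act_ne hx hw _)] at ih
    have e2 : Q.lam x ^ (-(n : ℤ)) = Q.lam x * Q.lam x ^ (-(n : ℤ) - 1) := by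
      rw [← zpow_one_add₀ hl]
      congr 1
      ring
    rw [e2, mul_assoc] at ih
    exact mul_left_cancel₀ hl ih

theorem rg_zpow_act {x a : Γ} (hl : Q.link x a) (k : ℤ) :
    Q.link x (x ^ k * a * x ^ (-k)) ∧
      Q.s x (Q.att (x ^ k * a * x ^ (-k))) = Q.lam x ^ k * Q.s x (Q.att a) := by
  have hx := (Q.link_ne hl).1
  have ha := (Q.link_ne hl).2
  have e1 : x ^ k * a * x ^ (-k) = x ^ k * a * (x ^ k)⁻¹ := by rw [zpow_neg]
  have e2 : x ^ k * x * (x ^ k)⁻¹ = x := by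
    rw [mul_inv_eq_iff_eq_mul, ← zpow_add_one, ← zpow_one_add, add_comm]
  refine ⟨?_, ?_⟩
  · have := (Q.link_conj (x ^ k) (x := x) (y := a)).2 hl
    rwa [e2, ← e1] at this
  · rw [e1, Q.att_conj _ _ ha, rg_s_zpow hx (rg_link_ne hl).1]

/-- only finitely many powers of `l` are in an interval of positive numbers -/
theorem rg_pow_fin {l v a b : ℝ} (hl : 1 < l) (ha : 0 < a) :
    {k : ℤ | a ≤ l ^ k * v ∧ l ^ k * v ≤ b}.Finite := by
  by_cases hv : 0 < v
  · obtain ⟨n, hn⟩ := pow_unbounded_of_one_lt (b / v) hl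
    obtain ⟨m, hm⟩ := pow_unbounded_of_one_lt (v / a) hl
    refine (Set.finite_Icc (-(m : ℤ)) n).subset ?_
    rintro k ⟨h1, h2⟩
    constructor
    · by_contra h3
      push Not at h3
      have h4 : l ^ k ≤ l ^ (-(m : ℤ)) := zpow_le_zpow_right₀ hl.le h3.le
      rw [zpow_neg, zpow_natCast] at h4
      have h5 : a ≤ (l ^ m)⁻¹ * v := h1.trans (mul_le_mul_of_nonneg_right h4 hv.le)
      have h6 : 0 < l ^ m := by positivity
      rw [div_lt_iff₀ ha] at hm
      have h7 : l ^ m * a ≤ v := by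
        have := mul_le_mul_of_nonneg_left h5 h6.le
        rwa [← mul_assoc, mul_inv_cancel₀ h6.ne', one_mul] at this
      linarith
    · by_contra h3
      push Not at h3
      have h4 : l ^ (n : ℤ) ≤ l ^ k := zpow_le_zpow_right₀ hl.le h3.le
      rw [zpow_natCast] at h4
      rw [div_lt_iff₀ hv] at hn
      have := mul_le_mul_of_nonneg_right h4 hv.le
      linarith
  · convert Set.finite_empty
    ext k
    simp only [Set.mem_setOf_eq, Set.mem_empty_iff_false, iff_false, not_and]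
    intro h1
    exfalso
    have h2 : 0 < l ^ k := zpow_pos (by linarith) k
    push Not at hv
    have := mul_nonpos_of_nonneg_of_nonpos h2.le hv
    linarith

end Circ

section rigid

variable {Γ ι : Type} [Group Γ] [Fintype ι] (M : Model Γ ι)

/-- the set of all conjugates of the base curves and their inverses -/
def Model.MM : Set Γ := {y | ∃ i, y ∈ cls (M.rt i M.c)}

theorem Model.rg_simple {y : Γ} (hy : y ∈ M.MM) : M.Q.Simple y := by
  obtain ⟨i, g, hg | hg⟩ := hy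
  · obtain ⟨σ', h1, -⟩ := M.split.map (MulAut.conj g * M.rt i)
    have := h1.simple
    rw [hg]
    simpa using this
  · obtain ⟨σ', h1, -⟩ := M.split.map (MulAut.conj g * M.rt i)
    have := Circ.rg_simple_inv h1.simple
    rw [hg]
    simpa [mul_assoc] using this

/-- the elements linked with `x` whose attracting point is on the positive side -/
def Model.PP (x : Γ) : Set Γ := {u | u ∈ M.MM ∧ M.Q.link x u ∧ 0 < M.Q.s x (M.Q.att u)}

theorem Model.rg_fin {x : Γ} (hx : x ≠ 1) {a b : ℝ} (ha : 0 < a) :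
    {t : ℝ | a ≤ t ∧ t ≤ b ∧ ∃ u ∈ M.PP x, M.Q.s x (M.Q.att u) = t}.Finite := by
  classical
  have hne : ∀ i, M.rt i M.c ≠ 1 := fun i =>
    (M.rg_simple ⟨i, rg_cls_self _⟩).ne
  choose F hF using fun i => M.Q.fin_cross x (M.rt i M.c) hx (hne i)
  choose F' hF' using fun i => M.Q.fin_cross x (M.rt i M.c)⁻¹ hx (inv_ne_one.2 (hne i))
  set E : Finset Γ := Finset.univ.biUnion F ∪ Finset.univ.biUnion F' with hE
  have key : ∀ u ∈ M.PP x, ∃ k : ℤ, ∃ f ∈ E, u = x ^ k * f * x ^ (-k) := by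
    rintro u ⟨⟨i, g, hg | hg⟩, hl, -⟩
    · rw [hg] at hl
      obtain ⟨k, f, hf, he⟩ := hF i g hl
      refine ⟨k, f, ?_, by rw [hg, he]⟩
      rw [hE]
      exact Finset.mem_union_left _ (Finset.mem_biUnion.2 ⟨i, Finset.mem_univ _, hf⟩)
    · rw [hg] at hl
      obtain ⟨k, f, hf, he⟩ := hF' i g hl
      refine ⟨k, f, ?_, by rw [hg, he]⟩
      rw [hE]
      exact Finset.mem_union_right _ (Finset.mem_biUnion.2 ⟨i, Finset.mem_univ _, hf⟩)
  have hfin : (⋃ f ∈ E, (fun k : ℤ => M.Q.lam x ^ k * M.Q.s x (M.Q.att f)) ''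
      {k : ℤ | a ≤ M.Q.lam x ^ k * M.Q.s x (M.Q.att f) ∧
        M.Q.lam x ^ k * M.Q.s x (M.Q.att f) ≤ b}).Finite := by
    refine Set.Finite.biUnion E.finite_toSet fun f _ => ?_
    exact (Circ.rg_pow_fin (M.Q.lam_gt x hx) ha).image _
  refine hfin.subset ?_
  rintro t ⟨h1, h2, u, hu, ht⟩
  obtain ⟨k, f, hf, he⟩ := key u hu
  have hl : M.Q.link x u := hu.2.1
  -- `f` is linked with `x`
  have hf2 : f = x ^ (-k) * u * x ^ (- -k) := by
    rw [he]
    group
  have hlf : M.Q.link x f := by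
    rw [hf2]
    exact (Circ.rg_zpow_act hl (-k)).1
  have hs := (Circ.rg_zpow_act hlf k).2
  rw [← he, ht] at hs
  simp only [Set.mem_iUnion]
  refine ⟨f, hf, k, ⟨?_, ?_⟩, hs.symm⟩
  · rw [← hs]; exact h1
  · rw [← hs]; exact h2

/-- a map preserving the order on a locally finite set and fixing elements below and above is the
identity -/
theorem rg_orbit {α : Type} (P : Set α) (f : α → ℝ) (h : α → α) (hP : ∀ u ∈ P, h u ∈ P)
    (hlt : ∀ u ∈ P, ∀ v ∈ P, (f u < f v ↔ f (h u) < f (h v)))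
    (a b u : α) (ha : a ∈ P) (hb : b ∈ P) (hu : u ∈ P) (hha : f (h a) = f a)
    (hhb : f (h b) = f b) (hau : f a ≤ f u) (hub : f u ≤ f b)
    (hfin : {t : ℝ | f a ≤ t ∧ t ≤ f b ∧ ∃ u ∈ P, f u = t}.Finite) : f (h u) = f u := by
  have hit : ∀ n, h^[n] u ∈ P := by
    intro n
    induction n with
    | zero => exact hu
    | succ n ih => rw [Function.iterate_succ_apply']; exact hP _ ih
  have hmem : ∀ n, f (h^[n] u) ∈ {t : ℝ | f a ≤ t ∧ t ≤ f b ∧ ∃ u ∈ P, f u = t} := by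
    intro n
    refine ⟨?_, ?_, _, hit n, rfl⟩
    · induction n with
      | zero => exact hau
      | succ n ih =>
        rw [Function.iterate_succ_apply']
        by_contra hc
        push Not at hc
        rw [← hha, ← hlt _ (hit n) _ ha] at hc
        linarith
    · induction n with
      | zero => exact hub
      | succ n ih =>
        rw [Function.iterate_succ_apply']
        by_contra hc
        push Not at hc
        rw [← hhb, ← hlt _ hb _ (hit n)] at hc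
        linarith
  by_contra hne
  rcases lt_or_gt_of_ne hne with hc | hc
  · have hs : StrictAnti fun n => f (h^[n] u) := by
      refine strictAnti_nat_of_succ_lt fun n => ?_
      induction n with
      | zero => simpa using hc
      | succ n ih =>
        have := (hlt _ (hit (n + 1)) _ (hit n)).1 ih
        rwa [← Function.iterate_succ_apply' h, ← Function.iterate_succ_apply' h] at this
    exact Set.infinite_of_injective_forall_mem hs.injective hmem hfin
  · have hs : StrictMono fun n => f (h^[n] u) := by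
      refine strictMono_nat_of_lt_succ fun n => ?_
      induction n with
      | zero => simpa using hc
      | succ n ih =>
        have := (hlt _ (hit n) _ (hit (n + 1))).1 ih
        rwa [← Function.iterate_succ_apply' h, ← Function.iterate_succ_apply' h] at this
    exact Set.infinite_of_injective_forall_mem hs.injective hmem hfin

/-- step (1) -/
theorem Model.rg_step (h : MulAut Γ)
    (hcl : ∀ i, ∀ y ∈ cls (M.rt i M.c), h y ∈ cls (M.rt i M.c)) {x z0 : Γ}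
    (hx : h x = x) (hz0 : h z0 = z0) (hl0 : M.Q.link x z0) (hM0 : z0 ∈ M.MM) {z : Γ}
    (hz : z ∈ M.MM) (hl : M.Q.link x z) : h z = z := by
  have hx1 := (M.Q.link_ne hl0).1
  -- reduction to the case in which the attracting points are on the positive side
  wlog hp0 : 0 < M.Q.s x (M.Q.att z0) generalizing z0
  · have hl0' : M.Q.link x z0⁻¹ := (M.Q.link_inv_right).2 hl0
    refine this (z0 := z0⁻¹) (by rw [map_inv, hz0]) hl0'
      (by obtain ⟨i, hi⟩ := hM0; exact ⟨i, rg_cls_inv hi⟩) ?_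
    have h1 := ((M.Q.link_iff hx1).1 (M.Q.link_symm hl0)).2.2
    push Not at hp0
    by_contra h2
    push Not at h2
    have := mul_nonneg_of_nonpos_of_nonpos hp0 h2
    linarith
  wlog hp : 0 < M.Q.s x (M.Q.att z) generalizing z
  · have hl' : M.Q.link x z⁻¹ := (M.Q.link_inv_right).2 hl
    have h3 : h z⁻¹ = z⁻¹ := by
      refine this (z := z⁻¹) (by obtain ⟨i, hi⟩ := hz; exact ⟨i, rg_cls_inv hi⟩) hl' ?_
      have h1 := ((M.Q.link_iff hx1).1 (M.Q.link_symm hl)).2.2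
      push Not at hp
      by_contra h2
      push Not at h2
      have := mul_nonneg_of_nonpos_of_nonpos hp h2
      linarith
    rw [map_inv] at h3
    exact inv_injective h3
  have hMM : ∀ y ∈ M.MM, h y ∈ M.MM := by
    rintro y ⟨i, hi⟩
    exact ⟨i, hcl i y hi⟩
  have hlk : ∀ {u : Γ}, M.Q.link x u → M.Q.link x (h u) := by
    intro u hu
    have := (M.Q.link_aut h (x := x) (y := u)).2 hu
    rwa [hx] at this
  have hxi : h x⁻¹ = x⁻¹ := by rw [map_inv, hx]
  have hne : ∀ {u : Γ}, M.Q.link x u → u ≠ 1 := fun hu => (M.Q.link_ne hu).2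
  have hxi1 : x⁻¹ ≠ 1 := inv_ne_one.2 hx1
  have hsgn : ∀ u ∈ M.PP x, h u ∈ M.PP x := by
    rintro u ⟨hu1, hu2, hu3⟩
    refine ⟨hMM u hu1, hlk hu2, ?_⟩
    have h1 : ¬ M.Q.sep (M.Q.att x) (M.Q.att x⁻¹) (M.Q.att u) (M.Q.att z0) := by
      rw [Circ.rg_sep_side hu2 hl0]
      have := mul_pos hu3 hp0
      linarith
    rw [← Circ.rg_sep_aut h hx1 hxi1 (hne hu2) (hne hl0), hx, hxi, hz0,
      Circ.rg_sep_side (hlk hu2) hl0] at h1
    have h2 := Circ.rg_s_ne (hlk hu2)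
    by_contra h3
    push Not at h3
    exact h1 (mul_neg_of_neg_of_pos (lt_of_le_of_ne h3 h2) hp0)
  have hlt : ∀ u ∈ M.PP x, ∀ v ∈ M.PP x, (M.Q.s x (M.Q.att u) < M.Q.s x (M.Q.att v) ↔
      M.Q.s x (M.Q.att (h u)) < M.Q.s x (M.Q.att (h v))) := by
    intro u hu v hv
    have hu' := hsgn u hu
    have hv' := hsgn v hv
    rw [← Circ.rg_sep_lt hu.2.1 hv.2.1 hu.2.2, ← Circ.rg_sep_lt hu'.2.1 hv'.2.1 hu'.2.2,
      ← Circ.rg_sep_aut h hx1 (hne hu.2.1) hxi1 (hne hv.2.1), hx, hxi]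
  have hz0P : z0 ∈ M.PP x := ⟨hM0, hl0, hp0⟩
  have hzP : z ∈ M.PP x := ⟨hz, hl, hp⟩
  have hlam := M.Q.lam_gt x hx1
  -- the translates of `z0`
  have htr : ∀ k : ℤ, (x ^ k * z0 * x ^ (-k)) ∈ M.PP x ∧
      h (x ^ k * z0 * x ^ (-k)) = x ^ k * z0 * x ^ (-k) := by
    intro k
    obtain ⟨h1, h2⟩ := Circ.rg_zpow_act hl0 k
    refine ⟨⟨?_, h1, ?_⟩, ?_⟩
    · obtain ⟨i, hi⟩ := hM0
      refine ⟨i, ?_⟩
      rw [zpow_neg]
      exact rg_cls_conj _ hi
    · rw [h2]
      exact mul_pos (zpow_pos (by linarith) k) hp0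
    · rw [map_mul, map_mul, map_zpow, map_zpow, hx, hz0]
  obtain ⟨n, hn⟩ := pow_unbounded_of_one_lt (M.Q.s x (M.Q.att z) / M.Q.s x (M.Q.att z0)) hlam
  obtain ⟨m, hm⟩ := pow_unbounded_of_one_lt (M.Q.s x (M.Q.att z0) / M.Q.s x (M.Q.att z)) hlam
  rw [div_lt_iff₀ hp0] at hn
  rw [div_lt_iff₀ hp] at hm
  have hfix : M.Q.s x (M.Q.att (h z)) = M.Q.s x (M.Q.att z) := by
    refine rg_orbit (M.PP x) (fun u => M.Q.s x (M.Q.att u)) h hsgn hlt
      (x ^ (-(m : ℤ)) * z0 * x ^ (- -(m : ℤ))) (x ^ (n : ℤ) * z0 * x ^ (-(n : ℤ))) z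
      (htr _).1 (htr _).1 hzP (by simp only [(htr _).2]) (by simp only [(htr _).2]) ?_ ?_ ?_
    · simp only [(Circ.rg_zpow_act hl0 _).2]
      have h6 : 0 < M.Q.lam x ^ m := pow_pos (by linarith) m
      rw [zpow_neg, zpow_natCast, inv_mul_le_iff₀ h6]
      exact hm.le
    · simp only [(Circ.rg_zpow_act hl0 _).2]
      rw [zpow_natCast]
      exact hn.le
    · refine M.rg_fin hx1 ?_
      exact (htr _).1.2.2
  have hatt : M.Q.att (h z) = M.Q.att z :=
    M.Q.s_inj x _ _ hx1 (Circ.rg_link_ne (hlk hl)).1 (Circ.rg_link_ne hl).1 hfix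
  exact Circ.rg_eq_of_att (M.rg_simple (hMM z hz)) (M.rg_simple hz) hatt

end rigid

theorem Model.rigid {Γ ι : Type} [Group Γ] [Fintype ι] (M : Model Γ ι)
    (h : MulAut Γ)
    (hcl : ∀ i, ∀ y ∈ cls (M.rt i M.c), h y ∈ cls (M.rt i M.c))
    (h0 : h (M.rt M.i0 M.c) = M.rt M.i0 M.c) (h1 : h (M.rt M.i1 M.c) = M.rt M.i1 M.c) :
    h = 1 := by
  -- (2) every element of `MM` is fixed
  have hfix : ∀ i, ∀ y ∈ cls (M.rt i M.c), h y = y := by
    intro i y hy
    have key : y ∈ M.MM ∧ h y = y ∧ ∃ z0 ∈ M.MM, M.Q.link y z0 ∧ h z0 = z0 := by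
      have hc := M.connM i y hy
      clear hy
      induction hc with
      | refl =>
        exact ⟨⟨M.i0, rg_cls_self _⟩, h0, M.rt M.i1 M.c, ⟨M.i1, rg_cls_self _⟩, M.link01, h1⟩
      | tail _ hr ih =>
        obtain ⟨hu, hhu, z0, hz0, hl, hhz⟩ := ih
        rcases hr with ⟨hv, hlv⟩ | rfl
        · exact ⟨hv, M.rg_step h hcl hhu hhz hl hz0 hv hlv, _, hu, M.Q.link_symm hlv, hhu⟩
        · refine ⟨?_, by rw [map_inv, hhu], z0, hz0, (M.Q.link_inv_left).2 hl, hhz⟩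
          obtain ⟨j, hj⟩ := hu
          exact ⟨j, rg_cls_inv hj⟩
    exact key.2.1
  -- (3)
  ext g
  rw [MulAut.one_apply]
  have hcomm : ∀ i, (g⁻¹ * h g) * M.rt i M.c * (g⁻¹ * h g)⁻¹ = M.rt i M.c := by
    intro i
    have h2 := hfix i _ (rg_cls_conj g (rg_cls_self (M.rt i M.c)))
    rw [map_mul, map_mul, map_inv, hfix i _ (rg_cls_self _)] at h2
    have h3 : (g⁻¹ * h g) * M.rt i M.c * (g⁻¹ * h g)⁻¹ =
        g⁻¹ * (h g * M.rt i M.c * (h g)⁻¹) * g := by group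
    rw [h3, h2]
    group
  by_contra hg
  have ht : g⁻¹ * h g ≠ 1 := by
    intro h4
    exact hg (by rw [inv_mul_eq_one] at h4; exact h4.symm)
  set t := g⁻¹ * h g with htdef
  have hne : ∀ i, M.rt i M.c ≠ 1 := fun i => (M.rg_simple ⟨i, rg_cls_self _⟩).ne
  have hact : ∀ i, M.Q.att (M.rt i M.c) = M.Q.att t ∨ M.Q.att (M.rt i M.c) = M.Q.att t⁻¹ := by
    intro i
    refine M.Q.fixpt t _ ht ?_
    rw [← M.Q.att_conj _ _ (hne i), hcomm i]
  have hact' : ∀ i, M.Q.att (M.rt i M.c)⁻¹ = M.Q.att t ∨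
      M.Q.att (M.rt i M.c)⁻¹ = M.Q.att t⁻¹ := by
    intro i
    refine M.Q.fixpt t _ ht ?_
    rw [← M.Q.att_conj _ _ (inv_ne_one.2 (hne i))]
    congr 1
    have := hcomm i
    have h5 : t * (M.rt i M.c)⁻¹ * t⁻¹ = (t * M.rt i M.c * t⁻¹)⁻¹ := by group
    rw [h5, this]
  obtain ⟨a1, a2, a3, a4, a5, a6⟩ := M.Q.sep_ne _ _ _ _ M.link01
  have b0 := hact M.i0
  have b1 := hact' M.i0
  have b2 := hact M.i1
  rcases b0 with b0 | b0 <;> rcases b1 with b1 | b1 <;> rcases b2 with b2 | b2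
  all_goals first
    | exact a1 (b0.trans b1.symm)
    | exact a2 (b0.trans b2.symm)
    | exact a4 (b1.trans b2.symm)

theorem Model.stab_fin {Γ ι : Type} [Group Γ] [Fintype ι] (M : Model Γ ι) :
    ∃ F : Set (MulAut Γ), F.Finite ∧ ∀ φ : MulAut Γ,
      (∀ i, φ (M.rt i M.c) ∈ cls (M.rt i M.c)) → ∃ g : Γ, MulAut.conj g * φ ∈ F := by
  classical
  have hne : ∀ i, M.rt i M.c ≠ 1 := fun i => (M.rg_simple ⟨i, rg_cls_self _⟩).ne
  set x := M.rt M.i0 M.c with hxdef
  set z := M.rt M.i1 M.c with hzdef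
  have hx : x ≠ 1 := hne _
  have hz : z ≠ 1 := hne _
  obtain ⟨F1, hF1⟩ := M.Q.fin_cross x z hx hz
  obtain ⟨F2, hF2⟩ := M.Q.fin_cross x z⁻¹ hx (inv_ne_one.2 hz)
  set S : Set (MulAut Γ) := {ψ | (∀ i, ψ (M.rt i M.c) ∈ cls (M.rt i M.c)) ∧
    ψ x ∈ ({x, x⁻¹} : Finset Γ) ∧ ψ z ∈ F1 ∪ F2} with hS
  refine ⟨S, ?_, ?_⟩
  · refine Set.Finite.of_finite_image (f := fun ψ : MulAut Γ => (ψ x, ψ z)) ?_ ?_
    · refine (Finset.finite_toSet (({x, x⁻¹} : Finset Γ) ×ˢ (F1 ∪ F2))).subset ?_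
      rintro _ ⟨ψ, ⟨-, h2, h3⟩, rfl⟩
      simp only [Finset.coe_product, Set.mem_prod, Finset.mem_coe]
      exact ⟨h2, h3⟩
    · rintro ψ1 ⟨h11, h12, h13⟩ ψ2 ⟨h21, h22, h23⟩ heq
      simp only [Prod.mk.injEq] at heq
      have h4 : ψ1⁻¹ * ψ2 = 1 := by
        refine M.rigid _ ?_ ?_ ?_
        · intro i y hy
          have h5 : ψ2 y ∈ cls (M.rt i M.c) := rg_cls_trans (rg_cls_map ψ2 hy) (h21 i)
          have h6 : M.rt i M.c ∈ cls (ψ1 (M.rt i M.c)) := rg_cls_symm (h11 i)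
          have h7 := rg_cls_map ψ1⁻¹ (rg_cls_trans h5 h6)
          simpa using h7
        · show ψ1⁻¹ (ψ2 x) = x
          rw [← heq.1]
          simp
        · show ψ1⁻¹ (ψ2 z) = z
          rw [← heq.2]
          simp
      rw [inv_mul_eq_one] at h4
      exact h4
  · intro φ hφ
    -- first conjugation
    have h1 : ∃ g, MulAut.conj g (φ x) ∈ ({x, x⁻¹} : Finset Γ) := by
      obtain ⟨g, hg | hg⟩ := hφ M.i0
      · refine ⟨g⁻¹, ?_⟩
        rw [hxdef, hg]
        simp [mul_assoc]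
      · refine ⟨g⁻¹, ?_⟩
        rw [hxdef, hg]
        simp [mul_assoc]
    obtain ⟨g, hg⟩ := h1
    have h2 : M.Q.link x (MulAut.conj g (φ z)) := by
      have := (M.Q.link_aut (MulAut.conj g * φ) (x := x) (y := z)).2 M.link01
      simp only [Finset.mem_insert, Finset.mem_singleton] at hg
      rw [MulAut.mul_apply, MulAut.mul_apply] at this
      rcases hg with hg | hg
      · rwa [hg] at this
      · rw [hg] at this
        exact (M.Q.link_inv_left).1 this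
    have h3 : MulAut.conj g (φ z) ∈ cls z := by
      rw [MulAut.conj_apply]
      exact rg_cls_conj g (hφ M.i1)
    have h4 : ∃ k : ℤ, ∃ f ∈ F1 ∪ F2, MulAut.conj g (φ z) = x ^ k * f * x ^ (-k) := by
      obtain ⟨g', hg' | hg'⟩ := h3
      · rw [hg'] at h2 ⊢
        obtain ⟨k, f, hf, he⟩ := hF1 g' h2
        exact ⟨k, f, Finset.mem_union_left _ hf, he⟩
      · rw [hg'] at h2 ⊢
        obtain ⟨k, f, hf, he⟩ := hF2 g' h2
        exact ⟨k, f, Finset.mem_union_right _ hf, he⟩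
    obtain ⟨k, f, hf, he⟩ := h4
    refine ⟨x ^ (-k) * g, ?_, ?_, ?_⟩
    · intro i
      rw [MulAut.mul_apply, MulAut.conj_apply]
      exact rg_cls_conj _ (hφ i)
    · have h5 : (MulAut.conj (x ^ (-k) * g) * φ) x = x ^ (-k) * MulAut.conj g (φ x) * x ^ k := by
        rw [MulAut.mul_apply, MulAut.conj_apply, MulAut.conj_apply]
        group
      rw [h5]
      simp only [Finset.mem_insert, Finset.mem_singleton] at hg ⊢
      rcases hg with hg | hg
      · left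
        rw [hg]
        group
      · right
        rw [hg]
        group
    · have h5 : (MulAut.conj (x ^ (-k) * g) * φ) z = x ^ (-k) * MulAut.conj g (φ z) * x ^ k := by
        rw [MulAut.mul_apply, MulAut.conj_apply, MulAut.conj_apply]
        group
      rw [h5, he]
      have h6 : x ^ (-k) * (x ^ k * f * x ^ (-k)) * x ^ k = f := by group
      rw [h6]
      exact hf

end Pool.Agent.LDJ
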