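import Pool.Agent.LDJ.STN
import Pool.Agent.LDJ.SFix
import Pool.Agent.LDJ.SRig

/-!
LDJ.SFill: every image of `c` under an automorphism is crossed by a base curve.

PROOF. Suppose `φ c` is not linked with any conjugate of any `m i = rt i c`. Then for every `i`
the element `z_i = φ⁻¹ (m i)` is not linked with any conjugate of `c` (`link_aut`; conjugates go to
conjugates), so by `fix_class` `T z_i` is conjugate to `z_i`; hence `ψ = φ T φ⁻¹` maps `m i` into
`cls (m i)`, and so do all `ψ^n`, `n : ℕ`. By `stab_fin` there are `g_n` with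
`conj g_n * ψ^n ∈ F`, `F` finite; so for some `n < n'`: `conj g_n * ψ^n = conj g_n' * ψ^n'`, so
`ψ^(n'-n)` is inner, so `T^k`, `k = n' - n ≥ 1`, is inner: `T^k = conj x`.
On `B`: `x` commutes with all of `B`, in particular with `c`, so `x = c^j` (`Simple.cent`), and
`c^j` commutes with `b ∈ B \ zpowers c` (`nB`); if `j ≠ 0`: `b` commutes with `c^j`, so
`act b (att c) = att c` (`att (b c^j b⁻¹) = act b (att (c^j))`, `att (c^j) = att c^{±1}`), so `b`
and `c` commute (`roots`), so `b ∈ zpowers c` by `Simple.cent`, contradiction. So `x = 1`, `T^k = 1`.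
On `A`: `T^k a = c^k a c^(-k) = a`, and as before with `a ∈ A \ zpowers c` (`nA`) this is
impossible for `k ≠ 0`. About 150 lines.
-/

namespace Pool.Agent.LDJ

namespace SFillX

theorem comm_pow {Γ : Type} [Group Γ] (Q : Circ Γ) {c g : Γ} (hc : c ≠ 1) {n : ℕ} (hn : 0 < n)
    (h : g * c ^ n = c ^ n * g) : g * c = c * g := by
  apply Q.roots c g hc
  have h1 : c ^ n ≠ 1 := Q.tf c hc n hn
  have h2 := Q.att_conj g (c ^ n) h1
  have h3 : g * c ^ n * g⁻¹ = c ^ n := by
    rw [h]
    group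
  rw [h3, Q.att_pow c hc n hn] at h2
  exact h2.symm

theorem comm_zpow {Γ : Type} [Group Γ] (Q : Circ Γ) {c g : Γ} (hc : c ≠ 1) {j : ℤ} (hj : j ≠ 0)
    (h : g * c ^ j = c ^ j * g) : g * c = c * g := by
  rcases lt_or_gt_of_ne hj with h0 | h0
  · obtain ⟨n, hn⟩ := Int.eq_ofNat_of_zero_le (show 0 ≤ -j by omega)
    have hj' : j = -(n : ℤ) := by omega
    apply comm_pow Q hc (n := n) (by omega)
    rw [hj', zpow_neg, zpow_natCast] at h
    have h1 := congrArg (fun t => c ^ n * t * c ^ n) h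
    simp only [← mul_assoc, mul_inv_cancel, one_mul] at h1
    rw [mul_assoc (c ^ n * g), inv_mul_cancel, mul_one] at h1
    exact h1.symm
  · obtain ⟨n, hn⟩ := Int.eq_ofNat_of_zero_le h0.le
    apply comm_pow Q hc (n := n) (by omega)
    rw [hn, zpow_natCast] at h
    exact h

end SFillX

open SFillX

theorem Model.fill {Γ ι : Type} [Group Γ] [Fintype ι] (M : Model Γ ι) (φ : MulAut Γ) :
    ∃ i, ∃ g : Γ, M.Q.link (M.rt i M.c) (g * φ M.c * g⁻¹) := by
  by_contra hcon
  push Not at hcon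
  have hS := M.split.simple
  have hc1 : M.c ≠ 1 := M.split.ne
  have hTc : M.T M.c = M.c := M.TB _ M.split.memB
  -- the images of the base curves
  have hz1 : ∀ i, φ⁻¹ (M.rt i M.c) ≠ 1 := by
    intro i h
    apply hc1
    have h1 : M.rt i M.c = 1 := by
      have := congrArg φ h
      rw [map_one, MulAut.apply_inv_self] at this
      exact this
    exact (map_eq_one_iff _ (M.rt i).injective).mp h1
  have hzl : ∀ i g, ¬ M.Q.link (φ⁻¹ (M.rt i M.c)) (g * M.c * g⁻¹) := by
    intro i g h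
    rw [← M.Q.link_aut φ] at h
    rw [MulAut.apply_inv_self, map_mul, map_mul, map_inv] at h
    exact hcon i _ h
  have hTn : ∀ i, ∀ n : ℕ, ∃ g : Γ, (M.T ^ n) (φ⁻¹ (M.rt i M.c)) =
      g * φ⁻¹ (M.rt i M.c) * g⁻¹ := by
    intro i n
    obtain ⟨u, hu⟩ := M.fix_class (hz1 i) (hzl i)
    induction n with
    | zero => exact ⟨1, by simp⟩
    | succ n ih =>
      obtain ⟨g, hg⟩ := ih
      refine ⟨M.T g * u, ?_⟩
      rw [pow_succ', MulAut.mul_apply, hg, map_mul, map_mul, map_inv, hu]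
      group
  set ψ : MulAut Γ := φ * M.T * φ⁻¹ with hψ
  have hψn : ∀ n : ℕ, ψ ^ n = φ * M.T ^ n * φ⁻¹ := fun n => by rw [hψ, conj_pow]
  have hcls : ∀ n : ℕ, ∀ i, (ψ ^ n) (M.rt i M.c) ∈ cls (M.rt i M.c) := by
    intro n i
    obtain ⟨g, hg⟩ := hTn i n
    refine ⟨φ g, Or.inl ?_⟩
    rw [hψn, MulAut.mul_apply, MulAut.mul_apply, hg, map_mul, map_mul, map_inv,
      MulAut.apply_inv_self]
  obtain ⟨F, hF, hFs⟩ := M.stab_fin
  choose g hg using fun n => hFs (ψ ^ n) (hcls n)
  have hinj : ¬ Function.Injective fun n => MulAut.conj (g n) * ψ ^ n := by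
    intro hi
    have h1 : Set.range (fun n => MulAut.conj (g n) * ψ ^ n) ⊆ F := by
      rintro _ ⟨n, rfl⟩
      exact hg n
    exact Set.infinite_range_of_injective hi (hF.subset h1)
  have hex : ∃ n k : ℕ, 0 < k ∧ MulAut.conj (g n) * ψ ^ n = MulAut.conj (g (n + k)) * ψ ^ (n + k) := by
    unfold Function.Injective at hinj
    push Not at hinj
    obtain ⟨n, n', he, hne⟩ := hinj
    rcases lt_or_gt_of_ne hne with h | h
    · refine ⟨n, n' - n, by omega, ?_⟩
      rw [Nat.add_sub_cancel' h.le]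
      exact he
    · refine ⟨n', n - n', by omega, ?_⟩
      rw [Nat.add_sub_cancel' h.le]
      exact he.symm
  obtain ⟨n, k, hk, he⟩ := hex
  have hψk : ψ ^ k = MulAut.conj ((g (n + k))⁻¹ * g n) := by
    rw [map_mul, map_inv]
    have h1 : ψ ^ (n + k) = ψ ^ k * ψ ^ n := by rw [← pow_add, add_comm]
    rw [h1, ← mul_assoc] at he
    have h2 := mul_right_cancel he
    rw [h2]
    group
  obtain ⟨x, hx⟩ : ∃ x : Γ, M.T ^ k = MulAut.conj x := by
    refine ⟨φ⁻¹ ((g (n + k))⁻¹ * g n), ?_⟩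
    have h1 : M.T ^ k = φ⁻¹ * ψ ^ k * φ := by
      rw [hψn]
      group
    rw [h1, hψk]
    ext y
    rw [MulAut.mul_apply, MulAut.mul_apply, MulAut.conj_apply, MulAut.conj_apply, map_mul, map_mul,
      map_inv, MulAut.inv_apply_self]
  have hTB : ∀ b ∈ M.B, ∀ m : ℕ, (M.T ^ m) b = b := by
    intro b hb m
    induction m with
    | zero => simp
    | succ m ih => rw [pow_succ', MulAut.mul_apply, ih, M.TB b hb]
  have hxB : ∀ b ∈ M.B, b * x = x * b := by
    intro b hb
    have h1 := hTB b hb k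
    rw [hx, MulAut.conj_apply] at h1
    calc b * x = (x * b * x⁻¹) * x := by rw [h1]
      _ = x * b := by group
  obtain ⟨j, hj⟩ := Subgroup.mem_zpowers_iff.mp (hS.cent x (hxB _ M.split.memB).symm)
  obtain ⟨b, hb, hbz⟩ := M.split.nB
  have hj0 : j = 0 := by
    by_contra hj0
    apply hbz
    apply hS.cent
    apply comm_zpow M.Q hc1 hj0
    rw [hj]
    exact hxB b hb
  have hx1 : x = 1 := by rw [← hj, hj0, zpow_zero]
  have hTk : M.T ^ k = 1 := by rw [hx, hx1, map_one]
  obtain ⟨a, ha, haz⟩ := M.split.nA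
  have hTA : ∀ m : ℕ, (M.T ^ m) a = M.c ^ m * a * (M.c ^ m)⁻¹ := by
    intro m
    induction m with
    | zero => simp
    | succ m ih =>
      rw [pow_succ', MulAut.mul_apply, ih, map_mul, map_mul, map_inv, map_pow, hTc, M.TA a ha,
        pow_succ]
      group
  apply haz
  apply hS.cent
  apply comm_pow M.Q hc1 hk
  have h1 := hTA k
  rw [hTk, MulAut.one_apply] at h1
  calc a * M.c ^ k = (M.c ^ k * a * (M.c ^ k)⁻¹) * M.c ^ k := by rw [← h1]
    _ = M.c ^ k * a := by group

end Pool.Agent.LDJ
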