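import Pool.Agent.LDJ.SN2

/-!
LDJ.SL4: `N y x z` is bounded, uniformly in the simple element `y`.

PROOF. `F` from `fin_cross x z`; `D = F.card + 2`. By conjugating everything (`N_conj`; `y` stays
simple) and by `N_inv_mid`, `N_inv_last`, `link_inv_*` we may assume `x' = x`, `z' = g z g⁻¹`.
Put `z_k = y^k z' y^(-k)` and `I = {k | link x z_k}` (finite: `N_finite`). For `k ∈ I` write
`z_k = x^(n_k) f_k x^(-n_k)`, `f_k ∈ F`. Suppose `j ≠ k` in `I` and `f_j = f_k`; then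
`z_j = x^n z_k x^(-n)` with `n = n_j - n_k`. `n ≠ 0`: else `y^(j-k)` commutes with `z_k`, so
`act (y^(j-k)) (att z_k) = att z_k`, so by `fixpt` (`y^(j-k) ≠ 1` by `tf`) and `att_pow`
`att z_k ∈ {att y, att y⁻¹}`, contradicting `link z_k y` (`sep_ne`).
Put `y' = x^n y x^(-n)`: not linked with `y` (`y` simple), linked with `z_j` (since `z_k` is linked
with `y`), linked with `x`. Suppose `n ≥ 1`. Let `τ` be the sign of `s y (att x)`.
Claim: both ends `w` of `y'` have `s y`-sign `τ`. `w = act (x^n) w1`, `w1` an end of `y`. If not,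
`sep (att y) (att y⁻¹) w (att x)`, so `sep (att x) w (att y) (att y⁻¹)`, so by `sep_inf` for `x`
`(s x w - u)(s x w + v) < 0`, `{u,-v}` the `s x`-coordinates of the ends of `y`, but
`s x w = λ^n u` or `-λ^n v`, `λ = lam x > 1`, contradiction.
So the ends of `y'` have coordinates `τp, τq`, `0 < p < q`; as `y'` and `y y' y⁻¹` are not linked
(`y` simple), `q ≤ (lam y) p`. As `z_j` is linked with `y` and `y'`, its end of sign `τ` has
absolute value in `(p,q)`; this absolute value is `(lam y)^j v_0` with `v_0 > 0` independent of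
`j` (`up_conj`, `dn_conj`). Also `|s y (att x)| ∈ (p,q)`.
Let `j, j'` both arise in this way with `n, n' ≥ 1`, with intervals `(p,q)`, `(p',q')`: both
contain `|s y (att x)|` and the two axes are not linked (conjugates of `y`), so one interval is
contained in the other (`sep_fin`); so both `(lam y)^j v_0`, `(lam y)^(j') v_0` lie in one interval
`(p,q)` with `q ≤ (lam y) p`, so `j = j'`. So at most one `j_+ ∈ I` arises with `n ≥ 1`; in the same
way (replace `x` by `x⁻¹`) at most one `j_-` with `n ≤ -1`. On `I \ {j_+, j_-}` the map `k ↦ f_k` is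
injective (if `f_j = f_k`, one of `j`, `k`... for `(j,k)` with `n ≥ 1` it is `j = j_+`, for
`n ≤ -1` it is `j = j_-`). So `#I ≤ #F + 2`. About 300 lines.
-/

namespace Pool.Agent.LDJ

namespace Circ

variable {Γ : Type} [Group Γ] (Q : Circ Γ)

namespace SL4

variable {Q}

theorem conj_ne {x : Γ} (g : Γ) (hx : x ≠ 1) : g * x * g⁻¹ ≠ 1 := by
  intro h
  apply hx
  have : g * x = g := by
    calc g * x = g * x * g⁻¹ * g := by group
      _ = g := by rw [h, one_mul]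
  simpa using this

theorem inv_conj (g x : Γ) : (g * x * g⁻¹)⁻¹ = g * x⁻¹ * g⁻¹ := by
  group

/-- elements commuting with `x` fix its attracting point -/
theorem act_comm {x g : Γ} (hx : x ≠ 1) (h : g * x = x * g) : Q.act g (Q.att x) = Q.att x := by
  rw [← Q.att_conj g x hx, h, mul_inv_cancel_right]

theorem act_ne {x g : Γ} (hx : x ≠ 1) (h : g * x = x * g) {w : Q.C} (hw : w ≠ Q.att x) :
    Q.act g w ≠ Q.att x := by
  intro he
  apply hw
  have h2 : g⁻¹ * x = x * g⁻¹ := by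
    calc g⁻¹ * x = g⁻¹ * (x * g) * g⁻¹ := by group
      _ = g⁻¹ * (g * x) * g⁻¹ := by rw [h]
      _ = x * g⁻¹ := by group
  have h3 := act_comm (Q := Q) hx h2
  rw [← he, ← Q.act_mul, inv_mul_cancel, Q.act_one] at h3
  rw [h3, he]

theorem s_pow {x : Γ} (hx : x ≠ 1) {w : Q.C} (hw : w ≠ Q.att x) (n : ℕ) :
    Q.s x (Q.act (x ^ n) w) = Q.lam x ^ n * Q.s x w := by
  induction n with
  | zero => simp [Q.act_one]
  | succ n ih =>
    have h1 : Q.act (x ^ (n + 1)) w = Q.act x (Q.act (x ^ n) w) := by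
      rw [← Q.act_mul, pow_succ']
    rw [h1, Q.s_act x _ hx (act_ne hx (by rw [← pow_succ, ← pow_succ']) hw), ih, pow_succ']
    ring

theorem nolink' {y : Γ} (hs : Q.Simple y) (g h : Γ) :
    ¬ Q.link (g * y * g⁻¹) (h * y * h⁻¹) := by
  intro hl
  have h1 := (Q.link_conj g⁻¹).mpr hl
  have e1 : g⁻¹ * (g * y * g⁻¹) * g⁻¹⁻¹ = y := by group
  have e2 : g⁻¹ * (h * y * h⁻¹) * g⁻¹⁻¹ = (g⁻¹ * h) * y * (g⁻¹ * h)⁻¹ := by group
  rw [e1, e2] at h1
  exact hs.nolink _ h1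

theorem simple_conj {y : Γ} (hs : Q.Simple y) (g : Γ) : Q.Simple (g * y * g⁻¹) where
  ne := conj_ne g hs.ne
  nolink := by
    intro h
    have e : h * (g * y * g⁻¹) * h⁻¹ = (h * g) * y * (h * g)⁻¹ := by group
    rw [e]
    exact nolink' hs _ _
  cent := by
    intro h hh
    have h1 : (g⁻¹ * h * g) * y = y * (g⁻¹ * h * g) := by
      calc (g⁻¹ * h * g) * y = g⁻¹ * (h * (g * y * g⁻¹)) * g := by group
        _ = g⁻¹ * ((g * y * g⁻¹) * h) * g := by rw [hh]
        _ = y * (g⁻¹ * h * g) := by group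
    obtain ⟨n, hn⟩ := Subgroup.mem_zpowers_iff.mp (hs.cent _ h1)
    refine Subgroup.mem_zpowers_iff.mpr ⟨n, ?_⟩
    rw [conj_zpow, hn]
    group

/-- the coordinate of the end of `c` with sign `τ` -/
noncomputable def V (Q : Circ Γ) (y : Γ) (τ : ℝ) (c : Γ) : ℝ :=
  if τ = 1 then Q.up y c else Q.dn y c

theorem V_pos {y c : Γ} (h : Q.link c y) (τ : ℝ) : 0 < V Q y τ c := by
  unfold V
  split_ifs
  · exact Q.up_pos h
  · exact Q.dn_pos h

theorem V_conj {y c : Γ} (h : Q.link c y) (τ : ℝ) (k : ℤ) :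
    V Q y τ (y ^ k * c * y ^ (-k)) = Q.lam y ^ k * V Q y τ c := by
  unfold V
  split_ifs
  · exact Q.up_conj h k
  · exact Q.dn_conj h k

theorem V_lem {y c : Γ} (h : Q.link c y) {τ : ℝ} (hτ : τ = 1 ∨ τ = -1) {a b : Q.C}
    (ha : a ≠ Q.att y) (hb : b ≠ Q.att y) (ha' : 0 < τ * Q.s y a) (hb' : 0 < τ * Q.s y b)
    (hsep : Q.sep (Q.att c) (Q.att c⁻¹) a b) :
    (V Q y τ c - τ * Q.s y a) * (V Q y τ c - τ * Q.s y b) < 0 := by
  have hy : y ≠ 1 := (Q.link_ne h).2
  obtain ⟨h1, h2, h3⟩ := (Q.link_iff hy).mp h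
  rw [Q.sep_fin y hy _ _ _ _ h1 h2 ha hb] at hsep
  unfold V
  generalize Q.s y a = A at *
  generalize Q.s y b = B at *
  unfold up dn
  generalize Q.s y (Q.att c) = C at *
  generalize Q.s y (Q.att c⁻¹) = D at *
  rcases hτ with rfl | rfl
  · rw [if_pos rfl]
    simp only [one_mul] at *
    rcases lt_or_ge 0 C with hC | hC
    · have hD : D < 0 := by nlinarith
      rw [max_eq_left (by linarith)]
      have e1 : 0 < (D - A) * (D - B) := by nlinarith
      by_contra hh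
      push Not at hh
      nlinarith [mul_nonneg e1.le hh]
    · have hC' : C < 0 := lt_of_le_of_ne hC (by rintro rfl; simp at h3)
      have hD : 0 < D := by nlinarith
      rw [max_eq_right (by linarith)]
      have e1 : 0 < (C - A) * (C - B) := by nlinarith
      by_contra hh
      push Not at hh
      nlinarith [mul_nonneg e1.le hh]
  · rw [if_neg (by norm_num)]
    have hA : A < 0 := by linarith
    have hB : B < 0 := by linarith
    rcases lt_or_ge 0 C with hC | hC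
    · have hD : D < 0 := by nlinarith
      rw [min_eq_right (by linarith)]
      have e1 : 0 < (C - A) * (C - B) := by nlinarith
      by_contra hh
      push Not at hh
      nlinarith [mul_nonneg e1.le hh]
    · have hC' : C < 0 := lt_of_le_of_ne hC (by rintro rfl; simp at h3)
      have hD : 0 < D := by nlinarith
      rw [min_eq_left (by linarith)]
      have e1 : 0 < (D - A) * (D - B) := by nlinarith
      by_contra hh
      push Not at hh
      nlinarith [mul_nonneg e1.le hh]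

/-- ends of `x^n y x^(-n)` are on the side of `att x` -/
theorem ends {x y : Γ} (h : Q.link x y) {n : ℕ} (hn : 0 < n) {w1 : Q.C}
    (hw1 : w1 = Q.att y ∨ w1 = Q.att y⁻¹) :
    Q.act (x ^ n) w1 ≠ Q.att y ∧ 0 < Q.s y (Q.att x) * Q.s y (Q.act (x ^ n) w1) := by
  have hx : x ≠ 1 := (Q.link_ne h).1
  have hy : y ≠ 1 := (Q.link_ne h).2
  obtain ⟨i1, i2, i3⟩ := (Q.link_iff hx).mp (Q.link_symm h)
  obtain ⟨j1, j2, j3⟩ := (Q.link_iff hy).mp h
  have hlam : 1 < Q.lam x ^ n := one_lt_pow₀ (Q.lam_gt x hx) (by omega)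
  have hw1' : w1 ≠ Q.att x := by
    rcases hw1 with rfl | rfl
    · exact i1
    · exact i2
  have hsw := s_pow (Q := Q) hx hw1' n
  have hwx : Q.act (x ^ n) w1 ≠ Q.att x := act_ne hx (by rw [← pow_succ, ← pow_succ']) hw1'
  generalize Q.lam x ^ n = L at *
  generalize hw : Q.act (x ^ n) w1 = w at *
  -- the product is positive
  have key : 0 < (Q.s x w - Q.s x (Q.att y)) * (Q.s x w - Q.s x (Q.att y⁻¹)) := by
    rw [hsw]
    rcases hw1 with rfl | rfl
    · generalize Q.s x (Q.att y) = u at *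
      generalize Q.s x (Q.att y⁻¹) = v at *
      have : (L * u - u) * (L * u - v) = (L - 1) * (L * (u * u) + -(u * v)) := by ring
      rw [this]
      apply mul_pos (by linarith)
      have := mul_self_nonneg u
      nlinarith
    · generalize Q.s x (Q.att y) = u at *
      generalize Q.s x (Q.att y⁻¹) = v at *
      have : (L * v - u) * (L * v - v) = (L - 1) * (L * (v * v) + -(u * v)) := by ring
      rw [this]
      apply mul_pos (by linarith)
      have := mul_self_nonneg v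
      nlinarith
  have hwy : w ≠ Q.att y := by
    rintro rfl
    simp at key
  have hwy' : w ≠ Q.att y⁻¹ := by
    rintro rfl
    simp at key
  refine ⟨hwy, ?_⟩
  have hs0 : Q.s y w ≠ 0 := by
    intro h0
    apply hwy'
    apply Q.s_inj y _ _ hy hwy (Q.att_ne y hy)
    rw [h0, Q.s_rep y hy]
  have hs1 : Q.s y (Q.att x) ≠ 0 := by
    intro h0
    rw [h0, zero_mul] at j3
    exact lt_irrefl _ j3
  by_contra hneg
  push Not at hneg
  have hneg' : Q.s y (Q.att x) * Q.s y w < 0 := lt_of_le_of_ne hneg (mul_ne_zero hs1 hs0)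
  have hsep : Q.sep (Q.att y) (Q.att y⁻¹) w (Q.att x) := by
    rw [Q.sep_inf y hy _ _ _ (Q.att_ne y hy) hwy j1, Q.s_rep y hy]
    nlinarith
  have hsep2 := Q.sep_swap _ _ _ _ (Q.sep_symm _ _ _ _ hsep)
  rw [Q.sep_inf x hx _ _ _ hwx i1 i2] at hsep2
  linarith

theorem core {l A B A' B' X T T' : ℝ} (hl : 1 < l) (hA : 0 < A) (hA' : 0 < A')
    (h : A < B) (h' : A' < B')
    (hX : (X - A) * (X - B) < 0) (hX' : (X - A') * (X - B') < 0)
    (hT : (T - A) * (T - B) < 0) (hT' : (T' - A') * (T' - B') < 0)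
    (h1 : ¬ (A - l * A) * (B - l * A) * ((A - l * B) * (B - l * B)) < 0)
    (h1' : ¬ (A' - l * A') * (B' - l * A') * ((A' - l * B') * (B' - l * B')) < 0)
    (h2 : ¬ (A - A') * (B - A') * ((A - B') * (B - B')) < 0) : T < l * T' ∧ T' < l * T := by
  have pq : ∀ {a b t : ℝ}, a < b → (t - a) * (t - b) < 0 → a < t ∧ t < b := by
    intro a b t hab ht
    constructor
    · by_contra hh
      push Not at hh
      nlinarith
    · by_contra hh
      push Not at hh
      nlinarith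
  have hb : ∀ {a b : ℝ}, 0 < a → a < b →
      ¬ (a - l * a) * (b - l * a) * ((a - l * b) * (b - l * b)) < 0 → b ≤ l * a := by
    intro a b ha hab hh
    by_contra hc
    push Not at hc
    apply hh
    have e1 : a - l * a < 0 := by nlinarith
    have e2 : 0 < b - l * a := by linarith
    have e3 : a - l * b < 0 := by nlinarith
    have e4 : b - l * b < 0 := by nlinarith
    exact mul_neg_of_neg_of_pos (mul_neg_of_neg_of_pos e1 e2) (mul_pos_of_neg_of_neg e3 e4)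
  obtain ⟨x1, x2⟩ := pq h hX
  obtain ⟨x3, x4⟩ := pq h' hX'
  obtain ⟨t1, t2⟩ := pq h hT
  obtain ⟨t3, t4⟩ := pq h' hT'
  have b1 := hb hA h h1
  have b2 := hb hA' h' h1'
  have hn : (A - A') * (B - B') ≤ 0 := by
    by_contra hh
    push Not at hh
    apply h2
    have e2 : 0 < B - A' := by linarith
    have e3 : A - B' < 0 := by linarith
    have : (A - A') * (B - A') * ((A - B') * (B - B')) =
        ((A - A') * (B - B')) * ((B - A') * (A - B')) := by ring
    rw [this]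
    exact mul_neg_of_pos_of_neg hh (mul_neg_of_pos_of_neg e2 e3)
  have hnest : (A ≤ A' ∧ B' ≤ B) ∨ (A' ≤ A ∧ B ≤ B') := by
    rcases lt_trichotomy A A' with h3 | h3 | h3
    · left
      refine ⟨h3.le, ?_⟩
      by_contra hh
      push Not at hh
      nlinarith
    · rcases le_total B' B with h4 | h4
      · exact Or.inl ⟨h3.le, h4⟩
      · exact Or.inr ⟨h3.ge, h4⟩
    · right
      refine ⟨h3.le, ?_⟩
      by_contra hh
      push Not at hh
      nlinarith
  rcases hnest with ⟨n1, n2⟩ | ⟨n1, n2⟩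
  · constructor
    · nlinarith
    · nlinarith
  · constructor
    · nlinarith
    · nlinarith

theorem core' {l A B A' B' X T T' : ℝ} (hl : 1 < l) (hA : 0 < A) (hB : 0 < B) (hA' : 0 < A')
    (hB' : 0 < B')
    (hX : (X - A) * (X - B) < 0) (hX' : (X - A') * (X - B') < 0)
    (hT : (T - A) * (T - B) < 0) (hT' : (T' - A') * (T' - B') < 0)
    (h1 : ¬ (A - l * A) * (B - l * A) * ((A - l * B) * (B - l * B)) < 0)
    (h1' : ¬ (A' - l * A') * (B' - l * A') * ((A' - l * B') * (B' - l * B')) < 0)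
    (h2 : ¬ (A - A') * (B - A') * ((A - B') * (B - B')) < 0) : T < l * T' ∧ T' < l * T := by
  have hAB : A ≠ B := by
    rintro rfl
    nlinarith [mul_self_nonneg (X - A)]
  have hAB' : A' ≠ B' := by
    rintro rfl
    nlinarith [mul_self_nonneg (X - A')]
  have c1 : (B - l * B) * (A - l * B) * ((B - l * A) * (A - l * A)) =
      (A - l * A) * (B - l * A) * ((A - l * B) * (B - l * B)) := by ring
  have c1' : (B' - l * B') * (A' - l * B') * ((B' - l * A') * (A' - l * A')) =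
      (A' - l * A') * (B' - l * A') * ((A' - l * B') * (B' - l * B')) := by ring
  have c2 : (A - B') * (B - B') * ((A - A') * (B - A')) =
      (A - A') * (B - A') * ((A - B') * (B - B')) := by ring
  have c3 : (B - A') * (A - A') * ((B - B') * (A - B')) =
      (A - A') * (B - A') * ((A - B') * (B - B')) := by ring
  have c4 : (B - B') * (A - B') * ((B - A') * (A - A')) =
      (A - A') * (B - A') * ((A - B') * (B - B')) := by ring
  rcases lt_or_gt_of_ne hAB with h | h <;> rcases lt_or_gt_of_ne hAB' with h' | h'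
  · exact core hl hA hA' h h' hX hX' hT hT' h1 h1' h2
  · exact core hl hA hB' h h' hX (by rwa [mul_comm] at hX') hT (by rwa [mul_comm] at hT') h1
      (by rwa [c1']) (by rwa [c2])
  · exact core hl hB hA' h h' (by rwa [mul_comm] at hX) hX' (by rwa [mul_comm] at hT) hT'
      (by rwa [c1]) h1' (by rwa [c3])
  · exact core hl hB hB' h h' (by rwa [mul_comm] at hX) (by rwa [mul_comm] at hX')
      (by rwa [mul_comm] at hT) (by rwa [mul_comm] at hT') (by rwa [c1]) (by rwa [c1'])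
      (by rwa [c4])

/-- coordinates of the ends of `x^n y x^(-n)` -/
theorem data {x y : Γ} (hs : Q.Simple y) (hx : Q.link x y) {τ : ℝ} (hτ : τ = 1 ∨ τ = -1)
    (hxs : 0 < τ * Q.s y (Q.att x)) {n : ℕ} (hn : 0 < n) {v w : Γ} (hv : Q.link v y)
    (hw : Q.link w y) (e : w = x ^ n * v * (x ^ n)⁻¹) :
    Q.att (x ^ n * y * (x ^ n)⁻¹) ≠ Q.att y ∧ Q.att (x ^ n * y * (x ^ n)⁻¹)⁻¹ ≠ Q.att y ∧
    0 < τ * Q.s y (Q.att (x ^ n * y * (x ^ n)⁻¹)) ∧
    0 < τ * Q.s y (Q.att (x ^ n * y * (x ^ n)⁻¹)⁻¹) ∧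
    (V Q y τ x - τ * Q.s y (Q.att (x ^ n * y * (x ^ n)⁻¹))) *
      (V Q y τ x - τ * Q.s y (Q.att (x ^ n * y * (x ^ n)⁻¹)⁻¹)) < 0 ∧
    (V Q y τ w - τ * Q.s y (Q.att (x ^ n * y * (x ^ n)⁻¹))) *
      (V Q y τ w - τ * Q.s y (Q.att (x ^ n * y * (x ^ n)⁻¹)⁻¹)) < 0 := by
  have hy : y ≠ 1 := hs.ne
  have hy' : y⁻¹ ≠ 1 := inv_ne_one.mpr hy
  obtain ⟨a1, a2⟩ := ends hx hn (Or.inl rfl)
  obtain ⟨b1, b2⟩ := ends hx hn (Or.inr rfl)
  rw [← Q.att_conj (x ^ n) y hy] at a1 a2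
  rw [← Q.att_conj (x ^ n) y⁻¹ hy', ← inv_conj] at b1 b2
  have hh : ∀ t : ℝ, 0 < Q.s y (Q.att x) * t → 0 < τ * t := by
    intro t ht
    rcases hτ with rfl | rfl
    · nlinarith
    · nlinarith
  have l1 : Q.link x (x ^ n * y * (x ^ n)⁻¹) := by
    have := (Q.link_conj (x ^ n)).mpr hx
    have e2 : x ^ n * x * (x ^ n)⁻¹ = x := by
      rw [← pow_succ, pow_succ', mul_inv_cancel_right]
    rwa [e2] at this
  have l2 : Q.link w (x ^ n * y * (x ^ n)⁻¹) := by
    rw [e]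
    exact (Q.link_conj (x ^ n)).mpr hv
  exact ⟨a1, b1, hh _ a2, hh _ b2, V_lem hx hτ a1 b1 (hh _ a2) (hh _ b2) l1,
    V_lem hw hτ a1 b1 (hh _ a2) (hh _ b2) l2⟩

theorem shift_no {x y : Γ} (hs : Q.Simple y) {g : Γ} {τ : ℝ} (hτ : τ = 1 ∨ τ = -1)
    (a1 : Q.att (g * y * g⁻¹) ≠ Q.att y) (b1 : Q.att (g * y * g⁻¹)⁻¹ ≠ Q.att y) :
    ¬ (τ * Q.s y (Q.att (g * y * g⁻¹)) - Q.lam y * (τ * Q.s y (Q.att (g * y * g⁻¹)))) *
      (τ * Q.s y (Q.att (g * y * g⁻¹)⁻¹) - Q.lam y * (τ * Q.s y (Q.att (g * y * g⁻¹)))) *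
      ((τ * Q.s y (Q.att (g * y * g⁻¹)) - Q.lam y * (τ * Q.s y (Q.att (g * y * g⁻¹)⁻¹))) *
      (τ * Q.s y (Q.att (g * y * g⁻¹)⁻¹) - Q.lam y * (τ * Q.s y (Q.att (g * y * g⁻¹)⁻¹)))) < 0 := by
  have hy : y ≠ 1 := hs.ne
  have hy' : y⁻¹ ≠ 1 := inv_ne_one.mpr hy
  have hg : g * y * g⁻¹ ≠ 1 := conj_ne g hy
  have hg' : (g * y * g⁻¹)⁻¹ ≠ 1 := inv_ne_one.mpr hg
  have hnl := nolink' hs g (y * g)
  have e : (y * g) * y * (y * g)⁻¹ = y * (g * y * g⁻¹) * y⁻¹ := by group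
  rw [e] at hnl
  unfold link at hnl
  rw [inv_conj y, Q.att_conj y _ hg, Q.att_conj y _ hg'] at hnl
  rw [Q.sep_fin y hy _ _ _ _ a1 b1 (act_ne hy rfl a1) (act_ne hy rfl b1),
    Q.s_act y _ hy a1, Q.s_act y _ hy b1] at hnl
  generalize Q.s y (Q.att (g * y * g⁻¹)) = A at *
  generalize Q.s y (Q.att (g * y * g⁻¹)⁻¹) = B at *
  have hτ2 : τ ^ 4 = 1 := by rcases hτ with rfl | rfl <;> norm_num
  have : (τ * A - Q.lam y * (τ * A)) * (τ * B - Q.lam y * (τ * A)) *
      ((τ * A - Q.lam y * (τ * B)) * (τ * B - Q.lam y * (τ * B))) =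
      τ ^ 4 * ((A - Q.lam y * A) * (B - Q.lam y * A) *
      ((A - Q.lam y * B) * (B - Q.lam y * B))) := by ring
  rw [this, hτ2, one_mul]
  exact hnl

theorem pair_no {y : Γ} (hs : Q.Simple y) {g h : Γ} {τ : ℝ} (hτ : τ = 1 ∨ τ = -1)
    (a1 : Q.att (g * y * g⁻¹) ≠ Q.att y) (b1 : Q.att (g * y * g⁻¹)⁻¹ ≠ Q.att y)
    (a2 : Q.att (h * y * h⁻¹) ≠ Q.att y) (b2 : Q.att (h * y * h⁻¹)⁻¹ ≠ Q.att y) :
    ¬ (τ * Q.s y (Q.att (g * y * g⁻¹)) - τ * Q.s y (Q.att (h * y * h⁻¹))) *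
      (τ * Q.s y (Q.att (g * y * g⁻¹)⁻¹) - τ * Q.s y (Q.att (h * y * h⁻¹))) *
      ((τ * Q.s y (Q.att (g * y * g⁻¹)) - τ * Q.s y (Q.att (h * y * h⁻¹)⁻¹)) *
      (τ * Q.s y (Q.att (g * y * g⁻¹)⁻¹) - τ * Q.s y (Q.att (h * y * h⁻¹)⁻¹))) < 0 := by
  have hy : y ≠ 1 := hs.ne
  have hnl := nolink' hs g h
  unfold link at hnl
  rw [Q.sep_fin y hy _ _ _ _ a1 b1 a2 b2] at hnl
  generalize Q.s y (Q.att (g * y * g⁻¹)) = A at *
  generalize Q.s y (Q.att (g * y * g⁻¹)⁻¹) = B at *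
  generalize Q.s y (Q.att (h * y * h⁻¹)) = A' at *
  generalize Q.s y (Q.att (h * y * h⁻¹)⁻¹) = B' at *
  have hτ2 : τ ^ 4 = 1 := by rcases hτ with rfl | rfl <;> norm_num
  have : (τ * A - τ * A') * (τ * B - τ * A') * ((τ * A - τ * B') * (τ * B - τ * B')) =
      τ ^ 4 * ((A - A') * (B - A') * ((A - B') * (B - B'))) := by ring
  rw [this, hτ2, one_mul]
  exact hnl

/-- the translates of `w` -/
def zk (y w : Γ) (k : ℤ) : Γ := y ^ k * w * y ^ (-k)

theorem zk_link {y w : Γ} (hw : Q.link w y) (k : ℤ) : Q.link (zk y w k) y := by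
  have := (Q.link_conj (y ^ k)).mpr hw
  have e : y ^ k * y * (y ^ k)⁻¹ = y := by
    rw [← zpow_add_one, add_comm, zpow_one_add, mul_inv_cancel_right]
  rw [e] at this
  unfold zk
  rw [zpow_neg]
  exact this

theorem V_zk {y w : Γ} (hw : Q.link w y) (τ : ℝ) (k : ℤ) :
    V Q y τ (zk y w k) = Q.lam y ^ k * V Q y τ w := V_conj hw τ k

theorem zk_inj {y w : Γ} (hw : Q.link w y) {j k : ℤ} (h : zk y w j = zk y w k) : j = k := by
  have hy : y ≠ 1 := (Q.link_ne hw).2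
  have h1 := V_zk hw 1 j
  have h2 := V_zk hw 1 k
  rw [h, h2] at h1
  have h3 := mul_right_cancel₀ (V_pos hw 1).ne' h1
  exact (zpow_right_injective₀ (by have := Q.lam_gt y hy; linarith)
    (Q.lam_gt y hy).ne' h3).symm

/-- the exceptional index is unique -/
theorem uniq {x y w : Γ} (hs : Q.Simple y) (hx : Q.link x y) (hw : Q.link w y) {j j' k k' : ℤ}
    {n n' : ℕ} (hn : 0 < n) (hn' : 0 < n')
    (e : zk y w j = x ^ n * zk y w k * (x ^ n)⁻¹)
    (e' : zk y w j' = x ^ n' * zk y w k' * (x ^ n')⁻¹) : j = j' := by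
  have hy : y ≠ 1 := hs.ne
  obtain ⟨j1, j2, j3⟩ := (Q.link_iff hy).mp hx
  obtain ⟨τ, hτ, hxs⟩ : ∃ τ : ℝ, (τ = 1 ∨ τ = -1) ∧ 0 < τ * Q.s y (Q.att x) := by
    rcases lt_trichotomy (Q.s y (Q.att x)) 0 with h | h | h
    · exact ⟨-1, Or.inr rfl, by linarith⟩
    · rw [h, zero_mul] at j3
      exact absurd j3 (lt_irrefl _)
    · exact ⟨1, Or.inl rfl, by linarith⟩
  obtain ⟨a1, b1, A1, B1, X1, T1⟩ := data hs hx hτ hxs hn (zk_link hw k) (zk_link hw j) e
  obtain ⟨a2, b2, A2, B2, X2, T2⟩ := data hs hx hτ hxs hn' (zk_link hw k') (zk_link hw j') e'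
  have s1 := shift_no (x := x) hs (g := x ^ n) hτ a1 b1
  have s2 := shift_no (x := x) hs (g := x ^ n') hτ a2 b2
  have s3 := pair_no hs (g := x ^ n) (h := x ^ n') hτ a1 b1 a2 b2
  obtain ⟨c1, c2⟩ := core' (Q.lam_gt y hy) A1 B1 A2 B2 X1 X2 T1 T2 s1 s2 s3
  rw [V_zk hw τ j, V_zk hw τ j'] at c1 c2
  have hl := Q.lam_gt y hy
  have hl0 : Q.lam y ≠ 0 := by linarith
  have hV := V_pos hw τ
  have d1 : Q.lam y ^ j < Q.lam y ^ (j' + 1) := by
    rw [zpow_add_one₀ hl0]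
    by_contra hh
    push Not at hh
    nlinarith [mul_le_mul_of_nonneg_right hh hV.le]
  have d2 : Q.lam y ^ j' < Q.lam y ^ (j + 1) := by
    rw [zpow_add_one₀ hl0]
    by_contra hh
    push Not at hh
    nlinarith [mul_le_mul_of_nonneg_right hh hV.le]
  have f1 := (zpow_lt_zpow_iff_right₀ hl).mp d1
  have f2 := (zpow_lt_zpow_iff_right₀ hl).mp d2
  omega

theorem main {x z : Γ} (F : Finset Γ)
    (hF : ∀ g, Q.sep (Q.att x) (Q.att x⁻¹) (Q.att (g * z * g⁻¹)) (Q.att (g * z * g⁻¹)⁻¹) →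
      ∃ k : ℤ, ∃ f ∈ F, g * z * g⁻¹ = x ^ k * f * x ^ (-k))
    {y : Γ} (hs : Q.Simple y) (h : Γ) (hx : Q.link x y) (hw : Q.link (h * z * h⁻¹) y) :
    Q.N y x (h * z * h⁻¹) ≤ F.card + 1 := by
  classical
  set w := h * z * h⁻¹ with hwdef
  set I : Set ℤ := {k : ℤ | Q.link x (y ^ k * w * y ^ (-k))} with hI
  have hfin : I.Finite := Q.N_finite hx hw
  have hch : ∀ k : ℤ, ∃ p : ℤ × Γ, k ∈ I → p.2 ∈ F ∧ zk y w k = x ^ p.1 * p.2 * x ^ (-p.1) := by
    intro k
    by_cases hk : k ∈ I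
    · have hk2 : Q.link x ((y ^ k * h) * z * (y ^ k * h)⁻¹) := by
        have : (y ^ k * h) * z * (y ^ k * h)⁻¹ = y ^ k * w * y ^ (-k) := by
          rw [hwdef, zpow_neg]; group
        rw [this]; exact hk
      obtain ⟨m, f, hf, he⟩ := hF _ hk2
      refine ⟨(m, f), fun _ => ⟨hf, ?_⟩⟩
      show zk y w k = x ^ m * f * x ^ (-m)
      rw [← he, zk, hwdef, zpow_neg]
      group
    · exact ⟨(0, 1), fun hk' => absurd hk' hk⟩
  choose p hp using hch
  set P : Set ℤ := {j | ∃ k : ℤ, ∃ n : ℕ, 0 < n ∧ zk y w j = x ^ n * zk y w k * (x ^ n)⁻¹} with hP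
  have hPs : P.Subsingleton := by
    rintro j ⟨k, n, hn, e⟩ j' ⟨k', n', hn', e'⟩
    exact uniq hs hx hw hn hn' e e'
  have hinj : Set.InjOn (fun k => (p k).2) (I \ P) := by
    intro j hj k hk hjk
    by_contra hne
    simp only at hjk
    obtain ⟨_, ej⟩ := hp j hj.1
    obtain ⟨_, ek⟩ := hp k hk.1
    -- z_j = x^(n_j - n_k) z_k x^-(..)
    have e1 : zk y w j = x ^ ((p j).1 - (p k).1) * zk y w k * (x ^ ((p j).1 - (p k).1))⁻¹ := by
      rw [ej, ek, hjk, ← zpow_neg]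
      have : ∀ a b : ℤ, ∀ f : Γ, x ^ a * f * x ^ (-a) =
          x ^ (a - b) * (x ^ b * f * x ^ (-b)) * x ^ (-(a - b)) := by
        intro a b f
        have h1 : x ^ a = x ^ (a - b) * x ^ b := by rw [← zpow_add]; congr 1; ring
        have h2 : x ^ (-a) = x ^ (-b) * x ^ (-(a - b)) := by rw [← zpow_add]; congr 1; ring
        rw [h1, h2]
        simp only [mul_assoc]
      exact this _ _ _
    rcases lt_trichotomy ((p j).1 - (p k).1) 0 with h0 | h0 | h0
    · apply hk.2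
      refine ⟨j, ((p k).1 - (p j).1).toNat, by omega, ?_⟩
      have e2 : zk y w k = x ^ ((p k).1 - (p j).1) * zk y w j * (x ^ ((p k).1 - (p j).1))⁻¹ := by
        rw [e1]
        have : x ^ ((p k).1 - (p j).1) = (x ^ ((p j).1 - (p k).1))⁻¹ := by
          rw [← zpow_neg]; congr 1; ring
        rw [this]
        group
      have e3 : x ^ ((p k).1 - (p j).1) = x ^ ((p k).1 - (p j).1).toNat := by
        rw [← zpow_natCast, Int.toNat_of_nonneg (by omega)]
      rwa [e3] at e2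
    · rw [h0] at e1
      apply hne
      apply zk_inj hw
      rw [e1]
      simp
    · apply hj.2
      refine ⟨k, ((p j).1 - (p k).1).toNat, by omega, ?_⟩
      have e3 : x ^ ((p j).1 - (p k).1) = x ^ ((p j).1 - (p k).1).toNat := by
        rw [← zpow_natCast, Int.toNat_of_nonneg (by omega)]
      rwa [e3] at e1
  have h1 : (I \ P).ncard ≤ F.card := by
    rw [← Set.ncard_coe_finset F]
    exact Set.ncard_le_ncard_of_injOn (fun k => (p k).2) (fun k hk => (hp k hk.1).1) hinj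
      F.finite_toSet
  have h2 : (P ∩ I).ncard ≤ 1 := by
    rw [Set.ncard_le_one (hfin.subset Set.inter_subset_right)]
    intro a ha b hb
    exact hPs ha.1 hb.1
  have h3 : I ⊆ (I \ P) ∪ (P ∩ I) := by
    intro k hk
    by_cases hkP : k ∈ P
    · exact Or.inr ⟨hkP, hk⟩
    · exact Or.inl ⟨hk, hkP⟩
  calc Q.N y x w = I.ncard := rfl
    _ ≤ ((I \ P) ∪ (P ∩ I)).ncard := Set.ncard_le_ncard h3
        ((hfin.subset Set.diff_subset).union (hfin.subset Set.inter_subset_right))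
    _ ≤ (I \ P).ncard + (P ∩ I).ncard := Set.ncard_union_le _ _
    _ ≤ F.card + 1 := by omega

end SL4

theorem lip_elt {x z : Γ} (hx : x ≠ 1) (hz : z ≠ 1) :
    ∃ D : ℕ, ∀ y, Q.Simple y → ∀ x' ∈ cls x, ∀ z' ∈ cls z, Q.link x' y → Q.link z' y →
      Q.N y x' z' ≤ D := by
  obtain ⟨F, hF⟩ := Q.fin_cross x z hx hz
  refine ⟨F.card + 1, ?_⟩
  -- reduce to positive conjugates
  have key : ∀ y, Q.Simple y → ∀ g h, Q.link (g * x * g⁻¹) y → Q.link (h * z * h⁻¹) y →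
      Q.N y (g * x * g⁻¹) (h * z * h⁻¹) ≤ F.card + 1 := by
    intro y hs g h hl1 hl2
    have e0 : g * (g⁻¹ * y * g) * g⁻¹ = y := by group
    have e1 : g * ((g⁻¹ * h) * z * (g⁻¹ * h)⁻¹) * g⁻¹ = h * z * h⁻¹ := by group
    have s1 : Q.Simple (g⁻¹ * y * g) := by
      have := SL4.simple_conj hs g⁻¹
      rwa [inv_inv] at this
    have l1 : Q.link x (g⁻¹ * y * g) := by
      rw [← Q.link_conj g, e0]; exact hl1
    have l2 : Q.link ((g⁻¹ * h) * z * (g⁻¹ * h)⁻¹) (g⁻¹ * y * g) := by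
      rw [← Q.link_conj g, e0, e1]; exact hl2
    have h1 := SL4.main F hF s1 (g⁻¹ * h) l1 l2
    rw [← Q.N_conj g, e0, e1] at h1
    exact h1
  intro y hs x' hx' z' hz' hl1 hl2
  obtain ⟨g, hg⟩ := hx'
  obtain ⟨h, hh⟩ := hz'
  have k1 : ∃ x'', x'' = g * x * g⁻¹ ∧ Q.link x'' y ∧ ∀ t, Q.N y x' t = Q.N y x'' t := by
    rcases hg with rfl | rfl
    · exact ⟨_, rfl, hl1, fun _ => rfl⟩
    · refine ⟨_, rfl, ?_, ?_⟩
      · rw [← SL4.inv_conj, Q.link_inv_left] at hl1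
        exact hl1
      · intro t
        rw [← SL4.inv_conj, Q.N_inv_mid]
  have k2 : ∃ z'', z'' = h * z * h⁻¹ ∧ Q.link z'' y ∧ ∀ t, Q.N y t z' = Q.N y t z'' := by
    rcases hh with rfl | rfl
    · exact ⟨_, rfl, hl2, fun _ => rfl⟩
    · refine ⟨_, rfl, ?_, ?_⟩
      · rw [← SL4.inv_conj, Q.link_inv_left] at hl2
        exact hl2
      · intro t
        rw [← SL4.inv_conj, Q.N_inv_last]
  obtain ⟨x'', rfl, l1, n1⟩ := k1
  obtain ⟨z'', rfl, l2, n2⟩ := k2
  rw [n1, n2]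
  exact key y hs g h l1 l2

end Circ

end Pool.Agent.LDJ
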