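import Pool.Agent.LDJ.SN2

/-!
LDJ.STw: the twist twists.

PROOF. Let `F_A`, `F_B` be from `covA`, `covB`, `λ = lam c`, `Λ = log λ`. For `a ∈ F_A` both ends of
`a` are on the side `σ` of `c`, with `|s c|`-coordinates `p_a, q_a > 0`; let `C_0` bound
`|log p_a|`, `|log q_a|` over `F_A`, and `D_0` the same over `F_B`.
Let `link x c`. Replacing `x` by `x⁻¹` let `att x` be on the side `σ` and `att x⁻¹` on the side
`-σ`. By `covA`: `a`, `k` with `sep (a'+) (a'-) (att x) (att c)`, `a' = c^k a c^(-k)`; in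
coordinates (`sep_inf` for `c`): `|s c (att x)|` is strictly between `λ^k p_a` and `λ^k q_a`.
Apply the automorphism `T^n` (`si`): `T^n c = c` (`c ∈ B`), `T^n a' = c^n a' c^(-n)`,
so `|s c (att (T^n x))|` is strictly between `λ^(k+n) p_a` and `λ^(k+n) q_a`.
So `log |s c (att (T^n x))| = log |s c (att x)| + nΛ + O(C_0)`. Similarly with `covB`, where
`T^n b' = b'`: `log |s c (att (T^n x)⁻¹)| = log |s c (att x⁻¹)| + O(D_0)`. So
`|sh c (T^n x) - sh c x| ≥ |n| - O(1)` and `N_bounds` gives the claim.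
-/

namespace Pool.Agent.LDJ

namespace STwX

section

variable {Γ : Type} [Group Γ] (Q : Circ Γ)

theorem act_zpow_att (c : Γ) (hc : c ≠ 1) (k : ℤ) : Q.act (c ^ k) (Q.att c) = Q.att c := by
  rw [← Q.att_conj (c ^ k) c hc]
  congr 1
  group

theorem act_zpow_ne (c : Γ) (hc : c ≠ 1) (k : ℤ) {w : Q.C} (hw : w ≠ Q.att c) :
    Q.act (c ^ k) w ≠ Q.att c := by
  intro h
  apply hw
  have h2 : Q.act (c ^ (-k)) (Q.act (c ^ k) w) = Q.act (c ^ (-k)) (Q.att c) := by rw [h]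
  rw [← Q.act_mul, act_zpow_att Q c hc, ← zpow_add, neg_add_cancel, zpow_zero, Q.act_one] at h2
  exact h2

theorem s_zpow (c : Γ) (hc : c ≠ 1) {w : Q.C} (hw : w ≠ Q.att c) (k : ℤ) :
    Q.s c (Q.act (c ^ k) w) = Q.lam c ^ k * Q.s c w := by
  have hl : Q.lam c ≠ 0 := (lt_trans one_pos (Q.lam_gt c hc)).ne'
  induction k using Int.induction_on with
  | zero => simp [Q.act_one]
  | succ i ih =>
    have h1 : c ^ ((i : ℤ) + 1) = c * c ^ (i : ℤ) := by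
      rw [add_comm, zpow_add, zpow_one]
    rw [h1, Q.act_mul, Q.s_act c _ hc (act_zpow_ne Q c hc _ hw), ih, zpow_add₀ hl, zpow_one]
    ring
  | pred i ih =>
    have h1 : c ^ (-(i : ℤ)) = c * c ^ (-(i : ℤ) - 1) := by
      rw [← zpow_one_add]; congr 1; ring
    rw [h1, Q.act_mul, Q.s_act c _ hc (act_zpow_ne Q c hc _ hw)] at ih
    have h2 : Q.lam c ^ (-(i : ℤ)) = Q.lam c * Q.lam c ^ (-(i : ℤ) - 1) := by
      rw [← zpow_one_add₀ hl]; congr 1; ring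
    rw [h2, mul_assoc] at ih
    exact mul_left_cancel₀ hl ih

theorem att_conj_zpow (c : Γ) (a : Γ) (ha : a ≠ 1) (k : ℤ) :
    Q.att (c ^ k * a * c ^ (-k)) = Q.act (c ^ k) (Q.att a) := by
  rw [← Q.att_conj (c ^ k) a ha, zpow_neg]

theorem between {u P R : ℝ} (hP : 0 < P) (hR : 0 < R) (h : (u - P) * (u - R) < 0) :
    0 < u ∧ min P R ≤ u ∧ u ≤ max P R := by
  rcases mul_neg_iff.mp h with ⟨h1, h2⟩ | ⟨h1, h2⟩
  · refine ⟨by linarith, ?_, ?_⟩
    · exact (min_le_left _ _).trans (by linarith)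
    · exact le_trans (by linarith) (le_max_right _ _)
  · refine ⟨by linarith, ?_, ?_⟩
    · exact (min_le_right _ _).trans (by linarith)
    · exact le_trans (by linarith) (le_max_left _ _)

theorem core (c : Γ) (hc : c ≠ 1) (τ : ℝ) (a : Γ)
    (ha : Q.side c τ (Q.att a)) (ha' : Q.side c τ (Q.att a⁻¹)) (ha1 : a ≠ 1) (x : Γ) (k : ℤ)
    (hττ : τ * τ = 1)
    (h : Q.sep (Q.att (c ^ k * a * c ^ (-k))) (Q.att (c ^ k * a * c ^ (-k))⁻¹)
      (Q.att x) (Q.att c)) :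
    0 < τ * Q.s c (Q.att x) ∧
    |Real.log (τ * Q.s c (Q.att x)) - k * Real.log (Q.lam c)| ≤
      max |Real.log (τ * Q.s c (Q.att a))| |Real.log (τ * Q.s c (Q.att a⁻¹))| := by
  have hl : 0 < Q.lam c := lt_trans one_pos (Q.lam_gt c hc)
  have ha1' : a⁻¹ ≠ 1 := inv_ne_one.mpr ha1
  have hinv : (c ^ k * a * c ^ (-k))⁻¹ = c ^ k * a⁻¹ * c ^ (-k) := by group
  rw [hinv, att_conj_zpow Q c a ha1, att_conj_zpow Q c a⁻¹ ha1'] at h
  have h1 := Q.sep_swap _ _ _ _ (Q.sep_symm _ _ _ _ h)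
  have hne := Q.sep_ne _ _ _ _ h1
  rw [Q.sep_inf c hc _ _ _ (Ne.symm hne.1) (act_zpow_ne Q c hc k ha.1)
    (act_zpow_ne Q c hc k ha'.1), s_zpow Q c hc ha.1, s_zpow Q c hc ha'.1] at h1
  set u := τ * Q.s c (Q.att x) with hu
  set p := τ * Q.s c (Q.att a) with hp
  set q := τ * Q.s c (Q.att a⁻¹) with hq
  have hp0 : 0 < p := ha.2
  have hq0 : 0 < q := ha'.2
  have hlk : 0 < Q.lam c ^ k := zpow_pos hl k
  have h2 : (u - Q.lam c ^ k * p) * (u - Q.lam c ^ k * q) < 0 := by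
    have : (u - Q.lam c ^ k * p) * (u - Q.lam c ^ k * q) =
        (τ * τ) * ((Q.s c (Q.att x) - Q.lam c ^ k * Q.s c (Q.att a)) *
        (Q.s c (Q.att x) - Q.lam c ^ k * Q.s c (Q.att a⁻¹))) := by
      rw [hu, hp, hq]; ring
    rw [this, hττ, one_mul]
    exact h1
  obtain ⟨h3, h4, h5⟩ := between (mul_pos hlk hp0) (mul_pos hlk hq0) h2
  refine ⟨h3, ?_⟩
  have hlogp : Real.log (Q.lam c ^ k * p) = k * Real.log (Q.lam c) + Real.log p := by
    rw [Real.log_mul hlk.ne' hp0.ne', Real.log_zpow]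
  have hlogq : Real.log (Q.lam c ^ k * q) = k * Real.log (Q.lam c) + Real.log q := by
    rw [Real.log_mul hlk.ne' hq0.ne', Real.log_zpow]
  have hlow : k * Real.log (Q.lam c) + min (Real.log p) (Real.log q) ≤ Real.log u := by
    rcases min_le_iff.mp h4 with h6 | h6
    · have := Real.log_le_log (mul_pos hlk hp0) h6
      rw [hlogp] at this
      have h7 := min_le_left (Real.log p) (Real.log q)
      linarith
    · have := Real.log_le_log (mul_pos hlk hq0) h6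
      rw [hlogq] at this
      have h7 := min_le_right (Real.log p) (Real.log q)
      linarith
  have hup : Real.log u ≤ k * Real.log (Q.lam c) + max (Real.log p) (Real.log q) := by
    rcases le_max_iff.mp h5 with h6 | h6
    · have := Real.log_le_log h3 h6
      rw [hlogp] at this
      have h7 := le_max_left (Real.log p) (Real.log q)
      linarith
    · have := Real.log_le_log h3 h6
      rw [hlogq] at this
      have h7 := le_max_right (Real.log p) (Real.log q)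
      linarith
  rw [abs_le]
  constructor
  · rcases min_choice (Real.log p) (Real.log q) with h8 | h8
    · rw [h8] at hlow
      have h9 := neg_abs_le (Real.log p)
      have h10 := le_max_left |Real.log p| |Real.log q|
      linarith
    · rw [h8] at hlow
      have h9 := neg_abs_le (Real.log q)
      have h10 := le_max_right |Real.log p| |Real.log q|
      linarith
  · rcases max_choice (Real.log p) (Real.log q) with h8 | h8
    · rw [h8] at hup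
      have h9 := le_abs_self (Real.log p)
      have h10 := le_max_left |Real.log p| |Real.log q|
      linarith
    · rw [h8] at hup
      have h9 := le_abs_self (Real.log q)
      have h10 := le_max_right |Real.log p| |Real.log q|
      linarith

end

section

variable {Γ ι : Type} [Group Γ] [Fintype ι] (M : Model Γ ι)

theorem sigma_sq : M.σ * M.σ = 1 := by
  rcases M.split.sgn with h | h <;> rw [h] <;> norm_num

theorem sideA (a : Γ) (ha : a ∈ M.A) (hna : a ∉ Subgroup.zpowers M.c) :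
    M.Q.side M.c M.σ (M.Q.att a) := by
  by_contra h
  have ha1 : a ≠ 1 := fun h1 => hna (h1 ▸ Subgroup.one_mem _)
  have h2 := M.split.pa a ha hna a ha1 h
  rw [mul_inv_cancel_right] at h2
  exact h h2

theorem sideB (b : Γ) (hb : b ∈ M.B) (hnb : b ∉ Subgroup.zpowers M.c) :
    M.Q.side M.c (-M.σ) (M.Q.att b) := by
  by_contra h
  have hb1 : b ≠ 1 := fun h1 => hnb (h1 ▸ Subgroup.one_mem _)
  have h2 := M.split.pb b hb hnb b hb1 h
  rw [mul_inv_cancel_right] at h2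
  exact h h2

theorem Tn_B (n : ℤ) (b : Γ) (hb : b ∈ M.B) : (M.T ^ n) b = b := by
  induction n using Int.induction_on with
  | zero => simp
  | succ i ih =>
    have h1 : M.T ^ ((i : ℤ) + 1) = M.T * M.T ^ (i : ℤ) := by
      rw [add_comm, zpow_add, zpow_one]
    rw [h1, MulAut.mul_apply, ih, M.TB b hb]
  | pred i ih =>
    have h1 : M.T ^ (-(i : ℤ)) = M.T * M.T ^ (-(i : ℤ) - 1) := by
      rw [← zpow_one_add]; congr 1; ring
    rw [h1, MulAut.mul_apply] at ih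
    have h2 : M.T ((M.T ^ (-(i : ℤ) - 1)) b) = M.T b := by rw [ih, M.TB b hb]
    exact M.T.injective h2

theorem Tn_A (n : ℤ) (a : Γ) (ha : a ∈ M.A) : (M.T ^ n) a = M.c ^ n * a * M.c ^ (-n) := by
  have hcn : ∀ m : ℤ, M.c ^ m ∈ M.A := fun m => M.A.zpow_mem M.split.memA m
  have hcB : ∀ m : ℤ, M.T (M.c ^ m) = M.c ^ m := fun m =>
    M.TB _ (M.B.zpow_mem M.split.memB m)
  have key : ∀ m : ℤ, M.T (M.c ^ m * a * M.c ^ (-m)) = M.c ^ (m + 1) * a * M.c ^ (-(m + 1)) := by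
    intro m
    rw [map_mul, map_mul, hcB, hcB, M.TA a ha]
    group
  induction n using Int.induction_on with
  | zero => simp
  | succ i ih =>
    have h1 : M.T ^ ((i : ℤ) + 1) = M.T * M.T ^ (i : ℤ) := by
      rw [add_comm, zpow_add, zpow_one]
    rw [h1, MulAut.mul_apply, ih, key]
  | pred i ih =>
    have h1 : M.T ^ (-(i : ℤ)) = M.T * M.T ^ (-(i : ℤ) - 1) := by
      rw [← zpow_one_add]; congr 1; ring
    have h2 := key (-(i : ℤ) - 1)
    rw [sub_add_cancel] at h2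
    rw [h1, MulAut.mul_apply, ← h2] at ih
    exact M.T.injective ih

theorem stepA : ∃ D : ℝ, 0 ≤ D ∧ ∀ x, x ≠ 1 → M.Q.side M.c M.σ (M.Q.att x) → ∀ n : ℤ,
    0 < M.σ * M.Q.s M.c (M.Q.att ((M.T ^ n) x)) ∧
    |Real.log (M.σ * M.Q.s M.c (M.Q.att ((M.T ^ n) x))) -
      Real.log (M.σ * M.Q.s M.c (M.Q.att x)) - n * Real.log (M.Q.lam M.c)| ≤ D := by
  obtain ⟨F, hF, hcov⟩ := M.covA
  let g : Γ → ℝ := fun a => max |Real.log (M.σ * M.Q.s M.c (M.Q.att a))|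
    |Real.log (M.σ * M.Q.s M.c (M.Q.att a⁻¹))|
  have hg0 : ∀ a, 0 ≤ g a := fun a => le_trans (abs_nonneg _) (le_max_left _ _)
  have hsum : ∀ a ∈ F, g a ≤ ∑ a ∈ F, g a := fun a ha =>
    Finset.single_le_sum (fun b _ => hg0 b) ha
  refine ⟨2 * ∑ a ∈ F, g a, mul_nonneg zero_le_two (Finset.sum_nonneg fun a _ => hg0 a), ?_⟩
  intro x hx hside n
  obtain ⟨a, haF, k, hsep⟩ := hcov x hx hside
  obtain ⟨haA, haz⟩ := hF a haF
  have ha1 : a ≠ 1 := fun h1 => haz (h1 ▸ Subgroup.one_mem _)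
  have haz' : a⁻¹ ∉ Subgroup.zpowers M.c := fun h => haz (inv_inv a ▸ Subgroup.inv_mem _ h)
  have hs1 := sideA M a haA haz
  have hs2 := sideA M a⁻¹ (M.A.inv_mem haA) haz'
  have hc := M.split.ne
  have hcm : ∀ m : ℤ, M.c ^ m ∈ M.A := fun m => M.A.zpow_mem M.split.memA m
  have haz2 : M.c ^ k * a * M.c ^ (-k) ≠ 1 := by
    intro h
    apply ha1
    have : a = M.c ^ (-k) * (M.c ^ k * a * M.c ^ (-k)) * M.c ^ k := by group
    rw [this, h]; group
  have hc1 := core M.Q M.c hc M.σ a hs1 hs2 ha1 x k (sigma_sq M) hsep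
  have hsep2 := M.Q.si (M.T ^ n) _ _ _ _ haz2 (inv_ne_one.mpr haz2) hx hc hsep
  rw [map_inv, Tn_A M n _ (M.A.mul_mem (M.A.mul_mem (hcm k) haA) (hcm (-k))),
    Tn_B M n M.c M.split.memB] at hsep2
  have h3 : M.c ^ n * (M.c ^ k * a * M.c ^ (-k)) * M.c ^ (-n) =
      M.c ^ (k + n) * a * M.c ^ (-(k + n)) := by group
  rw [h3] at hsep2
  have hc2 := core M.Q M.c hc M.σ a hs1 hs2 ha1 _ (k + n) (sigma_sq M) hsep2
  refine ⟨hc2.1, ?_⟩
  have h4 := hc1.2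
  have h5 := hc2.2
  have h6 := hsum a haF
  have h7 : max |Real.log (M.σ * M.Q.s M.c (M.Q.att a))|
    |Real.log (M.σ * M.Q.s M.c (M.Q.att a⁻¹))| = g a := rfl
  rw [h7] at h4 h5
  push_cast at h5
  rw [abs_le] at h4 h5 ⊢
  constructor
  · nlinarith [h4.1, h4.2, h5.1, h5.2]
  · nlinarith [h4.1, h4.2, h5.1, h5.2]

theorem stepB : ∃ D : ℝ, 0 ≤ D ∧ ∀ x, x ≠ 1 → M.Q.side M.c (-M.σ) (M.Q.att x) → ∀ n : ℤ,
    0 < -M.σ * M.Q.s M.c (M.Q.att ((M.T ^ n) x)) ∧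
    |Real.log (-M.σ * M.Q.s M.c (M.Q.att ((M.T ^ n) x))) -
      Real.log (-M.σ * M.Q.s M.c (M.Q.att x))| ≤ D := by
  obtain ⟨F, hF, hcov⟩ := M.covB
  let g : Γ → ℝ := fun a => max |Real.log (-M.σ * M.Q.s M.c (M.Q.att a))|
    |Real.log (-M.σ * M.Q.s M.c (M.Q.att a⁻¹))|
  have hg0 : ∀ a, 0 ≤ g a := fun a => le_trans (abs_nonneg _) (le_max_left _ _)
  have hsum : ∀ a ∈ F, g a ≤ ∑ a ∈ F, g a := fun a ha =>
    Finset.single_le_sum (fun b _ => hg0 b) ha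
  refine ⟨2 * ∑ a ∈ F, g a, mul_nonneg zero_le_two (Finset.sum_nonneg fun a _ => hg0 a), ?_⟩
  intro x hx hside n
  obtain ⟨a, haF, k, hsep⟩ := hcov x hx hside
  obtain ⟨haA, haz⟩ := hF a haF
  have ha1 : a ≠ 1 := fun h1 => haz (h1 ▸ Subgroup.one_mem _)
  have haz' : a⁻¹ ∉ Subgroup.zpowers M.c := fun h => haz (inv_inv a ▸ Subgroup.inv_mem _ h)
  have hs1 := sideB M a haA haz
  have hs2 := sideB M a⁻¹ (M.B.inv_mem haA) haz'
  have hc := M.split.ne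
  have hcm : ∀ m : ℤ, M.c ^ m ∈ M.B := fun m => M.B.zpow_mem M.split.memB m
  have haz2 : M.c ^ k * a * M.c ^ (-k) ≠ 1 := by
    intro h
    apply ha1
    have : a = M.c ^ (-k) * (M.c ^ k * a * M.c ^ (-k)) * M.c ^ k := by group
    rw [this, h]; group
  have hττ : -M.σ * -M.σ = 1 := by rw [neg_mul_neg]; exact sigma_sq M
  have hc1 := core M.Q M.c hc (-M.σ) a hs1 hs2 ha1 x k hττ hsep
  have hsep2 := M.Q.si (M.T ^ n) _ _ _ _ haz2 (inv_ne_one.mpr haz2) hx hc hsep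
  rw [map_inv, Tn_B M n _ (M.B.mul_mem (M.B.mul_mem (hcm k) haA) (hcm (-k))),
    Tn_B M n M.c M.split.memB] at hsep2
  have hc2 := core M.Q M.c hc (-M.σ) a hs1 hs2 ha1 _ k hττ hsep2
  refine ⟨hc2.1, ?_⟩
  have h4 := hc1.2
  have h5 := hc2.2
  have h6 := hsum a haF
  have h7 : max |Real.log (-M.σ * M.Q.s M.c (M.Q.att a))|
    |Real.log (-M.σ * M.Q.s M.c (M.Q.att a⁻¹))| = g a := rfl
  rw [h7] at h4 h5
  rw [abs_le] at h4 h5 ⊢
  constructor
  · linarith [h4.1, h4.2, h5.1, h5.2]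
  · linarith [h4.1, h4.2, h5.1, h5.2]

/-- symmetric form of `sh`, one end on each side -/
theorem sh_eq (x : Γ) (h1 : 0 < M.σ * M.Q.s M.c (M.Q.att x))
    (h2 : 0 < -M.σ * M.Q.s M.c (M.Q.att x⁻¹)) :
    M.Q.sh M.c x = M.σ * ((Real.log (M.σ * M.Q.s M.c (M.Q.att x)) -
      Real.log (-M.σ * M.Q.s M.c (M.Q.att x⁻¹))) / Real.log (M.Q.lam M.c)) := by
  unfold Circ.sh Circ.up Circ.dn
  rcases M.split.sgn with h | h
  · rw [h] at h1 h2 ⊢
    rw [max_eq_left (by linarith), min_eq_right (by linarith)]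
    simp
  · rw [h] at h1 h2 ⊢
    rw [max_eq_right (by linarith), min_eq_left (by linarith)]
    simp only [neg_neg, one_mul, neg_mul]
    ring

theorem twist_core (D E : ℝ)
    (hA : ∀ x, x ≠ 1 → M.Q.side M.c M.σ (M.Q.att x) → ∀ n : ℤ,
      0 < M.σ * M.Q.s M.c (M.Q.att ((M.T ^ n) x)) ∧
      |Real.log (M.σ * M.Q.s M.c (M.Q.att ((M.T ^ n) x))) -
        Real.log (M.σ * M.Q.s M.c (M.Q.att x)) - n * Real.log (M.Q.lam M.c)| ≤ D)
    (hB : ∀ x, x ≠ 1 → M.Q.side M.c (-M.σ) (M.Q.att x) → ∀ n : ℤ,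
      0 < -M.σ * M.Q.s M.c (M.Q.att ((M.T ^ n) x)) ∧
      |Real.log (-M.σ * M.Q.s M.c (M.Q.att ((M.T ^ n) x))) -
        Real.log (-M.σ * M.Q.s M.c (M.Q.att x))| ≤ E)
    (x : Γ) (hx : M.Q.link x M.c) (hs : 0 < M.σ * M.Q.s M.c (M.Q.att x)) (n : ℤ) :
    |(n : ℝ)| * Real.log (M.Q.lam M.c) - (D + E) ≤
      |M.Q.sh M.c x - M.Q.sh M.c ((M.T ^ n) x)| * Real.log (M.Q.lam M.c) := by
  have hc := M.split.ne
  have hx1 : x ≠ 1 := (M.Q.link_ne hx).1
  obtain ⟨hn1, hn2, hn3⟩ := (M.Q.link_iff hc).mp hx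
  have hΛ : 0 < Real.log (M.Q.lam M.c) := Real.log_pos (M.Q.lam_gt _ hc)
  have hs' : 0 < -M.σ * M.Q.s M.c (M.Q.att x⁻¹) := by
    have hsq := sigma_sq M
    have h1 : (M.σ * M.Q.s M.c (M.Q.att x)) * (-M.σ * M.Q.s M.c (M.Q.att x⁻¹)) =
      -(M.Q.s M.c (M.Q.att x) * M.Q.s M.c (M.Q.att x⁻¹)) * (M.σ * M.σ) := by ring
    rw [hsq, mul_one] at h1
    have h2 : 0 < (M.σ * M.Q.s M.c (M.Q.att x)) * (-M.σ * M.Q.s M.c (M.Q.att x⁻¹)) := by
      rw [h1]; linarith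
    exact (mul_pos_iff_of_pos_left hs).mp h2
  obtain ⟨hA1, hA2⟩ := hA x hx1 ⟨hn1, hs⟩ n
  obtain ⟨hB1, hB2⟩ := hB x⁻¹ (inv_ne_one.mpr hx1) ⟨hn2, hs'⟩ n
  rw [map_inv] at hB1 hB2
  rw [sh_eq M x hs hs', sh_eq M _ hA1 hB1]
  set u := Real.log (M.σ * M.Q.s M.c (M.Q.att x))
  set v := Real.log (-M.σ * M.Q.s M.c (M.Q.att x⁻¹))
  set u' := Real.log (M.σ * M.Q.s M.c (M.Q.att ((M.T ^ n) x)))
  set v' := Real.log (-M.σ * M.Q.s M.c (M.Q.att ((M.T ^ n) x)⁻¹))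
  set Λ := Real.log (M.Q.lam M.c)
  have h3 : M.σ * ((u - v) / Λ) - M.σ * ((u' - v') / Λ) = M.σ * (((u - v) - (u' - v')) / Λ) := by
    ring
  have h4 : |M.σ| = 1 := by
    rcases M.split.sgn with h | h <;> rw [h] <;> norm_num
  rw [h3, abs_mul, h4, one_mul, abs_div, abs_of_pos hΛ, div_mul_cancel₀ _ hΛ.ne']
  have h5 : |(n : ℝ)| * Λ = |(n : ℝ) * Λ| := by rw [abs_mul, abs_of_pos hΛ]
  rw [h5]
  have h6 : (n : ℝ) * Λ = -((u' - u - n * Λ)) + (v' - v) + (-((u - v) - (u' - v'))) := by ring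
  have h7 : |(n : ℝ) * Λ| ≤ |u' - u - n * Λ| + |v' - v| + |(u - v) - (u' - v')| := by
    calc |(n : ℝ) * Λ| = |-((u' - u - n * Λ)) + (v' - v) + (-((u - v) - (u' - v')))| := by
          rw [← h6]
      _ ≤ |-((u' - u - n * Λ)) + (v' - v)| + |-((u - v) - (u' - v'))| := abs_add_le _ _
      _ ≤ |-((u' - u - n * Λ))| + |v' - v| + |-((u - v) - (u' - v'))| := by
          gcongr; exact abs_add_le _ _
      _ = _ := by rw [abs_neg, abs_neg]
  linarith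

end

end STwX

theorem Model.tw {Γ ι : Type} [Group Γ] [Fintype ι] (M : Model Γ ι) :
    ∃ C : ℕ, ∀ x, M.Q.link x M.c → ∀ n : ℤ,
      n.natAbs ≤ M.Q.N M.c x ((M.T ^ n) x) + C := by
  obtain ⟨D, hD, hA⟩ := STwX.stepA M
  obtain ⟨E, hE, hB⟩ := STwX.stepB M
  have hc := M.split.ne
  have hΛ : 0 < Real.log (M.Q.lam M.c) := Real.log_pos (M.Q.lam_gt _ hc)
  refine ⟨⌈1 + (D + E) / Real.log (M.Q.lam M.c)⌉₊, ?_⟩
  intro x hx n
  have hx1 : x ≠ 1 := (M.Q.link_ne hx).1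
  have hx' : M.Q.link ((M.T ^ n) x) M.c := by
    have h := (M.Q.link_aut (M.T ^ n)).mpr hx
    rwa [STwX.Tn_B M n M.c M.split.memB] at h
  have hNb := (M.Q.N_bounds hx hx').1
  obtain ⟨hn1, hn2, hn3⟩ := (M.Q.link_iff hc).mp hx
  have hsq := STwX.sigma_sq M
  have key : |(n : ℝ)| * Real.log (M.Q.lam M.c) - (D + E) ≤
      |M.Q.sh M.c x - M.Q.sh M.c ((M.T ^ n) x)| * Real.log (M.Q.lam M.c) := by
    rcases lt_or_ge 0 (M.σ * M.Q.s M.c (M.Q.att x)) with h | h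
    · exact STwX.twist_core M D E hA hB x hx h n
    · have hxi : M.Q.link x⁻¹ M.c := M.Q.link_inv_left.mpr hx
      have h2 : 0 < M.σ * M.Q.s M.c (M.Q.att x⁻¹) := by
        have h3 : (M.σ * M.Q.s M.c (M.Q.att x)) * (M.σ * M.Q.s M.c (M.Q.att x⁻¹)) < 0 := by
          have h4 : (M.σ * M.Q.s M.c (M.Q.att x)) * (M.σ * M.Q.s M.c (M.Q.att x⁻¹)) =
            (M.Q.s M.c (M.Q.att x) * M.Q.s M.c (M.Q.att x⁻¹)) * (M.σ * M.σ) := by ring
          rw [h4, hsq, mul_one]; exact hn3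
        by_contra h5
        have h6 := mul_nonneg_of_nonpos_of_nonpos h (not_lt.mp h5)
        linarith
      have h7 := STwX.twist_core M D E hA hB x⁻¹ hxi h2 n
      have hsh : ∀ y, M.Q.sh M.c y⁻¹ = M.Q.sh M.c y := by
        intro y
        unfold Circ.sh Circ.up Circ.dn
        rw [inv_inv, max_comm, min_comm]
      rw [map_inv, hsh, hsh] at h7
      exact h7
  have h8 : |(n : ℝ)| ≤ M.Q.N M.c x ((M.T ^ n) x) + (1 + (D + E) / Real.log (M.Q.lam M.c)) := by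
    have h9 : |(n : ℝ)| - (D + E) / Real.log (M.Q.lam M.c) ≤
        |M.Q.sh M.c x - M.Q.sh M.c ((M.T ^ n) x)| := by
      rw [← mul_le_mul_iff_left₀ hΛ, sub_mul, div_mul_cancel₀ _ hΛ.ne']
      exact key
    linarith
  have h10 : ((n.natAbs : ℕ) : ℝ) = |(n : ℝ)| := by
    rw [Nat.cast_natAbs]; push_cast; rfl
  have h11 : ((n.natAbs : ℕ) : ℝ) ≤ ((M.Q.N M.c x ((M.T ^ n) x) +
      ⌈1 + (D + E) / Real.log (M.Q.lam M.c)⌉₊ : ℕ) : ℝ) := by
    rw [h10]; push_cast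
    have := Nat.le_ceil (1 + (D + E) / Real.log (M.Q.lam M.c))
    linarith
  exact_mod_cast h11

end Pool.Agent.LDJ
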