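import Pool.Agent.LDJ.PDef
import Pool.Agent.LDJ.SBehr
import Pool.Agent.LDJ.SL4
import Pool.Agent.LDJ.STw
import Pool.Agent.LDJ.SFill
import Pool.Agent.LDJ.SAnn

/-!
LDJ.SProj: the annular projection system of a `Model`.

`G` acts on `Ann c` through `j : G →* Out Γ`. `cr X Y = crS X Y`, `d Y X Z = dS Y X Z`,
`base i = mkAnn c (rt i)`, `B = max 9 C` with `C` from `Model.tw`.
All elements `y` of an annulus `φ '' cls c` are `ψ c` or `ψ c⁻¹` for an automorphism `ψ`, hence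
`Simple` (`Split.simple`, `Split.map`; and `Simple y⁻¹` if `Simple y`).
Two elements `x, x'` of the same annulus are never linked (`x' = g x^{±1} g⁻¹`), so `N y x x' = 0`
(`N_zero`).
For annuli `X`, `Z` the set in the definition of `dS Y X Z` is bounded (`lip_elt`), so
`N y x z ≤ dS Y X Z` and, if it is nonempty, the sup is attained.
`cr_symm`: `link_symm`. `cr_irrefl`: simple. `cr_smul`, `d_smul`: `crS_aut`, `dS_aut`,
`annOut_toOut`. `d_symm`: `N_symm`. `d_tri`: take `y,x,z` realising the sup (if the set is empty the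
sup is 0), `v ∈ V` linked with some element of `Y`, conjugated (and inverted) to be linked with
`y`; `N_tri`. `d_nc`: `N_zero`, the sup is `0`.
`behr`: let `d Y Z X > 9`; take `y, z, x` realising it, `N y z x ≥ 10`, so `N y x z ≥ 3`;
`behr_elt` gives `x1` with `N x1 z y ≤ 3`. For arbitrary `x' ∈ X`, `z' ∈ Z`, `y' ∈ Y`,
`link z' x'`, `link y' x'`: conjugating (and inverting) assume `x' = x1` (`N_conj`,
`N_inv_base`); then `N x1 z' y' ≤ N x1 z' z + N x1 z y + N x1 y y' + 6 ≤ 0 + 3 + 0 + 6`.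
`fill`: `Model.fill`. `nc_card`: `M.nc` applied to one representative `φ c` of each member of
the finset. `lip g`: for a lift `φ` of `j g`: `lip_elt` for `x = rt i c`, `z = φ (rt k c)`, maximum
over `i, k`. `T_fix`: `j (Ti i) = toOut (rt i * T * (rt i)⁻¹)` and `T c = c`. `T_tw`: transport by
`rt i` to the case of `c`; for `X` crossing `cls c` take `x ∈ X` linked with `c`; then
`(T^n) x ∈ T^n X` is linked with `c` (`T c = c`), and `Model.tw`.
`T_comm`: `Model.tn` for `(rt i)⁻¹ * φ * rt i`, `φ` a lift of `j g`, then `j` injective.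
`stab_fin`: `Model.stab_fin` (`mkAnn_eq_iff`) and injectivity of `j`. `conn`: `M.conn`.
About 350 lines (may be split).
-/

namespace Pool.Agent.LDJ

open Pool.Agent.Hhelper67.Johnson

namespace SProjAux

variable {Γ : Type} [Group Γ]

lemma cls_self (y : Γ) : y ∈ cls y := ⟨1, Or.inl (by simp)⟩

lemma cls_inv {x y : Γ} (h : x ∈ cls y) : x⁻¹ ∈ cls y := by
  obtain ⟨g, rfl | rfl⟩ := h
  · exact ⟨g, Or.inr (by group)⟩
  · exact ⟨g, Or.inl (by group)⟩

lemma cls_conj {x y : Γ} (h : x ∈ cls y) (k : Γ) : k * x * k⁻¹ ∈ cls y := by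
  obtain ⟨g, rfl | rfl⟩ := h
  · exact ⟨k * g, Or.inl (by group)⟩
  · exact ⟨k * g, Or.inr (by group)⟩

lemma cls_trans {x y z : Γ} (h : x ∈ cls y) (h' : y ∈ cls z) : x ∈ cls z := by
  obtain ⟨g, rfl | rfl⟩ := h
  · exact cls_conj h' g
  · exact cls_conj (cls_inv h') g

lemma cls_symm {x y : Γ} (h : x ∈ cls y) : y ∈ cls x := by
  obtain ⟨g, rfl | rfl⟩ := h
  · exact ⟨g⁻¹, Or.inl (by group)⟩
  · exact ⟨g⁻¹, Or.inr (by group)⟩

lemma cls_eq {x y : Γ} (h : x ∈ cls y) : cls x = cls y :=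
  Set.Subset.antisymm (fun _ hz => cls_trans hz h) (fun _ hz => cls_trans hz (cls_symm h))

lemma cls_map (φ : MulAut Γ) {x y : Γ} (h : x ∈ cls y) : φ x ∈ cls (φ y) := by
  obtain ⟨g, rfl | rfl⟩ := h
  · exact ⟨φ g, Or.inl (by simp)⟩
  · exact ⟨φ g, Or.inr (by simp)⟩

lemma image_cls (φ : MulAut Γ) (y : Γ) : φ '' cls y = cls (φ y) := by
  ext x
  constructor
  · rintro ⟨z, hz, rfl⟩
    exact cls_map φ hz
  · intro hx
    refine ⟨(φ⁻¹ : MulAut Γ) x, ?_, MulAut.apply_inv_self _ φ x⟩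
    have h1 := cls_map (φ⁻¹ : MulAut Γ) hx
    rwa [MulAut.inv_apply_self] at h1

/-- an annulus, as a set -/
def IsA (c : Γ) (X : Set Γ) : Prop := ∃ φ : MulAut Γ, X = cls (φ c)

lemma isA (c : Γ) (Z : Ann c) : IsA c Z.1 := by
  obtain ⟨Z, φ, rfl⟩ := Z
  exact ⟨φ, image_cls φ c⟩

lemma IsA.image {c : Γ} {X : Set Γ} (h : IsA c X) (φ : MulAut Γ) : IsA c (φ '' X) := by
  obtain ⟨ψ, rfl⟩ := h
  exact ⟨φ * ψ, image_cls φ (ψ c)⟩

lemma IsA.conj {c : Γ} {X : Set Γ} (h : IsA c X) {x : Γ} (hx : x ∈ X) (g : Γ) :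
    g * x * g⁻¹ ∈ X := by
  obtain ⟨ψ, rfl⟩ := h
  exact cls_conj hx g

lemma IsA.cls_eq {c : Γ} {X : Set Γ} (h : IsA c X) {x : Γ} (hx : x ∈ X) : X = cls x := by
  obtain ⟨ψ, rfl⟩ := h
  exact (SProjAux.cls_eq hx).symm

variable {Q : Circ Γ} {c : Γ}

lemma simple_inv {y : Γ} (h : Q.Simple y) : Q.Simple y⁻¹ where
  ne := inv_ne_one.2 h.ne
  nolink := by
    intro g hl
    rw [Circ.link_inv_left, show g * y⁻¹ * g⁻¹ = (g * y * g⁻¹)⁻¹ by group,
      Circ.link_inv_right] at hl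
    exact h.nolink g hl
  cent := by
    intro g hg
    rw [Subgroup.zpowers_inv]
    refine h.cent g ?_
    calc g * y = y * (y⁻¹ * g) * y := by group
      _ = y * (g * y⁻¹) * y := by rw [hg]
      _ = y * g := by group

lemma simple_mem (hs : ∀ φ : MulAut Γ, Q.Simple (φ c)) {X : Set Γ} (hX : IsA c X) {x : Γ}
    (hx : x ∈ X) : Q.Simple x := by
  obtain ⟨φ, rfl⟩ := hX
  obtain ⟨g, rfl | rfl⟩ := hx
  · exact hs (MulAut.conj g * φ)
  · have h1 := simple_inv (hs (MulAut.conj g * φ))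
    have h2 : ((MulAut.conj g * φ) c)⁻¹ = g * (φ c)⁻¹ * g⁻¹ := by
      rw [MulAut.mul_apply, MulAut.conj_apply]
      group
    rwa [h2] at h1

lemma same_nolink (hs : ∀ φ : MulAut Γ, Q.Simple (φ c)) {X : Set Γ} (hX : IsA c X) {x x' : Γ}
    (hx : x ∈ X) (hx' : x' ∈ X) : ¬ Q.link x x' := by
  rw [hX.cls_eq hx] at hx'
  have hsx := simple_mem hs hX hx
  obtain ⟨g, rfl | rfl⟩ := hx'
  · exact hsx.nolink g
  · rw [show g * x⁻¹ * g⁻¹ = (g * x * g⁻¹)⁻¹ by group, Circ.link_inv_right]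
    exact hsx.nolink g

lemma same_N (hs : ∀ φ : MulAut Γ, Q.Simple (φ c)) {X : Set Γ} (hX : IsA c X) {x x' : Γ}
    (hx : x ∈ X) (hx' : x' ∈ X) (y : Γ) : Q.N y x x' = 0 :=
  Q.N_zero fun g => same_nolink hs hX hx (hX.conj hx' g)

/-- moving the base element inside its class -/
lemma move1 {X Y : Set Γ} (hX : IsA c X) (hY : IsA c Y) {y y' : Γ} (hy : y ∈ Y) (hy' : y' ∈ Y)
    {x : Γ} (hx : x ∈ X) (hl : Q.link x y') : ∃ x' ∈ X, Q.link x' y := by
  rw [hY.cls_eq hy'] at hy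
  obtain ⟨g, rfl | rfl⟩ := hy
  · exact ⟨g * x * g⁻¹, hX.conj hx g, (Q.link_conj g).2 hl⟩
  · refine ⟨g * x * g⁻¹, hX.conj hx g, (Q.link_conj g).2 ?_⟩
    exact Q.link_inv_right.2 hl

lemma move2 {X Y Z : Set Γ} (hX : IsA c X) (hZ : IsA c Z) (hY : IsA c Y) {y y' : Γ} (hy : y ∈ Y)
    (hy' : y' ∈ Y) {x z : Γ} (hx : x ∈ X) (hz : z ∈ Z) (hl : Q.link x y') (hl' : Q.link z y') :
    ∃ x' ∈ X, ∃ z' ∈ Z, Q.link x' y ∧ Q.link z' y ∧ Q.N y x' z' = Q.N y' x z := by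
  rw [hY.cls_eq hy'] at hy
  obtain ⟨g, rfl | rfl⟩ := hy
  · exact ⟨g * x * g⁻¹, hX.conj hx g, g * z * g⁻¹, hZ.conj hz g, (Q.link_conj g).2 hl,
      (Q.link_conj g).2 hl', Q.N_conj g y' x z⟩
  · refine ⟨g * x * g⁻¹, hX.conj hx g, g * z * g⁻¹, hZ.conj hz g, (Q.link_conj g).2 ?_,
      (Q.link_conj g).2 ?_, ?_⟩
    · exact Q.link_inv_right.2 hl
    · exact Q.link_inv_right.2 hl'
    · rw [Q.N_conj, Q.N_inv_base]

lemma bdd (hs : ∀ φ : MulAut Γ, Q.Simple (φ c)) {X Y Z : Set Γ} (hX : IsA c X) (hZ : IsA c Z)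
    (hY : IsA c Y) :
    BddAbove {n | ∃ y ∈ Y, ∃ x ∈ X, ∃ z ∈ Z, Q.link x y ∧ Q.link z y ∧ n = Q.N y x z} := by
  obtain ⟨φ, rfl⟩ := hX
  obtain ⟨ψ, rfl⟩ := hZ
  obtain ⟨D, hD⟩ := Q.lip_elt (hs φ).ne (hs ψ).ne
  refine ⟨D, ?_⟩
  rintro n ⟨y, hy, x, hx, z, hz, h1, h2, rfl⟩
  exact hD y (simple_mem hs hY hy) x hx z hz h1 h2

lemma N_le_dS (hs : ∀ φ : MulAut Γ, Q.Simple (φ c)) {X Y Z : Set Γ} (hX : IsA c X) (hZ : IsA c Z)
    (hY : IsA c Y) {y x z : Γ} (hy : y ∈ Y) (hx : x ∈ X) (hz : z ∈ Z) (h1 : Q.link x y)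
    (h2 : Q.link z y) : Q.N y x z ≤ Q.dS Y X Z :=
  le_csSup (bdd hs hX hZ hY) ⟨y, hy, x, hx, z, hz, h1, h2, rfl⟩

lemma dS_le {X Y Z : Set Γ} {D : ℕ} (h : ∀ y ∈ Y, ∀ x ∈ X, ∀ z ∈ Z, Q.link x y → Q.link z y →
    Q.N y x z ≤ D) : Q.dS Y X Z ≤ D := by
  refine csSup_le' ?_
  rintro n ⟨y, hy, x, hx, z, hz, h1, h2, rfl⟩
  exact h y hy x hx z hz h1 h2

lemma dS_symm (Y X Z : Set Γ) : Q.dS Y X Z = Q.dS Y Z X := by
  refine congrArg sSup ?_
  ext n
  constructor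
  · rintro ⟨y, hy, x, hx, z, hz, h1, h2, rfl⟩
    exact ⟨y, hy, z, hz, x, hx, h2, h1, Q.N_symm y x z⟩
  · rintro ⟨y, hy, x, hx, z, hz, h1, h2, rfl⟩
    exact ⟨y, hy, z, hz, x, hx, h2, h1, Q.N_symm y x z⟩

lemma dS_tri (hs : ∀ φ : MulAut Γ, Q.Simple (φ c)) {X Y V Z : Set Γ} (hX : IsA c X)
    (hY : IsA c Y) (hV : IsA c V) (hZ : IsA c Z) (hvy : Q.crS V Y) :
    Q.dS Y X Z ≤ Q.dS Y X V + Q.dS Y V Z + 3 := by
  refine dS_le fun y hy x hx z hz h1 h2 => ?_
  obtain ⟨v, hv, y', hy', hl⟩ := hvy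
  obtain ⟨v', hv', hl'⟩ := move1 hV hY hy hy' hv hl
  have h3 := Q.N_tri h1 hl' h2
  have h4 := N_le_dS hs hX hV hY hy hx hv' h1 hl'
  have h5 := N_le_dS hs hV hZ hY hy hv' hz hl' h2
  omega

lemma dS_nc {X Y Z : Set Γ} (hZ : IsA c Z) (h : ¬ Q.crS X Z) : Q.dS Y X Z ≤ 0 := by
  refine dS_le fun y _ x hx z hz _ _ => ?_
  rw [Q.N_zero fun g hl => h ⟨x, hx, _, hZ.conj hz g, hl⟩]

lemma dS_behr (hs : ∀ φ : MulAut Γ, Q.Simple (φ c)) {X Y Z : Set Γ} (hX : IsA c X)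
    (hY : IsA c Y) (hZ : IsA c Z) : Q.dS Y Z X ≤ 9 ∨ Q.dS X Z Y ≤ 9 := by
  by_cases h : ∀ y ∈ Y, ∀ z ∈ Z, ∀ x ∈ X, Q.link z y → Q.link x y → Q.N y z x ≤ 9
  · exact Or.inl (dS_le h)
  · right
    push Not at h
    obtain ⟨y, hy, z, hz, x, hx, h1, h2, h3⟩ := h
    rw [Q.N_symm] at h3
    obtain ⟨k, hk1, hk2, hk3⟩ := Q.behr_elt (simple_mem hs hX hx) h2 h1 (by omega)
    have hx1 : y ^ k * x * y ^ (-k) ∈ X := by
      have := hX.conj hx (y ^ k)
      rwa [← zpow_neg] at this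
    set x1 := y ^ k * x * y ^ (-k) with hx1def
    refine dS_le fun x' hx' z' hz' y' hy' h4 h5 => ?_
    obtain ⟨z'', hz'', y'', hy'', h6, h7, h8⟩ := move2 hZ hY hX hx1 hx' hz' hy' h4 h5
    have hzx : Q.link z x1 := hk2
    have hyx : Q.link y x1 := Q.link_symm hk1
    have e1 := Q.N_tri h6 hzx h7
    have e2 := Q.N_tri hzx hyx h7
    have e3 := same_N hs hZ hz'' hz x1
    have e4 := same_N hs hY hy hy'' x1
    omega

end SProjAux

open SProjAux

theorem Model.exists_proj {Γ ι : Type} [Group Γ] [Fintype ι] (M : Model Γ ι) {G : Type} [Group G]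
    (j : G →* Out Γ) (hj : Function.Injective j) (Ti : ι → G)
    (hTi : ∀ i, j (Ti i) = toOut Γ (M.rt i * M.T * (M.rt i)⁻¹)) :
    ∃ (inst : MulAction G (Ann M.c)) (P : @Proj G (Ann M.c) ι _ inst _), ∀ i, P.T i = Ti i := by
  classical
  have hs : ∀ φ : MulAut Γ, M.Q.Simple (φ M.c) := fun φ => by
    obtain ⟨σ', h, -⟩ := M.split.map φ
    exact h.simple
  have hTc : M.T M.c = M.c := M.TB _ M.split.memB
  have hTn : ∀ n : ℤ, (M.T ^ n) M.c = M.c := by
    intro n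
    have h1 : M.T ∈ MulAction.stabilizer (MulAut Γ) M.c := hTc
    exact (MulAction.stabilizer (MulAut Γ) M.c).zpow_mem h1 n
  obtain ⟨C, hC⟩ := M.tw
  let inst : MulAction G (Ann M.c) :=
    { smul := fun g Z => annOut M.c (j g) Z
      one_smul := fun Z => by
        show annOut M.c (j 1) Z = Z
        rw [map_one, map_one]
        rfl
      mul_smul := fun g g' Z => by
        show annOut M.c (j (g * g')) Z = annOut M.c (j g) (annOut M.c (j g') Z)
        rw [map_mul, map_mul]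
        rfl }
  have hsm : ∀ (g : G) (φ : MulAut Γ), j g = toOut Γ φ → ∀ Z : Ann M.c, (g • Z).1 = φ '' Z.1 := by
    intro g φ h Z
    show (annOut M.c (j g) Z).1 = _
    rw [h, annOut_toOut]
  have hlift : ∀ g : G, ∃ φ : MulAut Γ, j g = toOut Γ φ := fun g => by
    obtain ⟨φ, hφ⟩ := toOut_surjective (j g)
    exact ⟨φ, hφ.symm⟩
  have hbase : ∀ i, (mkAnn M.c (M.rt i)).1 = cls (M.rt i M.c) := fun i => mkAnn_eq _ _
  refine ⟨inst,
    { cr := fun X Y => M.Q.crS X.1 Y.1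
      d := fun Y X Z => M.Q.dS Y.1 X.1 Z.1
      B := max 9 C
      cr_symm := ?_
      cr_irrefl := ?_
      cr_smul := ?_
      d_symm := ?_
      d_smul := ?_
      d_tri := ?_
      d_nc := ?_
      behr := ?_
      base := fun i => mkAnn M.c (M.rt i)
      fill := ?_
      nu := M.nu
      nc_card := ?_
      lip := ?_
      T := Ti
      T_fix := ?_
      T_tw := ?_
      T_comm := ?_
      stab_fin := ?_
      conn := ?_ }, fun i => rfl⟩
  · rintro X Y ⟨x, hx, y, hy, h⟩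
    exact ⟨y, hy, x, hx, M.Q.link_symm h⟩
  · rintro X ⟨x, hx, y, hy, h⟩
    exact same_nolink hs (isA _ X) hx hy h
  · intro g X Y h
    obtain ⟨φ, hφ⟩ := hlift g
    rw [hsm g φ hφ, hsm g φ hφ, Circ.crS_aut]
    exact h
  · intro Y X Z
    exact dS_symm _ _ _
  · intro g Y X Z
    obtain ⟨φ, hφ⟩ := hlift g
    rw [hsm g φ hφ, hsm g φ hφ, hsm g φ hφ, Circ.dS_aut]
  · intro Y X V Z _ h _
    have h1 := dS_tri hs (isA _ X) (isA _ Y) (isA _ V) (isA _ Z) h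
    have h2 : 9 ≤ max 9 C := le_max_left _ _
    omega
  · intro Y X Z _ _ h
    exact (dS_nc (isA _ Z) h).trans (Nat.zero_le _)
  · intro X Y Z _ _ _
    exact (dS_behr hs (isA _ X) (isA _ Y) (isA _ Z)).imp (fun h => h.trans (le_max_left _ _))
      (fun h => h.trans (le_max_left _ _))
  · rintro ⟨Y, φ, rfl⟩
    obtain ⟨i, g, h⟩ := M.fill φ
    refine ⟨i, M.rt i M.c, ?_, g * φ M.c * g⁻¹, ?_, h⟩
    · rw [hbase]
      exact cls_self _
    · show _ ∈ φ '' cls M.c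
      rw [image_cls]
      exact cls_conj (cls_self _) g
  · intro s hnc
    have hr : ∀ Z : Ann M.c, ∃ φ : MulAut Γ, Z.1 = cls (φ M.c) := fun Z => isA _ Z
    choose r hr using hr
    have hmem : ∀ Z : Ann M.c, r Z M.c ∈ Z.1 := fun Z => by
      rw [hr Z]
      exact cls_self _
    have hinj : Function.Injective fun Z : Ann M.c => r Z M.c := by
      intro Z Z' h
      apply Subtype.ext
      rw [hr Z, hr Z']
      exact congrArg cls h
    rw [← Finset.card_image_of_injective s hinj]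
    refine M.nc _ ?_ ?_ ?_
    · intro y hy
      obtain ⟨Z, _, rfl⟩ := Finset.mem_image.1 hy
      exact ⟨r Z, rfl⟩
    · intro x hx y hy g hl
      obtain ⟨X, hX, rfl⟩ := Finset.mem_image.1 hx
      obtain ⟨Y, hY, rfl⟩ := Finset.mem_image.1 hy
      exact hnc X hX Y hY ⟨_, hmem X, _, (isA _ Y).conj (hmem Y) g, hl⟩
    · intro x hx y hy hne hxy
      obtain ⟨X, hX, rfl⟩ := Finset.mem_image.1 hx
      obtain ⟨Y, hY, rfl⟩ := Finset.mem_image.1 hy
      apply hne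
      have : X = Y := by
        apply Subtype.ext
        rw [hr X, hr Y]
        exact cls_eq hxy
      rw [this]
  · intro g
    obtain ⟨φ, hφ⟩ := hlift g
    have hD : ∀ i k : ι, ∃ D : ℕ, ∀ y, M.Q.Simple y → ∀ x' ∈ cls (M.rt i M.c),
        ∀ z' ∈ cls ((φ * M.rt k) M.c), M.Q.link x' y → M.Q.link z' y → M.Q.N y x' z' ≤ D :=
      fun i k => M.Q.lip_elt (hs _).ne (hs _).ne
    choose D hD using hD
    refine ⟨Finset.univ.sup fun p : ι × ι => D p.1 p.2, fun Y i k _ _ => ?_⟩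
    refine dS_le fun y hy x hx z hz h1 h2 => ?_
    refine (hD i k y (simple_mem hs (isA _ Y) hy) x ?_ z ?_ h1 h2).trans
      (Finset.le_sup (f := fun p : ι × ι => D p.1 p.2) (Finset.mem_univ (i, k)))
    · rwa [hbase] at hx
    · rw [hsm g φ hφ, hbase, image_cls] at hz
      exact hz
  · intro i
    apply Subtype.ext
    rw [hsm _ _ (hTi i), hbase, image_cls]
    congr 1
    simp only [MulAut.mul_apply, MulAut.inv_apply_self, hTc]
  · intro i X n hX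
    have hpow : j (Ti i ^ n) = toOut Γ (M.rt i * M.T ^ n * (M.rt i)⁻¹) := by
      rw [map_zpow, hTi, ← map_zpow, conj_zpow]
    show n.natAbs ≤ M.Q.dS (mkAnn M.c (M.rt i)).1 X.1 (Ti i ^ n • X).1 + max 9 C
    have hXA := isA _ X
    rw [hsm _ _ hpow]
    set X' : Set Γ := ((M.rt i)⁻¹ : MulAut Γ) '' X.1 with hX'
    have hXX : X.1 = M.rt i '' X' := by
      rw [hX', Set.image_image]
      simp
    have hTX : (M.rt i * M.T ^ n * (M.rt i)⁻¹ : MulAut Γ) '' X.1 = M.rt i '' ((M.T ^ n) '' X') := by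
      rw [hX', Set.image_image, Set.image_image]
      rfl
    have hb : (mkAnn M.c (M.rt i)).1 = M.rt i '' cls M.c := rfl
    have hX'A : IsA M.c X' := hXA.image _
    have hcA : IsA M.c (cls M.c) := ⟨1, rfl⟩
    rw [hTX, hb, hXX, Circ.dS_aut]
    have hcr : M.Q.crS X' (cls M.c) := by
      have h1 : M.Q.crS X.1 (mkAnn M.c (M.rt i)).1 := hX
      rwa [hb, hXX, Circ.crS_aut] at h1
    obtain ⟨x, hx, y, hy, hl⟩ := hcr
    obtain ⟨x', hx', hl'⟩ := move1 hX'A hcA (cls_self M.c) hy hx hl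
    have hl2 : M.Q.link ((M.T ^ n) x') M.c := by
      have := (M.Q.link_aut (M.T ^ n)).2 hl'
      rwa [hTn] at this
    have h1 := hC x' hl' n
    have h2 := N_le_dS hs hX'A (hX'A.image (M.T ^ n)) hcA (cls_self M.c) hx'
      (Set.mem_image_of_mem _ hx') hl' hl2
    have h3 : C ≤ max 9 C := le_max_right _ _
    omega
  · intro i g hg
    obtain ⟨φ, hφ⟩ := hlift g
    have h1 : φ (M.rt i M.c) ∈ cls (M.rt i M.c) := by
      have h2 := congrArg Subtype.val hg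
      rw [hsm g φ hφ, hbase, image_cls] at h2
      rw [← h2]
      exact cls_self _
    have h2 : ((M.rt i)⁻¹ * φ * M.rt i) M.c ∈ cls M.c := by
      have h3 := cls_map (M.rt i)⁻¹ h1
      rwa [MulAut.inv_apply_self] at h3
    obtain ⟨g', hg'⟩ := M.tn _ h2
    have hone : ∀ x : Γ, toOut Γ (MulAut.conj x) = 1 := fun x => toOut_eq_one.2 ⟨x, rfl⟩
    have key : j (g * Ti i * g⁻¹) = toOut Γ (M.rt i * (((M.rt i)⁻¹ * φ * M.rt i) * M.T *
        ((M.rt i)⁻¹ * φ * M.rt i)⁻¹) * (M.rt i)⁻¹) := by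
      rw [map_mul, map_mul, map_inv, hTi, hφ, ← map_mul, ← map_inv, ← map_mul]
      congr 1
      group
    rcases hg' with h | h
    · left
      apply hj
      rw [key, h, hTi]
      simp only [map_mul, hone, one_mul]
    · right
      apply hj
      rw [key, h, map_inv, hTi]
      simp only [map_mul, hone, one_mul, map_inv, mul_inv_rev, inv_inv]
      group
  · obtain ⟨F, hF, hFs⟩ := M.stab_fin
    refine (((hF.image (toOut Γ)).preimage (f := j) hj.injOn)).subset ?_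
    intro g hg
    obtain ⟨φ, hφ⟩ := hlift g
    have h1 : ∀ i, φ (M.rt i M.c) ∈ cls (M.rt i M.c) := by
      intro i
      have h2 := congrArg Subtype.val (hg i)
      rw [hsm g φ hφ, hbase, image_cls] at h2
      rw [← h2]
      exact cls_self _
    obtain ⟨g', hg'⟩ := hFs φ h1
    refine ⟨_, hg', ?_⟩
    rw [map_mul, toOut_eq_one.2 ⟨g', rfl⟩, one_mul, hφ]
  · intro i k
    refine Relation.TransGen.mono (fun a b h => ?_) i k (M.conn i k)
    refine ⟨_, ?_, _, ?_, h⟩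
    · rw [hbase]
      exact cls_self _
    · rw [hbase]
      exact cls_self _

end Pool.Agent.LDJ
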