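import Pool.Agent.LDJ.WModel
import Pool.Agent.LDJ.SProj
import Pool.Agent.LDJ.PDec
import Pool.Agent.LDJ.Lim

/-!
LDJ.Final: the logarithmic density of every Johnson term exists, does not depend on `m`, and lies
in `[1/2, 1]`.
-/

namespace Pool.Agent.LDJ

open Pool.Agent.Hhelper67.Johnson Filter Topology

theorem johnson_chain (g : ℕ) : Chain (johnson g) where
  normal m := johnson_normal g m
  anti m := johnson_antitone m
  comm m hm z hz w hw := by
    have h := johnson_commutator hm hz hw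
    rwa [commutatorElement_def] at h

theorem johnson_decodable {g : ℕ} (hg : 2 ≤ g) (S : Finset (MCG g))
    (hS : Subgroup.closure (S : Set (MCG g)) = ⊤) (m : ℕ) (hm : 1 ≤ m) :
    Decodable S (johnson g m) := by
  obtain ⟨ι, hι, M, hT⟩ := exists_model g hg
  have hmem : ∀ i, M.rt i * M.T * (M.rt i)⁻¹ ∈ torA g := fun i =>
    (inferInstance : (torA g).Normal).conj_mem _ hT _
  let Ti : ι → MCG g := fun i => toMod g ⟨M.rt i * M.T * (M.rt i)⁻¹, torA_le _ (hmem i)⟩
  have hTi : ∀ i, modIncl g (Ti i) = toOut (SurfaceGroup g) (M.rt i * M.T * (M.rt i)⁻¹) :=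
    fun i => rfl
  obtain ⟨inst, P, hP⟩ := M.exists_proj (modIncl g) (modIncl_injective g) Ti hTi
  refine @Proj.decodable _ _ _ _ inst _ P (johnson g) (johnson_chain g) (fun i => ?_) S hS m hm
  rw [hP, mem_johnson_iff]
  exact ⟨M.rt i * M.T * (M.rt i)⁻¹, torA_le _ (hmem i), (hTi i).symm, mem_torA.mp (hmem i)⟩

theorem ball_exp {g : ℕ} (hg : 2 ≤ g) (S : Finset (MCG g))
    (hS : Subgroup.closure (S : Set (MCG g)) = ⊤) :
    ∃ η : ℝ, 0 < η ∧ ∀ᶠ r : ℕ in atTop, η * r ≤ Real.log ((ball S r).ncard : ℝ) := by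
  classical
  obtain ⟨n, rfl⟩ : ∃ n, g = n + 2 := ⟨g - 2, by omega⟩
  have hinj := famZ_injective (n := n) (N := 2) le_rfl
  have hlen : ∀ i : Fin 2, ∃ L, famZ n 2 (FreeGroup.of i) ∈ ball S L := by
    intro i
    have h1 : famZ n 2 (FreeGroup.of i) ∈ Subgroup.closure (S : Set (MCG (n + 2))) := by
      rw [hS]
      exact Subgroup.mem_top _
    have h2 : famZ n 2 (FreeGroup.of i) ∈ Submonoid.closure
        ((S : Set (MCG (n + 2))) ∪ (S : Set (MCG (n + 2)))⁻¹) := by
      rw [← Subgroup.closure_toSubmonoid]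
      exact h1
    obtain ⟨l, hl, hl'⟩ := Submonoid.exists_list_of_mem_closure h2
    refine ⟨l.length, l, le_rfl, fun s hs => ?_, hl'⟩
    rcases hl s hs with h | h
    · exact Or.inl h
    · exact Or.inr h
  choose L hL using hlen
  set L₀ := max (max (L 0) (L 1)) 1 with hL₀
  have hL0 : 0 < L₀ := by
    rw [hL₀]
    positivity
  have hmem : ∀ i : Fin 2, famZ n 2 (FreeGroup.of i) ∈ ball S L₀ := by
    intro i
    refine ball_mono ?_ (hL i)
    fin_cases i
    · exact (le_max_left _ _).trans (le_max_left _ _)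
    · exact (le_max_right _ _).trans (le_max_left _ _)
  have hlog : 0 < Real.log 2 := Real.log_pos (by norm_num)
  set δ := Real.log 2 / 2 with hδ
  have hδ0 : 0 < δ := by positivity
  have hgood := good_johnson (g := n + 2) (ι := Fin 2) (by simp) (famZ n 2) famZ_mem 0 δ (by
    simp only [Fintype.card_fin, Nat.cast_ofNat]
    linarith)
  obtain ⟨C, hC⟩ := inter_growth S (famZ n 2) hinj hL0 hmem (johnson (n + 2) (0 + 1)) hδ0.le hgood
  have hL' : (0 : ℝ) < L₀ := by exact_mod_cast hL0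
  refine ⟨δ / L₀ / 2, by positivity, ?_⟩
  filter_upwards [eventually_ge_atTop ⌈C / (δ / L₀ / 2)⌉₊] with r hr
  have h1 := hC r
  have h2 : ((ball S r ∩ (johnson (n + 2) (0 + 1) : Set (MCG (n + 2)))).ncard : ℝ) ≤
      ((ball S r).ncard : ℝ) := by
    exact_mod_cast Set.ncard_le_ncard Set.inter_subset_left (ball_finite S r)
  have h3 : Real.log ((ball S r ∩ (johnson (n + 2) (0 + 1) : Set (MCG (n + 2)))).ncard : ℝ) ≤
      Real.log ((ball S r).ncard : ℝ) := by
    apply Real.log_le_log _ h2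
    exact_mod_cast ncard_inter_pos S (johnson (n + 2) (0 + 1)) r
  have h4 : C ≤ δ / L₀ / 2 * r := by
    have h5 : C / (δ / L₀ / 2) ≤ r := (Nat.le_ceil _).trans (by exact_mod_cast hr)
    rw [div_le_iff₀ (by positivity)] at h5
    linarith
  have h6 : δ / L₀ * r = δ / L₀ / 2 * r + δ / L₀ / 2 * r := by ring
  linarith

theorem final (g : ℕ) (hg : 2 ≤ g) (S : Finset (MCG g))
    (hS : Subgroup.closure (S : Set (MCG g)) = ⊤) :
    ∃ d : ℝ, 1 / 2 ≤ d ∧ d ≤ 1 ∧ ∀ m : ℕ, 1 ≤ m →
      Tendsto (logRatio S (johnson g m : Set (MCG g))) atTop (𝓝 d) :=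
  lim_main S (johnson_chain g) (fun m hm => johnson_decodable hg S hS m hm) (ball_exp hg S hS)

end Pool.Agent.LDJ
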