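import Pool.Agent.LDJ.Kesten

/-!
LDJ.Grow: the two growth inequalities from decodability.

PROOF. Let `c, ell, κ, C` be the data of `Decodable S (T m)`; put `C' = C + 1`.
(a) For a list `l` over `ball S r` of length `L`: `wd c l ∈ ball S (L*(r+ell))` (`ball_mul`), and
`wd c l ∈ T m ↔ l.prod ∈ T m` because `c f f' ∈ T m` and `T m` is normal (induct on `l`; pass to the
quotient `G ⧸ T m`, where `wd c l = l.prod`).
(b) Hence for a finite set `F` of lists of length `L` over `ball S r` with product in `T m`: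
`F.ncard ≤ (ball S (L*(r+ell)) ∩ T m).ncard * (C*(r+1)^κ)^L` (fibres of `wd c`).
(c) `grow`: `A = ball S r ∩ T 1` (finite, symmetric by `ball_inv`, contains 1). By `kesten` get `L`
with at least `|A|^L e^(-εL)` lists; for `n` the concatenations of `n` such lists give at least
`(|A|^L e^(-εL))^n` lists of length `n*L` over `A` with product in `T m`; apply (b).
(d) `half`: for `x ∈ ball S r` take the list `[x, x⁻¹]` (length 2, product 1); these lists are
distinct for distinct `x`; apply (b) with `L = 2`. About 150 lines.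
-/

namespace Pool.Agent.LDJ

open Pool.Agent.Hhelper67.Johnson


section

variable {G : Type} [Group G]

theorem wd_mem_ball (S : Finset G) (c : G → G → G) (ell : ℕ)
    (hc : ∀ f f', c f f' ∈ ball S ell) (r : ℕ) :
    ∀ l : List G, (∀ f ∈ l, f ∈ ball S r) → wd c l ∈ ball S (l.length * (r + ell)) := by
  intro l
  induction l with
  | nil =>
    intro _
    have h := one_mem_ball S (([] : List G).length * (r + ell))
    exact h
  | cons f l ih =>
    intro h
    have h1 := ball_mul (ball_mul (h f List.mem_cons_self) (hc f (l.headD 1)))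
      (ih (fun g hg => h g (List.mem_cons_of_mem _ hg)))
    have h2 : (f :: l).length * (r + ell) = r + ell + l.length * (r + ell) := by
      rw [List.length_cons]; ring
    rw [h2]
    exact h1

theorem wd_prod (N : Subgroup G) (hN : N.Normal) (c : G → G → G)
    (hc : ∀ f f', c f f' ∈ N) (l : List G) :
    QuotientGroup.mk' N (wd c l) = QuotientGroup.mk' N l.prod := by
  induction l with
  | nil => rfl
  | cons f l ih =>
    have h1 : QuotientGroup.mk' N (c f (l.headD 1)) = 1 :=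
      (QuotientGroup.eq_one_iff _).2 (hc _ _)
    have h2 : wd c (f :: l) = f * c f (l.headD 1) * wd c l := rfl
    rw [h2, List.prod_cons, map_mul, map_mul, map_mul, h1, ih, mul_one]

theorem wd_mem (N : Subgroup G) (hN : N.Normal) (c : G → G → G)
    (hc : ∀ f f', c f f' ∈ N) (l : List G) (hl : l.prod ∈ N) : wd c l ∈ N := by
  have h1 := wd_prod N hN c hc l
  have h2 : QuotientGroup.mk' N l.prod = 1 := (QuotientGroup.eq_one_iff _).2 hl
  rw [h2] at h1
  exact (QuotientGroup.eq_one_iff _).1 h1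

theorem lists_finite (s : Set G) (hs : s.Finite) (L : ℕ) :
    {l : List G | l.length = L ∧ ∀ f ∈ l, f ∈ s}.Finite := by
  have : Finite s := hs
  apply (Set.finite_range (fun v : Fin L → s => List.ofFn (fun i => (v i : G)))).subset
  rintro l ⟨h1, h2⟩
  subst h1
  refine ⟨fun i => ⟨l.get i, h2 _ (List.get_mem l i)⟩, ?_⟩
  exact List.ofFn_get l

theorem count (S : Finset G) (N : Subgroup G) (hN : N.Normal) (c : G → G → G) (ell κ C : ℕ)
    (hc1 : ∀ f f', c f f' ∈ N) (hc2 : ∀ f f', c f f' ∈ ball S ell)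
    (hc3 : ∀ (r L : ℕ) (w : G),
      {l : List G | l.length = L ∧ (∀ f ∈ l, f ∈ ball S r) ∧ wd c l = w}.ncard
        ≤ (C * (r + 1) ^ κ) ^ L) (r L : ℕ) :
    {l : List G | l.length = L ∧ (∀ f ∈ l, f ∈ ball S r) ∧ l.prod ∈ N}.ncard ≤
      (ball S (L * (r + ell)) ∩ (N : Set G)).ncard * (C * (r + 1) ^ κ) ^ L := by
  classical
  have hf0 := lists_finite (ball S r) (ball_finite S r) L
  have hF : {l : List G | l.length = L ∧ (∀ f ∈ l, f ∈ ball S r) ∧ l.prod ∈ N}.Finite :=
    hf0.subset (fun l hl => ⟨hl.1, hl.2.1⟩)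
  have hB : (ball S (L * (r + ell)) ∩ (N : Set G)).Finite :=
    (ball_finite S _).subset Set.inter_subset_left
  have h1 := Finset.card_le_mul_card_image_of_maps_to (s := hF.toFinset) (t := hB.toFinset)
    (f := wd c) (fun l hl => by
      rw [Set.Finite.mem_toFinset] at hl ⊢
      refine ⟨?_, wd_mem N hN c hc1 l hl.2.2⟩
      have h := wd_mem_ball S c ell hc2 r l hl.2.1
      rw [hl.1] at h
      exact h) ((C * (r + 1) ^ κ) ^ L) (fun w hw => by
      refine le_trans ?_ (hc3 r L w)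
      have hfin : {l : List G | l.length = L ∧ (∀ f ∈ l, f ∈ ball S r) ∧ wd c l = w}.Finite :=
        hf0.subset (fun l hl => ⟨hl.1, hl.2.1⟩)
      rw [Set.ncard_eq_toFinset_card _ hfin]
      apply Finset.card_le_card
      intro l hl
      rw [Finset.mem_filter, Set.Finite.mem_toFinset] at hl
      rw [Set.Finite.mem_toFinset]
      exact ⟨hl.1.1, hl.1.2.1, hl.2⟩)
  rw [Set.ncard_eq_toFinset_card _ hF, Set.ncard_eq_toFinset_card _ hB, mul_comm]
  exact h1

theorem concat (A : Finset G) (N : Subgroup G) (L : ℕ) (n : ℕ) :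
    {l : List G | l.length = L ∧ (∀ f ∈ l, f ∈ A) ∧ l.prod ∈ N}.ncard ^ n ≤
      {l : List G | l.length = n * L ∧ (∀ f ∈ l, f ∈ A) ∧ l.prod ∈ N}.ncard := by
  have hfin : ∀ k : ℕ, {l : List G | l.length = k ∧ (∀ f ∈ l, f ∈ A) ∧ l.prod ∈ N}.Finite :=
    fun k => (lists_finite (A : Set G) A.finite_toSet k).subset (fun l hl => ⟨hl.1, hl.2.1⟩)
  induction n with
  | zero =>
    rw [pow_zero, Nat.one_le_iff_ne_zero]
    refine Set.ncard_ne_zero_of_mem (a := []) ⟨?_, ?_, ?_⟩ (hfin _)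
    · simp
    · intro f hf
      simp at hf
    · rw [List.prod_nil]
      exact N.one_mem
  | succ n ih =>
    rw [pow_succ]
    refine le_trans (Nat.mul_le_mul_right _ ih) ?_
    rw [← Set.ncard_prod]
    refine Set.ncard_le_ncard_of_injOn (fun p : List G × List G => p.1 ++ p.2) ?_ ?_ (hfin _)
    · rintro ⟨l, l'⟩ ⟨hl, hl'⟩
      refine ⟨?_, ?_, ?_⟩
      · show (l ++ l').length = _
        rw [List.length_append, hl.1, hl'.1]
        ring
      · intro f hf
        rcases List.mem_append.1 hf with h | h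
        · exact hl.2.1 f h
        · exact hl'.2.1 f h
      · show (l ++ l').prod ∈ N
        rw [List.prod_append]
        exact N.mul_mem hl.2.2 hl'.2.2
    · rintro ⟨l, l'⟩ ⟨hl, hl'⟩ ⟨k, k'⟩ ⟨hk, hk'⟩ h
      have h1 : l.length = k.length := by rw [hl.1, hk.1]
      have h2 := List.append_inj h h1
      exact Prod.ext h2.1 h2.2

end

theorem grow {G : Type} [Group G] (S : Finset G) {T : ℕ → Subgroup G} (hT : Chain T) (m : ℕ)
    (hm : 1 ≤ m) (hD : Decodable S (T m)) :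
    ∃ ell κ C : ℕ, 1 ≤ C ∧ ∀ (r : ℕ) (ε : ℝ), 0 < ε → ∃ L : ℕ, 0 < L ∧ ∀ n : ℕ,
      (((ball S r ∩ (T 1 : Set G)).ncard : ℝ) * Real.exp (-ε) / (C * (r + 1) ^ κ)) ^ (n * L) ≤
        ((ball S (n * L * (r + ell)) ∩ (T m : Set G)).ncard : ℝ) := by
  classical
  obtain ⟨c, ell, κ, C, hc1, hc2, hc3⟩ := hD
  have hC : (0 : ℝ) < ((C + 1 : ℕ) : ℝ) := by positivity
  refine ⟨ell, κ, C + 1, by omega, ?_⟩
  intro r ε hε
  have hfin : (ball S r ∩ (T 1 : Set G)).Finite :=
    (ball_finite S r).subset Set.inter_subset_left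
  have hmem : ∀ a : G, a ∈ hfin.toFinset ↔ a ∈ ball S r ∧ a ∈ T 1 := fun a => by
    rw [Set.Finite.mem_toFinset]
    exact Iff.rfl
  obtain ⟨L, hL, hk⟩ := kesten hT hfin.toFinset (fun a ha => ((hmem a).1 ha).2)
    (fun a ha => (hmem _).2 ⟨ball_inv ((hmem a).1 ha).1, (T 1).inv_mem ((hmem a).1 ha).2⟩)
    ⟨1, (hmem 1).2 ⟨one_mem_ball S r, (T 1).one_mem⟩⟩ m hm ε hε
  refine ⟨L, hL, ?_⟩
  intro n
  rw [← Set.ncard_eq_toFinset_card _ hfin] at hk
  have hD : (0 : ℝ) < ((C + 1 : ℕ) : ℝ) * ((r : ℝ) + 1) ^ κ := by positivity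
  have e1 : (((ball S r ∩ (T 1 : Set G)).ncard : ℝ) * Real.exp (-ε) /
      (((C + 1 : ℕ) : ℝ) * ((r : ℝ) + 1) ^ κ)) ^ (n * L) =
      (((ball S r ∩ (T 1 : Set G)).ncard : ℝ) ^ L * Real.exp (-(ε * L))) ^ n /
      (((C + 1 : ℕ) : ℝ) * ((r : ℝ) + 1) ^ κ) ^ (n * L) := by
    have e2 : Real.exp (-(ε * L)) = Real.exp (-ε) ^ L := by
      rw [← Real.exp_nat_mul]
      congr 1
      ring
    rw [e2, div_pow, ← mul_pow, ← pow_mul, mul_comm L n]
  rw [e1, div_le_iff₀ (pow_pos hD _)]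
  have h1 : (((ball S r ∩ (T 1 : Set G)).ncard : ℝ) ^ L * Real.exp (-(ε * L))) ^ n ≤
      (({l : List G | l.length = L ∧ (∀ f ∈ l, f ∈ hfin.toFinset) ∧
        l.prod ∈ T m}.ncard : ℝ)) ^ n :=
    pow_le_pow_left₀ (by positivity) hk n
  have h2 := concat hfin.toFinset (T m) L n
  have h3 : {l : List G | l.length = n * L ∧ (∀ f ∈ l, f ∈ hfin.toFinset) ∧
      l.prod ∈ T m}.ncard ≤ {l : List G | l.length = n * L ∧ (∀ f ∈ l, f ∈ ball S r) ∧
      l.prod ∈ T m}.ncard := by
    apply Set.ncard_le_ncard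
    · rintro l ⟨a, b, d⟩
      exact ⟨a, fun f hf => ((hmem f).1 (b f hf)).1, d⟩
    · exact (lists_finite (ball S r) (ball_finite S r) (n * L)).subset
        (fun l hl => ⟨hl.1, hl.2.1⟩)
  have h4 := count S (T m) (hT.normal m) c ell κ C hc1 hc2 hc3 r (n * L)
  have h5 : (C * (r + 1) ^ κ) ^ (n * L) ≤ ((C + 1) * (r + 1) ^ κ) ^ (n * L) :=
    Nat.pow_le_pow_left (Nat.mul_le_mul_right _ (Nat.le_succ C)) _
  have h6 := (h2.trans h3).trans (h4.trans (Nat.mul_le_mul_left _ h5))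
  have h7 : (({l : List G | l.length = L ∧ (∀ f ∈ l, f ∈ hfin.toFinset) ∧
        l.prod ∈ T m}.ncard : ℝ)) ^ n ≤
      ((ball S (n * L * (r + ell)) ∩ (T m : Set G)).ncard : ℝ) *
        (((C + 1 : ℕ) : ℝ) * ((r : ℝ) + 1) ^ κ) ^ (n * L) := by
    exact_mod_cast h6
  exact h1.trans h7


theorem half {G : Type} [Group G] (S : Finset G) {T : ℕ → Subgroup G} (hT : Chain T) (m : ℕ)
    (hm : 1 ≤ m) (hD : Decodable S (T m)) :
    ∃ ell κ C : ℕ, 1 ≤ C ∧ ∀ r : ℕ,
      ((ball S r).ncard : ℝ) ≤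
        (C * (r + 1) ^ κ) ^ 2 * ((ball S (2 * (r + ell)) ∩ (T m : Set G)).ncard : ℝ) := by
  classical
  obtain ⟨c, ell, κ, C, hc1, hc2, hc3⟩ := hD
  refine ⟨ell, κ, C + 1, by omega, ?_⟩
  intro r
  have h4 := count S (T m) (hT.normal m) c ell κ C hc1 hc2 hc3 r 2
  have h5 : (C * (r + 1) ^ κ) ^ 2 ≤ ((C + 1) * (r + 1) ^ κ) ^ 2 :=
    Nat.pow_le_pow_left (Nat.mul_le_mul_right _ (Nat.le_succ C)) _
  have h3 : (ball S r).ncard ≤ {l : List G | l.length = 2 ∧ (∀ f ∈ l, f ∈ ball S r) ∧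
      l.prod ∈ T m}.ncard := by
    refine Set.ncard_le_ncard_of_injOn (fun x : G => [x, x⁻¹]) ?_ ?_ ?_
    · intro x hx
      refine ⟨rfl, ?_, ?_⟩
      · intro f hf
        rcases List.mem_cons.1 hf with h | h
        · rw [h]
          exact hx
        · rcases List.mem_cons.1 h with h | h
          · rw [h]
            exact ball_inv hx
          · simp at h
      · show [x, x⁻¹].prod ∈ T m
        have : [x, x⁻¹].prod = 1 := by simp
        rw [this]
        exact (T m).one_mem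
    · intro x _ y _ h
      exact (List.cons.inj h).1
    · exact (lists_finite (ball S r) (ball_finite S r) 2).subset
        (fun l hl => ⟨hl.1, hl.2.1⟩)
  have h6 := h3.trans (h4.trans (Nat.mul_le_mul_left _ h5))
  rw [mul_comm]
  exact_mod_cast h6


end Pool.Agent.LDJ
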