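import Pool.Agent.LDJ.CDef

/-!
LDJ.Kesten: many tuples have product in `T m` (solvable quotients are amenable).

PROOF. Work with finite symmetric families: a `Fintype ι`, `a : ι → G`, an involution
`inv : ι → ι` with `a (inv i) = (a i)⁻¹`.
(1) One step. Let all `a i ∈ T k`, `k ≥ 1`, `ι` nonempty, `ε > 0`. Then for all large `l` the
number of `2l`-tuples with product in `T (k+1)` is at least `|ι|^(2l) e^(-2lε)`. Indeed the class
modulo `T (k+1)` of the product of an `l`-tuple depends only on how often each `i` occurs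
(the images of the `a i` in the quotient commute, by `comm`, `T (k+1)` is normal), so there are at
most `(l+1)^|ι|` classes; by Cauchy-Schwarz the number of pairs `(f,f')` of `l`-tuples with the same
class is at least `|ι|^(2l)/(l+1)^|ι|`; the `2l`-tuple `f_1..f_l, inv f'_l .. inv f'_1` has product
in `T (k+1)`, and the map (pair -> tuple) is injective.
(2) Iterate: claim for every `m ≥ 1`: for every finite symmetric nonempty family in `T 1` and
`ε > 0` there is `L > 0` with #(L-tuples with product in `T m`) ≥ `|ι|^L e^(-εL)`. `m = 1`: `L = 1`.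
`m → m+1`: take `L_1` for `m` and `ε/2`; let `ι_1` be the set of `L_1`-tuples with product in `T m`
(symmetric: reverse and apply `inv`), apply (1) to `ι_1` with `ε/2` to get `L_2`; concatenation
maps `L_2`-tuples of elements of `ι_1` injectively to `L_1 L_2`-tuples of elements of `ι`. Then
`≥ |ι_1|^(L_2) e^(-εL_2/2) ≥ |ι|^(L_1L_2) e^(-εL_1L_2/2) e^(-εL_2/2) ≥ |ι|^L e^(-εL)`, `L = L_1L_2`.
(3) Apply with `ι = A` (a subtype), lists of length `L` over `A` = functions `Fin L → A`.
The lemmas `perm_of_cnt`, `div_mem_of_cnt`, `exists_large` of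
`Pool.Agent.Hhelper67.Johnson.FreeWords` may be imitated. About 200 lines.
-/

namespace Pool.Agent.LDJ

open Pool.Agent.Hhelper67.Johnson

namespace Kes

variable {G : Type} [Group G]

/-- lists of length `L` with product in `H` -/
abbrev WW {ι : Type} (a : ι → G) (L : ℕ) (H : Subgroup G) : Type :=
  {l : List ι // l.length = L ∧ (l.map a).prod ∈ H}

instance {ι : Type} [Finite ι] (a : ι → G) (L : ℕ) (H : Subgroup G) : Finite (WW a L H) :=
  ((List.finite_length_eq ι L).subset (fun _ h => h.1) :
    {l : List ι | l.length = L ∧ (l.map a).prod ∈ H}.Finite)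

lemma prod_rev {ι : Type} (a : ι → G) (inv : ι → ι) (ha : ∀ i, a (inv i) = (a i)⁻¹)
    (v : List ι) : (((v.map inv).reverse).map a).prod = ((v.map a).prod)⁻¹ := by
  rw [List.map_reverse, List.map_map, List.prod_inv_reverse, List.map_map]
  congr 3
  funext i
  exact ha i

lemma div_mem {ι : Type} {a : ι → G} {K K' : Subgroup G} (hn : K'.Normal)
    (hcomm : ∀ z ∈ K, ∀ w ∈ K, z * w * z⁻¹ * w⁻¹ ∈ K') (haK : ∀ i, a i ∈ K)
    {u v : List ι} (h : u.Perm v) : (u.map a).prod * ((v.map a).prod)⁻¹ ∈ K' := by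
  have key : (QuotientGroup.mk' K') (u.map a).prod = (QuotientGroup.mk' K') (v.map a).prod := by
    rw [map_list_prod, map_list_prod, List.map_map, List.map_map]
    apply List.Perm.prod_eq'
    · exact h.map _
    · rw [List.pairwise_map]
      apply List.pairwise_of_forall
      intro i j
      change _ * _ = _ * _
      simp only [Function.comp]
      rw [← map_mul, ← map_mul]
      have h1 := hcomm _ (haK i) _ (haK j)
      rw [QuotientGroup.mk'_eq_mk']
      refine ⟨(a i * a j)⁻¹ * (a j * a i), ?_, by group⟩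
      have h2 := hn.conj_mem _ (K'.inv_mem h1) ((a i * a j)⁻¹)
      convert h2 using 1
      group
  rw [← QuotientGroup.eq_one_iff]
  change (QuotientGroup.mk' K') _ = 1
  rw [map_mul, map_inv, key, mul_inv_cancel]

lemma step {ι : Type} [Finite ι] [Nonempty ι] (a : ι → G) (inv : ι → ι)
    (hinv : Function.Injective inv) (ha : ∀ i, a (inv i) = (a i)⁻¹) {K K' : Subgroup G}
    (hn : K'.Normal) (hcomm : ∀ z ∈ K, ∀ w ∈ K, z * w * z⁻¹ * w⁻¹ ∈ K') (haK : ∀ i, a i ∈ K)
    {ε : ℝ} (hε : 0 < ε) :
    ∃ L : ℕ, 0 < L ∧ (Nat.card ι : ℝ) ^ L * Real.exp (-(ε * L)) ≤ Nat.card (WW a L K') := by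
  classical
  cases nonempty_fintype ι
  obtain ⟨n, hn0, hnl⟩ := exists_large (c := 2 * ε) (by positivity) (2 * Fintype.card ι) 0
    (by positivity)
  refine ⟨n + n, by omega, ?_⟩
  let κ : List.Vector ι n → (ι → Fin (n + 1)) := fun v i => ⟨v.1.count i, by
    have h1 := List.count_le_length (a := i) (l := v.1)
    have h2 := v.2
    omega⟩
  have hcod : Fintype.card (ι → Fin (n + 1)) = (n + 1) ^ Fintype.card ι := by simp
  have hcodpos : (0 : ℝ) < ((n : ℝ) + 1) ^ Fintype.card ι := by positivity
  obtain ⟨c, hc⟩ := Fintype.exists_le_card_fiber_of_nsmul_le_card (M := ℝ) κ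
    (b := (Fintype.card ι : ℝ) ^ n / ((n : ℝ) + 1) ^ Fintype.card ι) (by
      rw [hcod, nsmul_eq_mul, card_vector]
      push_cast
      rw [mul_div_cancel₀ _ hcodpos.ne'])
  set F : Finset (List.Vector ι n) := Finset.univ.filter fun v => κ v = c with hF
  have hperm : ∀ u ∈ F, ∀ v ∈ F, u.1.Perm v.1 := by
    intro u hu v hv
    rw [hF, Finset.mem_filter] at hu hv
    rw [List.perm_iff_count]
    intro i
    have h1 := congrArg Fin.val (congrFun (hu.2.trans hv.2.symm) i)
    exact h1
  have hcard : F.card * F.card ≤ Nat.card (WW a (n + n) K') := by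
    let Φ : F × F → WW a (n + n) K' := fun q =>
      ⟨q.1.1.1 ++ (q.2.1.1.map inv).reverse, by
        rw [List.length_append, List.length_reverse, List.length_map, q.1.1.2, q.2.1.2], by
        rw [List.map_append, List.prod_append, prod_rev a inv ha]
        exact div_mem hn hcomm haK (hperm _ q.1.2 _ q.2.2)⟩
    have hΦ : Function.Injective Φ := by
      rintro ⟨u, v⟩ ⟨u', v'⟩ h
      have h1 := congrArg Subtype.val h
      have h2 := List.append_inj h1 (by rw [u.1.2, u'.1.2])
      refine Prod.ext (Subtype.ext (Subtype.ext h2.1)) (Subtype.ext (Subtype.ext ?_))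
      exact List.map_injective_iff.2 hinv (List.reverse_injective h2.2)
    have h1 := Nat.card_le_card_of_injective Φ hΦ
    rwa [Nat.card_prod, Nat.card_eq_fintype_card, Fintype.card_coe] at h1
  have hc' : (Fintype.card ι : ℝ) ^ n / ((n : ℝ) + 1) ^ Fintype.card ι ≤ F.card := hc
  have h0 : (0 : ℝ) ≤ (Fintype.card ι : ℝ) ^ n / ((n : ℝ) + 1) ^ Fintype.card ι := by positivity
  have h1 : ((Fintype.card ι : ℝ) ^ n / ((n : ℝ) + 1) ^ Fintype.card ι) *
      ((Fintype.card ι : ℝ) ^ n / ((n : ℝ) + 1) ^ Fintype.card ι) ≤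
      (Nat.card (WW a (n + n) K') : ℝ) := by
    have h2 : ((F.card * F.card : ℕ) : ℝ) ≤ (Nat.card (WW a (n + n) K') : ℝ) := by
      exact_mod_cast hcard
    push_cast at h2
    exact (mul_le_mul hc' hc' h0 (Nat.cast_nonneg _)).trans h2
  refine le_trans ?_ h1
  have h3 : Real.exp (-(ε * ((n + n : ℕ) : ℝ))) ≤
      (((n : ℝ) + 1) ^ Fintype.card ι * ((n : ℝ) + 1) ^ Fintype.card ι)⁻¹ := by
    rw [← pow_add, Real.exp_neg]
    apply inv_anti₀ (by positivity)
    have h4 : ((n : ℝ) + 1) ^ (Fintype.card ι + Fintype.card ι) =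
        Real.exp (2 * Fintype.card ι * Real.log (n + 1)) := by
      rw [← Real.rpow_natCast, Real.rpow_def_of_pos (by positivity)]
      congr 1
      push_cast
      ring
    rw [h4]
    apply Real.exp_le_exp.2
    push_cast
    linarith
  rw [Nat.card_eq_fintype_card]
  calc (Fintype.card ι : ℝ) ^ (n + n) * Real.exp (-(ε * ((n + n : ℕ) : ℝ)))
      ≤ (Fintype.card ι : ℝ) ^ (n + n) *
        (((n : ℝ) + 1) ^ Fintype.card ι * ((n : ℝ) + 1) ^ Fintype.card ι)⁻¹ :=
        mul_le_mul_of_nonneg_left h3 (by positivity)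
    _ = _ := by
        rw [pow_add]
        field_simp

lemma flatten_inj {ι : Type} {k : ℕ} : ∀ {u v : List (List ι)}, u.length = v.length →
    (∀ x ∈ u, x.length = k) → (∀ x ∈ v, x.length = k) → u.flatten = v.flatten → u = v := by
  intro u
  induction u with
  | nil =>
    intro v hl _ _ _
    exact (List.length_eq_zero_iff.1 hl.symm).symm
  | cons x u ih =>
    intro v hl hu hv h
    cases v with
    | nil => simp at hl
    | cons y v =>
      rw [List.flatten_cons, List.flatten_cons] at h
      have h1 := List.append_inj h (by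
        rw [hu x (List.mem_cons_self), hv y (List.mem_cons_self)])
      rw [h1.1, ih (by simpa using hl) (fun z hz => hu z (List.mem_cons_of_mem _ hz))
        (fun z hz => hv z (List.mem_cons_of_mem _ hz)) h1.2]

lemma prod_flatten {ι : Type} (a : ι → G) (u : List (List ι)) :
    (u.flatten.map a).prod = (u.map fun l => (l.map a).prod).prod := by
  induction u with
  | nil => simp
  | cons x u ih =>
    rw [List.flatten_cons, List.map_append, List.prod_append, ih, List.map_cons, List.prod_cons]

lemma length_flatten {ι : Type} {k : ℕ} (u : List (List ι)) (hu : ∀ x ∈ u, x.length = k) :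
    u.flatten.length = k * u.length := by
  induction u with
  | nil => simp
  | cons x u ih =>
    rw [List.flatten_cons, List.length_append, List.length_cons,
      hu x (List.mem_cons_self), ih fun z hz => hu z (List.mem_cons_of_mem _ hz)]
    ring

lemma claim {T : ℕ → Subgroup G} (hT : Chain T) {m : ℕ} (hm : 1 ≤ m) :
    ∀ {ι : Type} [Finite ι] [Nonempty ι] (a : ι → G) (inv : ι → ι), Function.Injective inv →
      (∀ i, a (inv i) = (a i)⁻¹) → (∀ i, a i ∈ T 1) → ∀ ε : ℝ, 0 < ε →
      ∃ L : ℕ, 0 < L ∧ (Nat.card ι : ℝ) ^ L * Real.exp (-(ε * L)) ≤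
        Nat.card (WW a L (T m)) := by
  induction m, hm using Nat.le_induction with
  | base =>
    intro ι _ _ a inv _ _ haT ε hε
    refine ⟨1, one_pos, ?_⟩
    let Φ : ι → WW a 1 (T 1) := fun i => ⟨[i], rfl, by simpa using haT i⟩
    have hΦ : Function.Injective Φ := by
      intro i j h
      have h1 := congrArg Subtype.val h
      simpa [Φ] using h1
    have h1 := Nat.card_le_card_of_injective Φ hΦ
    have h2 : (Nat.card ι : ℝ) ≤ Nat.card (WW a 1 (T 1)) := by exact_mod_cast h1
    refine le_trans ?_ h2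
    rw [pow_one]
    apply mul_le_of_le_one_right (Nat.cast_nonneg _)
    rw [Real.exp_le_one_iff]
    push_cast
    linarith
  | succ m hm ih =>
    intro ι _ _ a inv hinv ha haT ε hε
    obtain ⟨L1, hL1, h1⟩ := ih a inv hinv ha haT (ε / 2) (by positivity)
    have hpos : (0 : ℝ) < Nat.card ι := by exact_mod_cast Nat.card_pos
    have hne : Nonempty (WW a L1 (T m)) := by
      have h2 : (0 : ℝ) < Nat.card (WW a L1 (T m)) := lt_of_lt_of_le (by positivity) h1
      have h3 : 0 < Nat.card (WW a L1 (T m)) := by exact_mod_cast h2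
      exact (Nat.card_pos_iff.1 h3).1
    let a1 : WW a L1 (T m) → G := fun l => (l.1.map a).prod
    let inv1 : WW a L1 (T m) → WW a L1 (T m) := fun l =>
      ⟨(l.1.map inv).reverse, by rw [List.length_reverse, List.length_map, l.2.1], by
        rw [prod_rev a inv ha]
        exact (T m).inv_mem l.2.2⟩
    have hinv1 : Function.Injective inv1 := by
      intro u v h
      have h2 := congrArg Subtype.val h
      exact Subtype.ext (List.map_injective_iff.2 hinv (List.reverse_injective h2))
    obtain ⟨L2, hL2, h2⟩ := step a1 inv1 hinv1 (fun l => prod_rev a inv ha l.1)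
      (hT.normal (m + 1)) (hT.comm m hm) (fun l => l.2.2) (ε := ε / 2) (by positivity)
    refine ⟨L1 * L2, Nat.mul_pos hL1 hL2, ?_⟩
    let Φ : WW a1 L2 (T (m + 1)) → WW a (L1 * L2) (T (m + 1)) := fun w =>
      ⟨(w.1.map Subtype.val).flatten, by
        rw [length_flatten (k := L1), List.length_map, w.2.1]
        intro x hx
        obtain ⟨y, -, rfl⟩ := List.mem_map.1 hx
        exact y.2.1, by
        rw [prod_flatten, List.map_map]
        exact w.2.2⟩
    have hΦ : Function.Injective Φ := by
      intro u v h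
      have h3 := congrArg Subtype.val h
      have h4 : u.1.map Subtype.val = v.1.map Subtype.val := by
        refine flatten_inj (k := L1) ?_ ?_ ?_ h3
        · rw [List.length_map, List.length_map, u.2.1, v.2.1]
        · intro x hx
          obtain ⟨y, -, rfl⟩ := List.mem_map.1 hx
          exact y.2.1
        · intro x hx
          obtain ⟨y, -, rfl⟩ := List.mem_map.1 hx
          exact y.2.1
      exact Subtype.ext (List.map_injective_iff.2 Subtype.val_injective h4)
    have h3 := Nat.card_le_card_of_injective Φ hΦ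
    have h4 : (Nat.card (WW a1 L2 (T (m + 1))) : ℝ) ≤
        Nat.card (WW a (L1 * L2) (T (m + 1))) := by exact_mod_cast h3
    refine le_trans ?_ (h2.trans h4)
    have h5 : ((Nat.card ι : ℝ) ^ L1 * Real.exp (-(ε / 2 * L1))) ^ L2 ≤
        (Nat.card (WW a L1 (T m)) : ℝ) ^ L2 := pow_le_pow_left₀ (by positivity) h1 L2
    refine le_trans ?_ (mul_le_mul_of_nonneg_right h5 (Real.exp_nonneg _))
    rw [mul_pow, ← pow_mul, ← Real.exp_nat_mul, mul_assoc, ← Real.exp_add]
    apply mul_le_mul_of_nonneg_left _ (by positivity)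
    apply Real.exp_le_exp.2
    push_cast
    have h6 : (1 : ℝ) ≤ L1 := by exact_mod_cast hL1
    have h7 : (0 : ℝ) ≤ L2 := Nat.cast_nonneg _
    have h8 : ε * L2 ≤ ε * L2 * L1 := le_mul_of_one_le_right (by positivity) h6
    nlinarith

end Kes

theorem kesten {G : Type} [Group G] {T : ℕ → Subgroup G} (hT : Chain T) (A : Finset G)
    (hA : ∀ a ∈ A, a ∈ T 1) (hs : ∀ a ∈ A, a⁻¹ ∈ A) (h1 : A.Nonempty) (m : ℕ) (hm : 1 ≤ m)
    (ε : ℝ) (hε : 0 < ε) :
    ∃ L : ℕ, 0 < L ∧ (A.card : ℝ) ^ L * Real.exp (-(ε * L)) ≤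
      ({l : List G | l.length = L ∧ (∀ f ∈ l, f ∈ A) ∧ l.prod ∈ T m}.ncard : ℝ) := by
  have : Nonempty A := h1.to_subtype
  obtain ⟨L, hL, h2⟩ := Kes.claim hT hm (ι := A) (fun x => x.1) (fun x => ⟨x.1⁻¹, hs x.1 x.2⟩)
    (fun x y h => Subtype.ext (inv_injective (congrArg Subtype.val h))) (fun _ => rfl)
    (fun x => hA x.1 x.2) ε hε
  refine ⟨L, hL, ?_⟩
  rw [Nat.card_eq_fintype_card, Fintype.card_coe] at h2
  refine h2.trans ?_
  have hfin : {l : List G | l.length = L ∧ (∀ f ∈ l, f ∈ A) ∧ l.prod ∈ T m}.Finite := by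
    refine ((List.finite_length_eq A L).image (List.map Subtype.val)).subset ?_
    rintro l ⟨hl, hlA, -⟩
    refine ⟨l.attach.map fun x => ⟨x.1, hlA x.1 x.2⟩, ?_, ?_⟩
    · change List.length _ = L
      rw [List.length_map, List.length_attach, hl]
    · rw [List.map_map]
      exact List.attach_map_subtype_val l
  have h3 : Nat.card (Kes.WW (fun x : A => x.1) L (T m)) ≤
      {l : List G | l.length = L ∧ (∀ f ∈ l, f ∈ A) ∧ l.prod ∈ T m}.ncard := by
    rw [← Nat.card_coe_set_eq]
    have : Finite {l : List G | l.length = L ∧ (∀ f ∈ l, f ∈ A) ∧ l.prod ∈ T m} := hfin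
    refine Nat.card_le_card_of_injective (fun w => ⟨w.1.map Subtype.val, ?_, ?_, w.2.2⟩) ?_
    · rw [List.length_map, w.2.1]
    · intro f hf
      obtain ⟨y, -, rfl⟩ := List.mem_map.1 hf
      exact y.2
    · intro u v h
      have h4 := congrArg Subtype.val h
      exact Subtype.ext (List.map_injective_iff.2 Subtype.val_injective h4)
  exact_mod_cast h3

end Pool.Agent.LDJ
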