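import Mathlib

/-!
LDJ, PART II: abstract annular projections (interface).

`Proj G Y ι`: a group `G` acting on a set `Y` of annuli, a crossing relation, projection
distances `d y x z` (meaningful when `x` and `z` cross `y`), with quasi triangle inequality,
Behrstock inequality, a finite family `base i` of annuli that fills (every annulus is crossed by
some `base i`), twists `T i` about `base i`, boundedness of non-crossing families, and finiteness
of the common stabiliser of the base annuli.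
-/

namespace Pool.Agent.LDJ

structure Proj (G Y ι : Type) [Group G] [MulAction G Y] [Fintype ι] where
  /-- crossing -/
  cr : Y → Y → Prop
  /-- `d y x z` : distance of the projections of `x` and `z` to `y` -/
  d : Y → Y → Y → ℕ
  B : ℕ
  cr_symm : ∀ x y, cr x y → cr y x
  cr_irrefl : ∀ x, ¬ cr x x
  cr_smul : ∀ (g : G) x y, cr x y → cr (g • x) (g • y)
  d_symm : ∀ y x z, d y x z = d y z x
  d_smul : ∀ (g : G) y x z, d (g • y) (g • x) (g • z) = d y x z
  d_tri : ∀ y x v z, cr x y → cr v y → cr z y → d y x z ≤ d y x v + d y v z + B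
  d_nc : ∀ y x z, cr x y → cr z y → ¬ cr x z → d y x z ≤ B
  behr : ∀ x y z, cr x y → cr z x → cr z y → d y z x ≤ B ∨ d x z y ≤ B
  base : ι → Y
  fill : ∀ y, ∃ i, cr (base i) y
  nu : ℕ
  nc_card : ∀ s : Finset Y, (∀ x ∈ s, ∀ y ∈ s, ¬ cr x y) → s.card ≤ nu
  lip : ∀ g : G, ∃ D : ℕ, ∀ y i j, cr (base i) y → cr (g • base j) y →
    d y (base i) (g • base j) ≤ D
  T : ι → G
  T_fix : ∀ i, T i • base i = base i
  T_tw : ∀ i x (n : ℤ), cr x (base i) → n.natAbs ≤ d (base i) x ((T i) ^ n • x) + B
  T_comm : ∀ i (g : G), g • base i = base i → g * T i * g⁻¹ = T i ∨ g * T i * g⁻¹ = (T i)⁻¹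
  stab_fin : {g : G | ∀ i, g • base i = base i}.Finite
  conn : ∀ i j, Relation.TransGen (fun a b => cr (base a) (base b)) i j

namespace Proj

variable {G Y ι : Type} [Group G] [MulAction G Y] [Fintype ι] (P : Proj G Y ι)

/-- a walk: a word in the twists, consecutive letters crossing, exponents non zero -/
def IsWalk (w : List (ι × ℤ)) : Prop :=
  (∀ p ∈ w, p.2 ≠ 0) ∧ List.IsChain (fun p q : ι × ℤ => P.cr (P.base p.1) (P.base q.1)) w

/-- the group element of a word, all exponents multiplied by `M` -/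
def val (M : ℤ) (w : List (ι × ℤ)) : G := (w.map fun p => P.T p.1 ^ (M * p.2)).prod

/-- the annuli (markers) met by a word -/
def marks (M : ℤ) : List (ι × ℤ) → List Y
  | [] => []
  | p :: w => P.base p.1 :: (marks M w).map (fun y => (P.T p.1 ^ (M * p.2)) • y)

/-- consecutive triples of a list of annuli have large projections -/
def Tri (M : ℕ) : List Y → Prop
  | x :: y :: z :: l => M ≤ P.d y x z ∧ Tri M (y :: z :: l)
  | _ => True

/-- consecutive members of a list of annuli cross -/
def Crs (l : List Y) : Prop := List.IsChain P.cr l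

/-- sign -/
def sg (b : Bool) : ℤ := if b then 1 else -1

/-- connector data -/
structure Conn (N : Subgroup G) (M0 : ℕ) where
  b : ι
  nb : ι → ι
  M : ℤ
  w : ι → Bool → Bool → List (ι × ℤ)
  a : G → ι
  ep : G → Bool
  de : G → Bool
  cr_nb : ∀ i, P.cr (P.base i) (P.base (nb i))
  walk : ∀ i ε δ, P.IsWalk (w i ε δ)
  head : ∀ i ε δ, ∃ u, w i ε δ = (i, sg ε) :: (nb i, 1) :: u
  last : ∀ i ε δ, ∃ u e, w i ε δ = u ++ [(nb b, e), (b, sg δ)]
  all : ∀ i ε δ j, ∃ e, (j, e) ∈ w i ε δ
  mem : ∀ i ε δ, P.val M (w i ε δ) ∈ N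
  inner : ∀ i j k (e : ℤ), P.cr (P.base i) (P.base j) → P.cr (P.base j) (P.base k) → e ≠ 0 →
    M0 ≤ P.d (P.base j) (P.base i) ((P.T j ^ (M * e)) • P.base k)
  c0 : ∀ f, P.cr (f • P.base (a f)) (P.base b)
  c1 : ∀ f, M0 ≤ P.d (P.base (a f)) (f⁻¹ • P.base b)
    ((P.T (a f) ^ (M * sg (ep f))) • P.base (nb (a f)))
  c2 : ∀ f, M0 ≤ P.d (P.base b) (P.base (nb b))
    ((P.T b ^ (M * sg (de f))) • f • P.base (a f))

namespace Conn

variable {P} {N : Subgroup G} {M0 : ℕ} (K : P.Conn N M0)

/-- the walk between `f` and `f'` -/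
def ww (f f' : G) : List (ι × ℤ) := K.w (K.a f) (K.ep f) (K.de f')

/-- the connector between `f` and `f'` -/
def c (f f' : G) : G := P.val K.M (K.ww f f')

/-- all markers of the word `f_1 c(f_1,f_2) f_2 ... f_L c(f_L,1)` -/
def mks : List G → List Y
  | [] => []
  | f :: l => (P.marks K.M (K.ww f (l.headD 1))).map (fun y => f • y) ++
      (mks l).map (fun y => (f * K.c f (l.headD 1)) • y)

end Conn

end Proj

end Pool.Agent.LDJ
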