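import Pool.Agent.LDJ.PLG

/-!
LDJ.PEnd: projections of the end points of a chain of annuli.

PROOF of `end1`: induction on `j`. `j = 1`: `hc`. `j ≥ 2`: if `¬ cr c y_(j-1)` then
`d y_j c y_(j-1) ≤ B` by `d_nc` (`y_(j-1)` crosses `y_j`). If `cr c y_(j-1)`: `behr` with
`x = y_(j-1)`, `y = y_j`, `z = c`: `d y_j c y_(j-1) ≤ B` or `d y_(j-1) c y_j ≤ B`; in the second
case, by induction `d y_(j-1) c y_(j-2) ≤ B + D`, so
`M ≤ d y_(j-1) y_(j-2) y_j ≤ (B + D) + B + B`, contradiction.
PROOF of `end2`: `end1` for `y` and `c`, and `end1` for the reversed chain `i ↦ y (n - i)` and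
`c'` give `d y_j c y_(j-1) ≤ B + D`, `d y_j c' y_(j+1) ≤ B + D`; then `d_tri` twice from
`M ≤ d y_j y_(j-1) y_(j+1)`. About 100 lines.
-/

namespace Pool.Agent.LDJ

variable {G Y ι : Type} [Group G] [MulAction G Y] [Fintype ι]

theorem Proj.end1 (P : Proj G Y ι) {M n D : ℕ}
    (hM : 5 * P.B + D < M) (y : ℕ → Y)
    (h1 : ∀ i, i < n → P.cr (y i) (y (i + 1)))
    (h2 : ∀ i, 0 < i → i < n → M ≤ P.d (y i) (y (i - 1)) (y (i + 1)))
    (c : Y) (hc : 1 ≤ n → P.cr c (y 1) → P.d (y 1) c (y 0) ≤ D) :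
    ∀ j, 1 ≤ j → j ≤ n → P.cr c (y j) → P.d (y j) c (y (j - 1)) ≤ P.B + D := by
  intro j hj1
  induction j, hj1 using Nat.le_induction with
  | base =>
    intro hn hcr
    have := hc hn hcr
    simp only [Nat.sub_self]
    omega
  | succ j hj ih =>
    intro hn hcr
    rw [Nat.add_sub_cancel]
    have hc1 : P.cr (y j) (y (j + 1)) := h1 j (by omega)
    by_cases hcj : P.cr c (y j)
    · rcases P.behr (y j) (y (j + 1)) c hc1 hcj hcr with h | h
      · omega
      · exfalso
        have e1 := ih (by omega) hcj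
        have e2 := h2 j (by omega) (by omega)
        have hc0 : P.cr (y (j - 1)) (y j) := by
          have := h1 (j - 1) (by omega)
          rwa [Nat.sub_add_cancel hj] at this
        have e3 := P.d_tri (y j) (y (j - 1)) c (y (j + 1)) hc0 hcj (P.cr_symm _ _ hc1)
        rw [P.d_symm (y j) (y (j - 1)) c] at e3
        omega
    · have := P.d_nc (y (j + 1)) c (y j) hcr hc1 hcj
      omega

theorem Proj.end2 (P : Proj G Y ι) {M n D : ℕ}
    (hM : 5 * P.B + D < M) (y : ℕ → Y)
    (h1 : ∀ i, i < n → P.cr (y i) (y (i + 1)))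
    (h2 : ∀ i, 0 < i → i < n → M ≤ P.d (y i) (y (i - 1)) (y (i + 1)))
    (c c' : Y) (hc : 1 ≤ n → P.cr c (y 1) → P.d (y 1) c (y 0) ≤ D)
    (hc' : 1 ≤ n → P.cr c' (y (n - 1)) → P.d (y (n - 1)) c' (y n) ≤ D) :
    ∀ j, 1 ≤ j → j < n → P.cr c (y j) → P.cr c' (y j) →
      M ≤ P.d (y j) c c' + 2 * (P.B + D) + 2 * P.B := by
  intro j hj1 hjn hcj hcj'
  have e1 := P.end1 hM y h1 h2 c hc j hj1 hjn.le hcj
  have e2 := P.end1 (n := n) hM (fun i => y (n - i)) (fun i hi => by
      have := h1 (n - i - 1) (by omega)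
      rw [show n - i - 1 + 1 = n - i by omega, show n - i - 1 = n - (i + 1) by omega] at this
      exact P.cr_symm _ _ this)
    (fun i hi0 hin => by
      have := h2 (n - i) (by omega) (by omega)
      rw [P.d_symm, show n - i + 1 = n - (i - 1) by omega,
        show n - i - 1 = n - (i + 1) by omega] at this
      exact this) c' (fun hn hcr => by
      simpa using hc' hn hcr) (n - j) (by omega) (by omega) (by
      rw [show n - (n - j) = j by omega]
      exact hcj')
  rw [show n - (n - j) = j by omega, show n - (n - j - 1) = j + 1 by omega] at e2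
  have hc0 : P.cr (y (j - 1)) (y j) := by
    have := h1 (j - 1) (by omega)
    rwa [Nat.sub_add_cancel hj1] at this
  have hc2 : P.cr (y (j + 1)) (y j) := P.cr_symm _ _ (h1 j hjn)
  have e3 := P.d_tri (y j) (y (j - 1)) c (y (j + 1)) hc0 hcj hc2
  rw [P.d_symm (y j) (y (j - 1)) c] at e3
  have e4 := P.d_tri (y j) c c' (y (j + 1)) hcj hcj' hc2
  have e5 := h2 j (by omega) hjn
  omega

end Pool.Agent.LDJ
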