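import Pool.Agent.LDJ.PDef

/-!
LDJ.PLG: local-to-global for chains of annuli.

PROOF. Write `y_i = y i`, `B = P.B`, `M_1 = M - 4B > B`. By strong induction on `k - i` prove for
`i < k ≤ n`: (i) `cr y_i y_k`, (ii) for all `j`, `i < j < k`: `M ≤ d y_j y_i y_k + 4B`.
(ii): if `i = j-1` then `d y_j y_(j-1) y_i ≤ B` by `d_nc` (`cr_irrefl`); if `i < j-1` then by `behr`
with `x = y_(j-1)`, `y = y_j`, `z = y_i` (crossings by induction): `d y_j y_i y_(j-1) ≤ B` or
`d y_(j-1) y_i y_j ≤ B`, the second contradicts (ii) for `(i, j-1, j)`. Symmetrically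
`d y_j y_k y_(j+1) ≤ B`. By `d_tri` twice
`M ≤ d y_j y_(j-1) y_(j+1) ≤ B + B + d y_j y_i y_k + B + B`.
(here crossings of `y_i`, `y_(j-1)`, `y_(j+1)`, `y_k` with `y_j` are known by induction.)
(i): if `k = i+1` this is `h1`. Otherwise take `j = i+1`: `y_i, y_k` cross `y_j` (induction); if
`¬ cr y_i y_k` then `d y_j y_i y_k ≤ B` by `d_nc`, contradicting (ii) and `5B < M`.
About 120 lines.
-/

namespace Pool.Agent.LDJ

theorem PLGAux.step {G Y ι : Type} [Group G] [MulAction G Y] [Fintype ι] (P : Proj G Y ι)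
    {M n : ℕ} (hM : 5 * P.B < M) (y : ℕ → Y)
    (h1 : ∀ i, i < n → P.cr (y i) (y (i + 1)))
    (h2 : ∀ i, 0 < i → i < n → M ≤ P.d (y i) (y (i - 1)) (y (i + 1))) (L : ℕ) :
    ∀ i k, i < k → k ≤ n → k - i ≤ L → P.cr (y i) (y k) ∧
      ∀ j, i < j → j < k → M ≤ P.d (y j) (y i) (y k) + 4 * P.B := by
  induction L with
  | zero =>
    intro i k hik _ hL
    omega
  | succ L ih =>
    intro i k hik hkn hL
    have key : ∀ j, i < j → j < k → M ≤ P.d (y j) (y i) (y k) + 4 * P.B := by
      intro j hij hjk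
      have cij := (ih i j hij (by omega) (by omega)).1
      have cjk := (ih j k hjk hkn (by omega)).1
      have cpj : P.cr (y (j - 1)) (y j) := by
        have := h1 (j - 1) (by omega)
        rwa [Nat.sub_add_cancel (by omega)] at this
      have cjs : P.cr (y j) (y (j + 1)) := h1 j (by omega)
      have ha : P.d (y j) (y (j - 1)) (y i) ≤ P.B := by
        by_cases h : i = j - 1
        · rw [h]
          exact P.d_nc _ _ _ cpj cpj (P.cr_irrefl _)
        · have hi : i < j - 1 := by omega
          have c1 := (ih i (j - 1) hi (by omega) (by omega)).1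
          rcases P.behr (y (j - 1)) (y j) (y i) cpj c1 cij with h3 | h3
          · rw [P.d_symm]
            exact h3
          · have := (ih i j hij (by omega) (by omega)).2 (j - 1) hi (by omega)
            omega
      have hb : P.d (y j) (y k) (y (j + 1)) ≤ P.B := by
        by_cases h : k = j + 1
        · rw [h]
          exact P.d_nc _ _ _ (P.cr_symm _ _ cjs) (P.cr_symm _ _ cjs) (P.cr_irrefl _)
        · have hk : j + 1 < k := by omega
          have c1 := (ih (j + 1) k hk hkn (by omega)).1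
          rcases P.behr (y (j + 1)) (y j) (y k) (P.cr_symm _ _ cjs) (P.cr_symm _ _ c1)
            (P.cr_symm _ _ cjk) with h3 | h3
          · exact h3
          · have := (ih j k hjk hkn (by omega)).2 (j + 1) (by omega) hk
            rw [P.d_symm] at this
            omega
      have h3 := h2 j (by omega) (by omega)
      have h4 := P.d_tri (y j) (y (j - 1)) (y i) (y (j + 1)) cpj cij (P.cr_symm _ _ cjs)
      have h5 := P.d_tri (y j) (y i) (y k) (y (j + 1)) cij (P.cr_symm _ _ cjk)
        (P.cr_symm _ _ cjs)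
      omega
    refine ⟨?_, key⟩
    by_cases h : k = i + 1
    · rw [h]
      exact h1 i (by omega)
    · by_contra hc
      have cij := h1 i (by omega)
      have cjk := (ih (i + 1) k (by omega) hkn (by omega)).1
      have h3 := key (i + 1) (by omega) (by omega)
      have h4 := P.d_nc (y (i + 1)) (y i) (y k) cij (P.cr_symm _ _ cjk) hc
      omega

theorem Proj.lg {G Y ι : Type} [Group G] [MulAction G Y] [Fintype ι] (P : Proj G Y ι) {M n : ℕ}
    (hM : 5 * P.B < M) (y : ℕ → Y)
    (h1 : ∀ i, i < n → P.cr (y i) (y (i + 1)))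
    (h2 : ∀ i, 0 < i → i < n → M ≤ P.d (y i) (y (i - 1)) (y (i + 1))) :
    (∀ i k, i < k → k ≤ n → P.cr (y i) (y k)) ∧
    (∀ i j k, i < j → j < k → k ≤ n → M ≤ P.d (y j) (y i) (y k) + 4 * P.B) :=
  ⟨fun i k hik hkn => (PLGAux.step P hM y h1 h2 (k - i) i k hik hkn le_rfl).1,
    fun i j k hij hjk hkn =>
      (PLGAux.step P hM y h1 h2 (k - i) i k (hij.trans hjk) hkn le_rfl).2 j hij hjk⟩

end Pool.Agent.LDJ
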