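import Pool.Agent.LDJ.PDef
import Pool.Agent.Hhelper67.Johnson.Balls

/-!
LDJ.PPt: projections of group elements (`g` stands for the family `g • base i`).

`dd y g h` is the maximum of `d y (g • base i) (h • base j)` over the pairs `(i,j)` for which both
curves cross `y` (by `fill` for `g⁻¹ • y` there are such `i`, `j`).
PROOFS. `dd_smul`: `cr_smul`, `d_smul`. `dd_tri`: pick `i,k` realising `dd y g k`, pick `j` with
`h • base j` crossing `y`, use `d_tri`. `dd_lip`: for one `s` from `lip s` by translating with `g`;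
take the maximum over the finite set `{1} ∪ S ∪ S⁻¹`.
`near_or`: Let `cr y y'`. If some `i0` has `g • base i0` crossing both `y` and `y'`, then by `behr`
(`x = y'`, `y = y`, `z = g • base i0`) one of `d y z y' ≤ B`, `d y' z y ≤ B` holds, say the first;
for any other `i` with `g • base i` crossing `y`:
`d y (g • base i) y' ≤ d y (g • base i) (g • base i0) + d y z y' + B ≤ D + B + B`
(the first term is `≤ dd y g g ≤ D`).
Otherwise, if `g • base i` crosses `y` it does not cross `y'`, so `d y (g • base i) y' ≤ B` by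
`d_nc`. About 150 lines.
-/

namespace Pool.Agent.LDJ

open Pool.Agent.Hhelper67.Johnson

namespace Proj

variable {G Y ι : Type} [Group G] [MulAction G Y] [Fintype ι] (P : Proj G Y ι)

open Classical in
/-- distance of the projections of `g` and `h` to `y` -/
noncomputable def dd (y : Y) (g h : G) : ℕ :=
  (Finset.univ : Finset (ι × ι)).sup fun p =>
    if P.cr (g • P.base p.1) y ∧ P.cr (h • P.base p.2) y then
      P.d y (g • P.base p.1) (h • P.base p.2) else 0

/-- `y'` is near `g` as seen from `y` -/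
def near (K : ℕ) (y y' : Y) (g : G) : Prop :=
  ∀ i, P.cr (g • P.base i) y → P.d y (g • P.base i) y' ≤ K

theorem exists_cr (y : Y) (g : G) : ∃ i, P.cr (g • P.base i) y := by
  obtain ⟨i, hi⟩ := P.fill (g⁻¹ • y)
  refine ⟨i, ?_⟩
  have h := P.cr_smul g _ _ hi
  rwa [smul_inv_smul] at h

theorem le_dd {y : Y} {g h : G} {i j : ι} (h1 : P.cr (g • P.base i) y)
    (h2 : P.cr (h • P.base j) y) : P.d y (g • P.base i) (h • P.base j) ≤ P.dd y g h := by
  classical
  unfold dd
  refine le_trans ?_ (Finset.le_sup (f := fun p : ι × ι =>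
    if P.cr (g • P.base p.1) y ∧ P.cr (h • P.base p.2) y then
      P.d y (g • P.base p.1) (h • P.base p.2) else 0) (Finset.mem_univ (i, j)))
  simp only
  rw [if_pos ⟨h1, h2⟩]

theorem dd_attained (y : Y) (g h : G) : ∃ i j, P.cr (g • P.base i) y ∧ P.cr (h • P.base j) y ∧
    P.d y (g • P.base i) (h • P.base j) = P.dd y g h := by
  classical
  obtain ⟨i, hi⟩ := P.exists_cr y g
  obtain ⟨j, hj⟩ := P.exists_cr y h
  have hne : (Finset.univ : Finset (ι × ι)).Nonempty := ⟨(i, j), Finset.mem_univ _⟩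
  obtain ⟨p, _, hp⟩ := Finset.exists_mem_eq_sup (Finset.univ : Finset (ι × ι)) hne
    (fun p : ι × ι => if P.cr (g • P.base p.1) y ∧ P.cr (h • P.base p.2) y then
      P.d y (g • P.base p.1) (h • P.base p.2) else 0)
  have hp' : P.dd y g h = if P.cr (g • P.base p.1) y ∧ P.cr (h • P.base p.2) y then
      P.d y (g • P.base p.1) (h • P.base p.2) else 0 := hp
  by_cases hc : P.cr (g • P.base p.1) y ∧ P.cr (h • P.base p.2) y
  · rw [if_pos hc] at hp'
    exact ⟨p.1, p.2, hc.1, hc.2, hp'.symm⟩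
  · rw [if_neg hc] at hp'
    refine ⟨i, j, hi, hj, ?_⟩
    have := P.le_dd hi hj
    omega

theorem dd_smul (a : G) (y : Y) (g h : G) : P.dd (a • y) (a * g) (a * h) = P.dd y g h := by
  classical
  have hcr : ∀ (f : G) (i : ι), P.cr ((a * f) • P.base i) (a • y) ↔ P.cr (f • P.base i) y := by
    intro f i
    constructor
    · intro hh
      have h1 := P.cr_smul a⁻¹ _ _ hh
      rwa [mul_smul, inv_smul_smul, inv_smul_smul] at h1
    · intro hh
      have h1 := P.cr_smul a _ _ hh
      rwa [← mul_smul] at h1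
  unfold dd
  apply Finset.sup_congr rfl
  intro p _
  simp only [hcr]
  rw [mul_smul, mul_smul, P.d_smul]

theorem dd_tri (y : Y) (g h k : G) : P.dd y g k ≤ P.dd y g h + P.dd y h k + P.B := by
  obtain ⟨i, l, hi, hl, he⟩ := P.dd_attained y g k
  obtain ⟨j, hj⟩ := P.exists_cr y h
  rw [← he]
  have h1 := P.d_tri y _ _ _ hi hj hl
  have h2 := P.le_dd hi hj
  have h3 := P.le_dd hj hl
  omega

theorem dd_lip (S : Finset G) : ∃ D : ℕ, ∀ (y : Y) (g s : G), s = 1 ∨ s ∈ S ∨ s⁻¹ ∈ S →
    P.dd y g (g * s) ≤ D := by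
  classical
  choose D hD using P.lip
  have key : ∀ (y : Y) (g s : G), P.dd y g (g * s) ≤ D s := by
    intro y g s
    have h1 := P.dd_smul g⁻¹ y g (g * s)
    rw [inv_mul_cancel, inv_mul_cancel_left] at h1
    rw [← h1]
    obtain ⟨i, j, hi, hj, he⟩ := P.dd_attained (g⁻¹ • y) 1 s
    rw [← he]
    rw [one_smul] at hi ⊢
    exact hD s _ i j hi hj
  refine ⟨D 1 + ∑ t ∈ S, (D t + D t⁻¹), fun y g s hs => (key y g s).trans ?_⟩
  rcases hs with rfl | hs | hs
  · exact Nat.le_add_right _ _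
  · have h1 : D s + D s⁻¹ ≤ ∑ t ∈ S, (D t + D t⁻¹) :=
      Finset.single_le_sum (f := fun t => D t + D t⁻¹) (fun _ _ => Nat.zero_le _) hs
    omega
  · have h1 : D s⁻¹ + D s⁻¹⁻¹ ≤ ∑ t ∈ S, (D t + D t⁻¹) :=
      Finset.single_le_sum (f := fun t => D t + D t⁻¹) (fun _ _ => Nat.zero_le _) hs
    rw [inv_inv] at h1
    omega

theorem near_or {D : ℕ} (hD : ∀ (y : Y) (g : G), P.dd y g g ≤ D) {y y' : Y} (h : P.cr y y')
    (g : G) : P.near (2 * P.B + D) y y' g ∨ P.near (2 * P.B + D) y' y g := by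
  have main : ∀ {u v : Y}, P.cr v u → ∀ i0, P.cr (g • P.base i0) u →
      P.d u (g • P.base i0) v ≤ P.B → P.near (2 * P.B + D) u v g := by
    intro u v huv i0 h0 hd i hi
    have h1 := P.d_tri u _ _ _ hi h0 huv
    have h2 := P.le_dd hi h0
    have h3 := hD u g
    omega
  by_cases hex : ∃ i0, P.cr (g • P.base i0) y ∧ P.cr (g • P.base i0) y'
  · obtain ⟨i0, h0, h0'⟩ := hex
    rcases P.behr y' y (g • P.base i0) (P.cr_symm _ _ h) h0' h0 with hb | hb
    · exact Or.inl (main (P.cr_symm _ _ h) i0 h0 hb)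
    · exact Or.inr (main h i0 h0' hb)
  · left
    intro i hi
    have h1 : ¬ P.cr (g • P.base i) y' := fun hh => hex ⟨i, hi, hh⟩
    have h2 := P.d_nc y _ _ hi (P.cr_symm _ _ h) h1
    omega

end Proj

end Pool.Agent.LDJ
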