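import Pool.Agent.LDJ.PPt

/-!
LDJ.PTime: the time at which a path passes an annulus.

Constants: `B = P.B`, `D` from `dd_lip`, `B1 = 2B + D`, `K1 = 5B + 3D + 1`, `M2 = 13B + 6D + 2`.
For a word `σ = [s_1, ..., s_n]` in `S ∪ S⁻¹` put `g_t = s_1 ... s_t` and `w = g_n`.
`time y` is the first `t` with `K1 ≤ dd y 1 g_t`.

PROOF of `time_spec`: at `t = 0`: `dd y 1 1 ≤ D < K1`, at `t = n` (`List.take_length`) it is
`≥ K1`; so `1 ≤ time ≤ n` (`Nat.sInf_mem`, `Nat.sInf_le`); by minimality `dd y 1 g_(t-1) < K1`,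
and `g_t = g_(t-1) s_t`, so `dd y 1 g_t ≤ dd y 1 g_(t-1) + dd y g_(t-1) g_t + B ≤ K1 + D + B`
(`dd_tri`, `hD`).

PROOF of `time_lt`. Let `t = time y`. There are `i,j` with `d y (base i) (g_t • base j) ≥ K1`
(both crossing `y`; `dd_attained`). As `near B1 y y' 1`: `d y (base i) y' ≤ B1`, so by `d_tri`
`d y (g_t • base j) y' ≥ K1 - B1 - B > B1`; so `near B1 y y' g_t` fails and by `near_or`
`near B1 y' y g_t` holds. In the same way (`M2 ≥ K1`) `near B1 y' y w` holds.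
Take `i,j` with `d y' (base i) (w • base j) ≥ M2`; then `d y' (base i) y ≥ M2 - B1 - B`. Take `j'`
with `g_t • base j'` crossing `y'` (`exists_cr`): `d y' (g_t • base j') y ≤ B1`, so
`dd y' 1 g_t ≥ d y' (base i) (g_t • base j') ≥ M2 - 2B1 - 2B > K1 + D + B`. Hence
`time y' ≤ t` and, by `time_spec` for `y'`, `time y' ≠ t`.

PROOF of `time_ne`: by `near_or` with `g = 1` one of `near B1 y y' 1`, `near B1 y' y 1` holds.
About 180 lines.
-/

namespace Pool.Agent.LDJ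

open Pool.Agent.Hhelper67.Johnson

namespace Proj

variable {G Y ι : Type} [Group G] [MulAction G Y] [Fintype ι] (P : Proj G Y ι)

/-- the first time at which the projection of the path is far from that of `1` -/
noncomputable def time (D : ℕ) (σ : List G) (y : Y) : ℕ :=
  sInf {t | 5 * P.B + 3 * D + 1 ≤ P.dd y 1 (σ.take t).prod}

theorem time_spec {S : Finset G} {D : ℕ}
    (hD : ∀ (y : Y) (g s : G), s = 1 ∨ s ∈ S ∨ s⁻¹ ∈ S → P.dd y g (g * s) ≤ D)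
    {σ : List G} (hσ : ∀ s ∈ σ, s ∈ S ∨ s⁻¹ ∈ S) {y : Y}
    (hy : 5 * P.B + 3 * D + 1 ≤ P.dd y 1 σ.prod) :
    1 ≤ P.time D σ y ∧ P.time D σ y ≤ σ.length ∧
      5 * P.B + 3 * D + 1 ≤ P.dd y 1 (σ.take (P.time D σ y)).prod ∧
      P.dd y 1 (σ.take (P.time D σ y)).prod ≤ 6 * P.B + 4 * D + 1 := by
  have hlen : σ.length ∈ {t | 5 * P.B + 3 * D + 1 ≤ P.dd y 1 (σ.take t).prod} := by
    rw [Set.mem_ofPred_eq, List.take_length]
    exact hy
  have hmem : P.time D σ y ∈ {t | 5 * P.B + 3 * D + 1 ≤ P.dd y 1 (σ.take t).prod} :=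
    Nat.sInf_mem ⟨_, hlen⟩
  have hle : P.time D σ y ≤ σ.length := Nat.sInf_le hlen
  have hmem2 : 5 * P.B + 3 * D + 1 ≤ P.dd y 1 (σ.take (P.time D σ y)).prod := hmem
  have h0 : 1 ≤ P.time D σ y := by
    by_contra hcon
    have h1 : P.time D σ y = 0 := by omega
    rw [h1, List.take_zero, List.prod_nil] at hmem2
    have h2 := hD y 1 1 (Or.inl rfl)
    rw [mul_one] at h2
    omega
  refine ⟨h0, hle, hmem2, ?_⟩
  obtain ⟨t, ht⟩ : ∃ t, P.time D σ y = t + 1 := ⟨P.time D σ y - 1, by omega⟩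
  have hlt : t < σ.length := by omega
  have h1 : ¬ 5 * P.B + 3 * D + 1 ≤ P.dd y 1 (σ.take t).prod := by
    intro h
    have h2 : P.time D σ y ≤ t := Nat.sInf_le h
    omega
  have h2 : (σ.take (t + 1)).prod = (σ.take t).prod * σ[t] := List.prod_take_succ σ t hlt
  have h3 := hD y (σ.take t).prod σ[t] (Or.inr (hσ _ (List.getElem_mem hlt)))
  have h4 := P.dd_tri y 1 (σ.take t).prod ((σ.take t).prod * σ[t])
  rw [ht, h2]
  omega

/-- passing far from `1` at `y`, the path is near `y` as seen from `y'` -/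
theorem near_of_far {S : Finset G} {D : ℕ}
    (hD : ∀ (y : Y) (g s : G), s = 1 ∨ s ∈ S ∨ s⁻¹ ∈ S → P.dd y g (g * s) ≤ D)
    {y y' : Y} (hc : P.cr y y') (hn : P.near (2 * P.B + D) y y' 1) {g : G}
    (hg : 5 * P.B + 3 * D + 1 ≤ P.dd y 1 g) : P.near (2 * P.B + D) y' y g := by
  have hD' : ∀ (y : Y) (g : G), P.dd y g g ≤ D := by
    intro y g
    have h := hD y g 1 (Or.inl rfl)
    rwa [mul_one] at h
  rcases P.near_or hD' hc g with h | h
  · exfalso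
    obtain ⟨i, j, h1, h2, h3⟩ := P.dd_attained y 1 g
    have h4 := hn i h1
    have h5 := h j h2
    have h6 := P.d_tri y _ y' _ h1 (P.cr_symm _ _ hc) h2
    rw [P.d_symm y y' _] at h6
    omega
  · exact h

theorem time_lt {S : Finset G} {D : ℕ}
    (hD : ∀ (y : Y) (g s : G), s = 1 ∨ s ∈ S ∨ s⁻¹ ∈ S → P.dd y g (g * s) ≤ D)
    {σ : List G} (hσ : ∀ s ∈ σ, s ∈ S ∨ s⁻¹ ∈ S) {y y' : Y} (hc : P.cr y y')
    (hy : 13 * P.B + 6 * D + 2 ≤ P.dd y 1 σ.prod)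
    (hy' : 13 * P.B + 6 * D + 2 ≤ P.dd y' 1 σ.prod)
    (hn : P.near (2 * P.B + D) y y' 1) :
    P.time D σ y' < P.time D σ y := by
  obtain ⟨-, -, h1, -⟩ := P.time_spec hD hσ (y := y) (by omega)
  obtain ⟨-, -, -, h2⟩ := P.time_spec hD hσ (y := y') (by omega)
  have hn1 := P.near_of_far hD hc hn h1
  have hn2 := P.near_of_far hD hc hn (g := σ.prod) (by omega)
  obtain ⟨i, j, h3, h4, h5⟩ := P.dd_attained y' 1 σ.prod
  obtain ⟨j', h6⟩ := P.exists_cr y' (σ.take (P.time D σ y)).prod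
  have h7 := hn2 j h4
  have h8 := P.d_tri y' _ y _ h3 hc h4
  rw [P.d_symm y' y _] at h8
  have h9 := hn1 j' h6
  have h10 := P.d_tri y' _ _ _ h3 h6 hc
  have h11 := P.le_dd h3 h6
  have h12 : 7 * P.B + 4 * D + 2 ≤ P.dd y' 1 (σ.take (P.time D σ y)).prod := by omega
  have h13 : P.time D σ y' ≤ P.time D σ y := by
    refine Nat.sInf_le ?_
    change 5 * P.B + 3 * D + 1 ≤ _
    omega
  rcases lt_or_eq_of_le h13 with h | h
  · exact h
  · rw [h] at h2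
    omega

theorem time_ne {S : Finset G} {D : ℕ}
    (hD : ∀ (y : Y) (g s : G), s = 1 ∨ s ∈ S ∨ s⁻¹ ∈ S → P.dd y g (g * s) ≤ D)
    {σ : List G} (hσ : ∀ s ∈ σ, s ∈ S ∨ s⁻¹ ∈ S) {y y' : Y} (hc : P.cr y y')
    (hy : 13 * P.B + 6 * D + 2 ≤ P.dd y 1 σ.prod)
    (hy' : 13 * P.B + 6 * D + 2 ≤ P.dd y' 1 σ.prod) :
    P.time D σ y' ≠ P.time D σ y := by
  have hD' : ∀ (y : Y) (g : G), P.dd y g g ≤ D := by
    intro y g
    have h := hD y g 1 (Or.inl rfl)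
    rwa [mul_one] at h
  rcases P.near_or hD' hc 1 with h | h
  · exact (P.time_lt hD hσ hc hy hy' h).ne
  · exact (P.time_lt hD hσ (P.cr_symm _ _ hc) hy' hy h).ne'

end Proj

end Pool.Agent.LDJ
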