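import Pool.Agent.LDJ.PDef
import Pool.Agent.LDJ.CDef

/-!
LDJ.PWalk: walks whose value lies deep in the chain `Tc`.

Words are lists of letters `(i, e)`, standing for `T i ^ (M e)`; a walk has non zero exponents and
consecutive letters cross. The inverse of a word: reverse it and negate the exponents;
`val M (inverse) = (val M w)⁻¹`; `val M (u ++ v) = val M u * val M v`; the inverse of a walk is a
walk (`cr_symm`); `u ++ v` is a walk if `u`, `v` are and the last letter of `u` crosses the first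
letter of `v`.

PROOF of `exists_walk`.
(1) Fix `x : ι` and `y = nb x`. Claim: for every `k` there is a walk `v` in the two indices `x, y`
whose first letter is `(x, e)` with `e ≥ 1`, whose last letter has index `x`, and
`val M v ∈ Tc (k+1)` for all `M`. `k = 0`: `v = [(x,1)]`. Step: from `v = (x,e) :: v'` put
`v+ = (x,e+1) :: v' ++ [(y,1)] ++ v ++ [(y,-1)] ++ v⁻¹ ++ [(y,1)] ++ v⁻¹ ++ [(y,-1)] ++ [(x,-1)]`;
its value is `t [V, t' V t'⁻¹] t⁻¹` with `V = val M v`, `t = T x ^ M`, `t' = T y ^ M`: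
`t V t' V t'⁻¹ V⁻¹ t' V⁻¹ t'⁻¹ t⁻¹`. It lies in `Tc (k+2)` by `comm` (with `z = V`,
`w = t' V t'⁻¹ ∈ Tc (k+1)` by normality) and normality. It is a walk starting with `(x, e+1)`,
ending with `(x,-1)`.
(2) Blocks. For `j : ι`, a sign `ε` and a walk `p` from the letter `(j, ε)` to a last letter with
index `y`, the word `p ++ v ++ p⁻¹` is a walk (the last letter of `p` has index `y`, the first
and last letter of `v` have index `x`, and `cr x y`), its value is in `Tc m` (normality; `v` as in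
(1) with `k+1 = m`), its first letter is `(j,ε)`, its last letter is `(j,-ε)`.
(3) Walks `p`. By `conn` there is a walk from any index to any index, of length `≥ 2` and with
all exponents `1`; so there is a walk `p` starting with `(j,ε)`, `(nb j, 1)`, then passing through
all `i : ι`, and ending with index `y` (concatenate walks given by `conn`).
(4) Take a path `a = j_0, j_1, ..., j_k = b`, `k ≥ 1`, consecutive ones crossing (`conn a b`).
The word is the concatenation of the blocks of (2) for `j_0, ..., j_k` with signs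
`ε_0 = ε`, `ε_k = -δ` and the walks `p` of (3). Its first letters are `(a,ε), (nb a, 1)`, its last
letters are `(nb b, -1), (b, δ)`, it contains all indices, it is a walk as `j_t` crosses `j_(t+1)`.
About 250 lines.
-/

namespace Pool.Agent.LDJ

namespace Proj

variable {G Y ι : Type} [Group G] [MulAction G Y] [Fintype ι] (P : Proj G Y ι)

/-- crossing of base annuli -/
def rr (i j : ι) : Prop := P.cr (P.base i) (P.base j)

lemma rr_symm {i j : ι} (h : P.rr i j) : P.rr j i := P.cr_symm _ _ h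

/-- the inverse word -/
def iw (w : List (ι × ℤ)) : List (ι × ℤ) := (w.map fun p => (p.1, -p.2)).reverse

/-- walks from the index `i` to the index `j` -/
def Wk (i j : ι) (w : List (ι × ℤ)) : Prop :=
  P.IsWalk w ∧ (w.map Prod.fst).head? = some i ∧ (w.map Prod.fst).getLast? = some j

lemma isWalk_iff (w : List (ι × ℤ)) :
    P.IsWalk w ↔ (∀ p ∈ w, p.2 ≠ 0) ∧ List.IsChain P.rr (w.map Prod.fst) := by
  rw [IsWalk, List.isChain_map]
  rfl

lemma val_append (M : ℤ) (u v : List (ι × ℤ)) : P.val M (u ++ v) = P.val M u * P.val M v := by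
  simp [val]

lemma val_cons (M : ℤ) (p : ι × ℤ) (v : List (ι × ℤ)) :
    P.val M (p :: v) = P.T p.1 ^ (M * p.2) * P.val M v := by
  simp [val]

lemma val_nil (M : ℤ) : P.val M [] = 1 := by
  simp [val]

lemma val_one (M : ℤ) (p : ι × ℤ) : P.val M [p] = P.T p.1 ^ (M * p.2) := by
  rw [val_cons, val_nil, mul_one]

lemma iw_cons (p : ι × ℤ) (v : List (ι × ℤ)) : iw (p :: v) = iw v ++ [(p.1, -p.2)] := by
  simp [iw]

lemma val_iw (M : ℤ) (u : List (ι × ℤ)) : P.val M (iw u) = (P.val M u)⁻¹ := by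
  induction u with
  | nil => simp [iw, val]
  | cons p u ih =>
    rw [iw_cons, val_append, ih, val_one, val_cons, mul_inv_rev]
    congr 1
    rw [mul_neg, zpow_neg]

variable {P}

lemma Wk.append {i j k l : ι} {u v : List (ι × ℤ)} (hu : P.Wk i j u) (hv : P.Wk k l v)
    (h : P.rr j k) : P.Wk i l (u ++ v) := by
  obtain ⟨hu1, hu2, hu3⟩ := hu
  obtain ⟨hv1, hv2, hv3⟩ := hv
  rw [isWalk_iff] at hu1 hv1
  refine ⟨?_, ?_, ?_⟩
  · rw [isWalk_iff]
    refine ⟨?_, ?_⟩
    · intro p hp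
      rcases List.mem_append.1 hp with hp | hp
      · exact hu1.1 p hp
      · exact hv1.1 p hp
    · rw [List.map_append, List.isChain_append]
      refine ⟨hu1.2, hv1.2, ?_⟩
      intro x hx y hy
      rw [hu3] at hx
      rw [hv2] at hy
      simp only [Option.mem_def, Option.some.injEq] at hx hy
      rw [← hx, ← hy]
      exact h
  · rw [List.map_append, List.head?_append, hu2]
    rfl
  · rw [List.map_append, List.getLast?_append, hv3]
    rfl

lemma Wk.inv {i j : ι} {u : List (ι × ℤ)} (hu : P.Wk i j u) : P.Wk j i (iw u) := by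
  obtain ⟨hu1, hu2, hu3⟩ := hu
  rw [isWalk_iff] at hu1
  have hm : (iw u).map Prod.fst = (u.map Prod.fst).reverse := by
    simp [iw, List.map_reverse, Function.comp_def]
  refine ⟨?_, ?_, ?_⟩
  · rw [isWalk_iff]
    refine ⟨?_, ?_⟩
    · intro p hp
      rw [iw, List.mem_reverse, List.mem_map] at hp
      obtain ⟨q, hq, rfl⟩ := hp
      exact neg_ne_zero.2 (hu1.1 q hq)
    · rw [hm, List.isChain_reverse]
      exact hu1.2.imp fun a b hab => P.rr_symm hab
  · rw [hm, List.head?_reverse, hu3]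
  · rw [hm, List.getLast?_reverse, hu2]

lemma wk_one (i : ι) {e : ℤ} (he : e ≠ 0) : P.Wk i i [(i, e)] := by
  refine ⟨?_, rfl, rfl⟩
  rw [isWalk_iff]
  refine ⟨?_, by simp⟩
  intro p hp
  rw [List.mem_singleton] at hp
  rw [hp]
  exact he

lemma Wk.change {x j : ι} {e e' : ℤ} {v : List (ι × ℤ)} (h : P.Wk x j ((x, e) :: v))
    (he : e' ≠ 0) : P.Wk x j ((x, e') :: v) := by
  obtain ⟨h1, h2, h3⟩ := h
  rw [isWalk_iff] at h1
  refine ⟨?_, h2, h3⟩
  rw [isWalk_iff]
  refine ⟨?_, h1.2⟩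
  intro p hp
  rcases List.mem_cons.1 hp with rfl | hp
  · exact he
  · exact h1.1 p (List.mem_cons_of_mem _ hp)

/-- the walks deep in the chain, in two letters -/
lemma exists_deep {Tc : ℕ → Subgroup G} (hT : Chain Tc) (hP : ∀ i, P.T i ∈ Tc 1)
    {x y : ι} (hxy : P.rr x y) (k : ℕ) : ∃ (e : ℤ) (v : List (ι × ℤ)), 1 ≤ e ∧
      P.Wk x x ((x, e) :: v) ∧ ∀ M : ℤ, P.val M ((x, e) :: v) ∈ Tc (k + 1) := by
  induction k with
  | zero =>
    refine ⟨1, [], le_refl _, wk_one x one_ne_zero, fun M => ?_⟩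
    rw [val_one]
    exact (Tc 1).zpow_mem (hP x) _
  | succ k ih =>
    obtain ⟨e, v, he, hv, hval⟩ := ih
    have hyx := P.rr_symm hxy
    have hn1 : (1 : ℤ) ≠ 0 := one_ne_zero
    have hn2 : (-1 : ℤ) ≠ 0 := by norm_num
    refine ⟨e + 1, v ++ ([(y, 1)] ++ (((x, e) :: v) ++ ([(y, -1)] ++ (iw ((x, e) :: v) ++
      ([(y, 1)] ++ (iw ((x, e) :: v) ++ ([(y, -1)] ++ [(x, -1)]))))))), by omega, ?_, ?_⟩
    · rw [← List.cons_append]
      refine (hv.change (by omega)).append ?_ hxy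
      refine (wk_one y hn1).append ?_ hyx
      refine hv.append ?_ hxy
      refine (wk_one y hn2).append ?_ hyx
      refine hv.inv.append ?_ hxy
      refine (wk_one y hn1).append ?_ hyx
      refine hv.inv.append ?_ hxy
      exact (wk_one y hn2).append (wk_one x hn2) hyx
    · intro M
      rw [← List.cons_append]
      have e1 : P.val M ((x, e + 1) :: v) = P.T x ^ M * P.val M ((x, e) :: v) := by
        rw [val_cons, val_cons, ← mul_assoc, ← zpow_add]
        congr 2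
        ring
      rw [val_append, val_append, val_append, val_append, val_append, val_append, val_append,
        val_append, val_iw, val_one, val_one, val_one, e1]
      set V := P.val M ((x, e) :: v) with hV
      simp only [mul_one, mul_neg, zpow_neg]
      set t := P.T x ^ M
      set t' := P.T y ^ M
      have h1 : V ∈ Tc (k + 1) := hval M
      have h2 : t' * V * t'⁻¹ ∈ Tc (k + 1) := (hT.normal (k + 1)).conj_mem V h1 t'
      have h3 := hT.comm (k + 1) (by omega) V h1 _ h2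
      have h4 := (hT.normal (k + 1 + 1)).conj_mem _ h3 t
      convert h4 using 1
      group

lemma wk_connect {a i : ι} (h : Relation.TransGen P.rr a i) {w : List (ι × ℤ)} {j : ι}
    (hw : P.Wk i j w) : ∃ z, P.Wk a j z ∧ (∃ z', z = (a, 1) :: z') ∧ ∃ u, z = u ++ w := by
  induction h using Relation.TransGen.head_induction_on with
  | single hab =>
    exact ⟨_, (wk_one _ one_ne_zero).append hw hab, ⟨_, rfl⟩, ⟨_, rfl⟩⟩
  | head hac _ ih =>
    obtain ⟨z, hz, ⟨z', rfl⟩, ⟨u, hu⟩⟩ := ih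
    refine ⟨_, (wk_one _ one_ne_zero).append hz hac, ⟨_, rfl⟩, ?_⟩
    exact ⟨[_] ++ u, by rw [hu, List.append_assoc]⟩

lemma wk_all (y : ι) (l : List ι) : ∀ a, ∃ z, P.Wk a y z ∧ (∃ z', z = (a, 1) :: z') ∧
    ∀ i ∈ l, ∃ e, (i, e) ∈ z := by
  induction l with
  | nil =>
    intro a
    obtain ⟨z, hz, hz', -⟩ := wk_connect (P.conn a y) (wk_one y one_ne_zero)
    exact ⟨z, hz, hz', by simp⟩
  | cons i l ih =>
    intro a
    obtain ⟨w, hw, ⟨w', hw'⟩, hl⟩ := ih i
    obtain ⟨z, hz, hz', ⟨u, hu⟩⟩ := wk_connect (P.conn a i) hw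
    refine ⟨z, hz, hz', ?_⟩
    intro j hj
    rcases List.mem_cons.1 hj with rfl | hj
    · exact ⟨1, by rw [hu, hw']; simp⟩
    · obtain ⟨e, he⟩ := hl j hj
      exact ⟨e, by rw [hu]; exact List.mem_append_right _ he⟩

variable (P)

lemma neg_sg (ε : Bool) : -sg ε = sg (!ε) := by
  cases ε <;> simp [sg]

lemma sg_ne (ε : Bool) : sg ε ≠ 0 := by
  cases ε <;> simp [sg]

/-- the blocks -/
lemma exists_block {Tc : ℕ → Subgroup G} (hT : Chain Tc) (hP : ∀ i, P.T i ∈ Tc 1)
    (m : ℕ) (hm : 1 ≤ m) (nb : ι → ι) (hnb : ∀ i, P.cr (P.base i) (P.base (nb i)))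
    (j : ι) (ε : Bool) :
    ∃ w : List (ι × ℤ), P.Wk j j w ∧ (∃ u, w = (j, sg ε) :: (nb j, 1) :: u) ∧
      (∃ u, w = u ++ [(nb j, -1), (j, sg (!ε))]) ∧ (∀ i, ∃ e, (i, e) ∈ w) ∧
      ∀ M : ℤ, P.val M w ∈ Tc m := by
  obtain ⟨k, rfl⟩ : ∃ k, m = k + 1 := ⟨m - 1, by omega⟩
  obtain ⟨e, v', -, hv, hval⟩ := exists_deep hT hP (hnb j) k
  set v := (j, e) :: v' with hvdef
  obtain ⟨q, hq, ⟨q', hq'⟩, hall⟩ := wk_all (P := P) (nb j) Finset.univ.toList (nb j)
  have hr : P.rr j (nb j) := hnb j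
  have hr' := P.rr_symm hr
  refine ⟨[(j, sg ε)] ++ (q ++ (v ++ (iw q ++ [(j, sg (!ε))]))), ?_, ?_, ?_, ?_, ?_⟩
  · refine (wk_one j (sg_ne ε)).append ?_ hr
    refine hq.append ?_ hr'
    refine hv.append ?_ hr
    exact hq.inv.append (wk_one j (sg_ne _)) hr'
  · exact ⟨q' ++ (v ++ (iw q ++ [(j, sg (!ε))])), by rw [hq']; rfl⟩
  · refine ⟨[(j, sg ε)] ++ (q ++ (v ++ iw q')), ?_⟩
    rw [hq', iw_cons]
    simp
  · intro i
    obtain ⟨e, he⟩ := hall i (by simp)
    refine ⟨e, ?_⟩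
    apply List.mem_append_right
    exact List.mem_append_left _ he
  · intro M
    rw [val_append, val_append, val_append, val_append, val_iw, val_one, val_one, ← neg_sg]
    simp only [mul_neg, zpow_neg]
    have h1 := (hT.normal (k + 1)).conj_mem _ (hval M) (P.val M q)
    have h2 := (hT.normal (k + 1)).conj_mem _ h1 (P.T j ^ (M * sg ε))
    convert h2 using 1
    group

theorem exists_walk {Tc : ℕ → Subgroup G} (hT : Chain Tc) (hP : ∀ i, P.T i ∈ Tc 1)
    (m : ℕ) (hm : 1 ≤ m) (nb : ι → ι) (hnb : ∀ i, P.cr (P.base i) (P.base (nb i)))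
    (a b : ι) (ε δ : Bool) :
    ∃ w : List (ι × ℤ), P.IsWalk w ∧ (∃ u, w = (a, sg ε) :: (nb a, 1) :: u) ∧
      (∃ u e, w = u ++ [(nb b, e), (b, sg δ)]) ∧ (∀ j, ∃ e, (j, e) ∈ w) ∧
      ∀ M : ℤ, P.val M w ∈ Tc m := by
  have key : ∀ δ : Bool, ∃ w : List (ι × ℤ), P.Wk a b w ∧
      (∃ u, w = (a, sg ε) :: (nb a, 1) :: u) ∧
      (∃ u e, w = u ++ [(nb b, e), (b, sg δ)]) ∧ (∀ j, ∃ e, (j, e) ∈ w) ∧
      ∀ M : ℤ, P.val M w ∈ Tc m := by
    have step : ∀ (c d : ι) (δ : Bool) (w : List (ι × ℤ)), P.Wk a c w → P.rr c d →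
        (∃ u, w = (a, sg ε) :: (nb a, 1) :: u) → (∀ M : ℤ, P.val M w ∈ Tc m) →
        ∃ w : List (ι × ℤ), P.Wk a d w ∧
          (∃ u, w = (a, sg ε) :: (nb a, 1) :: u) ∧
          (∃ u e, w = u ++ [(nb d, e), (d, sg δ)]) ∧ (∀ j, ∃ e, (j, e) ∈ w) ∧
          ∀ M : ℤ, P.val M w ∈ Tc m := by
      intro c d δ w hw hcd hw1 hw2
      obtain ⟨u, hu⟩ := hw1
      obtain ⟨z, hz, -, ⟨z2, hz2⟩, hz3, hz4⟩ := P.exists_block hT hP m hm nb hnb d (!δ)
      refine ⟨w ++ z, hw.append hz hcd, ⟨u ++ z, by rw [hu]; rfl⟩, ⟨w ++ z2, -1, ?_⟩, ?_, ?_⟩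
      · rw [hz2, Bool.not_not, List.append_assoc]
      · intro j
        obtain ⟨e, he⟩ := hz3 j
        exact ⟨e, List.mem_append_right _ he⟩
      · intro M
        rw [val_append]
        exact (Tc m).mul_mem (hw2 M) (hz4 M)
    have hab : Relation.TransGen P.rr a b := P.conn a b
    induction hab with
    | single h =>
      intro δ
      obtain ⟨z, hz, hz1, -, -, hz4⟩ := P.exists_block hT hP m hm nb hnb a ε
      exact step a _ δ z hz h hz1 hz4
    | tail _ h ih =>
      intro δ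
      obtain ⟨w, hw, hw1, -, -, hw4⟩ := ih true
      exact step _ _ δ w hw h hw1 hw4
  obtain ⟨w, hw, h1, h2, h3, h4⟩ := key δ
  exact ⟨w, hw.1, h1, h2, h3, h4⟩

end Proj

end Pool.Agent.LDJ
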