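import Mathlib

/-!
LDJ, PART III: a group acting on a circle (interface).

`Circ Γ` : `Γ` acts on the circle `C`; every `x ≠ 1` has an attracting fixed point `att x` and a
repelling one `att x⁻¹`; `s x` is an affine coordinate on `C` minus `att x` with
`s x (att x⁻¹) = 0` and `s x (x w) = lam x * s x w`; `sep a b c d` says that `{a,b}` separates
`{c,d}`; `si`: every automorphism of `Γ` preserves separation of the attracting points.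
`link x y`: the axes of `x` and `y` cross. `N y x z`: number of `y`-translates of (the axis of) `z`
crossing `x`. `Split y A B σ`: `y` is separating, with sides `A`, `B` (ping-pong).
-/

namespace Pool.Agent.LDJ

structure Circ (Γ : Type) [Group Γ] where
  C : Type
  act : Γ → C → C
  att : Γ → C
  lam : Γ → ℝ
  s : Γ → C → ℝ
  sep : C → C → C → C → Prop
  act_one : ∀ w, act 1 w = w
  act_mul : ∀ g h w, act (g * h) w = act g (act h w)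
  lam_gt : ∀ x, x ≠ 1 → 1 < lam x
  att_ne : ∀ x, x ≠ 1 → att x⁻¹ ≠ att x
  att_conj : ∀ g x, x ≠ 1 → att (g * x * g⁻¹) = act g (att x)
  att_pow : ∀ x, x ≠ 1 → ∀ n : ℕ, 0 < n → att (x ^ n) = att x
  tf : ∀ x : Γ, x ≠ 1 → ∀ n : ℕ, 0 < n → x ^ n ≠ 1
  fixpt : ∀ x w, x ≠ 1 → act x w = w → w = att x ∨ w = att x⁻¹
  comm : ∀ x y, x ≠ 1 → y ≠ 1 → att x = att y → ∃ m n : ℕ, 0 < m ∧ 0 < n ∧ x ^ m = y ^ n
  roots : ∀ x g, x ≠ 1 → act g (att x) = att x → g * x = x * g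
  s_rep : ∀ x, x ≠ 1 → s x (att x⁻¹) = 0
  s_inj : ∀ x w w', x ≠ 1 → w ≠ att x → w' ≠ att x → s x w = s x w' → w = w'
  s_act : ∀ x w, x ≠ 1 → w ≠ att x → s x (act x w) = lam x * s x w
  sep_ne : ∀ a b c d, sep a b c d → a ≠ b ∧ a ≠ c ∧ a ≠ d ∧ b ≠ c ∧ b ≠ d ∧ c ≠ d
  sep_swap : ∀ a b c d, sep a b c d → sep b a c d
  sep_symm : ∀ a b c d, sep a b c d → sep c d a b
  sep_act : ∀ g a b c d, sep a b c d → sep (act g a) (act g b) (act g c) (act g d)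
  sep_fin : ∀ x, x ≠ 1 → ∀ a b c d, a ≠ att x → b ≠ att x → c ≠ att x → d ≠ att x →
    (sep a b c d ↔
      (s x a - s x c) * (s x b - s x c) * ((s x a - s x d) * (s x b - s x d)) < 0)
  sep_inf : ∀ x, x ≠ 1 → ∀ b c d, b ≠ att x → c ≠ att x → d ≠ att x →
    (sep (att x) b c d ↔ (s x b - s x c) * (s x b - s x d) < 0)
  fin_cross : ∀ x z, x ≠ 1 → z ≠ 1 → ∃ F : Finset Γ, ∀ g,
    sep (att x) (att x⁻¹) (att (g * z * g⁻¹)) (att (g * z * g⁻¹)⁻¹) →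
      ∃ k : ℤ, ∃ f ∈ F, g * z * g⁻¹ = x ^ k * f * x ^ (-k)
  si : ∀ (φ : MulAut Γ) (x y z t : Γ), x ≠ 1 → y ≠ 1 → z ≠ 1 → t ≠ 1 →
    sep (att x) (att y) (att z) (att t) → sep (att (φ x)) (att (φ y)) (att (φ z)) (att (φ t))

/-- the conjugacy class of `y` and `y⁻¹` -/
def cls {Γ : Type} [Group Γ] (y : Γ) : Set Γ :=
  {x | ∃ g : Γ, x = g * y * g⁻¹ ∨ x = g * y⁻¹ * g⁻¹}

namespace Circ

variable {Γ : Type} [Group Γ] (Q : Circ Γ)

/-- the axes of `x` and `y` cross -/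
def link (x y : Γ) : Prop := Q.sep (Q.att x) (Q.att x⁻¹) (Q.att y) (Q.att y⁻¹)

/-- the number of `y`-translates of `z` crossing `x` -/
noncomputable def N (y x z : Γ) : ℕ := Set.ncard {k : ℤ | Q.link x (y ^ k * z * y ^ (-k))}

/-- `y` is simple and generates its centraliser -/
structure Simple (y : Γ) : Prop where
  ne : y ≠ 1
  nolink : ∀ g, ¬ Q.link y (g * y * g⁻¹)
  cent : ∀ g, g * y = y * g → g ∈ Subgroup.zpowers y

/-- the point `w` is on the side `σ` of the axis of `y` -/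
def side (y : Γ) (σ : ℝ) (w : Q.C) : Prop := w ≠ Q.att y ∧ 0 < σ * Q.s y w

/-- `y` is separating, with sides `A` (on the side `σ`) and `B` (on the side `-σ`) -/
structure Split (y : Γ) (A B : Subgroup Γ) (σ : ℝ) : Prop where
  sgn : σ = 1 ∨ σ = -1
  ne : y ≠ 1
  memA : y ∈ A
  memB : y ∈ B
  gen : A ⊔ B = ⊤
  nA : ∃ a ∈ A, a ∉ Subgroup.zpowers y
  nB : ∃ b ∈ B, b ∉ Subgroup.zpowers y
  pa : ∀ a ∈ A, a ∉ Subgroup.zpowers y → ∀ x, x ≠ 1 → ¬ Q.side y σ (Q.att x) →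
    Q.side y σ (Q.att (a * x * a⁻¹))
  pb : ∀ b ∈ B, b ∉ Subgroup.zpowers y → ∀ x, x ≠ 1 → ¬ Q.side y (-σ) (Q.att x) →
    Q.side y (-σ) (Q.att (b * x * b⁻¹))

/-- the axis of `m` separates the axes of `a` and `b` (which do not cross it) -/
def betw (m a b : Γ) : Prop :=
  Q.sep (Q.att m) (Q.att m⁻¹) (Q.att a) (Q.att b) ∧
  Q.sep (Q.att m) (Q.att m⁻¹) (Q.att a⁻¹) (Q.att b⁻¹) ∧
  Q.sep (Q.att m) (Q.att m⁻¹) (Q.att a⁻¹) (Q.att b) ∧
  Q.sep (Q.att m) (Q.att m⁻¹) (Q.att a) (Q.att b⁻¹)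

end Circ

/-- everything needed about the surface group -/
structure Model (Γ ι : Type) [Group Γ] [Fintype ι] where
  Q : Circ Γ
  c : Γ
  A : Subgroup Γ
  B : Subgroup Γ
  σ : ℝ
  split : Q.Split c A B σ
  /-- the twist -/
  T : MulAut Γ
  TA : ∀ a ∈ A, T a = c * a * c⁻¹
  TB : ∀ b ∈ B, T b = b
  covA : ∃ F : Finset Γ, (∀ a ∈ F, a ∈ A ∧ a ∉ Subgroup.zpowers c) ∧
    ∀ x, x ≠ 1 → Q.side c σ (Q.att x) → ∃ a ∈ F, ∃ k : ℤ,
      Q.sep (Q.att (c ^ k * a * c ^ (-k))) (Q.att (c ^ k * a * c ^ (-k))⁻¹) (Q.att x) (Q.att c)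
  covB : ∃ F : Finset Γ, (∀ b ∈ F, b ∈ B ∧ b ∉ Subgroup.zpowers c) ∧
    ∀ x, x ≠ 1 → Q.side c (-σ) (Q.att x) → ∃ b ∈ F, ∃ k : ℤ,
      Q.sep (Q.att (c ^ k * b * c ^ (-k))) (Q.att (c ^ k * b * c ^ (-k))⁻¹) (Q.att x) (Q.att c)
  /-- the base curves are `rt i c` -/
  rt : ι → MulAut Γ
  i0 : ι
  i1 : ι
  link01 : Q.link (rt i0 c) (rt i1 c)
  conn : ∀ i j, Relation.TransGen (fun a b => Q.link (rt a c) (rt b c)) i j
  /-- the crossing graph of all conjugates of the base curves is connected -/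
  connM : ∀ i, ∀ y ∈ cls (rt i c), Relation.ReflTransGen
    (fun u v => ((∃ j, v ∈ cls (rt j c)) ∧ Q.link u v) ∨ v = u⁻¹) (rt i0 c) y
  nu : ℕ
  nc : ∀ s : Finset Γ, (∀ y ∈ s, ∃ φ : MulAut Γ, y = φ c) →
    (∀ x ∈ s, ∀ y ∈ s, ∀ g, ¬ Q.link x (g * y * g⁻¹)) →
    (∀ x ∈ s, ∀ y ∈ s, x ≠ y → x ∉ cls y) → s.card ≤ nu

end Pool.Agent.LDJ
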