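import Pool.Agent.LDJ.SDef

/-!
LDJ.SN1: coordinates of crossing axes and the size of `N`.

`up y x`, `dn y x`: if `link x y` then exactly one of `s y (att x)`, `s y (att x⁻¹)` is positive,
namely `up y x`, and the other is `- dn y x < 0`. `sh y x = (log up - log dn) / log (lam y)`.

PROOFS. `link_iff`: `sep_inf` for `y` with `b = att y⁻¹` (`s_rep`, `att_ne`), and `sep_ne`.
`link_symm`, `link_inv_*`: `sep_symm`, `sep_swap`. `link_conj`: `att_conj`, `sep_act` (if `x = 1`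
then `att x = att x⁻¹`, so `link x y` is false by `sep_ne`). `link_aut`: `si` (and its use for
`φ⁻¹`).
`up_conj`, `dn_conj`: `att (y^k x y^(-k)) = act (y^k) (att x)` and `s_act` iterated (also for
negative `k`: `s y (act y⁻¹ w) = (lam y)⁻¹ * s y w`, from `s_act` applied to `act y⁻¹ w`;
`act y⁻¹ w ≠ att y` because `act y (att y) = att y` (`att_conj` with `g = x = y`)).
`link_coord`: if `x`, `z` are linked with `y`, then by `sep_fin` with the four values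
`up x, -dn x, up z, -dn z` : `link x z ↔ (up x - up z)(-dn x - up z)(up x + dn z)(-dn x + dn z) < 0`
i.e. `(up x - up z) * (dn x - dn z) < 0` (the other two factors have product `< 0`... check signs:
`(-dn x - up z) < 0`, `(up x + dn z) > 0`, `(-dn x + dn z) = -(dn x - dn z)`).
`N_bounds`: `link x (y^k z y^(-k)) ↔ (α - k)(β - k) < 0` with
`α = log (up x / up z)/Λ`, `β = log (dn x / dn z)/Λ`, `Λ = log (lam y) > 0`,
`α - β = sh y x - sh y z`; the number of integers strictly between `α` and `β` is between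
`|α - β| - 1` and `|α - β| + 1`, and the set is finite. `interval`: it is an interval of integers.
About 250 lines.
-/

namespace Pool.Agent.LDJ

namespace Circ

variable {Γ : Type} [Group Γ] (Q : Circ Γ)

noncomputable def up (y x : Γ) : ℝ := max (Q.s y (Q.att x)) (Q.s y (Q.att x⁻¹))

noncomputable def dn (y x : Γ) : ℝ := - min (Q.s y (Q.att x)) (Q.s y (Q.att x⁻¹))

noncomputable def sh (y x : Γ) : ℝ :=
  (Real.log (Q.up y x) - Real.log (Q.dn y x)) / Real.log (Q.lam y)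

theorem link_ne {x y : Γ} (h : Q.link x y) : x ≠ 1 ∧ y ≠ 1 := by
  have h1 := Q.sep_ne _ _ _ _ h
  constructor
  · intro hx
    apply h1.1
    rw [hx, inv_one]
  · intro hy
    apply h1.2.2.2.2.2
    rw [hy, inv_one]

theorem link_symm {x y : Γ} (h : Q.link x y) : Q.link y x := Q.sep_symm _ _ _ _ h

theorem link_iff {y x : Γ} (hy : y ≠ 1) : Q.link x y ↔ Q.att x ≠ Q.att y ∧
    Q.att x⁻¹ ≠ Q.att y ∧ Q.s y (Q.att x) * Q.s y (Q.att x⁻¹) < 0 := by
  constructor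
  · intro h
    have h1 := Q.sep_ne _ _ _ _ h
    have h2 := Q.link_symm h
    refine ⟨h1.2.1, h1.2.2.2.1, ?_⟩
    have h3 := (Q.sep_inf y hy _ _ _ (Q.att_ne y hy) h1.2.1 h1.2.2.2.1).1 h2
    rw [Q.s_rep y hy] at h3
    linarith
  · rintro ⟨h1, h2, h3⟩
    apply Q.link_symm
    apply (Q.sep_inf y hy _ _ _ (Q.att_ne y hy) h1 h2).2
    rw [Q.s_rep y hy]
    linarith

theorem link_inv_left {x y : Γ} : Q.link x⁻¹ y ↔ Q.link x y := by
  constructor
  · intro h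
    unfold link at h
    rw [inv_inv] at h
    exact Q.sep_swap _ _ _ _ h
  · intro h
    unfold link
    rw [inv_inv]
    exact Q.sep_swap _ _ _ _ h

theorem link_inv_right {x y : Γ} : Q.link x y⁻¹ ↔ Q.link x y := by
  constructor
  · intro h
    exact Q.link_symm (Q.link_inv_left.1 (Q.link_symm h))
  · intro h
    exact Q.link_symm (Q.link_inv_left.2 (Q.link_symm h))

theorem sn1_link_conj_aux (g : Γ) {x y : Γ} (h : Q.link x y) :
    Q.link (g * x * g⁻¹) (g * y * g⁻¹) := by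
  obtain ⟨hx, hy⟩ := Q.link_ne h
  have e1 : (g * x * g⁻¹)⁻¹ = g * x⁻¹ * g⁻¹ := by group
  have e2 : (g * y * g⁻¹)⁻¹ = g * y⁻¹ * g⁻¹ := by group
  unfold link
  rw [e1, e2, Q.att_conj g x hx, Q.att_conj g y hy, Q.att_conj g x⁻¹ (inv_ne_one.2 hx),
    Q.att_conj g y⁻¹ (inv_ne_one.2 hy)]
  exact Q.sep_act g _ _ _ _ h

theorem link_conj (g : Γ) {x y : Γ} : Q.link (g * x * g⁻¹) (g * y * g⁻¹) ↔ Q.link x y := by
  constructor
  · intro h
    have h1 := Q.sn1_link_conj_aux g⁻¹ h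
    have e1 : g⁻¹ * (g * x * g⁻¹) * g⁻¹⁻¹ = x := by group
    have e2 : g⁻¹ * (g * y * g⁻¹) * g⁻¹⁻¹ = y := by group
    rwa [e1, e2] at h1
  · exact Q.sn1_link_conj_aux g

theorem sn1_link_aut_aux (φ : MulAut Γ) {x y : Γ} (h : Q.link x y) : Q.link (φ x) (φ y) := by
  obtain ⟨hx, hy⟩ := Q.link_ne h
  have h1 := Q.si φ x x⁻¹ y y⁻¹ hx (inv_ne_one.2 hx) hy (inv_ne_one.2 hy) h
  rw [map_inv, map_inv] at h1
  exact h1

theorem link_aut (φ : MulAut Γ) {x y : Γ} : Q.link (φ x) (φ y) ↔ Q.link x y := by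
  constructor
  · intro h
    have h1 := Q.sn1_link_aut_aux φ⁻¹ h
    rwa [MulAut.inv_apply_self, MulAut.inv_apply_self] at h1
  · exact Q.sn1_link_aut_aux φ

theorem sn1_cases {x y : Γ} (h : Q.link x y) :
    (0 < Q.s y (Q.att x) ∧ Q.s y (Q.att x⁻¹) < 0 ∧ Q.up y x = Q.s y (Q.att x) ∧
      Q.dn y x = - Q.s y (Q.att x⁻¹)) ∨
    (Q.s y (Q.att x) < 0 ∧ 0 < Q.s y (Q.att x⁻¹) ∧ Q.up y x = Q.s y (Q.att x⁻¹) ∧
      Q.dn y x = - Q.s y (Q.att x)) := by
  have h1 := ((Q.link_iff (Q.link_ne h).2).1 h).2.2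
  rcases mul_neg_iff.1 h1 with ⟨h2, h3⟩ | ⟨h2, h3⟩
  · left
    refine ⟨h2, h3, ?_, ?_⟩
    · unfold up
      exact max_eq_left (h3.le.trans h2.le)
    · unfold dn
      rw [min_eq_right (h3.le.trans h2.le)]
  · right
    refine ⟨h2, h3, ?_, ?_⟩
    · unfold up
      exact max_eq_right (h2.le.trans h3.le)
    · unfold dn
      rw [min_eq_left (h2.le.trans h3.le)]

theorem up_pos {x y : Γ} (h : Q.link x y) : 0 < Q.up y x := by
  rcases Q.sn1_cases h with ⟨h1, h2, h3, h4⟩ | ⟨h1, h2, h3, h4⟩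
  · rw [h3]
    exact h1
  · rw [h3]
    exact h2

theorem dn_pos {x y : Γ} (h : Q.link x y) : 0 < Q.dn y x := by
  rcases Q.sn1_cases h with ⟨h1, h2, h3, h4⟩ | ⟨h1, h2, h3, h4⟩
  · rw [h4]
    linarith
  · rw [h4]
    linarith

theorem sn1_act_att {y : Γ} (hy : y ≠ 1) : Q.act y (Q.att y) = Q.att y := by
  have h := Q.att_conj y y hy
  have e : y * y * y⁻¹ = y := by group
  rw [e] at h
  exact h.symm

theorem sn1_act_att_inv {y : Γ} (hy : y ≠ 1) : Q.act y⁻¹ (Q.att y) = Q.att y := by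
  have h := Q.att_conj y⁻¹ y hy
  have e : y⁻¹ * y * y⁻¹⁻¹ = y := by group
  rw [e] at h
  exact h.symm

theorem sn1_act_inv_act (y : Γ) (w : Q.C) : Q.act y⁻¹ (Q.act y w) = w := by
  rw [← Q.act_mul, inv_mul_cancel, Q.act_one]

theorem sn1_act_act_inv (y : Γ) (w : Q.C) : Q.act y (Q.act y⁻¹ w) = w := by
  rw [← Q.act_mul, mul_inv_cancel, Q.act_one]

theorem sn1_zpow {y : Γ} (hy : y ≠ 1) {w : Q.C} (hw : w ≠ Q.att y) (k : ℤ) :
    Q.act (y ^ k) w ≠ Q.att y ∧ Q.s y (Q.act (y ^ k) w) = Q.lam y ^ k * Q.s y w := by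
  have hlam : Q.lam y ≠ 0 := by
    have := Q.lam_gt y hy
    linarith
  induction k using Int.induction_on with
  | zero =>
    rw [zpow_zero, zpow_zero, Q.act_one, one_mul]
    exact ⟨hw, rfl⟩
  | succ k ih =>
    have e : y ^ ((k : ℤ) + 1) = y * y ^ (k : ℤ) := by
      rw [add_comm, zpow_add, zpow_one]
    rw [e, Q.act_mul]
    constructor
    · intro h
      apply ih.1
      have h2 := congrArg (Q.act y⁻¹) h
      rw [Q.sn1_act_inv_act, Q.sn1_act_att_inv hy] at h2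
      exact h2
    · rw [Q.s_act y _ hy ih.1, ih.2, zpow_add₀ hlam, zpow_one]
      ring
  | pred k ih =>
    have e : y ^ (-(k : ℤ) - 1) = y⁻¹ * y ^ (-(k : ℤ)) := by
      rw [sub_eq_add_neg, add_comm, zpow_add, zpow_neg_one]
    rw [e, Q.act_mul]
    have hne : Q.act y⁻¹ (Q.act (y ^ (-(k : ℤ))) w) ≠ Q.att y := by
      intro h
      apply ih.1
      have h2 := congrArg (Q.act y) h
      rw [Q.sn1_act_act_inv, Q.sn1_act_att hy] at h2
      exact h2
    refine ⟨hne, ?_⟩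
    have h1 := Q.s_act y _ hy hne
    rw [Q.sn1_act_act_inv, ih.2] at h1
    rw [zpow_sub₀ hlam, zpow_one]
    field_simp
    linarith

theorem sn1_att_zpow {x y : Γ} (hx : x ≠ 1) (k : ℤ) :
    Q.att (y ^ k * x * y ^ (-k)) = Q.act (y ^ k) (Q.att x) := by
  have h := Q.att_conj (y ^ k) x hx
  rw [← zpow_neg] at h
  exact h

theorem sn1_inv_conj (x y : Γ) (k : ℤ) :
    (y ^ k * x * y ^ (-k))⁻¹ = y ^ k * x⁻¹ * y ^ (-k) := by
  rw [zpow_neg]
  group

theorem sn1_s_conj {x y : Γ} (h : Q.link x y) (k : ℤ) :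
    Q.s y (Q.att (y ^ k * x * y ^ (-k))) = Q.lam y ^ k * Q.s y (Q.att x) ∧
    Q.s y (Q.att (y ^ k * x * y ^ (-k))⁻¹) = Q.lam y ^ k * Q.s y (Q.att x⁻¹) := by
  obtain ⟨hx, hy⟩ := Q.link_ne h
  obtain ⟨h1, h2, -⟩ := (Q.link_iff hy).1 h
  constructor
  · rw [Q.sn1_att_zpow hx]
    exact (Q.sn1_zpow hy h1 k).2
  · rw [sn1_inv_conj, Q.sn1_att_zpow (inv_ne_one.2 hx)]
    exact (Q.sn1_zpow hy h2 k).2

theorem sn1_lam_zpow_pos {y : Γ} (hy : y ≠ 1) (k : ℤ) : 0 < Q.lam y ^ k := by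
  have := Q.lam_gt y hy
  exact zpow_pos (by linarith) k

theorem up_conj {x y : Γ} (h : Q.link x y) (k : ℤ) :
    Q.up y (y ^ k * x * y ^ (-k)) = Q.lam y ^ k * Q.up y x := by
  obtain ⟨h1, h2⟩ := Q.sn1_s_conj h k
  unfold up
  rw [h1, h2, ← mul_max_of_nonneg _ _ (Q.sn1_lam_zpow_pos (Q.link_ne h).2 k).le]

theorem dn_conj {x y : Γ} (h : Q.link x y) (k : ℤ) :
    Q.dn y (y ^ k * x * y ^ (-k)) = Q.lam y ^ k * Q.dn y x := by
  obtain ⟨h1, h2⟩ := Q.sn1_s_conj h k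
  unfold dn
  rw [h1, h2, ← mul_min_of_nonneg _ _ (Q.sn1_lam_zpow_pos (Q.link_ne h).2 k).le, mul_neg]

theorem link_coord {x y z : Γ} (hx : Q.link x y) (hz : Q.link z y) :
    Q.link x z ↔ (Q.up y x - Q.up y z) * (Q.dn y x - Q.dn y z) < 0 := by
  have hy := (Q.link_ne hx).2
  obtain ⟨x1, x2, -⟩ := (Q.link_iff hy).1 hx
  obtain ⟨z1, z2, -⟩ := (Q.link_iff hy).1 hz
  have h1 := Q.sep_fin y hy _ _ _ _ x1 x2 z1 z2
  have hU := Q.up_pos hx
  have hD := Q.dn_pos hx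
  have hV := Q.up_pos hz
  have hE := Q.dn_pos hz
  have hpos : 0 < (Q.dn y x + Q.up y z) * (Q.up y x + Q.dn y z) := by positivity
  have key : (Q.s y (Q.att x) - Q.s y (Q.att z)) * (Q.s y (Q.att x⁻¹) - Q.s y (Q.att z)) *
      ((Q.s y (Q.att x) - Q.s y (Q.att z⁻¹)) * (Q.s y (Q.att x⁻¹) - Q.s y (Q.att z⁻¹))) =
      ((Q.dn y x + Q.up y z) * (Q.up y x + Q.dn y z)) *
        ((Q.up y x - Q.up y z) * (Q.dn y x - Q.dn y z)) := by
    rcases Q.sn1_cases hx with ⟨_, _, h3, h4⟩ | ⟨_, _, h3, h4⟩ <;>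
    rcases Q.sn1_cases hz with ⟨_, _, h5, h6⟩ | ⟨_, _, h5, h6⟩ <;>
    rw [h3, h4, h5, h6] <;> ring
  unfold link
  rw [h1, key]
  constructor
  · intro h2
    by_contra hcon
    push Not at hcon
    have := mul_nonneg hpos.le hcon
    linarith
  · intro h2
    exact mul_neg_of_pos_of_neg hpos h2

theorem sn1_link_conj_y {y z : Γ} (hz : Q.link z y) (k : ℤ) :
    Q.link (y ^ k * z * y ^ (-k)) y := by
  have h := (Q.link_conj (y ^ k) (x := z) (y := y)).2 hz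
  have e : y ^ k * y * (y ^ k)⁻¹ = y := by
    rw [← zpow_neg, ← zpow_add_one, ← zpow_add]
    have : k + 1 + -k = 1 := by ring
    rw [this, zpow_one]
  rw [e, ← zpow_neg] at h
  exact h

/-- the crossing translates form an open interval -/
theorem sn1_mem_iff {x y z : Γ} (hx : Q.link x y) (hz : Q.link z y) (k : ℤ) :
    Q.link x (y ^ k * z * y ^ (-k)) ↔
      min (Real.log (Q.up y x / Q.up y z) / Real.log (Q.lam y))
        (Real.log (Q.dn y x / Q.dn y z) / Real.log (Q.lam y)) < k ∧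
      (k : ℝ) < max (Real.log (Q.up y x / Q.up y z) / Real.log (Q.lam y))
        (Real.log (Q.dn y x / Q.dn y z) / Real.log (Q.lam y)) := by
  have hy := (Q.link_ne hx).2
  have hlam := Q.lam_gt y hy
  have hL : 0 < Real.log (Q.lam y) := Real.log_pos hlam
  have hU := Q.up_pos hx
  have hD := Q.dn_pos hx
  have hV := Q.up_pos hz
  have hE := Q.dn_pos hz
  have hpow : ∀ k : ℤ, Real.log (Q.lam y ^ k) = k * Real.log (Q.lam y) := fun k =>
    Real.log_zpow _ _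
  have hsgn : ∀ u v : ℝ, 0 < u → 0 < v →
      ((0 < u - Q.lam y ^ k * v ↔ (k : ℝ) < Real.log (u / v) / Real.log (Q.lam y)) ∧
       (u - Q.lam y ^ k * v < 0 ↔ Real.log (u / v) / Real.log (Q.lam y) < k)) := by
    intro u v hu hv
    have hp := Q.sn1_lam_zpow_pos hy k
    constructor
    · rw [lt_div_iff₀ hL, ← hpow, Real.log_lt_log_iff hp (div_pos hu hv), lt_div_iff₀ hv, sub_pos]
    · rw [div_lt_iff₀ hL, ← hpow, Real.log_lt_log_iff (div_pos hu hv) hp, div_lt_iff₀ hv, sub_neg]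
  obtain ⟨u1, u2⟩ := hsgn _ _ hU hV
  obtain ⟨d1, d2⟩ := hsgn _ _ hD hE
  rw [Q.link_coord hx (Q.sn1_link_conj_y hz k), Q.up_conj hz, Q.dn_conj hz, mul_neg_iff, u1, u2,
    d1, d2, min_lt_iff, lt_max_iff]
  constructor
  · rintro (⟨h1, h2⟩ | ⟨h1, h2⟩)
    · exact ⟨Or.inr h2, Or.inl h1⟩
    · exact ⟨Or.inl h1, Or.inr h2⟩
  · rintro ⟨h1 | h1, h2 | h2⟩
    · exact absurd h1 (not_lt.2 h2.le)
    · exact Or.inr ⟨h1, h2⟩
    · exact Or.inl ⟨h2, h1⟩
    · exact absurd h1 (not_lt.2 h2.le)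

theorem sn1_set_eq {x y z : Γ} (hx : Q.link x y) (hz : Q.link z y) :
    {k : ℤ | Q.link x (y ^ k * z * y ^ (-k))} =
      ↑(Finset.Ioo ⌊min (Real.log (Q.up y x / Q.up y z) / Real.log (Q.lam y))
        (Real.log (Q.dn y x / Q.dn y z) / Real.log (Q.lam y))⌋
        ⌈max (Real.log (Q.up y x / Q.up y z) / Real.log (Q.lam y))
        (Real.log (Q.dn y x / Q.dn y z) / Real.log (Q.lam y))⌉) := by
  ext k
  rw [Set.mem_ofPred_eq, Q.sn1_mem_iff hx hz, Finset.coe_Ioo, Set.mem_Ioo, Int.floor_lt,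
    Int.lt_ceil]

theorem N_finite {x y z : Γ} (hx : Q.link x y) (hz : Q.link z y) :
    {k : ℤ | Q.link x (y ^ k * z * y ^ (-k))}.Finite := by
  rw [Q.sn1_set_eq hx hz]
  exact Finset.finite_toSet _

theorem sn1_sh {x y z : Γ} (hx : Q.link x y) (hz : Q.link z y) :
    Q.sh y x - Q.sh y z = Real.log (Q.up y x / Q.up y z) / Real.log (Q.lam y) -
      Real.log (Q.dn y x / Q.dn y z) / Real.log (Q.lam y) := by
  have hU := Q.up_pos hx
  have hD := Q.dn_pos hx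
  have hV := Q.up_pos hz
  have hE := Q.dn_pos hz
  unfold sh
  rw [Real.log_div hU.ne' hV.ne', Real.log_div hD.ne' hE.ne']
  ring

theorem N_bounds {x y z : Γ} (hx : Q.link x y) (hz : Q.link z y) :
    |Q.sh y x - Q.sh y z| - 1 ≤ Q.N y x z ∧ (Q.N y x z : ℝ) ≤ |Q.sh y x - Q.sh y z| + 1 := by
  rw [Q.sn1_sh hx hz]
  unfold N
  rw [Q.sn1_set_eq hx hz, Set.ncard_coe_finset, Int.card_Ioo]
  set a := Real.log (Q.up y x / Q.up y z) / Real.log (Q.lam y) with ha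
  set b := Real.log (Q.dn y x / Q.dn y z) / Real.log (Q.lam y) with hb
  have hab : |a - b| = max a b - min a b := by
    rw [max_sub_min_eq_abs', abs_sub_comm]
  rw [hab]
  have h1 := Int.floor_le (min a b)
  have h2 := Int.lt_floor_add_one (min a b)
  have h3 := Int.le_ceil (max a b)
  have h4 := Int.ceil_lt_add_one (max a b)
  have h5 : min a b ≤ max a b := min_le_max
  rcases le_total 0 (⌈max a b⌉ - ⌊min a b⌋ - 1) with h6 | h6
  · have h7 : (((⌈max a b⌉ - ⌊min a b⌋ - 1).toNat : ℕ) : ℝ) =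
        (⌈max a b⌉ : ℝ) - (⌊min a b⌋ : ℝ) - 1 := by
      have h8 := Int.toNat_of_nonneg h6
      have h9 : (((⌈max a b⌉ - ⌊min a b⌋ - 1).toNat : ℤ) : ℝ) =
        ((⌈max a b⌉ - ⌊min a b⌋ - 1 : ℤ) : ℝ) := by rw [h8]
      push_cast at h9
      exact h9
    rw [h7]
    constructor <;> linarith
  · rw [Int.toNat_of_nonpos h6]
    have h7 : ((⌈max a b⌉ - ⌊min a b⌋ - 1 : ℤ) : ℝ) ≤ 0 := by exact_mod_cast h6
    push_cast at h7
    constructor
    · push_cast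
      linarith
    · push_cast
      linarith

theorem interval {x y z : Γ} (hx : Q.link x y) (hz : Q.link z y) {i j k : ℤ} (hij : i ≤ j)
    (hjk : j ≤ k) (hi : Q.link x (y ^ i * z * y ^ (-i))) (hk : Q.link x (y ^ k * z * y ^ (-k))) :
    Q.link x (y ^ j * z * y ^ (-j)) := by
  rw [Q.sn1_mem_iff hx hz] at hi hk ⊢
  have h1 : (i : ℝ) ≤ j := by exact_mod_cast hij
  have h2 : (j : ℝ) ≤ k := by exact_mod_cast hjk
  exact ⟨lt_of_lt_of_le hi.1 h1, lt_of_le_of_lt h2 hk.2⟩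

end Circ

end Pool.Agent.LDJ
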