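import Pool.Agent.LDJ.SN1

/-!
LDJ.SN2: formal properties of `N y x z`.

PROOFS. `N_tri`: from `N_bounds`. `N_symm`: `link x (y^k z y^(-k)) ↔ link (y^(-k) x y^k) z`
(`link_conj`) `↔ link z (y^(-k) x y^k)`; the bijection `k ↦ -k`. `N_inv_base`: `k ↦ -k`.
`N_inv_mid`, `N_inv_last`: `link_inv_left`, `link_inv_right` (`(y^k z y^(-k))⁻¹ = y^k z⁻¹ y^(-k)`).
`N_aut`: `φ (y^k z y^(-k))`, `link_aut`. `N_conj`: the case `φ = MulAut.conj g`.
`N_zero`: the set is empty. About 100 lines.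
-/

namespace Pool.Agent.LDJ

namespace Circ

variable {Γ : Type} [Group Γ] (Q : Circ Γ)

theorem N_tri {x y v z : Γ} (hx : Q.link x y) (hv : Q.link v y) (hz : Q.link z y) :
    Q.N y x z ≤ Q.N y x v + Q.N y v z + 3 := by
  have h1 := (Q.N_bounds hx hz).2
  have h2 := (Q.N_bounds hx hv).1
  have h3 := (Q.N_bounds hv hz).1
  have h4 := abs_sub_le (Q.sh y x) (Q.sh y v) (Q.sh y z)
  have h5 : (Q.N y x z : ℝ) ≤ ((Q.N y x v + Q.N y v z + 3 : ℕ) : ℝ) := by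
    push_cast
    linarith
  exact_mod_cast h5

private theorem sn2_neg (s : Set ℤ) (t : Set ℤ) (h : ∀ k, k ∈ s ↔ -k ∈ t) :
    s.ncard = t.ncard := by
  have e : s = (fun k : ℤ => -k) '' t := by
    ext k
    rw [h]
    constructor
    · intro hk
      exact ⟨-k, hk, neg_neg k⟩
    · rintro ⟨j, hj, rfl⟩
      simpa using hj
  rw [e, Set.ncard_image_of_injective t neg_injective]

private theorem sn2_symm1 {x y z : Γ} (k : ℤ) (h : Q.link x (y ^ k * z * y ^ (-k))) :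
    Q.link z (y ^ (-k) * x * y ^ (-(-k))) := by
  have h1 := (Q.link_conj (y ^ (-k))).2 h
  have e1 : y ^ (-k) * (y ^ k * z * y ^ (-k)) * (y ^ (-k))⁻¹ = z := by
    group
  have e2 : (y ^ (-k))⁻¹ = y ^ (-(-k)) := by rw [← zpow_neg]
  rw [e1, e2] at h1
  exact Q.link_symm h1

theorem N_symm (y x z : Γ) : Q.N y x z = Q.N y z x := by
  refine sn2_neg _ _ fun k => ⟨fun h => Q.sn2_symm1 k h, fun h => ?_⟩
  have h1 := Q.sn2_symm1 (-k) h
  rw [neg_neg] at h1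
  exact h1

theorem N_inv_base (y x z : Γ) : Q.N y⁻¹ x z = Q.N y x z := by
  refine sn2_neg _ _ fun k => ?_
  simp only [Set.mem_setOf_eq, inv_zpow', neg_neg]

theorem N_inv_mid (y x z : Γ) : Q.N y x⁻¹ z = Q.N y x z := by
  simp only [N, Q.link_inv_left]

theorem N_inv_last (y x z : Γ) : Q.N y x z⁻¹ = Q.N y x z := by
  have e : ∀ k : ℤ, y ^ k * z⁻¹ * y ^ (-k) = (y ^ k * z * y ^ (-k))⁻¹ := by
    intro k
    group
  simp only [N, e, Q.link_inv_right]

theorem N_aut (φ : MulAut Γ) (y x z : Γ) : Q.N (φ y) (φ x) (φ z) = Q.N y x z := by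
  have e : ∀ k : ℤ, (φ y) ^ k * φ z * (φ y) ^ (-k) = φ (y ^ k * z * y ^ (-k)) := by
    intro k
    rw [map_mul, map_mul, map_zpow, map_zpow]
  simp only [N, e, Q.link_aut]

theorem N_conj (g y x z : Γ) : Q.N (g * y * g⁻¹) (g * x * g⁻¹) (g * z * g⁻¹) = Q.N y x z :=
  Q.N_aut (MulAut.conj g) y x z

theorem N_zero {y x z : Γ} (h : ∀ g, ¬ Q.link x (g * z * g⁻¹)) : Q.N y x z = 0 := by
  have e : {k : ℤ | Q.link x (y ^ k * z * y ^ (-k))} = ∅ := by
    ext k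
    simp only [Set.mem_setOf_eq, Set.mem_empty_iff_false, iff_false]
    rw [zpow_neg]
    exact h _
  rw [N, e, Set.ncard_empty]

end Circ

end Pool.Agent.LDJ
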