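import Pool.Agent.LDJ.SSplit2

/-!
LDJ.STN: an automorphism fixing the class of `c` normalises the twist.

PROOF. Compose with an inner automorphism: assume `φ c = c` or `φ c = c⁻¹` (replace `φ` by
`conj g * φ`; `toOut` does not change; at the end collect the conjugating elements).
Let `σ'` be from `Split.side_aut` for `φ`, `y = c`: sides of `c` correspond to sides of `φ c`.
The sides of `c⁻¹` are the sides of `c` (possibly with the other sign): `side c⁻¹ τ w` is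
`side c τ' w` for `w` not an end of `c` with `τ' = τ` or `τ' = -τ`, the same for all `w`
(two points are on different sides iff `sep (att c) (att c⁻¹) w w'`).
Let `a ∈ A \ Z`, `Z = zpowers c`. Then `att (a c a⁻¹)` is on side `σ` of `c`, and by
`Split.adj` no `g c g⁻¹` is between `c` and `a c a⁻¹`. Apply `φ`: `att (φ a c φ(a)⁻¹)` (or its
inverse) is on one side `τ` of `c`, `τ` independent of `a`, and no `h c h⁻¹` is between `c` and
`φ(a) c φ(a)⁻¹` (`betw` is preserved by `φ` and `φ⁻¹` by `si`, and does not change if an argument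
is replaced by its inverse). By `Split.adj'` (for `h` if `τ = σ`, for `h.swap` if `τ = -σ`)
`φ a ∈ A` resp. `φ a ∈ B`, for all `a ∈ A` (for `a ∈ Z` clear). In the same way `φ` maps `B` into
the other one (the other side). The same for `φ⁻¹`. So `φ A = A, φ B = B` or `φ A = B, φ B = A`.
Now `φ T φ⁻¹`: in the first case it is conjugation by `φ c = c^ε` on `A` and the identity on `B`, so
it equals `T^ε` (`gen`; an automorphism is determined on `A` and `B`; `T⁻¹` is conjugation by `c⁻¹`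
on `A`, as `T c = c`). In the second case it is conjugation by `c^ε` on `B` and the identity on
`A`, so it is `conj (c^ε) * T^(-ε)`. About 200 lines.
-/

namespace Pool.Agent.LDJ

namespace STNAux

open Circ

variable {Γ : Type} [Group Γ] {Q : Circ Γ}

theorem trich {y : Γ} (hy : y ≠ 1) {σ : ℝ} (hσ : σ = 1 ∨ σ = -1) (w : Q.C) :
    w = Q.att y ∨ w = Q.att y⁻¹ ∨ Q.side y σ w ∨ Q.side y (-σ) w := by
  by_cases h1 : w = Q.att y
  · exact Or.inl h1
  by_cases h2 : w = Q.att y⁻¹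
  · exact Or.inr (Or.inl h2)
  right
  right
  have h3 : Q.s y w ≠ 0 := by
    intro h3
    apply h2
    exact Q.s_inj y w (Q.att y⁻¹) hy h1 (Q.att_ne y hy) (by rw [h3, Q.s_rep y hy])
  rcases lt_or_gt_of_ne h3 with h4 | h4
  · rcases hσ with rfl | rfl
    · exact Or.inr ⟨h1, by linarith⟩
    · exact Or.inl ⟨h1, by linarith⟩
  · rcases hσ with rfl | rfl
    · exact Or.inl ⟨h1, by linarith⟩
    · exact Or.inr ⟨h1, by linarith⟩

theorem aut_ne (φ : MulAut Γ) {x : Γ} (hx : x ≠ 1) : φ x ≠ 1 := by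
  intro h
  apply hx
  rwa [EmbeddingLike.map_eq_one_iff] at h

theorem sep_aut (φ : MulAut Γ) {x y z t : Γ} (hx : x ≠ 1) (hy : y ≠ 1) (hz : z ≠ 1) (ht : t ≠ 1) :
    Q.sep (Q.att (φ x)) (Q.att (φ y)) (Q.att (φ z)) (Q.att (φ t)) ↔
      Q.sep (Q.att x) (Q.att y) (Q.att z) (Q.att t) := by
  constructor
  · intro h
    have h1 := Q.si φ⁻¹ _ _ _ _ (aut_ne φ hx) (aut_ne φ hy) (aut_ne φ hz) (aut_ne φ ht) h
    simpa only [MulAut.inv_apply_self] using h1
  · exact Q.si φ x y z t hx hy hz ht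

theorem sep_c {φ : MulAut Γ} {y : Γ} (hy : y ≠ 1) (hc : φ y = y ∨ φ y = y⁻¹) {x x' : Γ}
    (hx : x ≠ 1) (hx' : x' ≠ 1) :
    Q.sep (Q.att y) (Q.att y⁻¹) (Q.att (φ x)) (Q.att (φ x')) ↔
      Q.sep (Q.att y) (Q.att y⁻¹) (Q.att x) (Q.att x') := by
  rw [← sep_aut (Q := Q) φ hy (inv_ne_one.mpr hy) hx hx', map_inv]
  rcases hc with h | h
  · rw [h]
  · rw [h, inv_inv]
    exact ⟨Q.sep_swap _ _ _ _, Q.sep_swap _ _ _ _⟩

theorem end_c {φ : MulAut Γ} {y : Γ} (hy : y ≠ 1) (hc : φ y = y ∨ φ y = y⁻¹) {x : Γ}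
    (hx : x ≠ 1) (h : Q.att (φ x) = Q.att y ∨ Q.att (φ x) = Q.att y⁻¹) :
    Q.att x = Q.att y ∨ Q.att x = Q.att y⁻¹ := by
  have h1 := att_aut (Q := Q) φ hx hy
  have h2 := att_aut (Q := Q) φ hx (inv_ne_one.mpr hy)
  rw [map_inv] at h2
  rcases hc with h0 | h0
  · rw [h0] at h1 h2
    exact h.imp h1.mp h2.mp
  · rw [h0] at h1 h2
    rw [inv_inv] at h2
    exact (h.imp h2.mp h1.mp).symm

theorem not_end {y : Γ} (hy : y ≠ 1) {τ : ℝ} {w : Q.C} (h : Q.side y τ w) :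
    ¬ (w = Q.att y ∨ w = Q.att y⁻¹) := by
  rintro (rfl | rfl)
  · exact SS1.no_side hy τ h
  · exact SS1.no_side' hy τ h

theorem side_pres {y : Γ} {A B : Subgroup Γ} {σ : ℝ} (h : Q.Split y A B σ) {φ : MulAut Γ}
    (hc : φ y = y ∨ φ y = y⁻¹) : ∃ τ : ℝ, (τ = σ ∨ τ = -σ) ∧
      (∀ x, x ≠ 1 → Q.side y σ (Q.att x) → Q.side y τ (Q.att (φ x))) ∧
      (∀ x, x ≠ 1 → Q.side y (-σ) (Q.att x) → Q.side y (-τ) (Q.att (φ x))) := by
  have hy := h.ne
  obtain ⟨a0, ha0, hz0⟩ := h.nA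
  set x0 := a0 * y * a0⁻¹ with hx0
  have hx1 : x0 ≠ 1 := SS1.conj_ne a0 hy
  have hs0 : Q.side y σ (Q.att x0) := h.pa a0 ha0 hz0 y hy (SS1.no_side hy σ)
  have key : ∀ τ : ℝ, (τ = σ ∨ τ = -σ) → Q.side y τ (Q.att (φ x0)) →
      (∀ x, x ≠ 1 → Q.side y σ (Q.att x) → Q.side y τ (Q.att (φ x))) ∧
      (∀ x, x ≠ 1 → Q.side y (-σ) (Q.att x) → Q.side y (-τ) (Q.att (φ x))) := by
    intro τ hτσ hτ
    have hτ1 : τ = 1 ∨ τ = -1 := by
      rcases hτσ with rfl | rfl
      · exact h.sgn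
      · exact h.swap.sgn
    refine ⟨fun x hx hs => ?_, fun x hx hs => ?_⟩
    · rcases trich hy hτ1 (Q.att (φ x)) with h1 | h1 | h1 | h1
      · exact absurd (end_c hy hc hx (Or.inl h1)) (not_end hy hs)
      · exact absurd (end_c hy hc hx (Or.inr h1)) (not_end hy hs)
      · exact h1
      · exfalso
        have h2 := SS1.sep_y hy hτ1 hτ h1
        rw [sep_c hy hc hx1 hx] at h2
        exact SS1.not_sep_y hy h.sgn (Or.inr hs0) (Or.inr hs) h2
    · rcases trich hy hτ1 (Q.att (φ x)) with h1 | h1 | h1 | h1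
      · exact absurd (end_c hy hc hx (Or.inl h1)) (not_end hy hs)
      · exact absurd (end_c hy hc hx (Or.inr h1)) (not_end hy hs)
      · exfalso
        have h2 := SS1.sep_y hy h.sgn hs0 hs
        rw [← sep_c hy hc hx1 hx] at h2
        exact SS1.not_sep_y hy hτ1 (Or.inr hτ) (Or.inr h1) h2
      · exact h1
  rcases trich hy h.sgn (Q.att (φ x0)) with h1 | h1 | h1 | h1
  · exact absurd (end_c hy hc hx1 (Or.inl h1)) (not_end hy hs0)
  · exact absurd (end_c hy hc hx1 (Or.inr h1)) (not_end hy hs0)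
  · exact ⟨σ, Or.inl rfl, key σ (Or.inl rfl) h1⟩
  · exact ⟨-σ, Or.inr rfl, key (-σ) (Or.inr rfl) h1⟩

theorem betw_inv3 {m a b : Γ} : Q.betw m⁻¹ a⁻¹ b⁻¹ → Q.betw m a b := by
  rintro ⟨h1, h2, h3, h4⟩
  simp only [inv_inv] at h1 h2 h3 h4
  exact ⟨Q.sep_swap _ _ _ _ h2, Q.sep_swap _ _ _ _ h1, Q.sep_swap _ _ _ _ h4,
    Q.sep_swap _ _ _ _ h3⟩

theorem betw_aut {φ : MulAut Γ} {m a b : Γ} (hm : m ≠ 1) (ha : a ≠ 1) (hb : b ≠ 1)
    (h : Q.betw (φ m) (φ a) (φ b)) : Q.betw m a b := by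
  have hm' := inv_ne_one.mpr hm
  have ha' := inv_ne_one.mpr ha
  have hb' := inv_ne_one.mpr hb
  obtain ⟨h1, h2, h3, h4⟩ := h
  simp only [← map_inv] at h1 h2 h3 h4
  exact ⟨(sep_aut φ hm hm' ha hb).mp h1, (sep_aut φ hm hm' ha' hb').mp h2,
    (sep_aut φ hm hm' ha' hb).mp h3, (sep_aut φ hm hm' ha hb').mp h4⟩

theorem no_betw {y : Γ} {A B : Subgroup Γ} {σ : ℝ} (h : Q.Split y A B σ) {φ : MulAut Γ}
    (hc : φ y = y ∨ φ y = y⁻¹) {a : Γ} (ha : a ∈ A) (k : Γ) :
    ¬ Q.betw (k * y * k⁻¹) y (φ a * y * (φ a)⁻¹) := by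
  intro hb
  have hy := h.ne
  apply h.adj ha (φ⁻¹ k)
  apply betw_aut (φ := φ) (SS1.conj_ne _ hy) hy (SS1.conj_ne _ hy)
  rw [map_mul, map_mul, map_inv, MulAut.apply_inv_self, map_mul, map_mul, map_inv]
  rcases hc with h0 | h0
  · rw [h0]
    exact hb
  · rw [h0, ← SS1.inv_conj, ← SS1.inv_conj]
    apply betw_inv3
    simpa only [inv_inv] using hb

theorem half {y : Γ} {A B : Subgroup Γ} {σ : ℝ} (h : Q.Split y A B σ) {φ : MulAut Γ}
    (hc : φ y = y ∨ φ y = y⁻¹) {τ : ℝ}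
    (hs : ∀ x, x ≠ 1 → Q.side y σ (Q.att x) → Q.side y τ (Q.att (φ x))) {a : Γ} (ha : a ∈ A) :
    (τ = σ → φ a ∈ A) ∧ (τ = -σ → φ a ∈ B) := by
  have hy := h.ne
  by_cases hz : a ∈ Subgroup.zpowers y
  · have h1 : φ a ∈ Subgroup.zpowers y := by
      obtain ⟨n, rfl⟩ := Subgroup.mem_zpowers_iff.mp hz
      rw [map_zpow]
      rcases hc with h0 | h0
      · rw [h0]
        exact Subgroup.zpow_mem_zpowers y n
      · rw [h0]
        exact zpow_mem (inv_mem (Subgroup.mem_zpowers y)) n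
    exact ⟨fun _ => SS1.zle h.memA h1, fun _ => SS1.zle h.memB h1⟩
  · have h1 : Q.side y τ (Q.att (φ a * y * (φ a)⁻¹)) := by
      rcases hc with h0 | h0
      · have h2 := hs _ (SS1.conj_ne a hy) (h.pa a ha hz y hy (SS1.no_side hy σ))
        rw [map_mul, map_mul, map_inv, h0] at h2
        exact h2
      · have h2 := hs _ (SS1.conj_ne a (inv_ne_one.mpr hy))
          (h.pa a ha hz y⁻¹ (inv_ne_one.mpr hy) (SS1.no_side' hy σ))
        rw [map_mul, map_mul, map_inv, map_inv, h0, inv_inv] at h2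
        exact h2
    refine ⟨fun ht => ?_, fun ht => ?_⟩
    · rw [ht] at h1
      exact h.adj' h1 (no_betw h hc ha)
    · rw [ht] at h1
      exact h.swap.adj' h1 (no_betw h hc ha)

theorem eq_of_agree {y : Γ} {A B : Subgroup Γ} {σ : ℝ} (h : Q.Split y A B σ) {f g : MulAut Γ}
    (hA : ∀ a ∈ A, f a = g a) (hB : ∀ b ∈ B, f b = g b) : f = g := by
  have h1 : A ⊔ B ≤ (f : Γ →* Γ).eqLocus (g : Γ →* Γ) := sup_le hA hB
  rw [h.gen] at h1
  ext x
  exact h1 (Subgroup.mem_top x)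

theorem conj_T (T : MulAut Γ) (g : Γ) : T * MulAut.conj g = MulAut.conj (T g) * T := by
  ext x
  simp [MulAut.conj_apply]

theorem main {ι : Type} [Fintype ι] (M : Model Γ ι) (φ : MulAut Γ)
    (hc : φ M.c = M.c ∨ φ M.c = M.c⁻¹) :
    ∃ g : Γ, φ * M.T = MulAut.conj g * M.T * φ ∨ φ * M.T = MulAut.conj g * M.T⁻¹ * φ := by
  have h := M.split
  obtain ⟨τ, hτ, h1, h2⟩ := side_pres h hc
  have hA := fun a ha => half h hc (τ := τ) h1 (a := a) ha
  have hB := fun a ha => half h.swap hc (τ := -τ) h2 (a := a) ha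
  have hTA := M.TA
  have hTB := M.TB
  have hTA' : ∀ a ∈ M.A, M.T⁻¹ a = M.c⁻¹ * a * M.c := by
    intro a ha
    have h3 : M.c⁻¹ * a * M.c ∈ M.A := mul_mem (mul_mem (inv_mem h.memA) ha) h.memA
    have h4 := hTA _ h3
    have h5 : M.T (M.c⁻¹ * a * M.c) = a := by
      rw [h4]
      group
    rw [← h5, MulAut.inv_apply_self, h5]
  have hTB' : ∀ b ∈ M.B, M.T⁻¹ b = b := by
    intro b hb
    conv_lhs => rw [← hTB b hb, MulAut.inv_apply_self]
  rcases hτ with ht | ht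
  · have hA1 : ∀ a ∈ M.A, φ a ∈ M.A := fun a ha => (hA a ha).1 ht
    have hB1 : ∀ a ∈ M.B, φ a ∈ M.B := fun a ha => (hB a ha).1 (by rw [ht])
    rcases hc with h0 | h0
    · refine ⟨1, Or.inl ?_⟩
      apply eq_of_agree h
      · intro a ha
        simp only [map_one, one_mul, MulAut.mul_apply]
        rw [hTA a ha, hTA _ (hA1 a ha), map_mul, map_mul, map_inv, h0]
      · intro b hb
        simp only [map_one, one_mul, MulAut.mul_apply]
        rw [hTB b hb, hTB _ (hB1 b hb)]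
    · refine ⟨1, Or.inr ?_⟩
      apply eq_of_agree h
      · intro a ha
        simp only [map_one, one_mul, MulAut.mul_apply]
        rw [hTA a ha, hTA' _ (hA1 a ha), map_mul, map_mul, map_inv, h0, inv_inv]
      · intro b hb
        simp only [map_one, one_mul, MulAut.mul_apply]
        rw [hTB b hb, hTB' _ (hB1 b hb)]
  · have hA1 : ∀ a ∈ M.A, φ a ∈ M.B := fun a ha => (hA a ha).2 ht
    have hB1 : ∀ a ∈ M.B, φ a ∈ M.A := fun a ha => (hB a ha).2 (by rw [ht])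
    rcases hc with h0 | h0
    · refine ⟨M.c, Or.inr ?_⟩
      apply eq_of_agree h
      · intro a ha
        simp only [MulAut.mul_apply, MulAut.conj_apply]
        rw [hTA a ha, hTB' _ (hA1 a ha), map_mul, map_mul, map_inv, h0]
      · intro b hb
        simp only [MulAut.mul_apply, MulAut.conj_apply]
        rw [hTB b hb, hTA' _ (hB1 b hb)]
        group
    · refine ⟨M.c⁻¹, Or.inl ?_⟩
      apply eq_of_agree h
      · intro a ha
        simp only [MulAut.mul_apply, MulAut.conj_apply]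
        rw [hTA a ha, hTB _ (hA1 a ha), map_mul, map_mul, map_inv, h0]
      · intro b hb
        simp only [MulAut.mul_apply, MulAut.conj_apply]
        rw [hTB b hb, hTA _ (hB1 b hb)]
        group

end STNAux

open STNAux in
theorem Model.tn {Γ ι : Type} [Group Γ] [Fintype ι] (M : Model Γ ι) (φ : MulAut Γ)
    (h : φ M.c ∈ cls M.c) :
    ∃ g : Γ, φ * M.T * φ⁻¹ = MulAut.conj g * M.T ∨ φ * M.T * φ⁻¹ = MulAut.conj g * M.T⁻¹ := by
  obtain ⟨g, hg⟩ := h
  set ψ : MulAut Γ := MulAut.conj g⁻¹ * φ with hψ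
  have hψc : ψ M.c = M.c ∨ ψ M.c = M.c⁻¹ := by
    rcases hg with hg | hg
    · left
      rw [hψ, MulAut.mul_apply, hg, MulAut.conj_apply]
      group
    · right
      rw [hψ, MulAut.mul_apply, hg, MulAut.conj_apply]
      group
  have hφ : φ = MulAut.conj g * ψ := by
    rw [hψ, ← mul_assoc, ← map_mul, mul_inv_cancel, map_one, one_mul]
  have key : ∀ (R : MulAut Γ) (k : Γ), ψ * M.T = MulAut.conj k * R * ψ →
      φ * M.T * φ⁻¹ = MulAut.conj (g * k * R g⁻¹) * R := by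
    intro R k hk
    rw [mul_inv_eq_iff_eq_mul]
    calc φ * M.T = MulAut.conj g * (ψ * M.T) := by rw [hφ, mul_assoc]
      _ = MulAut.conj g * MulAut.conj k * R * ψ := by rw [hk]; group
      _ = MulAut.conj g * MulAut.conj k * (R * MulAut.conj g⁻¹) * φ := by
        rw [hψ]; group
      _ = MulAut.conj (g * k * R g⁻¹) * R * φ := by
        rw [conj_T R g⁻¹, map_mul, map_mul]
        simp only [mul_assoc]
  obtain ⟨k, hk⟩ := main M ψ hψc
  rcases hk with hk | hk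
  · exact ⟨_, Or.inl (key M.T k hk)⟩
  · exact ⟨_, Or.inr (key M.T⁻¹ k hk)⟩

end Pool.Agent.LDJ
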