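import Pool.Agent.Hhelper67.Johnson.Defs

/-!
LDJ.WAlg: the surface group with 0-based letters `a_i = aN g i`, `b_i = bN g i`, `i < g`,
`δ_i = del g i = ⁅a_0,b_0⁆ ⋯ ⁅a_{i-1},b_{i-1}⁆`, `β_i = bet g i = b_{i-1} ⋯ b_0`, and two commuting
involutive automorphisms (reflections) `R0`, `R1`; the permutations `σ_k` of the group.

PROOFS.
`del_g`: the relator. `homN`: `PresentedGroup.toGroup`; the relator is sent to
`(List.ofFn fun i : Fin g => ⁅A i, B i⁆).prod = D g` (prove by induction on `n ≤ g`: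
`(List.ofFn fun i : Fin n => ⁅A i, B i⁆).prod = D n`, `List.ofFn_succ'`/`List.prod_concat` or
`List.prod_ofFn`+`Fin.prod_univ_castSucc` is for commutative only, so use `List.ofFn_succ'`).
`ext`: `PresentedGroup.ext`.
`exists_refl`. By `homN`, define homomorphisms (`i < g`)
  `R0 a_i = δ_i a_i⁻¹ δ_i⁻¹`, `R0 b_i = δ_{i+1} b_i δ_i⁻¹` with `D i = δ_i⁻¹`:
  `⁅R0 a_i, R0 b_i⁆ = δ_i δ_{i+1}⁻¹`;
  `R1 a_i = β_i⁻¹ δ_i a_i β_i`, `R1 b_i = β_{i+1}⁻¹ β_i` with `D i = β_i⁻¹ δ_i⁻¹ β_i`: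
  `⁅R1 a_i, R1 b_i⁆ = β_i⁻¹ δ_i b_i⁻¹ δ_{i+1}⁻¹ β_{i+1}` (expand `δ_{i+1} = δ_i a_i b_i a_i⁻¹ b_i⁻¹`,
  `β_{i+1} = b_i β_i`). Then by induction `R0 δ_i = δ_i⁻¹`, `R0 β_i = δ_i β_i`,
  `R1 δ_i = β_i⁻¹ δ_i⁻¹ β_i`, `R1 β_i = β_i⁻¹` (`i ≤ g`), and `R0 (R0 x) = x`, `R1 (R1 x) = x`,
  `R0 (R1 x) = R1 (R0 x)` on the letters.
`exists_sig`: for `k : ℕ` let `τ 0 = R0`, `τ (2i+1) x = β_i * R1 x`, `τ (2i+2) x = a_i⁻¹ δ_i⁻¹ R0 x`,
  `sig k = τ k.val`. Squares: `β_i R1 (β_i R1 x) = x`, `a_i⁻¹δ_i⁻¹ R0 (a_i⁻¹δ_i⁻¹) = 1`.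
  Neighbours: `τ(2i+1)τ(2i+2) x = a_i⁻¹ β_i R1 (R0 x) = τ(2i+2)τ(2i+1) x` (`i < g`);
  `τ(2i+3)τ(2i+2) x = b_i a_i⁻¹ β_i R1 (R0 x) = τ(2i+2)τ(2i+3) x` (`i < g`);
  `τ 0 τ 1 = τ 1 τ 0`; `τ 0 τ(2g+1) x = R0 (β_g) R0 (R1 x) = β_g R0 (R1 x)` (`δ_g = 1`).
  Products: `τ(2i+1) τ 0 τ(2i+1) τ(2i+2) x = a_i x`: it is
  `β_i R1(R0 β_i) R1(R0(R1(a_i⁻¹δ_i⁻¹ R0 x))) = β_i R1(δ_i β_i) R0(a_i⁻¹ δ_i⁻¹) x
  = β_i (β_i⁻¹ δ_i⁻¹ β_i) β_i⁻¹ (δ_i a_i δ_i⁻¹) δ_i x = a_i x`; and
  `τ(2i+3) τ(2i+1) x = β_{i+1} R1(β_i) x = b_i x`. About 250 lines.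
-/

namespace Pool.Agent.LDJ

open Pool.Agent.Hhelper67.Johnson
open scoped commutatorElement

/-- `a_i` -/
def aN (g i : ℕ) : SurfaceGroup g :=
  if h : i < g then (PresentedGroup.of (⟨i, h⟩, false) : PresentedGroup {relator g}) else 1

/-- `b_i` -/
def bN (g i : ℕ) : SurfaceGroup g :=
  if h : i < g then (PresentedGroup.of (⟨i, h⟩, true) : PresentedGroup {relator g}) else 1

/-- `δ_i = ⁅a_0,b_0⁆ ⋯ ⁅a_{i-1},b_{i-1}⁆` -/
def del (g : ℕ) : ℕ → SurfaceGroup g
  | 0 => 1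
  | i + 1 => del g i * ⁅aN g i, bN g i⁆

/-- `β_i = b_{i-1} ⋯ b_0` -/
def bet (g : ℕ) : ℕ → SurfaceGroup g
  | 0 => 1
  | i + 1 => bN g i * bet g i

theorem prod_ofFn_aux {G : Type} [Group G] (A B D : ℕ → G) (h0 : D 0 = 1) :
    ∀ n : ℕ, (∀ i < n, D (i + 1) = D i * ⁅A i, B i⁆) →
      (List.ofFn fun i : Fin n => ⁅A i, B i⁆).prod = D n := by
  intro n
  induction n with
  | zero => intro _; simp [h0]
  | succ n ih =>
    intro h
    rw [List.ofFn_succ', List.concat_eq_append, List.prod_append, List.prod_singleton]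
    have h1 := ih (fun i hi => h i (by omega))
    have h2 : (List.ofFn fun i : Fin n => ⁅A (Fin.castSucc i : Fin (n + 1)),
      B (Fin.castSucc i : Fin (n + 1))⁆).prod = D n := by
      simpa using h1
    rw [h2, h n (Nat.lt_succ_self n)]
    simp

theorem aN_of {g i : ℕ} (h : i < g) :
    aN g i = (PresentedGroup.of (⟨i, h⟩, false) : PresentedGroup {relator g}) := by
  rw [aN, dif_pos h]

theorem bN_of {g i : ℕ} (h : i < g) :
    bN g i = (PresentedGroup.of (⟨i, h⟩, true) : PresentedGroup {relator g}) := by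
  rw [bN, dif_pos h]

theorem map_rel (g : ℕ) {G : Type} [Group G] (φ : FreeGroup (Gen g) →* G) :
    φ (relator g) = (List.ofFn fun i : Fin g =>
      ⁅φ (FreeGroup.of (i, false)), φ (FreeGroup.of (i, true))⁆).prod := by
  unfold relator
  rw [map_list_prod, List.map_ofFn]
  congr 1
  congr 1
  funext i
  simp [map_commutatorElement]

theorem del_g (g : ℕ) : del g g = 1 := by
  have h1 := prod_ofFn_aux (aN g) (bN g) (del g) rfl g (fun i _ => rfl)
  rw [← h1]
  have h2 : (List.ofFn fun i : Fin g => ⁅aN g i, bN g i⁆) = (List.ofFn fun i : Fin g =>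
      ⁅(PresentedGroup.of (i, false) : PresentedGroup {relator g}),
        (PresentedGroup.of (i, true) : PresentedGroup {relator g})⁆) := by
    congr 1
    funext i
    rw [aN_of i.2, bN_of i.2]
    rfl
  rw [h2]
  have h3 := map_rel g (PresentedGroup.mk {relator g})
  have h4 : PresentedGroup.mk {relator g} (relator g) = 1 :=
    PresentedGroup.one_of_mem (Set.mem_singleton _)
  rw [h4] at h3
  exact h3.symm

theorem homN (g : ℕ) {G : Type} [Group G] (A B D : ℕ → G) (h0 : D 0 = 1)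
    (h1 : ∀ i < g, D (i + 1) = D i * ⁅A i, B i⁆) (hg : D g = 1) :
    ∃ φ : SurfaceGroup g →* G, ∀ i < g, φ (aN g i) = A i ∧ φ (bN g i) = B i := by
  let f : Gen g → G := fun x => if x.2 then B x.1 else A x.1
  have hf : ∀ r ∈ ({relator g} : Set (FreeGroup (Gen g))), FreeGroup.lift f r = 1 := by
    intro r hr
    rw [Set.mem_singleton_iff.mp hr, map_rel g (FreeGroup.lift f)]
    have h2 := prod_ofFn_aux A B D h0 g h1
    rw [hg] at h2
    rw [← h2]
    congr 1
    congr 1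
    funext i
    simp [f]
  refine ⟨PresentedGroup.toGroup hf, fun i hi => ⟨?_, ?_⟩⟩
  · rw [aN_of hi]
    exact (PresentedGroup.toGroup.of hf).trans (by simp [f])
  · rw [bN_of hi]
    exact (PresentedGroup.toGroup.of hf).trans (by simp [f])

theorem extN (g : ℕ) {G : Type} [Group G] {φ ψ : SurfaceGroup g →* G}
    (h : ∀ i < g, φ (aN g i) = ψ (aN g i) ∧ φ (bN g i) = ψ (bN g i)) : φ = ψ := by
  refine @PresentedGroup.ext _ _ _ _ φ ψ ?_
  rintro ⟨i, b⟩
  cases b
  · have h1 := (h i.1 i.2).1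
    rw [aN_of i.2] at h1
    exact h1
  · have h1 := (h i.1 i.2).2
    rw [bN_of i.2] at h1
    exact h1

/-- the letters generate -/
theorem closureN (g : ℕ) :
    Subgroup.closure {x : SurfaceGroup g | ∃ i < g, x = aN g i ∨ x = bN g i} = ⊤ := by
  have h1 : Subgroup.closure (Set.range (PresentedGroup.of :
      Gen g → PresentedGroup {relator g})) = ⊤ := PresentedGroup.closure_range_of _
  rw [eq_top_iff]
  have h2 : (⊤ : Subgroup (SurfaceGroup g)) = Subgroup.closure (Set.range (PresentedGroup.of :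
      Gen g → PresentedGroup {relator g})) := h1.symm
  rw [h2]
  apply Subgroup.closure_mono
  rintro _ ⟨⟨i, b⟩, rfl⟩
  cases b
  · exact ⟨i.1, i.2, Or.inl (aN_of i.2).symm⟩
  · exact ⟨i.1, i.2, Or.inr (bN_of i.2).symm⟩

/-- the two reflections -/
structure Refl (g : ℕ) where
  R0 : SurfaceGroup g →* SurfaceGroup g
  R1 : SurfaceGroup g →* SurfaceGroup g
  R0a : ∀ i < g, R0 (aN g i) = del g i * (aN g i)⁻¹ * (del g i)⁻¹
  R0b : ∀ i < g, R0 (bN g i) = del g (i + 1) * bN g i * (del g i)⁻¹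
  R1a : ∀ i < g, R1 (aN g i) = (bet g i)⁻¹ * del g i * aN g i * bet g i
  R1b : ∀ i < g, R1 (bN g i) = (bet g (i + 1))⁻¹ * bet g i
  R0R0 : ∀ x, R0 (R0 x) = x
  R1R1 : ∀ x, R1 (R1 x) = x
  R0R1 : ∀ x, R0 (R1 x) = R1 (R0 x)
  R0d : ∀ i ≤ g, R0 (del g i) = (del g i)⁻¹
  R0t : ∀ i ≤ g, R0 (bet g i) = del g i * bet g i
  R1d : ∀ i ≤ g, R1 (del g i) = (bet g i)⁻¹ * (del g i)⁻¹ * bet g i
  R1t : ∀ i ≤ g, R1 (bet g i) = (bet g i)⁻¹

theorem exists_refl (g : ℕ) : Nonempty (Refl g) := by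
  obtain ⟨R0, h0⟩ := homN g (fun i => del g i * (aN g i)⁻¹ * (del g i)⁻¹)
    (fun i => del g (i + 1) * bN g i * (del g i)⁻¹) (fun i => (del g i)⁻¹) (by simp [del])
    (by
      intro i _
      simp only [del, commutatorElement_def]
      group) (by simp [del_g])
  obtain ⟨R1, h1⟩ := homN g (fun i => (bet g i)⁻¹ * del g i * aN g i * bet g i)
    (fun i => (bet g (i + 1))⁻¹ * bet g i) (fun i => (bet g i)⁻¹ * (del g i)⁻¹ * bet g i)
    (by simp [del, bet])
    (by
      intro i _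
      simp only [del, bet, commutatorElement_def]
      group) (by simp [del_g])
  have R0a : ∀ i < g, R0 (aN g i) = del g i * (aN g i)⁻¹ * (del g i)⁻¹ := fun i hi => (h0 i hi).1
  have R0b : ∀ i < g, R0 (bN g i) = del g (i + 1) * bN g i * (del g i)⁻¹ :=
    fun i hi => (h0 i hi).2
  have R1a : ∀ i < g, R1 (aN g i) = (bet g i)⁻¹ * del g i * aN g i * bet g i :=
    fun i hi => (h1 i hi).1
  have R1b : ∀ i < g, R1 (bN g i) = (bet g (i + 1))⁻¹ * bet g i := fun i hi => (h1 i hi).2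
  have R0d : ∀ i, i ≤ g → R0 (del g i) = (del g i)⁻¹ := by
    intro i
    induction i with
    | zero => intro _; simp [del]
    | succ i ih =>
      intro hi
      rw [del, map_mul, map_commutatorElement, ih (by omega), R0a i (by omega), R0b i (by omega)]
      simp only [del, commutatorElement_def]
      group
  have R0t : ∀ i, i ≤ g → R0 (bet g i) = del g i * bet g i := by
    intro i
    induction i with
    | zero => intro _; simp [del, bet]
    | succ i ih =>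
      intro hi
      rw [bet, map_mul, ih (by omega), R0b i (by omega)]
      group
  have R1d : ∀ i, i ≤ g → R1 (del g i) = (bet g i)⁻¹ * (del g i)⁻¹ * bet g i := by
    intro i
    induction i with
    | zero => intro _; simp [del, bet]
    | succ i ih =>
      intro hi
      rw [del, map_mul, map_commutatorElement, ih (by omega), R1a i (by omega), R1b i (by omega)]
      simp only [del, bet, commutatorElement_def]
      group
  have R1t : ∀ i, i ≤ g → R1 (bet g i) = (bet g i)⁻¹ := by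
    intro i
    induction i with
    | zero => intro _; simp [bet]
    | succ i ih =>
      intro hi
      rw [bet, map_mul, ih (by omega), R1b i (by omega)]
      simp only [bet]
      group
  refine ⟨⟨R0, R1, R0a, R0b, R1a, R1b, ?_, ?_, ?_, R0d, R0t, R1d, R1t⟩⟩
  · have h : R0.comp R0 = MonoidHom.id _ := by
      apply extN
      intro i hi
      refine ⟨?_, ?_⟩
      · rw [MonoidHom.comp_apply, MonoidHom.id_apply, R0a i hi, map_mul, map_mul, map_inv, map_inv,
          R0d i (by omega), R0a i hi]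
        group
      · rw [MonoidHom.comp_apply, MonoidHom.id_apply, R0b i hi, map_mul, map_mul, map_inv,
          R0d i (by omega), R0d (i + 1) (by omega), R0b i hi]
        group
    exact fun x => DFunLike.congr_fun h x
  · have h : R1.comp R1 = MonoidHom.id _ := by
      apply extN
      intro i hi
      refine ⟨?_, ?_⟩
      · rw [MonoidHom.comp_apply, MonoidHom.id_apply, R1a i hi, map_mul, map_mul, map_mul, map_inv,
          R1t i (by omega), R1d i (by omega), R1a i hi]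
        group
      · rw [MonoidHom.comp_apply, MonoidHom.id_apply, R1b i hi, map_mul, map_inv,
          R1t i (by omega), R1t (i + 1) (by omega)]
        simp only [bet]
        group
    exact fun x => DFunLike.congr_fun h x
  · have h : R0.comp R1 = R1.comp R0 := by
      apply extN
      intro i hi
      refine ⟨?_, ?_⟩
      · rw [MonoidHom.comp_apply, MonoidHom.comp_apply, R1a i hi, R0a i hi, map_mul, map_mul,
          map_mul, map_inv, R0t i (by omega), R0d i (by omega), R0a i hi, map_mul, map_mul,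
          map_inv, map_inv, R1d i (by omega), R1a i hi]
        group
      · rw [MonoidHom.comp_apply, MonoidHom.comp_apply, R1b i hi, R0b i hi, map_mul, map_inv,
          R0t i (by omega), R0t (i + 1) (by omega), map_mul, map_mul, map_inv,
          R1d i (by omega), R1d (i + 1) (by omega), R1b i hi]
        group
    exact fun x => DFunLike.congr_fun h x

/-- The involutions. -/
def fS {g : ℕ} (R : Refl g) (k : ℕ) (x : SurfaceGroup g) : SurfaceGroup g :=
  if k = 0 then R.R0 x else if k % 2 = 1 then bet g (k / 2) * R.R1 x else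
    (aN g (k / 2 - 1))⁻¹ * (del g (k / 2 - 1))⁻¹ * R.R0 x

theorem fS_zero {g : ℕ} (R : Refl g) (x : SurfaceGroup g) : fS R 0 x = R.R0 x := by
  simp [fS]

theorem fS_odd {g : ℕ} (R : Refl g) (i : ℕ) (x : SurfaceGroup g) :
    fS R (2 * i + 1) x = bet g i * R.R1 x := by
  have h1 : (2 * i + 1) % 2 = 1 := by omega
  have h2 : (2 * i + 1) / 2 = i := by omega
  simp [fS, h1, h2]

theorem fS_even {g : ℕ} (R : Refl g) (i : ℕ) (x : SurfaceGroup g) :
    fS R (2 * i + 2) x = (aN g i)⁻¹ * (del g i)⁻¹ * R.R0 x := by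
  have h1 : ¬ (2 * i + 2) % 2 = 1 := by omega
  have h2 : (2 * i + 2) / 2 - 1 = i := by omega
  rw [fS, if_neg (by omega), if_neg h1, h2]

theorem fS_inv {g : ℕ} (R : Refl g) {k : ℕ} (hk : k < 2 * g + 2) (x : SurfaceGroup g) :
    fS R k (fS R k x) = x := by
  rcases Nat.eq_zero_or_pos k with rfl | hk0
  · rw [fS_zero, fS_zero, R.R0R0]
  · rcases Nat.even_or_odd' k with ⟨i, rfl | rfl⟩
    · obtain ⟨i, rfl⟩ : ∃ i', i = i' + 1 := ⟨i - 1, by omega⟩
      have e : 2 * (i + 1) = 2 * i + 2 := by ring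
      rw [e, fS_even, fS_even, map_mul, map_mul, map_inv, map_inv, R.R0R0, R.R0a i (by omega),
        R.R0d i (by omega)]
      group
    · rw [fS_odd, fS_odd, map_mul, R.R1R1, R.R1t i (by omega)]
      group

theorem fS_comm {g : ℕ} (R : Refl g) {k : ℕ} (hk : k + 1 < 2 * g + 2) (x : SurfaceGroup g) :
    fS R k (fS R (k + 1) x) = fS R (k + 1) (fS R k x) := by
  rcases Nat.eq_zero_or_pos k with rfl | hk0
  · have e : 0 + 1 = 2 * 0 + 1 := rfl
    rw [fS_zero, fS_zero, e, fS_odd, fS_odd]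
    simp only [bet, one_mul]
    exact R.R0R1 x
  · rcases Nat.even_or_odd' k with ⟨i, rfl | rfl⟩
    · obtain ⟨i, rfl⟩ : ∃ i', i = i' + 1 := ⟨i - 1, by omega⟩
      have e1 : 2 * (i + 1) = 2 * i + 2 := by ring
      rw [fS_odd, fS_odd, e1, fS_even, fS_even, map_mul, map_mul, map_mul, map_inv, map_inv,
        R.R0t (i + 1) (by omega), R.R1a i (by omega), R.R1d i (by omega), R.R0R1]
      simp only [bet, del, commutatorElement_def]
      group
    · have e1 : 2 * i + 1 + 1 = 2 * i + 2 := by ring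
      rw [e1, fS_odd, fS_odd, fS_even, fS_even, map_mul, map_mul, map_mul, map_inv, map_inv,
        R.R0t i (by omega), R.R1a i (by omega), R.R1d i (by omega), R.R0R1]
      group

theorem exists_sig (g : ℕ) (hg : 1 ≤ g) : ∃ sig : ZMod (2 * g + 2) → Equiv.Perm (SurfaceGroup g),
    (∀ k, sig k * sig k = 1) ∧ (∀ k, sig k * sig (k + 1) = sig (k + 1) * sig k) ∧
    (∀ i < g, ∀ x, (sig ((2 * i + 1 : ℕ) : ZMod (2 * g + 2)) * sig 0 *
      sig ((2 * i + 1 : ℕ) : ZMod (2 * g + 2)) * sig ((2 * i + 2 : ℕ) : ZMod (2 * g + 2))) x =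
        aN g i * x) ∧
    (∀ i < g, ∀ x, (sig ((2 * i + 3 : ℕ) : ZMod (2 * g + 2)) *
      sig ((2 * i + 1 : ℕ) : ZMod (2 * g + 2))) x = bN g i * x) := by
  obtain ⟨R⟩ := exists_refl g
  haveI : NeZero (2 * g + 2) := ⟨by omega⟩
  have hval : ∀ k : ZMod (2 * g + 2), k.val < 2 * g + 2 := fun k => ZMod.val_lt k
  obtain ⟨sig, hsig⟩ : ∃ sig : ZMod (2 * g + 2) → Equiv.Perm (SurfaceGroup g),
      ∀ k x, sig k x = fS R k.val x :=
    ⟨fun k => Function.Involutive.toPerm (fS R k.val) (fun x => fS_inv R (hval k) x),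
      fun k x => rfl⟩
  have hcast : ∀ n : ℕ, n < 2 * g + 2 → ((n : ℕ) : ZMod (2 * g + 2)).val = n :=
    fun n hn => ZMod.val_natCast_of_lt hn
  refine ⟨sig, ?_, ?_, ?_, ?_⟩
  · intro k
    ext x
    rw [Equiv.Perm.mul_apply, hsig, hsig, fS_inv R (hval k), Equiv.Perm.one_apply]
  · intro k
    ext x
    rw [Equiv.Perm.mul_apply, Equiv.Perm.mul_apply, hsig, hsig, hsig, hsig]
    obtain ⟨n, hn⟩ : ∃ n : ℕ, n = k.val := ⟨_, rfl⟩
    have hk : k = ((n : ℕ) : ZMod (2 * g + 2)) := by rw [hn, ZMod.natCast_zmod_val]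
    have hn' : n < 2 * g + 2 := by rw [hn]; exact hval k
    rcases Nat.lt_or_ge (n + 1) (2 * g + 2) with h1 | h1
    · have h2 : (k + 1).val = n + 1 := by
        rw [hk, ← Nat.cast_succ]
        exact hcast _ h1
      rw [h2, ← hn]
      exact fS_comm R h1 x
    · have h2 : k + 1 = 0 := by
        have h3 : n + 1 = 2 * g + 2 := by omega
        rw [hk, ← Nat.cast_succ, Nat.succ_eq_add_one, h3, ZMod.natCast_self]
      rw [h2, ZMod.val_zero, ← hn]
      have h3 : n = 2 * g + 1 := by omega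
      rw [h3, fS_odd, fS_odd, fS_zero, fS_zero, map_mul, R.R0t g le_rfl, del_g, one_mul, R.R0R1]
  · intro i hi x
    have e1 : ((2 * i + 1 : ℕ) : ZMod (2 * g + 2)).val = 2 * i + 1 := hcast _ (by omega)
    have e2 : ((2 * i + 2 : ℕ) : ZMod (2 * g + 2)).val = 2 * i + 2 := hcast _ (by omega)
    rw [Equiv.Perm.mul_apply, Equiv.Perm.mul_apply, Equiv.Perm.mul_apply, hsig, hsig, hsig, hsig,
      e1, e2, ZMod.val_zero, fS_zero, fS_odd, fS_odd, fS_even]
    simp only [map_mul, map_inv, R.R1R1, R.R0R0, R.R0R1, R.R0t i hi.le, R.R0d i hi.le,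
      R.R0a i hi, R.R1a i hi, R.R1d i hi.le, R.R1t i hi.le]
    group
  · intro i hi x
    have e1 : ((2 * i + 1 : ℕ) : ZMod (2 * g + 2)).val = 2 * i + 1 := hcast _ (by omega)
    have e2 : ((2 * i + 3 : ℕ) : ZMod (2 * g + 2)).val = 2 * (i + 1) + 1 := by
      rw [hcast _ (by omega)]
      ring
    rw [Equiv.Perm.mul_apply, hsig, hsig, e1, e2, fS_odd, fS_odd, map_mul, R.R1R1,
      R.R1t i hi.le]
    simp only [bet]
    group

end Pool.Agent.LDJ
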