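import Pool.Agent.LDJ.WSurf

/-!
LDJ.WAtt: attracting points of elements of the surface group.

PROOFS.
`att_w`: `v = (normalised rep w (att x))` satisfies `F.ρ y v = lam x • v`; `att_unique`.
`orth`: `B (att x) m = B (ρ x (att x)) (ρ x m) = lam x * B (att x) m`.
`att_pair`: `κ = -B (e a) (e b) > 1`, `μ = κ - √(κ²-1) ∈ (0,1)`, `μ' = κ + √(κ²-1) = 1/μ > 1`;
`s_b (e_a + μ e_b) = e_a + μ' e_b`, `s_a (e_a + μ' e_b) = μ'² (e_a + μ e_b)`. So `e_a + μ e_b` (light, third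
coordinate positive by `D.pos`) is an eigenvector of `(s_a s_b)²` for `μ'^4 > 1`: `att_unique`.
`skip_ne`: `s_{k-1} s_{k+1} = 1` would give `s_{k-1} = s_{k+1}`, `rep s_{k+1} e_{k-1} = -e_{k-1}`, so
`2 e_{k-1} = 2 B(e_{k-1}, e_{k+1}) e_{k+1}`, so `B(..)² = 1`, but it is `< -1` (`D.far'`, `k-1` and
`k+1` are different and not neighbours as `2g+2 ≥ 6`).
`skip_orth`: `e_k` is orthogonal to `e_{k-1}, e_{k+1}`, so fixed by `rep (s_{k-1} s_{k+1})`; `orth`.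
About 150 lines.
-/

namespace Pool.Agent.LDJ

open Pool.Agent.Hhelper67.Johnson
open scoped commutatorElement

namespace Emb

variable {g : ℕ} {D : RNData g} (E : Emb g D)

theorem wa_eig {x : SurfaceGroup g} (hx : x ≠ 1) {v : V} (hv : v ∈ Light) {μ : ℝ} (hμ : 1 < μ)
    (h : D.R.rep (E.io x) v = μ • v) : (E.F.att x).1 = (v 2)⁻¹ • v := by
  have hp := hv.2
  let u : Cir := ⟨(v 2)⁻¹ • v, by
    rw [B_smul_left, B_smul_right, hv.1]
    simp, by
    rw [Pi.smul_apply, smul_eq_mul, inv_mul_cancel₀ hp.ne']⟩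
  have h1 : E.F.ρ x u.1 = μ • u.1 := by
    show D.R.rep (E.io x) ((v 2)⁻¹ • v) = μ • ((v 2)⁻¹ • v)
    rw [map_smul, h, smul_comm]
  have h2 := (E.F.att_unique hx hμ h1).1
  rw [← h2]

theorem wa_ne {x y : SurfaceGroup g} (hx : x ≠ 1) {w : D.R.W} (h : E.io y = w * E.io x * w⁻¹) :
    y ≠ 1 := by
  rintro rfl
  rw [map_one] at h
  apply hx
  apply E.inj
  rw [map_one]
  have h1 := congrArg (fun z => w⁻¹ * z * w) h
  simpa [mul_assoc] using h1.symm

theorem att_w {x y : SurfaceGroup g} (hx : x ≠ 1) {w : D.R.W} (h : E.io y = w * E.io x * w⁻¹) :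
    ∃ t : ℝ, 0 < t ∧ (E.F.att y).1 = t • D.R.rep w (E.F.att x).1 := by
  have hy := E.wa_ne hx h
  have hL : D.R.rep w (E.F.att x).1 ∈ Light :=
    light_map (D.R.rep_pres w) (fun z hz => D.R.rep_fut w hz) (E.F.att x).light
  have h1 : D.R.rep (E.io x) (E.F.att x).1 = E.F.lam x • (E.F.att x).1 := (E.F.data hx).Lu
  have h2 : D.R.rep (E.io y) (D.R.rep w (E.F.att x).1) =
      E.F.lam x • D.R.rep w (E.F.att x).1 := by
    rw [h, D.R.wr_mul, D.R.wr_mul, ← D.R.wr_mul w⁻¹ w, inv_mul_cancel, D.R.wf_rep_one, h1,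
      map_smul]
  exact ⟨_, inv_pos.2 hL.2, E.wa_eig hy hL (E.F.data hx).lam_gt h2⟩

theorem wa_orth {x : SurfaceGroup g} (hx : x ≠ 1) {m : V} (h : D.R.rep (E.io x) m = m) :
    B (E.F.att x).1 m = 0 := by
  have h1 : D.R.rep (E.io x) (E.F.att x).1 = E.F.lam x • (E.F.att x).1 := (E.F.data hx).Lu
  have h2 := D.R.rep_pres (E.io x) (E.F.att x).1 m
  rw [h1, h, B_smul_left] at h2
  have h3 := (E.F.data hx).lam_gt
  have h4 : (E.F.lam x - 1) * B (E.F.att x).1 m = 0 := by linarith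
  rcases mul_eq_zero.1 h4 with h5 | h5
  · linarith
  · exact h5

theorem orth {x : SurfaceGroup g} (hx : x ≠ 1) {m : V} (h : D.R.rep (E.io x) m = m) :
    B (E.F.att x).1 m = 0 ∧ B (E.F.att x⁻¹).1 m = 0 := by
  refine ⟨E.wa_orth hx h, E.wa_orth (inv_ne_one.2 hx) ?_⟩
  have h1 : D.R.rep (E.io x⁻¹) (D.R.rep (E.io x) m) = m := by
    rw [map_inv, ← D.R.wr_mul, inv_mul_cancel, D.R.wf_rep_one]
  rwa [h] at h1

theorem wa_pair (a b : ZMod (2 * g + 2)) {κ μ μ' : ℝ} (hκ : B (D.R.e a) (D.R.e b) = -κ)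
    (h1 : μ' = 2 * κ - μ) (h2 : μ * μ' = 1) :
    D.R.rep (D.R.s a * D.R.s b) (D.R.e a + μ • D.R.e b) =
      μ' ^ 2 • (D.R.e a + μ • D.R.e b) := by
  have ha := D.R.one a
  have hb := D.R.one b
  have hba : B (D.R.e b) (D.R.e a) = -κ := by rw [B_comm, hκ]
  rw [D.R.wr_mul, D.R.wr_s, D.R.wr_s]
  simp only [RA.B_sub_smul, B_add_left, B_smul_left, ha, hb, hκ, hba]
  funext i
  simp only [Pi.add_apply, Pi.sub_apply, Pi.smul_apply, smul_eq_mul]
  subst h1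
  have h3 : (2 * κ - μ) ^ 2 = 2 * κ * (2 * κ - μ) - 1 := by linear_combination -h2
  linear_combination (-(D.R.e a i) - μ * D.R.e b i) * h3 +
    (-(2 * κ) * D.R.e b i) * h2

theorem att_pair {x : SurfaceGroup g} (hx : x ≠ 1) {a b : ZMod (2 * g + 2)}
    (h : E.io x = D.R.s a * D.R.s b * (D.R.s a * D.R.s b)) (hab : B (D.R.e a) (D.R.e b) < -1) :
    ∃ t μ : ℝ, 0 < t ∧ 0 < μ ∧ μ < 1 ∧ 1 + 2 * μ * B (D.R.e a) (D.R.e b) + μ ^ 2 = 0 ∧
      (E.F.att x).1 = t • (D.R.e a + μ • D.R.e b) := by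
  set κ := -B (D.R.e a) (D.R.e b) with hκ
  have hκ1 : 1 < κ := by rw [hκ]; linarith
  have hκ2 : B (D.R.e a) (D.R.e b) = -κ := by rw [hκ, neg_neg]
  set r := Real.sqrt (κ ^ 2 - 1) with hr
  have hr0 : 0 ≤ r := Real.sqrt_nonneg _
  have hr2 : r ^ 2 = κ ^ 2 - 1 := Real.sq_sqrt (by nlinarith)
  have hprod : (κ - r) * (κ + r) = 1 := by linear_combination -hr2
  have hμ0 : 0 < κ - r := by
    by_contra hc
    push Not at hc
    nlinarith
  have hμ1 : κ - r < 1 := by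
    by_contra hc
    push Not at hc
    nlinarith
  have hq : 1 + 2 * (κ - r) * B (D.R.e a) (D.R.e b) + (κ - r) ^ 2 = 0 := by
    rw [hκ2]
    linear_combination hr2
  have hp := wa_pair (D := D) a b (μ := κ - r) (μ' := κ + r) hκ2 (by ring) hprod
  have hL : D.R.e a + (κ - r) • D.R.e b ∈ Light := by
    constructor
    · rw [B_add_left, B_add_right, B_add_right, B_smul_left, B_smul_left, B_smul_right,
        B_smul_right, D.R.one, D.R.one, B_comm (D.R.e b) (D.R.e a)]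
      linarith
    · rw [Pi.add_apply, Pi.smul_apply, smul_eq_mul]
      have h1 := D.pos a
      have h2 := mul_pos hμ0 (D.pos b)
      linarith
  have h2 : D.R.rep (E.io x) (D.R.e a + (κ - r) • D.R.e b) =
      ((κ + r) ^ 2 * (κ + r) ^ 2) • (D.R.e a + (κ - r) • D.R.e b) := by
    rw [h, D.R.wr_mul, hp, map_smul, hp, smul_smul]
  have h3 : 1 < (κ + r) ^ 2 := by nlinarith
  have h4 : 1 < (κ + r) ^ 2 * (κ + r) ^ 2 := by nlinarith
  exact ⟨_, κ - r, inv_pos.2 hL.2, hμ0, hμ1, hq, E.wa_eig hx hL h4 h2⟩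

include E in
theorem wa_cast {n : ℕ} (h0 : 0 < n) (h1 : n < 6) : ((n : ℕ) : ZMod (2 * g + 2)) ≠ 0 := by
  have hg := E.hg
  intro h
  have h2 := (ZMod.natCast_eq_zero_iff _ _).1 h
  have h3 := Nat.le_of_dvd h0 h2
  omega

include E in
theorem wa_skip (k : ZMod (2 * g + 2)) : B (D.R.e (k - 1)) (D.R.e (k + 1)) < -1 := by
  have c1 := E.wa_cast (n := 1) (by norm_num) (by norm_num)
  have c2 := E.wa_cast (n := 2) (by norm_num) (by norm_num)
  have c3 := E.wa_cast (n := 3) (by norm_num) (by norm_num)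
  push_cast at c1 c2 c3
  apply D.far'
  · intro h
    apply c2
    linear_combination -h
  · rw [D.adj_iff]
    rintro (h | h)
    · apply c1
      linear_combination h
    · apply c3
      linear_combination -h

include E in
theorem skip_ne (k : ZMod (2 * g + 2)) : D.R.s (k - 1) * D.R.s (k + 1) ≠ 1 := by
  intro h
  have h1 := E.wa_skip k
  have h2 : D.R.rep (D.R.s (k - 1) * D.R.s (k + 1)) (D.R.e (k + 1)) = D.R.e (k + 1) := by
    rw [h, D.R.wf_rep_one]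
  rw [D.R.wr_mul, D.R.wr_s, D.R.wr_s] at h2
  have h3 := congrArg (fun z => B z (D.R.e (k + 1))) h2
  simp only [RA.B_sub_smul, D.R.one] at h3
  rw [B_comm (D.R.e (k + 1)) (D.R.e (k - 1))] at h3
  nlinarith

theorem skip_orth {x : SurfaceGroup g} {k : ZMod (2 * g + 2)}
    (h : E.io x = D.R.s (k - 1) * D.R.s (k + 1)) :
    x ≠ 1 ∧ B (E.F.att x).1 (D.R.e k) = 0 ∧ B (E.F.att x⁻¹).1 (D.R.e k) = 0 := by
  have hx : x ≠ 1 := by
    rintro rfl
    rw [map_one] at h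
    exact E.skip_ne k h.symm
  refine ⟨hx, E.orth hx ?_⟩
  have a1 : B (D.R.e k) (D.R.e (k + 1)) = 0 := D.R.orth _ _ ((D.adj_iff _ _).2 (Or.inl rfl))
  have a2 : B (D.R.e k) (D.R.e (k - 1)) = 0 :=
    D.R.orth _ _ ((D.adj_iff _ _).2 (Or.inr (by ring)))
  rw [h, D.R.wr_mul, D.R.wr_s (k + 1), a1, mul_zero, zero_smul, sub_zero, D.R.wr_s, a2, mul_zero,
    zero_smul, sub_zero]

end Emb

end Pool.Agent.LDJ
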