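import Pool.Agent.LDJ.SDef

/-!
LDJ.WConn: connectivity of the crossing graph of the conjugates of the base curves (abstract form).

`Γ` is embedded in a group `W` generated by involutions `s i` (`i : ZMod N`), conjugation by `s j`
restricts to an automorphism `R j` of `Γ`; `m i ∈ Γ` is `(s i * s (i+3)) ^ 2`, consecutive `m i` are
linked, and every `s j` is `io γ * s i` or `io γ * s (i + 3)`.
-/

namespace Pool.Agent.LDJ

section

variable {Γ : Type} [Group Γ] (Q : Circ Γ)

/-- automorphisms preserve links -/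
theorem wc_link_aut (φ : MulAut Γ) {x y : Γ} (hx : x ≠ 1) (hy : y ≠ 1) (h : Q.link x y) :
    Q.link (φ x) (φ y) := by
  have h1 := Q.si φ x x⁻¹ y y⁻¹ hx (inv_ne_one.mpr hx) hy (inv_ne_one.mpr hy) h
  simpa only [Circ.link, map_inv] using h1

theorem wc_link_symm {x y : Γ} (h : Q.link x y) : Q.link y x := Q.sep_symm _ _ _ _ h

theorem wc_link_inv_left {x y : Γ} (h : Q.link x y) : Q.link x⁻¹ y := by
  unfold Circ.link at h ⊢
  rw [inv_inv]
  exact Q.sep_swap _ _ _ _ h

variable {N : ℕ} {W : Type} [Group W] (io : Γ →* W) (hio : Function.Injective io)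
  (s : ZMod N → W) (hs : ∀ i, s i * s i = 1) (hgen : Subgroup.closure (Set.range s) = ⊤)
  (R : ZMod N → MulAut Γ) (hR : ∀ j x, io (R j x) = s j * io x * s j)
  (m : ZMod N → Γ) (hm : ∀ i, io (m i) = (s i * s (i + 3)) ^ 2) (hm1 : ∀ i, m i ≠ 1)
  (hpar : ∀ i j, ∃ γ : Γ, s j = io γ * s i ∨ s j = io γ * s (i + 3))
  (hlink : ∀ i, Q.link (m i) (m (i + 1)))

/-- the relation of the crossing graph -/
def wcRel (m : ZMod N → Γ) (u v : Γ) : Prop := ((∃ j, v ∈ cls (m j)) ∧ Q.link u v) ∨ v = u⁻¹

include hs in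
theorem wc_sinv (j : ZMod N) : (s j)⁻¹ = s j := inv_eq_of_mul_eq_one_left (hs j)

include hio hs hR hm in
theorem wc_R_self (j : ZMod N) : R j (m j) = (m j)⁻¹ := by
  apply hio
  rw [hR, map_inv, hm, ← inv_pow, mul_inv_rev, wc_sinv s hs, wc_sinv s hs, pow_two, pow_two]
  have h1 := hs j
  calc s j * (s j * s (j + 3) * (s j * s (j + 3))) * s j
      = (s j * s j) * s (j + 3) * (s j * s (j + 3)) * s j := by group
    _ = s (j + 3) * s j * (s (j + 3) * s j) := by rw [h1, one_mul]; group

include hio hs hR hm in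
theorem wc_R_self3 (i : ZMod N) : R (i + 3) (m i) = (m i)⁻¹ := by
  apply hio
  rw [hR, map_inv, hm, ← inv_pow, mul_inv_rev, wc_sinv s hs, wc_sinv s hs, pow_two, pow_two]
  have h1 := hs (i + 3)
  calc s (i + 3) * (s i * s (i + 3) * (s i * s (i + 3))) * s (i + 3)
      = s (i + 3) * s i * (s (i + 3) * s i) * (s (i + 3) * s (i + 3)) := by group
    _ = s (i + 3) * s i * (s (i + 3) * s i) := by rw [h1, mul_one]

theorem wc_cls_self (y : Γ) : y ∈ cls y := ⟨1, Or.inl (by simp)⟩

theorem wc_cls_inv {x y : Γ} (h : x ∈ cls y) : x⁻¹ ∈ cls y := by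
  obtain ⟨g, rfl | rfl⟩ := h
  · exact ⟨g, Or.inr (by group)⟩
  · exact ⟨g, Or.inl (by group)⟩

theorem wc_cls_conj {x y : Γ} (h : x ∈ cls y) (k : Γ) : k * x * k⁻¹ ∈ cls y := by
  obtain ⟨g, rfl | rfl⟩ := h
  · exact ⟨k * g, Or.inl (by group)⟩
  · exact ⟨k * g, Or.inr (by group)⟩

theorem wc_ne_one {m : ZMod N → Γ} (hm1 : ∀ i, m i ≠ 1) {x : Γ} {i : ZMod N}
    (h : x ∈ cls (m i)) : x ≠ 1 := by
  obtain ⟨g, rfl | rfl⟩ := h
  · rw [Ne, conj_eq_one_iff]
    exact hm1 i
  · rw [Ne, conj_eq_one_iff, inv_eq_one]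
    exact hm1 i

include hio hs hR hm hpar in
theorem wc_R_mem (i j : ZMod N) : R j (m i) ∈ cls (m i) := by
  obtain ⟨γ, h | h⟩ := hpar i j
  · have h1 : R j (m i) = γ * (R i (m i)) * γ⁻¹ := by
      apply hio
      have h2 : s j = s i * (io γ)⁻¹ := by
        rw [← wc_sinv s hs j, h, mul_inv_rev, wc_sinv s hs]
      rw [hR, map_mul, map_mul, map_inv, hR]
      calc s j * io (m i) * s j = (io γ * s i) * io (m i) * (s i * (io γ)⁻¹) := by
            rw [← h2, ← h]
        _ = _ := by group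
    rw [h1, wc_R_self io hio s hs R hR m hm]
    exact wc_cls_conj (wc_cls_inv (wc_cls_self _)) _
  · have h1 : R j (m i) = γ * (R (i + 3) (m i)) * γ⁻¹ := by
      apply hio
      have h2 : s j = s (i + 3) * (io γ)⁻¹ := by
        rw [← wc_sinv s hs j, h, mul_inv_rev, wc_sinv s hs]
      rw [hR, map_mul, map_mul, map_inv, hR]
      calc s j * io (m i) * s j = (io γ * s (i + 3)) * io (m i) * (s (i + 3) * (io γ)⁻¹) := by
            rw [← h2, ← h]
        _ = _ := by group
    rw [h1, wc_R_self3 io hio s hs R hR m hm]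
    exact wc_cls_conj (wc_cls_inv (wc_cls_self _)) _

include hio hs hR hm hpar in
theorem wc_R_cls (i j : ZMod N) {x : Γ} (h : x ∈ cls (m i)) : R j x ∈ cls (m i) := by
  have h0 := wc_R_mem io hio s hs R hR m hm hpar i j
  obtain ⟨g, rfl | rfl⟩ := h
  · rw [map_mul, map_mul, map_inv]
    exact wc_cls_conj h0 _
  · rw [map_mul, map_mul, map_inv, map_inv]
    exact wc_cls_conj (wc_cls_inv h0) _

include hio hs hR hm hm1 hpar in
theorem wc_rel_R (j : ZMod N) {u v : Γ} (hu : u ≠ 1) (h : wcRel Q m u v) :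
    wcRel Q m (R j u) (R j v) := by
  rcases h with ⟨⟨i, hv⟩, hl⟩ | rfl
  · exact Or.inl ⟨⟨i, wc_R_cls io hio s hs R hR m hm hpar i j hv⟩,
      wc_link_aut Q (R j) hu (wc_ne_one hm1 hv) hl⟩
  · exact Or.inr (by rw [map_inv])

include hm1 in
theorem wc_rel_mem {u v : Γ} (hu : ∃ i, u ∈ cls (m i)) (h : Relation.ReflTransGen (wcRel Q m) u v) :
    ∃ i, v ∈ cls (m i) := by
  induction h with
  | refl => exact hu
  | tail _ h ih =>
    rcases h with ⟨h, -⟩ | rfl
    · exact h
    · obtain ⟨i, hi⟩ := ih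
      exact ⟨i, wc_cls_inv hi⟩

include hio hs hR hm hm1 hpar in
theorem wc_path_R (j : ZMod N) {u v : Γ} (hu : ∃ i, u ∈ cls (m i))
    (h : Relation.ReflTransGen (wcRel Q m) u v) :
    Relation.ReflTransGen (wcRel Q m) (R j u) (R j v) := by
  induction h with
  | refl => exact Relation.ReflTransGen.refl
  | tail h1 h ih =>
    obtain ⟨i, hi⟩ := wc_rel_mem Q m hm1 hu h1
    exact ih.tail (wc_rel_R Q io hio s hs R hR m hm hm1 hpar j (wc_ne_one hm1 hi) h)

include hm1 in
theorem wc_path_symm {u v : Γ} (hu : ∃ i, u ∈ cls (m i))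
    (h : Relation.ReflTransGen (wcRel Q m) u v) : Relation.ReflTransGen (wcRel Q m) v u := by
  induction h with
  | refl => exact Relation.ReflTransGen.refl
  | tail h1 h ih =>
    obtain ⟨i, hi⟩ := wc_rel_mem Q m hm1 hu h1
    refine Relation.ReflTransGen.head ?_ ih
    rcases h with ⟨-, h⟩ | rfl
    · exact Or.inl ⟨⟨i, hi⟩, wc_link_symm Q h⟩
    · exact Or.inr (inv_inv _).symm

include hlink in
theorem wc_path_m (k : ℕ) : Relation.ReflTransGen (wcRel Q m) (m 0) (m (k : ZMod N)) := by
  induction k with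
  | zero =>
    rw [Nat.cast_zero]
  | succ k ih =>
    refine ih.tail (Or.inl ⟨⟨((k + 1 : ℕ) : ZMod N), wc_cls_self _⟩, ?_⟩)
    rw [Nat.cast_succ]
    exact hlink _

include hlink in
theorem wc_path_m' [NeZero N] (i : ZMod N) : Relation.ReflTransGen (wcRel Q m) (m 0) (m i) := by
  have := wc_path_m Q m hlink i.val
  rwa [ZMod.natCast_zmod_val] at this

include hio hs hR hm hm1 hpar hlink in
theorem wc_path_R0 [NeZero N] (j : ZMod N) :
    Relation.ReflTransGen (wcRel Q m) (m 0) (R j (m 0)) := by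
  have h1 := wc_path_m' Q m hlink j
  have h2 : Relation.ReflTransGen (wcRel Q m) (m j) (R j (m j)) := by
    rw [wc_R_self io hio s hs R hR m hm]
    exact Relation.ReflTransGen.single (Or.inr rfl)
  have h3 := wc_path_R Q io hio s hs R hR m hm hm1 hpar j ⟨0, wc_cls_self _⟩ h1
  refine (h1.trans h2).trans (wc_path_symm Q m hm1 ⟨0, ?_⟩ h3)
  exact wc_R_cls io hio s hs R hR m hm hpar 0 j (wc_cls_self _)

include hio hs hgen hR hm hm1 hpar hlink in
/-- every `W`-translate of an `m i` is reachable -/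
theorem wc_path_W [NeZero N] (w : W) : ∀ (i : ZMod N) (y : Γ), io y = w * io (m i) * w⁻¹ →
    Relation.ReflTransGen (wcRel Q m) (m 0) y := by
  have hw : w ∈ Subgroup.closure (Set.range s) := by
    rw [hgen]
    exact Subgroup.mem_top _
  -- a conjugate by `s j` of a reachable element is reachable
  have key : ∀ (j : ZMod N) (y : Γ), Relation.ReflTransGen (wcRel Q m) (m 0) y →
      Relation.ReflTransGen (wcRel Q m) (m 0) (R j y) := fun j y hy =>
    (wc_path_R0 Q io hio s hs R hR m hm hm1 hpar hlink j).trans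
      (wc_path_R Q io hio s hs R hR m hm hm1 hpar j ⟨0, wc_cls_self _⟩ hy)
  induction hw using Subgroup.closure_induction_left with
  | one =>
    intro i y hy
    have : y = m i := by
      apply hio
      rw [hy]
      group
    rw [this]
    exact wc_path_m' Q m hlink i
  | mul_left x hx w _ ih =>
    obtain ⟨j, rfl⟩ := hx
    intro i y hy
    have h1 : io (R j y) = w * io (m i) * w⁻¹ := by
      rw [hR, hy, mul_inv_rev, wc_sinv s hs]
      have h2 := hs j
      calc s j * (s j * w * io (m i) * (w⁻¹ * s j)) * s j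
          = (s j * s j) * w * io (m i) * w⁻¹ * (s j * s j) := by group
        _ = w * io (m i) * w⁻¹ := by rw [h2]; group
    have h3 : y = R j (R j y) := by
      apply hio
      rw [hR, hR]
      have h2 := hs j
      calc io y = (1 : W) * io y * 1 := by group
        _ = (s j * s j) * io y * (s j * s j) := by rw [h2]
        _ = s j * (s j * io y * s j) * s j := by group
    rw [h3]
    exact key j _ (ih i _ h1)
  | inv_mul_cancel x hx w _ ih =>
    obtain ⟨j, rfl⟩ := hx
    intro i y hy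
    have h1 : io (R j y) = w * io (m i) * w⁻¹ := by
      rw [hR, hy, mul_inv_rev, inv_inv, wc_sinv s hs]
      have h2 := hs j
      calc s j * (s j * w * io (m i) * (w⁻¹ * s j)) * s j
          = (s j * s j) * w * io (m i) * w⁻¹ * (s j * s j) := by group
        _ = w * io (m i) * w⁻¹ := by rw [h2]; group
    have h3 : y = R j (R j y) := by
      apply hio
      rw [hR, hR]
      have h2 := hs j
      calc io y = (1 : W) * io y * 1 := by group
        _ = (s j * s j) * io y * (s j * s j) := by rw [h2]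
        _ = s j * (s j * io y * s j) * s j := by group
    rw [h3]
    exact key j _ (ih i _ h1)

include hio hs hgen hR hm hm1 hpar hlink in
theorem connM_abs [NeZero N] (i : ZMod N) {y : Γ} (hy : y ∈ cls (m i)) :
    Relation.ReflTransGen (fun u v => ((∃ j, v ∈ cls (m j)) ∧ Q.link u v) ∨ v = u⁻¹) (m 0) y := by
  have h0 : ∀ g : Γ, Relation.ReflTransGen (wcRel Q m) (m 0) (g * m i * g⁻¹) := fun g =>
    wc_path_W Q io hio s hs hgen R hR m hm hm1 hpar hlink (io g) i _ (by
      rw [map_mul, map_mul, map_inv])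
  obtain ⟨g, rfl | rfl⟩ := hy
  · exact h0 g
  · refine (h0 g).tail (Or.inr ?_)
    group

include hlink in
theorem conn_abs [NeZero N] (i j : ZMod N) :
    Relation.TransGen (fun a b => Q.link (m a) (m b)) i j := by
  have h1 : ∀ k : ℕ, Relation.TransGen (fun a b => Q.link (m a) (m b)) i (i + ((k + 1 : ℕ) : ZMod N)) := by
    intro k
    induction k with
    | zero =>
      rw [Nat.zero_add, Nat.cast_one]
      exact Relation.TransGen.single (hlink i)
    | succ k ih =>
      refine ih.tail ?_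
      have := hlink (i + ((k + 1 : ℕ) : ZMod N))
      rwa [add_assoc, ← Nat.cast_succ] at this
  have h2 := h1 ((j - i).val + N - 1)
  have h3 : (((j - i).val + N - 1 + 1 : ℕ) : ZMod N) = j - i := by
    have hN : 0 < N := Nat.pos_of_ne_zero (NeZero.ne N)
    have : (j - i).val + N - 1 + 1 = (j - i).val + N := by omega
    rw [this, Nat.cast_add, ZMod.natCast_zmod_val, ZMod.natCast_self, add_zero]
  rw [h3] at h2
  have h4 : i + (j - i) = j := by ring
  rwa [h4] at h2

end

end Pool.Agent.LDJ
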