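import Pool.Agent.LDJ.WEmb

/-!
LDJ.WPar: parity, and automorphisms of the surface group coming from the polygon group.

PROOFS.
`exists_chi`: `D.R.cs.lift` to the commutative group of exponent 2
`Multiplicative (ZMod 2 × ZMod 2)`.
`chi_io`: on the letters (`2i+1`, `2i+3` odd, `0`, `2i+2` even; values of `((n : ℕ) : ZMod (2g+2)).val =
n` for `n < 2g+2`), `2i+2 ≤ 2g`, `2i+3 ≤ 2g+1`. `ran`: `chi_io` and `cos01`: `chi s_0 = (1,0)`,
`chi s_1 = (0,1)`, `chi (s_0 s_1) = (1,1)` are not trivial.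
`free1`, `free2`: `chi (w s_k w⁻¹) = chi s_k ≠ 1`, `chi (s_k s_{k+1}) = (1,1)` (`k` and `k+1` have
different parity, `2g+2` is even).
`exists_aut`: `Φ` preserves `ker chi = range io`, so the composition `E.io` (bijection with the
range), `Φ`, inverse, is an automorphism. `R`: `Φ = MulAut.conj (s_j)`. `rt`: `Φ = Rot i`, where
`Rot i : MulAut W`, `Rot i (s k) = s (k + i)` (`lift` twice, the adjacency is invariant); parity:
`chi (Rot i w)` is `chi w` (`i` even) or `chi w` with exchanged coordinates (`i` odd) (check on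
generators), so it preserves the kernel.
`rt_c`: `rt i c` where `c = del g 1`, `E.io c = (s_0 s_3)²` (`io_del`). `R_rt`: `s_i (s_i s_{i+3})² s_i =
(s_{i+3} s_i)²`; injectivity. `rt_add`: injectivity and the same for `Rot`.
`coset`: `T = {1, s_i, s_{i+3}, s_i s_{i+3}}` has all four parities (`i`, `i+3` different parity), so
for `w ∈ W` there is `t ∈ T` with `chi (w t⁻¹) = 1`.
`c_ne`: otherwise `s_0 s_3 s_0 = s_3`; apply `rep` to `e_3` and take `B` with `e_0`: with
`k = -B (e 0) (e 3) > 1` (`D.far'`) one gets `4k³ - 3k = k`, so `k² = 1`.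
`cls_iff`: `y = g c_i^{±1} g⁻¹`: `w = io g` or `w = io g s_i` (`s_i` inverts `(s_i s_{i+3})²`); conversely
write `w = io p t` (`coset`), and `t` commutes with or inverts `io c_i`. About 300 lines.
-/

namespace Pool.Agent.LDJ

open Pool.Agent.Hhelper67.Johnson
open scoped commutatorElement

theorem wp_lift {ι : Type} (R : RA ι) {G : Type} [Group G] (f : ι → G) (h1 : ∀ i, f i * f i = 1)
    (h2 : ∀ i j, R.adj i j → f i * f j = f j * f i) :
    ∃ φ : R.W →* G, ∀ i, φ (R.s i) = f i := by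
  have hf : R.cox.IsLiftable f := by
    intro i j
    rw [RA.cox_apply]
    by_cases h : i = j
    · subst h
      rw [if_pos rfl, pow_one, h1]
    · by_cases ha : R.adj i j
      · rw [if_neg h, if_pos ha, pow_two]
        have h3 := h2 i j ha
        calc f i * f j * (f i * f j) = f i * (f j * f i) * f j := by group
          _ = f i * (f i * f j) * f j := by rw [h3]
          _ = (f i * f i) * (f j * f j) := by group
          _ = 1 := by rw [h1, h1, mul_one]
      · rw [if_neg h, if_neg ha, pow_zero]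
  exact ⟨R.cs.lift ⟨f, hf⟩, fun i => R.cs.lift_apply_simple hf i⟩

theorem wp_two (v : Multiplicative (ZMod 2 × ZMod 2)) : v * v = 1 := by
  revert v
  decide

theorem RNData.exists_chi {g : ℕ} (D : RNData g) :
    ∃ χ : D.R.W →* Multiplicative (ZMod 2 × ZMod 2), ∀ k, χ (D.R.s k) =
      Multiplicative.ofAdd (if k.val % 2 = 0 then ((1, 0) : ZMod 2 × ZMod 2) else (0, 1)) :=
  wp_lift D.R _ (fun _ => wp_two _) (fun _ _ _ => mul_comm _ _)

/-- the parity -/
noncomputable def RNData.chi {g : ℕ} (D : RNData g) :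
    D.R.W →* Multiplicative (ZMod 2 × ZMod 2) := Classical.choose D.exists_chi

theorem RNData.chi_s' {g : ℕ} (D : RNData g) (k : ZMod (2 * g + 2)) : D.chi (D.R.s k) =
    Multiplicative.ofAdd (if k.val % 2 = 0 then ((1, 0) : ZMod 2 × ZMod 2) else (0, 1)) :=
  Classical.choose_spec D.exists_chi k

/-- the parity of an index -/
noncomputable def par (g : ℕ) : ZMod (2 * g + 2) →+* ZMod 2 :=
  ZMod.castHom (by omega : 2 ∣ 2 * g + 2) (ZMod 2)

theorem par_val {g : ℕ} (k : ZMod (2 * g + 2)) : par g k = ((k.val : ℕ) : ZMod 2) := by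
  rw [par, ZMod.castHom_apply, ZMod.cast_eq_val]

theorem RNData.chi_s {g : ℕ} (D : RNData g) (k : ZMod (2 * g + 2)) : D.chi (D.R.s k) =
    Multiplicative.ofAdd ((1 + par g k, par g k) : ZMod 2 × ZMod 2) := by
  rw [RNData.chi_s', par_val]
  congr 1
  rcases Nat.mod_two_eq_zero_or_one k.val with h | h
  · rw [if_pos h, (ZMod.natCast_eq_zero_iff_even).2 (Nat.even_iff.2 h)]
    rfl
  · rw [if_neg (by omega), (ZMod.natCast_eq_one_iff_odd).2 (Nat.odd_iff.2 h)]
    rfl

theorem RA.s_hom_ext {ι : Type} (R : RA ι) {G : Type} [Group G] {φ ψ : R.W →* G}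
    (h : ∀ i, φ (R.s i) = ψ (R.s i)) : φ = ψ := R.cs.ext_simple h

theorem RNData.exists_Rot {g : ℕ} (D : RNData g) :
    ∃ Rot : ZMod (2 * g + 2) → MulAut D.R.W, ∀ i k, Rot i (D.R.s k) = D.R.s (k + i) := by
  have h : ∀ i : ZMod (2 * g + 2), ∃ φ : D.R.W →* D.R.W, ∀ k, φ (D.R.s k) = D.R.s (k + i) := by
    intro i
    refine wp_lift D.R (fun k => D.R.s (k + i)) (fun k => D.R.s_sq _) ?_
    intro k l hkl
    apply D.R.s_comm
    rw [D.adj_iff] at hkl ⊢
    rcases hkl with h | h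
    · left
      rw [h]
      ring
    · right
      rw [h]
      ring
  choose φ hφ using h
  have hinv : ∀ i j : ZMod (2 * g + 2), i + j = 0 → (φ i).comp (φ j) = MonoidHom.id D.R.W := by
    intro i j hij
    apply D.R.s_hom_ext
    intro k
    rw [MonoidHom.comp_apply, hφ, hφ, MonoidHom.id_apply, add_assoc, add_comm j i, hij, add_zero]
  refine ⟨fun i => MonoidHom.toMulEquiv (φ i) (φ (-i)) (hinv _ _ (neg_add_cancel i))
    (hinv _ _ (add_neg_cancel i)), ?_⟩
  intro i k
  exact hφ i k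

/-- the rotations -/
noncomputable def RNData.Rot {g : ℕ} (D : RNData g) (i : ZMod (2 * g + 2)) : MulAut D.R.W :=
  Classical.choose D.exists_Rot i

theorem RNData.Rot_s {g : ℕ} (D : RNData g) (i k : ZMod (2 * g + 2)) :
    D.Rot i (D.R.s k) = D.R.s (k + i) := Classical.choose_spec D.exists_Rot i k

theorem RNData.Rot_Rot {g : ℕ} (D : RNData g) (i j : ZMod (2 * g + 2)) (w : D.R.W) :
    D.Rot i (D.Rot j w) = D.Rot (j + i) w := by
  have h : (D.Rot i).toMonoidHom.comp (D.Rot j).toMonoidHom = (D.Rot (j + i)).toMonoidHom := by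
    apply D.R.s_hom_ext
    intro k
    change D.Rot i (D.Rot j (D.R.s k)) = D.Rot (j + i) (D.R.s k)
    rw [D.Rot_s, D.Rot_s, D.Rot_s, add_assoc]
  exact DFunLike.congr_fun h w

theorem RNData.Rot_zero {g : ℕ} (D : RNData g) (w : D.R.W) : D.Rot 0 w = w := by
  have h : (D.Rot 0).toMonoidHom = MonoidHom.id D.R.W := by
    apply D.R.s_hom_ext
    intro k
    change D.Rot 0 (D.R.s k) = D.R.s k
    rw [D.Rot_s, add_zero]
  exact DFunLike.congr_fun h w

namespace Emb

variable {g : ℕ} {D : RNData g} (E : Emb g D)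

theorem wp_par_odd (g i : ℕ) : par g ((2 * i + 1 : ℕ) : ZMod (2 * g + 2)) = 1 := by
  rw [map_natCast]
  exact (ZMod.natCast_eq_one_iff_odd).2 ⟨i, rfl⟩

theorem wp_par_even (g i : ℕ) : par g ((2 * i + 2 : ℕ) : ZMod (2 * g + 2)) = 0 := by
  rw [map_natCast]
  exact (ZMod.natCast_eq_zero_iff_even).2 ⟨i + 1, by omega⟩

theorem wp_par_three (g : ℕ) : par g 3 = 1 := by
  rw [map_ofNat]
  decide

/-- a homomorphism on the polygon group which is trivial on the letters -/
theorem wp_letters {G : Type} [Group G] (φ : D.R.W →* G)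
    (ha : ∀ i < g, φ (D.R.s ((2 * i + 1 : ℕ) : ZMod (2 * g + 2)) * D.R.s 0 *
      D.R.s ((2 * i + 1 : ℕ) : ZMod (2 * g + 2)) * D.R.s ((2 * i + 2 : ℕ) : ZMod (2 * g + 2))) = 1)
    (hb : ∀ i < g, φ (D.R.s ((2 * i + 3 : ℕ) : ZMod (2 * g + 2)) *
      D.R.s ((2 * i + 1 : ℕ) : ZMod (2 * g + 2))) = 1) (x : SurfaceGroup g) :
    φ (E.io x) = 1 := by
  have h : φ.comp E.io = 1 := by
    apply extN
    intro i hi
    constructor
    · rw [MonoidHom.comp_apply, E.ioa i hi, ha i hi, MonoidHom.one_apply]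
    · rw [MonoidHom.comp_apply, E.iob i hi, hb i hi, MonoidHom.one_apply]
  exact DFunLike.congr_fun h x

/-- the parity of the rotated surface group is trivial -/
theorem chi_Rot_io (j : ZMod (2 * g + 2)) (x : SurfaceGroup g) :
    D.chi (D.Rot j (E.io x)) = 1 := by
  refine E.wp_letters (D.chi.comp (D.Rot j).toMonoidHom) ?_ ?_ x
  · intro i _
    change D.chi (D.Rot j _) = 1
    simp only [map_mul, D.Rot_s, D.chi_s, map_add, wp_par_odd, wp_par_even, map_zero]
    generalize par g j = p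
    revert p
    decide
  · intro i _
    change D.chi (D.Rot j _) = 1
    have h3 : par g ((2 * i + 3 : ℕ) : ZMod (2 * g + 2)) = 1 := wp_par_odd g (i + 1)
    simp only [map_mul, D.Rot_s, D.chi_s, map_add, wp_par_odd, h3]
    generalize par g j = p
    revert p
    decide

theorem chi_io (x : SurfaceGroup g) : D.chi (E.io x) = 1 := by
  have h := E.chi_Rot_io 0 x
  rwa [D.Rot_zero] at h

theorem wp_s0 : E.s 0 = D.R.s 0 := by
  rw [Emb.s, Nat.cast_zero]

theorem wp_s1 : E.s 1 = D.R.s 1 := by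
  rw [Emb.s, Nat.cast_one]

theorem ran (w : D.R.W) : D.chi w = 1 ↔ ∃ x, E.io x = w := by
  constructor
  · intro h
    obtain ⟨x, hx⟩ := E.cos01 w
    have hc0 : D.chi (D.R.s 0) = Multiplicative.ofAdd ((1, 0) : ZMod 2 × ZMod 2) := by
      rw [D.chi_s, map_zero]
      rfl
    have hc1 : D.chi (D.R.s 1) = Multiplicative.ofAdd ((0, 1) : ZMod 2 × ZMod 2) := by
      rw [D.chi_s, map_one]
      rfl
    rcases hx with hx | hx | hx | hx
    · exact ⟨x, hx.symm⟩
    · exfalso
      rw [hx, map_mul, E.chi_io, E.wp_s0, hc0] at h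
      revert h
      decide
    · exfalso
      rw [hx, map_mul, E.chi_io, E.wp_s1, hc1] at h
      revert h
      decide
    · exfalso
      rw [hx, map_mul, map_mul, E.chi_io, E.wp_s0, E.wp_s1, hc0, hc1] at h
      revert h
      decide
  · rintro ⟨x, rfl⟩
    exact E.chi_io x

theorem free1 (x : SurfaceGroup g) (w : D.R.W) (k : ZMod (2 * g + 2)) :
    E.io x ≠ w * D.R.s k * w⁻¹ := by
  intro h
  have h1 := E.chi_io x
  rw [h, map_mul, map_mul, map_inv, mul_comm (D.chi w), mul_assoc, mul_inv_cancel, mul_one,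
    D.chi_s] at h1
  revert h1
  generalize par g k = p
  revert p
  decide

theorem free2 (x : SurfaceGroup g) (w : D.R.W) (k : ZMod (2 * g + 2)) :
    E.io x ≠ w * (D.R.s k * D.R.s (k + 1)) * w⁻¹ := by
  intro h
  have h1 := E.chi_io x
  rw [h, map_mul, map_mul, map_inv, mul_comm (D.chi w), mul_assoc, mul_inv_cancel, mul_one,
    map_mul, D.chi_s, D.chi_s, map_add, map_one] at h1
  revert h1
  generalize par g k = p
  revert p
  decide

/-- an automorphism of the polygon group which preserves the parity kernel restricts -/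
theorem exists_aut (Φ : MulAut D.R.W) (h1 : ∀ x, D.chi (Φ (E.io x)) = 1)
    (h2 : ∀ x, D.chi (Φ.symm (E.io x)) = 1) :
    ∃ ψ : MulAut (SurfaceGroup g), ∀ x, E.io (ψ x) = Φ (E.io x) := by
  have h3 : ∀ x, ∃ y, E.io y = Φ (E.io x) := fun x => (E.ran _).1 (h1 x)
  have h4 : ∀ x, ∃ y, E.io y = Φ.symm (E.io x) := fun x => (E.ran _).1 (h2 x)
  choose p hp using h3
  choose q hq using h4
  refine ⟨{ toFun := p, invFun := q, left_inv := ?_, right_inv := ?_, map_mul' := ?_ }, hp⟩
  · intro x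
    apply E.inj
    rw [hq, hp]
    exact MulEquiv.symm_apply_apply Φ _
  · intro x
    apply E.inj
    rw [hp, hq]
    exact MulEquiv.apply_symm_apply Φ _
  · intro x y
    apply E.inj
    rw [hp, map_mul, map_mul, map_mul, hp, hp]

theorem wp_inv (j : ZMod (2 * g + 2)) : (D.R.s j)⁻¹ = D.R.s j :=
  inv_eq_of_mul_eq_one_left (D.R.s_sq j)

theorem exists_R : ∃ R : ZMod (2 * g + 2) → MulAut (SurfaceGroup g), ∀ j x,
    E.io (R j x) = D.R.s j * E.io x * D.R.s j := by
  have h : ∀ j : ZMod (2 * g + 2), ∃ ψ : MulAut (SurfaceGroup g), ∀ x,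
      E.io (ψ x) = D.R.s j * E.io x * D.R.s j := by
    intro j
    obtain ⟨ψ, hψ⟩ := E.exists_aut (MulAut.conj (D.R.s j)) (by
      intro x
      rw [MulAut.conj_apply, map_mul, map_mul, E.chi_io, mul_one, map_inv, mul_inv_cancel]) (by
      intro x
      rw [MulAut.conj_symm_apply, map_mul, map_mul, E.chi_io, mul_one, map_inv, inv_mul_cancel])
    refine ⟨ψ, fun x => ?_⟩
    rw [hψ, MulAut.conj_apply, wp_inv]
  choose R hR using h
  exact ⟨R, hR⟩

/-- conjugation by `s j` -/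
noncomputable def R (j : ZMod (2 * g + 2)) : MulAut (SurfaceGroup g) :=
  Classical.choose E.exists_R j

theorem io_R (j : ZMod (2 * g + 2)) (x : SurfaceGroup g) :
    E.io (E.R j x) = D.R.s j * E.io x * D.R.s j := Classical.choose_spec E.exists_R j x

theorem exists_rt : ∃ rt : ZMod (2 * g + 2) → MulAut (SurfaceGroup g), ∀ i x,
    E.io (rt i x) = D.Rot i (E.io x) := by
  have h : ∀ i : ZMod (2 * g + 2), ∃ ψ : MulAut (SurfaceGroup g), ∀ x,
      E.io (ψ x) = D.Rot i (E.io x) := by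
    intro i
    refine E.exists_aut (D.Rot i) (E.chi_Rot_io i) ?_
    intro x
    have h1 : (D.Rot i).symm (E.io x) = D.Rot (-i) (E.io x) := by
      rw [MulEquiv.symm_apply_eq, D.Rot_Rot, neg_add_cancel, D.Rot_zero]
    rw [h1]
    exact E.chi_Rot_io _ x
  choose R hR using h
  exact ⟨R, hR⟩

/-- rotation -/
noncomputable def rt (i : ZMod (2 * g + 2)) : MulAut (SurfaceGroup g) :=
  Classical.choose E.exists_rt i

theorem io_rt (i : ZMod (2 * g + 2)) (x : SurfaceGroup g) :
    E.io (E.rt i x) = D.Rot i (E.io x) := Classical.choose_spec E.exists_rt i x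

theorem rt_zero (x : SurfaceGroup g) : E.rt 0 x = x := by
  apply E.inj
  rw [E.io_rt, D.Rot_zero]

theorem rt_add (i j : ZMod (2 * g + 2)) (x : SurfaceGroup g) :
    E.rt i (E.rt j x) = E.rt (j + i) x := by
  apply E.inj
  rw [E.io_rt, E.io_rt, E.io_rt, D.Rot_Rot]

theorem wp_c : E.io (del g 1) = D.R.s 0 * D.R.s 3 * D.R.s 0 * D.R.s 3 := by
  have h := E.io_del (i := 1) (by have := E.hg; omega)
  rw [h]
  simp only [Emb.s]
  norm_num

theorem rt_c (i : ZMod (2 * g + 2)) :
    E.io (E.rt i (del g 1)) = D.R.s i * D.R.s (i + 3) * (D.R.s i * D.R.s (i + 3)) := by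
  rw [E.io_rt, E.wp_c]
  simp only [map_mul, D.Rot_s]
  rw [zero_add, add_comm 3 i]
  simp only [mul_assoc]

theorem wp_cast_ne (hg : 2 ≤ g) {a b : ℕ} (ha : a < 6) (hb : b < 6) (hab : a ≠ b) :
    ((a : ℕ) : ZMod (2 * g + 2)) ≠ ((b : ℕ) : ZMod (2 * g + 2)) := by
  intro h
  rw [ZMod.natCast_eq_natCast_iff', Nat.mod_eq_of_lt (by omega), Nat.mod_eq_of_lt (by omega)] at h
  exact hab h

theorem wp_far (hg : 2 ≤ g) : B (D.R.e 0) (D.R.e 3) < -1 := by
  apply D.far'
  · have h := wp_cast_ne (g := g) hg (a := 0) (b := 3) (by norm_num) (by norm_num) (by norm_num)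
    simpa using h
  · rw [D.adj_iff]
    rintro (h | h)
    · have h1 := wp_cast_ne (g := g) hg (a := 3) (b := 1) (by norm_num) (by norm_num) (by norm_num)
      apply h1
      push_cast
      rw [h]
      ring
    · have h1 := wp_cast_ne (g := g) hg (a := 0) (b := 4) (by norm_num) (by norm_num) (by norm_num)
      apply h1
      push_cast
      rw [h]
      ring

include E in
theorem c_ne : del g 1 ≠ 1 := by
  intro h
  have h1 := E.wp_c
  rw [h, map_one] at h1
  have h2 : D.R.s 0 * D.R.s 3 * D.R.s 0 = D.R.s 3 := by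
    have h3 := (mul_eq_one_iff_eq_inv.1 h1.symm)
    rw [wp_inv] at h3
    exact h3
  have hk := wp_far (D := D) E.hg
  have h4 : D.R.rep (D.R.s 0 * D.R.s 3 * D.R.s 0) (D.R.e 3) = D.R.rep (D.R.s 3) (D.R.e 3) := by
    rw [h2]
  rw [D.R.wr_mul, D.R.wr_mul, D.R.wr_s, D.R.wr_s, D.R.wr_s, D.R.wr_s] at h4
  have h5 := congrArg (fun v => B v (D.R.e 0)) h4
  have h0 := D.R.one 0
  have h3 := D.R.one 3
  have hs : B (D.R.e 3) (D.R.e 0) = B (D.R.e 0) (D.R.e 3) := by
    simp only [B]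
    ring
  simp only [RA.B_sub_smul, h0, h3, hs] at h5
  generalize B (D.R.e 0) (D.R.e 3) = u at h5 hk
  have h6 : u * (u * u - 1) = 0 := by linarith
  rcases mul_eq_zero.1 h6 with h7 | h7
  · linarith
  · nlinarith

theorem wp_conj {G : Type} [Group G] {a b : G} (ha : a * a = 1) (hb : b * b = 1) :
    a * (a * b * (a * b)) * a = (a * b * (a * b))⁻¹ ∧
    b * (a * b * (a * b)) * b = (a * b * (a * b))⁻¹ := by
  have ha' : a⁻¹ = a := inv_eq_of_mul_eq_one_left ha
  have hb' : b⁻¹ = b := inv_eq_of_mul_eq_one_left hb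
  have h : (a * b * (a * b))⁻¹ = b * a * (b * a) := by
    rw [mul_inv_rev, mul_inv_rev, ha', hb']
  rw [h]
  constructor
  · calc a * (a * b * (a * b)) * a = (a * a) * (b * a * (b * a)) := by group
      _ = b * a * (b * a) := by rw [ha, one_mul]
  · calc b * (a * b * (a * b)) * b = b * a * (b * a) * (b * b) := by group
      _ = b * a * (b * a) := by rw [hb, mul_one]

theorem R_rt (i : ZMod (2 * g + 2)) :
    E.R i (E.rt i (del g 1)) = (E.rt i (del g 1))⁻¹ ∧
    E.R (i + 3) (E.rt i (del g 1)) = (E.rt i (del g 1))⁻¹ := by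
  have h := wp_conj (D.R.s_sq i) (D.R.s_sq (i + 3))
  constructor
  · apply E.inj
    rw [E.io_R, map_inv, E.rt_c]
    exact h.1
  · apply E.inj
    rw [E.io_R, map_inv, E.rt_c]
    exact h.2

theorem wp_four (p v : ZMod 2 × ZMod 2) (hp : p = (1 + p.2, p.2)) :
    v = 0 ∨ v = p ∨ v = (p.2, 1 + p.2) ∨ v = p + (p.2, 1 + p.2) := by
  revert p v
  decide

theorem coset (i : ZMod (2 * g + 2)) (w : D.R.W) : ∃ x, w = E.io x ∨ w = E.io x * D.R.s i ∨
    w = E.io x * D.R.s (i + 3) ∨ w = E.io x * (D.R.s i * D.R.s (i + 3)) := by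
  have hi := D.chi_s i
  have hi3 : D.chi (D.R.s (i + 3)) =
      Multiplicative.ofAdd ((par g i, 1 + par g i) : ZMod 2 × ZMod 2) := by
    rw [D.chi_s, map_add, wp_par_three]
    generalize par g i = p
    revert p
    decide
  have key : ∀ t : D.R.W, D.chi w = D.chi t → ∃ x, w = E.io x * t := by
    intro t ht
    obtain ⟨x, hx⟩ := (E.ran (w * t⁻¹)).1 (by rw [map_mul, map_inv, ht, mul_inv_cancel])
    exact ⟨x, by rw [hx, inv_mul_cancel_right]⟩
  rcases wp_four (1 + par g i, par g i) (Multiplicative.toAdd (D.chi w)) rfl with h | h | h | h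
  · obtain ⟨x, hx⟩ := key 1 (by rw [map_one]; exact h)
    exact ⟨x, Or.inl (by rw [hx, mul_one])⟩
  · obtain ⟨x, hx⟩ := key (D.R.s i) (by rw [hi]; exact h)
    exact ⟨x, Or.inr (Or.inl hx)⟩
  · obtain ⟨x, hx⟩ := key (D.R.s (i + 3)) (by rw [hi3]; exact h)
    exact ⟨x, Or.inr (Or.inr (Or.inl hx))⟩
  · obtain ⟨x, hx⟩ := key (D.R.s i * D.R.s (i + 3)) (by rw [map_mul, hi, hi3]; exact h)
    exact ⟨x, Or.inr (Or.inr (Or.inr hx))⟩

theorem cls_iff (i : ZMod (2 * g + 2)) (y : SurfaceGroup g) :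
    (∃ p, y = p * E.rt i (del g 1) * p⁻¹ ∨ y = p * (E.rt i (del g 1))⁻¹ * p⁻¹) ↔
      ∃ w, E.io y = w * E.io (E.rt i (del g 1)) * w⁻¹ := by
  have h := E.R_rt i
  have c1 : D.R.s i * E.io (E.rt i (del g 1)) * (D.R.s i)⁻¹ = (E.io (E.rt i (del g 1)))⁻¹ := by
    rw [← map_inv, ← h.1, E.io_R, wp_inv]
  have c2 : D.R.s (i + 3) * E.io (E.rt i (del g 1)) * (D.R.s (i + 3))⁻¹ =
      (E.io (E.rt i (del g 1)))⁻¹ := by
    rw [← map_inv, ← h.2, E.io_R, wp_inv]
  generalize E.rt i (del g 1) = c at *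
  constructor
  · rintro ⟨p, hp | hp⟩
    · refine ⟨E.io p, ?_⟩
      rw [hp, map_mul, map_mul, map_inv]
    · refine ⟨E.io p * D.R.s i, ?_⟩
      rw [hp, map_mul, map_mul, map_inv, map_inv, ← c1]
      group
  · rintro ⟨w, hw⟩
    obtain ⟨x, hx⟩ := E.coset i w
    refine ⟨x, ?_⟩
    rcases hx with hx | hx | hx | hx
    · left
      apply E.inj
      rw [hw, hx, map_mul, map_mul, map_inv]
    · right
      apply E.inj
      rw [hw, hx, map_mul, map_mul, map_inv, map_inv, ← c1]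
      group
    · right
      apply E.inj
      rw [hw, hx, map_mul, map_mul, map_inv, map_inv, ← c2]
      group
    · left
      apply E.inj
      have c3 : D.R.s i * D.R.s (i + 3) * E.io c * (D.R.s i * D.R.s (i + 3))⁻¹ = E.io c := by
        calc D.R.s i * D.R.s (i + 3) * E.io c * (D.R.s i * D.R.s (i + 3))⁻¹
            = D.R.s i * (D.R.s (i + 3) * E.io c * (D.R.s (i + 3))⁻¹) * (D.R.s i)⁻¹ := by group
          _ = (D.R.s i * E.io c * (D.R.s i)⁻¹)⁻¹ := by rw [c2]; group
          _ = E.io c := by rw [c1, inv_inv]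
      rw [hw, hx, map_mul, map_mul, map_inv]
      calc E.io x * (D.R.s i * D.R.s (i + 3)) * E.io c * (E.io x * (D.R.s i * D.R.s (i + 3)))⁻¹
          = E.io x * (D.R.s i * D.R.s (i + 3) * E.io c * (D.R.s i * D.R.s (i + 3))⁻¹) *
            (E.io x)⁻¹ := by group
        _ = E.io x * E.io c * (E.io x)⁻¹ := by rw [c3]

end Emb

end Pool.Agent.LDJ
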