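import Pool.Agent.LDJ.WConn
import Pool.Agent.LDJ.WPar

/-!
LDJ.WConnE: connectivity (`conn`, `connM` of `Model`) for the base curves `E.rt i (del g 1)`.
-/

namespace Pool.Agent.LDJ

open Pool.Agent.Hhelper67.Johnson
open scoped commutatorElement

namespace Emb

variable {g : ℕ} {D : RNData g} (E : Emb g D) (Q : Circ (SurfaceGroup g))

theorem wce_ne (i : ZMod (2 * g + 2)) : E.rt i (del g 1) ≠ 1 := by
  intro h
  exact E.c_ne ((E.rt i).map_eq_one_iff.mp h)

theorem wce_gen : Subgroup.closure (Set.range D.R.s) = ⊤ := D.R.cs.subgroup_closure_range_simple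

theorem wce_par (i j : ZMod (2 * g + 2)) :
    ∃ γ : SurfaceGroup g, D.R.s j = E.io γ * D.R.s i ∨ D.R.s j = E.io γ * D.R.s (i + 3) := by
  obtain ⟨x, h | h | h | h⟩ := E.coset i (D.R.s j)
  · exfalso
    refine E.free1 x 1 j ?_
    rw [← h]
    group
  · exact ⟨x, Or.inl h⟩
  · exact ⟨x, Or.inr h⟩
  · exfalso
    have h1 := E.chi_io x
    have h2 : D.chi (D.R.s j) = D.chi (D.R.s i) * D.chi (D.R.s (i + 3)) := by
      rw [h, map_mul, map_mul, h1, one_mul]
    have hs : ∀ k, D.chi (D.R.s k) = Multiplicative.ofAdd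
        (if k.val % 2 = 0 then ((1, 0) : ZMod 2 × ZMod 2) else (0, 1)) :=
      Classical.choose_spec D.exists_chi
    rw [hs, hs, hs] at h2
    revert h2
    split_ifs <;> decide

theorem conn_rt (hlink : ∀ i, Q.link (E.rt i (del g 1)) (E.rt (i + 1) (del g 1)))
    (i j : ZMod (2 * g + 2)) :
    Relation.TransGen (fun a b => Q.link (E.rt a (del g 1)) (E.rt b (del g 1))) i j :=
  conn_abs Q (fun i => E.rt i (del g 1)) hlink i j

theorem connM_rt (hlink : ∀ i, Q.link (E.rt i (del g 1)) (E.rt (i + 1) (del g 1)))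
    (i : ZMod (2 * g + 2)) (y : SurfaceGroup g) (hy : y ∈ cls (E.rt i (del g 1))) :
    Relation.ReflTransGen (fun u v => ((∃ j, v ∈ cls (E.rt j (del g 1))) ∧ Q.link u v) ∨ v = u⁻¹)
      (E.rt 0 (del g 1)) y := by
  refine connM_abs Q E.io E.inj D.R.s D.R.s_sq wce_gen E.R E.io_R (fun i => E.rt i (del g 1))
    (fun i => ?_) E.wce_ne E.wce_par hlink i hy
  rw [E.rt_c, pow_two]

theorem wce_link (h01 : Q.link (E.rt 0 (del g 1)) (E.rt 1 (del g 1))) (i : ZMod (2 * g + 2)) :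
    Q.link (E.rt i (del g 1)) (E.rt (i + 1) (del g 1)) := by
  have h := wc_link_aut Q (E.rt i) (E.wce_ne 0) (E.wce_ne 1) h01
  rwa [E.rt_add, E.rt_add, zero_add, add_comm 1 i] at h

theorem conn (h01 : Q.link (E.rt 0 (del g 1)) (E.rt 1 (del g 1))) (i j : ZMod (2 * g + 2)) :
    Relation.TransGen (fun a b => Q.link (E.rt a (del g 1)) (E.rt b (del g 1))) i j :=
  E.conn_rt Q (E.wce_link Q h01) i j

theorem connM (h01 : Q.link (E.rt 0 (del g 1)) (E.rt 1 (del g 1))) (i : ZMod (2 * g + 2))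
    (y : SurfaceGroup g) (hy : y ∈ cls (E.rt i (del g 1))) :
    Relation.ReflTransGen (fun u v => ((∃ j, v ∈ cls (E.rt j (del g 1))) ∧ Q.link u v) ∨ v = u⁻¹)
      (E.rt 0 (del g 1)) y :=
  E.connM_rt Q (E.wce_link Q h01) i y hy

end Emb

end Pool.Agent.LDJ
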