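import Pool.Agent.LDJ.WCov1

/-!
LDJ.WCov: covering of the two sides of `c = del g 1` by finitely many axes.

PROOFS.
`tw_mem`, `tw_nzp`: with `a = R_{d_0} x`, `io a = d_0 (io x) d_0⁻¹`. `att a` is orthogonal to
`m' = rep d_0 (e k)` (`orth`, or `att_w` and `skip_orth`), but if `a = c^j`, `j ≠ 0` (as `a ≠ 1`), then
`att a` is `att c` or `att c⁻¹` (`att_pow`), and
`B (att c^±) m' = B (rep d_0⁻¹ (att c^±)) (e k) < 0` (`neg_dc`).
`cov_one`: `d⁻¹ = io (c^j) d_0` (`dih_form`), `a = R_{d_0} x ∈ tw4 x`, `a' = c^j a c^(-j)`,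
`io a' = d⁻¹ (s_{k-1} s_{k+1}) d` fixes `m = rep d⁻¹ (e k)`, so `att a'^±` is orthogonal to `m` (`orth`);
`B u m = B (rep d u) (e k) > 0`, `B (att c) m = B (rep d (att c)) (e k) < 0` (`neg_dc`); `Cir.sep_iff_nor`.
`covA`: `F = tw4 x_1 ∪ tw4 x_2` (`elt_A`). For `u = att x` on the side of `A0`: `B u n > 0` (`side_A`);
`d` by `dihedral`; `B (rep d u) n = B u n > 0`; `D.noideal` gives `k` with `B (rep d u) (e k) > 0`, `k ≠ 0, 3`,
and `k ∈ {1, 2}` by `half_A`; `cov_one`.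
`covB`: `F = ⋃ k ∉ {0,1,2,3}, tw4 x_k` (`elt_B`), `half_B`. About 200 lines.
-/

set_option linter.all false

namespace Pool.Agent.LDJ

open Pool.Agent.Hhelper67.Johnson
open scoped commutatorElement

namespace Emb

variable {g : ℕ} {D : RNData g} (E : Emb g D)

open Classical in
/-- the images under the dihedral group -/
noncomputable def tw4 (x : SurfaceGroup g) : Finset (SurfaceGroup g) :=
  {x, E.R 0 x, E.R 3 x, E.R 0 (E.R 3 x)}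

theorem wcv_mem {x a : SurfaceGroup g} :
    a ∈ E.tw4 x ↔ a = x ∨ a = E.R 0 x ∨ a = E.R 3 x ∨ a = E.R 0 (E.R 3 x) := by
  unfold tw4
  simp only [Finset.mem_insert, Finset.mem_singleton]

theorem wcv_ne {n m : ℕ} (hn : n < 2 * g + 2) (hm : m < 2 * g + 2) (h : n ≠ m) :
    ((n : ℕ) : ZMod (2 * g + 2)) ≠ ((m : ℕ) : ZMod (2 * g + 2)) := by
  intro h1
  rw [ZMod.natCast_eq_natCast_iff', Nat.mod_eq_of_lt hn, Nat.mod_eq_of_lt hm] at h1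
  exact h h1

theorem wcv_s0 : D.R.s 0 ∈ Subgroup.closure (D.R.s '' ({0, 3} : Set (ZMod (2 * g + 2)))) :=
  Subgroup.subset_closure ⟨0, Or.inl rfl, rfl⟩

theorem wcv_s3 : D.R.s 3 ∈ Subgroup.closure (D.R.s '' ({0, 3} : Set (ZMod (2 * g + 2)))) :=
  Subgroup.subset_closure ⟨3, Or.inr rfl, rfl⟩

theorem wcv_inv (k : ZMod (2 * g + 2)) : (D.R.s k)⁻¹ = D.R.s k :=
  inv_eq_of_mul_eq_one_right (D.R.s_sq k)

/-- the images under the dihedral group are conjugate in the polygon group -/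
theorem wcv_conj (x : SurfaceGroup g) : E.io (E.R 0 x) = D.R.s 0 * E.io x * (D.R.s 0)⁻¹ ∧
    E.io (E.R 3 x) = D.R.s 3 * E.io x * (D.R.s 3)⁻¹ ∧
    E.io (E.R 0 (E.R 3 x)) = (D.R.s 0 * D.R.s 3) * E.io x * (D.R.s 0 * D.R.s 3)⁻¹ := by
  refine ⟨?_, ?_, ?_⟩
  · rw [E.io_R, wcv_inv]
  · rw [E.io_R, wcv_inv]
  · rw [E.io_R, E.io_R, mul_inv_rev, wcv_inv, wcv_inv]
    simp only [mul_assoc]

theorem wcv_conj' {x a : SurfaceGroup g} (ha : a ∈ E.tw4 x) :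
    ∃ d ∈ Subgroup.closure (D.R.s '' ({0, 3} : Set (ZMod (2 * g + 2)))),
      E.io a = d * E.io x * d⁻¹ := by
  rcases E.wcv_mem.mp ha with rfl | rfl | rfl | rfl
  · exact ⟨1, Subgroup.one_mem _, by rw [one_mul, inv_one, mul_one]⟩
  · exact ⟨_, wcv_s0, (E.wcv_conj x).1⟩
  · exact ⟨_, wcv_s3, (E.wcv_conj x).2.1⟩
  · exact ⟨_, Subgroup.mul_mem _ wcv_s0 wcv_s3, (E.wcv_conj x).2.2⟩

/-- `s_{k-1} s_{k+1}` fixes `e_k` -/
theorem wcv_fix {x : SurfaceGroup g} {k : ZMod (2 * g + 2)}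
    (h : E.io x = D.R.s (k - 1) * D.R.s (k + 1)) : D.R.rep (E.io x) (D.R.e k) = D.R.e k := by
  have h1 : B (D.R.e k) (D.R.e (k + 1)) = 0 := D.R.orth _ _ ((D.adj_iff _ _).mpr (Or.inl rfl))
  have h2 : B (D.R.e k) (D.R.e (k - 1)) = 0 :=
    D.R.orth _ _ ((D.adj_iff _ _).mpr (Or.inr (by ring)))
  rw [h, RA.wf_rep_mul, RA.wf_rep_s D.R (k + 1), h1, mul_zero, zero_smul, sub_zero,
    RA.wf_rep_s D.R (k - 1), h2, mul_zero, zero_smul, sub_zero]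

theorem wcv_ne_one {x a : SurfaceGroup g} {k : ZMod (2 * g + 2)}
    (h : E.io x = D.R.s (k - 1) * D.R.s (k + 1)) {d : D.R.W} (ha : E.io a = d * E.io x * d⁻¹) :
    a ≠ 1 := by
  rintro rfl
  rw [map_one] at ha
  apply E.skip_ne k
  rw [← h]
  have h1 : E.io x = d⁻¹ * (d * E.io x * d⁻¹) * d := by group
  rw [h1, ← ha]
  group

/-- the axis of a conjugate is orthogonal to the image of `e_k` -/
theorem wcv_orth {x a : SurfaceGroup g} {k : ZMod (2 * g + 2)}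
    (h : E.io x = D.R.s (k - 1) * D.R.s (k + 1)) {d : D.R.W} (ha : E.io a = d * E.io x * d⁻¹) :
    B (E.F.att a).1 (D.R.rep d (D.R.e k)) = 0 ∧
      B (E.F.att a⁻¹).1 (D.R.rep d (D.R.e k)) = 0 := by
  apply E.orth (E.wcv_ne_one h ha)
  rw [ha, RA.wf_rep_mul, RA.wf_rep_mul, ← RA.wf_rep_mul D.R d⁻¹, inv_mul_cancel, RA.wf_rep_one,
    E.wcv_fix h]

theorem tw_mem {X : Subgroup (SurfaceGroup g)} (h0 : ∀ x ∈ X, E.R 0 x ∈ X)
    (h3 : ∀ x ∈ X, E.R 3 x ∈ X) {x : SurfaceGroup g} (hx : x ∈ X) : ∀ a ∈ E.tw4 x, a ∈ X := by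
  intro a ha
  rcases E.wcv_mem.mp ha with rfl | rfl | rfl | rfl
  · exact hx
  · exact h0 _ hx
  · exact h3 _ hx
  · exact h0 _ (h3 _ hx)

theorem tw_nzp {x : SurfaceGroup g} {k : ZMod (2 * g + 2)} (h0 : k ≠ 0) (h3 : k ≠ 3)
    (h : E.io x = D.R.s (k - 1) * D.R.s (k + 1)) :
    ∀ a ∈ E.tw4 x, a ∉ Subgroup.zpowers (del g 1) := by
  intro a ha hz
  obtain ⟨d, hd, hda⟩ := E.wcv_conj' ha
  have ha1 := E.wcv_ne_one h hda
  have horth := (E.wcv_orth h hda).1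
  have hneg := E.neg_dc (Subgroup.inv_mem _ hd) h0 h3
  rw [RA.wf_move, RA.wf_move, inv_inv] at hneg
  have hc := E.c_ne
  obtain ⟨j, hj⟩ := hz
  have hj' : (del g 1) ^ j = a := hj
  rcases lt_trichotomy j 0 with h1 | h1 | h1
  · obtain ⟨m, hm⟩ := Int.eq_ofNat_of_zero_le (a := -j) (by omega)
    have h2 : a = ((del g 1)⁻¹) ^ m := by
      rw [← hj', inv_pow, ← zpow_natCast, ← hm, zpow_neg, inv_inv]
    have h4 := E.F.att_pow (inv_ne_one.mpr hc) (n := m) (by omega)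
    rw [← h2] at h4
    rw [h4] at horth
    exact hneg.2.ne horth
  · apply ha1
    rw [← hj', h1, zpow_zero]
  · obtain ⟨m, hm⟩ := Int.eq_ofNat_of_zero_le (a := j) (by omega)
    have h2 : a = (del g 1) ^ m := by
      rw [← hj', ← zpow_natCast, ← hm]
    have h4 := E.F.att_pow hc (n := m) (by omega)
    rw [← h2] at h4
    rw [h4] at horth
    exact hneg.1.ne horth

theorem wcv_one {x a' : SurfaceGroup g} {k : ZMod (2 * g + 2)} (h0 : k ≠ 0) (h3 : k ≠ 3)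
    (h : E.io x = D.R.s (k - 1) * D.R.s (k + 1)) {u : Cir} {d : D.R.W}
    (hd : d ∈ Subgroup.closure (D.R.s '' {0, 3})) (hu : 0 < B (D.R.rep d u.1) (D.R.e k))
    (ha : E.io a' = d⁻¹ * E.io x * (d⁻¹)⁻¹) :
    Cir.sep (E.F.att a') (E.F.att a'⁻¹) u (E.F.att (del g 1)) := by
  have ha1 := E.wcv_ne_one h ha
  have horth := E.wcv_orth h ha
  have hn : B (D.R.rep d⁻¹ (D.R.e k)) (D.R.rep d⁻¹ (D.R.e k)) = 1 := by
    rw [D.R.rep_pres, D.R.one]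
  rw [Cir.sep_iff_nor (E.F.att_ne ha1).symm hn horth.1 horth.2, ← RA.wf_move, ← RA.wf_move]
  exact mul_neg_of_pos_of_neg hu (E.neg_dc hd h0 h3).1

theorem wcv_light (w : D.R.W) {u : V} (hu : u ∈ Light) : D.R.rep w u ∈ Light :=
  light_map (D.R.rep_pres w) (fun _ hx => D.R.rep_fut w hx) hu

theorem cov_one {x : SurfaceGroup g} {k : ZMod (2 * g + 2)} (h0 : k ≠ 0) (h3 : k ≠ 3)
    (h : E.io x = D.R.s (k - 1) * D.R.s (k + 1)) {u : Cir} {d : D.R.W}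
    (hd : d ∈ Subgroup.closure (D.R.s '' {0, 3})) (hu : 0 < B (D.R.rep d u.1) (D.R.e k)) :
    ∃ a ∈ E.tw4 x, ∃ j : ℤ, Cir.sep (E.F.att (del g 1 ^ j * a * del g 1 ^ (-j)))
      (E.F.att (del g 1 ^ j * a * del g 1 ^ (-j))⁻¹) u (E.F.att (del g 1)) := by
  have key : ∀ a ∈ E.tw4 x, ∀ t : D.R.W, E.io a = t * E.io x * t⁻¹ → ∀ j : ℤ,
      d⁻¹ = E.io (del g 1 ^ j) * t → ∃ a ∈ E.tw4 x, ∃ j : ℤ,
      Cir.sep (E.F.att (del g 1 ^ j * a * del g 1 ^ (-j)))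
      (E.F.att (del g 1 ^ j * a * del g 1 ^ (-j))⁻¹) u (E.F.att (del g 1)) := by
    intro a ha t hat j hj
    refine ⟨a, ha, j, E.wcv_one h0 h3 h hd hu ?_⟩
    rw [map_mul, map_mul, hat, hj, zpow_neg, map_inv]
    group
  obtain ⟨j, hj | hj | hj | hj⟩ := E.dih_form (Subgroup.inv_mem _ hd)
  · exact key x (E.wcv_mem.mpr (Or.inl rfl)) 1 (by rw [one_mul, inv_one, mul_one]) j
      (by rw [mul_one]; exact hj)
  · exact key _ (E.wcv_mem.mpr (Or.inr (Or.inl rfl))) _ (E.wcv_conj x).1 j hj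
  · exact key _ (E.wcv_mem.mpr (Or.inr (Or.inr (Or.inl rfl)))) _ (E.wcv_conj x).2.1 j hj
  · exact key _ (E.wcv_mem.mpr (Or.inr (Or.inr (Or.inr rfl)))) _ (E.wcv_conj x).2.2 j hj

include E in
/-- a side of the polygon seen from a translate of a point at infinity -/
theorem wcv_side (u : Cir) (hu : B u.1 D.n ≠ 0) :
    ∃ d ∈ Subgroup.closure (D.R.s '' {0, 3}), ∃ k : ZMod (2 * g + 2), k ≠ 0 ∧ k ≠ 3 ∧
      0 < B (D.R.rep d u.1) (D.R.e k) ∧ D.R.rep d u.1 ∈ Light ∧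
      B (D.R.rep d u.1) D.n = B u.1 D.n := by
  obtain ⟨d, hd, h1, h2⟩ := E.dihedral u.light hu
  have hl := wcv_light (D := D) d u.light
  obtain ⟨k, hk⟩ := D.noideal _ hl
  refine ⟨d, hd, k, ?_, ?_, hk, hl, ?_⟩
  · rintro rfl
    linarith
  · rintro rfl
    linarith
  · have h3 := rep_dih hd
    conv_lhs => rw [← h3]
    rw [D.R.rep_pres]

theorem covA : ∃ F : Finset (SurfaceGroup g),
    (∀ a ∈ F, a ∈ A0 g ∧ a ∉ Subgroup.zpowers (del g 1)) ∧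
    ∀ x, x ≠ 1 → E.F.circ.side (del g 1) E.sg (E.F.circ.att x) → ∃ a ∈ F, ∃ j : ℤ,
      E.F.circ.sep (E.F.circ.att (del g 1 ^ j * a * del g 1 ^ (-j)))
        (E.F.circ.att (del g 1 ^ j * a * del g 1 ^ (-j))⁻¹) (E.F.circ.att x)
        (E.F.circ.att (del g 1)) := by
  classical
  have hg := E.hg
  have n10 : (1 : ZMod (2 * g + 2)) ≠ 0 := by
    have := wcv_ne (g := g) (n := 1) (m := 0) (by omega) (by omega) (by omega)
    rwa [Nat.cast_one, Nat.cast_zero] at this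
  have n13 : (1 : ZMod (2 * g + 2)) ≠ 3 := by
    have := wcv_ne (g := g) (n := 1) (m := 3) (by omega) (by omega) (by omega)
    rwa [Nat.cast_one, Nat.cast_ofNat] at this
  have n20 : (2 : ZMod (2 * g + 2)) ≠ 0 := by
    have := wcv_ne (g := g) (n := 2) (m := 0) (by omega) (by omega) (by omega)
    rwa [Nat.cast_ofNat, Nat.cast_zero] at this
  have n23 : (2 : ZMod (2 * g + 2)) ≠ 3 := by
    have := wcv_ne (g := g) (n := 2) (m := 3) (by omega) (by omega) (by omega)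
    rwa [Nat.cast_ofNat, Nat.cast_ofNat] at this
  obtain ⟨x1, hx1, he1⟩ := E.elt_A (k := 1) (Or.inl rfl)
  obtain ⟨x2, hx2, he2⟩ := E.elt_A (k := 2) (Or.inr rfl)
  have R0 : ∀ x ∈ A0 g, E.R 0 x ∈ A0 g := fun x hx => E.R_A (Or.inl rfl) hx
  have R3 : ∀ x ∈ A0 g, E.R 3 x ∈ A0 g := fun x hx => E.R_A (Or.inr rfl) hx
  refine ⟨E.tw4 x1 ∪ E.tw4 x2, ?_, ?_⟩
  · intro a ha
    rcases Finset.mem_union.mp ha with ha | ha
    · exact ⟨E.tw_mem R0 R3 hx1 a ha, E.tw_nzp n10 n13 he1 a ha⟩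
    · exact ⟨E.tw_mem R0 R3 hx2 a ha, E.tw_nzp n20 n23 he2 a ha⟩
  · intro x _ hside
    have hpos : 0 < B (E.F.att x).1 D.n := (E.side_A _).mp hside
    obtain ⟨d, hd, k, k0, k3, hk, hl, hn⟩ := E.wcv_side (E.F.att x) hpos.ne'
    have h12 : k = 1 ∨ k = 2 := by
      by_contra hcon
      push Not at hcon
      have := E.half_A hl (by rw [hn]; exact hpos.le) k0 hcon.1 hcon.2 k3
      linarith
    rcases h12 with rfl | rfl
    · obtain ⟨a, ha, j, hj⟩ := E.cov_one n10 n13 he1 hd hk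
      exact ⟨a, Finset.mem_union_left _ ha, j, hj⟩
    · obtain ⟨a, ha, j, hj⟩ := E.cov_one n20 n23 he2 hd hk
      exact ⟨a, Finset.mem_union_right _ ha, j, hj⟩

theorem covB : ∃ F : Finset (SurfaceGroup g),
    (∀ a ∈ F, a ∈ B0 g ∧ a ∉ Subgroup.zpowers (del g 1)) ∧
    ∀ x, x ≠ 1 → E.F.circ.side (del g 1) (-E.sg) (E.F.circ.att x) → ∃ a ∈ F, ∃ j : ℤ,
      E.F.circ.sep (E.F.circ.att (del g 1 ^ j * a * del g 1 ^ (-j)))
        (E.F.circ.att (del g 1 ^ j * a * del g 1 ^ (-j))⁻¹) (E.F.circ.att x)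
        (E.F.circ.att (del g 1)) := by
  classical
  have hex : ∀ k : ZMod (2 * g + 2), ∃ x, k ≠ 0 → k ≠ 1 → k ≠ 2 → k ≠ 3 →
      x ∈ B0 g ∧ E.io x = D.R.s (k - 1) * D.R.s (k + 1) := by
    intro k
    by_cases h : k ≠ 0 ∧ k ≠ 1 ∧ k ≠ 2 ∧ k ≠ 3
    · obtain ⟨x, hx, he⟩ := E.elt_B h.1 h.2.1 h.2.2.1 h.2.2.2
      exact ⟨x, fun _ _ _ _ => ⟨hx, he⟩⟩
    · exact ⟨1, fun h0 h1 h2 h3 => absurd ⟨h0, h1, h2, h3⟩ h⟩
  choose xx hxx using hex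
  have R0 : ∀ x ∈ B0 g, E.R 0 x ∈ B0 g := fun x hx => E.R_B (Or.inl rfl) hx
  have R3 : ∀ x ∈ B0 g, E.R 3 x ∈ B0 g := fun x hx => E.R_B (Or.inr rfl) hx
  refine ⟨(Finset.univ.filter fun k : ZMod (2 * g + 2) => k ≠ 0 ∧ k ≠ 1 ∧ k ≠ 2 ∧ k ≠ 3).biUnion
    fun k => E.tw4 (xx k), ?_, ?_⟩
  · intro a ha
    obtain ⟨k, hk, ha⟩ := Finset.mem_biUnion.mp ha
    obtain ⟨k0, k1, k2, k3⟩ := (Finset.mem_filter.mp hk).2
    obtain ⟨hx, he⟩ := hxx k k0 k1 k2 k3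
    exact ⟨E.tw_mem R0 R3 hx a ha, E.tw_nzp k0 k3 he a ha⟩
  · intro x _ hside
    have hneg : B (E.F.att x).1 D.n < 0 := (E.side_B _).mp hside
    obtain ⟨d, hd, k, k0, k3, hk, hl, hn⟩ := E.wcv_side (E.F.att x) hneg.ne
    have h12 : ¬ (k = 1 ∨ k = 2) := by
      intro hcon
      have := E.half_B hl (by rw [hn]; exact hneg.le) hcon
      linarith
    push Not at h12
    obtain ⟨hx, he⟩ := hxx k k0 h12.1 h12.2 k3
    obtain ⟨a, ha, j, hj⟩ := E.cov_one k0 k3 he hd hk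
    exact ⟨a, Finset.mem_biUnion.mpr ⟨k, Finset.mem_filter.mpr
      ⟨Finset.mem_univ _, k0, h12.1, h12.2, k3⟩, ha⟩, j, hj⟩

end Emb

end Pool.Agent.LDJ
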