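import Pool.Agent.LDJ.WSplit

/-!
LDJ.WCov1: the dihedral group `⟨s_0, s_3⟩` and the half planes of the polygon.

PROOFS.
`neg_c`: `att_pair` for `c` (`a = 0`, `b = 3`) and `c⁻¹` (`a = 3`, `b = 0`): a positive multiple of
`e_0 + μ e_3` resp. `e_3 + μ e_0`, `μ > 0`. For `k ≠ 0, 3` the products of `e_k` with `e_0`, `e_3` are
`≤ 0`, and not both `0` (`k` is not a neighbour of both: `2g+2 ≥ 6`; then one is `≤ -1`).
`neg_dc`: `rep d` fixes `D.n` (`rep_dih`), so `rep d (att c)` is a future light vector orthogonal to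
`D.n`; such a vector is a positive multiple of `att c` or of `att c⁻¹` (e.g. `line_shape`-like
argument, or: if `y ∈ Light`, `B y n = 0` and `y` is not a multiple of these then, with
`u = att c`, `w = att c⁻¹`: `y - (B y w/B u w) u - (B y u/B u w) w` is orthogonal to `u, w, n`, so zero
(`fdat_orth`), and `B y y = 2 (B y w)(B y u)/(B u w)` must vanish, so `B y u = 0` or `B y w = 0`
(`light_light`)). Use `neg_c`.
`half_A`: `pp` with `m = -D.n`, `n = -(e k)`, `x = f0` (`exists_f0`), `B (-n) (-(e k)) ≤ -x0 < -1`.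
`half_B`: `pp` with `m = D.n`, `n = -(e k)`.
`dihedral`: let `a = att c`, `b = att c⁻¹`, `u ≠ a, b` up to multiples because `B u n ≠ 0`, so `B u a < 0`,
`B u b < 0` (`light_light`). `z = (e_0 + e_3)/√(2κ-2) ∈ Hyp`, `κ = -B (e 0) (e 3) > 1`, `B z n = 0`. For every
`z' ∈ Hyp` with `B z' n = 0`: `z' = p a + q b` with `p, q > 0` (`line_shape`), so
`-B (ρ(c)^j u) z' = -B u (ρ(c)^(-j) z') = p λ^(-j) (-B u a) + q λ^j (-B u b)` is `≤ C` only for finitely
many `j ∈ ℤ`. By `dih_form` (for `d⁻¹`), `f d = -B (rep d u) z` takes values `≤ C` for finitely many `d`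
only, so it has a minimum on `closure (s '' {0, 3})`, at `d`; `y = rep d u`. For `i = 0, 3`:
`-B y z ≤ -B (s_i y) z = -B y z + 2 B y (e i) B z (e i)` and `B z (e i) = (1-κ)/√.. < 0`, so `B y (e i) ≤ 0`.
`dih_form`: `E.dih`-like: elements are `(s_0 s_3)^n` or `(s_0 s_3)^n s_0`, and
`s_0 s_3 s_0 = (s_0s_3)² s_3`, `io c = (s_0 s_3)²`.
About 250 lines.
-/

namespace Pool.Agent.LDJ

open Pool.Agent.Hhelper67.Johnson
open scoped commutatorElement

namespace Emb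

variable {g : ℕ} {D : RNData g} (E : Emb g D)

include E in
theorem wc_pair {k : ZMod (2 * g + 2)} (h0 : k ≠ 0) (h3 : k ≠ 3) {p q : ℝ} (hp : 0 < p)
    (hq : 0 < q) : p * B (D.R.e 0) (D.R.e k) + q * B (D.R.e 3) (D.R.e k) < 0 := by
  have c1 := E.wa_cast (n := 1) (by norm_num) (by norm_num)
  have c3 := E.wa_cast (n := 3) (by norm_num) (by norm_num)
  have c5 := E.wa_cast (n := 5) (by norm_num) (by norm_num)
  push_cast at c1 c3 c5
  have key : ∀ l : ZMod (2 * g + 2), k ≠ l → B (D.R.e l) (D.R.e k) ≤ 0 ∧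
      (¬ D.R.adj l k → B (D.R.e l) (D.R.e k) < 0) := by
    intro l hl
    by_cases ha : D.R.adj l k
    · exact ⟨(D.R.orth _ _ ha).le, fun h => absurd ha h⟩
    · have h1 := D.far' l k hl.symm ha
      exact ⟨by linarith, fun _ => by linarith⟩
  have k0 := key 0 h0
  have k3 := key 3 h3
  by_cases ha : D.R.adj 0 k
  · have hb : ¬ D.R.adj 3 k := by
      intro hb
      rw [D.adj_iff] at ha hb
      rcases ha with ha | ha <;> rcases hb with hb | hb
      · apply c3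
        linear_combination ha - hb
      · apply c1
        linear_combination ha + hb
      · apply c5
        linear_combination -ha - hb
      · apply c3
        linear_combination -ha + hb
    have h4 := mul_neg_of_pos_of_neg hq (k3.2 hb)
    have h5 := mul_nonpos_of_nonneg_of_nonpos hp.le k0.1
    linarith
  · have h4 := mul_neg_of_pos_of_neg hp (k0.2 ha)
    have h5 := mul_nonpos_of_nonneg_of_nonpos hq.le k3.1
    linarith

theorem wc_io : E.io (del g 1) = D.R.s 0 * D.R.s 3 * (D.R.s 0 * D.R.s 3) := by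
  rw [E.wp_c]
  simp only [mul_assoc]

theorem wc_inv (j : ZMod (2 * g + 2)) : (D.R.s j)⁻¹ = D.R.s j := inv_eq_of_mul_eq_one_left (D.R.s_sq j)

theorem wc_io' : E.io (del g 1)⁻¹ = D.R.s 3 * D.R.s 0 * (D.R.s 3 * D.R.s 0) := by
  rw [map_inv, E.wc_io]
  simp only [mul_inv_rev, wc_inv (D := D), mul_assoc]

theorem neg_c {k : ZMod (2 * g + 2)} (h0 : k ≠ 0) (h3 : k ≠ 3) :
    B (E.F.att (del g 1)).1 (D.R.e k) < 0 ∧ B (E.F.att (del g 1)⁻¹).1 (D.R.e k) < 0 := by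
  have hf : B (D.R.e 0) (D.R.e 3) < -1 := wp_far E.hg
  constructor
  · obtain ⟨t, μ, ht, hμ, -, -, h⟩ := E.att_pair E.c_ne E.wc_io hf
    rw [h, B_smul_left, B_add_left, B_smul_left]
    have h1 := E.wc_pair h0 h3 one_pos hμ
    rw [one_mul] at h1
    exact mul_neg_of_pos_of_neg ht h1
  · obtain ⟨t, μ, ht, hμ, -, -, h⟩ := E.att_pair (inv_ne_one.2 E.c_ne) E.wc_io'
      (by rw [B_comm]; exact hf)
    rw [h, B_smul_left, B_add_left, B_smul_left]
    have h1 := E.wc_pair h0 h3 hμ one_pos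
    rw [one_mul, add_comm] at h1
    exact mul_neg_of_pos_of_neg ht h1

theorem wc_s0 : D.R.s 0 * E.io (del g 1) = E.io (del g 1)⁻¹ * D.R.s 0 := by
  rw [E.wc_io, E.wc_io']
  simp only [mul_assoc, D.R.s_sq, mul_one]
  rw [← mul_assoc (D.R.s 0) (D.R.s 0), D.R.s_sq, one_mul]

theorem wc_s3 : D.R.s 3 * E.io (del g 1) = E.io (del g 1)⁻¹ * D.R.s 3 := by
  rw [E.wc_io, E.wc_io']
  simp only [mul_assoc]

/-- the dihedral group normalises `⟨c⟩` -/
theorem wc_norm {d : D.R.W} (hd : d ∈ Subgroup.closure (D.R.s '' {0, 3})) :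
    (d * E.io (del g 1) * d⁻¹ = E.io (del g 1) ∧
      d * E.io (del g 1)⁻¹ * d⁻¹ = E.io (del g 1)⁻¹) ∨
    (d * E.io (del g 1) * d⁻¹ = E.io (del g 1)⁻¹ ∧
      d * E.io (del g 1)⁻¹ * d⁻¹ = E.io (del g 1)) := by
  have hgen : ∀ x ∈ D.R.s '' {0, 3}, x * E.io (del g 1) * x⁻¹ = E.io (del g 1)⁻¹ ∧
      x * E.io (del g 1)⁻¹ * x⁻¹ = E.io (del g 1) := by
    rintro _ ⟨k, hk, rfl⟩
    have h1 : D.R.s k * E.io (del g 1) * (D.R.s k)⁻¹ = E.io (del g 1)⁻¹ := by
      rcases hk with rfl | hk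
      · rw [E.wc_s0, mul_inv_cancel_right]
      · rw [Set.mem_singleton_iff] at hk
        subst hk
        rw [E.wc_s3, mul_inv_cancel_right]
    refine ⟨h1, ?_⟩
    have h2 := congrArg (fun z => z⁻¹) h1
    simp only [mul_inv_rev, inv_inv, map_inv] at h2 ⊢
    rw [mul_assoc]
    exact h2
  induction hd using Subgroup.closure_induction_left with
  | one => left; simp
  | mul_left x hx y hy ih =>
    obtain ⟨h1, h2⟩ := hgen x hx
    have e1 : ∀ z : D.R.W, x * y * z * (x * y)⁻¹ = x * (y * z * y⁻¹) * x⁻¹ := by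
      intro z
      simp only [mul_inv_rev, mul_assoc]
    rw [e1, e1]
    rcases ih with ⟨h3, h4⟩ | ⟨h3, h4⟩
    · right
      rw [h3, h4]
      exact ⟨h1, h2⟩
    · left
      rw [h3, h4]
      exact ⟨h2, h1⟩
  | inv_mul_cancel x hx y hy ih =>
    have hx' : x⁻¹ = x := by
      obtain ⟨k, -, rfl⟩ := hx
      exact wc_inv (D := D) k
    rw [hx']
    obtain ⟨h1, h2⟩ := hgen x hx
    have e1 : ∀ z : D.R.W, x * y * z * (x * y)⁻¹ = x * (y * z * y⁻¹) * x⁻¹ := by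
      intro z
      simp only [mul_inv_rev, mul_assoc]
    rw [e1, e1]
    rcases ih with ⟨h3, h4⟩ | ⟨h3, h4⟩
    · right
      rw [h3, h4]
      exact ⟨h1, h2⟩
    · left
      rw [h3, h4]
      exact ⟨h2, h1⟩

theorem wc_att {d : D.R.W} {x y : SurfaceGroup g} (hx : x ≠ 1)
    (h : d * E.io x * d⁻¹ = E.io y) {k : ZMod (2 * g + 2)}
    (hk : B (E.F.att y).1 (D.R.e k) < 0) : B (D.R.rep d (E.F.att x).1) (D.R.e k) < 0 := by
  obtain ⟨t, ht, h1⟩ := E.att_w hx h.symm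
  rw [h1, B_smul_left] at hk
  by_contra hc
  push Not at hc
  have := mul_nonneg ht.le hc
  linarith

theorem neg_dc {d : D.R.W} (hd : d ∈ Subgroup.closure (D.R.s '' {0, 3}))
    {k : ZMod (2 * g + 2)} (h0 : k ≠ 0) (h3 : k ≠ 3) :
    B (D.R.rep d (E.F.att (del g 1)).1) (D.R.e k) < 0 ∧
    B (D.R.rep d (E.F.att (del g 1)⁻¹).1) (D.R.e k) < 0 := by
  obtain ⟨n1, n2⟩ := E.neg_c h0 h3
  have hc := E.c_ne
  have hc' := inv_ne_one.2 E.c_ne
  rcases E.wc_norm hd with ⟨h1, h2⟩ | ⟨h1, h2⟩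
  · exact ⟨E.wc_att hc h1 n1, E.wc_att hc' h2 n2⟩
  · exact ⟨E.wc_att hc h1 n2, E.wc_att hc' h2 n1⟩

theorem wc_neg_right (x y : V) : B x (-y) = -B x y := by
  simp only [B, Pi.neg_apply]
  ring

theorem wc_neg_left (x y : V) : B (-x) y = -B x y := by
  simp only [B, Pi.neg_apply]
  ring

include E in
theorem half_A {y : V} (hy : y ∈ Light) (h : 0 ≤ B y D.n) {k : ZMod (2 * g + 2)} (h0 : k ≠ 0)
    (h1 : k ≠ 1) (h2 : k ≠ 2) (h3 : k ≠ 3) : B y (D.R.e k) < 0 := by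
  obtain ⟨p, hp, hpn⟩ := E.exists_f0
  have hx0 := D.hx0
  have hk := D.nk k h0 h1 h2 h3
  have h4 : 0 < B y (-(D.R.e k)) := by
    apply pp (m := -D.n) (n := -(D.R.e k))
    · rw [wc_neg_left, wc_neg_right, neg_neg]
      exact D.hn
    · rw [wc_neg_left, wc_neg_right, neg_neg]
      exact D.R.one k
    · rw [wc_neg_left, wc_neg_right, neg_neg]
      linarith
    · refine ⟨p, hp.1, ?_, ?_⟩
      · rw [wc_neg_right]
        have := hp.2 k
        linarith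
      · rw [wc_neg_right, hpn, neg_zero]
    · exact hy
    · rw [wc_neg_right]
      linarith
  rw [wc_neg_right] at h4
  linarith

include E in
theorem half_B {y : V} (hy : y ∈ Light) (h : B y D.n ≤ 0) {k : ZMod (2 * g + 2)}
    (hk : k = 1 ∨ k = 2) : B y (D.R.e k) < 0 := by
  obtain ⟨p, hp, hpn⟩ := E.exists_f0
  have hx0 := D.hx0
  have hk' : D.x0 ≤ B D.n (D.R.e k) := by
    rcases hk with rfl | rfl
    · exact D.n1
    · exact D.n2
  have h4 : 0 < B y (-(D.R.e k)) := by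
    apply pp (m := D.n) (n := -(D.R.e k)) D.hn
    · rw [wc_neg_left, wc_neg_right, neg_neg]
      exact D.R.one k
    · rw [wc_neg_right]
      linarith
    · refine ⟨p, hp.1, ?_, ?_⟩
      · rw [wc_neg_right]
        have := hp.2 k
        linarith
      · rw [hpn]
    · exact hy
    · exact h
  rw [wc_neg_right] at h4
  linarith

theorem wc_zs0 (j : ℤ) : D.R.s 0 * E.io (del g 1 ^ j) = E.io (del g 1 ^ (-j)) * D.R.s 0 := by
  have h1 : D.R.s 0 * E.io (del g 1) * (D.R.s 0)⁻¹ = (E.io (del g 1))⁻¹ := by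
    rw [E.wc_s0, mul_inv_cancel_right, map_inv]
  have h2 := congrArg (fun z => z ^ j) h1
  simp only [conj_zpow, inv_zpow'] at h2
  rw [map_zpow, map_zpow, ← h2, inv_mul_cancel_right]

theorem wc_zs3 (j : ℤ) : D.R.s 3 * E.io (del g 1 ^ j) = E.io (del g 1 ^ (-j)) * D.R.s 3 := by
  have h1 : D.R.s 3 * E.io (del g 1) * (D.R.s 3)⁻¹ = (E.io (del g 1))⁻¹ := by
    rw [E.wc_s3, mul_inv_cancel_right, map_inv]
  have h2 := congrArg (fun z => z ^ j) h1
  simp only [conj_zpow, inv_zpow'] at h2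
  rw [map_zpow, map_zpow, ← h2, inv_mul_cancel_right]

theorem wc_30 : D.R.s 3 * D.R.s 0 = E.io (del g 1)⁻¹ * (D.R.s 0 * D.R.s 3) := by
  rw [E.wc_io']
  simp only [mul_assoc]
  rw [← mul_assoc (D.R.s 0) (D.R.s 0), D.R.s_sq, one_mul, D.R.s_sq, mul_one]

theorem wc_303 : D.R.s 3 * (D.R.s 0 * D.R.s 3) = E.io (del g 1)⁻¹ * D.R.s 0 := by
  rw [E.wc_io']
  simp only [mul_assoc]
  rw [D.R.s_sq, mul_one]

theorem dih_form {d : D.R.W} (hd : d ∈ Subgroup.closure (D.R.s '' {0, 3})) :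
    ∃ j : ℤ, d = E.io (del g 1 ^ j) ∨ d = E.io (del g 1 ^ j) * D.R.s 0 ∨
      d = E.io (del g 1 ^ j) * D.R.s 3 ∨ d = E.io (del g 1 ^ j) * (D.R.s 0 * D.R.s 3) := by
  have hgen : ∀ x ∈ D.R.s '' {0, 3}, ∀ y : D.R.W,
      (∃ j : ℤ, y = E.io (del g 1 ^ j) ∨ y = E.io (del g 1 ^ j) * D.R.s 0 ∨
        y = E.io (del g 1 ^ j) * D.R.s 3 ∨ y = E.io (del g 1 ^ j) * (D.R.s 0 * D.R.s 3)) →
      (∃ j : ℤ, x * y = E.io (del g 1 ^ j) ∨ x * y = E.io (del g 1 ^ j) * D.R.s 0 ∨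
        x * y = E.io (del g 1 ^ j) * D.R.s 3 ∨
        x * y = E.io (del g 1 ^ j) * (D.R.s 0 * D.R.s 3)) := by
    have hneg : ∀ j : ℤ, E.io (del g 1 ^ (-j)) * E.io (del g 1)⁻¹ =
        E.io (del g 1 ^ (-j - 1)) := by
      intro j
      rw [← map_mul, zpow_sub_one]
    rintro _ ⟨k, hk, rfl⟩ y ⟨j, hj⟩
    rcases hk with rfl | hk
    · rcases hj with rfl | rfl | rfl | rfl
      · exact ⟨-j, Or.inr (Or.inl (E.wc_zs0 j))⟩
      · refine ⟨-j, Or.inl ?_⟩
        rw [← mul_assoc, E.wc_zs0, mul_assoc, D.R.s_sq, mul_one]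
      · refine ⟨-j, Or.inr (Or.inr (Or.inr ?_))⟩
        rw [← mul_assoc, E.wc_zs0, mul_assoc]
      · refine ⟨-j, Or.inr (Or.inr (Or.inl ?_))⟩
        rw [← mul_assoc, E.wc_zs0, mul_assoc, ← mul_assoc (D.R.s 0) (D.R.s 0), D.R.s_sq, one_mul]
    · rw [Set.mem_singleton_iff] at hk
      subst hk
      rcases hj with rfl | rfl | rfl | rfl
      · exact ⟨-j, Or.inr (Or.inr (Or.inl (E.wc_zs3 j)))⟩
      · refine ⟨-j - 1, Or.inr (Or.inr (Or.inr ?_))⟩
        rw [← mul_assoc, E.wc_zs3, mul_assoc, E.wc_30, ← mul_assoc, hneg]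
      · refine ⟨-j, Or.inl ?_⟩
        rw [← mul_assoc, E.wc_zs3, mul_assoc, D.R.s_sq, mul_one]
      · refine ⟨-j - 1, Or.inr (Or.inl ?_)⟩
        rw [← mul_assoc, E.wc_zs3, mul_assoc, E.wc_303, ← mul_assoc, hneg]
  induction hd using Subgroup.closure_induction_left with
  | one => exact ⟨0, Or.inl (by rw [zpow_zero, map_one])⟩
  | mul_left x hx y hy ih => exact hgen x hx y ih
  | inv_mul_cancel x hx y hy ih =>
    have hx' : x⁻¹ = x := by
      obtain ⟨k, -, rfl⟩ := hx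
      exact wc_inv (D := D) k
    rw [hx']
    exact hgen x hx y ih

theorem wc_min {p : V} (hp : p ∈ Hyp) :
    ∃ d ∈ Subgroup.closure (D.R.s '' {0, 3}),
      B (D.R.rep d p) (D.R.e 0) ≤ 0 ∧ B (D.R.rep d p) (D.R.e 3) ≤ 0 := by
  have h1 : {w : D.R.W | w ∈ Subgroup.closure (D.R.s '' {0, 3}) ∧
      -B o (D.R.rep w p) ≤ -B o p}.Finite := by
    refine (D.R.proper o_mem D.hS D.center (2 * (-B o p) * (-B p o))).subset ?_
    rintro w ⟨-, hw⟩
    have h2 := tri o_mem (D.R.rep_fut w hp) (D.R.rep_fut w o_mem)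
    rw [D.R.rep_pres] at h2
    have h4 := one_le hp o_mem
    show -B o (D.R.rep w o) ≤ _
    calc -B o (D.R.rep w o) ≤ 2 * (-B o (D.R.rep w p)) * (-B p o) := h2
      _ ≤ _ := mul_le_mul_of_nonneg_right (by linarith) (by linarith)
  have h2 : {w : D.R.W | w ∈ Subgroup.closure (D.R.s '' {0, 3}) ∧
      -B o (D.R.rep w p) ≤ -B o p}.Nonempty := by
    refine ⟨1, Subgroup.one_mem _, ?_⟩
    rw [RA.wf_rep_one]
  obtain ⟨w, hw, hmin⟩ := Set.exists_min_image _ (fun w : D.R.W => -B o (D.R.rep w p)) h1 h2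
  have hmin2 : ∀ v ∈ Subgroup.closure (D.R.s '' {0, 3}),
      -B o (D.R.rep w p) ≤ -B o (D.R.rep v p) := by
    intro v hv
    by_cases hv' : -B o (D.R.rep v p) ≤ -B o p
    · exact hmin v ⟨hv, hv'⟩
    · have h3 := hw.2
      linarith
  have key : ∀ k : ZMod (2 * g + 2), k ∈ ({0, 3} : Set (ZMod (2 * g + 2))) →
      B (D.R.rep w p) (D.R.e k) ≤ 0 := by
    intro k hk
    have h3 := hmin2 (D.R.s k * w)
      (Subgroup.mul_mem _ (Subgroup.subset_closure ⟨k, hk, rfl⟩) hw.1)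
    rw [D.R.wr_mul, D.R.wr_s, B_comm o (D.R.rep w p - _), RA.B_sub_smul, B_comm _ o,
      B_comm (D.R.e k) o] at h3
    have h5 := D.center k
    have h6 := D.hS
    by_contra h7
    push Not at h7
    nlinarith
  exact ⟨w, hw.1, key 0 (by simp), key 3 (by simp)⟩

include E in
theorem dihedral {u : V} (hu : u ∈ Light) (h : B u D.n ≠ 0) :
    ∃ d ∈ Subgroup.closure (D.R.s '' {0, 3}),
      B (D.R.rep d u) (D.R.e 0) ≤ 0 ∧ B (D.R.rep d u) (D.R.e 3) ≤ 0 := by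
  obtain ⟨p0, hp0, hpn⟩ := E.exists_f0
  set β := B u D.n with hβ
  have hb : 0 < |β| := abs_pos.2 h
  have hn := D.hn
  have huu := hu.1
  set v : V := u - β • D.n with hv
  have hvv : B v v = -(β ^ 2) := by
    rw [hv, RA.B_sub_smul, B_comm u, RA.B_sub_smul, B_comm D.n (u - _), RA.B_sub_smul, hn, huu,
      B_comm D.n u, ← hβ]
    ring
  have hvp : B v p0 < 0 := by
    rw [hv, RA.B_sub_smul, B_comm D.n p0, hpn, mul_zero, sub_zero, B_comm]
    exact light_neg hp0.1 hu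
  have hv2 : 0 < v 2 := fb_future hp0.1 (by rw [hvv]; have := sq_pos_of_ne_zero h; linarith) hvp
  have hq : |β|⁻¹ • v ∈ Hyp := by
    constructor
    · rw [B_smul_left, B_smul_right, hvv, ← sq_abs β]
      field_simp
    · rw [Pi.smul_apply, smul_eq_mul]
      exact mul_pos (inv_pos.2 hb) hv2
  obtain ⟨d, hd, h0, h3⟩ := wc_min (D := D) hq
  have hu' : u = |β| • (|β|⁻¹ • v) + β • D.n := by
    rw [smul_smul, mul_inv_cancel₀ hb.ne', one_smul, hv, sub_add_cancel]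
  have hrep : D.R.rep d u = |β| • D.R.rep d (|β|⁻¹ • v) + β • D.n := by
    conv_lhs => rw [hu']
    rw [map_add, map_smul _ |β| (|β|⁻¹ • v), map_smul _ β D.n, rep_dih hd]
  refine ⟨d, hd, ?_, ?_⟩
  · rw [hrep, B_add_left, B_smul_left, B_smul_left, D.n0, mul_zero, add_zero]
    exact mul_nonpos_of_nonneg_of_nonpos hb.le h0
  · rw [hrep, B_add_left, B_smul_left, B_smul_left, D.n3, mul_zero, add_zero]
    exact mul_nonpos_of_nonneg_of_nonpos hb.le h3

end Emb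

end Pool.Agent.LDJ
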