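import Pool.Agent.LDJ.FDef

/-!
LDJ, PART V: right-angled Coxeter groups acting on the hyperbolic plane (interface).

`RA ι`: vectors `e i` of norm 1, two of them orthogonal (if adjacent) or of product `≤ -1`.
`R.W` is the right-angled Coxeter group (`s i ^ 2 = 1`, `s i s j = s j s i` for adjacent `i, j`),
`R.s i` its generators, `R.rep` its representation by reflections.
-/

namespace Pool.Agent.LDJ

/-- the linear reflection in `e` -/
noncomputable def reflL (e : V) : V →ₗ[ℝ] V where
  toFun x := x - (2 * B x e) • e
  map_add' x y := by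
    funext i
    simp only [B, Pi.add_apply, Pi.sub_apply, Pi.smul_apply, smul_eq_mul]
    ring
  map_smul' t x := by
    funext i
    simp only [B, Pi.sub_apply, Pi.smul_apply, smul_eq_mul, RingHom.id_apply]
    ring

theorem reflL_invol {e : V} (he : B e e = 1) : Function.Involutive (reflL e) := by
  intro x
  funext i
  simp only [B] at he
  simp only [reflL, LinearMap.coe_mk, AddHom.coe_mk, B, Pi.sub_apply, Pi.smul_apply, smul_eq_mul]
  linear_combination 4 * (x 0 * e 0 + x 1 * e 1 - x 2 * e 2) * e i * he

/-- the reflection in `e` -/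
noncomputable def refl (e : V) (he : B e e = 1) : V ≃ₗ[ℝ] V :=
  LinearEquiv.ofInvolutive (reflL e) (reflL_invol he)

theorem refl_apply {e : V} (he : B e e = 1) (x : V) : refl e he x = x - (2 * B x e) • e := rfl

/-- right-angled system of vectors -/
structure RA (ι : Type) where
  adj : ι → ι → Prop
  symm : ∀ i j, adj i j → adj j i
  irrefl : ∀ i, ¬ adj i i
  e : ι → V
  one : ∀ i, B (e i) (e i) = 1
  orth : ∀ i j, adj i j → B (e i) (e j) = 0
  far : ∀ i j, i ≠ j → ¬ adj i j → B (e i) (e j) ≤ -1

namespace RA

variable {ι : Type} (R : RA ι)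

open Classical in
/-- the Coxeter matrix -/
noncomputable def cox : CoxeterMatrix ι where
  M := Matrix.of fun i j => if i = j then 1 else if R.adj i j then 2 else 0
  isSymm := by
    ext i j
    simp only [Matrix.transpose_apply, Matrix.of_apply]
    by_cases h : i = j
    · simp [h]
    · have h' : ¬ j = i := fun h2 => h h2.symm
      have h3 : R.adj j i ↔ R.adj i j := ⟨R.symm _ _, R.symm _ _⟩
      simp only [h, h', h3, if_false]
  diagonal := by
    intro i
    simp
  off_diagonal := by
    intro i j h
    simp only [Matrix.of_apply, h, if_false]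
    split_ifs <;> norm_num

/-- the Coxeter group -/
abbrev W : Type := R.cox.Group

/-- the Coxeter system -/
noncomputable def cs : CoxeterSystem R.cox R.W := R.cox.toCoxeterSystem

/-- the generators -/
noncomputable def s (i : ι) : R.W := R.cs.simple i

open Classical in
theorem cox_apply (i j : ι) : R.cox i j = if i = j then 1 else if R.adj i j then 2 else 0 := rfl

theorem B_sub_smul (x e f : V) (t : ℝ) : B (x - t • e) f = B x f - t * B e f := by
  simp only [B, Pi.sub_apply, Pi.smul_apply, smul_eq_mul]
  ring

theorem liftable : R.cox.IsLiftable (fun i => refl (R.e i) (R.one i)) := by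
  intro i j
  rw [cox_apply]
  by_cases h : i = j
  · subst h
    rw [if_pos rfl, pow_one]
    ext1 x
    exact reflL_invol (R.one i) x
  · by_cases ha : R.adj i j
    · rw [if_neg h, if_pos ha, pow_two]
      have ho := R.orth i j ha
      have ho' := R.orth j i (R.symm i j ha)
      have hi := R.one i
      have hj := R.one j
      ext1 x
      show refl (R.e i) (R.one i) (refl (R.e j) (R.one j) (refl (R.e i) (R.one i)
        (refl (R.e j) (R.one j) x))) = x
      simp only [refl_apply, B_sub_smul, ho, ho', hi, hj]
      funext k
      simp only [Pi.sub_apply, Pi.smul_apply, smul_eq_mul]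
      ring
    · rw [if_neg h, if_neg ha, pow_zero]

/-- the reflection representation -/
noncomputable def rep : R.W →* (V ≃ₗ[ℝ] V) := R.cs.lift ⟨_, R.liftable⟩

theorem rep_s (i : ι) : R.rep (R.s i) = refl (R.e i) (R.one i) :=
  R.cs.lift_apply_simple R.liftable i

/-- nonnegative combinations of the `e k` -/
def Cone [Fintype ι] : Set V := {v | ∃ c : ι → ℝ, (∀ k, 0 ≤ c k) ∧ v = ∑ k, c k • R.e k}

/-- the closed fundamental polygon -/
def Poly : Set V := {x ∈ Hyp | ∀ k, B x (R.e k) ≤ 0}

end RA

end Pool.Agent.LDJ
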