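import Pool.Agent.LDJ.WRoot

/-!
LDJ.WDom: dominance (the translates of a line).

PROOF of `dom`. Induction on `ℓ w`: `w = 1` is in the closure. `w = v s_k`, `ℓ w = ℓ v + 1`:
`rep w n = rep v n - 2 B n (e k) rep v (e k)`, and `rep v (e k) ∈ Cone` (`root`), `B n (e k) ≥ 0`.
First part: `B p (rep w n) = B p (rep v n) - 2 B n (e k) B p (rep v (e k)) ≥ B p (rep v n)`.
Second part: `B n (rep w n) = B n (rep v n) - 2 B n (e k) B n (rep v (e k))`, and
`B n (rep v (e k)) ≥ 0` as all `B n (e j) ≥ 0`. If `B n (rep v n) ≤ 1 - 2x²` we are done. Otherwise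
`v ∈ closure (s '' D)`, so `rep v n = n` (each `s_j`, `j ∈ D` fixes `n`). If `k ∈ D`, `w` is in the
closure. If `k ∉ D`: `B n (rep v n) = 1`, `B n (rep v (e k)) = B (rep v⁻¹ n) (e k) = B n (e k) ≥ x`, so
`B n (rep w n) ≤ 1 - 2x²`.
`pp`: let `m, n` be unit, `B m n < -1`, and some `x ∈ Hyp` with `B x n ≥ 0`, `B x m ≥ 0`. For
`y ∈ Light` with `B y m ≤ 0`: `B y n > 0`. PROOF: suppose `B y n ≤ 0`. `κ = -B m n > 1`.
Write `y = α n + β m + γ f` with `f` unit, orthogonal to `m, n` (the plane of `m, n` has signature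
(1,1); or argue with the projections). `α - κβ = B y n ≤ 0`, `β - κα = B y m ≤ 0`. Then
`α, β > 0`: if `α ≤ 0` then `β ≤ κα ≤ 0`, `α ≤ κβ ≤ κ²α` so `α = 0 = β`, and `y = γ f`, `B y y = γ² = 0`,
`y = 0`, contradiction; the same for `β`. `n + m` is timelike: `B (n+m) (n+m) = 2 - 2κ < 0`, and
`B x (n+m) ≥ 0`, `x ∈ Hyp`, so `-(n+m)` is future timelike, so `B y (n+m) > 0` (a future light vector and
a past timelike vector: `light_neg` after normalising), but `B y n + B y m ≤ 0`. (With this argument the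
signs of `α, β` are not needed.) About 150 lines.
-/

set_option autoImplicit false

namespace Pool.Agent.LDJ

theorem wd_sum {ι : Type} [Fintype ι] (p : V) (c : ι → ℝ) (e : ι → V) :
    B p (∑ j, c j • e j) = ∑ j, c j * B p (e j) := by
  classical
  have h : ∀ s : Finset ι, B p (∑ j ∈ s, c j • e j) = ∑ j ∈ s, c j * B p (e j) := by
    intro s
    induction s using Finset.induction_on with
    | empty => simp [B]
    | insert a s ha ih =>
      rw [Finset.sum_insert ha, Finset.sum_insert ha, B_add_right, B_smul_right, ih]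
  exact h Finset.univ

theorem RA.dom {ι : Type} [Fintype ι] (R : RA ι) {n : V} (hn : B n n = 1) (D : Set ι) {x : ℝ}
    (hx : 1 < x) (h0 : ∀ k ∈ D, B n (R.e k) = 0) (h1 : ∀ k, k ∉ D → x ≤ B n (R.e k)) (w : R.W) :
    (∀ p, (∀ k, B p (R.e k) ≤ 0) → B p n ≤ B p (R.rep w n)) ∧
    (w ∈ Subgroup.closure (R.s '' D) ∨ B n (R.rep w n) ≤ 1 - 2 * x ^ 2) := by
  classical
  have hpos : ∀ k, 0 ≤ B n (R.e k) := by
    intro k
    by_cases hk : k ∈ D
    · rw [h0 k hk]
    · linarith [h1 k hk]
  have hfix : ∀ v ∈ Subgroup.closure (R.s '' D), R.rep v n = n := by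
    intro v hv
    have h2 : Subgroup.closure (R.s '' D) ≤ (MulAction.stabilizer (V ≃ₗ[ℝ] V) n).comap R.rep := by
      rw [Subgroup.closure_le]
      rintro _ ⟨k, hk, rfl⟩
      simp only [SetLike.mem_coe, Subgroup.mem_comap, MulAction.mem_stabilizer_iff]
      change R.rep (R.s k) n = n
      rw [R.wr_s, h0 k hk, mul_zero, zero_smul, sub_zero]
    exact MulAction.mem_stabilizer_iff.1 (h2 hv)
  have main : ∀ N : ℕ, ∀ w : R.W, R.cs.length w = N →
      (∀ p, (∀ k, B p (R.e k) ≤ 0) → B p n ≤ B p (R.rep w n)) ∧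
      (w ∈ Subgroup.closure (R.s '' D) ∨ B n (R.rep w n) ≤ 1 - 2 * x ^ 2) := by
    intro N
    induction N with
    | zero =>
      intro w hw
      have hw1 : w = 1 := R.cs.length_eq_zero_iff.1 hw
      subst hw1
      refine ⟨fun p _ => ?_, Or.inl (Subgroup.one_mem _)⟩
      rw [map_one]
      exact le_rfl
    | succ N ih =>
      intro w hw
      have hw1 : w ≠ 1 := by
        rintro rfl
        rw [R.cs.length_one] at hw
        omega
      obtain ⟨k, hk⟩ := R.cs.exists_rightDescent_of_ne_one hw1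
      obtain ⟨e1, e2, e3⟩ := R.wr_desc hk
      obtain ⟨v, hv⟩ : ∃ v, v = w * R.s k := ⟨_, rfl⟩
      rw [← hv] at e1 e2 e3
      obtain ⟨i1, i2⟩ := ih v (by omega)
      obtain ⟨c, hc, hc'⟩ := R.root v k e2
      have hrep : R.rep w n = R.rep v n - (2 * B n (R.e k)) • R.rep v (R.e k) := by
        rw [e3, R.wr_s, map_sub, map_smul]
      have hB : ∀ p, B p (R.rep w n) =
          B p (R.rep v n) - 2 * B n (R.e k) * B p (R.rep v (R.e k)) := by
        intro p
        rw [hrep]
        simp only [B, Pi.sub_apply, Pi.smul_apply, smul_eq_mul]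
        ring
      constructor
      · intro p hp
        have h3 : B p (R.rep v (R.e k)) ≤ 0 := by
          rw [hc', wd_sum]
          exact Finset.sum_nonpos fun j _ => mul_nonpos_of_nonneg_of_nonpos (hc j) (hp j)
        rw [hB]
        have h4 := i1 p hp
        have h5 := mul_nonneg (hpos k) (neg_nonneg.2 h3)
        nlinarith
      · have h3 : 0 ≤ B n (R.rep v (R.e k)) := by
          rw [hc', wd_sum]
          exact Finset.sum_nonneg fun j _ => mul_nonneg (hc j) (hpos j)
        have h5 := mul_nonneg (hpos k) h3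
        rcases i2 with i2 | i2
        · have h6 := hfix v i2
          by_cases hkD : k ∈ D
          · left
            have h7 : w = v * R.s k := by
              rw [hv, mul_assoc, R.s_sq, mul_one]
            rw [h7]
            exact Subgroup.mul_mem _ i2 (Subgroup.subset_closure ⟨k, hkD, rfl⟩)
          · right
            have h7 : B n (R.rep v (R.e k)) = B n (R.e k) := by
              have h8 := R.rep_pres v n (R.e k)
              rw [h6] at h8
              exact h8
            rw [hB, h6, hn, h7]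
            have h9 := h1 k hkD
            nlinarith
        · right
          rw [hB]
          nlinarith
  exact main _ w rfl

theorem pp {m n : V} (hm : B m m = 1) (hn : B n n = 1) (h : B m n < -1)
    (hx : ∃ x ∈ Hyp, 0 ≤ B x n ∧ 0 ≤ B x m) {y : V} (hy : y ∈ Light) (hym : B y m ≤ 0) :
    0 < B y n := by
  by_contra hcon
  push Not at hcon
  obtain ⟨x, hxH, hxn, hxm⟩ := hx
  obtain ⟨q, hq⟩ : ∃ q : ℝ, q = Real.sqrt (-(2 + 2 * B m n)) := ⟨_, rfl⟩
  have hq1 : 0 < -(2 + 2 * B m n) := by linarith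
  have hq0 : 0 < q := by
    rw [hq]
    exact Real.sqrt_pos.2 hq1
  have hqq : q * q = -(2 + 2 * B m n) := by
    rw [hq]
    exact Real.mul_self_sqrt hq1.le
  have hBt : ∀ z : V, B z ((-q⁻¹) • (m + n)) = -q⁻¹ * (B z m + B z n) := by
    intro z
    rw [B_smul_right, B_add_right]
  have hqi : 0 < q⁻¹ := inv_pos.2 hq0
  have ht : B ((-q⁻¹) • (m + n)) ((-q⁻¹) • (m + n)) = -1 := by
    rw [hBt, B_comm _ m, B_comm _ n, hBt, hBt, hm, hn, B_comm n m]
    have h2 : q⁻¹ * q⁻¹ * (q * q) = 1 := by
      field_simp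
    rw [hqq] at h2
    linear_combination (-1 : ℝ) * h2
  have htH : (-q⁻¹) • (m + n) ∈ Hyp := by
    apply RA.wr_sheet hxH ht
    rw [hBt]
    have := mul_nonneg hqi.le (add_nonneg hxm hxn)
    linarith
  have h3 := light_neg htH hy
  rw [B_comm, hBt] at h3
  have h4 : B y m + B y n ≤ 0 := by linarith
  have h5 := mul_nonneg hqi.le (neg_nonneg.2 h4)
  linarith

/-- a subset of the vectors -/
def RA.comap {ι κ : Type} (R : RA ι) (f : κ → ι) (hf : Function.Injective f) : RA κ where
  adj i j := R.adj (f i) (f j)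
  symm i j h := R.symm _ _ h
  irrefl i := R.irrefl _
  e i := R.e (f i)
  one i := R.one _
  orth i j h := R.orth _ _ h
  far i j h h' := R.far _ _ (fun h2 => h (hf h2)) h'

theorem RA.comap_cox {ι κ : Type} (R : RA ι) (f : κ → ι) (hf : Function.Injective f) (i j : κ) :
    (R.comap f hf).cox i j = R.cox (f i) (f j) := by
  rw [RA.cox_apply, RA.cox_apply]
  by_cases h : i = j
  · have h2 : f i = f j := by rw [h]
    rw [if_pos h, if_pos h2]
  · have h2 : f i ≠ f j := fun h3 => h (hf h3)
    rw [if_neg h, if_neg h2]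
    rfl

/-- elements of a special subgroup come from the subsystem (`CoxeterSystem.lift` gives a
homomorphism `(R.comap f hf).W →* R.W`, compatible with `rep`, with range the closure) -/
theorem RA.comap_rep {ι κ : Type} (R : RA ι) (f : κ → ι) (hf : Function.Injective f) :
    ∃ j : (R.comap f hf).W →* R.W, (∀ k, j ((R.comap f hf).s k) = R.s (f k)) ∧
      (∀ w, R.rep (j w) = (R.comap f hf).rep w) ∧
      ∀ w ∈ Subgroup.closure (R.s '' Set.range f), ∃ w', j w' = w := by
  have hlift : (R.comap f hf).cox.IsLiftable (fun k => R.s (f k)) := by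
    intro i j
    rw [R.comap_cox f hf]
    exact R.cs.simple_mul_simple_pow (f i) (f j)
  have hs : ∀ k, (R.comap f hf).cs.lift ⟨_, hlift⟩ ((R.comap f hf).s k) = R.s (f k) := by
    intro k
    exact (R.comap f hf).cs.lift_apply_simple hlift k
  refine ⟨(R.comap f hf).cs.lift ⟨_, hlift⟩, hs, ?_, ?_⟩
  · intro w
    induction w using (R.comap f hf).cs.simple_induction with
    | simple i =>
      change R.rep ((R.comap f hf).cs.lift ⟨_, hlift⟩ ((R.comap f hf).s i)) =
        (R.comap f hf).rep ((R.comap f hf).s i)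
      rw [hs, RA.rep_s, RA.rep_s]
      rfl
    | one => rw [map_one, map_one, map_one]
    | mul w w' h h' => rw [map_mul, map_mul, map_mul, h, h']
  · intro w hw
    have h2 : Subgroup.closure (R.s '' Set.range f) ≤
        ((R.comap f hf).cs.lift ⟨_, hlift⟩).range := by
      rw [Subgroup.closure_le]
      rintro _ ⟨_, ⟨k, rfl⟩, rfl⟩
      exact ⟨(R.comap f hf).s k, hs k⟩
    exact h2 hw

end Pool.Agent.LDJ
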