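import Pool.Agent.LDJ.WDef
import Pool.Agent.LDJ.FBas

/-!
LDJ.WRoot: positivity of roots for right-angled systems.

PROOF of `root`. Write `ℓ` for `R.cs.length`; `ℓ (w s_i) = ℓ w ± 1` (`length_mul_simple`).
Strong induction on `ℓ w`; claim `P(w)`: for all `i` that are not right descents of `w`,
`rep w (e i) ∈ Cone`.
`w = 1`: `e i ∈ Cone`. `w ≠ 1`: let `j` be a right descent (`exists_rightDescent_of_ne_one`),
`j ≠ i`, `w = v s_j`, `ℓ v = ℓ w - 1`.
Case `adj i j`: `rep s_j (e i) = e i`, so `rep w (e i) = rep v (e i)`; `i` is not a descent of `v`: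
otherwise `ℓ (w s_i) = ℓ (v s_i s_j) ≤ ℓ (v s_i) + 1 = ℓ v < ℓ w` (`s_i s_j = s_j s_i`), contradiction.
Apply `P(v)`.
Case not adjacent: `B (e i) (e j) = -k`, `k ≥ 1`. Sublemma `Q(v)`: for `a, b ∈ {i, j}` different,
`a` not a descent of `v`, `0 ≤ q ≤ p`, `ℓ v < ℓ w`: `rep v (p e_a + q e_b) ∈ Cone`. Induction on `ℓ v`:
if `b` is not a descent of `v`, use `P(v)` for `a` and `b`. If `b` is a descent: `v = v' s_b`,
`s_b (p e_a + q e_b) = p e_a + (2kp - q) e_b`, `2kp - q ≥ p ≥ 0`, `b` is not a descent of `v'`: apply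
`Q(v')` with `a`, `b` exchanged, `p' = 2kp - q`, `q' = p`.
Now `rep w (e i) = rep v (s_j (e i)) = rep v (2k e_j + e_i)`, `j` is not a descent of `v`: `Q(v)` with
`a = j`, `p = 2k`, `q = 1`.
`root_neg`: `w = v s_i`, `rep w (e i) = - rep v (e i)`, `i` is not a descent of `v`.
`left_desc`: `B (rep w p) (e k) = B p (rep w⁻¹ (e k))` and `k` is a right descent of `w⁻¹`.
`s_comm`: `(s_i s_j)² = 1`. `rep_pres`, `rep_fut`: for one reflection: `B x (s_e x) = -1 - 2 (B x e)²`
`≤ -1 < 0`, so `s_e x` is in the same sheet. About 250 lines.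
-/

namespace Pool.Agent.LDJ

namespace RA

variable {ι : Type} (R : RA ι)

theorem s_sq (i : ι) : R.s i * R.s i = 1 := R.cs.simple_mul_simple_self i

theorem s_comm {i j : ι} (h : R.adj i j) : R.s i * R.s j = R.s j * R.s i := by
  have hij : i ≠ j := by
    rintro rfl
    exact R.irrefl _ h
  have h1 : (R.s i * R.s j) ^ (R.cox i j) = 1 := R.cs.simple_mul_simple_pow i j
  rw [cox_apply, if_neg hij, if_pos h, pow_two] at h1
  have h2 : R.s i * R.s j = (R.s i * R.s j)⁻¹ := eq_inv_of_mul_eq_one_left h1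
  rw [mul_inv_rev, inv_eq_of_mul_eq_one_left (R.s_sq i), inv_eq_of_mul_eq_one_left (R.s_sq j)] at h2
  exact h2

theorem wr_mul (w w' : R.W) (u : V) : R.rep (w * w') u = R.rep w (R.rep w' u) := by
  rw [map_mul]
  rfl

theorem wr_s (i : ι) (u : V) : R.rep (R.s i) u = u - (2 * B u (R.e i)) • R.e i := by
  rw [rep_s, refl_apply]

theorem wr_refl {e : V} (he : B e e = 1) (u v : V) :
    B (u - (2 * B u e) • e) (v - (2 * B v e) • e) = B u v := by
  simp only [B, Pi.sub_apply, Pi.smul_apply, smul_eq_mul] at he ⊢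
  linear_combination (4 * (u 0 * e 0 + u 1 * e 1 - u 2 * e 2) *
    (v 0 * e 0 + v 1 * e 1 - v 2 * e 2)) * he

theorem rep_pres (w : R.W) (u v : V) : B (R.rep w u) (R.rep w v) = B u v := by
  induction w using R.cs.simple_induction generalizing u v with
  | simple i =>
    change B (R.rep (R.s i) u) (R.rep (R.s i) v) = B u v
    rw [wr_s, wr_s, wr_refl (R.one i)]
  | one =>
    rw [map_one]
    rfl
  | mul w w' h h' =>
    rw [wr_mul, wr_mul, h, h']

theorem wr_sheet {x y : V} (hx : x ∈ Hyp) (hy : B y y = -1) (h : B x y < 1) : y ∈ Hyp := by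
  refine ⟨hy, ?_⟩
  by_contra h1
  have h2 : y 2 ≠ 0 := by
    intro h3
    simp only [B, h3] at hy
    nlinarith [sq_nonneg (y 0), sq_nonneg (y 1)]
  have h3 : (-y) ∈ Hyp := by
    constructor
    · simp only [B, Pi.neg_apply] at hy ⊢
      linarith
    · simp only [Pi.neg_apply]
      rcases lt_trichotomy (y 2) 0 with h4 | h4 | h4
      · linarith
      · exact absurd h4 h2
      · exact absurd h4 h1
  have h4 := one_le hx h3
  have h5 : B x (-y) = - B x y := by
    simp only [B, Pi.neg_apply]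
    ring
  rw [h5] at h4
  linarith

theorem rep_fut (w : R.W) {x : V} (hx : x ∈ Hyp) : R.rep w x ∈ Hyp := by
  induction w using R.cs.simple_induction generalizing x with
  | simple i =>
    change R.rep (R.s i) x ∈ Hyp
    have h1 : B (R.rep (R.s i) x) (R.rep (R.s i) x) = -1 := by
      rw [rep_pres]
      exact hx.1
    refine wr_sheet hx h1 ?_
    have h2 : B x (R.rep (R.s i) x) = B x x - 2 * B x (R.e i) * B x (R.e i) := by
      rw [wr_s]
      simp only [B, Pi.sub_apply, Pi.smul_apply, smul_eq_mul]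
      ring
    rw [h2, hx.1]
    nlinarith [sq_nonneg (B x (R.e i))]
  | one =>
    rw [map_one]
    exact hx
  | mul w w' h h' =>
    rw [wr_mul]
    exact h (h' hx)

variable [Fintype ι]

theorem e_mem (k : ι) : R.e k ∈ R.Cone := by
  classical
  refine ⟨Pi.single k 1, fun j => ?_, ?_⟩
  · by_cases h : j = k
    · subst h
      simp
    · simp [Pi.single_eq_of_ne h]
  · rw [Finset.sum_eq_single k]
    · simp
    · intro j _ hj
      rw [Pi.single_eq_of_ne hj, zero_smul]
    · intro h
      exact absurd (Finset.mem_univ k) h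

theorem cone_add {u v : V} (hu : u ∈ R.Cone) (hv : v ∈ R.Cone) : u + v ∈ R.Cone := by
  obtain ⟨c, hc, rfl⟩ := hu
  obtain ⟨d, hd, rfl⟩ := hv
  refine ⟨fun k => c k + d k, fun k => add_nonneg (hc k) (hd k), ?_⟩
  rw [← Finset.sum_add_distrib]
  exact Finset.sum_congr rfl fun k _ => (add_smul _ _ _).symm

theorem cone_smul {t : ℝ} (ht : 0 ≤ t) {u : V} (hu : u ∈ R.Cone) : t • u ∈ R.Cone := by
  obtain ⟨c, hc, rfl⟩ := hu
  refine ⟨fun k => t * c k, fun k => mul_nonneg ht (hc k), ?_⟩
  rw [Finset.smul_sum]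
  exact Finset.sum_congr rfl fun k _ => (mul_smul _ _ _).symm

omit [Fintype ι] in
/-- a right descent splits off -/
theorem wr_desc {w : R.W} {j : ι} (h : R.cs.IsRightDescent w j) :
    R.cs.length (w * R.s j) + 1 = R.cs.length w ∧ ¬ R.cs.IsRightDescent (w * R.s j) j ∧
      ∀ u : V, R.rep w u = R.rep (w * R.s j) (R.rep (R.s j) u) := by
  refine ⟨R.cs.isRightDescent_iff.mp h,
    R.cs.isRightDescent_iff_not_isRightDescent_mul.mp h, fun u => ?_⟩
  rw [← wr_mul, mul_assoc, s_sq, mul_one]

theorem wr_two (n : ℕ)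
    (IH : ∀ w : R.W, R.cs.length w < n → ∀ i, ¬ R.cs.IsRightDescent w i →
      R.rep w (R.e i) ∈ R.Cone) :
    ∀ m : ℕ, ∀ v : R.W, R.cs.length v = m → m < n → ∀ a b : ι, B (R.e a) (R.e b) ≤ -1 →
      ¬ R.cs.IsRightDescent v a → ∀ p q : ℝ, 0 ≤ q → q ≤ p →
      R.rep v (p • R.e a + q • R.e b) ∈ R.Cone := by
  intro m
  induction m using Nat.strong_induction_on with
  | _ m ih =>
    intro v hv hm a b hab ha p q hq hqp
    by_cases hb : R.cs.IsRightDescent v b
    · obtain ⟨h1, h2, h3⟩ := R.wr_desc hb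
      have h4 : R.rep (R.s b) (p • R.e a + q • R.e b) =
          (-2 * B (R.e a) (R.e b) * p - q) • R.e b + p • R.e a := by
        rw [wr_s]
        have hob := R.one b
        funext k
        simp only [B, Pi.sub_apply, Pi.add_apply, Pi.smul_apply, smul_eq_mul] at hob ⊢
        linear_combination (-2 * q * R.e b k) * hob
      rw [h3, h4]
      refine ih (R.cs.length (v * R.s b)) (by omega) _ rfl (by omega) b a ?_ h2 _ _
        (hq.trans hqp) ?_
      · rw [B_comm]
        exact hab
      · have hp : 0 ≤ p := hq.trans hqp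
        nlinarith
    · rw [map_add, map_smul, map_smul]
      exact R.cone_add (R.cone_smul (hq.trans hqp) (IH v (by omega) a ha))
        (R.cone_smul hq (IH v (by omega) b hb))

theorem root (w : R.W) (i : ι) (h : ¬ R.cs.IsRightDescent w i) : R.rep w (R.e i) ∈ R.Cone := by
  have main : ∀ n : ℕ, ∀ w : R.W, R.cs.length w = n → ∀ i, ¬ R.cs.IsRightDescent w i →
      R.rep w (R.e i) ∈ R.Cone := by
    intro n
    induction n using Nat.strong_induction_on with
    | _ n ih =>
      intro w hw i hi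
      by_cases hw1 : w = 1
      · subst hw1
        rw [map_one]
        exact R.e_mem i
      · obtain ⟨j, hj⟩ := R.cs.exists_rightDescent_of_ne_one hw1
        have hij : i ≠ j := by
          rintro rfl
          exact hi hj
        obtain ⟨h1, h2, h3⟩ := R.wr_desc hj
        by_cases hadj : R.adj i j
        · have h4 : R.rep (R.s j) (R.e i) = R.e i := by
            rw [wr_s, R.orth i j hadj]
            simp
          rw [h3, h4]
          refine ih _ (by omega) _ rfl i ?_
          intro h5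
          apply hi
          have h6 : w * R.s i = (w * R.s j) * R.s i * R.s j := by
            rw [mul_assoc, mul_assoc, R.s_comm hadj, ← mul_assoc (R.s j) (R.s j),
              R.s_sq, one_mul]
          have h7 : R.cs.length (w * R.s i) ≤ R.cs.length ((w * R.s j) * R.s i) +
              R.cs.length (R.s j) := by
            rw [h6]
            exact R.cs.length_mul_le _ _
          have h8 : R.cs.length (R.s j) = 1 := R.cs.length_simple j
          have h9 : R.cs.length ((w * R.s j) * R.s i) < R.cs.length (w * R.s j) := h5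
          change R.cs.length (w * R.s i) < R.cs.length w
          omega
        · have h4 := R.far i j hij hadj
          have h5 : R.rep (R.s j) (R.e i) =
              (-2 * B (R.e i) (R.e j)) • R.e j + (1 : ℝ) • R.e i := by
            rw [wr_s]
            funext k
            simp only [Pi.sub_apply, Pi.add_apply, Pi.smul_apply, smul_eq_mul]
            ring
          rw [h3, h5]
          refine R.wr_two n (fun v hv a ha => ih _ hv v rfl a ha) _ _ rfl (by omega) j i ?_ h2 _ _
            zero_le_one (by linarith)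
          rw [B_comm]
          exact h4
  exact main _ w rfl i h

theorem root_neg (w : R.W) (i : ι) (h : R.cs.IsRightDescent w i) :
    -(R.rep w (R.e i)) ∈ R.Cone := by
  obtain ⟨h1, h2, h3⟩ := R.wr_desc h
  have h4 : R.rep (R.s i) (R.e i) = - R.e i := by
    rw [wr_s, R.one i]
    funext k
    simp only [Pi.sub_apply, Pi.smul_apply, Pi.neg_apply, smul_eq_mul]
    ring
  rw [h3, h4, map_neg, neg_neg]
  exact R.root _ i h2

theorem left_desc {w : R.W} {k : ι} (h : R.cs.IsLeftDescent w k) {p : V}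
    (hp : ∀ j, B p (R.e j) ≤ 0) : 0 ≤ B (R.rep w p) (R.e k) := by
  have h1 : R.cs.IsRightDescent w⁻¹ k := R.cs.isRightDescent_inv_iff.mpr h
  obtain ⟨c, hc, h2⟩ := R.root_neg w⁻¹ k h1
  have h3 : R.e k = R.rep w (R.rep w⁻¹ (R.e k)) := by
    rw [← wr_mul, mul_inv_cancel, map_one]
    rfl
  have h4 : B (R.rep w p) (R.e k) = B p (R.rep w⁻¹ (R.e k)) := by
    conv_lhs => rw [h3]
    rw [rep_pres]
  have h5 : R.rep w⁻¹ (R.e k) = -∑ j, c j • R.e j := by
    rw [← h2, neg_neg]
  have h6 : B p (-∑ j, c j • R.e j) = -∑ j, c j * B p (R.e j) := by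
    simp only [B, Pi.neg_apply, Finset.sum_apply, Pi.smul_apply, smul_eq_mul]
    simp only [mul_neg, Finset.mul_sum, mul_sub, mul_add, Finset.sum_sub_distrib,
      Finset.sum_add_distrib]
    have e1 : ∀ t : Fin 3, ∑ x, p t * (c x * R.e x t) = ∑ x, c x * (p t * R.e x t) := fun t =>
      Finset.sum_congr rfl fun x _ => by ring
    rw [e1, e1, e1]
    ring
  rw [h4, h5, h6, neg_nonneg]
  exact Finset.sum_nonpos fun j _ => mul_nonpos_of_nonneg_of_nonpos (hc j) (hp j)

end RA

end Pool.Agent.LDJ
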