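import Pool.Agent.LDJ.WDef
import Pool.Agent.LDJ.FBas

/-!
LDJ.WVec: the regular right-angled polygon with `N = 2g+2 ≥ 6` sides.

`h = π/N`, `θ = 2h`, `t = cos θ ∈ [1/2, 1)`, `C² = 1/(1-t) = 1/(2 sin² h)`, `S² = t/(1-t)`,
`e k = (C cos(kθ), C sin(kθ), S)`, `k = 0..N-1` (`k.val`). Then
`B (e i) (e j) = C² cos((i-j)θ) - S² = (cos((i-j)θ) - t)/(1-t)`; `1` for `i = j`, `0` for neighbours,
and `≤ (cos 2θ - t)/(1-t) = -(2t+1) ≤ -2` otherwise.
`cpt`: `x = (r cos φ, r sin φ, √(1+r²))` in the polygon: some `k` has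
`cos(φ - kθ) ≥ cos h`; `r C cos h ≤ S √(1+r²)`, `r²(C² cos² h - S²) ≤ S²`, and
`C² cos² h - S² = ((1+t)/2 - t)/(1-t) = 1/2`. `noideal`: the same with a light vector:
`B u (e k) ≥ r (C cos h - S) > 0`.
`n = (a cos 3h, a sin 3h, b)`, `a C cos 3h = S b`, `a² - b² = 1`, `a > 0`:
`a² = t/(t - cos² 3h)`, and `t - cos² 3h = (1-t)(4t²+4t-1)/2 > 0`.
`B n (e k) = aC (cos((2k-3)h) - cos 3h)`: `0` for `k = 0, 3`; for `k = 1, 2`:
`x0 = aC (cos h - cos 3h)`, `x0² = 4t(1+t)/(4t²+4t-1) > 1`; for `4 ≤ k ≤ N-1`,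
`cos((2k-3)h) ≤ cos 5h`, so `B n (e k) ≤ -aC (cos 3h - cos 5h) = -2t x0 ≤ -x0`
(`cos 3h - cos 5h = 2 sin 4h sin h`, `cos h - cos 3h = 2 sin 2h sin h`). `k = 4`: `= -2t x0`.
`cross`: `k' = -B (e 1) (e 4) = 4t(1+t)`; the expression is
`x0² (1 - 2·4t(1+t)·2t + 4t²) = x0² (1 - 12 t² - 16 t³) < 0` for `t ≥ 1/2`. (For `N = 6`
also `4 ∉ {0,1,2,3}`.) About 300 lines.
-/

namespace Pool.Agent.LDJ

/-- the regular right-angled polygon -/
structure RNData (g : ℕ) where
  R : RA (ZMod (2 * g + 2))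
  adj_iff : ∀ i j, R.adj i j ↔ (j = i + 1 ∨ i = j + 1)
  pos : ∀ k, 0 < R.e k 2
  far' : ∀ i j, i ≠ j → ¬ R.adj i j → B (R.e i) (R.e j) < -1
  S : ℝ
  hS : 0 < S
  center : ∀ k, B o (R.e k) ≤ -S
  cpt : ∃ c : ℝ, ∀ x ∈ R.Poly, -B x o ≤ c
  noideal : ∀ u ∈ Light, ∃ k, 0 < B u (R.e k)
  n : V
  x0 : ℝ
  hx0 : 1 < x0
  hn : B n n = 1
  n0 : B n (R.e 0) = 0
  n3 : B n (R.e 3) = 0
  n1 : x0 ≤ B n (R.e 1)
  n2 : x0 ≤ B n (R.e 2)
  nk : ∀ k, k ≠ 0 → k ≠ 1 → k ≠ 2 → k ≠ 3 → B n (R.e k) ≤ -x0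
  cross : B n (R.e 1) ^ 2 - 2 * B (R.e 1) (R.e 4) * B n (R.e 1) * B n (R.e 4) +
    B n (R.e 4) ^ 2 < 0

namespace WVecAux

open Real

noncomputable section

/-- `π / N` -/
def hh (N : ℕ) : ℝ := π / N

/-- `cos (2π / N)` -/
def tt (N : ℕ) : ℝ := cos (2 * hh N)

def CC (N : ℕ) : ℝ := √(1 / (1 - tt N))

def SS (N : ℕ) : ℝ := √(tt N / (1 - tt N))

def ev (N : ℕ) (k : ZMod N) : V :=
  ![CC N * cos (k.val * (2 * hh N)), CC N * sin (k.val * (2 * hh N)), SS N]

variable {N : ℕ} (hN : 6 ≤ N)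

include hN

theorem N_mul : (N : ℝ) * hh N = π := by
  have : (N : ℝ) ≠ 0 := by
    have : N ≠ 0 := by omega
    exact_mod_cast this
  unfold hh
  field_simp

theorem hh_pos : 0 < hh N := by
  have : (0 : ℝ) < N := by
    have : 0 < N := by omega
    exact_mod_cast this
  unfold hh
  positivity

theorem hh_le : 6 * hh N ≤ π := by
  have h1 := N_mul hN
  have h2 := hh_pos hN
  have h3 : (6 : ℝ) ≤ N := by exact_mod_cast hN
  nlinarith

theorem tt_half : 1 / 2 ≤ tt N := by
  rw [← cos_pi_div_three, tt]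
  have h1 := hh_pos hN
  have h2 := hh_le hN
  have h3 := pi_pos
  apply cos_le_cos_of_nonneg_of_le_pi
  · linarith
  · linarith
  · linarith

theorem tt_lt : tt N < 1 := by
  have h1 := hh_pos hN
  have h2 := hh_le hN
  have h3 := pi_pos
  rw [tt, ← cos_zero]
  apply cos_lt_cos_of_nonneg_of_le_pi
  · exact le_rfl
  · linarith
  · linarith

theorem CC_pos : 0 < CC N := by
  have := tt_lt hN
  exact sqrt_pos.mpr (by apply div_pos one_pos; linarith)

theorem SS_pos : 0 < SS N := by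
  have := tt_lt hN
  have := tt_half hN
  exact sqrt_pos.mpr (by apply div_pos <;> linarith)

theorem CC_sq : CC N * CC N = 1 / (1 - tt N) := by
  have := tt_lt hN
  exact mul_self_sqrt (by apply div_nonneg zero_le_one; linarith)

theorem SS_sq : SS N * SS N = tt N / (1 - tt N) := by
  have := tt_lt hN
  have := tt_half hN
  exact mul_self_sqrt (by apply div_nonneg <;> linarith)

omit hN in
theorem cos_le_of {a x : ℝ} (ha : 0 ≤ a) (ha' : a ≤ π) (h1 : a ≤ x) (h2 : x ≤ 2 * π - a) :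
    cos x ≤ cos a := by
  rcases le_total x π with h | h
  · exact cos_le_cos_of_nonneg_of_le_pi ha h h1
  · rw [← cos_two_pi_sub x]
    exact cos_le_cos_of_nonneg_of_le_pi ha (by linarith) (by linarith)

theorem int_period (m : ℤ) : ∃ q : ℤ, (m : ℝ) * (2 * hh N) =
    ((m : ZMod N).val : ℝ) * (2 * hh N) + q * (2 * π) := by
  have : NeZero N := ⟨by omega⟩
  have h1 : ((m : ZMod N).val : ℤ) = m % N := ZMod.val_intCast m
  have h2 := Int.emod_add_mul_ediv m N
  refine ⟨m / N, ?_⟩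
  have h3 : (m : ℝ) = ((m : ZMod N).val : ℝ) + (N : ℝ) * ((m / N : ℤ) : ℝ) := by
    have h4 : m = ((m : ZMod N).val : ℤ) + N * (m / N) := by rw [h1]; exact h2.symm
    exact_mod_cast congrArg (fun z : ℤ => (z : ℝ)) h4
  have h5 := N_mul hN
  rw [← h5]
  linear_combination (2 * hh N) * h3

theorem cos_int (m : ℤ) : cos (m * (2 * hh N)) = cos ((m : ZMod N).val * (2 * hh N)) := by
  obtain ⟨q, hq⟩ := int_period hN m
  rw [hq, cos_add_int_mul_two_pi]

theorem sin_int (m : ℤ) : sin (m * (2 * hh N)) = sin ((m : ZMod N).val * (2 * hh N)) := by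
  obtain ⟨q, hq⟩ := int_period hN m
  rw [hq, sin_add_int_mul_two_pi]

theorem B_ev (i j : ZMod N) : B (ev N i) (ev N j) =
    (cos ((i - j).val * (2 * hh N)) - tt N) / (1 - tt N) := by
  have : NeZero N := ⟨by omega⟩
  have h1 : cos ((i - j).val * (2 * hh N)) =
      cos (i.val * (2 * hh N)) * cos (j.val * (2 * hh N)) +
        sin (i.val * (2 * hh N)) * sin (j.val * (2 * hh N)) := by
    rw [← cos_sub, ← sub_mul]
    have h2 := cos_int hN ((i.val : ℤ) - (j.val : ℤ))
    push_cast at h2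
    rw [ZMod.natCast_zmod_val, ZMod.natCast_zmod_val] at h2
    exact h2.symm
  have h3 := CC_sq hN
  have h4 := SS_sq hN
  rw [h1]
  simp only [B, ev, Matrix.cons_val_zero, Matrix.cons_val_one, Matrix.cons_val]
  have h5 : (1 - tt N) ≠ 0 := by
    have := tt_lt hN
    intro h
    linarith
  rw [eq_div_iff h5]
  rw [eq_div_iff h5] at h3 h4
  linear_combination (cos (i.val * (2 * hh N)) * cos (j.val * (2 * hh N)) +
        sin (i.val * (2 * hh N)) * sin (j.val * (2 * hh N))) * h3 - h4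

/-- the value at neighbours -/
theorem cos_one : cos ((1 : ZMod N).val * (2 * hh N)) = tt N := by
  have h := cos_int hN 1
  push_cast at h
  rw [← h, one_mul, tt]

theorem cos_neg_one : cos ((-1 : ZMod N).val * (2 * hh N)) = tt N := by
  have h := cos_int hN (-1)
  push_cast at h
  rw [← h, neg_one_mul, cos_neg, tt]

theorem cos_far {k : ZMod N} (h0 : k ≠ 0) (h1 : k ≠ 1) (h2 : k ≠ -1) :
    cos (k.val * (2 * hh N)) ≤ 2 * tt N ^ 2 - 1 := by
  have : NeZero N := ⟨by omega⟩
  have hk : ((k.val : ℕ) : ZMod N) = k := ZMod.natCast_zmod_val k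
  have hlt : k.val < N := ZMod.val_lt k
  have k2 : 2 ≤ k.val := by
    by_contra hcon
    push Not at hcon
    interval_cases hv : k.val
    · apply h0
      rw [← hk, Nat.cast_zero]
    · apply h1
      rw [← hk, Nat.cast_one]
  have k3 : k.val ≤ N - 2 := by
    by_contra hcon
    push Not at hcon
    apply h2
    have hv : k.val + 1 = N := by omega
    have h3 : ((k.val + 1 : ℕ) : ZMod N) = ((N : ℕ) : ZMod N) := by rw [hv]
    rw [Nat.cast_add, hk, Nat.cast_one, ZMod.natCast_self] at h3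
    linear_combination h3
  rw [tt, ← cos_two_mul]
  have hp := hh_pos hN
  have hl := hh_le hN
  have hn := N_mul hN
  have k2' : (2 : ℝ) ≤ k.val := by exact_mod_cast k2
  have k3' : (k.val : ℝ) + 2 ≤ N := by
    have : k.val + 2 ≤ N := by omega
    exact_mod_cast this
  apply cos_le_of
  · linarith
  · linarith
  · nlinarith
  · nlinarith

theorem val_of {j : ℕ} (hj : j < 6) : ((j : ℕ) : ZMod N).val = j := by
  rw [ZMod.val_natCast, Nat.mod_eq_of_lt (by omega)]

/-- a direction close to a given one -/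
theorem near (x y : ℝ) : ∃ k : ZMod N, √(x ^ 2 + y ^ 2) * cos (hh N) ≤
    x * cos (k.val * (2 * hh N)) + y * sin (k.val * (2 * hh N)) := by
  have hp := hh_pos hN
  have hl := hh_le hN
  have hpi := pi_pos
  set z : ℂ := ⟨x, y⟩ with hz
  have hr : ‖z‖ = √(x ^ 2 + y ^ 2) := by
    rw [Complex.norm_def, Complex.normSq_apply]
    congr 1
    simp only [hz]
    ring
  have hx : x = ‖z‖ * cos z.arg := (Complex.norm_mul_cos_arg z).symm
  have hy : y = ‖z‖ * sin z.arg := (Complex.norm_mul_sin_arg z).symm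
  set m : ℤ := round (z.arg / (2 * hh N)) with hm
  refine ⟨(m : ZMod N), ?_⟩
  rw [← cos_int hN, ← sin_int hN, ← hr]
  have h1 : x * cos (m * (2 * hh N)) + y * sin (m * (2 * hh N)) =
      ‖z‖ * cos (z.arg - m * (2 * hh N)) := by
    rw [cos_sub]
    conv_lhs => rw [hx, hy]
    ring
  rw [h1]
  apply mul_le_mul_of_nonneg_left _ (norm_nonneg _)
  have h2 := abs_sub_round (z.arg / (2 * hh N))
  rw [← hm] at h2
  have h3 : |z.arg - m * (2 * hh N)| ≤ hh N := by
    have h4 : z.arg - m * (2 * hh N) = (z.arg / (2 * hh N) - m) * (2 * hh N) := by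
      field_simp
    rw [h4, abs_mul, abs_of_pos (by linarith : (0 : ℝ) < 2 * hh N)]
    nlinarith
  rw [← cos_abs (z.arg - m * (2 * hh N))]
  exact cos_le_cos_of_nonneg_of_le_pi (abs_nonneg _) (by linarith) h3

theorem cos_h_sq : cos (hh N) ^ 2 = (1 + tt N) / 2 := by
  rw [tt, cos_two_mul]
  ring

theorem cos_h_pos : 0 < cos (hh N) := by
  have hp := hh_pos hN
  have hl := hh_le hN
  have hpi := pi_pos
  exact cos_pos_of_mem_Ioo ⟨by linarith, by linarith⟩

/-- the inradius identity -/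
theorem inrad : (CC N * cos (hh N)) ^ 2 - SS N * SS N = 1 / 2 := by
  have h1 := cos_h_sq hN
  have h2 := tt_lt hN
  have h5 : (1 - tt N) ≠ 0 := by
    intro h
    linarith
  rw [mul_pow, pow_two (CC N), CC_sq hN, SS_sq hN, h1]
  field_simp
  ring

theorem B_ev_right (x : V) (k : ZMod N) : B x (ev N k) =
    CC N * (x 0 * cos (k.val * (2 * hh N)) + x 1 * sin (k.val * (2 * hh N))) - SS N * x 2 := by
  simp only [B, ev, Matrix.cons_val_zero, Matrix.cons_val_one, Matrix.cons_val]
  ring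

/-- the right-angled system -/
def RR : RA (ZMod N) where
  adj i j := j = i + 1 ∨ i = j + 1
  symm i j h := h.symm
  irrefl i h := by
    have h1 : (1 : ZMod N) = 0 := by
      rcases h with h | h
      · exact (left_eq_add.mp h)
      · exact (left_eq_add.mp h)
    have h2 := val_of hN (j := 1) (by omega)
    rw [Nat.cast_one, h1, ZMod.val_zero] at h2
    omega
  e := ev N
  one i := by
    rw [B_ev hN, sub_self, ZMod.val_zero, Nat.cast_zero, zero_mul, cos_zero]
    have := tt_lt hN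
    exact div_self (by intro h; linarith)
  orth i j h := by
    rw [B_ev hN]
    have h1 : i - j = -1 ∨ i - j = 1 := by
      rcases h with h | h
      · left
        rw [h]
        ring
      · right
        rw [h]
        ring
    rcases h1 with h1 | h1
    · rw [h1, cos_neg_one hN, sub_self, zero_div]
    · rw [h1, cos_one hN, sub_self, zero_div]
  far i j hij hadj := by
    have h0 : i - j ≠ 0 := sub_ne_zero.mpr hij
    push Not at hadj
    have h1 : i - j ≠ 1 := fun h => hadj.2 (by linear_combination h)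
    have h2 : i - j ≠ -1 := fun h => hadj.1 (by linear_combination -h)
    have h3 := cos_far hN h0 h1 h2
    have h4 := tt_lt hN
    have h5 := tt_half hN
    rw [B_ev hN, div_le_iff₀ (by linarith)]
    nlinarith

theorem cos3 : cos (3 * hh N) = cos (hh N) * (2 * tt N - 1) := by
  have hcs := cos_h_sq hN
  rw [cos_three_mul]
  linear_combination (4 * cos (hh N)) * hcs

theorem cos53 : cos (5 * hh N) - cos (3 * hh N) =
    -(2 * tt N) * (cos (hh N) - cos (3 * hh N)) := by
  have e5 : cos (5 * hh N) = cos (4 * hh N) * cos (hh N) - sin (4 * hh N) * sin (hh N) := by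
    rw [← cos_add]
    congr 1
    ring
  have e3 : cos (3 * hh N) = cos (4 * hh N) * cos (hh N) + sin (4 * hh N) * sin (hh N) := by
    rw [← cos_sub]
    congr 1
    ring
  have e31 : cos (3 * hh N) = cos (2 * hh N) * cos (hh N) - sin (2 * hh N) * sin (hh N) := by
    rw [← cos_add]
    congr 1
    ring
  have e11 : cos (hh N) = cos (2 * hh N) * cos (hh N) + sin (2 * hh N) * sin (hh N) := by
    rw [← cos_sub]
    congr 1
    ring
  have e4 : sin (4 * hh N) = 2 * sin (2 * hh N) * cos (2 * hh N) := by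
    rw [← sin_two_mul]
    congr 1
    ring
  have ht : cos (2 * hh N) = tt N := rfl
  rw [ht] at e31 e11 e4
  have f1 : cos (5 * hh N) - cos (3 * hh N) =
      -(2 * (2 * sin (2 * hh N) * tt N) * sin (hh N)) := by
    rw [e5, e3, e4]
    ring
  have f2 : cos (hh N) - cos (3 * hh N) = 2 * (sin (2 * hh N) * sin (hh N)) := by
    linear_combination e11 - e31
  rw [f1, f2]
  ring

theorem cos13 : cos (hh N) - cos (3 * hh N) = 2 * cos (hh N) * (1 - tt N) := by
  rw [cos3 hN]
  ring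

theorem den_eq : tt N - cos (3 * hh N) ^ 2 =
    (1 - tt N) * (4 * tt N ^ 2 + 4 * tt N - 1) / 2 := by
  rw [cos3 hN, mul_pow, cos_h_sq hN]
  ring

theorem q_pos : 0 < 4 * tt N ^ 2 + 4 * tt N - 1 := by
  have := tt_half hN
  nlinarith

theorem den_pos : 0 < tt N - cos (3 * hh N) ^ 2 := by
  rw [den_eq hN]
  have h1 := q_pos hN
  have h2 := tt_lt hN
  have : 0 < 1 - tt N := by linarith
  positivity

omit hN in
/-- coefficient of the normal -/
def aa (N : ℕ) : ℝ := √(tt N / (tt N - cos (3 * hh N) ^ 2))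

theorem aa_pos : 0 < aa N := by
  have := tt_half hN
  exact sqrt_pos.mpr (div_pos (by linarith) (den_pos hN))

theorem aa_sq : aa N * aa N = tt N / (tt N - cos (3 * hh N) ^ 2) := by
  have := tt_half hN
  exact mul_self_sqrt (div_pos (by linarith) (den_pos hN)).le

omit hN in
/-- coefficient of the normal -/
def bb (N : ℕ) : ℝ := aa N * CC N * cos (3 * hh N) / SS N

theorem S_bb : SS N * bb N = aa N * CC N * cos (3 * hh N) := by
  have := (SS_pos hN).ne'
  rw [bb]
  field_simp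

theorem tt_ne : tt N ≠ 0 := by
  have := tt_half hN
  intro h
  linarith

theorem one_sub_ne : 1 - tt N ≠ 0 := by
  have := tt_lt hN
  intro h
  linarith

theorem bb_sq : bb N * bb N = aa N * aa N * cos (3 * hh N) ^ 2 / tt N := by
  have h1 : (SS N * SS N) * (bb N * bb N) =
      (aa N * aa N) * (CC N * CC N) * cos (3 * hh N) ^ 2 := by
    calc (SS N * SS N) * (bb N * bb N) = (SS N * bb N) * (SS N * bb N) := by ring
      _ = _ := by rw [S_bb hN]; ring
  rw [SS_sq hN, CC_sq hN] at h1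
  have ht0 := tt_ne hN
  have h1t := one_sub_ne hN
  rw [eq_div_iff ht0]
  field_simp at h1
  linear_combination h1

omit hN in
/-- the normal -/
def nn (N : ℕ) : V := ![aa N * cos (3 * hh N), aa N * sin (3 * hh N), bb N]

theorem B_nn : B (nn N) (nn N) = 1 := by
  simp only [B, nn, Matrix.cons_val_zero, Matrix.cons_val_one, Matrix.cons_val]
  have h1 := sin_sq_add_cos_sq (3 * hh N)
  have h2 : aa N * aa N - bb N * bb N = 1 := by
    have ht0 := tt_ne hN
    have hd := (den_pos hN).ne'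
    rw [bb_sq hN, aa_sq hN]
    field_simp
  linear_combination (aa N * aa N) * h1 + h2

theorem B_nn_ev (k : ZMod N) : B (nn N) (ev N k) =
    aa N * CC N * (cos ((2 * (k.val : ℝ) - 3) * hh N) - cos (3 * hh N)) := by
  have hSb := S_bb hN
  rw [B_ev_right hN]
  simp only [nn, Matrix.cons_val_zero, Matrix.cons_val_one, Matrix.cons_val]
  have h1 : cos ((2 * (k.val : ℝ) - 3) * hh N) =
      cos (k.val * (2 * hh N)) * cos (3 * hh N) + sin (k.val * (2 * hh N)) * sin (3 * hh N) := by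
    rw [← cos_sub]
    congr 1
    ring
  rw [h1]
  linear_combination -hSb

omit hN in
/-- the value at neighbours -/
def xx (N : ℕ) : ℝ := aa N * CC N * (cos (hh N) - cos (3 * hh N))

theorem xx_pos : 0 < xx N := by
  have h1 := aa_pos hN
  have h2 := CC_pos hN
  have h3 := cos_h_pos hN
  have h4 := tt_lt hN
  rw [xx, cos13 hN]
  have : 0 < 1 - tt N := by linarith
  positivity

theorem xx_sq : xx N * xx N * (4 * tt N ^ 2 + 4 * tt N - 1) = 4 * tt N * (1 + tt N) := by
  have h1 : xx N * xx N = (aa N * aa N) * (CC N * CC N) * (4 * cos (hh N) ^ 2 * (1 - tt N) ^ 2) := by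
    rw [xx, cos13 hN]
    ring
  have hq := (q_pos hN).ne'
  have h1t := one_sub_ne hN
  rw [h1, aa_sq hN, CC_sq hN, cos_h_sq hN, den_eq hN]
  generalize 4 * tt N ^ 2 + 4 * tt N - 1 = q at *
  field_simp

theorem xx_gt : 1 < xx N := by
  have h1 := xx_sq hN
  have h2 := xx_pos hN
  have h3 := q_pos hN
  by_contra hcon
  push Not at hcon
  have h4 : xx N * xx N ≤ 1 := by nlinarith
  nlinarith

theorem val0 : ((0 : ZMod N).val : ℝ) = 0 := by simp

theorem val1 : ((1 : ZMod N).val : ℝ) = 1 := by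
  have := val_of hN (j := 1) (by omega)
  rw [Nat.cast_one] at this
  rw [this]
  norm_num

theorem val2 : ((2 : ZMod N).val : ℝ) = 2 := by
  have := val_of hN (j := 2) (by omega)
  rw [Nat.cast_ofNat] at this
  rw [this]
  norm_num

theorem val3 : ((3 : ZMod N).val : ℝ) = 3 := by
  have := val_of hN (j := 3) (by omega)
  rw [Nat.cast_ofNat] at this
  rw [this]
  norm_num

theorem val4 : ((4 : ZMod N).val : ℝ) = 4 := by
  have := val_of hN (j := 4) (by omega)
  rw [Nat.cast_ofNat] at this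
  rw [this]
  norm_num

theorem nn0 : B (nn N) (ev N 0) = 0 := by
  rw [B_nn_ev hN, val0 hN, show (2 * (0 : ℝ) - 3) * hh N = -(3 * hh N) by ring, cos_neg, sub_self,
    mul_zero]

theorem nn1 : B (nn N) (ev N 1) = xx N := by
  rw [B_nn_ev hN, val1 hN, show (2 * (1 : ℝ) - 3) * hh N = -hh N by ring, cos_neg, xx]

theorem nn2 : B (nn N) (ev N 2) = xx N := by
  rw [B_nn_ev hN, val2 hN, show (2 * (2 : ℝ) - 3) * hh N = hh N by ring, xx]

theorem nn3 : B (nn N) (ev N 3) = 0 := by
  rw [B_nn_ev hN, val3 hN, show (2 * (3 : ℝ) - 3) * hh N = 3 * hh N by ring, sub_self, mul_zero]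

theorem nn4 : B (nn N) (ev N 4) = -(2 * tt N) * xx N := by
  rw [B_nn_ev hN, val4 hN, show (2 * (4 : ℝ) - 3) * hh N = 5 * hh N by ring, cos53 hN, xx]
  ring

theorem nnk (k : ZMod N) (h0 : k ≠ 0) (h1 : k ≠ 1) (h2 : k ≠ 2) (h3 : k ≠ 3) :
    B (nn N) (ev N k) ≤ -xx N := by
  have : NeZero N := ⟨by omega⟩
  have hk : ((k.val : ℕ) : ZMod N) = k := ZMod.natCast_zmod_val k
  have hlt : k.val < N := ZMod.val_lt k
  have k4 : 4 ≤ k.val := by
    by_contra hcon
    push Not at hcon
    interval_cases hv : k.val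
    · exact h0 (by rw [← hk, Nat.cast_zero])
    · exact h1 (by rw [← hk, Nat.cast_one])
    · exact h2 (by rw [← hk, Nat.cast_ofNat])
    · exact h3 (by rw [← hk, Nat.cast_ofNat])
  have k4' : (4 : ℝ) ≤ k.val := by exact_mod_cast k4
  have k5' : (k.val : ℝ) + 1 ≤ N := by exact_mod_cast hlt
  have hn := N_mul hN
  have hp := hh_pos hN
  have hl := hh_le hN
  have m1 := mul_le_mul_of_nonneg_right k4' hp.le
  have m2 := mul_le_mul_of_nonneg_right k5' hp.le
  have h5 : cos ((2 * (k.val : ℝ) - 3) * hh N) ≤ cos (5 * hh N) := by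
    apply cos_le_of
    · linarith
    · linarith
    · linarith
    · linarith
  rw [B_nn_ev hN]
  have haC : 0 < aa N * CC N := mul_pos (aa_pos hN) (CC_pos hN)
  have h6 : aa N * CC N * (cos ((2 * (k.val : ℝ) - 3) * hh N) - cos (3 * hh N)) ≤
      aa N * CC N * (cos (5 * hh N) - cos (3 * hh N)) :=
    mul_le_mul_of_nonneg_left (by linarith) haC.le
  have h7 : aa N * CC N * (cos (5 * hh N) - cos (3 * hh N)) = -(2 * tt N) * xx N := by
    rw [cos53 hN, xx]
    ring
  have h8 := xx_pos hN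
  have h9 := tt_half hN
  have h10 : (2 * tt N - 1) * xx N ≥ 0 := mul_nonneg (by linarith) h8.le
  linarith

theorem cross_aux : B (nn N) (ev N 1) ^ 2 -
    2 * B (ev N 1) (ev N 4) * B (nn N) (ev N 1) * B (nn N) (ev N 4) +
    B (nn N) (ev N 4) ^ 2 < 0 := by
  have h1t := one_sub_ne hN
  have ht : cos (2 * hh N) = tt N := rfl
  have h14 : B (ev N 1) (ev N 4) = -(4 * tt N * (1 + tt N)) := by
    rw [B_ev hN]
    have h5 := cos_int hN (-3)
    push_cast at h5
    have h6 : (1 - 4 : ZMod N) = -3 := by ring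
    rw [h6, ← h5]
    have h7 : cos (-3 * (2 * hh N)) = 4 * tt N ^ 3 - 3 * tt N := by
      rw [show -3 * (2 * hh N) = -(3 * (2 * hh N)) by ring, cos_neg, cos_three_mul, ht]
    rw [h7, div_eq_iff h1t]
    ring
  rw [h14, nn1 hN, nn4 hN]
  have h8 : xx N ^ 2 - 2 * -(4 * tt N * (1 + tt N)) * xx N * (-(2 * tt N) * xx N) +
      (-(2 * tt N) * xx N) ^ 2 = xx N ^ 2 * (1 - 12 * tt N ^ 2 - 16 * tt N ^ 3) := by ring
  rw [h8]
  have ht2 := tt_half hN
  have h9 : 1 - 12 * tt N ^ 2 - 16 * tt N ^ 3 < 0 := by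
    have : 0 < tt N := by linarith
    have h10 : 1 / 4 ≤ tt N ^ 2 := by nlinarith
    have h11 : 0 < tt N ^ 3 := by positivity
    linarith
  have hx := xx_pos hN
  exact mul_neg_of_pos_of_neg (by positivity) h9

theorem far_aux (i j : ZMod N) (hij : i ≠ j) (hadj : ¬ (j = i + 1 ∨ i = j + 1)) :
    B (ev N i) (ev N j) < -1 := by
  have h0 : i - j ≠ 0 := sub_ne_zero.mpr hij
  push Not at hadj
  have h1 : i - j ≠ 1 := fun h => hadj.2 (by linear_combination h)
  have h2 : i - j ≠ -1 := fun h => hadj.1 (by linear_combination -h)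
  have h3 := cos_far hN h0 h1 h2
  have ht1 := tt_lt hN
  have ht2 := tt_half hN
  rw [B_ev hN, div_lt_iff₀ (by linarith)]
  nlinarith

theorem S_lt : SS N < CC N * cos (hh N) := by
  by_contra hcon
  push Not at hcon
  have hin := inrad hN
  have h1 : 0 < CC N * cos (hh N) := mul_pos (CC_pos hN) (cos_h_pos hN)
  have h2 : (CC N * cos (hh N)) ^ 2 ≤ SS N * SS N := by nlinarith
  linarith

theorem cpt_aux (x : V) (h1 : B x x = -1) (h2 : 0 < x 2) (h3 : ∀ k, B x (ev N k) ≤ 0) :
    x 2 ≤ 1 + 2 * (SS N * SS N) := by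
  obtain ⟨k, hk⟩ := near hN (x 0) (x 1)
  have h4 := h3 k
  rw [B_ev_right hN] at h4
  have h7 : B x x = x 0 ^ 2 + x 1 ^ 2 - x 2 ^ 2 := by
    simp only [B]
    ring
  rw [h7] at h1
  have hC := CC_pos hN
  have hS := SS_pos hN
  have hin := inrad hN
  have hcp := cos_h_pos hN
  generalize hr : √(x 0 ^ 2 + x 1 ^ 2) = r at hk
  have hr0 : 0 ≤ r := by rw [← hr]; exact sqrt_nonneg _
  have hr2 : r * r = x 0 ^ 2 + x 1 ^ 2 := by rw [← hr]; exact mul_self_sqrt (by positivity)
  have h8 : CC N * (r * cos (hh N)) ≤ SS N * x 2 := by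
    have := mul_le_mul_of_nonneg_left hk hC.le
    linarith
  have h9 : (CC N * (r * cos (hh N))) * (CC N * (r * cos (hh N))) ≤
      (SS N * x 2) * (SS N * x 2) :=
    mul_self_le_mul_self (by positivity) h8
  have e1 : (CC N * (r * cos (hh N))) * (CC N * (r * cos (hh N))) =
      r * r * (CC N * cos (hh N)) ^ 2 := by ring
  have e2 : (SS N * x 2) * (SS N * x 2) = (SS N * SS N) * (1 + r * r) := by
    rw [hr2]
    linear_combination -(SS N * SS N) * h1
  have e3 : (CC N * cos (hh N)) ^ 2 = SS N * SS N + 1 / 2 := by linarith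
  rw [e1, e2, e3] at h9
  have h10 : r * r * (1 / 2) ≤ SS N * SS N := by linarith
  have h12 : 0 < SS N * SS N := by positivity
  have h11 : x 2 ^ 2 ≤ 1 + 2 * (SS N * SS N) := by linarith
  generalize SS N * SS N = y at h12 h11
  nlinarith

theorem noideal_aux (u : V) (h1 : B u u = 0) (h2 : 0 < u 2) : ∃ k, 0 < B u (ev N k) := by
  obtain ⟨k, hk⟩ := near hN (u 0) (u 1)
  refine ⟨k, ?_⟩
  rw [B_ev_right hN]
  have h7 : B u u = u 0 ^ 2 + u 1 ^ 2 - u 2 ^ 2 := by
    simp only [B]
    ring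
  rw [h7] at h1
  have h8 : √(u 0 ^ 2 + u 1 ^ 2) = u 2 := by
    rw [show u 0 ^ 2 + u 1 ^ 2 = u 2 ^ 2 by linarith]
    exact sqrt_sq h2.le
  rw [h8] at hk
  have hSC := S_lt hN
  have h9 := mul_le_mul_of_nonneg_left hk (CC_pos hN).le
  have h10 : 0 < u 2 * (CC N * cos (hh N) - SS N) := mul_pos h2 (by linarith)
  have h11 : u 2 * (CC N * cos (hh N) - SS N) = CC N * (u 2 * cos (hh N)) - SS N * u 2 := by ring
  linarith

theorem center_aux (k : ZMod N) : B o (ev N k) ≤ -SS N := by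
  rw [B_ev_right hN]
  simp [o]

end

end WVecAux

open WVecAux Real in
theorem exists_RNData (g : ℕ) (hg : 2 ≤ g) : Nonempty (RNData g) := by
  have hN : 6 ≤ 2 * g + 2 := by omega
  exact ⟨{ R := RR hN
           adj_iff := fun i j => Iff.rfl
           pos := fun k => SS_pos hN
           far' := fun i j hij hadj => far_aux hN i j hij hadj
           S := SS (2 * g + 2)
           hS := SS_pos hN
           center := fun k => center_aux hN k
           cpt := ⟨1 + 2 * (SS (2 * g + 2) * SS (2 * g + 2)), fun x hx => by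
             have h := cpt_aux hN x hx.1.1 hx.1.2 hx.2
             have h6 : -B x o = x 2 := by simp [B, o]
             rw [h6]
             exact h⟩
           noideal := fun u hu => noideal_aux hN u hu.1 hu.2
           n := nn (2 * g + 2)
           x0 := xx (2 * g + 2)
           hx0 := xx_gt hN
           hn := B_nn hN
           n0 := nn0 hN
           n3 := nn3 hN
           n1 := (nn1 hN).ge
           n2 := (nn2 hN).ge
           nk := fun k h0 h1 h2 h3 => nnk hN k h0 h1 h2 h3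
           cross := cross_aux hN }⟩

end Pool.Agent.LDJ
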