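import Pool.Agent.LDJ.WAlg
import Pool.Agent.LDJ.WVec
import Pool.Agent.LDJ.WRoot

/-!
LDJ.WEmb: the surface group inside the polygon group `W = D.R.W` (generators `s k`,
`k : ZMod (2g+2)`, `s_k² = 1` (`s_sq`), `s_k s_{k+1} = s_{k+1} s_k` (`s_comm` and `D.adj_iff`)).
`io a_i = s_{2i+1} s_0 s_{2i+1} s_{2i+2}`, `io b_i = s_{2i+3} s_{2i+1}` (`E.s n = D.R.s (n : ZMod _)`).

PROOFS (`ρ_i = s_{2i+1} s_0 s_{2i+1}`, `ρ_0 = s_0`, `ρ_g = s_0` because `2g+1` and `0` are neighbours).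
`exists_emb`: `homN` with `D i = s_0 s_{2i+1} s_0 s_{2i+1}`: `⁅io a_i, io b_i⁆ = ρ_i ρ_{i+1}` (`s_{2i+2}`
commutes with `s_{2i+1}`, `s_{2i+3}`), `D 0 = 1 = D g`.
`io_del`, `io_bet`: induction. `io_R0`, `io_R1`: both sides are homomorphisms in `x`, check on the
letters (`extN`), using `io_del`, `io_bet`, e.g. `s_0 io(a_i) s_0 = io(δ_i a_i⁻¹ δ_i⁻¹)`:
`io (δ_i a_i) = s_0 s_{2i+2}`, and so on.
`evn`: `io (δ_i a_i) = s_0 s_{2i+2}`. `odd`: `io_bet`.
`inj`: `exists_sig` and `D.R.cs.lift` give a homomorphism `Σ : W → Perm Γ` with `Σ (s k) = sig k`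
(liftable: for `M = 1`, `2`, `0`; `D.adj_iff`); `Σ (io x)` is left multiplication by `x` (homomorphisms
agreeing on the letters: `extN` with `MulAction.toPermHom` or `Equiv.mulLeft`), so `io x = 1`
gives `x = 1` (evaluate at `1`).
`cos01`: `{w | ∃ x, w = io x ∨ ..}` contains `1` and is closed under left multiplication by
the `s k` (the generators are involutions, `D.R.cs.submonoid_closure_range_simple` or
`CoxeterSystem.simple_induction_left`): for `k` odd `s_k = io β s_1`, for `k` even (`k ≠ 0`)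
`s_k = io(..) s_0`, and `s_0 io x = io (R0 x) s_0`, `s_1 io x = io (R1 x) s_1`. About 300 lines.
-/

namespace Pool.Agent.LDJ

open Pool.Agent.Hhelper67.Johnson
open scoped commutatorElement

/-- the surface group in the polygon group -/
structure Emb (g : ℕ) (D : RNData g) where
  hg : 2 ≤ g
  io : SurfaceGroup g →* D.R.W
  ioa : ∀ i < g, io (aN g i) = D.R.s ((2 * i + 1 : ℕ) : ZMod (2 * g + 2)) * D.R.s 0 *
    D.R.s ((2 * i + 1 : ℕ) : ZMod (2 * g + 2)) * D.R.s ((2 * i + 2 : ℕ) : ZMod (2 * g + 2))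
  iob : ∀ i < g, io (bN g i) = D.R.s ((2 * i + 3 : ℕ) : ZMod (2 * g + 2)) *
    D.R.s ((2 * i + 1 : ℕ) : ZMod (2 * g + 2))

section grp

variable {G : Type} [Group G]

theorem we_inv {x : G} (h : x * x = 1) : x⁻¹ = x := inv_eq_of_mul_eq_one_left h

theorem we_can {x : G} (h : x * x = 1) (w : G) : x * (x * w) = w := by
  rw [← mul_assoc, h, one_mul]

theorem we_swap {x z : G} (h : z * x = x * z) (w : G) : z * (x * w) = x * (z * w) := by
  rw [← mul_assoc, h, mul_assoc]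

/-- the commutator relation -/
theorem we_step {x y z t : G} (hx : x * x = 1) (hy : y * y = 1) (hz : z * z = 1) (ht : t * t = 1)
    (hxz : z * x = x * z) (hzt : z * t = t * z) :
    y * t * y * t = y * x * y * x * ⁅x * y * x * z, t * x⁆ := by
  simp only [commutatorElement_def, mul_inv_rev, we_inv hx, we_inv hy, we_inv hz, we_inv ht,
    mul_assoc, we_can hx, we_can hy, we_swap hxz, we_swap hzt, we_can hz]

end grp

theorem we_mod {g : ℕ} (D : RNData g) (n : ℕ) :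
    D.R.s ((n + (2 * g + 2) : ℕ) : ZMod (2 * g + 2)) = D.R.s ((n : ℕ) : ZMod (2 * g + 2)) := by
  congr 1
  rw [Nat.cast_add, ZMod.natCast_self, add_zero]

theorem we_adj {g : ℕ} (D : RNData g) (n : ℕ) :
    D.R.s ((n : ℕ) : ZMod (2 * g + 2)) * D.R.s ((n + 1 : ℕ) : ZMod (2 * g + 2)) =
      D.R.s ((n + 1 : ℕ) : ZMod (2 * g + 2)) * D.R.s ((n : ℕ) : ZMod (2 * g + 2)) := by
  apply D.R.s_comm
  rw [D.adj_iff]
  left
  push_cast
  rfl

theorem we_adj0 {g : ℕ} (D : RNData g) :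
    D.R.s ((2 * g + 1 : ℕ) : ZMod (2 * g + 2)) * D.R.s 0 =
      D.R.s 0 * D.R.s ((2 * g + 1 : ℕ) : ZMod (2 * g + 2)) := by
  have h := we_adj D (2 * g + 1)
  have h2 := we_mod D 0
  rw [Nat.zero_add, Nat.cast_zero] at h2
  have h3 : D.R.s ((2 * g + 1 + 1 : ℕ) : ZMod (2 * g + 2)) = D.R.s 0 := h2
  rw [h3] at h
  exact h

theorem we_adj1 {g : ℕ} (D : RNData g) :
    D.R.s ((1 : ℕ) : ZMod (2 * g + 2)) * D.R.s 0 = D.R.s 0 * D.R.s ((1 : ℕ) : ZMod (2 * g + 2)) := by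
  have h := we_adj D 0
  rw [Nat.cast_zero, Nat.zero_add] at h
  exact h.symm

theorem we_step' {g : ℕ} (D : RNData g) (i : ℕ) :
    D.R.s 0 * D.R.s ((2 * (i + 1) + 1 : ℕ) : ZMod (2 * g + 2)) * D.R.s 0 *
      D.R.s ((2 * (i + 1) + 1 : ℕ) : ZMod (2 * g + 2)) =
    D.R.s 0 * D.R.s ((2 * i + 1 : ℕ) : ZMod (2 * g + 2)) * D.R.s 0 *
      D.R.s ((2 * i + 1 : ℕ) : ZMod (2 * g + 2)) *
    ⁅D.R.s ((2 * i + 1 : ℕ) : ZMod (2 * g + 2)) * D.R.s 0 *
      D.R.s ((2 * i + 1 : ℕ) : ZMod (2 * g + 2)) * D.R.s ((2 * i + 2 : ℕ) : ZMod (2 * g + 2)),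
      D.R.s ((2 * i + 3 : ℕ) : ZMod (2 * g + 2)) *
      D.R.s ((2 * i + 1 : ℕ) : ZMod (2 * g + 2))⁆ := by
  have e : 2 * (i + 1) + 1 = 2 * i + 3 := by ring
  rw [e]
  exact we_step (D.R.s_sq _) (D.R.s_sq _) (D.R.s_sq _) (D.R.s_sq _) (we_adj D (2 * i + 1)).symm
    (we_adj D (2 * i + 2))

theorem exists_emb (g : ℕ) (hg : 2 ≤ g) (D : RNData g) : Nonempty (Emb g D) := by
  obtain ⟨φ, hφ⟩ := homN g
    (fun i => D.R.s ((2 * i + 1 : ℕ) : ZMod (2 * g + 2)) * D.R.s 0 *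
      D.R.s ((2 * i + 1 : ℕ) : ZMod (2 * g + 2)) * D.R.s ((2 * i + 2 : ℕ) : ZMod (2 * g + 2)))
    (fun i => D.R.s ((2 * i + 3 : ℕ) : ZMod (2 * g + 2)) *
      D.R.s ((2 * i + 1 : ℕ) : ZMod (2 * g + 2)))
    (fun i => D.R.s 0 * D.R.s ((2 * i + 1 : ℕ) : ZMod (2 * g + 2)) * D.R.s 0 *
      D.R.s ((2 * i + 1 : ℕ) : ZMod (2 * g + 2)))
    (by
      have h := we_adj1 D
      simp only [Nat.mul_zero, Nat.zero_add]
      rw [mul_assoc, mul_assoc, ← mul_assoc (D.R.s ((1 : ℕ) : ZMod (2 * g + 2))) (D.R.s 0), h,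
        mul_assoc, D.R.s_sq, mul_one, D.R.s_sq])
    (fun i _ => we_step' D i)
    (by
      have h := we_adj0 D
      rw [mul_assoc, mul_assoc, ← mul_assoc (D.R.s ((2 * g + 1 : ℕ) : ZMod (2 * g + 2))) (D.R.s 0),
        h, mul_assoc, D.R.s_sq, mul_one, D.R.s_sq])
  exact ⟨⟨hg, φ, fun i hi => (hφ i hi).1, fun i hi => (hφ i hi).2⟩⟩

namespace Emb

variable {g : ℕ} {D : RNData g} (E : Emb g D)

/-- the generators, indexed by natural numbers -/
noncomputable def s (_ : Emb g D) (n : ℕ) : D.R.W := D.R.s (n : ZMod (2 * g + 2))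

theorem s_mod (n : ℕ) : E.s (n + (2 * g + 2)) = E.s n := we_mod D n

theorem sq (n : ℕ) : E.s n * E.s n = 1 := D.R.s_sq _

theorem s_adj (n : ℕ) : E.s n * E.s (n + 1) = E.s (n + 1) * E.s n := we_adj D n

theorem s_zero : D.R.s (0 : ZMod (2 * g + 2)) = E.s 0 := by
  rw [s, Nat.cast_zero]

theorem ioa' {i : ℕ} (hi : i < g) :
    E.io (aN g i) = E.s (2 * i + 1) * E.s 0 * E.s (2 * i + 1) * E.s (2 * i + 2) := by
  rw [E.ioa i hi, E.s_zero]
  rfl

theorem iob' {i : ℕ} (hi : i < g) : E.io (bN g i) = E.s (2 * i + 3) * E.s (2 * i + 1) :=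
  E.iob i hi

theorem s01 : E.s 1 * E.s 0 = E.s 0 * E.s 1 := (E.s_adj 0).symm

theorem io_del {i : ℕ} (hi : i ≤ g) :
    E.io (del g i) = E.s 0 * E.s (2 * i + 1) * E.s 0 * E.s (2 * i + 1) := by
  induction i with
  | zero =>
    simp only [del, map_one, Nat.mul_zero, Nat.zero_add, mul_assoc]
    rw [← mul_assoc (E.s 1) (E.s 0), E.s01, mul_assoc, E.sq, mul_one, E.sq]
  | succ i ih =>
    have h := we_step' D i
    rw [E.s_zero] at h
    rw [del, map_mul, map_commutatorElement, ih (by omega), E.ioa' (by omega), E.iob' (by omega)]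
    exact h.symm

theorem io_bet {i : ℕ} (hi : i ≤ g) : E.io (bet g i) = E.s (2 * i + 1) * E.s 1 := by
  induction i with
  | zero =>
    simp only [bet, map_one, Nat.mul_zero, Nat.zero_add]
    rw [E.sq]
  | succ i ih =>
    rw [bet, map_mul, ih (by omega), E.iob' (by omega), mul_assoc, we_can (E.sq _)]
    rfl

theorem io_da {i : ℕ} (hi : i < g) : E.io (del g i * aN g i) = E.s 0 * E.s (2 * i + 2) := by
  rw [map_mul, E.io_del hi.le, E.ioa' hi]
  simp only [mul_assoc, we_can (E.sq _)]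

theorem io_R0 (r : Refl g) (x : SurfaceGroup g) : E.io (r.R0 x) = E.s 0 * E.io x * E.s 0 := by
  have h : E.io.comp r.R0 = (MulAut.conj (E.s 0)).toMonoidHom.comp E.io := by
    apply extN
    intro i hi
    have e1 : 2 * (i + 1) + 1 = 2 * i + 3 := by ring
    refine ⟨?_, ?_⟩
    · simp only [MonoidHom.comp_apply, MulEquiv.coe_toMonoidHom, MulAut.conj_apply,
        r.R0a i hi, map_mul, map_inv, E.io_del hi.le, E.ioa' hi, mul_inv_rev, we_inv (E.sq _),
        mul_assoc, we_can (E.sq _)]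
    · simp only [MonoidHom.comp_apply, MulEquiv.coe_toMonoidHom, MulAut.conj_apply,
        r.R0b i hi, map_mul, map_inv, E.io_del hi.le, E.io_del (Nat.succ_le_of_lt hi),
        Nat.succ_eq_add_one, e1, E.iob' hi, mul_inv_rev, we_inv (E.sq _),
        mul_assoc, we_can (E.sq _)]
  have h2 := DFunLike.congr_fun h x
  simp only [MonoidHom.comp_apply, MulEquiv.coe_toMonoidHom, MulAut.conj_apply,
    we_inv (E.sq _)] at h2
  exact h2

theorem io_R1 (r : Refl g) (x : SurfaceGroup g) : E.io (r.R1 x) = E.s 1 * E.io x * E.s 1 := by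
  have h : E.io.comp r.R1 = (MulAut.conj (E.s 1)).toMonoidHom.comp E.io := by
    apply extN
    intro i hi
    have e1 : 2 * (i + 1) + 1 = 2 * i + 3 := by ring
    have hc : E.s (2 * i + 2) * E.s (2 * i + 1) = E.s (2 * i + 1) * E.s (2 * i + 2) :=
      (E.s_adj (2 * i + 1)).symm
    refine ⟨?_, ?_⟩
    · simp only [MonoidHom.comp_apply, MulEquiv.coe_toMonoidHom, MulAut.conj_apply,
        r.R1a i hi, map_mul, map_inv, E.io_del hi.le, E.io_bet hi.le, E.ioa' hi, mul_inv_rev,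
        we_inv (E.sq _), mul_assoc, we_can (E.sq _), we_swap hc]
    · simp only [MonoidHom.comp_apply, MulEquiv.coe_toMonoidHom, MulAut.conj_apply,
        r.R1b i hi, map_mul, map_inv, E.io_bet hi.le, E.io_bet (Nat.succ_le_of_lt hi),
        Nat.succ_eq_add_one, e1, E.iob' hi, mul_inv_rev, we_inv (E.sq _),
        mul_assoc, we_can (E.sq _)]
  have h2 := DFunLike.congr_fun h x
  simp only [MonoidHom.comp_apply, MulEquiv.coe_toMonoidHom, MulAut.conj_apply,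
    we_inv (E.sq _)] at h2
  exact h2

theorem inj : Function.Injective E.io := by
  obtain ⟨sig, h1, h2, h3, h4⟩ := exists_sig g (by have := E.hg; omega)
  have hl : D.R.cox.IsLiftable sig := by
    intro i j
    rw [RA.cox_apply]
    by_cases h : i = j
    · subst h
      rw [if_pos rfl, pow_one, h1]
    · by_cases ha : D.R.adj i j
      · rw [if_neg h, if_pos ha, pow_two]
        have hc : sig i * sig j = sig j * sig i := by
          rcases (D.adj_iff i j).mp ha with h5 | h5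
          · rw [h5]
            exact h2 i
          · rw [h5]
            exact (h2 j).symm
        rw [mul_assoc, ← mul_assoc (sig j) (sig i), ← hc, mul_assoc, h1, mul_one, h1]
      · rw [if_neg h, if_neg ha, pow_zero]
  let Sg : D.R.W →* Equiv.Perm (SurfaceGroup g) := D.R.cs.lift ⟨sig, hl⟩
  have hs : ∀ k, Sg (D.R.s k) = sig k := fun k => D.R.cs.lift_apply_simple hl k
  have h : Sg.comp E.io = MulAction.toPermHom (SurfaceGroup g) (SurfaceGroup g) := by
    apply extN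
    intro i hi
    refine ⟨?_, ?_⟩
    · rw [MonoidHom.comp_apply, E.ioa i hi, map_mul, map_mul, map_mul, hs, hs, hs]
      ext x
      exact h3 i hi x
    · rw [MonoidHom.comp_apply, E.iob i hi, map_mul, hs, hs]
      ext x
      exact h4 i hi x
  intro x y hxy
  have hx : Sg (E.io x) 1 = x := by
    have h5 := DFunLike.congr_fun h x
    rw [MonoidHom.comp_apply] at h5
    rw [h5]
    exact mul_one x
  have hy : Sg (E.io y) 1 = y := by
    have h5 := DFunLike.congr_fun h y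
    rw [MonoidHom.comp_apply] at h5
    rw [h5]
    exact mul_one y
  rw [← hx, hxy, hy]

/-- every generator is in one of two cosets -/
theorem gen01 (k : ZMod (2 * g + 2)) :
    ∃ y, D.R.s k = E.io y * E.s 0 ∨ D.R.s k = E.io y * E.s 1 := by
  have : NeZero (2 * g + 2) := ⟨by omega⟩
  obtain ⟨n, hn, rfl⟩ : ∃ n : ℕ, n < 2 * g + 2 ∧ ((n : ℕ) : ZMod (2 * g + 2)) = k :=
    ⟨k.val, ZMod.val_lt k, ZMod.natCast_zmod_val k⟩
  change ∃ y, E.s n = _ ∨ E.s n = _
  rcases Nat.eq_zero_or_pos n with rfl | h0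
  · exact ⟨1, Or.inl (by rw [map_one, one_mul])⟩
  · rcases Nat.even_or_odd' n with ⟨i, rfl | rfl⟩
    · obtain ⟨i, rfl⟩ : ∃ i', i = i' + 1 := ⟨i - 1, by omega⟩
      refine ⟨(del g i * aN g i)⁻¹, Or.inl ?_⟩
      rw [map_inv, E.io_da (by omega), mul_inv_rev, we_inv (E.sq _), we_inv (E.sq _), mul_assoc,
        E.sq, mul_one]
      rfl
    · refine ⟨bet g i, Or.inr ?_⟩
      rw [E.io_bet (by omega), mul_assoc, E.sq, mul_one]

theorem cos01 (w : D.R.W) : ∃ x, w = E.io x ∨ w = E.io x * E.s 0 ∨ w = E.io x * E.s 1 ∨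
    w = E.io x * (E.s 0 * E.s 1) := by
  obtain ⟨r⟩ := exists_refl g
  have c0 : ∀ x, E.s 0 * E.io x = E.io (r.R0 x) * E.s 0 := by
    intro x
    rw [E.io_R0, mul_assoc, mul_assoc, E.sq, mul_one]
  have c1 : ∀ x, E.s 1 * E.io x = E.io (r.R1 x) * E.s 1 := by
    intro x
    rw [E.io_R1, mul_assoc, mul_assoc, E.sq, mul_one]
  have q0 : ∀ w : D.R.W, (∃ x, w = E.io x ∨ w = E.io x * E.s 0 ∨ w = E.io x * E.s 1 ∨
      w = E.io x * (E.s 0 * E.s 1)) → ∀ y, ∃ x, E.io y * E.s 0 * w = E.io x ∨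
      E.io y * E.s 0 * w = E.io x * E.s 0 ∨ E.io y * E.s 0 * w = E.io x * E.s 1 ∨
      E.io y * E.s 0 * w = E.io x * (E.s 0 * E.s 1) := by
    rintro w ⟨x, h | h | h | h⟩ y
    · refine ⟨y * r.R0 x, Or.inr (Or.inl ?_)⟩
      rw [h, mul_assoc, c0, map_mul, mul_assoc]
    · refine ⟨y * r.R0 x, Or.inl ?_⟩
      rw [h, mul_assoc, ← mul_assoc (E.s 0), c0, map_mul, mul_assoc (E.io (r.R0 x)), E.sq, mul_one]
    · refine ⟨y * r.R0 x, Or.inr (Or.inr (Or.inr ?_))⟩
      rw [h, mul_assoc, ← mul_assoc (E.s 0), c0, map_mul, mul_assoc (E.io (r.R0 x)), mul_assoc]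
    · refine ⟨y * r.R0 x, Or.inr (Or.inr (Or.inl ?_))⟩
      rw [h, mul_assoc, ← mul_assoc (E.s 0), c0, map_mul, mul_assoc (E.io (r.R0 x)),
        we_can (E.sq _), mul_assoc]
  have q1 : ∀ w : D.R.W, (∃ x, w = E.io x ∨ w = E.io x * E.s 0 ∨ w = E.io x * E.s 1 ∨
      w = E.io x * (E.s 0 * E.s 1)) → ∀ y, ∃ x, E.io y * E.s 1 * w = E.io x ∨
      E.io y * E.s 1 * w = E.io x * E.s 0 ∨ E.io y * E.s 1 * w = E.io x * E.s 1 ∨
      E.io y * E.s 1 * w = E.io x * (E.s 0 * E.s 1) := by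
    rintro w ⟨x, h | h | h | h⟩ y
    · refine ⟨y * r.R1 x, Or.inr (Or.inr (Or.inl ?_))⟩
      rw [h, mul_assoc, c1, map_mul, mul_assoc]
    · refine ⟨y * r.R1 x, Or.inr (Or.inr (Or.inr ?_))⟩
      rw [h, mul_assoc, ← mul_assoc (E.s 1), c1, map_mul, mul_assoc (E.io (r.R1 x)), E.s01,
        mul_assoc]
    · refine ⟨y * r.R1 x, Or.inl ?_⟩
      rw [h, mul_assoc, ← mul_assoc (E.s 1), c1, map_mul, mul_assoc (E.io (r.R1 x)), E.sq, mul_one]
    · refine ⟨y * r.R1 x, Or.inr (Or.inl ?_)⟩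
      rw [h, mul_assoc, ← mul_assoc (E.s 1), c1, map_mul, mul_assoc (E.io (r.R1 x)),
        we_swap E.s01, E.sq, mul_one, mul_assoc]
  induction w using D.R.cs.simple_induction_left with
  | one => exact ⟨1, Or.inl (by rw [map_one])⟩
  | mul_simple_left w k ih =>
    obtain ⟨y, hy | hy⟩ := E.gen01 k
    · have h := q0 w ih y
      rw [← hy] at h
      exact h
    · have h := q1 w ih y
      rw [← hy] at h
      exact h

end Emb

end Pool.Agent.LDJ
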