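import Pool.Agent.LDJ.WRoot

/-!
LDJ.WFund: fundamental polygon, properness, cocompactness.

PROOFS.
`uniq`: induction on `ℓ w`: if `w ≠ 1` let `k` be a left descent. `B (rep w p) (e k) ≥ 0`
(`left_desc`) and `≤ 0` (`rep w p ∈ Poly`), so `= 0`, so `s_k (rep w p) = rep w p`; `w' = s_k w` is
shorter and `rep w' p = rep w p ∈ Poly`; by induction `rep w' p = p` and
`w' ∈ closure (s '' {k | B p (e k) = 0})`; and `B p (e k) = 0`.
`move`: let `p ∈ Hyp`, `B p (e k) ≤ -S < 0` for all `k`, `w ≠ 1`. Then `B (rep w p) (e k) ≥ S` for some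
`k`: take a left descent `k`; `-(rep w⁻¹ (e k)) = Σ c_l e_l`, `c ≥ 0`, of norm 1:
`1 = Σ c_l c_m B(e_l, e_m) ≤ Σ c_l² ≤ (Σ c_l)²`, so `Σ c_l ≥ 1` and
`B (rep w p) (e k) = B p (rep w⁻¹ (e k)) = -Σ c_l B p (e_l) ≥ S`.
`proper`: the matrices of `rep w`, `-B o (rep w o) ≤ c`, have bounded entries (`gen_bound` for the
basis vectors). If infinitely many, then for every `ε` there are `w ≠ w'` among them with
`‖rep w v - rep w' v‖ ≤ ε` for the three basis vectors `v` (bounded sets of `ℝ⁹` are totally bounded),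
so `rep w p` and `rep w' p` are `ε'`-close; then, as `rep w⁻¹` is bounded, `p` and
`rep (w⁻¹ w') p` are `ε''`-close, but `B p (e k) ≤ -S`, `B (rep (w⁻¹w') p) (e k) ≥ S` for some of the
finitely many `k`: contradiction for small `ε`.
`cocpt`: `x ∈ Hyp`. `{w | -B x (rep w o) ≤ c'}` is finite for every `c'` (`proper`, `tri`), so there is
`w0` minimising `-B (rep w x) o = -B x (rep w⁻¹ o)`. For every `k`, with `y = rep w0 x`:
`-B y o ≤ -B (s_k y) o = -B y (s_k o) = -B y o + 2 B o (e k) B y (e k)`, and `B o (e k) = -(e k) 2 < 0`,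
so `B y (e k) ≤ 0`. So `y ∈ Poly`, `-B y o ≤ c` by hypothesis, `-B x (rep w0⁻¹ o) ≤ c`.
About 300 lines.
-/

set_option linter.all false

namespace Pool.Agent.LDJ

namespace RA

variable {ι : Type} [Fintype ι] (R : RA ι)


/-! ### auxiliary lemmas -/

theorem wf_B_sum (c : ι → ℝ) (v : V) :
    B (∑ k, c k • R.e k) v = ∑ k, c k * B (R.e k) v := by
  simp only [B, Finset.sum_apply, Pi.smul_apply, smul_eq_mul, Finset.sum_mul,
    ← Finset.sum_add_distrib, ← Finset.sum_sub_distrib]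
  refine Finset.sum_congr rfl fun k _ => ?_
  ring

omit [Fintype ι] in
theorem wf_rep_s (k : ι) (x : V) : R.rep (R.s k) x = x - (2 * B x (R.e k)) • R.e k := by
  rw [R.rep_s, refl_apply]

omit [Fintype ι] in
theorem wf_rep_mul (v w : R.W) (x : V) : R.rep (v * w) x = R.rep v (R.rep w x) := by
  rw [map_mul]
  rfl

omit [Fintype ι] in
theorem wf_rep_one (x : V) : R.rep 1 x = x := by
  rw [map_one]
  rfl

omit [Fintype ι] in
/-- moving an element across `B` -/
theorem wf_move (w : R.W) (x y : V) : B (R.rep w x) y = B x (R.rep w⁻¹ y) := by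
  have h1 := R.rep_pres w x (R.rep w⁻¹ y)
  rw [← wf_rep_mul, mul_inv_cancel, wf_rep_one] at h1
  exact h1

omit [Fintype ι] in
theorem wf_e_le {k l : ι} (h : k ≠ l) : B (R.e k) (R.e l) ≤ 0 := by
  by_cases ha : R.adj k l
  · rw [R.orth k l ha]
  · have := R.far k l h ha
    linarith

theorem wf_coeff {c : ι → ℝ} (hc : ∀ k, 0 ≤ c k)
    (h1 : B (∑ k, c k • R.e k) (∑ k, c k • R.e k) = 1) : 1 ≤ ∑ k, c k := by
  classical
  set C := ∑ k, c k with hC
  have hC0 : 0 ≤ C := Finset.sum_nonneg fun k _ => hc k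
  rw [wf_B_sum] at h1
  have h2 : ∀ k, B (R.e k) (∑ l, c l • R.e l) ≤ c k := by
    intro k
    rw [B_comm, wf_B_sum]
    calc ∑ l, c l * B (R.e l) (R.e k) ≤ ∑ l, (if l = k then c k else 0) := by
          apply Finset.sum_le_sum
          intro l _
          by_cases h : l = k
          · rw [h, R.one, if_pos rfl, mul_one]
          · rw [if_neg h]
            exact mul_nonpos_of_nonneg_of_nonpos (hc l) (R.wf_e_le h)
      _ = c k := by rw [Finset.sum_ite_eq' Finset.univ k]; simp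
  have h3 : ∀ k, c k ≤ C := fun k => Finset.single_le_sum (fun l _ => hc l) (Finset.mem_univ k)
  have h4 : (1 : ℝ) ≤ C * C := by
    rw [← h1]
    calc ∑ k, c k * B (R.e k) (∑ l, c l • R.e l) ≤ ∑ k, c k * C := by
          apply Finset.sum_le_sum
          intro k _
          exact mul_le_mul_of_nonneg_left ((h2 k).trans (h3 k)) (hc k)
      _ = C * C := by rw [← Finset.sum_mul]
  nlinarith

theorem uniq {w : R.W} {p : V} (hp : p ∈ R.Poly) (hw : R.rep w p ∈ R.Poly) :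
    R.rep w p = p ∧ w ∈ Subgroup.closure (R.s '' {k | B p (R.e k) = 0}) := by
  obtain ⟨n, hn⟩ : ∃ n, R.cs.length w = n := ⟨_, rfl⟩
  induction n using Nat.strong_induction_on generalizing w with
  | _ n ih =>
    by_cases h1 : w = 1
    · subst h1
      exact ⟨R.wf_rep_one p, Subgroup.one_mem _⟩
    · obtain ⟨k, hk⟩ := R.cs.exists_leftDescent_of_ne_one h1
      have h2 := R.left_desc hk hp.2
      have h3 : B (R.rep w p) (R.e k) = 0 := le_antisymm (hw.2 k) h2
      have h4 : R.rep (R.s k * w) p = R.rep w p := by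
        rw [wf_rep_mul, wf_rep_s, h3, mul_zero, zero_smul, sub_zero]
      have hk' : R.cs.length (R.s k * w) < R.cs.length w := hk
      obtain ⟨h5, h6⟩ := ih (R.cs.length (R.s k * w)) (by rw [← hn]; exact hk')
        (w := R.s k * w) (by rw [h4]; exact hw) rfl
      rw [h4] at h5
      refine ⟨h5, ?_⟩
      rw [h5] at h3
      have h7 : w = R.s k * (R.s k * w) := by
        rw [← mul_assoc, R.s_sq, one_mul]
      rw [h7]
      exact Subgroup.mul_mem _ (Subgroup.subset_closure ⟨k, h3, rfl⟩) h6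

theorem move {p : V} (hp : p ∈ Hyp) {S : ℝ} (hS : 0 < S) (h : ∀ k, B p (R.e k) ≤ -S) {w : R.W}
    (hw : w ≠ 1) : ∃ k, S ≤ B (R.rep w p) (R.e k) := by
  obtain ⟨k, hk⟩ := R.cs.exists_leftDescent_of_ne_one hw
  have h1 := R.root_neg w⁻¹ k (R.cs.isRightDescent_inv_iff.mpr hk)
  obtain ⟨c, hc, hsum⟩ := h1
  have h2 : B (∑ l, c l • R.e l) (∑ l, c l • R.e l) = 1 := by
    rw [← hsum]
    have h3 := R.rep_pres w⁻¹ (R.e k) (R.e k)
    rw [R.one] at h3
    rw [← h3]
    simp only [B, Pi.neg_apply]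
    ring
  have h4 := R.wf_coeff hc h2
  refine ⟨k, ?_⟩
  rw [wf_move]
  have h5 : R.rep w⁻¹ (R.e k) = -(∑ l, c l • R.e l) := by rw [← hsum, neg_neg]
  rw [h5]
  have h6 : B p (-(∑ l, c l • R.e l)) = ∑ l, c l * (-B p (R.e l)) := by
    have h7 : B p (-(∑ l, c l • R.e l)) = -B (∑ l, c l • R.e l) p := by
      simp only [B, Pi.neg_apply]
      ring
    rw [h7, wf_B_sum, ← Finset.sum_neg_distrib]
    refine Finset.sum_congr rfl fun l _ => ?_
    rw [B_comm p]
    ring
  rw [h6]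
  calc S ≤ (∑ l, c l) * S := by nlinarith
    _ = ∑ l, c l * S := by rw [Finset.sum_mul]
    _ ≤ ∑ l, c l * (-B p (R.e l)) := by
        apply Finset.sum_le_sum
        intro l _
        exact mul_le_mul_of_nonneg_left (by linarith [h l]) (hc l)

/-- the points `rep w p` are uniformly separated -/
theorem wf_sep {p : V} (hp : p ∈ Hyp) {S : ℝ} (hS : 0 < S) (h : ∀ k, B p (R.e k) ≤ -S)
    {v w : R.W} (hvw : v ≠ w) : 1 + 2 * S ^ 2 ≤ -B (R.rep v p) (R.rep w p) := by
  have h1 : v⁻¹ * w ≠ 1 := by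
    intro h2
    exact hvw (inv_mul_eq_one.mp h2)
  obtain ⟨k, hk⟩ := R.move hp hS h h1
  have h2 := opp (R.rep_fut (v⁻¹ * w) hp) hp (R.one k) (by linarith) (by linarith [h k])
  have h3 : B (R.rep (v⁻¹ * w) p) p = B (R.rep v p) (R.rep w p) := by
    rw [B_comm, wf_move R v, ← wf_rep_mul]
  rw [h3] at h2
  set a := B (R.rep (v⁻¹ * w) p) (R.e k) with ha
  set b := B p (R.e k) with hb
  have hbS : b ≤ -S := h k
  have h4 : S ^ 2 ≤ -(a * b) := by nlinarith
  have h5 : Real.sqrt (1 + S ^ 2) ≤ Real.sqrt (1 + a ^ 2) := Real.sqrt_le_sqrt (by nlinarith)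
  have h6 : Real.sqrt (1 + S ^ 2) ≤ Real.sqrt (1 + b ^ 2) := Real.sqrt_le_sqrt (by nlinarith)
  have h7 : Real.sqrt (1 + S ^ 2) * Real.sqrt (1 + S ^ 2) = 1 + S ^ 2 :=
    Real.mul_self_sqrt (by positivity)
  have h8 : 1 + S ^ 2 ≤ Real.sqrt (1 + a ^ 2) * Real.sqrt (1 + b ^ 2) := by
    rw [← h7]
    exact mul_le_mul h5 h6 (Real.sqrt_nonneg _) (Real.sqrt_nonneg _)
  linarith

theorem wf_near {x y : V} (hx : x ∈ Hyp) (hy : y ∈ Hyp) {S : ℝ} (hS : 0 < S)
    (h : dist x y < S) : -B x y < 1 + 2 * S ^ 2 := by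
  have h0 : |x 0 - y 0| < S := by
    rw [← Real.dist_eq]
    exact (dist_le_pi_dist x y 0).trans_lt h
  have h1 : |x 1 - y 1| < S := by
    rw [← Real.dist_eq]
    exact (dist_le_pi_dist x y 1).trans_lt h
  have h2 := hx.1
  have h3 := hy.1
  simp only [B] at h2 h3 ⊢
  have h4 : (x 0 - y 0) ^ 2 < S ^ 2 := sq_lt_sq' (by linarith [(abs_lt.mp h0).1])
    (abs_lt.mp h0).2
  have h5 : (x 1 - y 1) ^ 2 < S ^ 2 := sq_lt_sq' (by linarith [(abs_lt.mp h1).1])
    (abs_lt.mp h1).2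
  nlinarith [sq_nonneg (x 2 - y 2)]

theorem wf_coord {x : V} (hx : x ∈ Hyp) (i : Fin 3) : |x i| ≤ -B o x := by
  have h1 : -B o x = x 2 := by simp [B, o]
  rw [h1]
  have h2 := hx.1
  have h3 := hx.2
  simp only [B] at h2
  apply abs_le_of_sq_le_sq _ h3.le
  fin_cases i
  · show x 0 ^ 2 ≤ x 2 ^ 2
    nlinarith [mul_self_nonneg (x 1)]
  · show x 1 ^ 2 ≤ x 2 ^ 2
    nlinarith [mul_self_nonneg (x 0)]
  · exact le_rfl

theorem proper {p : V} (hp : p ∈ Hyp) {S : ℝ} (hS : 0 < S) (h : ∀ k, B p (R.e k) ≤ -S) (c : ℝ) :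
    {w : R.W | -B o (R.rep w o) ≤ c}.Finite := by
  set C : ℝ := 2 * c * (-B o p) with hC
  obtain ⟨t, -, htf, htc⟩ := (isCompact_closedBall (0 : V) C).finite_cover_balls
    (half_pos hS)
  have h1 : ∀ w ∈ {w : R.W | -B o (R.rep w o) ≤ c}, ∃ y ∈ t, dist (R.rep w p) y < S / 2 := by
    intro w hw
    have h2 : -B o (R.rep w p) ≤ C := by
      have h3 := tri o_mem (R.rep_fut w o_mem) (R.rep_fut w hp)
      rw [R.rep_pres] at h3
      have h4 := one_le o_mem hp
      have h5 : -B o (R.rep w o) ≤ c := hw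
      calc -B o (R.rep w p) ≤ 2 * (-B o (R.rep w o)) * (-B o p) := h3
        _ ≤ 2 * c * (-B o p) := by
            apply mul_le_mul_of_nonneg_right _ (by linarith)
            linarith
    have h3 : R.rep w p ∈ Metric.closedBall (0 : V) C := by
      rw [Metric.mem_closedBall, dist_zero_right]
      have h4 := one_le o_mem (R.rep_fut w hp)
      rw [pi_norm_le_iff_of_nonneg (by linarith)]
      intro i
      rw [Real.norm_eq_abs]
      exact (wf_coord (R.rep_fut w hp) i).trans h2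
    obtain ⟨y, hy, hy2⟩ := Set.mem_iUnion₂.mp (htc h3)
    exact ⟨y, hy, hy2⟩
  choose! f hf hf2 using h1
  refine Set.Finite.of_injOn (f := f) (t := t) hf ?_ htf
  intro v hv w hw hvw
  by_contra hne
  have h2 := R.wf_sep hp hS h hne
  have h3 : dist (R.rep v p) (R.rep w p) < S := by
    have h4 := dist_triangle_right (R.rep v p) (R.rep w p) (f v)
    have h5 := hf2 v hv
    have h6 := hf2 w hw
    rw [← hvw] at h6
    linarith
  have h4 := wf_near (R.rep_fut v hp) (R.rep_fut w hp) hS h3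
  linarith

theorem cocpt (hpos : ∀ k, 0 < R.e k 2) {S : ℝ} (hS : 0 < S) (h : ∀ k, B o (R.e k) ≤ -S)
    {c : ℝ} (hc : ∀ x ∈ R.Poly, -B x o ≤ c) :
    ∀ x ∈ Hyp, ∃ w : R.W, -B x (R.rep w o) ≤ c := by
  intro x hx
  have h1 : {w : R.W | -B x (R.rep w o) ≤ -B x o}.Finite := by
    refine (R.proper o_mem hS h (2 * (-B o x) * (-B x o))).subset ?_
    intro w hw
    have h2 := tri o_mem hx (R.rep_fut w o_mem)
    have h3 : -B x (R.rep w o) ≤ -B x o := hw
    have h4 := one_le o_mem hx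
    show -B o (R.rep w o) ≤ _
    calc -B o (R.rep w o) ≤ 2 * (-B o x) * (-B x (R.rep w o)) := h2
      _ ≤ _ := mul_le_mul_of_nonneg_left h3 (by linarith)
  have h2 : {w : R.W | -B x (R.rep w o) ≤ -B x o}.Nonempty := by
    refine ⟨1, ?_⟩
    show -B x (R.rep 1 o) ≤ -B x o
    rw [wf_rep_one]
  obtain ⟨w, hw, hmin⟩ := Set.exists_min_image _ (fun w : R.W => -B x (R.rep w o)) h1 h2
  have hmin2 : ∀ v : R.W, -B x (R.rep w o) ≤ -B x (R.rep v o) := by
    intro v
    by_cases hv : -B x (R.rep v o) ≤ -B x o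
    · exact hmin v hv
    · have h3 : -B x (R.rep w o) ≤ -B x o := hw
      linarith
  refine ⟨w, ?_⟩
  have h3 : B (R.rep w⁻¹ x) o = B x (R.rep w o) := by
    rw [wf_move, inv_inv]
  have h4 : R.rep w⁻¹ x ∈ R.Poly := by
    refine ⟨R.rep_fut _ hx, fun k => ?_⟩
    have h5 := hmin2 (w * R.s k)
    rw [wf_rep_mul] at h5
    have h6 : B x (R.rep w (R.rep (R.s k) o)) = B (R.rep w⁻¹ x) (R.rep (R.s k) o) := by
      rw [wf_move R w⁻¹, inv_inv]
    rw [h6, ← h3, wf_rep_s] at h5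
    have h7 : B (R.rep w⁻¹ x) (o - (2 * B o (R.e k)) • R.e k) =
        B (R.rep w⁻¹ x) o - 2 * B o (R.e k) * B (R.rep w⁻¹ x) (R.e k) := by
      simp only [B, Pi.sub_apply, Pi.smul_apply, smul_eq_mul]
      ring
    rw [h7] at h5
    have h8 := h k
    by_contra h9
    push Not at h9
    nlinarith
  rw [← h3]
  exact hc _ h4

end RA

end Pool.Agent.LDJ
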