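import Pool.Agent.LDJ.WSplit

/-!
LDJ.WLink: the axes of `c = rt 0 c` and of `m_1 = rt 1 c` cross.

PROOF. `rt 0 c = c` (`rt_zero`), `E.io m_1 = (s_1 s_4)²` (`rt_c`, `1 + 3 = 4`). `att_pair` for `m_1`
(`a = 1`, `b = 4`) and `m_1⁻¹` (`a = 4`, `b = 1`): `att m_1 = t (e_1 + μ e_4)`, `att m_1⁻¹ = t' (e_4 + μ' e_1)`,
`t, t' > 0`, `μ, μ' ∈ (0,1)` roots of `1 + 2 μ b + μ² = 0`, `b = B (e 1) (e 4) < -1` (`D.far'`; `1`, `4` are
different and not neighbours modulo `2g+2 ≥ 6`), so `μ = μ'` (the product of the two roots is 1).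
With `x = B n (e 1)`, `y = B n (e 4)`:
`B (att m_1) n * B (att m_1⁻¹) n = t t' (x + μ y)(y + μ x) = t t' μ (x² - 2 b x y + y²) < 0` (`D.cross`).
`Cir.sep_iff_nor` for `att c`, `att c⁻¹`, `D.n` (`orth`, `rep_dih`). About 80 lines.
-/

namespace Pool.Agent.LDJ

open Pool.Agent.Hhelper67.Johnson
open scoped commutatorElement

/-- the computation of the header -/
theorem wl_calc {n u v e f : V} {t t' μ μ' b : ℝ} (_hb : B e f = b) (ht : 0 < t) (ht' : 0 < t')
    (h0 : 0 < μ) (h1 : μ < 1) (h0' : 0 < μ') (h1' : μ' < 1) (hμ : 1 + 2 * μ * b + μ ^ 2 = 0)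
    (hμ' : 1 + 2 * μ' * b + μ' ^ 2 = 0) (hu : u = t • (e + μ • f)) (hv : v = t' • (f + μ' • e))
    (hc : B n e ^ 2 - 2 * b * B n e * B n f + B n f ^ 2 < 0) : B u n * B v n < 0 := by
  have heq : μ = μ' := by
    have h2 : (μ - μ') * (2 * b + μ + μ') = 0 := by linear_combination hμ - hμ'
    rcases mul_eq_zero.1 h2 with h | h
    · linarith
    · exfalso
      have h3 : μ * μ' = 1 := by linear_combination μ * h - hμ
      nlinarith
  subst heq
  have e1 : B u n = t * (B n e + μ * B n f) := by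
    rw [hu]
    simp only [B, Pi.smul_apply, Pi.add_apply, smul_eq_mul]
    ring
  have e2 : B v n = t' * (B n f + μ * B n e) := by
    rw [hv]
    simp only [B, Pi.smul_apply, Pi.add_apply, smul_eq_mul]
    ring
  have e3 : B u n * B v n = t * t' * μ *
      (B n e ^ 2 - 2 * b * B n e * B n f + B n f ^ 2) := by
    rw [e1, e2]
    linear_combination (t * t' * B n e * B n f) * hμ
  rw [e3]
  exact mul_neg_of_pos_of_neg (by positivity) hc

namespace Emb

variable {g : ℕ} {D : RNData g} (E : Emb g D)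

theorem wl_far (hg : 2 ≤ g) : B (D.R.e 1) (D.R.e 4) < -1 := by
  refine D.far' 1 4 ?_ ?_
  · have := wp_cast_ne hg (a := 1) (b := 4) (by norm_num) (by norm_num) (by norm_num)
    simpa using this
  · rw [D.adj_iff]
    rintro (h | h)
    · have := wp_cast_ne hg (a := 4) (b := 2) (by norm_num) (by norm_num) (by norm_num)
      apply this
      push_cast
      rw [h]
      norm_num
    · have := wp_cast_ne hg (a := 1) (b := 5) (by norm_num) (by norm_num) (by norm_num)
      apply this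
      push_cast
      rw [h]
      norm_num

theorem link01 : E.F.circ.link (E.rt 0 (del g 1)) (E.rt 1 (del g 1)) := by
  rw [E.rt_zero]
  have hc := E.c_ne
  have hrep : D.R.rep (E.io (del g 1)) D.n = D.n := by
    apply rep_dih
    rw [E.wp_c]
    have h0 : D.R.s 0 ∈ Subgroup.closure (D.R.s '' {0, 3}) :=
      Subgroup.subset_closure ⟨0, by simp, rfl⟩
    have h3 : D.R.s 3 ∈ Subgroup.closure (D.R.s '' {0, 3}) :=
      Subgroup.subset_closure ⟨3, by simp, rfl⟩
    exact mul_mem (mul_mem (mul_mem h0 h3) h0) h3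
  obtain ⟨ho1, ho2⟩ := E.orth hc hrep
  have hm : E.rt 1 (del g 1) ≠ 1 := by
    intro h
    exact hc ((E.rt 1).injective (h.trans (map_one _).symm))
  have h4 : (1 + 3 : ZMod (2 * g + 2)) = 4 := by norm_num
  have hio := E.rt_c 1
  rw [h4] at hio
  have hio' : E.io (E.rt 1 (del g 1))⁻¹ = D.R.s 4 * D.R.s 1 * (D.R.s 4 * D.R.s 1) := by
    rw [map_inv, hio]
    simp only [mul_inv_rev, wp_inv]
  have hfar := wl_far (D := D) E.hg
  have hfar' : B (D.R.e 4) (D.R.e 1) < -1 := by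
    rw [B_comm]
    exact hfar
  obtain ⟨t, μ, ht, h0, h1, hμ, hu⟩ := E.att_pair hm hio hfar
  obtain ⟨t', μ', ht', h0', h1', hμ', hv⟩ := E.att_pair (inv_ne_one.2 hm) hio' hfar'
  rw [B_comm (D.R.e 4) (D.R.e 1)] at hμ'
  have hneg := wl_calc (n := D.n) rfl ht ht' h0 h1 h0' h1' hμ hμ' hu hv D.cross
  exact (Cir.sep_iff_nor (E.F.att_ne hc).symm D.hn ho1 ho2).2 hneg

end Emb

end Pool.Agent.LDJ
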