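import Pool.Agent.LDJ.WSide
import Pool.Agent.Hhelper67.Johnson.Free

/-!
LDJ.WTw: the twist about `δ_1 = ⁅a_0, b_0⁆` (the automorphism `cA` of the library).
-/

namespace Pool.Agent.LDJ

open Pool.Agent.Hhelper67.Johnson
open scoped commutatorElement

theorem tw_aN0 (n : ℕ) : aN (n + 2) 0 = a0 n := by
  rw [aN, dif_pos (by omega : 0 < n + 2)]
  rfl

theorem tw_bN0 (n : ℕ) : bN (n + 2) 0 = b0 n := by
  rw [bN, dif_pos (by omega : 0 < n + 2)]
  rfl

theorem tw_del (n : ℕ) : del (n + 2) 1 = cE n := by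
  change del (n + 2) 0 * ⁅aN (n + 2) 0, bN (n + 2) 0⁆ = cE n
  rw [tw_aN0, tw_bN0]
  change 1 * ⁅a0 n, b0 n⁆ = cE n
  rw [one_mul]
  rfl

theorem tw_cA_apply (n : ℕ) (x : SurfaceGroup (n + 2)) : cA n x = cEnd n 1 x := rfl

theorem tw_cA_a0 (n : ℕ) : cA n (a0 n) = cE n * a0 n * (cE n)⁻¹ := by
  rw [tw_cA_apply, cEnd, endo_a0, zpow_one]

theorem tw_cA_b0 (n : ℕ) : cA n (b0 n) = cE n * b0 n * (cE n)⁻¹ := by
  rw [tw_cA_apply, cEnd, endo_b0, zpow_one]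

theorem tw_fix_aN (n : ℕ) {i : ℕ} (h1 : 1 ≤ i) (h2 : i < n + 2) :
    cA n (aN (n + 2) i) = aN (n + 2) i := by
  rw [aN, dif_pos h2]
  obtain ⟨i, rfl⟩ : ∃ j, i = j + 1 := ⟨i - 1, by omega⟩
  rcases i with _ | i
  · have h3 : (PresentedGroup.of ((⟨0 + 1, h2⟩ : Fin (n + 2)), false) :
        PresentedGroup {relator (n + 2)}) = a1 n := rfl
    rw [h3, tw_cA_apply, cEnd, endo_a1]
  · have h3 : (PresentedGroup.of ((⟨i + 1 + 1, h2⟩ : Fin (n + 2)), false) :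
        PresentedGroup {relator (n + 2)}) = rest n ⟨i, by omega⟩ false := rfl
    rw [h3, tw_cA_apply, cEnd, endo_r]

theorem tw_fix_bN (n : ℕ) {i : ℕ} (h1 : 1 ≤ i) (h2 : i < n + 2) :
    cA n (bN (n + 2) i) = bN (n + 2) i := by
  rw [bN, dif_pos h2]
  obtain ⟨i, rfl⟩ : ∃ j, i = j + 1 := ⟨i - 1, by omega⟩
  rcases i with _ | i
  · have h3 : (PresentedGroup.of ((⟨0 + 1, h2⟩ : Fin (n + 2)), true) :
        PresentedGroup {relator (n + 2)}) = b1 n := rfl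
    rw [h3, tw_cA_apply, cEnd, endo_b1]
  · have h3 : (PresentedGroup.of ((⟨i + 1 + 1, h2⟩ : Fin (n + 2)), true) :
        PresentedGroup {relator (n + 2)}) = rest n ⟨i, by omega⟩ true := rfl
    rw [h3, tw_cA_apply, cEnd, endo_r]

theorem exists_T (g : ℕ) (hg : 2 ≤ g) : ∃ T : MulAut (SurfaceGroup g), T ∈ torA g ∧
    (∀ a ∈ Subgroup.closure {aN g 0, bN g 0}, T a = del g 1 * a * (del g 1)⁻¹) ∧
    ∀ b ∈ Subgroup.closure {x | ∃ i, 1 ≤ i ∧ i < g ∧ (x = aN g i ∨ x = bN g i)}, T b = b := by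
  obtain ⟨n, rfl⟩ : ∃ n, g = n + 2 := ⟨g - 2, by omega⟩
  refine ⟨cA n, cA_mem, ?_, ?_⟩
  · intro a ha
    rw [tw_del]
    induction ha using Subgroup.closure_induction with
    | mem x hx =>
      rcases hx with rfl | hx
      · rw [tw_aN0, tw_cA_a0]
      · rw [Set.mem_singleton_iff] at hx
        rw [hx, tw_bN0, tw_cA_b0]
    | one => simp
    | mul x y _ _ hx hy =>
      rw [map_mul, hx, hy]
      group
    | inv x _ hx =>
      rw [map_inv, hx]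
      group
  · intro b hb
    induction hb using Subgroup.closure_induction with
    | mem x hx =>
      obtain ⟨i, h1, h2, rfl | rfl⟩ := hx
      · exact tw_fix_aN n h1 h2
      · exact tw_fix_bN n h1 h2
    | one => rw [map_one]
    | mul x y _ _ hx hy => rw [map_mul, hx, hy]
    | inv x _ hx => rw [map_inv, hx]

/-- the twist, with the sides of `LDJ.WSide` -/
theorem exists_T' (g : ℕ) (hg : 2 ≤ g) : ∃ T : MulAut (SurfaceGroup g), T ∈ torA g ∧
    (∀ a ∈ A0 g, T a = del g 1 * a * (del g 1)⁻¹) ∧ ∀ b ∈ B0 g, T b = b :=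
  exists_T g hg

end Pool.Agent.LDJ
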