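import Pool.Agent.LDJ.FNC5
import Pool.Agent.LDJ.WCov
import Pool.Agent.LDJ.WLink
import Pool.Agent.LDJ.WConnE
import Pool.Agent.LDJ.WTw
import Pool.Agent.Hhelper67.Johnson.Main

/-!
LDJ.WModel: the model of the surface group.
-/

namespace Pool.Agent.LDJ

open Pool.Agent.Hhelper67.Johnson
open scoped commutatorElement

theorem exists_model (g : ℕ) (hg : 2 ≤ g) :
    ∃ (ι : Type) (_ : Fintype ι) (M : Model (SurfaceGroup g) ι), M.T ∈ torA g := by
  obtain ⟨D⟩ := exists_RNData g hg
  obtain ⟨E⟩ := exists_emb g hg D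
  obtain ⟨T, hT, hA, hB⟩ := exists_T' g hg
  obtain ⟨ν, hν⟩ := E.F.nc E.split
  refine ⟨ZMod (2 * g + 2), inferInstance, ?_, ?_⟩
  · exact
    { Q := E.F.circ
      c := del g 1
      A := A0 g
      B := B0 g
      σ := E.sg
      split := E.split
      T := T
      TA := hA
      TB := hB
      covA := E.covA
      covB := E.covB
      rt := E.rt
      i0 := 0
      i1 := 1
      link01 := E.link01
      conn := E.conn E.F.circ E.link01
      connM := E.connM E.F.circ E.link01
      nu := ν
      nc := hν }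
  · exact hT

end Pool.Agent.LDJ
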