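import Pool.Agent.LDJ.WPar

/-!
LDJ.WSide: the two sides `A0 = ⟨a_0, b_0⟩`, `B0 = ⟨a_i, b_i, i ≥ 1⟩` of `c = del g 1 = ⁅a_0, b_0⁆`.

PROOFS. (`E.s n` as in WEmb, `δ_i = del g i`, `β_i = bet g i`.)
`c_A`: clear. `c_B`: `δ_g = 1` gives `c⁻¹ = ⁅a_1,b_1⁆ ⋯ ⁅a_{g-1},b_{g-1}⁆`: prove `c⁻¹ * δ_i ∈ B0` for
`1 ≤ i ≤ g` by induction. So `δ_i ∈ B0` for `1 ≤ i ≤ g`. `gen_AB`: `closureN`.
`mem_A`: `E.io a_0 = s_1 s_0 s_1 s_2 = s_0 s_2`, `E.io b_0 = s_3 s_1`. `mem_B`: indices `2i+1, 2i+2, 2i+3,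
0` with `1 ≤ i < g` avoid `1, 2` modulo `2g+2`.
`R_A`: `R_0 a_0 = a_0⁻¹`, `R_0 b_0 = c b_0` (`s_0 s_3 s_1 s_0 = (s_0s_3)² s_3s_1`), `R_3 a_0 = c⁻¹ a_0`,
`R_3 b_0 = b_0⁻¹` (`E.inj`), and `closure_induction`.
`R_B`: `E.R 0 = R0` of any `Refl` (`io_R0`, `exists_refl`): `R0 a_i = δ_i a_i⁻¹ δ_i⁻¹`,
`R0 b_i = δ_{i+1} b_i δ_i⁻¹` (`i ≥ 1`). `E.R 3 x = b_0 R1(x) b_0⁻¹` (`s_3 = io(b_0) s_1`), and with
`β'_i = β_i b_0⁻¹ = b_{i-1} ⋯ b_1 ∈ B0` (`i ≥ 1`, by induction): `E.R 3 a_i = β'_i⁻¹ δ_i a_i β'_i`,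
`E.R 3 b_i = β'_{i+1}⁻¹ β'_i`.
`elt_A1`: `a_0`. `elt_A2`: `b_0⁻¹`. `elt_B`: `k.val = m`, `4 ≤ m ≤ 2g+1`. `m` even, `m = 2i+2`,
`1 ≤ i < g`: `s_{2i+1} s_{2i+3} = io (b_i⁻¹)`. `m` odd, `m = 2i+3`, `1 ≤ i < g`: `io (δ_i a_i) = s_0 s_{2i+2}`
(`io_da`), so `s_{2i+2} s_{2i+4} = io ((δ_i a_i)⁻¹ δ_{i+1} a_{i+1})` for `i + 1 < g`, and for
`i = g-1`: `s_{2g} s_{2g+2} = s_{2g} s_0 = io ((δ_i a_i)⁻¹)`.
`dih`: every element of the closure of `{s_0, s_3}` is `(s_0s_3)^n` or `(s_0s_3)^n s_0`, `n : ℤ`;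
`chi` trivial (`chi_io`) gives the first with `n = 2m`: `io x = (io c)^m` (`rt_c`, `rt_zero`),
`E.inj`. About 250 lines.
-/

namespace Pool.Agent.LDJ

open Pool.Agent.Hhelper67.Johnson
open scoped commutatorElement

/-- the first side -/
def A0 (g : ℕ) : Subgroup (SurfaceGroup g) := Subgroup.closure {aN g 0, bN g 0}

/-- the second side -/
def B0 (g : ℕ) : Subgroup (SurfaceGroup g) :=
  Subgroup.closure {x | ∃ i, 1 ≤ i ∧ i < g ∧ (x = aN g i ∨ x = bN g i)}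

namespace Emb

variable {g : ℕ} {D : RNData g} (E : Emb g D)

include E

theorem ws_cast_ne {n m : ℕ} (hn : n < 2 * g + 2) (hm : m < 2 * g + 2) (h : n ≠ m) :
    ((n : ℕ) : ZMod (2 * g + 2)) ≠ ((m : ℕ) : ZMod (2 * g + 2)) := by
  intro h1
  rw [ZMod.natCast_eq_natCast_iff', Nat.mod_eq_of_lt hn, Nat.mod_eq_of_lt hm] at h1
  exact h h1

theorem ws_s (n : ℕ) : E.s n = D.R.s (n : ZMod (2 * g + 2)) := rfl

theorem ws_s0 : E.s 0 = D.R.s 0 := by rw [ws_s, Nat.cast_zero]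

theorem ws_s3 : E.s 3 = D.R.s 3 := by rw [ws_s, Nat.cast_ofNat]

theorem ws_sq' (n : ℕ) (x : D.R.W) : E.s n * (E.s n * x) = x := by
  rw [← mul_assoc, E.sq, one_mul]

theorem ws_inv (n : ℕ) : (E.s n)⁻¹ = E.s n := inv_eq_of_mul_eq_one_left (E.sq n)

theorem ws_a0 : E.io (aN g 0) = E.s 0 * E.s 2 := by
  have h := E.ioa 0 (by have := E.hg; omega)
  have h2 : E.io (aN g 0) = E.s 1 * E.s 0 * E.s 1 * E.s 2 := by
    rw [h, ws_s0]
    rfl
  have h3 := E.s_adj 0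
  rw [h2, ← h3, mul_assoc (E.s 0), E.sq, mul_one]

theorem ws_b0 : E.io (bN g 0) = E.s 3 * E.s 1 := E.iob 0 (by have := E.hg; omega)

theorem ws_c : E.io (del g 1) = E.s 0 * E.s 3 * E.s 0 * E.s 3 :=
  E.io_del (i := 1) (by have := E.hg; omega)

theorem ws_R0 (x : SurfaceGroup g) : E.io (E.R 0 x) = E.s 0 * E.io x * E.s 0 := by
  rw [E.io_R, ws_s0]

theorem ws_R3 (x : SurfaceGroup g) : E.io (E.R 3 x) = E.s 3 * E.io x * E.s 3 := by
  rw [E.io_R, ws_s3]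

omit E in
theorem ws_aB {i : ℕ} (h1 : 1 ≤ i) (h2 : i < g) : aN g i ∈ B0 g :=
  Subgroup.subset_closure ⟨i, h1, h2, Or.inl rfl⟩

omit E in
theorem ws_bB {i : ℕ} (h1 : 1 ≤ i) (h2 : i < g) : bN g i ∈ B0 g :=
  Subgroup.subset_closure ⟨i, h1, h2, Or.inr rfl⟩

omit E in
theorem ws_a0A : aN g 0 ∈ A0 g := Subgroup.subset_closure (Set.mem_insert _ _)

omit E in
theorem ws_b0A : bN g 0 ∈ A0 g :=
  Subgroup.subset_closure (Set.mem_insert_of_mem _ rfl)

omit E in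
theorem ws_comm_mem {G : Type} [Group G] {H : Subgroup G} {a b : G} (ha : a ∈ H) (hb : b ∈ H) :
    ⁅a, b⁆ ∈ H := by
  rw [commutatorElement_def]
  exact H.mul_mem (H.mul_mem (H.mul_mem ha hb) (H.inv_mem ha)) (H.inv_mem hb)

omit E in
theorem ws_ind (i : ℕ) (hi : i + 1 ≤ g) : (del g 1)⁻¹ * del g (i + 1) ∈ B0 g := by
  induction i with
  | zero => rw [Nat.zero_add, inv_mul_cancel]; exact (B0 g).one_mem
  | succ i ih =>
    have h1 : del g (i + 1 + 1) = del g (i + 1) * ⁅aN g (i + 1), bN g (i + 1)⁆ := rfl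
    rw [h1, ← mul_assoc]
    exact (B0 g).mul_mem (ih (by omega)) (ws_comm_mem (ws_aB (by omega) (by omega))
      (ws_bB (by omega) (by omega)))

theorem ws_del {i : ℕ} (h1 : 1 ≤ i) (h2 : i ≤ g) : del g i ∈ B0 g := by
  have hg := E.hg
  have h3 : (del g 1)⁻¹ ∈ B0 g := by
    have h4 := ws_ind (g := g) (g - 1) (by omega)
    have h5 : g - 1 + 1 = g := by omega
    rw [h5, del_g, mul_one] at h4
    exact h4
  have h4 := ws_ind (g := g) (i - 1) (by omega)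
  have h5 : i - 1 + 1 = i := by omega
  rw [h5] at h4
  have h6 := (B0 g).mul_mem ((B0 g).inv_mem h3) h4
  rwa [inv_inv, mul_inv_cancel_left] at h6

omit E in
theorem ws_bet (i : ℕ) (hi : i + 1 ≤ g) : bet g (i + 1) * (bN g 0)⁻¹ ∈ B0 g := by
  induction i with
  | zero =>
    have h1 : bet g (0 + 1) = bN g 0 * 1 := rfl
    rw [h1, mul_one, mul_inv_cancel]
    exact (B0 g).one_mem
  | succ i ih =>
    have h1 : bet g (i + 1 + 1) = bN g (i + 1) * bet g (i + 1) := rfl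
    rw [h1, mul_assoc]
    exact (B0 g).mul_mem (ws_bB (by omega) (by omega)) (ih (by omega))

omit E in
theorem ws_closure {S : Set (SurfaceGroup g)} {H : Subgroup (SurfaceGroup g)}
    (φ : SurfaceGroup g →* SurfaceGroup g) (h : ∀ x ∈ S, φ x ∈ H) {x : SurfaceGroup g}
    (hx : x ∈ Subgroup.closure S) : φ x ∈ H := by
  have h1 : Subgroup.closure S ≤ H.comap φ := (Subgroup.closure_le _).2 h
  exact h1 hx

theorem c_A : del g 1 ∈ A0 g := by
  have h1 : del g 1 = 1 * ⁅aN g 0, bN g 0⁆ := rfl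
  rw [h1, one_mul]
  exact ws_comm_mem ws_a0A ws_b0A

theorem c_B : del g 1 ∈ B0 g := by
  exact E.ws_del le_rfl (by have := E.hg; omega)

theorem gen_AB : A0 g ⊔ B0 g = ⊤ := by
  rw [eq_top_iff, ← closureN g, Subgroup.closure_le]
  rintro x ⟨i, hi, hx⟩
  rcases Nat.eq_zero_or_pos i with rfl | h0
  · apply Subgroup.mem_sup_left
    rcases hx with rfl | rfl
    · exact ws_a0A
    · exact ws_b0A
  · apply Subgroup.mem_sup_right
    rcases hx with rfl | rfl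
    · exact ws_aB h0 hi
    · exact ws_bB h0 hi

theorem mem_A {x : SurfaceGroup g} (hx : x ∈ A0 g) :
    E.io x ∈ Subgroup.closure (D.R.s '' {0, 1, 2, 3}) := by
  have h1 : A0 g ≤ (Subgroup.closure (D.R.s '' {0, 1, 2, 3})).comap E.io := by
    unfold A0
    rw [Subgroup.closure_le]
    have h0 : E.s 0 ∈ Subgroup.closure (D.R.s '' {0, 1, 2, 3}) :=
      Subgroup.subset_closure ⟨0, by simp, E.ws_s0.symm⟩
    have h1 : E.s 1 ∈ Subgroup.closure (D.R.s '' {0, 1, 2, 3}) :=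
      Subgroup.subset_closure ⟨1, by simp, by rw [ws_s, Nat.cast_one]⟩
    have h2 : E.s 2 ∈ Subgroup.closure (D.R.s '' {0, 1, 2, 3}) :=
      Subgroup.subset_closure ⟨2, by simp, by rw [ws_s, Nat.cast_ofNat]⟩
    have h3 : E.s 3 ∈ Subgroup.closure (D.R.s '' {0, 1, 2, 3}) :=
      Subgroup.subset_closure ⟨3, by simp, E.ws_s3.symm⟩
    rintro x (rfl | rfl)
    · rw [SetLike.mem_coe, Subgroup.mem_comap, ws_a0]
      exact Subgroup.mul_mem _ h0 h2
    · rw [SetLike.mem_coe, Subgroup.mem_comap, ws_b0]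
      exact Subgroup.mul_mem _ h3 h1
  exact h1 hx

theorem mem_B {x : SurfaceGroup g} (hx : x ∈ B0 g) :
    E.io x ∈ Subgroup.closure (D.R.s '' {k | k ≠ 1 ∧ k ≠ 2}) := by
  have hg := E.hg
  have h1 : B0 g ≤ (Subgroup.closure (D.R.s '' {k | k ≠ 1 ∧ k ≠ 2})).comap E.io := by
    unfold B0
    rw [Subgroup.closure_le]
    have h0 : ∀ n : ℕ, n < 2 * g + 2 → n ≠ 1 → n ≠ 2 →
        D.R.s ((n : ℕ) : ZMod (2 * g + 2)) ∈
          Subgroup.closure (D.R.s '' {k | k ≠ 1 ∧ k ≠ 2}) := by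
      intro n h1 h2 h3
      refine Subgroup.subset_closure ⟨_, ⟨?_, ?_⟩, rfl⟩
      · have := E.ws_cast_ne (n := n) (m := 1) h1 (by omega) h2
        rwa [Nat.cast_one] at this
      · have := E.ws_cast_ne (n := n) (m := 2) h1 (by omega) h3
        rwa [Nat.cast_ofNat] at this
    have h00 := h0 0 (by omega) (by omega) (by omega)
    rw [Nat.cast_zero] at h00
    rintro x ⟨i, h1, h2, rfl | rfl⟩
    · rw [SetLike.mem_coe, Subgroup.mem_comap, E.ioa i h2]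
      exact Subgroup.mul_mem _ (Subgroup.mul_mem _ (Subgroup.mul_mem _
        (h0 _ (by omega) (by omega) (by omega)) h00) (h0 _ (by omega) (by omega) (by omega)))
        (h0 _ (by omega) (by omega) (by omega))
    · rw [SetLike.mem_coe, Subgroup.mem_comap, E.iob i h2]
      exact Subgroup.mul_mem _ (h0 _ (by omega) (by omega) (by omega))
        (h0 _ (by omega) (by omega) (by omega))
  exact h1 hx

theorem R_A {j : ZMod (2 * g + 2)} (hj : j = 0 ∨ j = 3) {x : SurfaceGroup g} (hx : x ∈ A0 g) :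
    E.R j x ∈ A0 g := by
  have e01 := E.s_adj 0
  have e12 := E.s_adj 1
  have e23 := E.s_adj 2
  have e01' : ∀ x, E.s 1 * (E.s 0 * x) = E.s 0 * (E.s 1 * x) := fun x => by
    rw [← mul_assoc, ← e01, mul_assoc]
  refine ws_closure (E.R j).toMonoidHom ?_ hx
  have hc := E.c_A
  rcases hj with rfl | rfl
  · rintro x (rfl | rfl)
    · have h1 : E.R 0 (aN g 0) = (aN g 0)⁻¹ := by
        apply E.inj
        rw [ws_R0, map_inv, ws_a0, mul_inv_rev, ws_inv, ws_inv]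
        simp only [mul_assoc, ws_sq']
      show E.R 0 (aN g 0) ∈ _
      rw [h1]
      exact (A0 g).inv_mem ws_a0A
    · have h1 : E.R 0 (bN g 0) = del g 1 * bN g 0 := by
        apply E.inj
        rw [ws_R0, map_mul, ws_b0, ws_c]
        simp only [mul_assoc, ws_sq']
        rw [e01]
      show E.R 0 (bN g 0) ∈ _
      rw [h1]
      exact (A0 g).mul_mem hc ws_b0A
  · rintro x (rfl | rfl)
    · have h1 : E.R 3 (aN g 0) = (del g 1)⁻¹ * aN g 0 := by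
        apply E.inj
        rw [ws_R3, map_mul, map_inv, ws_a0, ws_c]
        simp only [mul_inv_rev, ws_inv, mul_assoc, ws_sq']
        rw [e23]
      show E.R 3 (aN g 0) ∈ _
      rw [h1]
      exact (A0 g).mul_mem ((A0 g).inv_mem hc) ws_a0A
    · have h1 : E.R 3 (bN g 0) = (bN g 0)⁻¹ := by
        apply E.inj
        rw [ws_R3, map_inv, ws_b0, mul_inv_rev, ws_inv, ws_inv]
        simp only [mul_assoc, ws_sq']
      show E.R 3 (bN g 0) ∈ _
      rw [h1]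
      exact (A0 g).inv_mem ws_b0A

theorem R_B {j : ZMod (2 * g + 2)} (hj : j = 0 ∨ j = 3) {x : SurfaceGroup g} (hx : x ∈ B0 g) :
    E.R j x ∈ B0 g := by
  obtain ⟨r⟩ := exists_refl g
  refine ws_closure (E.R j).toMonoidHom ?_ hx
  rcases hj with rfl | rfl
  · have h0 : ∀ x, E.R 0 x = r.R0 x := by
      intro x
      apply E.inj
      rw [ws_R0, E.io_R0]
    rintro x ⟨i, h1, h2, rfl | rfl⟩
    · show E.R 0 (aN g i) ∈ _
      rw [h0, r.R0a i h2]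
      have h3 := E.ws_del h1 h2.le
      exact (B0 g).mul_mem ((B0 g).mul_mem h3 ((B0 g).inv_mem (ws_aB h1 h2)))
        ((B0 g).inv_mem h3)
    · show E.R 0 (bN g i) ∈ _
      rw [h0, r.R0b i h2]
      have h3 := E.ws_del h1 h2.le
      have h4 := E.ws_del (i := i + 1) (by omega) (by omega)
      exact (B0 g).mul_mem ((B0 g).mul_mem h4 (ws_bB h1 h2)) ((B0 g).inv_mem h3)
  · have h0 : ∀ x, E.R 3 x = bN g 0 * r.R1 x * (bN g 0)⁻¹ := by
      intro x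
      apply E.inj
      rw [ws_R3, map_mul, map_mul, map_inv, ws_b0, E.io_R1]
      simp only [mul_inv_rev, ws_inv, mul_assoc, ws_sq']
    rintro x ⟨i, h1, h2, rfl | rfl⟩
    · show E.R 3 (aN g i) ∈ _
      obtain ⟨k, rfl⟩ : ∃ k, i = k + 1 := ⟨i - 1, by omega⟩
      have h3 := E.ws_del h1 h2.le
      have h4 := ws_bet (g := g) k (by omega)
      have h5 : E.R 3 (aN g (k + 1)) = (bet g (k + 1) * (bN g 0)⁻¹)⁻¹ *
          (del g (k + 1) * aN g (k + 1)) * (bet g (k + 1) * (bN g 0)⁻¹) := by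
        rw [h0, r.R1a _ h2]
        group
      rw [h5]
      exact (B0 g).mul_mem ((B0 g).mul_mem ((B0 g).inv_mem h4)
        ((B0 g).mul_mem h3 (ws_aB h1 h2))) h4
    · show E.R 3 (bN g i) ∈ _
      obtain ⟨k, rfl⟩ : ∃ k, i = k + 1 := ⟨i - 1, by omega⟩
      have h4 := ws_bet (g := g) k (by omega)
      have h4' := ws_bet (g := g) (k + 1) (by omega)
      have h5 : E.R 3 (bN g (k + 1)) = (bet g (k + 1 + 1) * (bN g 0)⁻¹)⁻¹ *
          (bet g (k + 1) * (bN g 0)⁻¹) := by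
        rw [h0, r.R1b _ h2]
        group
      rw [h5]
      exact (B0 g).mul_mem ((B0 g).inv_mem h4') h4

theorem elt_A {k : ZMod (2 * g + 2)} (hk : k = 1 ∨ k = 2) :
    ∃ x ∈ A0 g, E.io x = D.R.s (k - 1) * D.R.s (k + 1) := by
  rcases hk with rfl | rfl
  · refine ⟨aN g 0, ws_a0A, ?_⟩
    rw [ws_a0, ws_s0]
    have h1 : (1 : ZMod (2 * g + 2)) - 1 = 0 := by ring
    have h2 : (1 : ZMod (2 * g + 2)) + 1 = ((2 : ℕ) : ZMod (2 * g + 2)) := by
      rw [Nat.cast_ofNat]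
      ring
    rw [h1, h2]
    rfl
  · refine ⟨(bN g 0)⁻¹, (A0 g).inv_mem ws_b0A, ?_⟩
    rw [map_inv, ws_b0, mul_inv_rev, ws_inv, ws_inv]
    have h1 : (2 : ZMod (2 * g + 2)) - 1 = ((1 : ℕ) : ZMod (2 * g + 2)) := by
      rw [Nat.cast_one]
      ring
    have h2 : (2 : ZMod (2 * g + 2)) + 1 = ((3 : ℕ) : ZMod (2 * g + 2)) := by
      rw [Nat.cast_ofNat]
      ring
    rw [h1, h2]
    rfl

theorem elt_B {k : ZMod (2 * g + 2)} (h0 : k ≠ 0) (h1 : k ≠ 1) (h2 : k ≠ 2) (h3 : k ≠ 3) :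
    ∃ x ∈ B0 g, E.io x = D.R.s (k - 1) * D.R.s (k + 1) := by
  have hg := E.hg
  set m := k.val with hm
  have hkm : k = ((m : ℕ) : ZMod (2 * g + 2)) := (ZMod.natCast_zmod_val k).symm
  have hlt : m < 2 * g + 2 := ZMod.val_lt k
  have n0 : m ≠ 0 := fun h => h0 (by rw [hkm, h, Nat.cast_zero])
  have n1 : m ≠ 1 := fun h => h1 (by rw [hkm, h, Nat.cast_one])
  have n2 : m ≠ 2 := fun h => h2 (by rw [hkm, h, Nat.cast_ofNat])
  have n3 : m ≠ 3 := fun h => h3 (by rw [hkm, h, Nat.cast_ofNat])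
  have key : ∀ n : ℕ, m = n + 1 → D.R.s (k - 1) * D.R.s (k + 1) = E.s n * E.s (n + 2) := by
    intro n hn
    have e1 : k - 1 = ((n : ℕ) : ZMod (2 * g + 2)) := by
      rw [hkm, hn]
      push_cast
      ring
    have e2 : k + 1 = ((n + 2 : ℕ) : ZMod (2 * g + 2)) := by
      rw [hkm, hn]
      push_cast
      ring
    rw [e1, e2]
    rfl
  rcases Nat.even_or_odd' m with ⟨t, ht | ht⟩
  · obtain ⟨i, rfl⟩ : ∃ i, t = i + 1 := ⟨t - 1, by omega⟩
    refine ⟨(bN g i)⁻¹, (B0 g).inv_mem (ws_bB (by omega) (by omega)), ?_⟩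
    rw [key (2 * i + 1) (by omega), map_inv]
    have h4 : E.io (bN g i) = E.s (2 * i + 3) * E.s (2 * i + 1) := E.iob i (by omega)
    rw [h4, mul_inv_rev, ws_inv, ws_inv]
  · obtain ⟨i, rfl⟩ : ∃ i, t = i + 1 := ⟨t - 1, by omega⟩
    rw [key (2 * i + 2) (by omega)]
    have hi1 : 1 ≤ i := by omega
    have hig : i < g := by omega
    have hm1 : del g i * aN g i ∈ B0 g := (B0 g).mul_mem (E.ws_del hi1 hig.le) (ws_aB hi1 hig)
    by_cases hi2 : i + 1 < g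
    · have hm2 : del g (i + 1) * aN g (i + 1) ∈ B0 g :=
        (B0 g).mul_mem (E.ws_del (by omega) (by omega)) (ws_aB (by omega) (by omega))
      refine ⟨(del g i * aN g i)⁻¹ * (del g (i + 1) * aN g (i + 1)),
        (B0 g).mul_mem ((B0 g).inv_mem hm1) hm2, ?_⟩
      rw [map_mul, map_inv, E.io_da hig, E.io_da hi2, mul_inv_rev, ws_inv, ws_inv, mul_assoc,
        ws_sq']
      have h5 : 2 * (i + 1) + 2 = 2 * i + 2 + 2 := by ring
      rw [h5]
    · refine ⟨(del g i * aN g i)⁻¹, (B0 g).inv_mem hm1, ?_⟩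
      rw [map_inv, E.io_da hig, mul_inv_rev, ws_inv, ws_inv]
      have h5 : 2 * i + 2 + 2 = 0 + (2 * g + 2) := by omega
      rw [h5, E.s_mod]

theorem dih {x : SurfaceGroup g} (hx : E.io x ∈ Subgroup.closure (D.R.s '' {0, 3})) :
    x ∈ Subgroup.zpowers (del g 1) := by
  have hg := E.hg
  have hform : ∀ w ∈ Subgroup.closure (D.R.s '' {0, 3}),
      ∃ n : ℤ, w = (E.s 0 * E.s 3) ^ n ∨ w = (E.s 0 * E.s 3) ^ n * E.s 0 := by
    have hconj : ∀ n : ℤ, E.s 0 * (E.s 0 * E.s 3) ^ n = (E.s 0 * E.s 3) ^ (-n) * E.s 0 := by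
      intro n
      have h1 : (E.s 0 * E.s 3) ^ (-n) = E.s 0 * (E.s 0 * E.s 3) ^ n * (E.s 0)⁻¹ := by
        rw [← conj_zpow, zpow_neg, ← inv_zpow]
        congr 1
        rw [mul_inv_rev, ws_inv, ws_inv]
        simp only [mul_assoc, ws_sq']
      rw [h1, inv_mul_cancel_right]
    intro w hw
    induction hw using Subgroup.closure_induction with
    | mem x hx =>
      obtain ⟨k, hk, rfl⟩ := hx
      rcases hk with rfl | hk
      · exact ⟨0, Or.inr (by rw [zpow_zero, one_mul, ws_s0])⟩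
      · rw [Set.mem_singleton_iff] at hk
        subst hk
        refine ⟨-1, Or.inr ?_⟩
        rw [zpow_neg, zpow_one, mul_inv_rev, ws_inv, ws_inv, mul_assoc, E.sq, mul_one, ws_s3]
    | one => exact ⟨0, Or.inl (zpow_zero _).symm⟩
    | mul x y _ _ hx hy =>
      obtain ⟨n, hn⟩ := hx
      obtain ⟨l, hl⟩ := hy
      rcases hn with rfl | rfl <;> rcases hl with rfl | rfl
      · exact ⟨n + l, Or.inl (zpow_add _ _ _).symm⟩
      · exact ⟨n + l, Or.inr (by rw [zpow_add, mul_assoc])⟩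
      · refine ⟨n + -l, Or.inr ?_⟩
        rw [mul_assoc, hconj, zpow_add, mul_assoc]
      · refine ⟨n + -l, Or.inl ?_⟩
        rw [mul_assoc, ← mul_assoc (E.s 0), hconj, mul_assoc, E.sq, mul_one, zpow_add]
    | inv x _ hx =>
      obtain ⟨n, hn⟩ := hx
      rcases hn with rfl | rfl
      · exact ⟨-n, Or.inl (zpow_neg _ _).symm⟩
      · refine ⟨n, Or.inr ?_⟩
        rw [mul_inv_rev, ws_inv, ← zpow_neg, hconj, neg_neg]
  have hchi : ∀ n : ℕ, n < 2 * g + 2 → D.chi (E.s n) = Multiplicative.ofAdd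
      (if n % 2 = 0 then ((1, 0) : ZMod 2 × ZMod 2) else (0, 1)) := by
    intro n hn
    have h1 := Classical.choose_spec D.exists_chi (n : ZMod (2 * g + 2))
    rw [ZMod.val_natCast, Nat.mod_eq_of_lt hn] at h1
    exact h1
  have hc0 := hchi 0 (by omega)
  have hc3 := hchi 3 (by omega)
  rw [if_pos rfl] at hc0
  rw [if_neg (by norm_num)] at hc3
  have hcn : ∀ n : ℤ, D.chi ((E.s 0 * E.s 3) ^ n) =
      Multiplicative.ofAdd (((n : ℤ) : ZMod 2), ((n : ℤ) : ZMod 2)) := by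
    intro n
    rw [map_zpow, map_mul, hc0, hc3, ← ofAdd_add, ← ofAdd_zsmul]
    congr 1
    ext <;> simp
  have hx1 := E.chi_io x
  obtain ⟨n, hn | hn⟩ := hform _ hx
  · rw [hn, hcn] at hx1
    have h1 : (((n : ℤ) : ZMod 2), ((n : ℤ) : ZMod 2)) = (0 : ZMod 2 × ZMod 2) :=
      Multiplicative.ofAdd.injective hx1
    have h2 : ((n : ℤ) : ZMod 2) = 0 := congrArg Prod.fst h1
    rw [ZMod.intCast_zmod_eq_zero_iff_dvd] at h2
    obtain ⟨m, rfl⟩ : ∃ m : ℤ, n = 2 * m := by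
      obtain ⟨m, hm⟩ := h2
      exact ⟨m, by simpa using hm⟩
    refine ⟨m, ?_⟩
    apply E.inj
    show E.io ((del g 1) ^ m) = E.io x
    rw [hn, map_zpow, ws_c, zpow_mul]
    congr 1
  · exfalso
    rw [hn, map_mul, hcn, hc0, ← ofAdd_add] at hx1
    have h1 : (((n : ℤ) : ZMod 2), ((n : ℤ) : ZMod 2)) + ((1, 0) : ZMod 2 × ZMod 2) =
        (0 : ZMod 2 × ZMod 2) := Multiplicative.ofAdd.injective hx1
    have h2 := congrArg Prod.fst h1
    have h3 := congrArg Prod.snd h1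
    simp only [Prod.mk_add_mk, Prod.fst_zero, Prod.snd_zero, add_zero] at h2 h3
    rw [h3, zero_add] at h2
    exact one_ne_zero h2

end Emb

end Pool.Agent.LDJ
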