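import Pool.Agent.LDJ.WAtt
import Pool.Agent.LDJ.WSide
import Pool.Agent.LDJ.WDom

/-!
LDJ.WSplit: the curve `c = del g 1` is separating, with sides `A0`, `B0` (ping-pong).
`E.io c = (s_0 s_3)²`, `D.n` is the normal of its axis.

PROOFS.
`exists_f0`: `f = e_3 + κ e_0`, `κ = -B (e 0) (e 3) > 1`: `B f f = 1 - κ² < 0`, third coordinate positive,
`B f (e 0) = 0`, `B f (e 3) = 1 - κ² < 0`, `B f (e k) ≤ 0` for the others (all products of different `e`s
are `≤ 0`), `B f D.n = 0`. Normalise.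
`rep_dih`: `s_0`, `s_3` fix `D.n` (`n0`, `n3`).
`nor_c`: `(E.F.data c_ne).un/.wn` and `E.orth` with `m = D.n`, `fdat_nor` (FDat).
`exists_sg`: `side c σ w ↔ w ≠ att c ∧ 0 < σ * sc (att c) (nor c) w`, `sc u m w = -(B w m)/(B w u)` and
`B w (att c) < 0` for `w ≠ att c` (`Cir.neg`); `σ = 1` if `nor c = D.n` and `-1` otherwise;
`B (att c) D.n = 0`.
`ppA`: `comap_rep` with `κ = {k // k = 0 ∨ k = 1 ∨ k = 2 ∨ k = 3}`: `E.io x = j w'` (`mem_A`). `dom` for
the subsystem, `n = D.n`, the set `{k | k.1 = 0 ∨ k.1 = 3}`, `x = D.x0`: `m = rep (E.io x) n` has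
`B p m ≥ B p n = 0` for `p` of `exists_f0`, and `B n m ≤ 1 - 2 x0² < -1`, because otherwise
`E.io x ∈ closure (s '' {0, 3})`, `x ∈ zpowers c` (`dih`). With `y = rep (E.io x) u`:
`B y m = B u n ≤ 0`, so `0 < B y n` by `pp`.
`ppB`: the same with `-D.n` and `κ = {k // k ≠ 1 ∧ k ≠ 2}` (`mem_B`, `D.nk`).
`nzp`: if `x = c^j` then `rep (io x)` fixes `D.n`; with `io x = s_{k-1} s_{k+1}`: for `k = 1`:
`s_0 s_2 n = n` gives `s_2 n = n`, `B n (e 2) = 0`, contradiction to `n2`. For `k = 4`: `s_3 s_5 n = n`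
gives `s_5 n = n`, `B n (e 5) = 0`, contradiction to `nk`.
`split`: `Q = E.F.circ`. `ne`: `c_ne`; `c_A`, `c_B`, `gen_AB`; `nA`, `nB`: `elt_A` (`k = 1`), `elt_B` (`k = 4`)
and `nzp`; `pa`: `att (a x a⁻¹) = act a (att x)` is a positive multiple of `rep (io a) (att x)`
(`att_conj`, `fd_act_val`), `ppA`; `pb` the same. About 250 lines.
-/

namespace Pool.Agent.LDJ

open Pool.Agent.Hhelper67.Johnson
open scoped commutatorElement

namespace Emb

variable {g : ℕ} {D : RNData g} (E : Emb g D)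

include E in
/-- a point of the fundamental polygon on the axis of `c` -/
theorem exists_f0 : ∃ p ∈ D.R.Poly, B p D.n = 0 := by
  have hk := wp_far (D := D) E.hg
  obtain ⟨κ, hκ⟩ : ∃ κ : ℝ, κ = -B (D.R.e 0) (D.R.e 3) := ⟨_, rfl⟩
  have hκ1 : 1 < κ := by rw [hκ]; linarith
  have h03 : B (D.R.e 0) (D.R.e 3) = -κ := by rw [hκ]; ring
  have h30 : B (D.R.e 3) (D.R.e 0) = -κ := by rw [B_comm]; exact h03
  have h0 := D.R.one 0
  have h3 := D.R.one 3
  obtain ⟨f, hf⟩ : ∃ f : V, f = D.R.e 3 + κ • D.R.e 0 := ⟨_, rfl⟩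
  have hfB : ∀ v, B f v = B (D.R.e 3) v + κ * B (D.R.e 0) v := by
    intro v
    rw [hf, B_add_left, B_smul_left]
  have hf0 : B f (D.R.e 0) = 0 := by
    rw [hfB, h30, h0]
    ring
  have hf3 : B f (D.R.e 3) = 1 - κ ^ 2 := by
    rw [hfB, h3, h03]
    ring
  have hff : B f f = 1 - κ ^ 2 := by
    have h1 : B f f = B f (D.R.e 3) + κ * B f (D.R.e 0) := by
      conv_lhs => rw [B_comm, hfB]
      rw [B_comm _ f, B_comm _ f]
    rw [h1, hf0, hf3]
    ring
  have hneg : 1 - κ ^ 2 < 0 := by nlinarith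
  obtain ⟨q, hq⟩ : ∃ q : ℝ, q = Real.sqrt (κ ^ 2 - 1) := ⟨_, rfl⟩
  have hq0 : 0 < q := by
    rw [hq]
    exact Real.sqrt_pos.2 (by linarith)
  have hqq : q * q = κ ^ 2 - 1 := by
    rw [hq]
    exact Real.mul_self_sqrt (by linarith)
  have hqi : 0 < q⁻¹ := inv_pos.2 hq0
  refine ⟨q⁻¹ • f, ⟨⟨?_, ?_⟩, ?_⟩, ?_⟩
  · rw [B_smul_left, B_smul_right, hff]
    have h2 : q⁻¹ * q⁻¹ * (q * q) = 1 := by
      field_simp
    rw [hqq] at h2
    linear_combination (-1 : ℝ) * h2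
  · have h1 : 0 < f 2 := by
      rw [hf]
      simp only [Pi.add_apply, Pi.smul_apply, smul_eq_mul]
      have p0 := D.pos 0
      have p3 := D.pos 3
      have := mul_pos (by linarith : (0 : ℝ) < κ) p0
      linarith
    simp only [Pi.smul_apply, smul_eq_mul]
    exact mul_pos hqi h1
  · intro k
    rw [B_smul_left]
    refine mul_nonpos_of_nonneg_of_nonpos hqi.le ?_
    by_cases hk0 : k = 0
    · rw [hk0, hf0]
    · by_cases hk3 : k = 3
      · rw [hk3, hf3]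
        exact hneg.le
      · rw [hfB]
        have e1 := D.R.wf_e_le (k := 3) (l := k) (fun h => hk3 h.symm)
        have e2 := D.R.wf_e_le (k := 0) (l := k) (fun h => hk0 h.symm)
        have e3 := mul_nonneg (by linarith : (0 : ℝ) ≤ κ) (neg_nonneg.2 e2)
        linarith
  · rw [B_smul_left, hfB, B_comm _ D.n, B_comm _ D.n, D.n3, D.n0]
    ring

theorem rep_dih {w : D.R.W} (hw : w ∈ Subgroup.closure (D.R.s '' {0, 3})) :
    D.R.rep w D.n = D.n := by
  have h2 : Subgroup.closure (D.R.s '' {0, 3}) ≤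
      (MulAction.stabilizer (V ≃ₗ[ℝ] V) D.n).comap D.R.rep := by
    rw [Subgroup.closure_le]
    rintro _ ⟨k, hk, rfl⟩
    simp only [SetLike.mem_coe, Subgroup.mem_comap, MulAction.mem_stabilizer_iff]
    change D.R.rep (D.R.s k) D.n = D.n
    have h0 : B D.n (D.R.e k) = 0 := by
      rcases hk with rfl | hk
      · exact D.n0
      · rw [Set.mem_singleton_iff] at hk
        rw [hk]
        exact D.n3
    rw [D.R.wr_s, h0, mul_zero, zero_smul, sub_zero]
  exact MulAction.mem_stabilizer_iff.1 (h2 hw)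

theorem wx_s0 : D.R.s 0 ∈ Subgroup.closure (D.R.s '' {0, 3}) :=
  Subgroup.subset_closure ⟨0, by simp, rfl⟩

theorem wx_s3 : D.R.s 3 ∈ Subgroup.closure (D.R.s '' {0, 3}) :=
  Subgroup.subset_closure ⟨3, by simp, rfl⟩

theorem wx_c : E.io (del g 1) ∈ Subgroup.closure (D.R.s '' {0, 3}) := by
  rw [E.wp_c]
  exact Subgroup.mul_mem _ (Subgroup.mul_mem _ (Subgroup.mul_mem _ wx_s0 wx_s3) wx_s0) wx_s3

theorem nor_c : E.F.nor (del g 1) = D.n ∨ E.F.nor (del g 1) = -D.n := by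
  have hc := E.c_ne
  have hd := E.F.data hc
  obtain ⟨h1, h2⟩ := E.orth hc (rep_dih E.wx_c)
  exact fdat_nor (E.F.att_ne hc).symm hd.hn D.hn hd.un hd.wn h1 h2

theorem exists_sg : ∃ σ : ℝ, (σ = 1 ∨ σ = -1) ∧ ∀ w : Cir,
    (E.F.circ.side (del g 1) σ w ↔ 0 < B w.1 D.n) ∧
    (E.F.circ.side (del g 1) (-σ) w ↔ B w.1 D.n < 0) := by
  have hc := E.c_ne
  obtain ⟨h1, h2⟩ := E.orth hc (rep_dih E.wx_c)
  have key : ∀ τ : ℝ, ∀ w : Cir, E.F.circ.side (del g 1) τ w ↔
      (w ≠ E.F.att (del g 1) ∧ 0 < τ * (-(B w.1 (E.F.nor (del g 1))) /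
        B w.1 (E.F.att (del g 1)).1)) := fun τ w => Iff.rfl
  have pos : ∀ a b : ℝ, b < 0 → (0 < a / b ↔ a < 0) := by
    intro a b hb
    constructor
    · intro h
      by_contra ha
      push Not at ha
      exact absurd h (not_lt.2 (div_nonpos_of_nonneg_of_nonpos ha hb.le))
    · intro h
      exact div_pos_of_neg_of_neg h hb
  have main : ∀ τ τ' : ℝ, ∀ w : Cir, (∀ v : V, τ * -(B v (E.F.nor (del g 1))) = -(τ' * B v D.n)) →
      (E.F.circ.side (del g 1) τ w ↔ 0 < τ' * B w.1 D.n) := by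
    intro τ τ' w hτ
    rw [key]
    by_cases hw : w = E.F.att (del g 1)
    · rw [hw, h1, mul_zero]
      simp
    · have hneg := Cir.neg hw
      rw [← mul_div_assoc, hτ, pos _ _ hneg]
      constructor
      · rintro ⟨_, h⟩
        linarith
      · intro h
        exact ⟨hw, by linarith⟩
  rcases E.nor_c with h | h
  · refine ⟨1, Or.inl rfl, fun w => ⟨?_, ?_⟩⟩
    · rw [main 1 1 w (fun v => by rw [h]; ring), one_mul]
    · rw [main (-1) (-1) w (fun v => by rw [h]; ring)]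
      constructor <;> intro h <;> linarith
  · have hB : ∀ v : V, B v (-D.n) = -B v D.n := by
      intro v
      simp only [B, Pi.neg_apply]
      ring
    refine ⟨-1, Or.inr rfl, fun w => ⟨?_, ?_⟩⟩
    · rw [main (-1) 1 w (fun v => by rw [h, hB]; ring), one_mul]
    · rw [main (- -1) (-1) w (fun v => by rw [h, hB]; ring)]
      constructor <;> intro h <;> linarith

/-- the sign of the side of `A0` -/
noncomputable def sg : ℝ := Classical.choose E.exists_sg

theorem side_A (w : Cir) : E.F.circ.side (del g 1) E.sg w ↔ 0 < B w.1 D.n :=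
  ((Classical.choose_spec E.exists_sg).2 w).1

theorem side_B (w : Cir) : E.F.circ.side (del g 1) (-E.sg) w ↔ B w.1 D.n < 0 :=
  ((Classical.choose_spec E.exists_sg).2 w).2

/-- ping-pong for one special subgroup -/
theorem wx_pp {n : V} (hn : B n n = 1) {P : ZMod (2 * g + 2) → Prop}
    (h0 : B n (D.R.e 0) = 0) (h3 : B n (D.R.e 3) = 0)
    (h1 : ∀ k, P k → k ≠ 0 → k ≠ 3 → D.x0 ≤ B n (D.R.e k))
    (hp : ∃ p ∈ D.R.Poly, B p n = 0) {x : SurfaceGroup g}
    (hx : E.io x ∈ Subgroup.closure (D.R.s '' {k | P k}))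
    (hc : x ∉ Subgroup.zpowers (del g 1)) {u : V}
    (hu : u ∈ Light) (h : B u n ≤ 0) : 0 < B (D.R.rep (E.io x) u) n := by
  classical
  obtain ⟨j, hj1, hj2, hj3⟩ := D.R.comap_rep (κ := {k : ZMod (2 * g + 2) // P k})
    Subtype.val Subtype.val_injective
  obtain ⟨w', hw'⟩ := hj3 (E.io x) (by rw [Subtype.range_coe_subtype]; exact hx)
  have hx0 := D.hx0
  obtain ⟨d1, d2⟩ := (D.R.comap (κ := {k : ZMod (2 * g + 2) // P k})
    Subtype.val Subtype.val_injective).dom hn {k | k.1 = 0 ∨ k.1 = 3} hx0 (by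
      rintro k (hk | hk)
      · show B n (D.R.e k.1) = 0
        rw [hk, h0]
      · show B n (D.R.e k.1) = 0
        rw [hk, h3]) (by
      intro k hk
      have hk' : ¬ (k.1 = 0 ∨ k.1 = 3) := hk
      push Not at hk'
      exact h1 k.1 k.2 hk'.1 hk'.2) w'
  rw [← hj2, hw'] at d1 d2
  have d3 : B n (D.R.rep (E.io x) n) ≤ 1 - 2 * D.x0 ^ 2 := by
    rcases d2 with d2 | d2
    · exfalso
      apply hc
      apply E.dih
      rw [← hw']
      have h4 : Subgroup.closure ((D.R.comap (κ := {k : ZMod (2 * g + 2) // P k})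
          Subtype.val Subtype.val_injective).s '' {k | k.1 = 0 ∨ k.1 = 3}) ≤
          (Subgroup.closure (D.R.s '' {0, 3})).comap j := by
        rw [Subgroup.closure_le]
        rintro _ ⟨k, hk, rfl⟩
        rw [SetLike.mem_coe, Subgroup.mem_comap, hj1]
        exact Subgroup.subset_closure ⟨k.1, hk, rfl⟩
      exact h4 d2
    · exact d2
  obtain ⟨p, hpP, hpn⟩ := hp
  have hy : D.R.rep (E.io x) u ∈ Light :=
    light_map (D.R.rep_pres (E.io x)) (fun z hz => D.R.rep_fut (E.io x) hz) hu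
  refine pp (m := D.R.rep (E.io x) n) (n := n) ?_ hn ?_ ⟨p, hpP.1, hpn.ge, ?_⟩ hy ?_
  · rw [D.R.rep_pres, hn]
  · rw [B_comm]
    nlinarith
  · rw [← hpn]
    exact d1 p fun k => hpP.2 k.1
  · rw [D.R.rep_pres]
    exact h

theorem ppA {x : SurfaceGroup g} (hx : x ∈ A0 g) (hc : x ∉ Subgroup.zpowers (del g 1)) {u : V}
    (hu : u ∈ Light) (h : B u D.n ≤ 0) : 0 < B (D.R.rep (E.io x) u) D.n := by
  refine E.wx_pp D.hn (P := fun k => k ∈ ({0, 1, 2, 3} : Set (ZMod (2 * g + 2)))) D.n0 D.n3 ?_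
    E.exists_f0 (E.mem_A hx) hc hu h
  intro k hk h0 h3
  rcases hk with hk | hk | hk | hk
  · exact absurd hk h0
  · rw [hk]
    exact D.n1
  · rw [hk]
    exact D.n2
  · exact absurd hk h3

theorem wx_neg (v : V) : B v (-D.n) = -B v D.n := by
  simp only [B, Pi.neg_apply]
  ring

theorem wx_neg' (v : V) : B (-D.n) v = -B D.n v := by
  simp only [B, Pi.neg_apply]
  ring

theorem ppB {x : SurfaceGroup g} (hx : x ∈ B0 g) (hc : x ∉ Subgroup.zpowers (del g 1)) {u : V}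
    (hu : u ∈ Light) (h : 0 ≤ B u D.n) : B (D.R.rep (E.io x) u) D.n < 0 := by
  have h1 : 0 < B (D.R.rep (E.io x) u) (-D.n) := by
    refine E.wx_pp (n := -D.n) ?_ (P := fun k => k ≠ 1 ∧ k ≠ 2) ?_ ?_ ?_ ?_ (E.mem_B hx) hc hu ?_
    · rw [wx_neg, wx_neg', D.hn, neg_neg]
    · rw [wx_neg', D.n0, neg_zero]
    · rw [wx_neg', D.n3, neg_zero]
    · rintro k ⟨hk1, hk2⟩ h0 h3
      rw [wx_neg']
      linarith [D.nk k h0 hk1 hk2 h3]
    · obtain ⟨p, hp, hp2⟩ := E.exists_f0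
      exact ⟨p, hp, by rw [wx_neg, hp2, neg_zero]⟩
    · rw [wx_neg]
      linarith
  rw [wx_neg] at h1
  linarith

theorem nzp {x : SurfaceGroup g} {k : ZMod (2 * g + 2)} (hk : k = 1 ∨ k = 4)
    (h : E.io x = D.R.s (k - 1) * D.R.s (k + 1)) : x ∉ Subgroup.zpowers (del g 1) := by
  rintro ⟨j, hj⟩
  have hj' : (del g 1) ^ j = x := hj
  have h1 : D.R.rep (E.io x) D.n = D.n := by
    apply rep_dih
    rw [← hj', map_zpow]
    exact Subgroup.zpow_mem _ E.wx_c j
  have hx0 := D.hx0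
  rw [h] at h1
  have key : ∀ a b : ZMod (2 * g + 2), a ∈ ({0, 3} : Set (ZMod (2 * g + 2))) →
      D.R.rep (D.R.s a * D.R.s b) D.n = D.n → B D.n (D.R.e b) = 0 := by
    intro a b ha hab
    have h2 : D.R.rep (D.R.s a) D.n = D.n := rep_dih (Subgroup.subset_closure ⟨a, ha, rfl⟩)
    have h3 : D.R.rep (D.R.s b) D.n = D.n := by
      apply (D.R.rep (D.R.s a)).injective
      rw [h2, ← D.R.wr_mul, hab]
    rw [D.R.wr_s] at h3
    have h4 : (2 * B D.n (D.R.e b)) • D.R.e b = 0 := by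
      rw [sub_eq_self] at h3
      exact h3
    have h5 := congrArg (fun v => B v (D.R.e b)) h4
    simp only [B_smul_left, D.R.one, fdat_B_zero_left] at h5
    linarith
  rcases hk with rfl | rfl
  · have e1 : (1 : ZMod (2 * g + 2)) - 1 = 0 := by ring
    have e2 : (1 : ZMod (2 * g + 2)) + 1 = 2 := by ring
    rw [e1, e2] at h1
    have h2 := key 0 2 (by simp) h1
    have h3 := D.n2
    linarith
  · have e1 : (4 : ZMod (2 * g + 2)) - 1 = 3 := by ring
    have e2 : (4 : ZMod (2 * g + 2)) + 1 = 5 := by ring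
    rw [e1, e2] at h1
    have h2 := key 3 5 (by simp) h1
    have hg := E.hg
    have hne : ∀ m : ℕ, m < 5 → (5 : ZMod (2 * g + 2)) ≠ ((m : ℕ) : ZMod (2 * g + 2)) := by
      intro m hm
      have := E.ws_cast_ne (n := 5) (m := m) (by omega) (by omega) (by omega)
      rwa [Nat.cast_ofNat] at this
    have n0 := hne 0 (by norm_num)
    have n1 := hne 1 (by norm_num)
    have n2 := hne 2 (by norm_num)
    have n3 := hne 3 (by norm_num)
    rw [Nat.cast_zero] at n0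
    rw [Nat.cast_one] at n1
    rw [Nat.cast_ofNat] at n2 n3
    have h3 := D.nk 5 n0 n1 n2 n3
    linarith

theorem split : E.F.circ.Split (del g 1) (A0 g) (B0 g) E.sg := by
  have hg := E.hg
  have conj : ∀ (a x : SurfaceGroup g), x ≠ 1 → ∃ t : ℝ, 0 < t ∧
      (E.F.att (a * x * a⁻¹)).1 = t • D.R.rep (E.io a) (E.F.att x).1 := by
    intro a x hx
    refine ⟨((E.F.ρ a (E.F.att x).1) 2)⁻¹, inv_pos.2 (E.F.fd_rho_pos a _), ?_⟩
    rw [E.F.att_conj a hx, E.F.fd_act_val]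
    rfl
  refine ⟨(Classical.choose_spec E.exists_sg).1, E.c_ne, E.c_A, E.c_B, E.gen_AB, ?_, ?_, ?_, ?_⟩
  · obtain ⟨x, hx, h⟩ := E.elt_A (k := 1) (Or.inl rfl)
    exact ⟨x, hx, E.nzp (Or.inl rfl) h⟩
  · have hne : ∀ m : ℕ, m < 4 → (4 : ZMod (2 * g + 2)) ≠ ((m : ℕ) : ZMod (2 * g + 2)) := by
      intro m hm
      have := E.ws_cast_ne (n := 4) (m := m) (by omega) (by omega) (by omega)
      rwa [Nat.cast_ofNat] at this
    have n0 := hne 0 (by norm_num)
    have n1 := hne 1 (by norm_num)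
    have n2 := hne 2 (by norm_num)
    have n3 := hne 3 (by norm_num)
    rw [Nat.cast_zero] at n0
    rw [Nat.cast_one] at n1
    rw [Nat.cast_ofNat] at n2 n3
    obtain ⟨x, hx, h⟩ := E.elt_B (k := 4) n0 n1 n2 n3
    exact ⟨x, hx, E.nzp (Or.inr rfl) h⟩
  · intro a ha hac x hx hs
    obtain ⟨t, ht, he⟩ := conj a x hx
    have h1 : ¬ 0 < B (E.F.att x).1 D.n := fun h => hs ((E.side_A _).2 h)
    refine (E.side_A _).2 ?_
    have h2 := E.ppA ha hac (E.F.att x).light (not_lt.1 h1)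
    show 0 < B (E.F.att (a * x * a⁻¹)).1 D.n
    rw [he, B_smul_left]
    exact mul_pos ht h2
  · intro a ha hac x hx hs
    obtain ⟨t, ht, he⟩ := conj a x hx
    have h1 : ¬ B (E.F.att x).1 D.n < 0 := fun h => hs ((E.side_B _).2 h)
    refine (E.side_B _).2 ?_
    have h2 := E.ppB ha hac (E.F.att x).light (not_lt.1 h1)
    show B (E.F.att (a * x * a⁻¹)).1 D.n < 0
    rw [he, B_smul_left]
    exact mul_neg_of_pos_of_neg ht h2

end Emb

end Pool.Agent.LDJ
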