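import Pool.Agent.LDJ.WPar
import Pool.Agent.LDJ.WFund
import Pool.Agent.LDJ.FCirc

/-!
LDJ.WSurf: the surface group acts on the hyperbolic plane.

PROOFS. `cover`: the proof of `RA.cocpt` in WFund.lean contains it: with `w` minimising `-B x (rep w o)`,
`rep w⁻¹ x ∈ Poly` (copy).
`det_rep`: `det (reflL e) = 1 - 2 B e e = -1` (e.g. `LinearMap.det_toLin'`/matrix `1 - 2 e (J e)ᵀ`,
`Matrix.det_fin_three`).
`detF`: on the letters `io` is a product of 4 or 2 generators; `x ↦ det (rep (io x))` is a homomorphism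
to `ℝ` (use `extN`/`closureN`).
`adj_of_zero`: the orthogonal space of `q ∈ Hyp` is positive definite, so (`fb_cs`)
`B (e k) (e l)² ≤ 1`, while `D.far'` gives `< -1` for different non-neighbours.
`freeF`: let `rep (io x) p = p`; `q = rep w p ∈ Poly` (`cover`), `u = w (io x) w⁻¹` fixes `q`, so by `uniq`
`u ∈ closure (s '' Z)`, `Z = {k | B q (e k) = 0}`; by `adj_of_zero` the elements of `Z` are pairwise
equal or neighbours, and a cycle of length `2g+2 ≥ 6` has no triangles, so `Z ⊆ {k, k+1}`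
(or `Z` empty), and the closure of `{s_k, s_{k+1}}` (commuting involutions) is
`{1, s_k, s_{k+1}, s_k s_{k+1}}`. `u = 1` gives `io x = 1`, `x = 1` (`E.inj`); the others contradict
`free1`, `free2`.
`properF`: `Set.Finite.preimage E.inj.injOn (D.R.proper ..)`, `p = o`, `D.center`.
`cocptF`: `D.R.cocpt` with `D.cpt` gives `w`; `cos01`: `w = io y * t`, `t ∈ {1, s_0, s_1, s_0s_1}`, and
`-B x (rep (io y) o) ≤ 2 (-B x (rep w o)) (-B (rep w o) (rep (io y) o))` (`tri`),
`B (rep w o) (rep (io y) o) = B (rep t o) o`.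
About 250 lines.
-/

set_option linter.all false

namespace Pool.Agent.LDJ

open Pool.Agent.Hhelper67.Johnson
open scoped commutatorElement

theorem RA.cover {ι : Type} [Fintype ι] (R : RA ι) (hpos : ∀ k, 0 < R.e k 2) {S : ℝ} (hS : 0 < S)
    (h : ∀ k, B o (R.e k) ≤ -S) : ∀ x ∈ Hyp, ∃ w : R.W, R.rep w x ∈ R.Poly := by
  intro x hx
  have h1 : {w : R.W | -B x (R.rep w o) ≤ -B x o}.Finite := by
    refine (R.proper o_mem hS h (2 * (-B o x) * (-B x o))).subset ?_
    intro w hw
    have h2 := tri o_mem hx (R.rep_fut w o_mem)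
    have h3 : -B x (R.rep w o) ≤ -B x o := hw
    have h4 := one_le o_mem hx
    show -B o (R.rep w o) ≤ _
    calc -B o (R.rep w o) ≤ 2 * (-B o x) * (-B x (R.rep w o)) := h2
      _ ≤ _ := mul_le_mul_of_nonneg_left h3 (by linarith)
  have h2 : {w : R.W | -B x (R.rep w o) ≤ -B x o}.Nonempty := by
    refine ⟨1, ?_⟩
    show -B x (R.rep 1 o) ≤ -B x o
    rw [RA.wf_rep_one]
  obtain ⟨w, hw, hmin⟩ := Set.exists_min_image _ (fun w : R.W => -B x (R.rep w o)) h1 h2
  have hmin2 : ∀ v : R.W, -B x (R.rep w o) ≤ -B x (R.rep v o) := by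
    intro v
    by_cases hv : -B x (R.rep v o) ≤ -B x o
    · exact hmin v hv
    · have h3 : -B x (R.rep w o) ≤ -B x o := hw
      linarith
  refine ⟨w⁻¹, R.rep_fut _ hx, fun k => ?_⟩
  have h3 : B (R.rep w⁻¹ x) o = B x (R.rep w o) := by
    rw [RA.wf_move, inv_inv]
  have h5 := hmin2 (w * R.s k)
  rw [RA.wf_rep_mul] at h5
  have h6 : B x (R.rep w (R.rep (R.s k) o)) = B (R.rep w⁻¹ x) (R.rep (R.s k) o) := by
    rw [RA.wf_move R w⁻¹, inv_inv]
  rw [h6, ← h3, RA.wf_rep_s] at h5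
  have h7 : B (R.rep w⁻¹ x) (o - (2 * B o (R.e k)) • R.e k) =
      B (R.rep w⁻¹ x) o - 2 * B o (R.e k) * B (R.rep w⁻¹ x) (R.e k) := by
    simp only [B, Pi.sub_apply, Pi.smul_apply, smul_eq_mul]
    ring
  rw [h7] at h5
  have h8 := h k
  by_contra h9
  push Not at h9
  nlinarith

theorem det_reflL {e : V} (he : B e e = 1) : LinearMap.det (reflL e) = -1 := by
  rw [← LinearMap.det_toMatrix', Matrix.det_fin_three]
  have key : ∀ i j, LinearMap.toMatrix' (reflL e) i j =
      (Pi.single j 1 : V) i - 2 * B (Pi.single j 1) e * e i := by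
    intro i j
    rw [LinearMap.toMatrix'_apply]
    have h1 : (fun j' => if j' = j then (1 : ℝ) else 0) = Pi.single j 1 := by
      funext k
      rw [Pi.single_apply]
    first
      | rw [h1]
        simp only [reflL, LinearMap.coe_mk, AddHom.coe_mk, Pi.sub_apply, Pi.smul_apply, smul_eq_mul]
      | simp only [reflL, LinearMap.coe_mk, AddHom.coe_mk, Pi.sub_apply, Pi.smul_apply, smul_eq_mul]
  have b0 : B (Pi.single 0 1 : V) e = e 0 := by simp [B, Pi.single_apply]
  have b1 : B (Pi.single 1 1 : V) e = e 1 := by simp [B, Pi.single_apply]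
  have b2 : B (Pi.single 2 1 : V) e = -e 2 := by simp [B, Pi.single_apply]
  simp only [key, b0, b1, b2]
  simp only [B] at he
  simp [Pi.single_apply]
  linear_combination (-2) * he

theorem RA.det_rep {ι : Type} (R : RA ι) (k : ι) :
    LinearMap.det ((R.rep (R.s k) : V ≃ₗ[ℝ] V) : V →ₗ[ℝ] V) = -1 := by
  have h1 : ((R.rep (R.s k) : V ≃ₗ[ℝ] V) : V →ₗ[ℝ] V) = reflL (R.e k) := by
    rw [R.rep_s]
    rfl
  rw [h1, det_reflL (R.one k)]

theorem mem_closure_pair {G : Type} [Group G] {a b : G} (ha : a * a = 1) (hb : b * b = 1)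
    (hab : a * b = b * a) {u : G} (hu : u ∈ Subgroup.closure ({a, b} : Set G)) :
    u = 1 ∨ u = a ∨ u = b ∨ u = a * b := by
  have hA : ∀ y : G, (y = 1 ∨ y = a ∨ y = b ∨ y = a * b) →
      (a * y = 1 ∨ a * y = a ∨ a * y = b ∨ a * y = a * b) := by
    rintro y (rfl | rfl | rfl | rfl)
    · right; left; rw [mul_one]
    · left; exact ha
    · right; right; right; rfl
    · right; right; left; rw [← mul_assoc, ha, one_mul]
  have hB : ∀ y : G, (y = 1 ∨ y = a ∨ y = b ∨ y = a * b) →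
      (b * y = 1 ∨ b * y = a ∨ b * y = b ∨ b * y = a * b) := by
    rintro y (rfl | rfl | rfl | rfl)
    · right; right; left; rw [mul_one]
    · right; right; right; exact hab.symm
    · left; exact hb
    · right; left; rw [hab, ← mul_assoc, hb, one_mul]
  have ha' : a⁻¹ = a := inv_eq_of_mul_eq_one_right ha
  have hb' : b⁻¹ = b := inv_eq_of_mul_eq_one_right hb
  induction hu using Subgroup.closure_induction_left with
  | one => exact Or.inl rfl
  | mul_left x hx y hy ih =>
    rcases hx with rfl | hx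
    · exact hA y ih
    · rw [Set.mem_singleton_iff] at hx
      subst hx
      exact hB y ih
  | inv_mul_cancel x hx y hy ih =>
    rcases hx with rfl | hx
    · rw [ha']
      exact hA y ih
    · rw [Set.mem_singleton_iff] at hx
      subst hx
      rw [hb']
      exact hB y ih

namespace Emb

variable {g : ℕ} {D : RNData g} (E : Emb g D)

theorem detF (x : SurfaceGroup g) :
    LinearMap.det ((D.R.rep (E.io x) : V ≃ₗ[ℝ] V) : V →ₗ[ℝ] V) = 1 := by
  have hs : ∀ k, LinearEquiv.det (D.R.rep (D.R.s k)) = -1 := by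
    intro k
    apply Units.ext
    rw [LinearEquiv.coe_det, RA.det_rep]
    rfl
  have h1 : (LinearEquiv.det.comp (D.R.rep.comp E.io) : SurfaceGroup g →* ℝˣ) = 1 := by
    apply extN
    intro i hi
    constructor
    · rw [MonoidHom.comp_apply, MonoidHom.comp_apply, E.ioa i hi]
      simp only [map_mul, hs, MonoidHom.one_apply]
      norm_num
    · rw [MonoidHom.comp_apply, MonoidHom.comp_apply, E.iob i hi]
      simp only [map_mul, hs, MonoidHom.one_apply]
      norm_num
  have h2 := congrArg (fun f : SurfaceGroup g →* ℝˣ => ((f x : ℝˣ) : ℝ)) h1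
  have h3 : ((LinearEquiv.det (D.R.rep (E.io x)) : ℝˣ) : ℝ) = 1 := h2
  rw [LinearEquiv.coe_det] at h3
  exact h3

theorem adj_of_zero {q : V} (hq : q ∈ Hyp) {k l : ZMod (2 * g + 2)} (hk : B q (D.R.e k) = 0)
    (hl : B q (D.R.e l) = 0) (hkl : k ≠ l) : D.R.adj k l := by
  by_contra hadj
  have h1 := D.far' k l hkl hadj
  have h2 := fb_cs hq (v := D.R.e k) (w := D.R.e l) (by rw [B_comm]; exact hk)
    (by rw [B_comm]; exact hl)
  rw [D.R.one, D.R.one] at h2
  nlinarith

include E in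
theorem three_ne : (3 : ZMod (2 * g + 2)) ≠ 0 := by
  intro h
  have h1 : ((3 : ℕ) : ZMod (2 * g + 2)) = 0 := by exact_mod_cast h
  rw [ZMod.natCast_eq_zero_iff] at h1
  have h2 := Nat.le_of_dvd (by norm_num) h1
  have := E.hg
  omega

include E in
theorem zero_set {q : V} (hq : q ∈ Hyp) : (∀ k, B q (D.R.e k) ≠ 0) ∨
    ∃ k, ∀ m, B q (D.R.e m) = 0 → m = k ∨ m = k + 1 := by
  have key : ∀ k : ZMod (2 * g + 2), B q (D.R.e k) = 0 → B q (D.R.e (k + 1)) = 0 →
      ∀ m, B q (D.R.e m) = 0 → m = k ∨ m = k + 1 := by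
    intro k h1 h2 m h3
    by_contra hcon
    push Not at hcon
    have h4 := (D.adj_iff _ _).mp (adj_of_zero (D := D) hq h1 h3 (Ne.symm hcon.1))
    have h5 := (D.adj_iff _ _).mp (adj_of_zero (D := D) hq h2 h3 (Ne.symm hcon.2))
    rcases h4 with h4 | h4
    · exact hcon.2 h4
    · rcases h5 with h5 | h5
      · apply E.three_ne
        linear_combination -h4 - h5
      · exact hcon.1 (by linear_combination -h5)
  by_cases h : ∀ k, B q (D.R.e k) ≠ 0
  · exact Or.inl h
  · right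
    push Not at h
    obtain ⟨k, hk⟩ := h
    by_cases h2 : ∀ m, B q (D.R.e m) = 0 → m = k
    · exact ⟨k, fun m hm => Or.inl (h2 m hm)⟩
    · push Not at h2
      obtain ⟨l, hl, hlk⟩ := h2
      rcases (D.adj_iff _ _).mp (adj_of_zero (D := D) hq hk hl (Ne.symm hlk)) with h3 | h3
      · subst h3
        exact ⟨k, key k hk hl⟩
      · subst h3
        exact ⟨l, key l hl hk⟩

theorem freeF (x : SurfaceGroup g) (hx : x ≠ 1) (p : V) (hp : p ∈ Hyp) :
    D.R.rep (E.io x) p ≠ p := by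
  intro hfix
  obtain ⟨w, hw⟩ := D.R.cover D.pos D.hS D.center p hp
  set q := D.R.rep w p with hq
  have hu : D.R.rep (w * E.io x * w⁻¹) q = q := by
    rw [hq, RA.wf_rep_mul, RA.wf_rep_mul, ← RA.wf_rep_mul D.R w⁻¹, inv_mul_cancel,
      RA.wf_rep_one, hfix]
  have hcl := (D.R.uniq hw (by rw [hu]; exact hw)).2
  have hcase : w * E.io x * w⁻¹ = 1 ∨ ∃ k, (w * E.io x * w⁻¹ = D.R.s k ∨
      w * E.io x * w⁻¹ = D.R.s k * D.R.s (k + 1)) := by
    rcases E.zero_set hw.1 with h | ⟨k, hk⟩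
    · left
      have h1 : (D.R.s '' {k | B q (D.R.e k) = 0}) = ∅ := by
        rw [Set.image_eq_empty, Set.eq_empty_iff_forall_notMem]
        intro k hk
        exact h k hk
      rw [h1, Subgroup.closure_empty] at hcl
      exact Subgroup.mem_bot.mp hcl
    · have h1 : (D.R.s '' {k | B q (D.R.e k) = 0}) ⊆ {D.R.s k, D.R.s (k + 1)} := by
        rintro _ ⟨m, hm, rfl⟩
        rcases hk m hm with h | h
        · rw [h]
          exact Or.inl rfl
        · rw [h]
          exact Or.inr rfl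
      have h2 := Subgroup.closure_mono h1 hcl
      have hcomm : D.R.s k * D.R.s (k + 1) = D.R.s (k + 1) * D.R.s k :=
        D.R.s_comm ((D.adj_iff _ _).mpr (Or.inl rfl))
      rcases mem_closure_pair (D.R.s_sq k) (D.R.s_sq (k + 1)) hcomm h2 with h | h | h | h
      · exact Or.inl h
      · exact Or.inr ⟨k, Or.inl h⟩
      · exact Or.inr ⟨k + 1, Or.inl h⟩
      · exact Or.inr ⟨k, Or.inr h⟩
  have hio : E.io x = w⁻¹ * (w * E.io x * w⁻¹) * (w⁻¹)⁻¹ := by group
  rcases hcase with h | ⟨k, h | h⟩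
  · rw [h, mul_one, mul_inv_cancel] at hio
    apply hx
    apply E.inj
    rw [hio, map_one]
  · rw [h] at hio
    exact E.free1 x w⁻¹ k hio
  · rw [h] at hio
    exact E.free2 x w⁻¹ k hio

theorem properF (c : ℝ) : {x | -B o (D.R.rep (E.io x) o) ≤ c}.Finite :=
  Set.Finite.preimage E.inj.injOn (D.R.proper o_mem D.hS D.center c)

theorem cocptF : ∃ c : ℝ, ∀ x ∈ Hyp, ∃ y, -B x (D.R.rep (E.io y) o) ≤ c := by
  obtain ⟨c, hc⟩ := D.cpt
  have pos : ∀ t : D.R.W, 1 ≤ -B (D.R.rep t o) o := fun t => one_le (D.R.rep_fut t o_mem) o_mem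
  set M : ℝ := -B (D.R.rep 1 o) o + -B (D.R.rep (E.s 0) o) o + -B (D.R.rep (E.s 1) o) o +
    -B (D.R.rep (E.s 0 * E.s 1) o) o with hM
  have p1 := pos 1
  have p2 := pos (E.s 0)
  have p3 := pos (E.s 1)
  have p4 := pos (E.s 0 * E.s 1)
  refine ⟨2 * c * M, fun x hx => ?_⟩
  obtain ⟨w, hw⟩ := D.R.cocpt D.pos D.hS D.center hc x hx
  have hc0 : 0 ≤ c := by
    have := one_le hx (D.R.rep_fut w o_mem)
    linarith
  have main : ∀ y : SurfaceGroup g, ∀ t : D.R.W, w = E.io y * t → -B (D.R.rep t o) o ≤ M →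
      -B x (D.R.rep (E.io y) o) ≤ 2 * c * M := by
    intro y t hwt ht
    have h1 := tri hx (D.R.rep_fut w o_mem) (D.R.rep_fut (E.io y) o_mem)
    have h2 : B (D.R.rep w o) (D.R.rep (E.io y) o) = B (D.R.rep t o) o := by
      rw [hwt, RA.wf_rep_mul, D.R.rep_pres]
    rw [h2] at h1
    have h3 := one_le hx (D.R.rep_fut w o_mem)
    have h4 := pos t
    calc -B x (D.R.rep (E.io y) o) ≤ 2 * (-B x (D.R.rep w o)) * (-B (D.R.rep t o) o) := h1
      _ ≤ 2 * c * M := by
          apply mul_le_mul _ ht (by linarith) (by linarith)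
          linarith
  obtain ⟨y, h | h | h | h⟩ := E.cos01 w
  · exact ⟨y, main y 1 (by rw [mul_one]; exact h) (by rw [hM]; linarith)⟩
  · exact ⟨y, main y (E.s 0) h (by rw [hM]; linarith)⟩
  · exact ⟨y, main y (E.s 1) h (by rw [hM]; linarith)⟩
  · exact ⟨y, main y (E.s 0 * E.s 1) h (by rw [hM]; linarith)⟩

/-- the Fuchsian action of the surface group -/
noncomputable def F : Fuchs (SurfaceGroup g) where
  ρ := D.R.rep.comp E.io
  pres x := D.R.rep_pres (E.io x)
  fut x _ h := D.R.rep_fut (E.io x) h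
  det_one := E.detF
  free x hx p hp := E.freeF x hx p hp
  proper := E.properF
  cocpt := E.cocptF

theorem F_rho (x : SurfaceGroup g) (v : V) : E.F.ρ x v = D.R.rep (E.io x) v := rfl

end Emb

end Pool.Agent.LDJ
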